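import Pool.Agent.P.MP_f7c707_co.Simple

/-!
Counting congruent triangles and tetrahedra.
-/

namespace Pool.Agent.P.MP_f7c707_co

open Finset Pool.Agent.Lib.PolyPart

lemma halving_aux {α : Type*} (Φ : Finset α → ℝ) (D : Finset α) (β : ℝ) (hβ : 0 ≤ β)
    (h0 : Φ ∅ ≤ 0)
    (step : ∀ D' ⊆ D, D'.Nonempty → ∃ D'' ⊆ D', 2 * #D'' ≤ #D' ∧ Φ D' ≤ β + Φ D'') (t : ℕ) :
    ∀ D' ⊆ D, #D' < 2 ^ t → Φ D' ≤ t * β := by
  induction t with
  | zero =>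
    intro D' _ h
    have : D' = ∅ := card_eq_zero.1 (by omega)
    simpa [this] using h0
  | succ t ih =>
    intro D' hD' h
    rcases D'.eq_empty_or_nonempty with rfl | hne
    · exact h0.trans (by positivity)
    · obtain ⟨D'', h1, h2, h3⟩ := step D' hD' hne
      have := ih D'' (h1.trans hD') (by omega)
      push_cast
      linarith

lemma halving {α : Type*} (Φ : Finset α → ℝ) (D : Finset α) (β : ℝ) (hβ : 0 ≤ β)
    (h0 : Φ ∅ ≤ 0)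
    (step : ∀ D' ⊆ D, D'.Nonempty → ∃ D'' ⊆ D', 2 * #D'' ≤ #D' ∧ Φ D' ≤ β + Φ D'')
    {n Λ : ℝ} (hn : 1 ≤ n) (hD : #D ≤ n)
    (hlog : ∀ t : ℕ, (2 : ℝ) ^ t ≤ 2 * n → (t : ℝ) + 1 ≤ Λ) : Φ D ≤ Λ * β := by
  obtain ⟨t, ht1, ht2⟩ := exists_nat_pow_near hn one_lt_two
  have h1 := halving_aux Φ D β hβ h0 step (t + 1) D Subset.rfl (by exact_mod_cast hD.trans_lt ht2)
  refine h1.trans (mul_le_mul_of_nonneg_right ?_ hβ)
  push_cast
  exact hlog t (by linarith)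

lemma markov {α : Type*} (D : Finset α) (g : α → ℝ) (κ : ℝ) (hκ : 0 < κ) (hg : ∀ d, 0 ≤ g d)
    (h : ∑ d ∈ D, g d ≤ #D * κ) : 2 * #{d ∈ D | 2 * κ < g d} ≤ #D := by
  have h1 := card_nsmul_le_sum {d ∈ D | 2 * κ < g d} g (2 * κ) fun d hd => (mem_filter.1 hd).2.le
  have h2 : ∑ d ∈ D with 2 * κ < g d, g d ≤ ∑ d ∈ D, g d :=
    sum_le_sum_of_subset_of_nonneg (filter_subset _ _) fun d _ _ => hg d
  rw [nsmul_eq_mul] at h1
  have h3 : (2 * #{d ∈ D | 2 * κ < g d} : ℝ) * κ ≤ #D * κ := by linarith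
  exact_mod_cast le_of_mul_le_mul_right h3 hκ

lemma exists_root (k : ℕ) (hk : k ≠ 0) {x : ℝ} (hx : 1 ≤ x) : ∃ z : ℝ, 1 ≤ z ∧ z ^ k = x :=
  ⟨x ^ (k : ℝ)⁻¹, Real.one_le_rpow hx (by positivity),
    Real.rpow_inv_natCast_pow (by linarith) hk⟩

lemma card_le_list {α : Type*} [DecidableEq α] (l : List (Finset α)) (S : Finset α)
    (h : ∀ s ∈ S, ∃ U ∈ l, s ∈ U) : #S ≤ (l.map card).sum := by
  induction l generalizing S with
  | nil =>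
    rcases S.eq_empty_or_nonempty with rfl | ⟨s, hs⟩
    · simp
    · simpa using h s hs
  | cons U l ih =>
    have h1 := ih (S \ U) fun s hs => by
      obtain ⟨W, hW, hs'⟩ := h s (mem_sdiff.1 hs).1
      rcases List.mem_cons.1 hW with rfl | hW
      · exact absurd hs' (mem_sdiff.1 hs).2
      · exact ⟨W, hW, hs'⟩
    have h2 := le_card_sdiff U S
    simp only [List.map_cons, List.sum_cons]
    omega

open Classical in
lemma card_exists_le {α : Type*} (S : Finset α) (R : Fin 4 → α → Prop) (M : ℝ)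
    (h : ∀ i, (#{s ∈ S | R i s} : ℝ) ≤ M) : (#{s ∈ S | ∃ i, R i s} : ℝ) ≤ 4 * M := by
  have h1 : #{s ∈ S | ∃ i, R i s} ≤ ∑ i, #{s ∈ S | R i s} := by
    refine le_trans (card_le_card ?_) card_biUnion_le
    intro s hs
    obtain ⟨h2, i, h3⟩ := mem_filter.1 hs
    exact mem_biUnion.2 ⟨i, mem_univ _, mem_filter.2 ⟨h2, h3⟩⟩
  have h2 : (#{s ∈ S | ∃ i, R i s} : ℝ) ≤ ∑ i, (#{s ∈ S | R i s} : ℝ) := by exact_mod_cast h1
  refine h2.trans ((sum_le_sum fun i _ => h i).trans (le_of_eq (by simp)))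

/-- Degree form of the edge structure. -/
def P4' (n Λ : ℝ) : Prop :=
  ∀ (X D : Finset V) (r : ℝ), #X ≤ n → #D ≤ n → D.Nonempty → ∀ ξ : ℝ, 1 ≤ ξ →
    ξ ^ 5 * #D = n ^ 2 → ∃ Q Q' : V → Fin 4 → Pl,
      cnt X D (fun x d => d2 x d = r ∧ (∀ i, ¬ InPl (Q x i) d) ∧ ∀ i, ¬ InPl (Q' d i) x) ≤
        #D * (Λ * ξ ^ 3)

lemma ev_P4' : Ev P4' := by
  refine ev_P4.pow 4 1 fun n Λ Λ' hn hΛ hΛ' h X D r hX hD hne ξ hξ hξn => ?_
  obtain ⟨η, hη, hηD⟩ := exists_root 5 (by norm_num)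
    (show (1 : ℝ) ≤ #D by exact_mod_cast hne.card_pos)
  obtain ⟨ν, hν, rfl⟩ := exists_root 5 (by norm_num) hn
  obtain ⟨Q, Q', hQ⟩ := h X D r hX hD ξ η hξ hη
  refine ⟨Q, Q', hQ.trans ?_⟩
  rw [← hηD] at hξn hD ⊢
  have h1 : η ≤ ν := le_of_pow_le_pow_left₀ (by norm_num) (by linarith) hD
  have h2 : ξ * η = ν ^ 2 := by
    apply (pow_left_inj₀ (by positivity) (by positivity) (show 5 ≠ 0 by norm_num)).1
    rw [mul_pow, hξn]; ring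
  have h3 : ξ = ν ^ 2 / η := by rw [← h2]; field_simp
  have h4 : η ^ 5 * ξ ^ 3 = η ^ 2 * ν ^ 6 := by
    calc η ^ 5 * ξ ^ 3 = η ^ 2 * (ξ * η) ^ 3 := by ring
      _ = _ := by rw [h2]; ring
  have hη0 : 0 < η := by linarith
  have hν0 : 0 < ν := by linarith
  have e1 : (#X : ℝ) * η ^ 3 ≤ η ^ 2 * ν ^ 6 := by
    calc (#X : ℝ) * η ^ 3 ≤ ν ^ 5 * η ^ 3 := mul_le_mul_of_nonneg_right hX (by positivity)
      _ = η ^ 2 * ν ^ 5 * η := by ring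
      _ ≤ η ^ 2 * ν ^ 5 * ν := mul_le_mul_of_nonneg_left h1 (by positivity)
      _ = _ := by ring
  have e2 : η * (#X : ℝ) ^ 3 / ξ ^ 8 ≤ η ^ 2 * ν ^ 6 := by
    calc η * (#X : ℝ) ^ 3 / ξ ^ 8 ≤ η * (ν ^ 5) ^ 3 / ξ ^ 8 := by gcongr
      _ = η ^ 2 * (η ^ 7 / ν) := by rw [h3]; field_simp
      _ ≤ η ^ 2 * (ν ^ 7 / ν) := by gcongr
      _ = _ := by field_simp
  have e3 : ξ * (η ^ 5) ^ 3 / η ^ 8 ≤ η ^ 2 * ν ^ 6 := by
    calc ξ * (η ^ 5) ^ 3 / η ^ 8 = η ^ 2 * ν ^ 2 * η ^ 4 := by rw [h3]; field_simp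
      _ ≤ η ^ 2 * ν ^ 2 * ν ^ 4 := by gcongr
      _ = _ := by ring
  calc _ ≤ Λ * (4 * (η ^ 5 * ξ ^ 3)) := by
        apply mul_le_mul_of_nonneg_left _ (by linarith)
        linarith
    _ = η ^ 5 * (4 * Λ * ξ ^ 3) := by ring
    _ ≤ _ := by
        push_cast at hΛ'
        gcongr
        linarith

/-- Triangles in the link of a vertex. -/
def P5 (n Λ : ℝ) : Prop :=
  ∀ (A B C : Finset V) (d : V) (ab ac ad bc bd cd : ℝ), #A ≤ n → #B ≤ n → #C ≤ n →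
    ab ≠ bd + ad → ac ≠ cd + ad → ad ≠ 0 →
    (∀ a b d, d2 b a = ab → d2 b d = bd → d2 a d = ad → Ind2 (a - b) (d - b)) →
    (∀ a c d, d2 c a = ac → d2 c d = cd → d2 a d = ad → Ind2 (a - c) (d - c)) →
    (∀ a ∈ A, d2 a d = ad) → (∀ b ∈ B, d2 b d = bd) → (∀ c ∈ C, d2 c d = cd) →
    ∀ θ : ℝ, 1 ≤ θ → #A ≤ θ ^ 3 → #B ≤ θ ^ 3 → #C ≤ θ ^ 3 →
      ∑ a ∈ A, ∑ c ∈ nb C a ac, (#(nb (nb B a ab) c bc) : ℝ) ≤ Λ * θ ^ 5

lemma ev_P5 : Ev P5 := by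
  classical
  refine ((ev_P2.and ev_P3).and ev_log).pow (12 ^ 4) 6
    fun n Λ Λ' hn hΛ hΛ' ⟨⟨h2, h3⟩, hlog⟩ A B C d ab ac ad bc bd cd hA hB hC r1 r2 had t1 t2
      hAd hBd hCd θ hθ hAθ hBθ hCθ => ?_
  have key := halving (fun A' => ∑ a ∈ A', ∑ c ∈ nb C a ac, (#(nb (nb B a ab) c bc) : ℝ)) A
    (12 ^ 4 * Λ ^ 5 * θ ^ 5) (by positivity) (by simp) ?_ hn hA hlog
  · refine key.trans ?_
    rw [← mul_assoc]
    apply mul_le_mul_of_nonneg_right _ (by positivity)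
    refine le_trans (le_of_eq ?_) hΛ'
    push_cast; ring
  intro A' hA' hne
  have hM1 : (1 : ℝ) ≤ #A' := by exact_mod_cast hne.card_pos
  have hM : (#A' : ℝ) ≤ θ ^ 3 := le_trans (by exact_mod_cast card_le_card hA') hAθ
  obtain ⟨ζ, hζ, hζM⟩ := exists_root 8 (by norm_num) (x := θ ^ 5 / #A') (by
    rw [le_div_iff₀ (by linarith), one_mul]
    exact hM.trans (pow_le_pow_right₀ hθ (by norm_num)))
  have hζM' : ζ ^ 8 * #A' = θ ^ 5 := by rw [hζM]; field_simp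
  have hlink : ∀ (Z : Finset V) (zd az : ℝ), #Z ≤ n → #Z ≤ θ ^ 3 → az ≠ zd + ad →
      (∀ z ∈ Z, d2 z d = zd) → ∑ a ∈ A', (#(nb Z a az) : ℝ) ≤ #A' * (3 * Λ * ζ ^ 6) := by
    intro Z zd az hZ hZθ hr hZd
    refine (h3 Z A' d zd ad az hZ hr hZd (fun a ha => hAd a (hA' ha)) (ζ ^ 3)
      (one_le_pow₀ hζ)).trans ?_
    have e0 : (#A' * ζ ^ 6) ^ 4 = #A' * θ ^ 15 := by
      calc (#A' * ζ ^ 6) ^ 4 = #A' * (ζ ^ 8 * #A') ^ 3 := by ring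
        _ = _ := by rw [hζM']; ring
    have e1 : (#Z : ℝ) ^ 3 / (ζ ^ 3) ^ 6 ≤ #A' * ζ ^ 6 := by
      rw [div_le_iff₀ (by positivity)]
      refine (pow_le_pow_left₀ (by positivity) hZθ 3).trans ?_
      apply le_of_mul_le_mul_right _ (show (0 : ℝ) < (#A' : ℝ) ^ 2 by positivity)
      calc (θ ^ 3) ^ 3 * (#A' : ℝ) ^ 2 ≤ (θ ^ 3) ^ 3 * (θ ^ 3) ^ 2 := by gcongr
        _ = (ζ ^ 8 * #A') ^ 3 := by rw [hζM']; ring
        _ = _ := by ring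
    have e2 : (#Z : ℝ) ≤ #A' * ζ ^ 6 := by
      refine hZθ.trans (le_of_pow_le_pow_left₀ (show 4 ≠ 0 by norm_num) (by positivity) ?_)
      rw [e0, ← pow_mul]
      exact (pow_le_pow_right₀ hθ (by norm_num)).trans
        (le_mul_of_one_le_left (by positivity) hM1)
    calc _ ≤ Λ * (3 * (#A' * ζ ^ 6)) := by
          apply mul_le_mul_of_nonneg_left _ (by linarith)
          rw [← pow_mul]
          linarith
      _ = _ := by ring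
  let g : V → ℝ := fun a => #(nb B a ab) + #(nb C a ac)
  have hg := markov A' g (6 * Λ * ζ ^ 6) (by positivity) (fun a => by positivity) (by
    simp only [g]
    rw [sum_add_distrib]
    linarith [hlink B bd ab hB hBθ r1 hBd, hlink C cd ac hC hCθ r2 hCd])
  refine ⟨_, filter_subset _ _, hg, ?_⟩
  rw [← sum_filter_add_sum_filter_not A' (fun a => 2 * (6 * Λ * ζ ^ 6) < g a), add_comm]
  refine add_le_add ?_ le_rfl
  have hu : 1 ≤ 12 * Λ * ζ ^ 2 :=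
    one_le_mul_of_one_le_of_one_le (by linarith) (one_le_pow₀ hζ)
  have hu3 : 2 * (6 * Λ * ζ ^ 6) ≤ (12 * Λ * ζ ^ 2) ^ 3 := by
    have : 12 * Λ ≤ (12 * Λ) ^ 3 := le_self_pow₀ (by linarith) (by norm_num)
    calc _ = 12 * Λ * ζ ^ 6 := by ring
      _ ≤ (12 * Λ) ^ 3 * ζ ^ 6 := mul_le_mul_of_nonneg_right this (by positivity)
      _ = _ := by ring
  have hb := sum_le_card_nsmul {a ∈ A' | ¬ 2 * (6 * Λ * ζ ^ 6) < g a}
    (fun a => ∑ c ∈ nb C a ac, (#(nb (nb B a ab) c bc) : ℝ)) (Λ * (12 * Λ * ζ ^ 2) ^ 4) (by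
      intro a ha
      obtain ⟨ha1, ha2⟩ := mem_filter.1 ha
      have had' := hAd a (hA' ha1)
      have k := (not_lt.1 ha2).trans hu3
      have k1 : (0 : ℝ) ≤ #(nb B a ab) := by positivity
      have k2 : (0 : ℝ) ≤ #(nb C a ac) := by positivity
      simp only [g] at k
      refine h2 (nb B a ab) (nb C a ac) a d ab bd ac cd bc
        (le_trans (by exact_mod_cast card_filter_le _ _) hB)
        (by rintro rfl; exact had (by rw [← had', d2_self])) (fun b hb => ?_) (fun c hc => ?_) _ hu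
        (by linarith) (by linarith)
      · rw [mem_nb] at hb
        exact ⟨hb.2, hBd b hb.1, t1 a b d hb.2 (hBd b hb.1) had'⟩
      · rw [mem_nb] at hc
        exact ⟨hc.2, hCd c hc.1, t2 a c d hc.2 (hCd c hc.1) had'⟩)
  refine hb.trans ?_
  rw [nsmul_eq_mul]
  calc _ ≤ #A' * (Λ * (12 * Λ * ζ ^ 2) ^ 4) :=
        mul_le_mul_of_nonneg_right (by exact_mod_cast card_filter_le _ _) (by positivity)
    _ = 12 ^ 4 * Λ ^ 5 * (ζ ^ 8 * #A') := by ring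
    _ = _ := by rw [hζM']

end Pool.Agent.P.MP_f7c707_co
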