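import Mathlib

namespace Pool.Agent.P.MP_f7c707_co

/-- Euclidean four-space. -/
abbrev E4 : Type := EuclideanSpace ℝ (Fin 4)

/-- The vertex set of a 3-simplex: four affinely independent points. -/
def IsSimplex3 (s : Finset E4) : Prop :=
  s.card = 4 ∧ AffineIndependent ℝ (Subtype.val : {x // x ∈ s} → E4)

/-- Some isometry of the space maps `s` onto `t`. -/
def Congr (s t : Finset E4) : Prop :=
  ∃ g : E4 ≃ᵢ E4, g '' (s : Set E4) = (t : Set E4)

/-- The number of 3-simplices congruent to `s` spanned by `P`. -/
noncomputable def copies (s P : Finset E4) : ℕ :=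
  Set.ncard {t : Finset E4 | t ⊆ P ∧ IsSimplex3 t ∧ Congr s t}

/-- The largest number of congruent copies of `s` spanned by `n` points. -/
noncomputable def maxCopies (s : Finset E4) (n : ℕ) : ℕ :=
  sSup {m : ℕ | ∃ P : Finset E4, P.card = n ∧ copies s P = m}

/-- The worst-case exponent. -/
noncomputable def alphaStar : EReal :=
  ⨆ (s : Finset E4) (_ : IsSimplex3 s), Filter.limsup
    (fun n : ℕ => ((Real.log (maxCopies s n) / Real.log n : ℝ) : EReal)) Filter.atTop

end Pool.Agent.P.MP_f7c707_co
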