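import Pool.Agent.P.MP_f7c707_co.Links

/-!
Structure of the distance graph in four-space: four planes per point and few other edges.
-/

namespace Pool.Agent.P.MP_f7c707_co

open Finset MvPolynomial Pool.Agent.Lib.PolyPart

lemma exists_max_family {α : Type*} [DecidableEq α] (S : Finset α) (good : Finset α → Prop)
    (hg : ∀ Y, good Y → Y.Nonempty) :
    ∃ F : Finset (Finset α), (∀ Y ∈ F, Y ⊆ S ∧ good Y) ∧
      (F : Set (Finset α)).PairwiseDisjoint id ∧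
      ∀ Y ⊆ S, good Y → ¬ ∀ Z ∈ F, Disjoint Y Z := by
  classical
  obtain ⟨F, hF, hmax⟩ := exists_max_image
    (S.powerset.powerset.filter fun F : Finset (Finset α) =>
      (∀ Y ∈ F, good Y) ∧ (F : Set (Finset α)).PairwiseDisjoint id)
    card ⟨∅, by simp⟩
  simp only [mem_filter, mem_powerset] at hF hmax
  obtain ⟨h1, h2, h3⟩ := hF
  refine ⟨F, fun Y hY => ⟨mem_powerset.1 (h1 hY), h2 Y hY⟩, h3, fun Y hY hgY hd => ?_⟩
  have hYF : Y ∉ F := by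
    intro h
    have := hd Y h
    rw [disjoint_self, bot_eq_empty] at this
    exact (hg Y hgY).ne_empty this
  have := hmax (insert Y F) ⟨insert_subset (mem_powerset.2 hY) h1, ?_, ?_⟩
  · rw [card_insert_of_notMem hYF] at this
    omega
  · intro Z hZ
    rcases mem_insert.1 hZ with rfl | hZ
    exacts [hgY, h2 Z hZ]
  · rw [coe_insert]
    exact h3.insert fun Z hZ _ => hd Z hZ

open Classical in
/-- Neighbourhood in a bipartite relation. -/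
noncomputable def nbr (X : Finset V) (E : V → V → Prop) (d : V) : Finset V := {x ∈ X | E x d}

lemma mem_nbr {X : Finset V} {E : V → V → Prop} {d x : V} : x ∈ nbr X E d ↔ x ∈ X ∧ E x d := by
  classical
  unfold nbr
  exact mem_filter

/-- Number of edges. -/
noncomputable def cnt (X D : Finset V) (E : V → V → Prop) : ℝ := ∑ d ∈ D, (#(nbr X E d) : ℝ)

lemma cnt_comm (X D : Finset V) (E : V → V → Prop) : cnt X D E = cnt D X (fun d x => E x d) := by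
  classical
  unfold cnt nbr
  exact_mod_cast sum_card_comm X D E

/-- Flat stars have at most `m` edges. -/
def SB (X D : Finset V) (E : V → V → Prop) (m : ℝ) : Prop :=
  ∀ d ∈ D, ∀ Y ⊆ nbr X E d, NoFour (Y : Set V) → #Y ≤ m

lemma SB.mono {X D : Finset V} {E E' : V → V → Prop} {m : ℝ} (h : SB X D E m)
    (hE : ∀ x d, E' x d → E x d) : SB X D E' m :=
  fun d hd Y hY => h d hd Y fun _ hx =>
    mem_nbr.2 ⟨(mem_nbr.1 (hY hx)).1, hE _ _ (mem_nbr.1 (hY hx)).2⟩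

lemma codeg_le {X D : Finset V} {E : V → V → Prop} {r v : ℝ}
    (hE : ∀ x ∈ X, ∀ d ∈ D, E x d → d2 x d = r) (hv : SB D X (fun d x => E x d) v)
    (Z : Finset V) (hZ : #Z = 3) : #{d ∈ D | Z ⊆ nbr X E d} ≤ ⌊v⌋₊ := by
  obtain ⟨a₁, a₂, a₃, h12, h13, h23, rfl⟩ := card_eq_three.1 hZ
  rcases ({d ∈ D | {a₁, a₂, a₃} ⊆ nbr X E d} : Finset V).eq_empty_or_nonempty with h | ⟨d₀, h⟩
  · rw [h]; simp
  apply Nat.le_floor
  have key : ∀ d ∈ ({d ∈ D | {a₁, a₂, a₃} ⊆ nbr X E d} : Finset V),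
      d ∈ D ∧ (a₁ ∈ X ∧ E a₁ d) ∧ (a₂ ∈ X ∧ E a₂ d) ∧ (a₃ ∈ X ∧ E a₃ d) := by
    intro d hd
    obtain ⟨h1, h2⟩ := mem_filter.1 hd
    exact ⟨h1, mem_nbr.1 (h2 (by simp)), mem_nbr.1 (h2 (by simp)), mem_nbr.1 (h2 (by simp))⟩
  apply hv a₁ (key d₀ h).2.1.1
  · exact fun d hd => mem_nbr.2 ⟨(key d hd).1, (key d hd).2.1.2⟩
  · apply noFour_common (ρ := r) h12 h13 h23
    intro d hd
    obtain ⟨h1, h2, h3, h4⟩ := key d hd
    exact ⟨hE _ h2.1 _ h1 h2.2, hE _ h3.1 _ h1 h3.2, hE _ h4.1 _ h1 h4.2⟩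

section

variable {T : Tree 4} {I : Ideal (MP 4)} {X D : Finset V} {u Λ r : ℝ} {E : V → V → Prop}

lemma light_four (h : T.Ok 4 I X (u ^ 3) Λ Λ) (hu : 1 ≤ u) (hΛ : 1 ≤ Λ)
    (hE : ∀ x ∈ X, ∀ d ∈ D, E x d → d2 x d = r ∧ T.Hard x (sph d r)) {v : ℝ} (hv0 : 0 ≤ v)
    (hv : SB D X (fun d x => E x d) v) :
    cnt X D E ≤ 3 * Λ ^ 3 * (#D * u ^ 3 + v * (#X : ℝ) ^ 3 / u ^ 8) := by
  have h1 := h.light (by linarith) 2 ⌊v⌋₊ D (fun d => sph d r) (fun d => totalDegree_sph d r)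
    (nbr X E) (fun d hd x hx => by
      obtain ⟨h1, h2⟩ := hE x (mem_nbr.1 hx).1 d hd (mem_nbr.1 hx).2
      exact ⟨by rw [eval_sph, h1, sub_self], h2⟩)
    (by convert codeg_le (fun x hx d hd hh => (hE x hx d hd hh).1) hv)
    (u ^ 4) (by positivity) (omega_le (k := 2) h hu)
  refine h1.trans ?_
  have hθ : 1 ≤ u ^ 3 := one_le_pow₀ hu
  rw [max_eq_right (one_le_mul_of_one_le_of_one_le hΛ hθ), mul_add (3 * Λ ^ 3)]
  apply add_le_add
  · calc _ = (Λ + 2) * (Λ ^ 2 * (#D * u ^ 3)) := by push_cast; ring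
      _ ≤ (3 * Λ) * (Λ ^ 2 * (#D * u ^ 3)) :=
        mul_le_mul_of_nonneg_right (by linarith) (by positivity)
      _ = _ := by ring
  · have hΛ3 : Λ ≤ Λ ^ 3 := le_self_pow₀ hΛ (by norm_num)
    rw [← pow_mul, mul_comm]
    refine mul_le_mul (by linarith) ?_ (by positivity) (by positivity)
    apply div_le_div_of_nonneg_right _ (by positivity)
    exact mul_le_mul_of_nonneg_right (Nat.floor_le hv0) (by positivity)

lemma peel (h : T.Ok 4 I X (u ^ 3) Λ Λ) (hu : 1 ≤ u) (hΛ : 1 ≤ Λ)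
    (hE : ∀ x ∈ X, ∀ d ∈ D, E x d → d2 x d = r ∧ T.Hard x (sph d r)) {v w : ℝ} (hv0 : 0 ≤ v)
    (hw : 0 < w) (hv : SB D X (fun d x => E x d) v) :
    ∃ E' : V → V → Prop, (∀ x d, E' x d → E x d) ∧ SB X D E' w ∧
      cnt X D E ≤ cnt X D E' +
        (6 * Λ ^ 3 * (#D * u ^ 3) + 128 * Λ ^ 3 * (v * (#X : ℝ) ^ 3 / (w ^ 2 * u ^ 6))) := by
  classical
  have hU : 0 < ⌈w⌉₊ := Nat.ceil_pos.2 hw
  choose F hF hFd hFm using fun d => exists_max_family (nbr X E d)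
    (fun Y => #Y = ⌈w⌉₊ ∧ NoFour (Y : Set V)) (fun Y hY => card_pos.1 (hY.1 ▸ hU))
  have h1 := h.rich (by linarith) (by linarith) (by positivity) ⌊v⌋₊ ⌈w⌉₊ hU D
    (fun d => sph d r) (fun d => totalDegree_sph d r)
    (nbr X E) (fun d hd x hx => by
      obtain ⟨h1, h2⟩ := hE x (mem_nbr.1 hx).1 d hd (mem_nbr.1 hx).2
      exact ⟨by rw [eval_sph, h1, sub_self], h2⟩)
    (by convert codeg_le (fun x hx d hd hh => (hE x hx d hd hh).1) hv) F
    (fun d hd Y hY => ⟨(hF d Y hY).1, (hF d Y hY).2.1, by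
      obtain ⟨Q, hQ⟩ := (hF d Y hY).2.2.exists_plane
      refine isConic_of_inPl Q d r fun x hx => ⟨hQ x hx, ?_⟩
      have := mem_nbr.1 ((hF d Y hY).1 hx)
      exact (hE x this.1 d hd this.2).1⟩) (fun d _ => hFd d)
  refine ⟨fun x d => E x d ∧ ∀ Y ∈ F d, x ∉ Y, fun _ _ h => h.1, ?_, ?_⟩
  · intro d _ Y hY hY4
    by_contra hlt
    have h2 : ⌈w⌉₊ ≤ #Y := Nat.ceil_le.2 (not_le.1 hlt).le
    obtain ⟨Y', hY', hc⟩ := exists_subset_card_eq h2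
    refine hFm d Y' (fun x hx => ?_) ⟨hc, hY4.mono (by exact_mod_cast hY')⟩ fun Z hZ => ?_
    · have := mem_nbr.1 (hY (hY' hx))
      exact mem_nbr.2 ⟨this.1, this.2.1⟩
    · rw [disjoint_left]
      exact fun x hx => (mem_nbr.1 (hY (hY' hx))).2.2 Z hZ
  · have h2 : ∀ d ∈ D, (#(nbr X E d) : ℝ) ≤
        #(nbr X (fun x d => E x d ∧ ∀ Y ∈ F d, x ∉ Y) d) + (#(F d) * ⌈w⌉₊ : ℝ) := by
      intro d _
      have a1 : nbr X E d ⊆ nbr X (fun x d => E x d ∧ ∀ Y ∈ F d, x ∉ Y) d ∪ (F d).biUnion id := by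
        intro x hx
        by_cases h3 : ∀ Y ∈ F d, x ∉ Y
        · exact mem_union_left _ (mem_nbr.2 ⟨(mem_nbr.1 hx).1, (mem_nbr.1 hx).2, h3⟩)
        · push Not at h3
          exact mem_union_right _ (mem_biUnion.2 h3)
      have a2 : #((F d).biUnion id) ≤ #(F d) * ⌈w⌉₊ :=
        card_biUnion_le_card_mul _ _ _ fun Y hY => (hF d Y hY).2.1.le
      exact_mod_cast (card_le_card a1).trans ((card_union_le _ _).trans (Nat.add_le_add_left a2 _))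
    refine (sum_le_sum h2).trans ?_
    rw [sum_add_distrib]
    refine add_le_add le_rfl (h1.trans ?_)
    have hθ : 1 ≤ u ^ 3 := one_le_pow₀ hu
    rw [max_eq_right (one_le_mul_of_one_le_of_one_le hΛ hθ), mul_add 2]
    apply add_le_add
    · calc _ = 2 * (Λ + 2) * (Λ ^ 2 * (#D * u ^ 3)) := by ring
        _ ≤ (6 * Λ) * (Λ ^ 2 * (#D * u ^ 3)) :=
          mul_le_mul_of_nonneg_right (by linarith) (by positivity)
        _ = _ := by ring
    · calc _ = 128 * Λ ^ 3 * (⌊v⌋₊ * (#X : ℝ) ^ 3 / ((⌈w⌉₊ : ℝ) ^ 2 * u ^ 6)) := by ring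
        _ ≤ _ := by
          apply mul_le_mul_of_nonneg_left _ (by positivity)
          apply div_le_div₀ (by positivity)
            (mul_le_mul_of_nonneg_right (Nat.floor_le hv0) (by positivity)) (by positivity)
          exact mul_le_mul_of_nonneg_right (pow_le_pow_left₀ hw.le (Nat.le_ceil w) 2)
            (by positivity)

end

lemma hard_bound {T T' : Tree 4} {I I' : Ideal (MP 4)} {X D : Finset V} {u v Λ r : ℝ}
    (h : T.Ok 4 I X (u ^ 3) Λ Λ) (h' : T'.Ok 4 I' D (v ^ 3) Λ Λ) (hu : 1 ≤ u) (hv : 1 ≤ v)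
    (hΛ : 1 ≤ Λ) (t : ℕ) (E : V → V → Prop)
    (hE : ∀ x ∈ X, ∀ d ∈ D, E x d → d2 x d = r ∧ T.Hard x (sph d r) ∧ T'.Hard d (sph x r))
    (h1 : SB X D E (2 ^ t * u)) (h2 : SB D X (fun d x => E x d) (2 ^ t * v)) :
    cnt X D E ≤ (t + 1) * (256 * Λ ^ 3 *
      (#D * u ^ 3 + #X * v ^ 3 + v * (#X : ℝ) ^ 3 / u ^ 8 + u * (#D : ℝ) ^ 3 / v ^ 8)) := by
  have p1 : 0 ≤ Λ ^ 3 * (#D * u ^ 3) := by positivity
  have p2 : 0 ≤ Λ ^ 3 * (#X * v ^ 3) := by positivity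
  have p3 : 0 ≤ Λ ^ 3 * (v * (#X : ℝ) ^ 3 / u ^ 8) := by positivity
  have p4 : 0 ≤ Λ ^ 3 * (u * (#D : ℝ) ^ 3 / v ^ 8) := by positivity
  induction t generalizing E with
  | zero =>
    rw [pow_zero, one_mul] at h2
    have := light_four h hu hΛ (fun x hx d hd hh => ⟨(hE x hx d hd hh).1, (hE x hx d hd hh).2.1⟩)
      (by linarith) h2
    push_cast
    linarith
  | succ t ih =>
    have ht : (1 : ℝ) ≤ 2 ^ t := one_le_pow₀ one_le_two
    obtain ⟨E₁, a1, a2, a3⟩ := peel h hu hΛ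
      (fun x hx d hd hh => ⟨(hE x hx d hd hh).1, (hE x hx d hd hh).2.1⟩)
      (by positivity) (show 0 < 2 ^ t * u by positivity) h2
    obtain ⟨E₂, b1, b2, b3⟩ := peel (E := fun d x => E₁ x d) (r := r) h' hv hΛ
      (fun d hd x hx hh => ⟨by rw [d2_comm]; exact (hE x hx d hd (a1 _ _ hh)).1,
        (hE x hx d hd (a1 _ _ hh)).2.2⟩)
      (by positivity) (show 0 < 2 ^ t * v by positivity) a2
    have c1 := ih (fun x d => E₂ d x) (fun x hx d hd hh => hE x hx d hd (a1 _ _ (b1 _ _ hh)))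
      (a2.mono fun x d hh => b1 _ _ hh) b2
    rw [← cnt_comm] at b3
    rw [cnt_comm] at c1
    have e1 : 2 ^ (t + 1) * v * (#X : ℝ) ^ 3 / ((2 ^ t * u) ^ 2 * u ^ 6) ≤
        2 * (v * (#X : ℝ) ^ 3 / u ^ 8) := by
      have : 2 ^ (t + 1) * v * (#X : ℝ) ^ 3 / ((2 ^ t * u) ^ 2 * u ^ 6) =
          2 * (v * (#X : ℝ) ^ 3 / u ^ 8) / 2 ^ t := by field_simp; ring
      rw [this]
      exact div_le_self (by positivity) ht
    have e2 : 2 ^ t * u * (#D : ℝ) ^ 3 / ((2 ^ t * v) ^ 2 * v ^ 6) ≤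
        u * (#D : ℝ) ^ 3 / v ^ 8 := by
      have : 2 ^ t * u * (#D : ℝ) ^ 3 / ((2 ^ t * v) ^ 2 * v ^ 6) =
          u * (#D : ℝ) ^ 3 / v ^ 8 / 2 ^ t := by field_simp
      rw [this]
      exact div_le_self (by positivity) ht
    have e3 := mul_le_mul_of_nonneg_left e1 (show 0 ≤ 128 * Λ ^ 3 by positivity)
    have e4 := mul_le_mul_of_nonneg_left e2 (show 0 ≤ 128 * Λ ^ 3 by positivity)
    push_cast
    linarith

/-- All but few edges lie in four planes per vertex. -/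
def P4 (n Λ : ℝ) : Prop :=
  ∀ (X D : Finset V) (r : ℝ), #X ≤ n → #D ≤ n → ∀ u v : ℝ, 1 ≤ u → 1 ≤ v →
    ∃ Q Q' : V → Fin 4 → Pl,
      cnt X D (fun x d => d2 x d = r ∧ (∀ i, ¬ InPl (Q x i) d) ∧ ∀ i, ¬ InPl (Q' d i) x) ≤
        Λ * (#D * u ^ 3 + #X * v ^ 3 + v * (#X : ℝ) ^ 3 / u ^ 8 + u * (#D : ℝ) ^ 3 / v ^ 8)

lemma exists_planes {T : Tree 4} {I : Ideal (MP 4)} {X : Finset V} {θ K L : ℝ}
    (h : T.Ok 4 I X θ K L) : ∃ Q : V → Fin 4 → Pl, ∀ x ∈ X, ∀ z ρ, (∀ i, ¬ InPl (Q x i) z) →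
      T.Hard x (sph z ρ) := by
  choose Cn hCn using exists_families h (by norm_num) le_rfl
  have : ∀ x i, ∃ Q : Pl, x ∈ X → ∀ z ∈ Cn x i, InPl Q z := by
    intro x i
    by_cases hx : x ∈ X
    · obtain ⟨Q, hQ⟩ := ((hCn x hx).1 i).1.exists_plane
      exact ⟨Q, fun _ => hQ⟩
    · exact ⟨0, fun h => absurd h hx⟩
  choose Q hQ using this
  refine ⟨Q, fun x hx z ρ hz => ?_⟩
  by_contra hh
  obtain ⟨i, hi⟩ := (hCn x hx).2 z ρ hh
  exact hz i (hQ x i hx z hi)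

lemma ev_P4 : Ev P4 := by
  refine ((ev_tree 4).and ev_log).pow 256 4
    fun n Λ Λ' hn hΛ hΛ' ⟨h, hlog⟩ X D r hX hD u v hu hv => ?_
  have hV : ∀ x : V, Van (⊥ : Ideal (MP 4)) x := fun x g hg => by rw [Ideal.mem_bot.1 hg, map_zero]
  obtain ⟨T, hT⟩ := h ⊥ _ ((nice_bot 4).mono one_le_two) X (fun x _ => hV x) hX (u ^ 3)
    (by positivity)
  obtain ⟨T', hT'⟩ := h ⊥ _ ((nice_bot 4).mono one_le_two) D (fun x _ => hV x) hD (v ^ 3)
    (by positivity)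
  obtain ⟨Q, hQ⟩ := exists_planes hT
  obtain ⟨Q', hQ'⟩ := exists_planes hT'
  obtain ⟨t, ht1, ht2⟩ := exists_nat_pow_near hn one_lt_two
  refine ⟨Q, Q', (hard_bound (r := r) hT hT' hu hv hΛ (t + 1) _
    (fun x hx d hd hh => ⟨hh.1, hQ x hx d r hh.2.1, hQ' d hd x r hh.2.2⟩) ?_ ?_).trans ?_⟩
  · intro d _ Y hY _
    have : (#Y : ℝ) ≤ #X := by exact_mod_cast card_le_card fun x hx => (mem_nbr.1 (hY hx)).1
    have h3 : (2 : ℝ) ^ (t + 1) ≤ 2 ^ (t + 1) * u := le_mul_of_one_le_right (by positivity) hu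
    linarith
  · intro d _ Y hY _
    have : (#Y : ℝ) ≤ #D := by exact_mod_cast card_le_card fun x hx => (mem_nbr.1 (hY hx)).1
    have h3 : (2 : ℝ) ^ (t + 1) ≤ 2 ^ (t + 1) * v := le_mul_of_one_le_right (by positivity) hv
    linarith
  · rw [← mul_assoc]
    apply mul_le_mul_of_nonneg_right _ (by positivity)
    have h3 := hlog (t + 1) (by rw [pow_succ]; linarith)
    refine le_trans ?_ hΛ'
    calc _ ≤ Λ * (256 * Λ ^ 3) := mul_le_mul_of_nonneg_right h3 (by positivity)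
      _ = _ := by push_cast; ring

end Pool.Agent.P.MP_f7c707_co
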