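import Pool.Agent.P.MP_f7c707_co.EvD

/-!
Labelled and unlabelled copies.
-/

namespace Pool.Agent.P.MP_f7c707_co.Sh

open Finset Complex Pool.Agent.P.MP_f7c707_co

theorem emb_copies {s : Finset E4} (hs : IsSimplex3 s) {v : Fin 4 → E4}
    (hv : Function.Injective v) (hr : Set.range v = s) (P : Finset E4) (P' : Finset V)
    (hP : ∀ x : E4, x.ofLp ∈ P' ↔ x ∈ P) :
    #(Emb P' fun i j => dist (v i) (v j) ^ 2) =
      #(autS fun i j => dist (v i) (v j) ^ 2) * copies s P := by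
  classical
  have hm : ∀ i, v i ∈ (s : Set E4) := fun i => hr ▸ ⟨i, rfl⟩
  have ho : Function.Injective (WithLp.ofLp : E4 → V) := WithLp.ofLp_injective 2
  set T : Set (Finset E4) := {t | t ⊆ P ∧ IsSimplex3 t ∧ Congr s t} with hT
  have hf : T.Finite := (finite_toSet P.powerset).subset fun t ht =>
    mem_coe.2 (mem_powerset.2 ht.1)
  have hg : ∀ t ∈ T, ∃ g : E4 ≃ᵢ E4, g '' (s : Set E4) = (t : Set E4) := fun t ht => ht.2.2
  choose! g hg using hg
  rw [copies, ← hT, Set.ncard_eq_toFinset_card T hf, ← card_product]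
  symm
  refine card_bij (fun p _ i => (g p.2 (v (p.1 i))).ofLp) ?_ ?_ ?_
  · rintro ⟨π, t⟩ hp
    obtain ⟨h1, h2⟩ := mem_product.1 hp
    have ht := hf.mem_toFinset.1 h2
    refine mem_Emb.2 ⟨fun i => (hP _).2 (ht.1 ?_), fun i j => ?_⟩
    · rw [← mem_coe, ← hg t ht]
      exact ⟨_, hm _, rfl⟩
    · rw [d2_eq, (g t).dist_eq]
      exact mem_autS.1 h1 i j
  · rintro ⟨π, t⟩ hp ⟨π', t'⟩ hp' e
    have ht := hf.mem_toFinset.1 (mem_product.1 hp).2
    have ht' := hf.mem_toFinset.1 (mem_product.1 hp').2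
    have e1 : ∀ i, g t (v (π i)) = g t' (v (π' i)) := fun i => ho (congrFun e i)
    have e2 : t = t' := by
      apply coe_injective
      rw [← hg t ht, ← hg t' ht', ← hr]
      ext x
      constructor
      · rintro ⟨_, ⟨i, rfl⟩, rfl⟩
        refine ⟨_, ⟨π' (π.symm i), rfl⟩, ?_⟩
        rw [← e1, Equiv.apply_symm_apply]
      · rintro ⟨_, ⟨i, rfl⟩, rfl⟩
        refine ⟨_, ⟨π (π'.symm i), rfl⟩, ?_⟩
        rw [e1, Equiv.apply_symm_apply]
    subst e2
    exact Prod.ext (Equiv.ext fun i => hv ((g t).injective (e1 i))) rfl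
  · intro φ hφ
    obtain ⟨a1, a2⟩ := mem_Emb.1 hφ
    let w : Fin 4 → E4 := fun i => WithLp.toLp 2 (φ i)
    have hw : ∀ i j, dist (w i) (w j) ^ 2 = dist (v i) (v j) ^ 2 := fun i j => by
      rw [← d2_eq (w i)]
      exact a2 i j
    obtain ⟨g₀, h₀⟩ := exists_isometry v w (fun i j =>
      (sq_eq_sq₀ dist_nonneg dist_nonneg).1 (hw i j).symm) univ
    have h1 : ∀ i, g₀ (v i) = w i := fun i => h₀ i (mem_univ i)
    have ht : s.image g₀ ∈ T := by
      refine ⟨fun x hx => ?_, hs.image g₀, g₀, coe_image.symm⟩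
      obtain ⟨y, hy, rfl⟩ := mem_image.1 hx
      rw [← mem_coe, ← hr] at hy
      obtain ⟨i, rfl⟩ := hy
      rw [h1]
      exact (hP _).1 (a1 i)
    have h2 : ∀ i, ∃ k, g (s.image g₀) (v k) = w i := fun i => by
      have h3 : w i ∈ g (s.image g₀) '' (s : Set E4) := by
        rw [hg _ ht, coe_image]
        exact ⟨v i, hm i, h1 i⟩
      rw [← hr] at h3
      obtain ⟨_, ⟨k, rfl⟩, hk⟩ := h3
      exact ⟨k, hk⟩
    choose σ hσ using h2
    have hi : Function.Injective σ := fun i j e => hv (g₀.injective (by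
      rw [h1, h1, ← hσ, ← hσ, e]))
    refine ⟨(Equiv.ofBijective σ (Finite.injective_iff_bijective.1 hi), s.image g₀),
      mem_product.2 ⟨mem_autS.2 fun i j => ?_, hf.mem_toFinset.2 ht⟩, funext fun i => ?_⟩
    · change dist (v (σ i)) (v (σ j)) ^ 2 = _
      rw [← (g (s.image g₀)).dist_eq, hσ, hσ, hw]
    · exact congrArg WithLp.ofLp (hσ i)

end Pool.Agent.P.MP_f7c707_co.Sh
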