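import Pool.Agent.P.MP_f7c707_co.ShM

/-!
The constant of a simplex: definitions.
-/

namespace Pool.Agent.P.MP_f7c707_co.Sh

open Finset Complex Pool.Agent.P.MP_f7c707_co

/-- Rotation of the two planes. -/
def rot (u v : ℂ) (ψ : Lb) : Lb := fun i => (u * (ψ i).1, v * (ψ i).2)

/-- Labelled quadruples that differ by rotations of the two planes. -/
def EqL (ψ ψ' : Lb) : Prop := ∃ u v : ℂ, normSq u = 1 ∧ normSq v = 1 ∧ ψ' = rot u v ψ

/-- A family of pairwise inequivalent labelled copies. -/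
def Fm (d : Tb) (U W : Finset ℝ) (R : Finset Lb) : Prop :=
  (∀ ψ ∈ R, Em d U W ψ) ∧ ∀ ψ ∈ R, ∀ ψ' ∈ R, EqL ψ ψ' → ψ = ψ'

/-- A bound for all families. -/
def KL (d : Tb) (κ : ℝ) : Prop := ∀ U W R, Fm d U W R → (#R : ℝ) ≤ κ * #U * #W

open Classical in
/-- The symmetries of a table. -/
noncomputable def autS (d : Tb) : Finset (Equiv.Perm (Fin 4)) :=
  {π | ∀ i j, d (π i) (π j) = d i j}

lemma mem_autS {d : Tb} {π : Equiv.Perm (Fin 4)} :
    π ∈ autS d ↔ ∀ i j, d (π i) (π j) = d i j := by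
  classical
  unfold autS
  rw [mem_filter_univ]

lemma autS_pos (d : Tb) : 0 < #(autS d) := card_pos.2 ⟨1, mem_autS.2 fun _ _ => rfl⟩

lemma autS_le (d : Tb) : #(autS d) ≤ 24 := (card_le_univ _).trans (by simp [Fintype.card_perm]; rfl)

/-- A family that is large against the symmetries. -/
def Big (d : Tb) : Prop := ∃ U W R, Fm d U W R ∧ 1 ≤ #U ∧ 1 ≤ #W ∧
  2 * #(autS d) * (#U * #W) ≤ 3 * #R

end Pool.Agent.P.MP_f7c707_co.Sh
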