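import Pool.Agent.P.MP_f7c707_co.EvD

/-!
Labelled copies in a frame.
-/

namespace Pool.Agent.P.MP_f7c707_co.Sh

open Finset Complex Pool.Agent.P.MP_f7c707_co

lemma ef_refl (ψ : Lb) : EqL ψ ψ :=
  ⟨1, 1, by simp, by simp, funext fun i => by simp [rot]⟩

lemma ef_symm {ψ ψ' : Lb} (h : EqL ψ ψ') : EqL ψ' ψ := by
  obtain ⟨u, v, hu, hv, rfl⟩ := h
  have hu0 : u ≠ 0 := by rintro rfl; simp at hu
  have hv0 : v ≠ 0 := by rintro rfl; simp at hv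
  refine ⟨u⁻¹, v⁻¹, by simp [hu], by simp [hv], funext fun i => ?_⟩
  simp [rot, hu0, hv0]

lemma ef_trans {ψ ψ' ψ'' : Lb} (h : EqL ψ ψ') (h' : EqL ψ' ψ'') : EqL ψ ψ'' := by
  obtain ⟨u, v, hu, hv, rfl⟩ := h
  obtain ⟨u', v', hu', hv', rfl⟩ := h'
  refine ⟨u' * u, v' * v, by simp [hu, hu'], by simp [hv, hv'], funext fun i => ?_⟩
  simp [rot, mul_assoc]

lemma ef_class {X Y : Finset ℂ} {C : Finset Lb}
    (hC : ∀ ψ ∈ C, (∀ i, (ψ i).1 ≠ 0 → (ψ i).1 ∈ X) ∧ ∀ i, (ψ i).2 ≠ 0 → (ψ i).2 ∈ Y) {φ : Lb}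
    (hS : ∀ ψ ∈ C, EqL φ ψ) {i j : Fin 4} (hi : (φ i).1 ≠ 0) (hj : (φ j).2 ≠ 0) :
    #C ≤ #{y ∈ X | normSq y = normSq (φ i).1} * #{y ∈ Y | normSq y = normSq (φ j).2} := by
  choose! u v hu hv h using hS
  rw [← card_product]
  refine card_le_card_of_injOn (fun ψ => (u ψ * (φ i).1, v ψ * (φ j).2)) (fun ψ hψ => ?_)
    fun a ha b hb e => ?_
  · have hk : (ψ i).1 = u ψ * (φ i).1 := congrArg (fun χ : Lb => (χ i).1) (h ψ hψ)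
    have hl : (ψ j).2 = v ψ * (φ j).2 := congrArg (fun χ : Lb => (χ j).2) (h ψ hψ)
    have h1 := (hC ψ hψ).1 i
    have h2 := (hC ψ hψ).2 j
    rw [hk] at h1
    rw [hl] at h2
    have hu0 : u ψ ≠ 0 := fun h0 => by simpa [h0] using hu ψ hψ
    have hv0 : v ψ ≠ 0 := fun h0 => by simpa [h0] using hv ψ hψ
    exact mem_coe.2 (mem_product.2
      ⟨mem_filter.2 ⟨h1 (mul_ne_zero hu0 hi), by rw [map_mul, hu ψ hψ, one_mul]⟩,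
        mem_filter.2 ⟨h2 (mul_ne_zero hv0 hj), by rw [map_mul, hv ψ hψ, one_mul]⟩⟩)
  · have e1 : u a = u b := mul_right_cancel₀ hi (congrArg Prod.fst e)
    have e2 : v a = v b := mul_right_cancel₀ hj (congrArg Prod.snd e)
    exact (h a ha).trans (e1 ▸ e2 ▸ (h b hb).symm)

theorem frame_lab {d : Tb} {κ : ℝ} (hd : ND d) (hK : KL d κ) (h0 : 0 ≤ κ) (X Y : Finset ℂ)
    (C : Finset Lb)
    (hC : ∀ ψ ∈ C, (∀ i j, D2 (ψ i) (ψ j) = d i j) ∧ (∀ i, (ψ i).1 = 0 ∨ (ψ i).2 = 0) ∧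
      (∀ i, (ψ i).1 ≠ 0 → (ψ i).1 ∈ X) ∧ ∀ i, (ψ i).2 ≠ 0 → (ψ i).2 ∈ Y) :
    (#C : ℝ) ≤ κ * #X * #Y := by
  classical
  obtain ⟨U, hU1, hU⟩ := shf_layer X
  obtain ⟨W, hW1, hW⟩ := shf_layer Y
  obtain ⟨ρ, h1, h2⟩ : ∃ ρ : Lb → Lb, (∀ ψ ∈ C, ρ ψ ∈ C ∧ EqL (ρ ψ) ψ) ∧
      ∀ ψ ψ', EqL ψ ψ' → ρ ψ = ρ ψ' :=
    ⟨fun ψ => Classical.epsilon fun φ => φ ∈ C ∧ EqL φ ψ,
      fun ψ hψ => Classical.epsilon_spec (p := fun φ => φ ∈ C ∧ EqL φ ψ) ⟨ψ, hψ, ef_refl ψ⟩,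
      fun ψ ψ' e => congrArg Classical.epsilon (funext fun φ => propext
        ⟨fun h => ⟨h.1, ef_trans h.2 e⟩, fun h => ⟨h.1, ef_trans h.2 (ef_symm e)⟩⟩)⟩
  have h3 : ∀ φ ∈ C.image ρ, φ ∈ C ∧ ρ φ = φ := fun φ hφ => by
    obtain ⟨ψ, hψ, rfl⟩ := mem_image.1 hφ
    exact ⟨(h1 ψ hψ).1, h2 _ _ (h1 ψ hψ).2⟩
  have h4 : ∀ φ ∈ C, Em d (X.image normSq) (Y.image normSq) φ := fun φ hφ =>
    ⟨(hC φ hφ).1, (hC φ hφ).2.1, fun i hi => mem_image_of_mem _ ((hC φ hφ).2.2.1 i hi),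
      fun i hi => mem_image_of_mem _ ((hC φ hφ).2.2.2 i hi)⟩
  let P : Lb → ℕ × ℕ → Prop := fun φ t => (∀ k, (φ k).1 ≠ 0 → normSq (φ k).1 ∈ U t.1) ∧
    ∀ k, (φ k).2 ≠ 0 → normSq (φ k).2 ∈ W t.2
  have key : #C ≤ ∑ t ∈ range #X ×ˢ range #Y, #{φ ∈ C.image ρ | P φ t} :=
    calc #C = ∑ φ ∈ C.image ρ, #{ψ ∈ C | ρ ψ = φ} := card_eq_sum_card_image _ _
      _ ≤ ∑ φ ∈ C.image ρ, #{t ∈ range #X ×ˢ range #Y | P φ t} := sum_le_sum fun φ hφ => by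
        have hφ' := (h3 φ hφ).1
        obtain ⟨i, hi, hi'⟩ := hU (fun i => (φ i).1) (by
          by_contra! h
          exact (A2.top (j := 0) hd (h4 φ hφ').sw fun i _ => h i).2 (h 0)) (hC φ hφ').2.2.1
        obtain ⟨j, hj, hj'⟩ := hW (fun i => (φ i).2) (by
          by_contra! h
          exact (A2.top (j := 0) hd (h4 φ hφ') fun i _ => h i).2 (h 0)) (hC φ hφ').2.2.2
        refine (ef_class (fun ψ hψ => (hC ψ (mem_filter.1 hψ).1).2.2)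
          (fun ψ hψ => (mem_filter.1 hψ).2 ▸ (h1 ψ (mem_filter.1 hψ).1).2) hi hj).trans ?_
        rw [← card_range #{y ∈ X | _}, ← card_range #{y ∈ Y | _}, ← card_product]
        refine card_le_card fun t ht => ?_
        have a := hi' _ (mem_range.1 (mem_product.1 ht).1)
        have b := hj' _ (mem_range.1 (mem_product.1 ht).2)
        exact mem_filter.2 ⟨mem_product.2 ⟨mem_range.2 a.1, mem_range.2 b.1⟩, a.2, b.2⟩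
      _ = ∑ t ∈ range #X ×ˢ range #Y, #{φ ∈ C.image ρ | P φ t} := by
        simp only [card_filter]
        exact sum_comm
  have hU2 : (∑ t ∈ range #X, (#(U t) : ℝ)) ≤ #X := by exact_mod_cast hU1
  have hW2 : (∑ t ∈ range #Y, (#(W t) : ℝ)) ≤ #Y := by exact_mod_cast hW1
  have hW3 : (0 : ℝ) ≤ ∑ t ∈ range #Y, (#(W t) : ℝ) := sum_nonneg fun _ _ => Nat.cast_nonneg _
  calc (#C : ℝ) ≤ ∑ t ∈ range #X ×ˢ range #Y, (#{φ ∈ C.image ρ | P φ t} : ℝ) := by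
        exact_mod_cast key
    _ ≤ ∑ t ∈ range #X ×ˢ range #Y, κ * #(U t.1) * #(W t.2) := sum_le_sum fun t _ =>
      hK _ _ _ ⟨fun φ hφ => by
        have h := h4 φ (h3 φ (mem_filter.1 hφ).1).1
        exact ⟨h.ds, h.fr, (mem_filter.1 hφ).2.1, (mem_filter.1 hφ).2.2⟩,
        fun a ha b hb e => by
          rw [← (h3 a (mem_filter.1 ha).1).2, h2 a b e, (h3 b (mem_filter.1 hb).1).2]⟩
    _ = κ * (∑ t ∈ range #X, (#(U t) : ℝ)) * ∑ t ∈ range #Y, (#(W t) : ℝ) := by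
      rw [sum_product, mul_sum (range #X), sum_mul_sum]
    _ ≤ κ * #X * #Y := by gcongr

end Pool.Agent.P.MP_f7c707_co.Sh
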