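import Pool.Agent.P.MP_f7c707_co.EvD

/-!
A simplex in general position.
-/

namespace Pool.Agent.P.MP_f7c707_co.Sh

open Finset Complex Pool.Agent.P.MP_f7c707_co

/-- The squared edges. -/
def egN : Fin 4 → Fin 4 → ℤ := ![![0, 1, 2, 6], ![1, 0, 5, 3], ![2, 5, 0, 14], ![6, 3, 14, 0]]

/-- Six times the squared heights. -/
def egH : Fin 4 → ℤ := ![1, 2, 3, 6]

/-- The table. -/
def egD : Tb := fun i j => (egN i j : ℝ)

/-- Six times the heights and the radii. -/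
def egV (x : Fin 4 × Fin 4) : ℤ := if x.1 = x.2 then egH x.2 else 6 * egN x.1 x.2 - egH x.2

/-- The numbers that occur in one plane. -/
def egS (P Q : Finset (Fin 4)) : Finset (Fin 4 × Fin 4) :=
  {x | if x.1 = x.2 then x.2 ∈ Q else x.2 ∈ P}

/-- The vertices. -/
def egP : Fin 4 → V := ![![0, 0, 0, 0], ![1, 0, 0, 0], ![-1, 1, 0, 0], ![2, -1, 1, 0]]

set_option synthInstance.maxSize 4096 in
lemma eg_rigid : ∀ a b c e : Fin 4, egN a b = 1 → egN a c = 2 → egN a e = 6 →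
    a = 0 ∧ b = 1 ∧ c = 2 ∧ e = 3 := by
  decide +kernel

lemma eg_inj : ∀ x y : Fin 4 × Fin 4, egV x = egV y → x = y := by
  decide +kernel

lemma eg_ne : ∀ i j : Fin 4, 6 * egN i j ≠ egH j := by
  decide +kernel

lemma eg_cnt : ∀ P Q : Finset (Fin 4),
    3 * (2 * #P + 2 * #Q) ≤ 2 * (#(egS P Q) * #(egS Q P)) := by
  decide +kernel

lemma eg_d2 (i j : Fin 4) : d2 (egP i) (egP j) = egD i j := by
  fin_cases i <;> fin_cases j <;>
    simp [d2, dotProduct, Fin.sum_univ_four, egP, egD, egN] <;> norm_num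

variable {U W : Finset ℝ} {ψ ψ' : Lb} {j : Fin 4}

lemma eg_eql (h : Em egD U W ψ) (h' : Em egD U W ψ') (e : Eqv ψ ψ') : EqL ψ ψ' := by
  obtain ⟨u, v, hu, hv, e⟩ := e
  have h1 : ∀ i, ∃ k, rot u v ψ k = ψ' i := fun i => by
    have h2 : ψ' i ∈ Set.range ψ' := ⟨i, rfl⟩
    rw [e] at h2
    exact h2
  choose f hf using h1
  have h2 : ∀ a b, egN (f a) (f b) = egN a b := fun a b => by
    have h3 := h'.ds a b
    rw [← hf a, ← hf b] at h3
    simp only [D2, rot, ← mul_sub, map_mul, hu, hv, one_mul] at h3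
    have h4 : egD (f a) (f b) = egD a b := (h.ds _ _).symm.trans h3
    unfold egD at h4
    exact_mod_cast h4
  obtain ⟨e0, e1, e2, e3⟩ := eg_rigid _ _ _ _ (h2 0 1) (h2 0 2) (h2 0 3)
  refine ⟨u, v, hu, hv, funext fun m => ?_⟩
  rcases k1_cases m with rfl | rfl | rfl | rfl <;> rw [← hf] <;> congr 1

lemma eg_ht (hd : ND egD) (h : Em egD U W ψ) (a : A2 j ψ) : normSq (ψ j).2 = egH j / 6 := by
  rcases k1_cases j with rfl | rfl | rfl | rfl
  · have e := a.det (i := 1) (k := 2) (l := 3) hd (by decide) h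
    simp [egD, egN, egH, gd] at e ⊢
    linarith
  · have e := a.det (i := 0) (k := 2) (l := 3) hd (by decide) h
    simp [egD, egN, egH, gd] at e ⊢
    linarith
  · have e := a.det (i := 0) (k := 1) (l := 3) hd (by decide) h
    simp [egD, egN, egH, gd] at e ⊢
    linarith
  · have e := a.det (i := 0) (k := 1) (l := 2) hd (by decide) h
    simp [egD, egN, egH, gd] at e ⊢
    linarith

lemma eg_mem (hd : ND egD) (h : Em egD U W ψ) (a : A2 j ψ) :
    (egV (j, j) : ℝ) / 6 ∈ W ∧ ∀ i, i ≠ j → (egV (i, j) : ℝ) / 6 ∈ U := by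
  obtain ⟨h1, -, h2⟩ := a.data hd h
  rw [eg_ht hd h a] at h1 h2
  refine ⟨by simpa only [egV, if_true] using h1, fun i hi => ?_⟩
  rcases h2 i hi with ⟨h3, -⟩ | ⟨h3, -⟩
  · rwa [show (egV (i, j) : ℝ) / 6 = egD i j - egH j / 6 by
      simp only [egV, if_neg hi, egD]
      push_cast
      ring]
  · refine absurd ?_ (eg_ne i j)
    have h4 : (6 : ℝ) * egN i j = egH j := by
      unfold egD at h3
      linarith
    exact_mod_cast h4

lemma eg_card (hd : ND egD) {P Q : Finset (Fin 4)} (hP : ∀ j ∈ P, ∃ ψ, Em egD U W ψ ∧ A2 j ψ)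
    (hQ : ∀ j ∈ Q, ∃ ψ, Em egD W U ψ ∧ A2 j ψ) : #(egS P Q) ≤ #U := by
  refine card_le_card_of_injOn (fun x => (egV x : ℝ) / 6) (fun ⟨i, j⟩ hx => ?_) fun x _ y _ e => ?_
  · have h1 := (mem_filter.1 (mem_coe.1 hx)).2
    by_cases hij : i = j
    · subst hij
      obtain ⟨ψ, h2, h3⟩ := hQ i (by simpa using h1)
      exact (eg_mem hd h2 h3).1
    · obtain ⟨ψ, h2, h3⟩ := hP j (by simpa [hij] using h1)
      exact (eg_mem hd h2 h3).2 i hij
  · refine eg_inj x y ?_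
    have h1 : (egV x : ℝ) = egV y := by
      simp only at e
      linarith
    exact_mod_cast h1

lemma eg_noT (h : Em egD U W ψ) : (∃ j, A2 j ψ) ∨ ∃ j, A1 j ψ := by
  rcases cover h with a | a | t | t | t | t | t | t
  · exact Or.inl a
  · exact Or.inr a
  all_goals
    have e := k1_tsum (by decide) h t
    simp [egD, egN] at e
    norm_num at e

lemma eg_KL (hd : ND egD) : KL egD (2 / 3) := by
  classical
  intro U W R hR
  set P : Finset (Fin 4) := {j | ∃ ψ, Em egD U W ψ ∧ A2 j ψ} with hP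
  set Q : Finset (Fin 4) := {j | ∃ ψ, Em egD W U ψ ∧ A2 j ψ} with hQ
  have b1 := Bd.sum (d := egD) (U := U) (W := W) (Q := fun ψ => ∃ j, A2 j ψ) P A2 (fun _ => 2)
    (fun j _ => bd_A2 hd j) fun ψ h ⟨j, a⟩ => ⟨j, mem_filter.2 ⟨mem_univ _, ψ, h, a⟩, a⟩
  have b2 := Bd.sum (d := egD) (U := W) (W := U) (Q := fun ψ => ∃ j, A2 j ψ) Q A2 (fun _ => 2)
    (fun j _ => bd_A2 hd j) fun ψ h ⟨j, a⟩ => ⟨j, mem_filter.2 ⟨mem_univ _, ψ, h, a⟩, a⟩
  have b3 := (b1.or (k1_sw b2)) R (fun ψ hψ => ⟨hR.1 ψ hψ, eg_noT (hR.1 ψ hψ)⟩)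
    fun ψ hψ ψ' hψ' e => hR.2 ψ hψ ψ' hψ' (eg_eql (hR.1 ψ hψ) (hR.1 ψ' hψ') e)
  rw [sum_const, sum_const, smul_eq_mul, smul_eq_mul] at b3
  have c1 : #(egS P Q) ≤ #U :=
    eg_card hd (fun j hj => (mem_filter.1 hj).2) fun j hj => (mem_filter.1 hj).2
  have c2 : #(egS Q P) ≤ #W :=
    eg_card hd (fun j hj => (mem_filter.1 hj).2) fun j hj => (mem_filter.1 hj).2
  have c3 := eg_cnt P Q
  have c4 := Nat.mul_le_mul c1 c2
  have c5 : 3 * #R ≤ 2 * (#U * #W) := by omega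
  have c6 : (3 : ℝ) * #R ≤ 2 * (#U * #W) := by exact_mod_cast c5
  linarith

theorem generic_ex : ∃ v : Fin 4 → E4, AffineIndependent ℝ v ∧
    dist (v 0) (v 1) ≤ dist (v 0) (v 3) ∧ dist (v 0) (v 2) ≤ dist (v 0) (v 3) ∧
      KL (fun i j => dist (v i) (v j) ^ 2) (2 / 3) := by
  let v : Fin 4 → E4 := fun i => WithLp.toLp 2 (egP i)
  have e : ∀ i j, dist (v i) (v j) ^ 2 = egD i j := fun i j => (d2_eq _ _).symm.trans (eg_d2 i j)
  have hv : AffineIndependent ℝ v := by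
    rw [affineIndependent_iff_of_fintype]
    intro w h0 h1
    rw [weightedVSub_eq_linear_combination _ h0] at h1
    have h2 : ∀ c : Fin 4, ∑ i, w i * egP i c = 0 := fun c => by
      simpa [v] using congrArg (fun x : E4 => x c) h1
    have a0 := h2 0
    have a1 := h2 1
    have a2 := h2 2
    simp [Fin.sum_univ_four, egP] at a0 a1 a2 h0
    intro i
    rcases k1_cases i with rfl | rfl | rfl | rfl <;> linarith
  have hd := m_nd hv
  have e' : (fun i j => dist (v i) (v j) ^ 2) = egD := funext fun i => funext fun j => e i j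
  rw [e'] at hd
  refine ⟨v, hv, ?_, ?_, e' ▸ eg_KL hd⟩
  all_goals
    refine le_of_sq_le_sq ?_ dist_nonneg
    rw [e, e]
    simp only [egD]
    exact_mod_cast (by decide)

end Pool.Agent.P.MP_f7c707_co.Sh
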