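import Pool.Agent.P.MP_f7c707_co.EvD

/-!
The best family is bounded.
-/

namespace Pool.Agent.P.MP_f7c707_co.Sh

open Finset Complex Pool.Agent.P.MP_f7c707_co

lemma ek_apex {d : Tb} (hd : ND d) (U W : Finset ℝ) : Bd d U W (fun ψ => ∃ j, A2 j ψ) 8 :=
  (Bd.sum univ (fun j => A2 j) (fun _ => 2) (fun j _ => bd_A2 hd j)
    fun _ _ h => h.imp fun j hj => ⟨mem_univ j, hj⟩).mono (fun _ _ h => h) (by simp)

lemma ek_bd {d : Tb} (hd : ND d) (U W : Finset ℝ) : Bd d U W (fun _ => True) (16 + 24 * #U) := by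
  have t : ∀ {i k j l : Fin 4}, Cov i k j l → Bd d U W (Tw i k j l) (4 * #U) :=
    fun c => Fx.le_U c (fx_four hd c)
  refine ((ek_apex hd U W).or ((ek_apex hd W U).swap.or
    ((t (i := 0) (k := 1) (j := 2) (l := 3) (by decide)).or
    ((t (i := 2) (k := 3) (j := 0) (l := 1) (by decide)).or
    ((t (i := 0) (k := 2) (j := 1) (l := 3) (by decide)).or
    ((t (i := 1) (k := 3) (j := 0) (l := 2) (by decide)).or
    ((t (i := 0) (k := 3) (j := 1) (l := 2) (by decide)).or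
    (t (i := 1) (k := 2) (j := 0) (l := 3) (by decide))))))))).mono
    (fun ψ hψ _ => cover hψ) (by omega)

lemma ek_class {d : Tb} (hd : ND d) {U W : Finset ℝ} {C : Finset Lb} (h : Fm d U W C) {φ : Lb}
    (hS : ∀ ψ ∈ C, Eqv φ ψ) : #C ≤ 24 := by
  classical
  have h1 : ∀ ψ ∈ C, ∃ π : Equiv.Perm (Fin 4), ∃ u v : ℂ, normSq u = 1 ∧ normSq v = 1 ∧
      ψ = rot u v (φ ∘ π) := by
    intro ψ hψ
    obtain ⟨u, v, hu, hv, e⟩ := hS ψ hψ
    have h2 : ∀ i, ∃ k, ((u * (φ k).1, v * (φ k).2) : CC) = ψ i := fun i =>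
      (e ▸ Set.mem_range_self i : ψ i ∈ Set.range fun i => ((u * (φ i).1, v * (φ i).2) : CC))
    choose f hf using h2
    have h3 : Function.Injective f := fun i j hij => by
      by_contra hne
      have h4 := hd.ps i j hne
      rw [← (h.1 ψ hψ).ds, ← hf i, ← hf j, hij, D2, sub_self, sub_self, map_zero, add_zero] at h4
      exact lt_irrefl _ h4
    exact ⟨Equiv.ofBijective f (Finite.injective_iff_bijective.1 h3), u, v, hu, hv,
      funext fun i => (hf i).symm⟩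
  choose! π u v hu hv e using h1
  refine (card_le_card_of_injOn (t := univ) π (fun _ _ => mem_coe.2 (mem_univ _))
    fun a ha b hb hab => h.2 a ha b hb ?_).trans (by simp [Fintype.card_perm]; rfl)
  have hu0 : u a ≠ 0 := fun h0 => by simpa [h0] using hu a ha
  have hv0 : v a ≠ 0 := fun h0 => by simpa [h0] using hv a ha
  refine ⟨u b / u a, v b / v a, by rw [map_div₀, hu a ha, hu b hb, div_one],
    by rw [map_div₀, hv a ha, hv b hb, div_one], ?_⟩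
  have e1 := e a ha
  have e2 := e b hb
  rw [← hab] at e2
  generalize π a = p at e1 e2
  generalize u a = x at e1 hu0
  generalize v a = y at e1 hv0
  generalize u b = x' at e2
  generalize v b = y' at e2
  rw [e1, e2]
  funext i
  simp only [rot, ← mul_assoc, div_mul_cancel₀ _ hu0, div_mul_cancel₀ _ hv0]

lemma ek_lab {d : Tb} (hd : ND d) {U W : Finset ℝ} {R : Finset Lb} (h : Fm d U W R) {n : ℕ}
    (hn : Bd d U W (fun _ => True) n) : #R ≤ 24 * n := by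
  classical
  obtain ⟨ρ, h1, h2⟩ : ∃ ρ : Lb → Lb, (∀ ψ ∈ R, ρ ψ ∈ R ∧ Eqv (ρ ψ) ψ) ∧
      ∀ ψ ψ', Eqv ψ ψ' → ρ ψ = ρ ψ' :=
    ⟨fun ψ => Classical.epsilon fun φ => φ ∈ R ∧ Eqv φ ψ,
      fun ψ hψ => Classical.epsilon_spec (p := fun φ => φ ∈ R ∧ Eqv φ ψ) ⟨ψ, hψ, Eqv.refl ψ⟩,
      fun ψ ψ' e => congrArg Classical.epsilon (funext fun φ => propext
        ⟨fun h => ⟨h.1, shf_trans h.2 e⟩, fun h => ⟨h.1, shf_trans h.2 (shf_symm e)⟩⟩)⟩
  have h3 : ∀ φ ∈ R.image ρ, φ ∈ R ∧ ρ φ = φ := fun φ hφ => by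
    obtain ⟨ψ, hψ, rfl⟩ := mem_image.1 hφ
    exact ⟨(h1 ψ hψ).1, h2 _ _ (h1 ψ hψ).2⟩
  refine (card_le_mul_card_image (f := ρ) R 24 fun φ _ => ?_).trans
    (Nat.mul_le_mul_left _ (hn _ (fun φ hφ => ⟨h.1 φ (h3 φ hφ).1, trivial⟩) fun a ha b hb e => ?_))
  · exact ek_class hd (φ := φ) ⟨fun ψ hψ => h.1 ψ (mem_filter.1 hψ).1,
      fun a ha b hb => h.2 a (mem_filter.1 ha).1 b (mem_filter.1 hb).1⟩
      fun ψ hψ => (mem_filter.1 hψ).2 ▸ (h1 ψ (mem_filter.1 hψ).1).2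
  · rw [← (h3 a ha).2, h2 a b e, (h3 b hb).2]

lemma ek_crude {d : Tb} (hd : ND d) {U W : Finset ℝ} {R : Finset Lb} (h : Fm d U W R) :
    #R ≤ 960 * #U ∧ #R ≤ 960 * #W := by
  rcases R.eq_empty_or_nonempty with rfl | ⟨ψ, hψ⟩
  · simp
  have a : 0 < #U := by
    by_contra hc
    have h0 : U = ∅ := card_eq_zero.1 (by omega)
    refine sha_flat hd (h.1 ψ hψ).sw fun i => ?_
    by_contra h1
    exact notMem_empty _ (h0 ▸ (h.1 ψ hψ).hU i h1)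
  have b : 0 < #W := by
    by_contra hc
    have h0 : W = ∅ := card_eq_zero.1 (by omega)
    refine sha_flat hd (h.1 ψ hψ) fun i => ?_
    by_contra h1
    exact notMem_empty _ (h0 ▸ (h.1 ψ hψ).hW i h1)
  have h1 := ek_lab hd h (ek_bd hd U W)
  have h2 := ek_lab hd h (ek_bd hd W U).swap
  constructor <;> omega

theorem kappa_ex {d : Tb} (hd : ND d) (h : Big d) : ∃ U W R, Fm d U W R ∧ 1 ≤ #U ∧ #U ≤ 2880 ∧
    1 ≤ #W ∧ #W ≤ 2880 ∧ #R ≤ 960 * (#U * #W) ∧ KL d ((#R : ℝ) / (#U * #W)) := by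
  obtain ⟨U₀, W₀, R₀, f0, a0, b0, c0⟩ := h
  have g0 := autS_pos d
  obtain ⟨c1, c2⟩ := ek_crude hd f0
  have c3 : 2 * (#U₀ * #W₀) ≤ 3 * #R₀ :=
    (Nat.mul_le_mul_right _ (by omega : 2 ≤ 2 * #(autS d))).trans c0
  have a1 : #U₀ ≤ 2880 := by nlinarith
  have b1 : #W₀ ≤ 2880 := by nlinarith
  let S : Set (ℕ × ℕ × ℕ) := {t | ∃ U W R, Fm d U W R ∧ 1 ≤ #U ∧ #U ≤ 2880 ∧ 1 ≤ #W ∧
    #W ≤ 2880 ∧ t = (#U, #W, #R)}
  have hS : S.Finite := by
    refine ((Set.finite_Iic 2880).prod ((Set.finite_Iic 2880).prod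
      (Set.finite_Iic (960 * 2880)))).subset ?_
    rintro _ ⟨U, W, R, f, -, a, -, b, rfl⟩
    exact ⟨a, b, (ek_crude hd f).1.trans (Nat.mul_le_mul_left _ a)⟩
  obtain ⟨_, ⟨U, W, R, f, a, a', b, b', rfl⟩, hmax⟩ := Set.exists_max_image S
    (fun t => (t.2.2 : ℝ) / (t.1 * t.2.1)) hS ⟨_, U₀, W₀, R₀, f0, a0, a1, b0, b1, rfl⟩
  refine ⟨U, W, R, f, a, a', b, b', (ek_crude hd f).1.trans
    (Nat.mul_le_mul_left _ (Nat.le_mul_of_pos_right _ b)), fun U' W' R' f' => ?_⟩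
  have hk : (1 / 3 : ℝ) ≤ (#R : ℝ) / (#U * #W) := by
    refine le_trans ?_ (hmax _ ⟨U₀, W₀, R₀, f0, a0, a1, b0, b1, rfl⟩)
    have p1 : (0 : ℝ) < #U₀ := by exact_mod_cast a0
    have p2 : (0 : ℝ) < #W₀ := by exact_mod_cast b0
    have p3 : (2 * (#U₀ * #W₀) : ℝ) ≤ 3 * #R₀ := by exact_mod_cast c3
    have p4 := mul_pos p1 p2
    show (1 / 3 : ℝ) ≤ (#R₀ : ℝ) / (#U₀ * #W₀)
    rw [le_div_iff₀ p4]
    linarith
  obtain ⟨e1, e2⟩ := ek_crude hd f'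
  have hm := fun x1 x2 x3 x4 => hmax _ ⟨U', W', R', f', x1, x2, x3, x4, rfl⟩
  generalize (#R : ℝ) / (#U * #W) = κ at hk hm
  have q1 : (0 : ℝ) ≤ #U' := Nat.cast_nonneg _
  have q2 : (0 : ℝ) ≤ #W' := Nat.cast_nonneg _
  have q3 := mul_nonneg q1 q2
  by_cases hbig : 3 * #R' ≤ #U' * #W'
  · have q4 : (3 * #R' : ℝ) ≤ #U' * #W' := by exact_mod_cast hbig
    have q5 := mul_le_mul_of_nonneg_right hk q3
    rw [mul_assoc]
    linarith
  · have x1 : 1 ≤ #U' := by omega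
    have x3 : 1 ≤ #W' := by omega
    have x2 : #U' ≤ 2880 := by nlinarith
    have x4 : #W' ≤ 2880 := by nlinarith
    have p1 : (0 : ℝ) < #U' := by exact_mod_cast x1
    have p2 : (0 : ℝ) < #W' := by exact_mod_cast x3
    rw [mul_assoc]
    exact (div_le_iff₀ (mul_pos p1 p2)).1 (hm x1 x2 x3 x4)

end Pool.Agent.P.MP_f7c707_co.Sh
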