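import Pool.Agent.P.MP_f7c707_co.EvO

/-!
Point sets that realise a family.
-/

namespace Pool.Agent.P.MP_f7c707_co.Sh

open Finset Complex Pool.Agent.P.MP_f7c707_co

lemma evl_good (A : Finset ℂ) (hA : ∀ u ∈ A, normSq u = 1) {δ : ℝ} (hδ : 0 < δ) :
    ∃ q : ℕ, 0 < q ∧ ∀ J : ℕ, ∃ F G : Finset ℂ, #F = q * J ∧ (∀ x ∈ G, normSq x = 1) ∧
      (1 - δ) * (q * J) ≤ (#G : ℝ) ∧ ∀ x ∈ G, ∀ u ∈ A, x * u ∈ F := by
  classical
  obtain ⟨q, hq, h⟩ := foln A hA (ε := δ / (#A + 1)) (by positivity)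
  refine ⟨q, hq, fun J => ?_⟩
  obtain ⟨F, h1, h2, h3⟩ := h J
  refine ⟨F, {x ∈ F | ∀ u ∈ A, x * u ∈ F}, h1, fun x hx => h2 x (mem_filter.1 hx).1, ?_,
    fun x hx => (mem_filter.1 hx).2⟩
  have h4 := card_filter_add_card_filter_not (s := F) fun x => ∀ u ∈ A, x * u ∈ F
  have h5 : #{x ∈ F | ¬ ∀ u ∈ A, x * u ∈ F} ≤ ∑ u ∈ A, #{x ∈ F | x * u ∉ F} := by
    refine le_trans (card_le_card fun x hx => ?_) card_biUnion_le
    obtain ⟨a1, a2⟩ := mem_filter.1 hx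
    push Not at a2
    obtain ⟨u, hu, a3⟩ := a2
    exact mem_biUnion.2 ⟨u, hu, mem_filter.2 ⟨a1, a3⟩⟩
  have h6 : (#{x ∈ F | ¬ ∀ u ∈ A, x * u ∈ F} : ℝ) ≤ #A * (δ / (#A + 1) * #F) := by
    refine le_trans (by exact_mod_cast h5) ((sum_le_sum h3).trans_eq ?_)
    rw [sum_const, nsmul_eq_mul]
  have h7 : (#A : ℝ) * (δ / (#A + 1) * #F) ≤ δ * #F := by
    rw [← mul_assoc, ← mul_div_assoc]
    gcongr
    rw [div_le_iff₀ (by positivity)]
    nlinarith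
  have h8 : (#{x ∈ F | ∀ u ∈ A, x * u ∈ F} : ℝ) + #{x ∈ F | ¬ ∀ u ∈ A, x * u ∈ F} = #F := by
    exact_mod_cast h4
  have h9 : (#F : ℝ) = q * J := by exact_mod_cast h1
  rw [← h9]
  linarith

lemma evl_floor {a q n : ℕ} (ha : 0 < a) (hq : 0 < q) {δ : ℝ} (hn : 1 + 2 * a * q ≤ δ * n)
    (h1 : 1 ≤ n) : (1 - δ) * n ≤ 2 * a * (q * ((n - 1) / (2 * a * q) : ℕ) : ℝ) := by
  have h2 := Nat.lt_mul_div_succ (n - 1) (show 0 < 2 * a * q by positivity)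
  have h3 : n ≤ 2 * a * q * ((n - 1) / (2 * a * q) + 1) := by omega
  have h4 : (n : ℝ) ≤ 2 * a * q * (((n - 1) / (2 * a * q) : ℕ) + 1) := by exact_mod_cast h3
  linarith

lemma evl_polar {z : ℂ} (hz : z ≠ 0) : normSq (z / ‖z‖) = 1 ∧
    ∀ x : ℂ, x * z = √(normSq z) * (x * (z / ‖z‖)) := by
  have h : (‖z‖ : ℂ) ≠ 0 := by simpa using hz
  refine ⟨?_, fun x => ?_⟩
  · rw [map_div₀, normSq_ofReal, normSq_eq_norm_sq, sq, div_self (by simpa using hz)]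
  · rw [normSq_eq_norm_sq, Real.sqrt_sq (norm_nonneg z)]
    field_simp

lemma evl_frame {d : Tb} (hd : ND d) {U W : Finset ℝ} (hU : U.Nonempty) (hW : W.Nonempty)
    (R : Finset Lb) (hR : ∀ ψ ∈ R, Em d U W ψ)
    (hne : ∀ ψ ∈ R, ∀ ψ' ∈ R, ∀ u v : ℂ, normSq u = 1 → normSq v = 1 →
      (ψ' = fun i => (u * (ψ i).1, v * (ψ i).2)) → ψ = ψ') {ε : ℝ} (hε : 0 < ε) :
    ∃ N : ℕ, ∀ n : ℕ, N ≤ n → ∃ (X : Finset CC) (S : Finset Lb), #X ≤ n ∧
      (∀ φ ∈ S, (∀ i, φ i ∈ X) ∧ ∀ i j, D2 (φ i) (φ j) = d i j) ∧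
      ((#R : ℝ) / (4 * #U * #W) - ε) * (n : ℝ) ^ 2 ≤ #S := by
  classical
  have ha := card_pos.2 hU
  have hb := card_pos.2 hW
  obtain ⟨δ, hδ, hδ1, hδ2⟩ : ∃ δ : ℝ, 0 < δ ∧ δ ≤ 1 ∧ δ * #R ≤ ε := by
    refine ⟨min 1 (ε / (#R + 1)), by positivity, min_le_left _ _, ?_⟩
    have := (le_div_iff₀ (by positivity)).1 (min_le_right 1 (ε / (#R + 1)))
    have h0 : (0 : ℝ) < min 1 (ε / (#R + 1)) := by positivity
    linarith
  let T : Finset ℂ := {z ∈ R.biUnion fun ψ => univ.biUnion fun i => {(ψ i).1, (ψ i).2} | z ≠ 0}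
  obtain ⟨q, hq, hF⟩ := evl_good (T.image fun z => z / ‖z‖) (fun u hu => by
    obtain ⟨z, hz, rfl⟩ := mem_image.1 hu
    exact (evl_polar (mem_filter.1 hz).2).1) hδ
  refine ⟨⌈(1 + 2 * (#U + #W) * q) / δ⌉₊ + 1, fun n hn => ?_⟩
  have hn1 : (1 + 2 * (#U + #W) * q : ℝ) ≤ δ * n := by
    rw [mul_comm δ, ← div_le_iff₀ hδ]
    exact Nat.ceil_le.1 (by omega)
  have hq' : (0 : ℝ) ≤ q := by positivity
  have f1 := evl_floor ha hq (δ := δ) (n := n) (by nlinarith [(Nat.cast_nonneg #W : (0 : ℝ) ≤ _)])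
    (by omega)
  have f2 := evl_floor hb hq (δ := δ) (n := n) (by nlinarith [(Nat.cast_nonneg #U : (0 : ℝ) ≤ _)])
    (by omega)
  have g1 := Nat.mul_div_le (n - 1) (2 * #U * q)
  have g2 := Nat.mul_div_le (n - 1) (2 * #W * q)
  generalize (n - 1) / (2 * #U * q) = J1 at f1 g1
  generalize (n - 1) / (2 * #W * q) = J2 at f2 g2
  obtain ⟨F1, G1, a1, a2, a3, a4⟩ := hF J1
  obtain ⟨F2, G2, b1, b2, b3, b4⟩ := hF J2
  have m1 : ∀ ψ ∈ R, ∀ i, (ψ i).1 ≠ 0 → (ψ i).1 ∈ T := fun ψ h i h0 =>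
    mem_filter.2 ⟨mem_biUnion.2 ⟨ψ, h, mem_biUnion.2 ⟨i, mem_univ _, by simp⟩⟩, h0⟩
  have m2 : ∀ ψ ∈ R, ∀ i, (ψ i).2 ≠ 0 → (ψ i).2 ∈ T := fun ψ h i h0 =>
    mem_filter.2 ⟨mem_biUnion.2 ⟨ψ, h, mem_biUnion.2 ⟨i, mem_univ _, by simp⟩⟩, h0⟩
  refine ⟨insert 0 (((U ×ˢ F1).image fun p => ((√p.1 * p.2, 0) : CC)) ∪
      (W ×ˢ F2).image fun p => ((0, √p.1 * p.2) : CC)),
    (R ×ˢ G1 ×ˢ G2).image fun p i => (p.2.1 * (p.1 i).1, p.2.2 * (p.1 i).2), ?_,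
    fun φ hφ => ?_, ?_⟩
  · refine (card_insert_le _ _).trans ((Nat.add_le_add_right ((card_union_le _ _).trans
      (Nat.add_le_add card_image_le card_image_le)) 1).trans ?_)
    rw [card_product, card_product, a1, b1]
    have e1 : 2 * #U * q * J1 = 2 * (#U * (q * J1)) := by ring
    have e2 : 2 * #W * q * J2 = 2 * (#W * (q * J2)) := by ring
    omega
  · obtain ⟨⟨ψ, x, y⟩, hp, rfl⟩ := mem_image.1 hφ
    obtain ⟨h1, h2⟩ := mem_product.1 hp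
    obtain ⟨h2, h3⟩ := mem_product.1 h2
    dsimp only at h1 h2 h3 ⊢
    refine ⟨fun i => ?_, fun i j => ?_⟩
    · by_cases c1 : (ψ i).1 = 0
      · by_cases c2 : (ψ i).2 = 0
        · rw [c1, c2, mul_zero, mul_zero]
          exact mem_insert_self _ _
        · refine mem_insert_of_mem (mem_union_right _ (mem_image.2 ⟨(normSq (ψ i).2, _),
            mem_product.2 ⟨(hR ψ h1).hW i c2, b4 y h3 _ (mem_image_of_mem _ (m2 ψ h1 i c2))⟩, ?_⟩))
          rw [c1, mul_zero, (evl_polar c2).2 y]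
      · refine mem_insert_of_mem (mem_union_left _ (mem_image.2 ⟨(normSq (ψ i).1, _),
          mem_product.2 ⟨(hR ψ h1).hU i c1, a4 x h2 _ (mem_image_of_mem _ (m1 ψ h1 i c1))⟩, ?_⟩))
        rw [((hR ψ h1).fr i).resolve_left c1, mul_zero, (evl_polar c1).2 x]
    · rw [← (hR ψ h1).ds, D2, D2, ← mul_sub, ← mul_sub, map_mul, map_mul, a2 x h2, b2 y h3,
        one_mul, one_mul]
  · rw [card_image_of_injOn, card_product, card_product]
    · have hA : (0 : ℝ) < #U := by exact_mod_cast ha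
      have hB : (0 : ℝ) < #W := by exact_mod_cast hb
      have hA1 : (1 : ℝ) ≤ #U := by exact_mod_cast ha
      have hB1 : (1 : ℝ) ≤ #W := by exact_mod_cast hb
      have d0 : 0 ≤ 1 - δ := by linarith
      have k1 : (1 - δ) ^ 2 * n / (2 * #U) ≤ #G1 := by
        rw [div_le_iff₀ (by positivity)]
        nlinarith [mul_le_mul_of_nonneg_left f1 d0, mul_le_mul_of_nonneg_left a3 hA.le]
      have k2 : (1 - δ) ^ 2 * n / (2 * #W) ≤ #G2 := by
        rw [div_le_iff₀ (by positivity)]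
        nlinarith [mul_le_mul_of_nonneg_left f2 d0, mul_le_mul_of_nonneg_left b3 hB.le]
      have k3 : 1 - 4 * δ ≤ (1 - δ) ^ 4 := by
        have := one_add_mul_le_pow (a := -δ) (by linarith) 4
        push_cast at this
        rw [← sub_eq_add_neg] at this
        linarith
      have k4 : (#R : ℝ) / (4 * #U * #W) * (4 * δ) ≤ ε := by
        refine le_trans ?_ hδ2
        rw [div_mul_eq_mul_div, div_le_iff₀ (by positivity)]
        have : (0 : ℝ) ≤ δ * #R := by positivity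
        nlinarith [mul_le_mul hA1 hB1 zero_le_one hA.le]
      push_cast
      calc _ ≤ (#R : ℝ) / (4 * #U * #W) * (1 - δ) ^ 4 * (n : ℝ) ^ 2 := by
            gcongr
            have : (0 : ℝ) ≤ #R / (4 * #U * #W) := by positivity
            nlinarith [mul_le_mul_of_nonneg_left k3 this]
        _ = #R * ((1 - δ) ^ 2 * n / (2 * #U) * ((1 - δ) ^ 2 * n / (2 * #W))) := by
            field_simp
            ring
        _ ≤ _ := by gcongr
    · rintro ⟨ψ, x, y⟩ hp ⟨ψ', x', y'⟩ hp' e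
      obtain ⟨h1, h2⟩ := mem_product.1 (mem_coe.1 hp)
      obtain ⟨h2, h3⟩ := mem_product.1 h2
      obtain ⟨h1', h2'⟩ := mem_product.1 (mem_coe.1 hp')
      obtain ⟨h2', h3'⟩ := mem_product.1 h2'
      dsimp only at h1 h2 h3 h1' h2' h3' e
      have x0 : x' ≠ 0 := fun e => by simpa [e] using a2 x' h2'
      have y0 : y' ≠ 0 := fun e => by simpa [e] using b2 y' h3'
      have e1 : ∀ i, x * (ψ i).1 = x' * (ψ' i).1 := fun i => congrArg Prod.fst (congrFun e i)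
      have e2 : ∀ i, y * (ψ i).2 = y' * (ψ' i).2 := fun i => congrArg Prod.snd (congrFun e i)
      obtain rfl : ψ = ψ' := hne ψ h1 ψ' h1' (x / x') (y / y')
        (by rw [map_div₀, a2 x h2, a2 x' h2', div_one])
        (by rw [map_div₀, b2 y h3, b2 y' h3', div_one]) (funext fun i => Prod.ext
          (by dsimp only; rw [div_mul_eq_mul_div, e1, mul_div_cancel_left₀ _ x0])
          (by dsimp only; rw [div_mul_eq_mul_div, e2, mul_div_cancel_left₀ _ y0]))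
      obtain ⟨i, hi⟩ : ∃ i, (ψ i).1 ≠ 0 := by
        by_contra! h
        exact sha_flat hd (hR ψ h1).sw h
      obtain ⟨j, hj⟩ : ∃ j, (ψ j).2 ≠ 0 := by
        by_contra! h
        exact sha_flat hd (hR ψ h1) h
      rw [mul_right_cancel₀ hi (e1 i), mul_right_cancel₀ hj (e2 j)]

theorem low_emb {d : Tb} {U W : Finset ℝ} {R : Finset Lb} (hd : ND d) (h : Fm d U W R)
    (hU : 1 ≤ #U) (hW : 1 ≤ #W) {ε : ℝ} (hε : 0 < ε) : ∃ N : ℕ, ∀ n : ℕ, N ≤ n →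
      ∃ P : Finset V, #P = n ∧ ((#R : ℝ) / (#U * #W) / 4 - ε) * (n : ℝ) ^ 2 ≤ #(Emb P d) := by
  classical
  obtain ⟨N, hN⟩ := evl_frame hd (card_pos.1 hU) (card_pos.1 hW) R h.1
    (fun ψ h1 ψ' h2 u v hu hv e => h.2 ψ h1 ψ' h2 ⟨u, v, hu, hv, e⟩) hε
  refine ⟨N, fun n hn => ?_⟩
  obtain ⟨X, S, h1, h2, h3⟩ := hN n hn
  let g : CC → V := fun z => ![z.1.re, z.1.im, z.2.re, z.2.im]
  have hg : ∀ z w, d2 (g z) (g w) = D2 z w := fun z w => by
    simp only [d2, D2, g, dotProduct, Fin.sum_univ_four, normSq_apply, sub_re, sub_im,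
      Pi.sub_apply, Matrix.cons_val_zero, Matrix.cons_val_one, Matrix.cons_val]
    ring
  have hi : Function.Injective g := fun z w e =>
    Prod.ext (Complex.ext (congrFun e 0) (congrFun e 1)) (Complex.ext (congrFun e 2) (congrFun e 3))
  obtain ⟨P, hP, hPn⟩ := Infinite.exists_superset_card_eq (X.image g) n (card_image_le.trans h1)
  refine ⟨P, hPn, ?_⟩
  have h4 : #S ≤ #(Emb P d) := card_le_card_of_injOn (fun φ => g ∘ φ) (fun φ hφ =>
    mem_coe.2 (mem_Emb.2 ⟨fun i => hP (mem_image_of_mem _ ((h2 φ hφ).1 i)),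
      fun i j => (hg _ _).trans ((h2 φ hφ).2 i j)⟩)) fun _ _ _ _ e => hi.comp_left e
  rw [div_div, show (#U : ℝ) * #W * 4 = 4 * #U * #W by ring]
  exact h3.trans (by exact_mod_cast h4)

end Pool.Agent.P.MP_f7c707_co.Sh
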