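import Pool.Agent.P.MP_f7c707_co.EvD

/-!
A large family: tables without a transposition.
-/

namespace Pool.Agent.P.MP_f7c707_co.Sh

open Finset Complex Pool.Agent.P.MP_f7c707_co

lemma em1_swap {d : Tb} (hd : ND d) {i j : Fin 4}
    (h : ∀ k, k ≠ i → k ≠ j → d i k = d j k) : Equiv.swap i j ∈ autS d := by
  have h' : ∀ k, k ≠ i → k ≠ j → d k i = d k j := fun k a b => by
    rw [hd.sy k i, hd.sy k j, h k a b]
  refine mem_autS.2 fun a b => ?_
  by_cases a1 : a = i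
  · by_cases b1 : b = i
    · rw [a1, b1, hd.dg, hd.dg]
    by_cases b2 : b = j
    · rw [a1, b2, Equiv.swap_apply_left, Equiv.swap_apply_right, hd.sy]
    · rw [a1, Equiv.swap_apply_left, Equiv.swap_apply_of_ne_of_ne b1 b2, h b b1 b2]
  by_cases a2 : a = j
  · by_cases b1 : b = i
    · rw [a2, b1, Equiv.swap_apply_left, Equiv.swap_apply_right, hd.sy]
    by_cases b2 : b = j
    · rw [a2, b2, hd.dg, hd.dg]
    · rw [a2, Equiv.swap_apply_right, Equiv.swap_apply_of_ne_of_ne b1 b2, h b b1 b2]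
  rw [Equiv.swap_apply_of_ne_of_ne a1 a2]
  by_cases b1 : b = i
  · rw [b1, Equiv.swap_apply_left, h' a a1 a2]
  by_cases b2 : b = j
  · rw [b2, Equiv.swap_apply_right, h' a a1 a2]
  · rw [Equiv.swap_apply_of_ne_of_ne b1 b2]

set_option synthInstance.maxSize 4096 in
lemma em1_six : ∀ a b c : Fin 4, a ≠ b → a ≠ c → b ≠ c → a ≠ 3 → b ≠ 3 → c ≠ 3 →
    (a = 0 ∧ b = 1 ∧ c = 2) ∨ (a = 1 ∧ b = 0 ∧ c = 2) ∨ (a = 2 ∧ b = 1 ∧ c = 0) ∨
      (a = 0 ∧ b = 2 ∧ c = 1) ∨ (a = 1 ∧ b = 2 ∧ c = 0) ∨ (a = 2 ∧ b = 0 ∧ c = 1) := by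
  decide

lemma em1_01 : ∀ k : Fin 4, k ≠ 0 → k ≠ 1 → k = 2 ∨ k = 3 := by decide

lemma em1_02 : ∀ k : Fin 4, k ≠ 0 → k ≠ 2 → k = 1 ∨ k = 3 := by decide

lemma em1_12 : ∀ k : Fin 4, k ≠ 1 → k ≠ 2 → k = 0 ∨ k = 3 := by decide

lemma em1_all : ∀ k : Fin 4, k = 0 ∨ k = 1 ∨ k = 2 ∨ k = 3 := by decide

lemma em1_stab {d : Tb} (hd : ND d) (h : ∀ i j : Fin 4, i ≠ j → Equiv.swap i j ∉ autS d)
    (σ : Equiv.Perm (Fin 4)) (hσ : ∀ i j, d (σ i) (σ j) = d i j) (h3 : σ 3 = 3) (m : Fin 4) :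
    σ m = m := by
  have n : ∀ i j : Fin 4, i ≠ j → σ i ≠ σ j := fun i j e => σ.injective.ne e
  have e01 := hσ 0 1
  have e02 := hσ 0 2
  have e12 := hσ 1 2
  have e03 := hσ 0 3
  have e13 := hσ 1 3
  have s01 := hd.sy 0 1
  have s02 := hd.sy 0 2
  have s12 := hd.sy 1 2
  rcases em1_six (σ 0) (σ 1) (σ 2) (n _ _ (by decide)) (n _ _ (by decide)) (n _ _ (by decide))
    (h3 ▸ n 0 3 (by decide)) (h3 ▸ n 1 3 (by decide)) (h3 ▸ n 2 3 (by decide)) with
    ⟨a, b, c⟩ | ⟨a, b, c⟩ | ⟨a, b, c⟩ | ⟨a, b, c⟩ | ⟨a, b, c⟩ | ⟨a, b, c⟩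
  · rcases em1_all m with rfl | rfl | rfl | rfl <;> assumption
  all_goals
    exfalso
    simp only [a, b, c, h3] at e01 e02 e12 e03 e13
  · refine h 0 1 (by decide) (em1_swap hd fun k k1 k2 => ?_)
    rcases em1_01 k k1 k2 with rfl | rfl <;> linarith
  · refine h 0 2 (by decide) (em1_swap hd fun k k1 k2 => ?_)
    rcases em1_02 k k1 k2 with rfl | rfl <;> linarith
  · refine h 1 2 (by decide) (em1_swap hd fun k k1 k2 => ?_)
    rcases em1_12 k k1 k2 with rfl | rfl <;> linarith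
  · refine h 0 1 (by decide) (em1_swap hd fun k k1 k2 => ?_)
    rcases em1_01 k k1 k2 with rfl | rfl <;> linarith
  · refine h 0 1 (by decide) (em1_swap hd fun k k1 k2 => ?_)
    rcases em1_01 k k1 k2 with rfl | rfl <;> linarith

lemma em1_place {d : Tb} (v : Fin 4 → V) (hv : ∀ i j, d2 (v i) (v j) = d i j) :
    ∃ ψ : Lb, (∀ i j, D2 (ψ i) (ψ j) = d i j) ∧ (ψ 3).1 = 0 ∧ A2 3 ψ := by
  obtain ⟨e₃, a33, a1, a2, -⟩ := c_unit (v 1 - v 0) (v 2 - v 0) 0
  obtain ⟨e₄, a44, b1, b2, a34⟩ := c_unit (v 1 - v 0) (v 2 - v 0) e₃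
  obtain ⟨e₁, a11, a31, a41, -⟩ := c_unit e₃ e₄ 0
  obtain ⟨e₂, a22, a32, a42, a12⟩ := c_unit e₃ e₄ e₁
  have hκ := c_chart a11 a22 a33 a44 a12 a31 a41 a32 a42 a34 (v 3) (v 0)
  refine ⟨fun i => (⟨(v i - v 3) ⬝ᵥ e₁, (v i - v 3) ⬝ᵥ e₂⟩, ⟨(v i - v 0) ⬝ᵥ e₃, (v i - v 0) ⬝ᵥ e₄⟩),
    fun i j => (hκ.2 (v i) (v j)).symm.trans (hv i j), ?_, fun i hi => ?_⟩
  · exact Complex.ext (by simp) (by simp)
  · rcases em1_all i with rfl | rfl | rfl | rfl
    · exact Complex.ext (by simp) (by simp)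
    · exact Complex.ext a1 b1
    · exact Complex.ext a2 b2
    · exact (hi rfl).elim

lemma em1_rot {u w : ℂ} (hu : normSq u = 1) (ψ : Lb) : shaX (rot u w ψ) = shaX ψ := by
  rw [normSq_apply] at hu
  simp only [shaX, rot, mul_re, mul_im]
  linear_combination (((ψ 1).1.re - (ψ 0).1.re) * ((ψ 2).1.im - (ψ 0).1.im) -
    ((ψ 1).1.im - (ψ 0).1.im) * ((ψ 2).1.re - (ψ 0).1.re)) * hu

theorem big_free {d : Tb} (hd : ND d) (v : Fin 4 → V) (hv : ∀ i j, d2 (v i) (v j) = d i j)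
    (h : ∀ i j : Fin 4, i ≠ j → Equiv.swap i j ∉ autS d) : Big d := by
  classical
  obtain ⟨ψ, h1, h2, h3⟩ := em1_place v hv
  let U : Finset ℝ := {normSq (ψ 0).1, normSq (ψ 1).1, normSq (ψ 2).1}
  let W : Finset ℝ := {normSq (ψ 3).2}
  have hE : Em d U W ψ := by
    refine ⟨h1, fun i => ?_, fun i hi => ?_, fun i hi => ?_⟩
    · by_cases e : i = 3
      · exact Or.inl (e ▸ h2)
      · exact Or.inr (h3 i e)
    · rcases em1_all i with rfl | rfl | rfl | rfl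
      · simp [U]
      · simp [U]
      · simp [U]
      · exact (hi h2).elim
    · by_cases e : i = 3
      · rw [e]; exact mem_singleton_self _
      · exact (hi (h3 i e)).elim
  let χ : Bool → Lb := fun b i => (if b then (ψ i).1 else (starRingEnd ℂ) (ψ i).1, (ψ i).2)
  have hχ : ∀ b, Em d U W (χ b) := by
    rintro (_ | _)
    · refine ⟨fun i j => ?_, fun i => (hE.fr i).imp_left fun e => ?_, fun i hi => ?_, hE.hW⟩
      · rw [← h1]
        simp only [χ, D2, Bool.false_eq_true, if_false, ← map_sub, normSq_conj]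
      · simp [χ, e]
      · have := hE.hU i fun e => hi (by simp [χ, e])
        simpa only [χ, Bool.false_eq_true, if_false, normSq_conj] using this
    · exact hE
  have hX : shaX ψ ≠ 0 := sha_X_ne hd hE h3
  have hX1 : shaX (χ true) = shaX ψ := rfl
  have hX0 : shaX (χ false) = -shaX ψ := by
    simp only [χ, shaX, Bool.false_eq_true, if_false, conj_re, conj_im]
    ring
  have top : (ψ 3).2 ≠ 0 := (h3.top hd hE).2
  let F : Bool × Equiv.Perm (Fin 4) → Lb := fun p => χ p.1 ∘ p.2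
  have key : ∀ p ∈ (univ : Finset Bool) ×ˢ autS d, ∀ q ∈ (univ : Finset Bool) ×ˢ autS d,
      EqL (F p) (F q) → p = q := by
    rintro ⟨b, π⟩ hp ⟨b', π'⟩ hq ⟨u, w, hu, hw, e⟩
    have a1 := mem_autS.1 (mem_product.1 hp).2
    have a2 := mem_autS.1 (mem_product.1 hq).2
    have e1 : ∀ m, χ b' (π' (π.symm m)) = rot u w (χ b) m := fun m => by
      have := congrFun e (π.symm m)
      simpa only [F, rot, Function.comp, Equiv.apply_symm_apply] using this
    have w0 : w ≠ 0 := fun e => by simp [e] at hw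
    have e2 : π' (π.symm 3) = 3 := by_contra fun n =>
      mul_ne_zero w0 top ((congrArg Prod.snd (e1 3)).symm.trans (h3 _ n))
    have e3 : ∀ m, π' (π.symm m) = m := em1_stab hd h (π.symm.trans π') (fun i j => by
      have := a1 (π.symm i) (π.symm j)
      simp only [Equiv.apply_symm_apply] at this
      exact (a2 _ _).trans this.symm) e2
    have e4 : π = π' := Equiv.ext fun m => by
      have := e3 (π m)
      rw [Equiv.symm_apply_apply] at this
      exact this.symm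
    have e5 : χ b' = rot u w (χ b) := funext fun m => by rw [← e1 m, e3 m]
    have e6 : shaX (χ b') = shaX (χ b) := by rw [e5, em1_rot hu]
    refine Prod.ext ?_ e4
    cases b <;> cases b'
    · rfl
    · exact (hX (by rw [hX1, hX0] at e6; linarith)).elim
    · exact (hX (by rw [hX1, hX0] at e6; linarith)).elim
    · rfl
  have refl : ∀ φ : Lb, EqL φ φ := fun φ => ⟨1, 1, by simp, by simp, by funext i; simp [rot]⟩
  refine ⟨U, W, ((univ : Finset Bool) ×ˢ autS d).image F, ⟨fun φ hφ => ?_, fun φ hφ φ' hφ' e => ?_⟩,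
    card_pos.2 ⟨_, mem_insert_self _ _⟩, (card_singleton _).ge, ?_⟩
  · obtain ⟨p, hp, rfl⟩ := mem_image.1 hφ
    exact (hχ p.1).aut ⟨p.2.surjective, mem_autS.1 (mem_product.1 hp).2⟩
  · obtain ⟨p, hp, rfl⟩ := mem_image.1 hφ
    obtain ⟨q, hq, rfl⟩ := mem_image.1 hφ'
    rw [key p hp q hq e]
  · rw [card_image_of_injOn (f := F) fun p hp q hq e => key p hp q hq (by rw [e]; exact refl _),
      card_product, card_univ, Fintype.card_bool]
    have c1 : #U ≤ 3 := card_le_three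
    have c2 : #W = 1 := card_singleton _
    rw [c2, mul_one, mul_comm 3]
    exact Nat.mul_le_mul_left _ c1

end Pool.Agent.P.MP_f7c707_co.Sh
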