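import Pool.Agent.P.MP_f7c707_co.EvD

/-!
A large family: tables with a transposition.
-/

namespace Pool.Agent.P.MP_f7c707_co.Sh

open Finset Complex Pool.Agent.P.MP_f7c707_co

variable {d : Tb} {i j k l : Fin 4}

lemma em2_cov : ∀ i j : Fin 4, i ≠ j → ∃ k l, Cov i j k l := by
  decide

lemma em2_ar {u a b a' b' : ℂ} (hu : normSq u = 1) (ha : a' = u * a) (hb : b' = u * b) :
    a'.re * b'.im - a'.im * b'.re = a.re * b.im - a.im * b.re := by
  rw [normSq_apply] at hu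
  rw [ha, hb, mul_re, mul_im, mul_re, mul_im]
  linear_combination (a.re * b.im - a.im * b.re) * hu

/-- A family from an index set. -/
lemma em2_fam {ι : Type} {U W : Finset ℝ} (T : Finset ι) (f : ι → Lb)
    (h1 : ∀ t ∈ T, Em d U W (f t)) (h2 : ∀ t ∈ T, ∀ t' ∈ T, EqL (f t) (f t') → t = t') :
    ∃ R, Fm d U W R ∧ #R = #T := by
  classical
  refine ⟨T.image f, ⟨fun ψ hψ => ?_, fun ψ hψ ψ' hψ' e => ?_⟩,
    card_image_of_injOn fun t ht t' ht' e => h2 t ht t' ht' ⟨1, 1, map_one _, map_one _, ?_⟩⟩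
  · obtain ⟨t, ht, rfl⟩ := mem_image.1 hψ
    exact h1 t ht
  · obtain ⟨t, ht, rfl⟩ := mem_image.1 hψ
    obtain ⟨t', ht', rfl⟩ := mem_image.1 hψ'
    rw [h2 t ht t' ht' e]
  · rw [← e]
    funext m
    simp [rot]

/-- The explicit copy with two vertices in each plane. -/
lemma em2_mk (hd : ND d) (hc : Cov i j k l) (h1 : d j k = d i k) (h2 : d j l = d i l)
    {x y s p t r : ℝ} (hy : 4 * y ^ 2 = d i j) (hx : x ^ 2 + y ^ 2 = r) (hs : s ^ 2 = d i k - r)
    (hp : p ^ 2 + t ^ 2 = d i l - r) (hb : (s - p) ^ 2 + t ^ 2 = d k l) :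
    ∃ ψ : Lb, Em d {r} {d i k - r, d i l - r} ψ ∧ ψ i = (⟨x, y⟩, 0) ∧ ψ j = (⟨x, -y⟩, 0) ∧
      ψ k = (0, ⟨s, 0⟩) ∧ ψ l = (0, ⟨p, t⟩) := by
  obtain ⟨n1, n2, n3, n4, n5, n6⟩ := hc.ne
  obtain ⟨ψ, a1, a2, a3, a4⟩ : ∃ ψ : Lb, ψ i = (⟨x, y⟩, 0) ∧ ψ j = (⟨x, -y⟩, 0) ∧
      ψ k = (0, ⟨s, 0⟩) ∧ ψ l = (0, ⟨p, t⟩) :=
    ⟨fun m => if m = i then (⟨x, y⟩, 0) else if m = j then (⟨x, -y⟩, 0) else
      if m = k then (0, ⟨s, 0⟩) else (0, ⟨p, t⟩), if_pos rfl,
      (if_neg n1.symm).trans (if_pos rfl),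
      (if_neg n2.symm).trans ((if_neg n4.symm).trans (if_pos rfl)),
      (if_neg n3.symm).trans ((if_neg n5.symm).trans (if_neg n6.symm))⟩
  refine ⟨ψ, ⟨fun a b => ?_, fun m => ?_, fun m hm => ?_, fun m hm => ?_⟩, a1, a2, a3, a4⟩
  · have s1 := hd.sy j i
    have s2 := hd.sy k i
    have s3 := hd.sy l i
    have s4 := hd.sy k j
    have s5 := hd.sy l j
    have s6 := hd.sy l k
    have g1 := hd.dg i
    have g2 := hd.dg j
    have g3 := hd.dg k
    have g4 := hd.dg l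
    rcases hc a with ha | ha | ha | ha <;> rcases hc b with hb' | hb' | hb' | hb' <;>
      simp only [ha, hb', a1, a2, a3, a4, D2, normSq_apply, sub_re, sub_im, zero_re, zero_im] <;>
      linarith
  · rcases hc m with h | h | h | h <;> simp only [h, a1, a2, a3, a4, true_or, or_true]
  · rcases hc m with h | h | h | h <;> rw [h] at hm ⊢
    · rw [a1, mem_singleton, normSq_apply]
      show x * x + y * y = r
      linarith
    · rw [a2, mem_singleton, normSq_apply]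
      show x * x + -y * -y = r
      linarith
    · exact absurd (congrArg Prod.fst a3) hm
    · exact absurd (congrArg Prod.fst a4) hm
  · rcases hc m with h | h | h | h <;> rw [h] at hm ⊢
    · exact absurd (congrArg Prod.snd a1) hm
    · exact absurd (congrArg Prod.snd a2) hm
    · rw [a3, mem_insert, normSq_apply]
      refine Or.inl ?_
      show s * s + 0 * 0 = d i k - r
      linarith
    · rw [a4, mem_insert, mem_singleton, normSq_apply]
      refine Or.inr ?_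
      show p * p + t * t = d i l - r
      linarith

/-- Rotations that relabel the explicit copies. -/
lemma em2_rigid (hc : Cov i j k l) {x y s p t t' : ℝ} (hx : x ≠ 0) (hy : y ≠ 0) (hs : s ≠ 0)
    (ht : t ≠ 0) {ψ ψ' : Lb} (a1 : ψ i = (⟨x, y⟩, 0)) (a2 : ψ j = (⟨x, -y⟩, 0))
    (a3 : ψ k = (0, ⟨s, 0⟩)) (a4 : ψ l = (0, ⟨p, t⟩)) (b1 : ψ' i = (⟨x, y⟩, 0))
    (b2 : ψ' j = (⟨x, -y⟩, 0)) (b3 : ψ' k = (0, ⟨s, 0⟩)) (b4 : ψ' l = (0, ⟨p, t'⟩))
    {π π' : Equiv.Perm (Fin 4)} (h : EqL (ψ ∘ π) (ψ' ∘ π')) :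
    (π = π' ∧ t' = t) ∨ (s ^ 2 = p ^ 2 + t' ^ 2 ∧ t' = -t) := by
  obtain ⟨n1, -, -, -, -, n6⟩ := hc.ne
  obtain ⟨u, v, hu, hv, e⟩ := h
  obtain ⟨σ, hσ⟩ : ∃ σ : Equiv.Perm (Fin 4), σ = π.symm.trans π' := ⟨_, rfl⟩
  have e0 : ∀ m, ψ' (σ m) = (u * (ψ m).1, v * (ψ m).2) := fun m => by
    have := congrFun e (π.symm m)
    simpa [rot, hσ] using this
  have e1 : ∀ m, (ψ' (σ m)).1 = u * (ψ m).1 := fun m => congrArg Prod.fst (e0 m)
  have e2 : ∀ m, (ψ' (σ m)).2 = v * (ψ m).2 := fun m => congrArg Prod.snd (e0 m)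
  have hu0 : u ≠ 0 := fun h => by simp [h] at hu
  have hv0 : v ≠ 0 := fun h => by simp [h] at hv
  have l1 : ∀ m, (ψ m).1 ≠ 0 → σ m = i ∨ σ m = j := fun m hm => by
    have h3 := e1 m
    rcases hc (σ m) with h | h | h | h
    exacts [Or.inl h, Or.inr h, absurd (by rw [← h3, h, b3]) (mul_ne_zero hu0 hm),
      absurd (by rw [← h3, h, b4]) (mul_ne_zero hu0 hm)]
  have l2 : ∀ m, (ψ m).2 ≠ 0 → σ m = k ∨ σ m = l := fun m hm => by
    have h3 := e2 m
    rcases hc (σ m) with h | h | h | h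
    exacts [absurd (by rw [← h3, h, b1]) (mul_ne_zero hv0 hm),
      absurd (by rw [← h3, h, b2]) (mul_ne_zero hv0 hm), Or.inl h, Or.inr h]
  have c1 := l1 i (by rw [a1]; exact fun h => hx (congrArg re h))
  have c2 := l1 j (by rw [a2]; exact fun h => hx (congrArg re h))
  have c3 := l2 k (by rw [a3]; exact fun h => hs (congrArg re h))
  have c4 := l2 l (by rw [a4]; exact fun h => ht (congrArg im h))
  have r1 := em2_ar hu (e1 i) (e1 j)
  have r2 := em2_ar hv (e2 k) (e2 l)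
  have d1 : σ i = i ∧ σ j = j := by
    rcases c1 with c1 | c1 <;> rcases c2 with c2 | c2
    · exact absurd (σ.injective (c1.trans c2.symm)) n1
    · exact ⟨c1, c2⟩
    · rw [c1, c2, a1, a2, b1, b2] at r1
      exact absurd (by linarith [show x * y - -y * x = x * -y - y * x from r1])
        (mul_ne_zero hx hy)
    · exact absurd (σ.injective (c1.trans c2.symm)) n1
  rcases c3 with c3 | c3 <;> rcases c4 with c4 | c4
  · exact absurd (σ.injective (c3.trans c4.symm)) n6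
  · rw [c3, c4, a3, a4, b3, b4] at r2
    refine Or.inl ⟨Equiv.ext fun m => ?_, mul_left_cancel₀ hs
      (by linarith [show s * t' - 0 * p = s * t - 0 * p from r2])⟩
    have h3 : σ (π m) = π m := by
      rcases hc (π m) with h | h | h | h <;> rw [h]
      exacts [d1.1, d1.2, c3, c4]
    rw [← h3, hσ]
    simp
  · have h3 := congrArg normSq (e2 k)
    rw [c3, b4, a3, map_mul, hv, one_mul, normSq_apply, normSq_apply] at h3
    rw [c3, c4, a3, a4, b3, b4] at r2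
    exact Or.inr ⟨by linarith [show p * p + t' * t' = s * s + 0 * 0 from h3],
      mul_left_cancel₀ hs (by linarith [show p * 0 - t' * s = s * t - 0 * p from r2])⟩
  · exact absurd (σ.injective (c3.trans c4.symm)) n6

/-- The triangle of the midpoint and the two other vertices is not flat. -/
lemma em2_pos (hd : ND d) (hc : Cov i j k l) (h1 : d j k = d i k) (h2 : d j l = d i l) :
    0 < 4 * d i k * d i l - (d i k + d i l - d k l) ^ 2 - d i j * d k l := by
  obtain ⟨n1, n2, n3, n4, n5, n6⟩ := hc.ne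
  have hs : ∀ f : Fin 4 → ℝ, ∑ m, f m = f i + f j + f k + f l := fun f => by
    have : (univ : Finset (Fin 4)) = {i, j, k, l} := by
      ext m
      simpa using hc m
    rw [this, sum_insert (by simp [n1, n2, n3]), sum_insert (by simp [n4, n5]),
      sum_pair n6]
    ring
  have key : ∀ s t : ℝ, (d i k - d i j / 4) * s ^ 2 + (d i k + d i l - d k l - d i j / 2) * s * t +
      (d i l - d i j / 4) * t ^ 2 = 0 → s = 0 ∧ t = 0 := fun s t h => by
    obtain ⟨α, a1, a2, a3, a4⟩ : ∃ α : Fin 4 → ℝ, α i = -(s + t) / 2 ∧ α j = -(s + t) / 2 ∧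
        α k = s ∧ α l = t :=
      ⟨fun m => if m = k then s else if m = l then t else -(s + t) / 2,
        (if_neg n2).trans (if_neg n3), (if_neg n4).trans (if_neg n5), if_pos rfl,
        (if_neg n6.symm).trans (if_pos rfl)⟩
    have h3 := hd.nd α (by rw [hs, a1, a2, a3, a4]; ring) (by
      simp only [hs, a1, a2, a3, a4, hd.dg, hd.sy j i, hd.sy k i, hd.sy l i, hd.sy k j,
        hd.sy l j, hd.sy l k, h1, h2]
      linear_combination (-2) * h)
    exact ⟨a3.symm.trans (congrFun h3 k), a4.symm.trans (congrFun h3 l)⟩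
  by_contra hn
  by_cases hA : d i k - d i j / 4 = 0
  · exact one_ne_zero (key 1 0 (by rw [hA]; ring)).1
  obtain ⟨s, h3⟩ := exists_quadratic_eq_zero (b := d i k + d i l - d k l - d i j / 2)
    (c := d i l - d i j / 4) hA ⟨_, (Real.mul_self_sqrt (by rw [discrim]; linarith)).symm⟩
  exact one_ne_zero (key s 1 (by linarith)).2

theorem big_swap {d : Tb} (hd : ND d) (v : Fin 4 → V) (hv : ∀ i j, d2 (v i) (v j) = d i j)
    {i j : Fin 4} (hij : i ≠ j) (h : Equiv.swap i j ∈ autS d) : Big d := by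
  obtain ⟨k, l, hc⟩ := em2_cov i j hij
  obtain ⟨n1, n2, n3, n4, n5, n6⟩ := hc.ne
  have h1 : d j k = d i k := by
    have := mem_autS.1 h i k
    rwa [Equiv.swap_apply_left, Equiv.swap_apply_of_ne_of_ne n2.symm n4.symm] at this
  have h2 : d j l = d i l := by
    have := mem_autS.1 h i l
    rwa [Equiv.swap_apply_left, Equiv.swap_apply_of_ne_of_ne n3.symm n5.symm] at this
  have h3 := em2_pos hd hc h1 h2
  have p1 := hd.ps i j n1
  have p2 := hd.ps k l n6
  obtain ⟨r, r1, r2⟩ : ∃ r, d i j / 4 < r ∧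
      0 < 4 * d i k * d i l - (d i k + d i l - d k l) ^ 2 - 4 * r * d k l := by
    obtain ⟨w, hw⟩ : ∃ w, w * d k l =
        4 * d i k * d i l - (d i k + d i l - d k l) ^ 2 - d i j * d k l :=
      ⟨_, div_mul_cancel₀ _ p2.ne'⟩
    have hw0 : 0 < w := (mul_pos_iff_of_pos_right p2).1 (hw ▸ h3)
    exact ⟨d i j / 4 + w / 8, by linarith, by linarith⟩
  have r3 : 0 < d i k - r := (mul_pos_iff_of_pos_right p2).1
    (by linarith [sq_nonneg (d i k - d i l + d k l)])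
  obtain ⟨y, hy0, hy⟩ : ∃ y : ℝ, y ≠ 0 ∧ y ^ 2 = d i j / 4 :=
    ⟨√_, (Real.sqrt_pos.2 (by linarith)).ne', Real.sq_sqrt (by linarith)⟩
  obtain ⟨x, hx0, hx⟩ : ∃ x : ℝ, x ≠ 0 ∧ x ^ 2 = r - d i j / 4 :=
    ⟨√_, (Real.sqrt_pos.2 (by linarith)).ne', Real.sq_sqrt (by linarith)⟩
  obtain ⟨s, hs0, hs⟩ : ∃ s : ℝ, s ≠ 0 ∧ s ^ 2 = d i k - r :=
    ⟨√_, (Real.sqrt_pos.2 r3).ne', Real.sq_sqrt r3.le⟩
  obtain ⟨p, hp⟩ : ∃ p : ℝ, p * (2 * s) = d i k + d i l - 2 * r - d k l :=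
    ⟨_, div_mul_cancel₀ _ (mul_ne_zero two_ne_zero hs0)⟩
  have r4 : 0 < d i l - r - p ^ 2 := by
    refine (mul_pos_iff_of_pos_right (show 0 < 4 * (d i k - r) by linarith)).1 ?_
    have : p ^ 2 * (4 * (d i k - r)) = (d i k + d i l - 2 * r - d k l) ^ 2 := by
      rw [← hp, ← hs]; ring
    linarith
  obtain ⟨t, ht0, ht⟩ : ∃ t : ℝ, t ≠ 0 ∧ t ^ 2 = d i l - r - p ^ 2 :=
    ⟨√_, (Real.sqrt_pos.2 r4).ne', Real.sq_sqrt r4.le⟩
  let τ : Bool → ℝ := fun b => if b then t else -t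
  have hτ : ∀ b, τ b ^ 2 = d i l - r - p ^ 2 := fun b => by
    cases b
    exacts [(neg_sq t).trans ht, ht]
  have hτ0 : ∀ b, τ b ≠ 0 := fun b => by
    cases b
    exacts [neg_ne_zero.2 ht0, ht0]
  choose ψ m0 m1 m2 m3 m4 using fun b => em2_mk hd hc h1 h2 (x := x) (y := y) (s := s) (p := p)
    (t := τ b) (r := r) (by linarith) (by linarith) hs (by linarith [hτ b]) (by linarith [hτ b])
  have hE : ∀ b, ∀ π ∈ autS d, Em d {r} {d i k - r, d i l - r} (ψ b ∘ π) := fun b π hπ =>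
    (m0 b).aut ⟨π.surjective, mem_autS.1 hπ⟩
  have hR := fun b b' (π π' : Equiv.Perm (Fin 4)) (e : EqL (ψ b ∘ π) (ψ b' ∘ π')) =>
    em2_rigid hc hx0 hy0 hs0 (hτ0 b) (m1 b) (m2 b) (m3 b) (m4 b) (m1 b') (m2 b') (m3 b') (m4 b') e
  have hW : 1 ≤ #({d i k - r, d i l - r} : Finset ℝ) := card_pos.2 (insert_nonempty _ _)
  by_cases hce : d i k = d i l
  · obtain ⟨R, f1, f2⟩ := em2_fam (autS d) (fun π => ψ true ∘ π) (hE true) fun π _ π' _ e =>
      ((hR _ _ _ _ e).resolve_right fun h => hτ0 true (by linarith [h.2])).1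
    refine ⟨_, _, R, f1, by simp, hW, ?_⟩
    rw [f2, hce, pair_eq_singleton, card_singleton, card_singleton]
    omega
  · obtain ⟨R, f1, f2⟩ := em2_fam (autS d ×ˢ (univ : Finset Bool)) (fun a => ψ a.2 ∘ a.1)
      (fun a ha => hE _ _ (mem_product.1 ha).1) fun a _ a' _ e => by
        obtain ⟨g1, g2⟩ := (hR _ _ _ _ e).resolve_right fun h => hce (by linarith [h.1, hτ a'.2])
        refine Prod.ext g1 ?_
        generalize a.2 = b, a'.2 = b' at g2
        cases b <;> cases b'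
        exacts [rfl, absurd (by linarith [show t = -t from g2]) ht0,
          absurd (by linarith [show -t = t from g2]) ht0, rfl]
    refine ⟨_, _, R, f1, by simp, hW, ?_⟩
    rw [f2, card_product, card_univ, Fintype.card_bool, card_singleton, one_mul]
    have := Nat.mul_le_mul_left (2 * #(autS d))
      (Finset.card_le_two : #({d i k - r, d i l - r} : Finset ℝ) ≤ 2)
    omega

end Pool.Agent.P.MP_f7c707_co.Sh
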