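import Pool.Agent.P.MP_f7c707_co.EvD

/-!
Almost invariant sets on the circle.
-/

namespace Pool.Agent.P.MP_f7c707_co.Sh

open Finset Complex Pool.Agent.P.MP_f7c707_co

lemma evo_one (A : Finset ℂ) (hA : ∀ u ∈ A, normSq u = 1) {ε : ℝ} (hε : 0 < ε) :
    ∃ B : Finset ℂ, B.Nonempty ∧ (∀ x ∈ B, normSq x = 1) ∧
      ∀ u ∈ A, (#{x ∈ B | x * u ∉ B} : ℝ) ≤ ε * #B := by
  classical
  let B : ℕ → Finset ℂ := fun k =>
    (Fintype.piFinset fun _ : A => range (k + 1)).image fun e => ∏ a : A, (a : ℂ) ^ e a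
  have h0 : ∀ k, (1 : ℂ) ∈ B k := fun k => mem_image.2 ⟨fun _ => 0, by simp, by simp⟩
  have h1 : ∀ k, B k ⊆ B (k + 1) := fun k => image_subset_image
    (Fintype.piFinset_subset _ _ fun _ => range_subset_range.2 (by omega))
  have h2 : ∀ k, ∀ u ∈ A, ∀ x ∈ B k, x * u ∈ B (k + 1) := by
    intro k u hu x hx
    obtain ⟨e, he, rfl⟩ := mem_image.1 hx
    refine mem_image.2 ⟨fun a => e a + if a = ⟨u, hu⟩ then 1 else 0, ?_, ?_⟩
    · rw [Fintype.mem_piFinset] at he ⊢
      intro a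
      have := mem_range.1 (he a)
      rw [mem_range]
      split_ifs <;> omega
    · simp only [pow_add, prod_mul_distrib, pow_ite, pow_one, pow_zero, prod_ite_eq', mem_univ,
        if_true]
  have h3 : ∀ k, #(B k) ≤ (k + 1) ^ #A := fun k => card_image_le.trans (by simp)
  have h4 : ∃ k, (#(B (k + 1)) : ℝ) ≤ (1 + ε) * #(B k) := by
    by_contra! h
    have h5 : ∀ k, (1 + ε) ^ k ≤ (#(B k) : ℝ) := fun k => by
      induction k with
      | zero => simpa using ⟨1, h0 0⟩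
      | succ k ih => rw [pow_succ']; exact le_trans (by gcongr) (h k).le
    have h6 := (tendsto_pow_const_div_const_pow_of_one_lt #A
      (show 1 < 1 + ε by linarith)).eventually (gt_mem_nhds (show 0 < 1 / (1 + ε) by positivity))
    obtain ⟨N, hN⟩ := Filter.eventually_atTop.1 h6
    have h7 := hN (N + 1) (by omega)
    have h8 : (#(B N) : ℝ) ≤ ((N + 1 : ℕ) : ℝ) ^ #A := by exact_mod_cast h3 N
    rw [div_lt_div_iff₀ (by positivity) (by positivity), one_mul, pow_succ] at h7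
    have := lt_of_mul_lt_mul_right h7 (by positivity)
    linarith [h5 N]
  obtain ⟨k, hk⟩ := h4
  refine ⟨B k, ⟨1, h0 k⟩, fun x hx => ?_, fun u hu => ?_⟩
  · obtain ⟨e, -, rfl⟩ := mem_image.1 hx
    rw [map_prod]
    exact prod_eq_one fun a _ => by rw [map_pow, hA a a.2, one_pow]
  · have hu0 : u ≠ 0 := fun e => by simpa [e] using hA u hu
    have h5 : #{x ∈ B k | x * u ∉ B k} ≤ #(B (k + 1) \ B k) :=
      card_le_card_of_injOn (· * u) (fun x hx => mem_coe.2 (mem_sdiff.2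
        ⟨h2 k u hu x (mem_filter.1 hx).1, (mem_filter.1 hx).2⟩))
        fun x _ y _ e => mul_right_cancel₀ hu0 e
    have h6 := card_sdiff_add_card_eq_card (h1 k)
    have h7 : (#{x ∈ B k | x * u ∉ B k} : ℝ) + #(B k) ≤ #(B (k + 1)) := by
      exact_mod_cast h6 ▸ Nat.add_le_add_right h5 _
    linarith

lemma evo_inf : {z : ℂ | normSq z = 1}.Infinite := by
  have h : Set.InjOn (fun t : ℝ => (⟨t, √(1 - t ^ 2)⟩ : ℂ)) (Set.Icc 0 1) :=
    fun a _ b _ e => congrArg Complex.re e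
  refine ((Set.Icc_infinite (zero_lt_one' ℝ)).image h).mono ?_
  rintro _ ⟨t, ht, rfl⟩
  have : 0 ≤ 1 - t ^ 2 := by nlinarith [ht.1, ht.2]
  simp only [Set.mem_ofPred_eq, normSq_mk, Real.mul_self_sqrt this]
  ring

theorem foln (A : Finset ℂ) (hA : ∀ u ∈ A, normSq u = 1) {ε : ℝ} (hε : 0 < ε) :
    ∃ q : ℕ, 0 < q ∧ ∀ J : ℕ, ∃ F : Finset ℂ, #F = q * J ∧ (∀ x ∈ F, normSq x = 1) ∧
      ∀ u ∈ A, (#{x ∈ F | x * u ∉ F} : ℝ) ≤ ε * #F := by
  classical
  obtain ⟨B, hB, hn, hb⟩ := evo_one A hA hε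
  refine ⟨#B, card_pos.2 hB, fun J => ?_⟩
  induction J with
  | zero => exact ⟨∅, by simp, by simp, by simp⟩
  | succ J ih =>
    obtain ⟨F, h1, h2, h3⟩ := ih
    obtain ⟨t, ht, ht'⟩ := evo_inf.exists_notMem_finset ((F ×ˢ B).image fun p => p.1 / p.2)
    have ht1 : normSq t = 1 := ht
    have t0 : t ≠ 0 := fun e => by simp [e] at ht1
    have hi : Function.Injective (t * ·) := mul_right_injective₀ t0
    have hd : Disjoint F (B.image (t * ·)) := disjoint_left.2 fun y hy hy' => by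
      obtain ⟨x, hx, rfl⟩ := mem_image.1 hy'
      have x0 : x ≠ 0 := fun e => by simpa [e] using hn x hx
      exact ht' (mem_image.2 ⟨(t * x, x), mem_product.2 ⟨hy, hx⟩, mul_div_cancel_right₀ t x0⟩)
    have hc : #(F ∪ B.image (t * ·)) = #F + #B := by
      rw [card_union_of_disjoint hd, card_image_of_injective _ hi]
    refine ⟨F ∪ B.image (t * ·), by rw [hc, h1]; ring, fun x hx => ?_, fun u hu => ?_⟩
    · rcases mem_union.1 hx with h | h
      · exact h2 x h
      · obtain ⟨y, hy, rfl⟩ := mem_image.1 h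
        rw [map_mul, ht1, hn y hy, one_mul]
    · have h4 : {x ∈ F ∪ B.image (t * ·) | x * u ∉ F ∪ B.image (t * ·)} ⊆
          {x ∈ F | x * u ∉ F} ∪ ({x ∈ B | x * u ∉ B}.image (t * ·)) := fun x hx => by
        obtain ⟨a1, a2⟩ := mem_filter.1 hx
        rw [mem_union, not_or] at a2
        rcases mem_union.1 a1 with h | h
        · exact mem_union_left _ (mem_filter.2 ⟨h, a2.1⟩)
        · obtain ⟨y, hy, rfl⟩ := mem_image.1 h
          exact mem_union_right _ (mem_image_of_mem _ (mem_filter.2 ⟨hy, fun h' =>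
            a2.2 (mem_image.2 ⟨_, h', (mul_assoc _ _ _).symm⟩)⟩))
      have h5 := (card_le_card h4).trans ((card_union_le _ _).trans
        (Nat.add_le_add_left card_image_le _))
      have h6 : (#{x ∈ F ∪ B.image (t * ·) | x * u ∉ F ∪ B.image (t * ·)} : ℝ) ≤
          #{x ∈ F | x * u ∉ F} + #{x ∈ B | x * u ∉ B} := by exact_mod_cast h5
      rw [hc]
      push_cast
      linarith [h3 u hu, hb u hu]

end Pool.Agent.P.MP_f7c707_co.Sh
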