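import Pool.Agent.P.MP_f7c707_co.EvV
import Pool.Agent.P.MP_f7c707_co.EvK
import Pool.Agent.P.MP_f7c707_co.EvL
import Pool.Agent.P.MP_f7c707_co.EvA
import Pool.Agent.P.MP_f7c707_co.EvM1
import Pool.Agent.P.MP_f7c707_co.EvM2
import Pool.Agent.P.MP_f7c707_co.EvG

/-!
The constant of a simplex.
-/

namespace Pool.Agent.P.MP_f7c707_co.Sh

open Finset Complex Pool.Agent.P.MP_f7c707_co

open Filter Topology

lemma ez_le (s P : Finset E4) : copies s P ≤ maxCopies s #P := by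
  refine le_csSup ⟨2 ^ #P, ?_⟩ ⟨P, rfl, rfl⟩
  rintro m ⟨Q, hQ, rfl⟩
  rw [← hQ, ← card_powerset, ← Set.ncard_coe_finset]
  exact Set.ncard_le_ncard (fun t ht => mem_coe.2 (mem_powerset.2 ht.1)) (finite_toSet _)

lemma ez_ai {s : Finset E4} (hs : IsSimplex3 s) {v : Fin 4 → E4} (hv : Function.Injective v)
    (hr : Set.range v = s) : AffineIndependent ℝ v := by
  have hm : ∀ i, v i ∈ s := fun i => by
    rw [← mem_coe, ← hr]
    exact ⟨i, rfl⟩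
  let e : Fin 4 ↪ {x // x ∈ s} := ⟨fun i => ⟨v i, hm i⟩, fun i j e => hv (congrArg Subtype.val e)⟩
  exact hs.2.comp_embedding e

lemma ez_simplex {v : Fin 4 → E4} (hv : AffineIndependent ℝ v) :
    ∃ s : Finset E4, IsSimplex3 s ∧ Set.range v = s := by
  classical
  have hr : Set.range v = (univ.image v : Finset E4) := by rw [coe_image, coe_univ, Set.image_univ]
  refine ⟨univ.image v, ⟨?_, ?_⟩, hr⟩
  · rw [card_image_of_injective _ hv.injective, card_univ, Fintype.card_fin]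
  · have h := hv.range
    rw [hr] at h
    exact h

lemma ez_upper {s : Finset E4} (hs : IsSimplex3 s) {v : Fin 4 → E4} (hv : Function.Injective v)
    (hr : Set.range v = s) (h1 : dist (v 0) (v 1) ≤ dist (v 0) (v 3))
    (h2 : dist (v 0) (v 2) ≤ dist (v 0) (v 3)) {κ : ℝ}
    (hK : KL (fun i j => dist (v i) (v j) ^ 2) κ) (h0 : 0 ≤ κ) (h9 : κ ≤ 960) {δ : ℝ}
    (hδ : 0 < δ) : ∃ N : ℕ, ∀ n : ℕ, N ≤ n → (maxCopies s n : ℝ) ≤
      (κ / 4 + δ) * (n : ℝ) ^ 2 / #(autS fun i j => dist (v i) (v j) ^ 2) := by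
  classical
  obtain ⟨N, hN⟩ := emb_lab hδ
  have hg : (0 : ℝ) < #(autS fun i j => dist (v i) (v j) ^ 2) := Nat.cast_pos.2 (autS_pos _)
  have ho : Function.Injective (WithLp.ofLp : E4 → V) := WithLp.ofLp_injective 2
  refine ⟨N, fun n hn => ?_⟩
  have h3 : maxCopies s n ≤
      ⌊(κ / 4 + δ) * (n : ℝ) ^ 2 / #(autS fun i j => dist (v i) (v j) ^ 2)⌋₊ := by
    apply csSup_le'
    rintro m ⟨P, rfl, rfl⟩
    refine Nat.le_floor ?_
    have hc : #(P.image (WithLp.ofLp : E4 → V)) = #P := card_image_of_injective _ ho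
    have h4 := hN (P.image WithLp.ofLp) _ κ (m_nd (ez_ai hs hv hr)) hK h0 h9
      (pow_le_pow_left₀ dist_nonneg h1 2) (pow_le_pow_left₀ dist_nonneg h2 2) (hc ▸ hn)
    rw [emb_copies hs hv hr P _ fun x => ho.mem_finset_image, hc, Nat.cast_mul] at h4
    rw [le_div_iff₀ hg, mul_comm]
    exact h4
  exact le_trans (by exact_mod_cast h3) (Nat.floor_le (by positivity))

lemma ez_lower {s : Finset E4} (hs : IsSimplex3 s) {v : Fin 4 → E4} (hv : Function.Injective v)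
    (hr : Set.range v = s) {U W : Finset ℝ} {R : Finset Lb}
    (h : Fm (fun i j => dist (v i) (v j) ^ 2) U W R) (hU : 1 ≤ #U) (hW : 1 ≤ #W) {ε : ℝ}
    (hε : 0 < ε) : ∃ N : ℕ, ∀ n : ℕ, N ≤ n → ((#R : ℝ) / (#U * #W) / 4 - ε) * (n : ℝ) ^ 2 /
      #(autS fun i j => dist (v i) (v j) ^ 2) ≤ maxCopies s n := by
  classical
  obtain ⟨N, hN⟩ := low_emb (m_nd (ez_ai hs hv hr)) h hU hW hε
  have hg : (0 : ℝ) < #(autS fun i j => dist (v i) (v j) ^ 2) := Nat.cast_pos.2 (autS_pos _)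
  have ho : Function.Injective (WithLp.toLp 2 : V → E4) := WithLp.toLp_injective 2
  refine ⟨N, fun n hn => ?_⟩
  obtain ⟨P, rfl, h4⟩ := hN n hn
  have h5 := ez_le s (P.image (WithLp.toLp 2))
  rw [card_image_of_injective _ ho] at h5
  rw [emb_copies hs hv hr (P.image (WithLp.toLp 2)) P
    fun x => (ho.mem_finset_image (a := x.ofLp)).symm, Nat.cast_mul] at h4
  rw [div_le_iff₀ hg, mul_comm (maxCopies s #P : ℝ)]
  exact h4.trans (mul_le_mul_of_nonneg_left (by exact_mod_cast h5) hg.le)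

lemma ez_tend {f : ℕ → ℝ} {k g : ℝ} (hg : 1 ≤ g)
    (h1 : ∀ δ : ℝ, 0 < δ → ∃ N : ℕ, ∀ n : ℕ, N ≤ n → f n ≤ (k + δ) * (n : ℝ) ^ 2 / g)
    (h2 : ∀ δ : ℝ, 0 < δ → ∃ N : ℕ, ∀ n : ℕ, N ≤ n → (k - δ) * (n : ℝ) ^ 2 / g ≤ f n) :
    Tendsto (fun n : ℕ => f n / (n : ℝ) ^ 2) atTop (𝓝 (k / g)) := by
  rw [Metric.tendsto_atTop]
  intro ε hε
  obtain ⟨N, hN⟩ := h1 (ε / 2) (half_pos hε)
  obtain ⟨N', hN'⟩ := h2 (ε / 2) (half_pos hε)
  refine ⟨N + N' + 1, fun n hn => ?_⟩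
  have hn0 : (0 : ℝ) < (n : ℝ) ^ 2 := pow_pos (Nat.cast_pos.2 (by omega)) 2
  have e1 := hN n (by omega)
  have e2 := hN' n (by omega)
  rw [mul_div_right_comm, ← div_le_iff₀ hn0, add_div] at e1
  rw [mul_div_right_comm, ← le_div_iff₀ hn0, sub_div] at e2
  have e3 : ε / 2 / g ≤ ε / 2 := div_le_self (half_pos hε).le hg
  rw [Real.dist_eq, abs_lt]
  constructor <;> linarith

lemma ez_box (N : ℕ) : ∃ B : Finset ℚ, ∀ a b r g : ℕ, a ≤ N → b ≤ N → r ≤ N → g ≤ N →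
    (r : ℚ) / (a * b) / 4 / g ∈ B :=
  ⟨(range (N + 1) ×ˢ range (N + 1) ×ˢ range (N + 1) ×ˢ range (N + 1)).image
    fun t => (t.2.2.1 : ℚ) / (t.1 * t.2.1) / 4 / t.2.2.2, fun a b r g ha hb hr hg =>
      mem_image.2 ⟨(a, b, r, g), mem_product.2 ⟨mem_range_succ_iff.2 ha, mem_product.2
        ⟨mem_range_succ_iff.2 hb, mem_product.2
          ⟨mem_range_succ_iff.2 hr, mem_range_succ_iff.2 hg⟩⟩⟩, rfl⟩⟩

lemma ez_big {v : Fin 4 → E4} (hv : AffineIndependent ℝ v) :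
    Big fun i j => dist (v i) (v j) ^ 2 := by
  by_cases h : ∀ i j : Fin 4, i ≠ j → Equiv.swap i j ∉ autS fun i j => dist (v i) (v j) ^ 2
  · exact big_free (m_nd hv) (fun i => (v i).ofLp) (fun i j => d2_eq _ _) h
  · push Not at h
    obtain ⟨i, j, hij, h⟩ := h
    exact big_swap (m_nd hv) (fun i => (v i).ofLp) (fun i j => d2_eq _ _) hij h

lemma ez_main : ∃ B : Finset ℚ, ∀ s : Finset E4, IsSimplex3 s → ∀ v : Fin 4 → E4,
    Function.Injective v → Set.range v = s → dist (v 0) (v 1) ≤ dist (v 0) (v 3) →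
    dist (v 0) (v 2) ≤ dist (v 0) (v 3) → ∃ c ∈ B, (1 / 6 : ℝ) ≤ c ∧
      (KL (fun i j => dist (v i) (v j) ^ 2) (2 / 3) → (c : ℝ) ≤ 1 / 6) ∧
      Tendsto (fun n : ℕ => (maxCopies s n : ℝ) / (n : ℝ) ^ 2) atTop (𝓝 (c : ℝ)) := by
  obtain ⟨B, hB⟩ := ez_box (960 * (2880 * 2880))
  refine ⟨B, fun s hs v hv hr h1 h2 => ?_⟩
  have ha := ez_ai hs hv hr
  obtain ⟨U, W, R, hF, u1, u2, w1, w2, hR, hK⟩ := kappa_ex (m_nd ha) (ez_big ha)
  obtain ⟨U', W', R', hF', u3, w3, hR'⟩ := ez_big ha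
  have g1 := autS_pos fun i j => dist (v i) (v j) ^ 2
  have g2 := autS_le fun i j => dist (v i) (v j) ^ 2
  have hab : (0 : ℝ) < #U * #W := mul_pos (Nat.cast_pos.2 u1) (Nat.cast_pos.2 w1)
  have hab' : (0 : ℝ) < #U' * #W' := mul_pos (Nat.cast_pos.2 u3) (Nat.cast_pos.2 w3)
  have h9 : (#R : ℝ) / (#U * #W) ≤ 960 := by
    rw [div_le_iff₀ hab]
    exact_mod_cast hR
  have up := fun (δ : ℝ) (hδ : 0 < δ) => ez_upper hs hv hr h1 h2 hK (by positivity) h9 hδ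
  have lo := fun (δ : ℝ) (hδ : 0 < δ) => ez_lower hs hv hr hF u1 w1 hδ
  have k1 := hK U' W' R' hF'
  have k2 := fun h : KL (fun i j => dist (v i) (v j) ^ 2) (2 / 3) => h U W R hF
  generalize #(autS fun i j => dist (v i) (v j) ^ 2) = g at g1 g2 hR' up lo
  have g3 : (1 : ℝ) ≤ g := by exact_mod_cast g1
  have hc : (((#R : ℚ) / (#U * #W) / 4 / g : ℚ) : ℝ) = (#R : ℝ) / (#U * #W) / 4 / g := by
    push_cast
    rfl
  refine ⟨_, hB #U #W #R g (by omega) (by omega)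
    (hR.trans (Nat.mul_le_mul_left _ (Nat.mul_le_mul u2 w2))) (by omega), ?_, fun h => ?_, ?_⟩
  · rw [hc, le_div_iff₀ (by linarith)]
    have k3 : (2 : ℝ) * g * (#U' * #W') ≤ 3 * #R' := by exact_mod_cast hR'
    generalize (#R : ℝ) / (#U * #W) = κ at k1 ⊢
    have k4 : 2 * g ≤ 3 * κ := le_of_mul_le_mul_right (by linarith) hab'
    linarith
  · rw [hc, div_le_iff₀ (by linarith)]
    have k3 : (#R : ℝ) / (#U * #W) ≤ 2 / 3 := by
      rw [div_le_iff₀ hab, ← mul_assoc]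
      exact k2 h
    linarith
  · rw [hc]
    exact ez_tend g3 up lo

theorem every : ∃ S : Finset ℚ, IsLeast (S : Set ℚ) (1 / 6) ∧
    (∀ s : Finset E4, IsSimplex3 s → ∃ c ∈ S,
      Tendsto (fun n : ℕ => (maxCopies s n : ℝ) / (n : ℝ) ^ 2) atTop (𝓝 (c : ℝ))) ∧
    ∀ c ∈ S, ∃ s : Finset E4, IsSimplex3 s ∧
      Tendsto (fun n : ℕ => (maxCopies s n : ℝ) / (n : ℝ) ^ 2) atTop (𝓝 (c : ℝ)) := by
  classical
  obtain ⟨B, hB⟩ := ez_main
  have e6 : ((1 / 6 : ℚ) : ℝ) = 1 / 6 := by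
    push_cast
    rfl
  refine ⟨{c ∈ B | ∃ s : Finset E4, IsSimplex3 s ∧
    Tendsto (fun n : ℕ => (maxCopies s n : ℝ) / (n : ℝ) ^ 2) atTop (𝓝 (c : ℝ))}, ⟨?_, ?_⟩,
    fun s hs => ?_, fun c hc => (mem_filter.1 hc).2⟩
  · obtain ⟨v, hv, h1, h2, hK⟩ := generic_ex
    obtain ⟨s, hs, hr⟩ := ez_simplex hv
    obtain ⟨c, hc, c1, c2, ht⟩ := hB s hs v hv.injective hr h1 h2
    have e : c = 1 / 6 := Rat.cast_injective (α := ℝ) ((le_antisymm (c2 hK) c1).trans e6.symm)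
    rw [← e]
    exact mem_coe.2 (mem_filter.2 ⟨hc, s, hs, ht⟩)
  · intro c hc
    obtain ⟨s, hs, ht⟩ := (mem_filter.1 (mem_coe.1 hc)).2
    obtain ⟨v, hv, hr, h1, h2⟩ := m_label hs
    obtain ⟨c', -, c1, -, ht'⟩ := hB s hs v hv hr h1 h2
    rw [← tendsto_nhds_unique ht ht', ← e6] at c1
    exact Rat.cast_le.1 c1
  · obtain ⟨v, hv, hr, h1, h2⟩ := m_label hs
    obtain ⟨c, hc, -, -, ht⟩ := hB s hs v hv hr h1 h2
    exact ⟨c, mem_filter.2 ⟨hc, s, hs, ht⟩, ht⟩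

end Pool.Agent.P.MP_f7c707_co.Sh
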