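import Pool.Agent.P.MP_f7c707_co.ExD

/-!
Copies with three or four outside vertices.
-/

namespace Pool.Agent.P.MP_f7c707_co.Sh

open Finset Complex Pool.Agent.P.MP_f7c707_co

lemma out_three : ∃ C : ℝ, 1 ≤ C ∧ ∀ (P : Finset V) (d : Tb) (κ : V → CC), ND d → IsChart κ →
    ∀ i j k l : Fin 4, Cov i j k l → ∀ S : Finset (Fin 4 → V),
      (∀ φ ∈ S, φ ∈ Emb P d ∧ φ i ∈ e1W P κ ∧ φ j ∈ e1W P κ ∧ φ k ∈ e1W P κ ∧
        (κ (φ l)).2 = 0 ∧ (κ (φ i)).1 ≠ (κ (φ j)).1) →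
      (#S : ℝ) ≤ C * (#(e1W P κ) : ℝ) ^ 2 := by
  classical
  obtain ⟨C, hC, h⟩ := tri_le
  refine ⟨2 * C, by linarith, fun P d κ hd hκ i j k l hc S hS => ?_⟩
  obtain ⟨n1, n2, -, n4, -, -⟩ := hc.ne
  have h1 := h (e1W P κ) (d i j) (d i k) (d j k) (hd.ps _ _ n1).ne' (hd.ps _ _ n2).ne'
    (hd.ps _ _ n4).ne'
  have h2 : #S ≤ 2 * #(tri (e1W P κ) (d i j) (d i k) (d j k)) := by
    refine card_le_mul_card_image_of_maps_to (f := fun φ => (φ i, φ j, φ k)) (fun φ hφ => ?_) 2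
      fun t _ => ?_
    · obtain ⟨a1, a2, a3, a4, -⟩ := hS φ hφ
      have a5 := (mem_Emb.1 a1).2
      exact mem_tri.2 ⟨⟨a2, a3, a4⟩, a5 _ _, a5 _ _, a5 _ _⟩
    · rcases ({φ ∈ S | (φ i, φ j, φ k) = t}).eq_empty_or_nonempty with h0 | ⟨ψ, hψ⟩
      · rw [h0]
        exact Nat.zero_le _
      obtain ⟨b1, b2⟩ := mem_filter.1 hψ
      have b3 : ∀ φ ∈ ({φ ∈ S | (φ i, φ j, φ k) = t} : Finset (Fin 4 → V)),
          φ i = ψ i ∧ φ j = ψ j ∧ φ k = ψ k := fun φ hφ => by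
        have e := (mem_filter.1 hφ).2.trans b2.symm
        simpa only [Prod.mk.injEq] using e
      rw [← card_image_of_injOn (f := fun φ => φ l) fun φ hφ φ' hφ' e => ?_]
      · refine fibA hκ (hS ψ b1).2.2.2.2.2 (d l i) (d l j) _ fun p hp => ?_
        obtain ⟨φ, hφ, rfl⟩ := mem_image.1 hp
        obtain ⟨c1, c2, -⟩ := b3 φ hφ
        obtain ⟨a1, -, -, -, a2, -⟩ := hS φ (mem_filter.1 hφ).1
        have a5 := (mem_Emb.1 a1).2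
        exact ⟨a2, c1 ▸ a5 _ _, c2 ▸ a5 _ _⟩
      · obtain ⟨c1, c2, c3⟩ := b3 φ (mem_coe.1 hφ)
        obtain ⟨c4, c5, c6⟩ := b3 φ' (mem_coe.1 hφ')
        funext m
        rcases hc m with rfl | rfl | rfl | rfl
        exacts [c1.trans c4.symm, c2.trans c5.symm, c3.trans c6.symm, e]
  have h3 : (#S : ℝ) ≤ 2 * #(tri (e1W P κ) (d i j) (d i k) (d j k)) := by exact_mod_cast h2
  linarith

lemma out_four : ∃ C : ℝ, 1 ≤ C ∧ ∀ (P : Finset V) (d : Tb), ND d → d 0 1 ≤ d 0 3 →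
    d 0 2 ≤ d 0 3 → (#(Emb P d) : ℝ) ≤ C * (#P : ℝ) ^ 2 := by
  obtain ⟨C, hC, h⟩ := tet_le
  refine ⟨C, hC, fun P d hd e1 e2 => ?_⟩
  have z : ∀ i j : Fin 4, i ≠ j → d i j ≠ 0 := fun i j h => (hd.ps i j h).ne'
  have h1 := h P (d 0 1) (d 0 2) (d 0 3) (d 1 2) (d 1 3) (d 2 3)
    (z _ _ (by decide)) (z _ _ (by decide)) (z _ _ (by decide)) (z _ _ (by decide))
    (z _ _ (by decide)) (z _ _ (by decide))
    (by linarith [hd.ps 1 3 (by decide)]) (by linarith [hd.ps 2 3 (by decide)])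
    (fun a b c h1 h2 h3 => hd.ind2 (i := 0) (j := 1) (k := 3) (by decide) (by decide) (by decide)
      (h1.trans (hd.sy _ _)) h2 h3)
    (fun a b c h1 h2 h3 => hd.ind2 (i := 0) (j := 2) (k := 3) (by decide) (by decide) (by decide)
      (h1.trans (hd.sy _ _)) h2 h3)
  have h2 : #(Emb P d) ≤ #(tet P (d 0 1) (d 0 2) (d 0 3) (d 1 2) (d 1 3) (d 2 3)) := by
    apply card_le_card_of_injOn fun φ => (φ 0, φ 1, φ 2, φ 3)
    · intro φ hφ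
      obtain ⟨a3, a4⟩ := mem_Emb.1 (mem_coe.1 hφ)
      exact mem_coe.2 (mem_tet.2 ⟨⟨a3 _, a3 _, a3 _, a3 _⟩, a4 _ _, a4 _ _, a4 _ _,
        a4 _ _, a4 _ _, a4 _ _⟩)
    · intro φ _ φ' _ e
      simp only [Prod.mk.injEq] at e
      funext i
      fin_cases i
      exacts [e.1, e.2.1, e.2.2.1, e.2.2.2]
  exact (Nat.cast_le.2 h2).trans h1

end Pool.Agent.P.MP_f7c707_co.Sh
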