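import Pool.Agent.P.MP_f7c707_co.ExO1
import Pool.Agent.P.MP_f7c707_co.ExO2

/-!
Copies with an outside vertex.
-/

namespace Pool.Agent.P.MP_f7c707_co.Sh

open Finset Complex Pool.Agent.P.MP_f7c707_co

/-- Both coordinates are nonzero. -/
def xo3_out (p : CC) : Prop := p.1 ≠ 0 ∧ p.2 ≠ 0

/-- The first type. -/
def xo3_T1 (a : Lb) (i j k l : Fin 4) : Prop :=
  xo3_out (a i) ∧ (a j).2 = 0 ∧ ∀ m, m = k ∨ m = l →
    ((a m).2 = 0 ∧ (a j).1 ≠ (a i).1) ∨ (a m).1 = 0 ∨ (a m).1 = (a i).1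

/-- The second type. -/
def xo3_T2 (a : Lb) (i j k l : Fin 4) : Prop :=
  xo3_out (a i) ∧ xo3_out (a j) ∧ ∀ m, m = k ∨ m = l →
    ((a m).2 = 0 ∧ (a i).1 ≠ (a j).1) ∨ ((a m).1 = 0 ∧ (a i).2 ≠ (a j).2)

/-- The third type. -/
def xo3_T3 (a : Lb) (i j k l : Fin 4) : Prop :=
  xo3_out (a i) ∧ xo3_out (a j) ∧ xo3_out (a k) ∧ (a l).2 = 0 ∧ (a i).1 ≠ (a j).1

/-- One of the types or a mirror type, at given indices. -/
def xo3_G (a : Lb) (i j k l : Fin 4) : Prop :=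
  Cov i j k l ∧ (xo3_T1 a i j k l ∨ xo3_T1 (fun m => (a m).swap) i j k l ∨ xo3_T2 a i j k l ∨
    xo3_T3 a i j k l ∨ xo3_T3 (fun m => (a m).swap) i j k l)

/-- One of the types or a mirror type. -/
def xo3_Hit (a : Lb) : Prop := ∃ i j k l, xo3_G a i j k l

variable {a : Lb} {i j k l : Fin 4}

lemma xo3_swap (h : xo3_Hit fun m => (a m).swap) : xo3_Hit a := by
  obtain ⟨i, j, k, l, c, h⟩ := h
  refine ⟨i, j, k, l, c, ?_⟩
  rcases h with h | h | h | h | h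
  · exact Or.inr (Or.inl h)
  · exact Or.inl h
  · exact Or.inr (Or.inr (Or.inl ⟨h.1.symm, h.2.1.symm, fun m hm => (h.2.2 m hm).symm⟩))
  · exact Or.inr (Or.inr (Or.inr (Or.inr h)))
  · exact Or.inr (Or.inr (Or.inr (Or.inl h)))

lemma xo3_c23 (c : Cov i j k l) : Cov i k j l := fun m => by have := c m; tauto

lemma xo3_c34 (c : Cov i j k l) : Cov i j l k := fun m => by have := c m; tauto

lemma xo3_inj (h : Function.Injective a) : Function.Injective fun m => (a m).swap :=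
  Prod.swap_injective.comp h

lemma xo3_ins {p : CC} (h : ¬ xo3_out p) : p.1 = 0 ∨ p.2 = 0 := by
  by_contra h1
  exact h (not_or.1 h1)

lemma xo3_A (ha : Function.Injective a) (c : Cov i j k l) (hi : xo3_out (a i))
    (hj : (a j).2 = 0) (hk : (a k).2 = 0)
    (hl : (a l).2 = 0 ∨ (a l).1 = 0 ∨ (a l).1 = (a i).1) : xo3_Hit a := by
  have hjk : j ≠ k := c.ne.2.2.2.1
  by_cases h : (a j).1 = (a i).1
  · have h' : (a k).1 ≠ (a i).1 := fun e =>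
      hjk (ha (Prod.ext (h.trans e.symm) (hj.trans hk.symm)))
    refine ⟨i, k, j, l, xo3_c23 c, Or.inl ⟨hi, hk, ?_⟩⟩
    rintro m (rfl | rfl)
    exacts [Or.inl ⟨hj, h'⟩, hl.imp_left fun e => ⟨e, h'⟩]
  · refine ⟨i, j, k, l, c, Or.inl ⟨hi, hj, ?_⟩⟩
    rintro m (rfl | rfl)
    exacts [Or.inl ⟨hk, h⟩, hl.imp_left fun e => ⟨e, h⟩]

lemma xo3_one (ha : Function.Injective a) (c : Cov i j k l) (hi : xo3_out (a i))
    (hj : ¬ xo3_out (a j)) (hk : ¬ xo3_out (a k)) (hl : ¬ xo3_out (a l)) : xo3_Hit a := by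
  have hs := xo3_inj ha
  rcases xo3_ins hj with h1 | h1 <;> rcases xo3_ins hk with h2 | h2 <;>
    rcases xo3_ins hl with h3 | h3
  · exact xo3_swap (xo3_A hs c hi.symm h1 h2 (Or.inl h3))
  · exact xo3_swap (xo3_A hs c hi.symm h1 h2 (Or.inr (Or.inl h3)))
  · exact xo3_swap (xo3_A hs (xo3_c34 c) hi.symm h1 h3 (Or.inr (Or.inl h2)))
  · exact xo3_A ha (xo3_c34 (xo3_c23 c)) hi h2 h3 (Or.inr (Or.inl h1))
  · exact xo3_swap (xo3_A hs (xo3_c34 (xo3_c23 c)) hi.symm h2 h3 (Or.inr (Or.inl h1)))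
  · exact xo3_A ha (xo3_c34 c) hi h1 h3 (Or.inr (Or.inl h2))
  · exact xo3_A ha c hi h1 h2 (Or.inr (Or.inl h3))
  · exact xo3_A ha c hi h1 h2 (Or.inl h3)

lemma xo3_B (ha : Function.Injective a) (c : Cov i j k l) (hi : xo3_out (a i))
    (hj : (a i).1 = (a j).1) (hk : (a k).2 = 0) (hl : (a l).1 = 0 ∨ (a l).2 = 0) :
    xo3_Hit a := by
  rcases hl with hl | hl
  · refine ⟨i, k, j, l, xo3_c23 c, Or.inl ⟨hi, hk, ?_⟩⟩
    rintro m (rfl | rfl)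
    exacts [Or.inr (Or.inr hj.symm), Or.inr (Or.inl hl)]
  · exact xo3_A ha (xo3_c34 (xo3_c23 c)) hi hk hl (Or.inr (Or.inr hj.symm))

lemma xo3_C (ha : Function.Injective a) (c : Cov i j k l) (hi : xo3_out (a i))
    (hk : ¬ xo3_out (a k)) (hl : ¬ xo3_out (a l))
    (h : ¬ (((a k).2 = 0 ∧ (a i).1 ≠ (a j).1) ∨ ((a k).1 = 0 ∧ (a i).2 ≠ (a j).2))) :
    xo3_Hit a := by
  obtain ⟨h1, h2⟩ := not_or.1 h
  rcases xo3_ins hk with h3 | h3
  · exact xo3_swap (xo3_B (xo3_inj ha) c hi.symm (by_contra fun e => h2 ⟨h3, e⟩) h3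
      (xo3_ins hl).symm)
  · exact xo3_B ha c hi (by_contra fun e => h1 ⟨h3, e⟩) h3 (xo3_ins hl)

lemma xo3_two (ha : Function.Injective a) (c : Cov i j k l) (hi : xo3_out (a i))
    (hj : xo3_out (a j)) (hk : ¬ xo3_out (a k)) (hl : ¬ xo3_out (a l)) : xo3_Hit a := by
  by_cases h1 : ((a k).2 = 0 ∧ (a i).1 ≠ (a j).1) ∨ ((a k).1 = 0 ∧ (a i).2 ≠ (a j).2)
  swap
  · exact xo3_C ha c hi hk hl h1
  by_cases h2 : ((a l).2 = 0 ∧ (a i).1 ≠ (a j).1) ∨ ((a l).1 = 0 ∧ (a i).2 ≠ (a j).2)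
  swap
  · exact xo3_C ha (xo3_c34 c) hi hl hk h2
  refine ⟨i, j, k, l, c, Or.inr (Or.inr (Or.inl ⟨hi, hj, ?_⟩))⟩
  rintro m (rfl | rfl)
  exacts [h1, h2]

lemma xo3_D (c : Cov i j k l) (hi : xo3_out (a i)) (hj : xo3_out (a j)) (hk : xo3_out (a k))
    (hl : (a l).2 = 0) : xo3_Hit a := by
  by_cases h1 : (a i).1 = (a j).1
  swap
  · exact ⟨i, j, k, l, c, Or.inr (Or.inr (Or.inr (Or.inl ⟨hi, hj, hk, hl, h1⟩)))⟩
  by_cases h2 : (a i).1 = (a k).1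
  swap
  · exact ⟨i, k, j, l, xo3_c23 c, Or.inr (Or.inr (Or.inr (Or.inl ⟨hi, hk, hj, hl, h2⟩)))⟩
  refine ⟨i, l, j, k, xo3_c23 (xo3_c34 c), Or.inl ⟨hi, hl, ?_⟩⟩
  rintro m (rfl | rfl)
  exacts [Or.inr (Or.inr h1.symm), Or.inr (Or.inr h2.symm)]

lemma xo3_three (c : Cov i j k l) (hi : xo3_out (a i)) (hj : xo3_out (a j))
    (hk : xo3_out (a k)) (hl : ¬ xo3_out (a l)) : xo3_Hit a := by
  rcases xo3_ins hl with h | h
  · exact xo3_swap (xo3_D c hi.symm hj.symm hk.symm h)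
  · exact xo3_D c hi hj hk h

lemma xo3_idx : ∀ i : Fin 4, ∃ j k l, Cov i j k l := by decide

lemma xo3_cover (ha : Function.Injective a) (hi : xo3_out (a i)) :
    (∀ m, xo3_out (a m)) ∨ xo3_Hit a := by
  obtain ⟨j, k, l, c⟩ := xo3_idx i
  by_cases hj : xo3_out (a j) <;> by_cases hk : xo3_out (a k) <;> by_cases hl : xo3_out (a l)
  · refine Or.inl fun m => ?_
    rcases c m with rfl | rfl | rfl | rfl <;> assumption
  · exact Or.inr (xo3_three c hi hj hk hl)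
  · exact Or.inr (xo3_three (xo3_c34 c) hi hj hl hk)
  · exact Or.inr (xo3_two ha c hi hj hk hl)
  · exact Or.inr (xo3_three (xo3_c34 (xo3_c23 c)) hi hk hl hj)
  · exact Or.inr (xo3_two ha (xo3_c23 c) hi hk hj hl)
  · exact Or.inr (xo3_two ha (xo3_c23 (xo3_c34 c)) hi hl hj hk)
  · exact Or.inr (xo3_one ha c hi hj hk hl)

lemma xo3_five {α : Type*} (S : Finset α) (p q r s t : α → Prop) {b1 b2 b3 b4 b5 : ℝ}
    (h : ∀ x ∈ S, p x ∨ q x ∨ r x ∨ s x ∨ t x)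
    (h1 : ∀ T : Finset α, (∀ x ∈ T, x ∈ S ∧ p x) → (#T : ℝ) ≤ b1)
    (h2 : ∀ T : Finset α, (∀ x ∈ T, x ∈ S ∧ q x) → (#T : ℝ) ≤ b2)
    (h3 : ∀ T : Finset α, (∀ x ∈ T, x ∈ S ∧ r x) → (#T : ℝ) ≤ b3)
    (h4 : ∀ T : Finset α, (∀ x ∈ T, x ∈ S ∧ s x) → (#T : ℝ) ≤ b4)
    (h5 : ∀ T : Finset α, (∀ x ∈ T, x ∈ S ∧ t x) → (#T : ℝ) ≤ b5) :
    (#S : ℝ) ≤ b1 + b2 + b3 + b4 + b5 := by
  classical
  have e : S ⊆ S.filter p ∪ S.filter q ∪ S.filter r ∪ S.filter s ∪ S.filter t := fun x hx => by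
    have := h x hx
    simp only [mem_union, mem_filter]
    tauto
  have e1 := (card_le_card e).trans ((card_union_le _ _).trans (add_le_add_left
    ((card_union_le _ _).trans (add_le_add_left ((card_union_le _ _).trans
      (add_le_add_left (card_union_le _ _) _)) _)) _))
  have e2 : (#S : ℝ) ≤ _ := Nat.cast_le.2 e1
  push_cast at e2
  have a1 := h1 (S.filter p) fun x hx => mem_filter.1 hx
  have a2 := h2 (S.filter q) fun x hx => mem_filter.1 hx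
  have a3 := h3 (S.filter r) fun x hx => mem_filter.1 hx
  have a4 := h4 (S.filter s) fun x hx => mem_filter.1 hx
  have a5 := h5 (S.filter t) fun x hx => mem_filter.1 hx
  linarith

theorem out_le : ∃ C : ℝ, 1 ≤ C ∧ ∀ (P : Finset V) (d : Tb) (κ : V → CC) (D : ℕ), ND d →
    d 0 1 ≤ d 0 3 → d 0 2 ≤ d 0 3 → IsChart κ → Deg P κ D → ∀ S : Finset (Fin 4 → V),
      (∀ φ ∈ S, φ ∈ Emb P d ∧ ∃ m, φ m ∈ e1W P κ) →
      (#S : ℝ) ≤ C * #(e1W P κ) * (D + #(e1W P κ)) := by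
  classical
  obtain ⟨C3, c3, h3⟩ := out_three
  obtain ⟨C4, c4, h4⟩ := out_four
  refine ⟨256 * (72 + 2 * C3) + C4, by linarith, fun P d κ D hd d1 d2' hκ hD S hS => ?_⟩
  have mem : ∀ φ ∈ S, ∀ m, xo3_out (κ (φ m)) → φ m ∈ e1W P κ := fun φ hφ m h =>
    mem_e1W.2 ⟨(mem_Emb.1 (hS φ hφ).1).1 m, h⟩
  have mem' : ∀ φ ∈ S, ∀ m, xo3_out (κ (φ m)).swap → φ m ∈ e1W P fun p => (κ p).swap :=
    fun φ hφ m h => mem_e1W.2 ⟨(mem_Emb.1 (hS φ hφ).1).1 m, h⟩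
  have hJ : (0 : ℝ) ≤ #(e1W P κ) := Nat.cast_nonneg _
  have hD0 : (0 : ℝ) ≤ D := Nat.cast_nonneg _
  let R : Fin 4 × Fin 4 × Fin 4 × Fin 4 → Finset (Fin 4 → V) := fun t =>
    {φ ∈ S | xo3_G (fun m => κ (φ m)) t.1 t.2.1 t.2.2.1 t.2.2.2}
  have hsub : S ⊆ Emb (e1W P κ) d ∪ univ.biUnion R := fun φ hφ => by
    obtain ⟨a1, m, a2⟩ := hS φ hφ
    have a3 := (mem_Emb.1 a1).2
    have inj : Function.Injective fun m => κ (φ m) := fun x y e => by_contra fun h => by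
      have := hd.ps x y h
      rw [← a3, hκ.inj e, d2_self] at this
      exact lt_irrefl _ this
    rcases xo3_cover inj (i := m) (mem_e1W.1 a2).2 with h | ⟨i, j, k, l, h⟩
    · exact mem_union_left _ (mem_Emb.2 ⟨fun m => mem φ hφ m (h m), a3⟩)
    · exact mem_union_right _ (mem_biUnion.2 ⟨(i, j, k, l), mem_univ _, mem_filter.2 ⟨hφ, h⟩⟩)
  have hR : ∀ t, (#(R t) : ℝ) ≤ (72 + 2 * C3) * #(e1W P κ) * (D + #(e1W P κ)) := by
    rintro ⟨i, j, k, l⟩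
    rcases (R (i, j, k, l)).eq_empty_or_nonempty with e | ⟨φ₀, h0⟩
    · rw [e, card_empty, Nat.cast_zero]
      have : 0 ≤ C3 := by linarith
      positivity
    have c : Cov i j k l := (mem_filter.1 h0).2.1
    have sS : ∀ φ ∈ R (i, j, k, l), φ ∈ S := fun φ h => (mem_filter.1 h).1
    have key := xo3_five (R (i, j, k, l)) _ _ _ _ _
      (b1 := 36 * (#(e1W P κ) * D)) (b2 := 36 * (#(e1W P κ) * D)) (b3 := 16 * #(e1W P κ) ^ 2)
      (b4 := C3 * #(e1W P κ) ^ 2) (b5 := C3 * #(e1W P κ) ^ 2)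
      (fun φ hφ => (mem_filter.1 hφ).2.2)
      (fun T hT => by
        exact_mod_cast out_one (d := d) hκ hD c T fun φ hφ =>
          ⟨(hS φ (sS φ (hT φ hφ).1)).1, mem φ (sS φ (hT φ hφ).1) _ (hT φ hφ).2.1,
            (hT φ hφ).2.2⟩)
      (fun T hT => by
        have := out_one (d := d) hκ.swap hD.swap c T fun φ hφ =>
          ⟨(hS φ (sS φ (hT φ hφ).1)).1, mem' φ (sS φ (hT φ hφ).1) _ (hT φ hφ).2.1,
            (hT φ hφ).2.2⟩
        rw [e1W_swap] at this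
        exact_mod_cast this)
      (fun T hT => by
        exact_mod_cast out_two (d := d) hκ c T fun φ hφ =>
          ⟨(hS φ (sS φ (hT φ hφ).1)).1, mem φ (sS φ (hT φ hφ).1) _ (hT φ hφ).2.1,
            mem φ (sS φ (hT φ hφ).1) _ (hT φ hφ).2.2.1, (hT φ hφ).2.2.2⟩)
      (fun T hT => h3 P d κ hd hκ i j k l c T fun φ hφ =>
        ⟨(hS φ (sS φ (hT φ hφ).1)).1, mem φ (sS φ (hT φ hφ).1) _ (hT φ hφ).2.1,
          mem φ (sS φ (hT φ hφ).1) _ (hT φ hφ).2.2.1,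
          mem φ (sS φ (hT φ hφ).1) _ (hT φ hφ).2.2.2.1, (hT φ hφ).2.2.2.2⟩)
      (fun T hT => by
        have := h3 P d _ hd hκ.swap i j k l c T fun φ hφ =>
          ⟨(hS φ (sS φ (hT φ hφ).1)).1, mem' φ (sS φ (hT φ hφ).1) _ (hT φ hφ).2.1,
            mem' φ (sS φ (hT φ hφ).1) _ (hT φ hφ).2.2.1,
            mem' φ (sS φ (hT φ hφ).1) _ (hT φ hφ).2.2.2.1, (hT φ hφ).2.2.2.2⟩
        rwa [e1W_swap] at this)
    have p1 := mul_nonneg (mul_nonneg (by linarith : 0 ≤ C3) hJ) hD0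
    have p2 := mul_nonneg hJ hJ
    nlinarith
  have m1 : (#S : ℝ) ≤ #(Emb (e1W P κ) d) + ∑ t, (#(R t) : ℝ) := by
    exact_mod_cast (card_le_card hsub).trans ((card_union_le _ _).trans
      (add_le_add_right card_biUnion_le _))
  have m2 := sum_le_card_nsmul univ _ _ fun t _ => hR t
  rw [nsmul_eq_mul, card_univ] at m2
  simp only [Fintype.card_prod, Fintype.card_fin] at m2
  push_cast at m2
  have m3 := h4 (e1W P κ) d hd d1 d2'
  have p1 := mul_nonneg (mul_nonneg (by linarith : 0 ≤ C4) hJ) hD0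
  nlinarith

end Pool.Agent.P.MP_f7c707_co.Sh
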