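import Pool.Agent.P.MP_f7c707_co.ExD

/-!
Rich circles: degrees of outside points.
-/

namespace Pool.Agent.P.MP_f7c707_co.Sh

open Finset Complex Pool.Agent.P.MP_f7c707_co

variable {P : Finset V} {κ : V → CC} {M : ℕ}

lemma xr1_half (hκ : IsChart κ) (hM : 0 < M) {z : V} (hz : (κ z).1 ≠ 0) (ρ : ℝ) (T : Finset V)
    (hT : ∀ x ∈ T, x ∈ P ∧ (κ x).2 = 0 ∧ M < #(sec P κ (normSq (κ x).1)) ∧ d2 z x = ρ) :
    #T ≤ 2 * (#P / M) := by
  classical
  have h1 : #T ≤ 2 * #(T.image fun x => normSq (κ x).1) := by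
    refine card_le_mul_card_image _ _ fun r _ => le_trans (card_le_card fun x hx => ?_)
      (e1_nb (P := P) hκ hz r ρ)
    obtain ⟨a1, a2⟩ := mem_filter.1 hx
    obtain ⟨b1, b2, -, b4⟩ := hT x a1
    exact mem_nb.2 ⟨mem_sec.2 ⟨b1, b2, a2⟩, (d2_comm _ _).trans b4⟩
  have h2 : #(T.image fun x => normSq (κ x).1) * M ≤ #P := by
    have h3 : ((T.image fun x => normSq (κ x).1 : Finset ℝ) : Set ℝ).PairwiseDisjoint
        (sec P κ) := fun r _ s _ hrs => disjoint_left.2 fun x h h' =>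
      hrs ((mem_sec.1 h).2.2.symm.trans (mem_sec.1 h').2.2)
    calc _ = ∑ _r ∈ T.image fun x => normSq (κ x).1, M := by rw [sum_const, smul_eq_mul]
      _ ≤ ∑ r ∈ T.image fun x => normSq (κ x).1, #(sec P κ r) := by
          refine sum_le_sum fun r hr => ?_
          obtain ⟨x, hx, rfl⟩ := mem_image.1 hr
          exact (hT x hx).2.2.1.le
      _ = _ := (card_biUnion h3).symm
      _ ≤ #P := card_le_card fun x hx => by
          obtain ⟨r, -, h⟩ := mem_biUnion.1 hx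
          exact (mem_sec.1 h).1
  exact h1.trans (Nat.mul_le_mul_left 2 ((Nat.le_div_iff_mul_le hM).2 h2))

lemma rich_deg (hκ : IsChart κ) (hM : 0 < M) :
    Deg P κ (4 * (#P / M) + (#P - #(Gr P κ M))) := by
  classical
  intro z h1 h2 ρ T hT
  have a1 := xr1_half (P := P) hκ hM h1 ρ
    {x ∈ T | (κ x).2 = 0 ∧ M < #(sec P κ (normSq (κ x).1))} fun x hx => by
      obtain ⟨b1, b2, b3⟩ := mem_filter.1 hx
      exact ⟨(hT x b1).1, b2, b3, (hT x b1).2.2⟩
  have a2 := xr1_half (P := P) hκ.swap hM h2 ρ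
    {x ∈ T | (κ x).1 = 0 ∧ M < #(sec P (fun q => (κ q).swap) (normSq (κ x).2))} fun x hx => by
      obtain ⟨b1, b2, b3⟩ := mem_filter.1 hx
      exact ⟨(hT x b1).1, b2, b3, (hT x b1).2.2⟩
  have a3 : T ⊆ ({x ∈ T | (κ x).2 = 0 ∧ M < #(sec P κ (normSq (κ x).1))} ∪
      {x ∈ T | (κ x).1 = 0 ∧ M < #(sec P (fun q => (κ q).swap) (normSq (κ x).2))}) ∪
        (P \ Gr P κ M) := fun x hx => by
    by_cases hg : x ∈ Gr P κ M
    · rcases (mem_Gr.1 hg).2 with h | h
      · exact mem_union_left _ (mem_union_left _ (mem_filter.2 ⟨hx, h.1, h.2.2⟩))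
      · exact mem_union_left _ (mem_union_right _ (mem_filter.2 ⟨hx, h.1, h.2.2⟩))
    · exact mem_union_right _ (mem_sdiff.2 ⟨(hT x hx).1, hg⟩)
  have a4 := (card_le_card a3).trans ((card_union_le _ _).trans
    (Nat.add_le_add_right (card_union_le _ _) _))
  rw [card_sdiff_of_subset Gr_sub] at a4
  omega

end Pool.Agent.P.MP_f7c707_co.Sh
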