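import Pool.Agent.P.MP_f7c707_co.ExD

/-!
Rich circles: inside copies.
-/

namespace Pool.Agent.P.MP_f7c707_co.Sh

open Finset Complex Pool.Agent.P.MP_f7c707_co

variable {P : Finset V} {κ : V → CC} {d : Tb}

/-- Inside copies with a vertex on a poor circle of the second plane. -/
lemma xr2_half (hd : ND d) (hκ : IsChart κ) (M : ℕ) (C : Finset (Fin 4 → V))
    (hC : ∀ φ ∈ C, φ ∈ Emb P d ∧ (∀ m, (κ (φ m)).1 = 0 ∨ (κ (φ m)).2 = 0) ∧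
      ∃ j, (κ (φ j)).2 ≠ 0 ∧ #(sec P (fun q => (κ q).swap) (normSq (κ (φ j)).2)) ≤ M) :
    #C ≤ 256 * (#P * M) := by
  classical
  let R : ℝ × Fin 4 × Fin 4 → Finset (Fin 4 → V) := fun t =>
    {φ ∈ C | 0 < t.1 ∧ t.2.1 ≠ t.2.2 ∧ φ t.2.1 ∈ sec P κ t.1 ∧ (κ (φ t.2.2)).1 = 0 ∧
      (κ (φ t.2.2)).2 ≠ 0 ∧ #(sec P (fun p => (κ p).swap) (d t.2.1 t.2.2 - t.1)) ≤ M}
  have hsub : C ⊆ ((P.image fun p => normSq (κ p).1) ×ˢ univ).biUnion R := fun φ hφ => by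
    obtain ⟨h1, h2, j, h3, h4⟩ := hC φ hφ
    obtain ⟨hP, hdist⟩ := mem_Emb.1 h1
    obtain ⟨i, hi⟩ := not_flat hd hκ.swap h1
    have hi1 : (κ (φ i)).1 ≠ 0 := hi
    have hi2 := (h2 i).resolve_left hi1
    have hj1 := (h2 j).resolve_right h3
    refine mem_biUnion.2 ⟨(normSq (κ (φ i)).1, i, j),
      mem_product.2 ⟨mem_image_of_mem _ (hP i), mem_univ _⟩, mem_filter.2 ⟨hφ, normSq_pos.2 hi1,
        fun e => h3 ((show i = j from e) ▸ hi2), mem_sec.2 ⟨hP i, hi2, rfl⟩, hj1, h3, ?_⟩⟩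
    have a4 : d i j - normSq (κ (φ i)).1 = normSq (κ (φ j)).2 := by
      rw [← hdist, u_cross hκ hi2 hj1]; ring
    dsimp only
    rw [a4]
    exact h4
  have hsum : ∑ r ∈ P.image fun p => normSq (κ p).1, #(sec P κ r) ≤ #P := by
    rw [card_eq_sum_card_image (fun p => normSq (κ p).1) P]
    exact sum_le_sum fun r _ => card_le_card fun y hy =>
      mem_filter.2 ⟨(mem_sec.1 hy).1, (mem_sec.1 hy).2.2⟩
  refine ((card_le_card hsub).trans card_biUnion_le).trans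
    (le_trans (sum_le_sum (g := fun t => 16 * (#(sec P κ t.1) * M)) fun t _ => ?_) ?_)
  · rcases (R t).eq_empty_or_nonempty with e | ⟨φ₀, h0⟩
    · rw [e]; exact Nat.zero_le _
    obtain ⟨-, hr, hij, -, -, -, b⟩ := mem_filter.1 h0
    refine (err_two (P := P) (d := d) hκ hr hij _ fun φ hφ => ?_).trans
      (Nat.mul_le_mul_left _ (Nat.mul_le_mul_left _ b))
    obtain ⟨b1, -, -, b2, b3, b4, -⟩ := mem_filter.1 hφ
    exact ⟨(hC φ b1).1, b2, b3, b4, (hC φ b1).2.1⟩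
  · rw [sum_product]
    simp only [sum_const, card_univ, Fintype.card_prod, Fintype.card_fin, smul_eq_mul]
    rw [← mul_sum, ← mul_sum, ← sum_mul, ← mul_assoc]
    exact Nat.mul_le_mul_left _ (Nat.mul_le_mul_right _ hsum)

lemma rich_in (hd : ND d) (hK : Kb d) (hκ : IsChart κ) (M : ℕ) (C : Finset (Fin 4 → V))
    (hC : ∀ φ ∈ C, φ ∈ Emb P d ∧ ∀ m, Ins κ (φ m))
    (hinj : ∀ φ ∈ C, ∀ φ' ∈ C, Set.range φ = Set.range φ' → φ = φ') :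
    #C ≤ #P * #(Gr P κ M) + 512 * (#P * M) := by
  classical
  let C0 := {φ ∈ C | ∀ m, φ m ∈ Gr P κ M ∨ (κ (φ m)).1 = 0 ∧ (κ (φ m)).2 = 0}
  let C1 := {φ ∈ C | ∃ j, (κ (φ j)).1 ≠ 0 ∧ #(sec P κ (normSq (κ (φ j)).1)) ≤ M}
  let C2 := {φ ∈ C | ∃ j, (κ (φ j)).2 ≠ 0 ∧
    #(sec P (fun q => (κ q).swap) (normSq (κ (φ j)).2)) ≤ M}
  have hsub : C ⊆ C0 ∪ C1 ∪ C2 := fun φ hφ => by
    by_contra hn
    rw [mem_union, mem_union, not_or, not_or] at hn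
    obtain ⟨⟨n0, n1⟩, n2⟩ := hn
    refine n0 (mem_filter.2 ⟨hφ, fun m => ?_⟩)
    have hP := (mem_Emb.1 (hC φ hφ).1).1 m
    by_cases a1 : (κ (φ m)).1 = 0
    · by_cases a2 : (κ (φ m)).2 = 0
      · exact Or.inr ⟨a1, a2⟩
      · exact Or.inl (mem_Gr.2 ⟨hP, Or.inr ⟨a1, a2,
          not_le.1 fun h => n2 (mem_filter.2 ⟨hφ, m, a2, h⟩)⟩⟩)
    · exact Or.inl (mem_Gr.2 ⟨hP, Or.inl ⟨((hC φ hφ).2 m).resolve_left a1, a1,
        not_le.1 fun h => n1 (mem_filter.2 ⟨hφ, m, a1, h⟩)⟩⟩)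
  have h0 : #C0 ≤ #P * #(Gr P κ M) :=
    u_main hd hK hκ _ Gr_sub (fun p hp => ((mem_Gr.1 hp).2.imp And.left And.left).symm) _
      (fun φ hφ => ⟨(hC φ (mem_filter.1 hφ).1).1, (mem_filter.1 hφ).2⟩)
      fun a ha b hb => hinj a (mem_filter.1 ha).1 b (mem_filter.1 hb).1
  have h1 : #C1 ≤ 256 * (#P * M) := xr2_half hd hκ.swap M _ fun φ hφ =>
    ⟨(hC φ (mem_filter.1 hφ).1).1, fun m => ((hC φ (mem_filter.1 hφ).1).2 m).symm,
      (mem_filter.1 hφ).2⟩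
  have h2 : #C2 ≤ 256 * (#P * M) := xr2_half hd hκ M _ fun φ hφ =>
    ⟨(hC φ (mem_filter.1 hφ).1).1, (hC φ (mem_filter.1 hφ).1).2, (mem_filter.1 hφ).2⟩
  have h3 := ((card_le_card hsub).trans (card_union_le _ _)).trans
    (Nat.add_le_add_right (card_union_le _ _) _)
  omega

end Pool.Agent.P.MP_f7c707_co.Sh
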