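import Pool.Agent.P.MP_f7c707_co.ExV
import Pool.Agent.P.MP_f7c707_co.ExO3
import Pool.Agent.P.MP_f7c707_co.ExR1
import Pool.Agent.P.MP_f7c707_co.ExR2

/-!
The exact bound for labelled copies.
-/

namespace Pool.Agent.P.MP_f7c707_co.Sh

open Finset Complex Pool.Agent.P.MP_f7c707_co

lemma xa_arith {c n j g M q a b : ℝ} (hc : 1 ≤ c) (hn : 2 * c * (8192 * c + 512) ≤ n)
    (hj : j ≤ 1 / (12 * c ^ 2) * n) (hM : M ≤ n / (2048 * c) + 1) (hq : q ≤ 2048 * c)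
    (h : n ^ 2 < a + b) (ha : a ≤ n * g + 512 * (n * M)) (hb : b ≤ c * j * (n + j)) (hj0 : 0 ≤ j) :
    c * (4 * q + (n - g) + j) ≤ n := by
  have c0 : 0 < c := by linarith
  have n0 : 0 < n := lt_of_lt_of_le (by positivity) hn
  have j1 : c * (c * j) ≤ n / 12 := by
    calc _ ≤ c * (c * (1 / (12 * c ^ 2) * n)) := by gcongr
      _ = _ := by field_simp
  have j2 : c * j ≤ c * (c * j) := by gcongr; exact le_mul_of_one_le_left hj0 hc
  have j3 : j ≤ c * j := le_mul_of_one_le_left hj0 hc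
  have m1 : c * M ≤ n / 2048 + c := by
    calc _ ≤ c * (n / (2048 * c) + 1) := by gcongr
      _ = _ := by field_simp
  have b1 : b ≤ n * (2 * (c * j)) := by
    calc _ ≤ c * j * (n + n) := hb.trans (by gcongr; linarith)
      _ = _ := by ring
  have g1 : n - g ≤ 512 * M + 2 * (c * j) := by
    refine le_of_mul_le_mul_left ?_ n0
    linarith
  have g2 : c * (n - g) ≤ c * (512 * M + 2 * (c * j)) := by gcongr
  have q1 : c * q ≤ c * (2048 * c) := by gcongr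
  linarith

theorem emb_exact : ∃ N : ℕ, ∀ (P : Finset V) (d : Tb), ND d → Kb d →
    d 0 1 ≤ d 0 3 → d 0 2 ≤ d 0 3 → N ≤ #P → ∀ C : Finset (Fin 4 → V), (∀ φ ∈ C, φ ∈ Emb P d) →
    (∀ φ ∈ C, ∀ φ' ∈ C, Set.range φ = Set.range φ' → φ = φ') → #C ≤ #P ^ 2 := by
  classical
  obtain ⟨c, hc, hout⟩ := out_le
  have c0 : 0 < c := by linarith
  obtain ⟨N, hN⟩ := stab (δ := 1 / (12 * c ^ 2)) (by positivity)
  refine ⟨max N ⌈2 * c * (8192 * c + 512)⌉₊, fun P d hd hK o1 o2 hP C hC hinj => ?_⟩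
  by_contra hcon
  rw [not_le] at hcon
  obtain ⟨κ, hκ, hj⟩ := hN P d hd hK o1 o2 ((le_max_left _ _).trans hP) C hC hinj hcon
  have hn : 2 * c * (8192 * c + 512) ≤ #P := Nat.ceil_le.1 ((le_max_right _ _).trans hP)
  have n0 : (0 : ℝ) < #P := lt_of_lt_of_le (by positivity) hn
  have t0 : (0 : ℝ) < #P / (2048 * c) := by positivity
  have hM0 : 0 < ⌈#P / (2048 * c)⌉₊ := Nat.ceil_pos.2 t0
  have hM1 := (Nat.ceil_lt_add_one t0.le).le
  have hM2 := Nat.le_ceil (#P / (2048 * c))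
  generalize ⌈#P / (2048 * c)⌉₊ = M at hM0 hM1 hM2
  have hq : ((#P / M : ℕ) : ℝ) ≤ 2048 * c := by
    refine Nat.cast_div_le.trans ?_
    rw [div_le_iff₀ (by exact_mod_cast hM0), mul_comm]
    exact (div_le_iff₀ (by positivity)).1 hM2
  have hA : ∀ φ ∈ {φ ∈ C | ∀ m, Ins κ (φ m)}, φ ∈ Emb P d ∧ ∀ m, Ins κ (φ m) := fun φ hφ =>
    ⟨hC φ (mem_filter.1 hφ).1, (mem_filter.1 hφ).2⟩
  have hI : ∀ φ ∈ {φ ∈ C | ∀ m, Ins κ (φ m)}, ∀ φ' ∈ {φ ∈ C | ∀ m, Ins κ (φ m)},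
      Set.range φ = Set.range φ' → φ = φ' := fun φ hφ φ' hφ' =>
    hinj φ (mem_filter.1 hφ).1 φ' (mem_filter.1 hφ').1
  have hB : ∀ φ ∈ {φ ∈ C | ¬ ∀ m, Ins κ (φ m)}, φ ∈ Emb P d ∧ ∃ m, φ m ∈ e1W P κ := by
    intro φ hφ
    obtain ⟨h1, h2⟩ := mem_filter.1 hφ
    obtain ⟨m, hm⟩ := not_forall.1 h2
    exact ⟨hC φ h1, m, (not_ins ((mem_Emb.1 (hC φ h1)).1 m)).1 hm⟩
  have a1 := rich_in hd hK hκ M _ hA hI
  have a2 := ins_le hd hK hκ _ hA hI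
  have b1 := hout P d κ _ hd o1 o2 hκ Deg.triv _ hB
  have b2 := hout P d κ _ hd o1 o2 hκ (rich_deg hκ hM0) _ hB
  rw [← card_filter_add_card_filter_not (s := C) fun φ => ∀ m, Ins κ (φ m)] at hcon
  generalize #{φ ∈ C | ∀ m, Ins κ (φ m)} = a at a1 a2 hcon
  generalize #{φ ∈ C | ¬ ∀ m, Ins κ (φ m)} = b at b1 b2 hcon
  have hcon' : (#P : ℝ) ^ 2 < a + b := by exact_mod_cast hcon
  have a1' : (a : ℝ) ≤ #P * #(Gr P κ M) + 512 * (#P * M) := by exact_mod_cast a1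
  have a2' : (a : ℝ) ≤ (#P - #(e1W P κ)) ^ 2 := by
    rw [← Nat.cast_sub e1W_le]
    exact_mod_cast a2
  have j0 : (0 : ℝ) ≤ #(e1W P κ) := Nat.cast_nonneg _
  have j1 : (#(e1W P κ) : ℝ) ≤ #P := by exact_mod_cast e1W_le
  have key := xa_arith hc hn hj hM1 hq hcon' a1' b1 j0
  rw [Nat.cast_add, Nat.cast_mul, Nat.cast_sub (card_le_card Gr_sub), Nat.cast_ofNat,
    mul_comm c, mul_assoc] at b2
  have b3 := b2.trans (mul_le_mul_of_nonneg_left key j0)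
  nlinarith [mul_le_mul_of_nonneg_left j1 j0]

end Pool.Agent.P.MP_f7c707_co.Sh
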