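import Pool.Agent.P.MP_f7c707_co.ShU

/-!
The exact bound: definitions and fibres.
-/

namespace Pool.Agent.P.MP_f7c707_co.Sh

open Finset Complex Pool.Agent.P.MP_f7c707_co

/-- The point lies in one of the two planes. -/
def Ins (κ : V → CC) (p : V) : Prop := (κ p).1 = 0 ∨ (κ p).2 = 0

/-- A point outside both planes has at most `D` inside points at any one distance. -/
def Deg (P : Finset V) (κ : V → CC) (D : ℕ) : Prop :=
  ∀ z : V, (κ z).1 ≠ 0 → (κ z).2 ≠ 0 → ∀ (ρ : ℝ) (T : Finset V),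
    (∀ x ∈ T, x ∈ P ∧ Ins κ x ∧ d2 z x = ρ) → #T ≤ D

open Classical in
/-- The points on circles about the origin with more than `M` points. -/
noncomputable def Gr (P : Finset V) (κ : V → CC) (M : ℕ) : Finset V :=
  {p ∈ P | ((κ p).2 = 0 ∧ (κ p).1 ≠ 0 ∧ M < #(sec P κ (normSq (κ p).1))) ∨
    ((κ p).1 = 0 ∧ (κ p).2 ≠ 0 ∧ M < #(sec P (fun q => (κ q).swap) (normSq (κ p).2)))}

variable {P : Finset V} {κ : V → CC} {d : Tb} {D M : ℕ}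

lemma mem_Gr {p : V} : p ∈ Gr P κ M ↔ p ∈ P ∧
    (((κ p).2 = 0 ∧ (κ p).1 ≠ 0 ∧ M < #(sec P κ (normSq (κ p).1))) ∨
    ((κ p).1 = 0 ∧ (κ p).2 ≠ 0 ∧ M < #(sec P (fun q => (κ q).swap) (normSq (κ p).2)))) := by
  classical
  unfold Gr
  exact mem_filter

lemma Gr_sub : Gr P κ M ⊆ P := fun _ hp => (mem_Gr.1 hp).1

lemma Deg.swap (h : Deg P κ D) : Deg P (fun p => (κ p).swap) D :=
  fun z h1 h2 ρ T hT => h z h2 h1 ρ T fun x hx => ⟨(hT x hx).1, (hT x hx).2.1.symm, (hT x hx).2.2⟩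

lemma Deg.triv : Deg P κ #P := fun _ _ _ _ _ hT => card_le_card fun x hx => (hT x hx).1

lemma e1W_swap : e1W P (fun p => (κ p).swap) = e1W P κ := by
  ext p
  rw [mem_e1W, mem_e1W]
  exact ⟨fun h => ⟨h.1, h.2.2, h.2.1⟩, fun h => ⟨h.1, h.2.2, h.2.1⟩⟩

lemma not_ins {p : V} (hp : p ∈ P) : ¬ Ins κ p ↔ p ∈ e1W P κ := by
  rw [mem_e1W, Ins, not_or]
  exact ⟨fun h => ⟨hp, h⟩, fun h => h.2⟩

lemma fibA (hκ : IsChart κ) {u v : V} (h : (κ u).1 ≠ (κ v).1) (a b : ℝ) (T : Finset V)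
    (hT : ∀ p ∈ T, (κ p).2 = 0 ∧ d2 p u = a ∧ d2 p v = b) : #T ≤ 2 := by
  classical
  rw [← card_image_of_injOn (f := fun p => (κ p).1 - (κ u).1) fun p hp q hq e =>
    hκ.inj (Prod.ext (sub_left_injective e) ((hT p hp).1.trans (hT q hq).1.symm))]
  refine circ_two _ (sub_ne_zero.2 h.symm) (r := a - normSq (κ u).2) (s := b - normSq (κ v).2)
    fun y hy => ?_
  obtain ⟨p, hp, rfl⟩ := mem_image.1 hy
  obtain ⟨h1, h2, h3⟩ := hT p hp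
  rw [hκ.2, D2, h1, zero_sub, normSq_neg] at h2 h3
  rw [sub_sub_sub_cancel_right]
  exact ⟨by linarith, by linarith⟩

lemma fibB (hκ : IsChart κ) {x z : V} (hx : (κ x).2 = 0) (hz : (κ z).2 ≠ 0) (c : ℂ) (a b : ℝ)
    (T : Finset V) (hT : ∀ p ∈ T, (κ p).1 = c ∧ d2 p x = a ∧ d2 p z = b) : #T ≤ 2 := by
  classical
  rw [← card_image_of_injOn (f := fun p => (κ p).2) fun p hp q hq e =>
    hκ.inj (Prod.ext ((hT p hp).1.trans (hT q hq).1.symm) e)]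
  refine circ_two _ hz (r := a - normSq (c - (κ x).1)) (s := b - normSq (c - (κ z).1))
    fun y hy => ?_
  obtain ⟨p, hp, rfl⟩ := mem_image.1 hy
  obtain ⟨h1, h2, h3⟩ := hT p hp
  rw [hκ.2, D2, h1] at h2 h3
  rw [hx, sub_zero] at h2
  exact ⟨by linarith, by linarith⟩

lemma ins_le (hd : ND d) (hK : Kb d) (hκ : IsChart κ) (C : Finset (Fin 4 → V))
    (hC : ∀ φ ∈ C, φ ∈ Emb P d ∧ ∀ m, Ins κ (φ m))
    (hinj : ∀ φ ∈ C, ∀ φ' ∈ C, Set.range φ = Set.range φ' → φ = φ') :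
    #C ≤ (#P - #(e1W P κ)) ^ 2 := by
  classical
  have h1 : ∀ p, p ∈ P \ e1W P κ ↔ p ∈ P ∧ Ins κ p := fun p => by
    rw [mem_sdiff]
    exact and_congr_right fun hp => by rw [← not_ins hp, not_not]
  have h2 := u_main (P := P \ e1W P κ) hd hK hκ _ Subset.rfl (fun p hp => ((h1 p).1 hp).2) C
    (fun φ hφ => by
      obtain ⟨a1, a2⟩ := mem_Emb.1 (hC φ hφ).1
      have a3 : ∀ m, φ m ∈ P \ e1W P κ := fun m => (h1 _).2 ⟨a1 m, (hC φ hφ).2 m⟩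
      exact ⟨mem_Emb.2 ⟨a3, a2⟩, fun m => Or.inl (a3 m)⟩) hinj
  rwa [card_sdiff_of_subset fun p hp => (mem_e1W.1 hp).1, ← sq] at h2

end Pool.Agent.P.MP_f7c707_co.Sh
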