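import Pool.Agent.P.MP_f7c707_co.ShL

/-!
The lower bound on two regular polygons.
-/

namespace Pool.Agent.P.MP_f7c707_co.Sh

open Finset Complex Pool.Agent.P.MP_f7c707_co

/-- The squared edges of the simplex. -/
def xl_D (A B C : ℝ) : Fin 4 → Fin 4 → ℝ :=
  ![![0, A, C, 2], ![A, 0, B, 2], ![C, B, 0, 2], ![2, 2, 2, 0]]

lemma xl_rigid {A B C : ℝ} (h0 : 0 < A) (h1 : A < B) (h2 : B < C) (a b c d : Fin 4)
    (e1 : xl_D A B C a b = A) (e2 : xl_D A B C a c = C) (e3 : xl_D A B C b c = B)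
    (e4 : xl_D A B C a d = 2) (e5 : xl_D A B C b d = 2) (e6 : xl_D A B C c d = 2) :
    a = 0 ∧ b = 1 ∧ d = 3 := by
  fin_cases a <;> fin_cases b <;> fin_cases c <;> fin_cases d <;>
    first
    | exact ⟨rfl, rfl, rfl⟩
    | (exfalso
       simp only [xl_D, Fin.zero_eta, Fin.mk_one, Fin.reduceFinMk, Matrix.cons_val,
         Fin.isValue] at e1 e2 e3 e4 e5 e6
       linarith)

/-- A labelled copy. -/
def xl_V (b : Bool) (u z w : ℂ) : Fin 4 → E4 :=
  ![loPt b z, loPt b (z * u), loPt b (z * u ^ 3), loPt (!b) w]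

lemma xl_re {u : ℂ} (h0 : normSq u = 1) : (u ^ 2).re = 2 * u.re ^ 2 - 1 ∧
    (u ^ 3).re = 4 * u.re ^ 3 - 3 * u.re ∧ (u ^ 3).im = u.im * (4 * u.re ^ 2 - 1) := by
  rw [normSq_apply] at h0
  simp only [pow_succ, pow_zero, one_mul, mul_re, mul_im]
  refine ⟨?_, ?_, ?_⟩
  · linear_combination (-1) * h0
  · linear_combination (-3 * u.re) * h0
  · linear_combination (-u.im) * h0

lemma xl_sub {v : ℂ} (h : normSq v = 1) : normSq (1 - v) = 2 - 2 * v.re := by
  rw [normSq_sub, h]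
  simp
  ring

lemma xl_dist (b : Bool) {x : ℝ} {u z w : ℂ} (h0 : normSq u = 1) (hu : u.re = x)
    (hz : normSq z = 1) (hw : normSq w = 1) (i j : Fin 4) :
    dist (xl_V b u z w i) (xl_V b u z w j) ^ 2 =
      xl_D (2 - 2 * x) (4 - 4 * x ^ 2) (2 + 6 * x - 8 * x ^ 3) i j := by
  obtain ⟨r2, r3, -⟩ := xl_re h0
  rw [hu] at r2 r3
  have n2 : normSq (u ^ 2) = 1 := by rw [map_pow, h0, one_pow]
  have n3 : normSq (u ^ 3) = 1 := by rw [map_pow, h0, one_pow]
  have a01 : dist (loPt b z) (loPt b (z * u)) ^ 2 = 2 - 2 * x := by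
    rw [lo_same, show z - z * u = z * (1 - u) by ring, map_mul, hz, xl_sub h0, one_mul, hu]
  have a02 : dist (loPt b z) (loPt b (z * u ^ 3)) ^ 2 = 2 + 6 * x - 8 * x ^ 3 := by
    rw [lo_same, show z - z * u ^ 3 = z * (1 - u ^ 3) by ring, map_mul, hz, xl_sub n3, r3]
    ring
  have a12 : dist (loPt b (z * u)) (loPt b (z * u ^ 3)) ^ 2 = 4 - 4 * x ^ 2 := by
    rw [lo_same, show z * u - z * u ^ 3 = z * (u * (1 - u ^ 2)) by ring, map_mul, map_mul, hz, h0,
      xl_sub n2, r2]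
    ring
  have a03 : dist (loPt b z) (loPt (!b) w) ^ 2 = 2 := by
    rw [lo_cross, hz, hw]; norm_num
  have a13 : dist (loPt b (z * u)) (loPt (!b) w) ^ 2 = 2 := by
    rw [lo_cross, map_mul, hz, h0, hw]; norm_num
  have a23 : dist (loPt b (z * u ^ 3)) (loPt (!b) w) ^ 2 = 2 := by
    rw [lo_cross, map_mul, hz, n3, hw]; norm_num
  have a10 := a01
  have a20 := a02
  have a21 := a12
  have a30 := a03
  have a31 := a13
  have a32 := a23
  rw [dist_comm] at a10 a20 a21 a30 a31 a32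
  have aa : ∀ p : E4, dist p p ^ 2 = 0 := fun p => by rw [dist_self]; norm_num
  fin_cases i <;> fin_cases j
  exacts [aa _, a01, a02, a03, a10, aa _, a12, a13, a20, a21, aa _, a23, a30, a31, a32, aa _]

lemma xl_lt {u : ℂ} (h0 : normSq u = 1) (hu : u.im ≠ 0) : u.re < 1 := by
  rw [normSq_apply] at h0
  have := mul_self_pos.2 hu
  nlinarith

lemma xl_ind {u : ℂ} (h0 : normSq u = 1) (hx : 1 / 2 ≤ u.re) (hu : u.im ≠ 0) :
    AffineIndependent ℝ (xl_V true u 1 1) := by
  obtain ⟨-, r3, i3⟩ := xl_re h0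
  have h1 := xl_lt h0 hu
  rw [affineIndependent_iff_of_fintype]
  intro c hc h
  rw [weightedVSub_eq_linear_combination _ hc] at h
  have e0 := congrArg (fun x : E4 => x 0) h
  have e1 := congrArg (fun x : E4 => x 1) h
  have e2 := congrArg (fun x : E4 => x 2) h
  simp [Fin.sum_univ_four, xl_V, loPt, em1, em2] at e0 e1 e2 hc
  rw [r3] at e0
  rw [i3] at e1
  have e3 : c 1 + c 2 * (4 * u.re ^ 2 - 1) = 0 :=
    mul_left_cancel₀ hu (by linear_combination e1)
  have e4 : c 2 = 0 := by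
    have h5 : (2 * u.re + 1) * (1 - u.re) ≠ 0 := by
      have : 0 < 1 - u.re := by linarith
      positivity
    apply mul_left_cancel₀ h5
    linear_combination (-1 / 2) * e0 + (1 / 2) * hc - (1 / 2) * e2 + ((u.re - 1) / 2) * e3
  rw [e4] at e3 hc
  intro i
  fin_cases i
  · change c 0 = 0
    linarith
  · change c 1 = 0
    linarith
  · exact e4
  · exact e2

lemma xl_root {k : ℕ} (hk : 6 ≤ k) : ∃ u : ℂ, u ^ k = 1 ∧ 1 / 2 ≤ u.re ∧ u.im ≠ 0 := by
  have hk' : (6 : ℝ) ≤ k := by exact_mod_cast hk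
  have hp := Real.pi_pos
  have h1 : 0 < 2 * Real.pi / k := by positivity
  have h2 : 2 * Real.pi / k ≤ Real.pi / 3 := by
    rw [div_le_div_iff₀ (by linarith) (by norm_num)]
    nlinarith
  have e : exp (2 * Real.pi * I / k) = exp (((2 * Real.pi / k : ℝ) : ℂ) * I) := by
    push_cast
    ring_nf
  refine ⟨_, (Complex.isPrimitiveRoot_exp k (by omega)).pow_eq_one, ?_, ?_⟩
  · rw [e, exp_ofReal_mul_I_re, ← Real.cos_pi_div_three]
    exact Real.cos_le_cos_of_nonneg_of_le_pi h1.le (by linarith) h2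
  · rw [e, exp_ofReal_mul_I_im]
    exact (Real.sin_pos_of_pos_of_lt_pi h1 (by linarith)).ne'

theorem lower_gon {k : ℕ} (hk : 6 ≤ k) : ∃ s : Finset E4, IsSimplex3 s ∧
    ∀ m : ℕ, (2 * k * m) ^ 2 ≤ maxCopies s (2 * k * m) := by
  classical
  obtain ⟨u, hu1, hu2, hu3⟩ := xl_root hk
  have hu0 : normSq u = 1 := by
    rw [normSq_eq_norm_sq, Complex.norm_eq_one_of_pow_eq_one hu1 (by omega), one_pow]
  have hu4 := xl_lt hu0 hu3
  let om : Bool → ℂ := fun c => cond c u ((starRingEnd ℂ) u)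
  have hre : ∀ c, (om c).re = u.re := fun c => by cases c <;> rfl
  have hn0 : ∀ c, normSq (om c) = 1 := fun c => by
    cases c
    · exact (normSq_conj u).trans hu0
    · exact hu0
  have h6 : ∀ c, om c ^ k = 1 := fun c => by
    cases c
    · change (starRingEnd ℂ) u ^ k = 1
      rw [← map_pow, hu1, map_one]
    · exact hu1
  have hoi : ∀ c c', om c = om c' → c = c' := fun c c' e => by
    have e' := congrArg Complex.im e
    cases c <;> cases c' <;> simp only [om, cond, conj_im] at e' <;>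
      first | rfl | exact absurd (by linarith) hu3
  have hA : 0 < 2 - 2 * u.re := by linarith
  have hB : 2 - 2 * u.re < 4 - 4 * u.re ^ 2 := by nlinarith
  have hC : 4 - 4 * u.re ^ 2 < 2 + 6 * u.re - 8 * u.re ^ 3 := by
    have h1 : 0 < (1 - u.re) * (8 * u.re ^ 2 + 4 * u.re - 2) :=
      mul_pos (by linarith) (by nlinarith)
    nlinarith
  have hind := xl_ind (u := om true) hu0 hu2 hu3
  have hs : IsSimplex3 (univ.image (xl_V true (om true) 1 1)) := by
    refine ⟨by rw [card_image_of_injective _ hind.injective]; simp, hind.range.mono ?_⟩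
    intro x hx
    obtain ⟨i, -, rfl⟩ := mem_image.1 (mem_coe.1 hx)
    exact ⟨i, rfl⟩
  refine ⟨_, hs, fun m => ?_⟩
  set s := univ.image (xl_V true (om true) 1 1) with hsd
  rcases Nat.eq_zero_or_pos m with rfl | hp
  · simp
  have hkm : 0 < k * m := Nat.mul_pos (by omega) hp
  obtain ⟨n, hn⟩ : ∃ n, n = 2 * k * m := ⟨_, rfl⟩
  have hn2 : (2 * k * m) ^ 2 = 4 * (k * m) ^ 2 := by ring
  have hn3 : n = 2 * (k * m) := by rw [hn, mul_assoc]
  rw [hn2, ← hn]
  set R := Polynomial.nthRootsFinset (k * m) (1 : ℂ) with hR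
  have hc : #R = k * m := (Complex.isPrimitiveRoot_exp (k * m) hkm.ne').card_nthRootsFinset
  have hmem : ∀ z : ℂ, z ∈ R ↔ z ^ (k * m) = 1 := fun z =>
    Polynomial.mem_nthRootsFinset hkm 1
  have hN : ∀ z ∈ R, normSq z = 1 := fun z hz => by
    rw [normSq_eq_norm_sq, Complex.norm_eq_one_of_pow_eq_one ((hmem z).1 hz) hkm.ne', one_pow]
  have hmul : ∀ c, ∀ z ∈ R, z * om c ∈ R := fun c z hz => by
    rw [hmem, mul_pow, (hmem z).1 hz, pow_mul, h6, one_pow, one_mul]
  have hmul3 : ∀ c, ∀ z ∈ R, z * om c ^ 3 ∈ R := fun c z hz => by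
    rw [show z * om c ^ 3 = z * om c * om c * om c by ring]
    exact hmul c _ (hmul c _ (hmul c _ hz))
  let P₀ : Finset E4 := univ.biUnion fun b : Bool => R.image (loPt b)
  have hP₀ : #P₀ ≤ n := by
    refine (card_biUnion_le_card_mul _ _ (k * m) fun i _ => card_image_le.trans hc.le).trans ?_
    rw [card_univ, Fintype.card_bool, hn3]
  have hin : ∀ b, ∀ z ∈ R, loPt b z ∈ P₀ := fun b z hz =>
    mem_biUnion.2 ⟨b, mem_univ _, mem_image_of_mem _ hz⟩
  obtain ⟨P, hP, hPn⟩ := Infinite.exists_superset_card_eq P₀ n hP₀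
  have hfin : ∀ P : Finset E4, {t : Finset E4 | t ⊆ P ∧ IsSimplex3 t ∧ Congr s t}.Finite :=
    fun P => (finite_toSet P.powerset).subset fun t ht => mem_coe.2 (mem_powerset.2 ht.1)
  refine le_trans ?_ (le_csSup ⟨2 ^ n, ?_⟩ ⟨P, hPn, rfl⟩)
  · have h1 := Set.ncard_le_ncard_of_injOn
      (s := (((univ : Finset (Bool × Bool)) ×ˢ (R ×ˢ R) : Finset ((Bool × Bool) × ℂ × ℂ)) :
        Set ((Bool × Bool) × ℂ × ℂ)))
      (fun p : (Bool × Bool) × ℂ × ℂ => univ.image (xl_V p.1.1 (om p.1.2) p.2.1 p.2.2)) ?_ ?_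
      (hfin P)
    · rw [Set.ncard_coe_finset, card_product, card_product, hc, card_univ, Fintype.card_prod,
        Fintype.card_bool, ← sq (k * m)] at h1
      exact h1
    · rintro ⟨⟨b, c⟩, z, w⟩ hp
      obtain ⟨hz, hw⟩ := mem_product.1 (mem_product.1 (mem_coe.1 hp)).2
      obtain ⟨g, hg⟩ := exists_isometry (xl_V true (om true) 1 1) (xl_V b (om c) z w) (fun i j => by
        rw [← sq_eq_sq₀ dist_nonneg dist_nonneg, xl_dist b (hn0 c) (hre c) (hN z hz) (hN w hw),
          xl_dist true (hn0 true) (hre true) (map_one _) (map_one _)]) univ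
      have e1 : s.image g = univ.image (xl_V b (om c) z w) := by
        rw [hsd, image_image]
        exact image_congr fun i _ => hg i (mem_univ _)
      refine ⟨fun x hx => hP ?_, e1 ▸ hs.image g, g, e1 ▸ coe_image.symm⟩
      obtain ⟨i, -, rfl⟩ := mem_image.1 hx
      fin_cases i
      · exact hin _ _ hz
      · exact hin _ _ (hmul _ _ hz)
      · exact hin _ _ (hmul3 _ _ hz)
      · exact hin _ _ hw
    · rintro ⟨⟨b, c⟩, z, w⟩ hp ⟨⟨b', c'⟩, z', w'⟩ hp' hh
      obtain ⟨hz, hw⟩ := mem_product.1 (mem_product.1 (mem_coe.1 hp)).2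
      obtain ⟨hz', hw'⟩ := mem_product.1 (mem_product.1 (mem_coe.1 hp')).2
      dsimp only at hh hz hw hz' hw'
      have key : ∀ k : Fin 4, ∃ l : Fin 4, xl_V b' (om c') z' w' l = xl_V b (om c) z w k := by
        intro k
        have h1 : xl_V b (om c) z w k ∈ univ.image (xl_V b' (om c') z' w') := by
          rw [← hh]; exact mem_image_of_mem _ (mem_univ _)
        obtain ⟨l, -, h2⟩ := mem_image.1 h1
        exact ⟨l, h2⟩
      choose σ hσ using key
      have hD := fun i j => xl_dist b' (hn0 c') (hre c') (hN z' hz') (hN w' hw') (σ i) (σ j)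
      simp only [hσ, xl_dist b (hn0 c) (hre c) (hN z hz) (hN w hw)] at hD
      obtain ⟨s0, s2, s3⟩ := xl_rigid hA hB hC (σ 0) (σ 1) (σ 2) (σ 3) (hD 0 1).symm
        (hD 0 2).symm (hD 1 2).symm (hD 0 3).symm (hD 1 3).symm (hD 2 3).symm
      have e0 := hσ 0
      have e2 := hσ 1
      have e3 := hσ 3
      rw [s0] at e0
      rw [s2] at e2
      rw [s3] at e3
      obtain ⟨rfl, rfl⟩ := lo_inj (b := b') (b' := b) (hN z' hz') e0
      obtain ⟨-, rfl⟩ := lo_inj (b := !b') (b' := !b') (hN w' hw') e3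
      have e4 := (lo_inj (b := b') (b' := b') (hN _ (hmul c' z' hz')) e2).2
      have hz0 : z' ≠ 0 := fun e => by simpa [e] using hN z' hz'
      rw [hoi c' c (mul_left_cancel₀ hz0 e4)]
  · rintro k ⟨P, rfl, rfl⟩
    refine le_trans (Set.ncard_le_ncard (t := (P.powerset : Set (Finset E4)))
      (fun t ht => mem_coe.2 (mem_powerset.2 ht.1)) (finite_toSet _)) ?_
    rw [Set.ncard_coe_finset, card_powerset]

end Pool.Agent.P.MP_f7c707_co.Sh
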