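import Pool.Agent.P.MP_f7c707_co.ShT

/-!
One pair of perpendicular opposite edges, no reflection.
-/

namespace Pool.Agent.P.MP_f7c707_co.Sh

open Finset Complex

variable {d : Tb} {U W : Finset ℝ} {ψ : Lb} {i k j l m : Fin 4} {c D E F al be x : ℝ} {n : ℕ}

/-- The table of this case. -/
structure K2 (d : Tb) (i k j l : Fin 4) (c D E : ℝ) : Prop where
  nd : ND d
  cv : Cov i k j l
  e1 : d i j = c
  e2 : d k j = c + D
  e3 : d i l = c + E
  e4 : d k l = c + D + E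
  ne : d i k + d j l ≠ 2 * c + D + E
  hD : 0 < D
  hE : 0 < E

/-- At most two given values occur. -/
def K2M (U : Finset ℝ) (al D : ℝ) : Prop := ∀ x ∈ U, x = al ∨ x = al + D

/-- The vertex is an apex. -/
def K2A (m : Fin 4) (ψ : Lb) : Prop := A2 m ψ ∨ A1 m ψ

/-- The vertex is an apex in some copy. -/
def K2P (d : Tb) (al D : ℝ) (m : Fin 4) : Prop :=
  ∃ (U W : Finset ℝ) (ψ : Lb), K2M U al D ∧ Em d U W ψ ∧ A2 m ψ

/-- The types that occur. -/
def K2C (d : Tb) (U W : Finset ℝ) (i k j l : Fin 4) : Prop :=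
  ∀ ψ, Em d U W ψ → (∃ m, K2A m ψ) ∨ Tw i k j l ψ ∨ Tw j l i k ψ

lemma K2C.flip (h : K2C d U W i k j l) : K2C d U W j l i k := fun ψ e =>
  (h ψ e).imp_right Or.symm

lemma K2.flip (h : K2 d i k j l c D E) : K2 d j l i k c E D := by
  have s := h.nd.sy
  refine ⟨h.nd, fun m => ?_, ?_, ?_, ?_, ?_, fun e => h.ne ?_, h.hE, h.hD⟩
  · rcases h.cv m with a | a | a | a
    · exact Or.inr (Or.inr (Or.inl a))
    · exact Or.inr (Or.inr (Or.inr a))
    · exact Or.inl a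
    · exact Or.inr (Or.inl a)
  · rw [s, h.e1]
  · rw [s, h.e3]
  · rw [s, h.e2]
  · rw [s, h.e4]; ring
  · linarith

lemma K2.apJ (h : K2 d i k j l c D E) (e : Em d U W ψ) (a : A2 j ψ) :
    c - normSq (ψ j).2 ∈ U ∧ c - normSq (ψ j).2 + D ∈ U ∧ d j l - normSq (ψ j).2 ∈ U := by
  obtain ⟨n1, n2, n3, n4, n5, n6⟩ := h.cv.ne
  obtain ⟨-, -, H⟩ := A2.data h.nd e a
  have s := h.nd.sy
  refine ⟨?_, ?_, ?_⟩
  · rcases H i n2 with ⟨x, -⟩ | ⟨-, x⟩
    · rwa [h.e1] at x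
    · have x1 := (x k n1.symm n4).1
      have x2 := (x l n3.symm n6.symm).1
      exact absurd (by linarith [s k i, s l j, s l i, h.e1, h.e2, h.e3]) h.ne
  · rcases H k n4 with ⟨x, -⟩ | ⟨-, x⟩
    · rwa [h.e2, add_sub_right_comm] at x
    · have x1 := (x i n1 n2).1
      exfalso
      linarith [h.nd.ps i k n1, h.e1, h.e2, h.hD]
  · rcases H l n6.symm with ⟨x, -⟩ | ⟨-, x⟩
    · rwa [s l j] at x
    · have x1 := (x i n3 n2).1
      exfalso
      linarith [h.nd.ps l j n6.symm, h.e1, h.e3, h.hE]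

lemma K2.apL (h : K2 d i k j l c D E) (e : Em d U W ψ) (a : A2 l ψ) :
    c + E - normSq (ψ l).2 ∈ U ∧ c + E - normSq (ψ l).2 + D ∈ U ∧
      (d j l - normSq (ψ l).2 ∈ U ∨ (d j l = normSq (ψ l).2 ∧ d j l = E)) := by
  obtain ⟨n1, n2, n3, n4, n5, n6⟩ := h.cv.ne
  obtain ⟨-, -, H⟩ := A2.data h.nd e a
  have s := h.nd.sy
  refine ⟨?_, ?_, ?_⟩
  · rcases H i n3 with ⟨x, -⟩ | ⟨-, x⟩
    · rwa [h.e3] at x
    · have x1 := (x k n1.symm n5).1
      have x2 := (x j n2.symm n6).1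
      exact absurd (by linarith [s k i, s j i, h.e1, h.e4, h.e3]) h.ne
  · rcases H k n5 with ⟨x, -⟩ | ⟨-, x⟩
    · rwa [h.e4, add_right_comm, add_sub_right_comm] at x
    · have x1 := (x i n1 n3).1
      exfalso
      linarith [h.nd.ps i k n1, h.e3, h.e4, h.hD]
  · rcases H j n6 with ⟨x, -⟩ | ⟨y, x⟩
    · exact Or.inl x
    · have x1 := (x i n2 n3).1
      exact Or.inr ⟨y, by linarith [h.e1, h.e3]⟩

lemma K2M.of_card (h : #U = 2) (h1 : al ∈ U) (h2 : al + D ∈ U) (hD : 0 < D) : K2M U al D := by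
  obtain ⟨p, q, -, rfl⟩ := card_eq_two.1 h
  intro x hx
  simp only [mem_insert, mem_singleton] at h1 h2 hx
  rcases h1 with a | a <;> rcases h2 with b | b <;> rcases hx with y | y
  · exact Or.inl (y.trans a.symm)
  · exfalso; linarith
  · exact Or.inl (y.trans a.symm)
  · exact Or.inr (y.trans b.symm)
  · exact Or.inr (y.trans b.symm)
  · exact Or.inl (y.trans a.symm)
  · exfalso; linarith
  · exact Or.inl (y.trans a.symm)

lemma K2M.two (h : K2M U al F) (hF : 0 < F) (hE : 0 < E) (h1 : x ∈ U) (h2 : x + E ∈ U) :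
    x = al ∧ E = F := by
  rcases h _ h1 with a | a <;> rcases h _ h2 with b | b <;> constructor <;> linarith

lemma K2.htJ (h : K2 d i k j l c D E) (hM : K2M U al F) (hF : 0 < F) (e : Em d U W ψ)
    (a : A2 j ψ) : normSq (ψ j).2 = c - al ∧ D = F := by
  obtain ⟨x1, x2, -⟩ := h.apJ e a
  obtain ⟨y1, y2⟩ := hM.two hF h.hD x1 x2
  exact ⟨by linarith, y2⟩

lemma K2.htL (h : K2 d i k j l c D E) (hM : K2M U al F) (hF : 0 < F) (e : Em d U W ψ)
    (a : A2 l ψ) : normSq (ψ l).2 = c + E - al ∧ D = F := by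
  obtain ⟨x1, x2, -⟩ := h.apL e a
  obtain ⟨y1, y2⟩ := hM.two hF h.hD x1 x2
  exact ⟨by linarith, y2⟩

lemma K2.tw (h : K2 d i k j l c D E) (e : Em d U W ψ) (t : Tw i k j l ψ) :
    normSq (ψ i).1 ∈ U ∧ normSq (ψ i).1 + D ∈ U ∧ normSq (ψ j).2 ∈ W ∧ normSq (ψ j).2 + E ∈ W ∧
      normSq (ψ i).1 + normSq (ψ j).2 = c ∧ 0 < normSq (ψ i).1 ∧
      normSq (ψ l).2 = normSq (ψ j).2 + E := by
  obtain ⟨⟨a1, a2, a3, a4⟩, ⟨b1, -⟩, ⟨c1, c2, c3, -⟩, -⟩ := Tw.data h.cv e t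
  have f1 : normSq (ψ k).1 = normSq (ψ i).1 + D := by linarith [h.e1, h.e2]
  have f2 : normSq (ψ l).2 = normSq (ψ j).2 + E := by linarith [h.e1, h.e3]
  exact ⟨a1, f1 ▸ a2, a3, f2 ▸ a4, c1.trans h.e1, b1, f2⟩

lemma K2.tb (h : K2 d i k j l c D E) (f : Fx d U W i k j l n) :
    Bd d U W (Tw i k j l) (n * (#U - 1)) :=
  Fx.lt_U h.cv f (by rw [h.e1, h.e2]; linarith [h.hD])

lemma K2.tb2 (h : K2 d i k j l c D E) (f : Fx d U W i k j l n) (hU : #U = 2) :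
    Bd d U W (Tw i k j l) n :=
  (h.tb f).mono (fun _ _ x => x) (by rw [hU]; omega)

lemma k2_a1 (hd : ND d) (m : Fin 4) : Bd d U W (A1 m) 2 := (bd_A2 (U := W) (W := U) hd m).swap

lemma k2_four (hd : ND d) (m : Fin 4) : Bd d U W (K2A m) 4 := (bd_A2 hd m).or (k2_a1 hd m)

lemma k2_no2 (hd : ND d) (h : ∀ ψ, Em d U W ψ → ¬ A2 m ψ) : Bd d U W (K2A m) 2 :=
  (k2_a1 hd m).mono (fun ψ e a => a.resolve_left (h ψ e)) le_rfl

lemma k2_no1 (hd : ND d) (h : ∀ ψ, Em d W U ψ → ¬ A2 m ψ) : Bd d U W (K2A m) 2 :=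
  (bd_A2 hd m).mono (fun ψ e a => a.resolve_right (h (sw ψ) e.sw)) le_rfl

lemma k2_none (h : ∀ ψ, Em d U W ψ → ¬ A2 m ψ) (h' : ∀ ψ, Em d W U ψ → ¬ A2 m ψ) :
    Bd d U W (K2A m) 0 :=
  Bd.zero fun ψ e a => a.elim (h ψ e) (h' (sw ψ) e.sw)

lemma k2_one (hd : ND d) {p q : ℝ} (hne : p ≠ q)
    (h : ∀ ψ, Em d U W ψ → A2 m ψ → normSq (ψ m).2 = p)
    (h' : ∀ ψ, Em d W U ψ → A2 m ψ → normSq (ψ m).2 = q) : Bd d U W (K2A m) 2 := by
  by_cases h1 : ∃ ψ, Em d U W ψ ∧ A2 m ψ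
  · obtain ⟨ψ, e, a⟩ := h1
    exact k2_no1 hd fun ψ' e' a' =>
      hne ((h ψ e a).symm.trans ((ht_eq hd e e' a a').trans (h' ψ' e' a')))
  · exact k2_no2 hd fun ψ e a => h1 ⟨ψ, e, a⟩

lemma k2_noP (hU : K2M U al D) (hW : K2M W al D) (h : ¬ K2P d al D m) : Bd d U W (K2A m) 0 :=
  k2_none (fun ψ e a => h ⟨U, W, ψ, hU, e, a⟩) fun ψ e a => h ⟨W, U, ψ, hW, e, a⟩

lemma k2_tot (cv : Cov i k j l) (hc : K2C d U W i k j l) {n1 n2 n3 n4 n5 n6 : ℕ}
    (b1 : Bd d U W (K2A i) n1) (b2 : Bd d U W (K2A k) n2) (b3 : Bd d U W (K2A j) n3)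
    (b4 : Bd d U W (K2A l) n4) (b5 : Bd d U W (Tw i k j l) n5) (b6 : Bd d U W (Tw j l i k) n6)
    (hn : n1 + (n2 + (n3 + (n4 + (n5 + n6)))) ≤ n) : Bd d U W (fun _ => True) n := by
  refine (b1.or (b2.or (b3.or (b4.or (b5.or b6))))).mono (fun ψ e _ => ?_) hn
  rcases hc ψ e with ⟨m, a⟩ | t
  · rcases cv m with rfl | rfl | rfl | rfl
    · exact Or.inl a
    · exact Or.inr (Or.inl a)
    · exact Or.inr (Or.inr (Or.inl a))
    · exact Or.inr (Or.inr (Or.inr (Or.inl a)))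
  · exact Or.inr (Or.inr (Or.inr (Or.inr t)))

lemma K2.dd (h : K2 d i k j l (2 * al) D D) (hal : 0 < al) (pj : K2P d al D j)
    (pl : K2P d al D l) : d j l = 2 * al + D := by
  obtain ⟨U, W, ψ, hM, e, a⟩ := pj
  obtain ⟨U', W', ψ', hM', e', a'⟩ := pl
  have x1 := (h.htJ hM h.hD e a).1
  have x2 := (h.htL hM' h.hD e' a').1
  have hD := h.hD
  rcases (h.apL e' a').2.2 with y | ⟨y1, y2⟩
  · rcases hM _ (h.apJ e a).2.2 with z | z <;> rcases hM' _ y with w | w <;> linarith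
  · exfalso
    linarith

lemma K2.co (h : K2 d i k j l (2 * al) D D) (hW : K2M W al D) (pl : K2P d al D l)
    (hd : d j l = 2 * al + D) (e : Em d U W ψ) (t : Tw i k j l ψ) :
    ((starRingEnd ℂ) (ψ i).1 * (ψ k).1).im = 0 := by
  obtain ⟨U', W', ψ', hM', e', a'⟩ := pl
  have x2 := (h.htL hM' h.hD e' a').1
  obtain ⟨-, -, y1, y2, -, -, y3⟩ := h.tw e t
  have y4 := (hW.two h.hD h.hD y1 y2).1
  exact col h.nd h.cv e t e' a' (by linarith) (by linarith)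

lemma K2.core3 (h : K2 d i k j l (2 * al) D D) (hal : 0 < al) (hU : K2M U al D)
    (hW : K2M W al D) (cU : #U = 2) (hc : K2C d U W i k j l) (pj : K2P d al D j)
    (pl : K2P d al D l) : Bd d U W (fun _ => True) 16 := by
  have hd := h.dd hal pj pl
  have t1 := h.tb2 (fx_left h.nd h.cv (Or.inr fun ψ e t => h.co hW pl hd e t)) cU
  have t2 := h.flip.tb2 (fx_right (W := W) h.nd h.flip.cv (Or.inr fun ψ e t =>
    h.co (ψ := sw ψ) hU pl hd e.sw ⟨t.2.2.1, t.2.2.2, t.1, t.2.1⟩)) cU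
  have f := k2_four (U := U) (W := W) h.nd
  by_cases pi : K2P d al D i
  · by_cases pk : K2P d al D k
    · exact absurd (by linarith [h.flip.dd hal pi pk]) h.ne
    · exact k2_tot h.cv hc (f i) (k2_noP hU hW pk) (f j) (f l) t1 t2 (by norm_num)
  · exact k2_tot h.cv hc (k2_noP hU hW pi) (f k) (f j) (f l) t1 t2 (by norm_num)

lemma K2.core (h : K2 d i k j l c D E) (cU : #U = 2) (cW : #W = 2) (hc : K2C d U W i k j l)
    (e0 : Em d U W ψ) (t0 : Tw i k j l ψ) : Bd d U W (fun _ => True) 16 := by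
  obtain ⟨y1, y2, y3, y4, y5, hal, -⟩ := h.tw e0 t0
  have hU := K2M.of_card cU y1 y2 h.hD
  have hW := K2M.of_card cW y3 y4 h.hE
  generalize normSq (ψ i).1 = al at *
  generalize normSq (ψ j).2 = be at *
  have t1 := h.tb2 (fx_four (W := W) h.nd h.cv) cU
  have t2 := h.flip.tb2 (fx_four (W := W) h.nd h.flip.cv) cU
  have g := h.flip
  by_cases hDE : E = D
  · subst hDE
    by_cases hab : al = be
    · subst hab
      have hc2 : c = 2 * al := by linarith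
      subst hc2
      have f := k2_four (U := U) (W := W) h.nd
      have z := fun m => k2_noP (d := d) (m := m) hU hW
      by_cases pj : K2P d al E j ∧ K2P d al E l
      · exact h.core3 hal hU hW cU hc pj.1 pj.2
      by_cases pi : K2P d al E i ∧ K2P d al E k
      · exact g.core3 hal hU hW cU hc.flip pi.1 pi.2
      rcases not_and_or.1 pj with pj | pj <;> rcases not_and_or.1 pi with pi | pi
      · exact k2_tot h.cv hc (z i pi) (f k) (z j pj) (f l) t1 t2 (by norm_num)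
      · exact k2_tot h.cv hc (f i) (z k pi) (z j pj) (f l) t1 t2 (by norm_num)
      · exact k2_tot h.cv hc (z i pi) (f k) (f j) (z l pj) t1 t2 (by norm_num)
      · exact k2_tot h.cv hc (f i) (z k pi) (f j) (z l pj) t1 t2 (by norm_num)
    · have n1 : c - al ≠ c - be := fun x => hab (by linarith)
      have n2 : c + E - al ≠ c + E - be := fun x => hab (by linarith)
      exact k2_tot h.cv hc
        (k2_one h.nd n1 (fun _ e a => (g.htJ hU h.hD e a).1) fun _ e a => (g.htJ hW h.hD e a).1)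
        (k2_one h.nd n2 (fun _ e a => (g.htL hU h.hD e a).1) fun _ e a => (g.htL hW h.hD e a).1)
        (k2_one h.nd n1 (fun _ e a => (h.htJ hU h.hD e a).1) fun _ e a => (h.htJ hW h.hD e a).1)
        (k2_one h.nd n2 (fun _ e a => (h.htL hU h.hD e a).1) fun _ e a => (h.htL hW h.hD e a).1)
        t1 t2 (by norm_num)
  · refine k2_tot h.cv hc (k2_no2 h.nd fun _ e a => hDE (g.htJ hU h.hD e a).2)
      (k2_no2 h.nd fun _ e a => hDE (g.htL hU h.hD e a).2)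
      (k2_no1 h.nd fun _ e a => hDE (h.htJ hW h.hE e a).2.symm)
      (k2_no1 h.nd fun _ e a => hDE (h.htL hW h.hE e a).2.symm) t1 t2 (by norm_num)

lemma K2.sing (h : K2 d i k j l c D E) (cU : #U = 1) (e : Em d U W ψ) : ¬ A2 j ψ ∧ ¬ A2 l ψ := by
  have H := card_le_one.1 cU.le
  refine ⟨fun a => ?_, fun a => ?_⟩
  · obtain ⟨x1, x2, -⟩ := h.apJ e a
    linarith [H _ x1 _ x2, h.hD]
  · obtain ⟨x1, x2, -⟩ := h.apL e a
    linarith [H _ x1 _ x2, h.hD]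

theorem kb_two (hd : ND d) (h1 : d 0 2 + d 1 3 = d 0 3 + d 1 2)
    (h2 : d 0 1 + d 2 3 ≠ d 0 2 + d 1 3) (h3 : d 0 2 < d 1 2) (h4 : d 0 2 < d 0 3) : Kb d := by
  have h : K2 d 0 1 2 3 (d 0 2) (d 1 2 - d 0 2) (d 0 3 - d 0 2) :=
    ⟨hd, by decide, rfl, by ring, by ring, by linarith, fun e => h2 (by linarith), by linarith,
      by linarith⟩
  have g := h.flip
  have s := hd.sy
  refine Kb.of_le hd fun U W a1 ab => ?_
  have hc : K2C d U W 0 1 2 3 := fun ψ e => by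
    rcases cover e with ⟨m, a⟩ | ⟨m, a⟩ | t | t | t | t | t | t
    · exact Or.inl ⟨m, Or.inl a⟩
    · exact Or.inl ⟨m, Or.inr a⟩
    · exact Or.inr (Or.inl t)
    · exact Or.inr (Or.inr t)
    all_goals
      obtain ⟨-, -, ⟨x1, x2, x3, x4⟩, -⟩ := Tw.data (by decide) e t
      exact absurd (by linarith [s 0 1, s 0 2, s 0 3, s 1 2, s 1 3, s 2 3]) h2
  have t1 := h.tb (fx_four (U := U) (W := W) hd h.cv)
  have t2 := g.tb (fx_four (U := U) (W := W) hd g.cv)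
  have f := k2_four (U := U) (W := W) hd
  by_cases cU : #U = 1
  · by_cases cW : #W = 1
    · exact k2_tot h.cv hc (k2_none (fun _ e => (g.sing cU e).1) fun _ e => (g.sing cW e).1)
        (k2_none (fun _ e => (g.sing cU e).2) fun _ e => (g.sing cW e).2)
        (k2_none (fun _ e => (h.sing cU e).1) fun _ e => (h.sing cW e).1)
        (k2_none (fun _ e => (h.sing cU e).2) fun _ e => (h.sing cW e).2) t1 t2
        (by rw [cU]; omega)
    · exact k2_tot h.cv hc (k2_no2 hd fun _ e => (g.sing cU e).1)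
        (k2_no2 hd fun _ e => (g.sing cU e).2) (k2_no2 hd fun _ e => (h.sing cU e).1)
        (k2_no2 hd fun _ e => (h.sing cU e).2) t1 t2 (by rw [cU]; omega)
  by_cases cW : #W = 2
  · have cU2 : #U = 2 := by omega
    rw [cU2, cW]
    by_cases p1 : ∃ ψ, Em d U W ψ ∧ Tw 0 1 2 3 ψ
    · obtain ⟨ψ, e, t⟩ := p1
      exact h.core cU2 cW hc e t
    by_cases p2 : ∃ ψ, Em d U W ψ ∧ Tw 2 3 0 1 ψ
    · obtain ⟨ψ, e, t⟩ := p2
      exact g.core cU2 cW hc.flip e t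
    exact k2_tot h.cv hc (f 0) (f 1) (f 2) (f 3) (Bd.zero fun ψ e t => p1 ⟨ψ, e, t⟩)
      (Bd.zero fun ψ e t => p2 ⟨ψ, e, t⟩) (by norm_num)
  · refine k2_tot h.cv hc (f 0) (f 1) (f 2) (f 3) t1 t2 ?_
    have b3 : 4 * #U * 3 ≤ 4 * #U * #W := Nat.mul_le_mul_left _ (by omega)
    omega

end Pool.Agent.P.MP_f7c707_co.Sh
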