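import Pool.Agent.P.MP_f7c707_co.ShT

/-!
One reflection.
-/

namespace Pool.Agent.P.MP_f7c707_co.Sh

open Finset Complex

variable {d : Tb}

/-- The exchange of the vertices `0` and `1`. -/
def k3_pi : Fin 4 → Fin 4 := ![1, 0, 2, 3]

lemma k3_id : Aut d id := ⟨Function.surjective_id, fun _ _ => rfl⟩

lemma k3_aut (hd : ND d) (h1 : d 0 2 = d 1 2) (h2 : d 0 3 = d 1 3) : Aut d k3_pi := by
  have e : ∀ i j : Fin 4, d i j = d j i := hd.sy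
  have g : ∀ i : Fin 4, d i i = 0 := hd.dg
  refine ⟨by decide, ?_⟩
  simp only [Fin.forall_fin_succ, IsEmpty.forall_iff, and_true]
  refine ⟨⟨?_, ?_, ?_, ?_⟩, ⟨?_, ?_, ?_, ?_⟩, ⟨?_, ?_, ?_, ?_⟩, ⟨?_, ?_, ?_, ?_⟩⟩
  · exact (g 1).trans (g 0).symm
  · exact e 1 0
  · exact h1.symm
  · exact h2.symm
  · exact e 0 1
  · exact (g 0).trans (g 1).symm
  · exact h1
  · exact h2
  · exact ((e 2 1).trans h1.symm).trans (e 0 2)
  · exact ((e 2 0).trans h1).trans (e 1 2)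
  · rfl
  · rfl
  · exact ((e 3 1).trans h2.symm).trans (e 0 3)
  · exact ((e 3 0).trans h2).trans (e 1 3)
  · rfl
  · rfl

/-- The four mixed types. -/
def k3_BC (ψ : Lb) : Prop := (Tw 0 2 1 3 ψ ∨ Tw 1 2 0 3 ψ) ∨ (Tw 0 3 1 2 ψ ∨ Tw 1 3 0 2 ψ)

lemma k3_BC_sw {ψ : Lb} (h : k3_BC ψ) : k3_BC (sw ψ) := by
  rcases h with (h | h) | (h | h)
  · exact Or.inr (Or.inr ⟨h.2.2.1, h.2.2.2, h.1, h.2.1⟩)
  · exact Or.inr (Or.inl ⟨h.2.2.1, h.2.2.2, h.1, h.2.1⟩)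
  · exact Or.inl (Or.inr ⟨h.2.2.1, h.2.2.2, h.1, h.2.1⟩)
  · exact Or.inl (Or.inl ⟨h.2.2.1, h.2.2.2, h.1, h.2.1⟩)

lemma k3_apex (hd : ND d) (h1 : d 0 2 = d 1 2) (h2 : d 0 3 = d 1 3) {U W : Finset ℝ} {p : ℕ}
    (hp : Bd d U W (A2 0) p) : Bd d U W (fun ψ => ∃ j, A2 j ψ) (p + 1 + 1) := by
  have a01 : Bd d U W (fun ψ => A2 0 ψ ∨ A2 1 ψ) p := by
    refine hp.rel fun ψ _ h => ?_
    rcases h with h | h
    · exact ⟨id, k3_id, h⟩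
    · refine ⟨k3_pi, k3_aut hd h1 h2, fun i hi => h (k3_pi i) ?_⟩
      revert i
      decide
  have a2 : Bd d U W (A2 2) 1 := bd_A2s hd (i := 0) (k := 1) (l := 3) (by decide) h2 h1
  have a3 : Bd d U W (A2 3) 1 := bd_A2s hd (i := 0) (k := 1) (l := 2) (by decide) h1 h2
  refine ((a01.or a2).or a3).mono (fun ψ _ h => ?_) le_rfl
  obtain ⟨j, hj⟩ := h
  have hc : Cov 0 1 2 3 := by decide
  rcases hc j with rfl | rfl | rfl | rfl
  · exact Or.inl (Or.inl (Or.inl hj))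
  · exact Or.inl (Or.inl (Or.inr hj))
  · exact Or.inl (Or.inr hj)
  · exact Or.inr hj

lemma k3_total (hd : ND d) (h1 : d 0 2 = d 1 2) (h2 : d 0 3 = d 1 3) (h3 : d 0 2 ≠ d 0 3)
    {U W : Finset ℝ} {p q t m : ℕ} (hp : Bd d U W (A2 0) p) (hq : Bd d W U (A2 0) q)
    (ht : Bd d U W (Tw 0 1 2 3) t) (hm : Bd d U W k3_BC m) :
    Bd d U W (fun _ => True) (p + 1 + 1 + (q + 1 + 1) + t + 2 * (#U - 1) + m) := by
  have e := hd.sy
  have t2 : Bd d U W (Tw 2 3 0 1) (2 * (#U - 1)) :=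
    Fx.lt_U (by decide) (fx_right hd (by decide)
      (Or.inl ⟨((e 2 0).trans h1).trans (e 1 2), ((e 3 0).trans h2).trans (e 1 3)⟩))
      (by rw [e 2 0, e 3 0]; exact h3)
  refine (((((k3_apex hd h1 h2 hp).or (k3_apex hd h1 h2 hq).swap).or ht).or t2).or hm).mono
    (fun ψ hψ _ => ?_) le_rfl
  rcases cover hψ with h | h | h | h | h | h | h | h
  · exact Or.inl (Or.inl (Or.inl (Or.inl h)))
  · exact Or.inl (Or.inl (Or.inl (Or.inr h)))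
  · exact Or.inl (Or.inl (Or.inr h))
  · exact Or.inl (Or.inr h)
  · exact Or.inr (Or.inl (Or.inl h))
  · exact Or.inr (Or.inr (Or.inr h))
  · exact Or.inr (Or.inr (Or.inl h))
  · exact Or.inr (Or.inl (Or.inr h))

lemma k3_mixed (hd : ND d) (h1 : d 0 2 = d 1 2) (h2 : d 0 3 = d 1 3)
    (h4 : d 0 1 + d 2 3 = d 0 2 + d 0 3 → d 0 1 ≠ d 0 2 ∧ d 0 1 ≠ d 0 3) (U W : Finset ℝ) :
    Bd d U W k3_BC (4 * (#U - 1) + 4 * (#U - 1)) := by
  have e := hd.sy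
  have b1 : Bd d U W (Tw 0 2 1 3) (4 * (#U - 1)) := by
    refine Bd.of_ex fun ψ hψ t => ?_
    obtain ⟨-, -, ⟨a1, a2, a3, a4⟩, -⟩ := Tw.data (by decide) hψ t
    have := e 2 1
    refine Fx.lt_U (by decide) (fx_four hd (by decide)) ?_
    rw [e 2 1, ← h1]
    exact (h4 (by linarith)).1
  have b2 : Bd d U W (Tw 0 3 1 2) (4 * (#U - 1)) := by
    refine Bd.of_ex fun ψ hψ t => ?_
    obtain ⟨-, -, ⟨a1, a2, a3, a4⟩, -⟩ := Tw.data (by decide) hψ t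
    have := e 3 1
    have := e 3 2
    refine Fx.lt_U (by decide) (fx_four hd (by decide)) ?_
    rw [e 3 1, ← h2]
    exact (h4 (by linarith)).2
  refine Bd.or (b1.rel fun ψ _ h => ?_) (b2.rel fun ψ _ h => ?_)
  · rcases h with h | h
    · exact ⟨id, k3_id, h⟩
    · exact ⟨k3_pi, k3_aut hd h1 h2, h⟩
  · rcases h with h | h
    · exact ⟨id, k3_id, h⟩
    · exact ⟨k3_pi, k3_aut hd h1 h2, h⟩

/-- With one radius in the first plane the apex is not `0`. -/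
lemma k3_no_one (hd : ND d) (h1 : d 0 2 = d 1 2) (h2 : d 0 3 = d 1 3) (h3 : d 0 2 ≠ d 0 3)
    (h4 : d 0 1 + d 2 3 = d 0 2 + d 0 3 → d 0 1 ≠ d 0 2 ∧ d 0 1 ≠ d 0 3) {U W : Finset ℝ}
    (hU : #U ≤ 1) : Bd d U W (A2 0) 0 := by
  refine Bd.zero fun ψ hψ a => ?_
  obtain ⟨-, -, hh⟩ := A2.data hd hψ a
  have one := card_le_one.1 hU
  have s1 := hd.sy 1 0
  have s2 := hd.sy 2 0
  have s3 := hd.sy 3 0
  have s4 := hd.sy 3 2
  rcases hh 2 (by decide) with ⟨u2, -⟩ | ⟨-, o2⟩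
  · rcases hh 3 (by decide) with ⟨u3, -⟩ | ⟨-, o3⟩
    · have := one _ u2 _ u3
      exact h3 (by linarith)
    · obtain ⟨x1, y1⟩ := o3 1 (by decide) (by decide)
      obtain ⟨x2, y2⟩ := o3 2 (by decide) (by decide)
      have := one _ y1 _ y2
      exact (h4 (by linarith)).1 (by linarith)
  · obtain ⟨x1, y1⟩ := o2 1 (by decide) (by decide)
    obtain ⟨x2, y2⟩ := o2 3 (by decide) (by decide)
    have := one _ y1 _ y2
    exact (h4 (by linarith)).2 (by linarith)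

lemma k3_three {U : Finset ℝ} (hU : #U ≤ 2) {x y z : ℝ} (hx : x ∈ U) (hy : y ∈ U) (hz : z ∈ U) :
    x = y ∨ x = z ∨ y = z := by
  by_contra hc
  push Not at hc
  have : 2 < #U := two_lt_card.2 ⟨x, hx, y, hy, z, hz, hc.1, hc.2.1, hc.2.2⟩
  omega

/-- The radii of a mixed copy. -/
lemma k3_data (hd : ND d) (h1 : d 0 2 = d 1 2) (h2 : d 0 3 = d 1 3) {U W : Finset ℝ} {ψ : Lb}
    (hψ : Em d U W ψ) (h : k3_BC ψ) : ∃ r ∈ U, ∃ r' ∈ U, ∃ s s' : ℝ, 0 < s ∧ 0 < s' ∧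
      r + s = d 0 1 ∧ r' + s' = d 2 3 ∧
      (r + s' = d 0 3 ∧ r' + s = d 0 2 ∨ r + s' = d 0 2 ∧ r' + s = d 0 3) := by
  have e := hd.sy
  rcases h with (t | t) | (t | t)
  · obtain ⟨⟨u1, u2, -⟩, ⟨-, -, p1, p2⟩, ⟨a1, a2, a3, a4⟩, -⟩ := Tw.data (by decide) hψ t
    exact ⟨_, u1, _, u2, _, _, p1, p2, a1, a4, Or.inl ⟨a2, a3.trans ((e 2 1).trans h1.symm)⟩⟩
  · obtain ⟨⟨u1, u2, -⟩, ⟨-, -, p1, p2⟩, ⟨a1, a2, a3, a4⟩, -⟩ := Tw.data (by decide) hψ t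
    exact ⟨_, u1, _, u2, _, _, p1, p2, a1.trans (e 1 0), a4,
      Or.inl ⟨a2.trans h2.symm, a3.trans (e 2 0)⟩⟩
  · obtain ⟨⟨u1, u2, -⟩, ⟨-, -, p1, p2⟩, ⟨a1, a2, a3, a4⟩, -⟩ := Tw.data (by decide) hψ t
    exact ⟨_, u1, _, u2, _, _, p1, p2, a1, a4.trans (e 3 2),
      Or.inr ⟨a2, a3.trans ((e 3 1).trans h2.symm)⟩⟩
  · obtain ⟨⟨u1, u2, -⟩, ⟨-, -, p1, p2⟩, ⟨a1, a2, a3, a4⟩, -⟩ := Tw.data (by decide) hψ t
    exact ⟨_, u1, _, u2, _, _, p1, p2, a1.trans (e 1 0), a4.trans (e 3 2),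
      Or.inr ⟨a2.trans h1.symm, a3.trans (e 3 0)⟩⟩

/-- With two radii in the first plane and a mixed copy the apex is not `0`. -/
lemma k3_no_two (hd : ND d) (h1 : d 0 2 = d 1 2) (h2 : d 0 3 = d 1 3) (h3 : d 0 2 ≠ d 0 3)
    (h4 : d 0 1 + d 2 3 = d 0 2 + d 0 3 → d 0 1 ≠ d 0 2 ∧ d 0 1 ≠ d 0 3) {U W : Finset ℝ}
    (hU : #U ≤ 2) {φ : Lb} (hφ : Em d U W φ) (hm : k3_BC φ) : Bd d U W (A2 0) 0 := by
  refine Bd.zero fun ψ hψ a => ?_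
  obtain ⟨-, -, hh⟩ := A2.data hd hψ a
  obtain ⟨r, hr, r', hr', s, s', hs, hs', e1, e2, e3⟩ := k3_data hd h1 h2 hφ hm
  obtain ⟨n1, n2⟩ := h4 (by rcases e3 with e3 | e3 <;> linarith [e3.1, e3.2])
  have s1 := hd.sy 1 0
  have s2 := hd.sy 2 0
  have s3 := hd.sy 3 0
  have s4 := hd.sy 3 2
  have s5 := hd.sy 2 1
  have p01 := hd.ps 0 1 (by decide)
  rcases hh 2 (by decide) with ⟨u2, -⟩ | ⟨-, o2⟩
  · rcases hh 3 (by decide) with ⟨u3, -⟩ | ⟨-, o3⟩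
    · rcases hh 1 (by decide) with ⟨u1, -⟩ | ⟨-, o1⟩
      · rcases k3_three hU u1 u2 u3 with h | h | h
        · exact n1 (by linarith)
        · exact n2 (by linarith)
        · exact h3 (by linarith)
      · obtain ⟨x1, -⟩ := o1 2 (by decide) (by decide)
        linarith
    · obtain ⟨x1, y1⟩ := o3 1 (by decide) (by decide)
      obtain ⟨x2, y2⟩ := o3 2 (by decide) (by decide)
      rcases k3_three hU y1 y2 hr with h | h | h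
      · exact n1 (by linarith)
      all_goals
        rcases k3_three hU y1 y2 hr' with h' | h' | h'
        · exact n1 (by linarith)
        · rcases e3 with ⟨e3, e4⟩ | ⟨e3, e4⟩ <;> linarith
        · rcases e3 with ⟨e3, e4⟩ | ⟨e3, e4⟩ <;> linarith
  · obtain ⟨x1, y1⟩ := o2 1 (by decide) (by decide)
    obtain ⟨x2, y2⟩ := o2 3 (by decide) (by decide)
    rcases k3_three hU y1 y2 hr with h | h | h
    · exact n2 (by linarith)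
    all_goals
      rcases k3_three hU y1 y2 hr' with h' | h' | h'
      · exact n2 (by linarith)
      · rcases e3 with ⟨e3, e4⟩ | ⟨e3, e4⟩ <;> linarith
      · rcases e3 with ⟨e3, e4⟩ | ⟨e3, e4⟩ <;> linarith

theorem kb_t (hd : ND d) (h1 : d 0 2 = d 1 2) (h2 : d 0 3 = d 1 3) (h3 : d 0 2 ≠ d 0 3)
    (h4 : d 0 1 + d 2 3 = d 0 2 + d 0 3 → d 0 1 ≠ d 0 2 ∧ d 0 1 ≠ d 0 3) : Kb d := by
  refine Kb.of_le hd fun U W ha hab => ?_
  have fx : Fx d U W 0 1 2 3 2 := fx_left hd (by decide) (Or.inl ⟨h1, h2⟩)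
  have tU : Bd d U W (Tw 0 1 2 3) (2 * #U) := Fx.le_U (by decide) fx
  have tW : Bd d U W (Tw 0 1 2 3) (2 * (#W - 1)) := Fx.lt_W (by decide) fx h3
  have hm := k3_mixed hd h1 h2 h4 U W
  by_cases hb : 3 ≤ #W
  · refine (k3_total hd h1 h2 h3 (bd_A2 hd 0) (bd_A2 hd 0) tU hm).mono (fun _ _ h => h) ?_
    have : 4 * #U * 3 ≤ 4 * #U * #W := Nat.mul_le_mul_left _ hb
    omega
  by_cases ha1 : #U ≤ 1
  · have z := k3_no_one hd h1 h2 h3 h4 (W := W) ha1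
    have hU : #U = 1 := by omega
    by_cases hb1 : #W ≤ 1
    · refine (k3_total hd h1 h2 h3 z (k3_no_one hd h1 h2 h3 h4 hb1) tW hm).mono
        (fun _ _ h => h) ?_
      have hW : #W = 1 := by omega
      rw [hU, hW]
    · refine (k3_total hd h1 h2 h3 z (bd_A2 hd 0) tU hm).mono (fun _ _ h => h) ?_
      have hW : #W = 2 := by omega
      rw [hU, hW]
  have hU : #U = 2 := by omega
  have hW : #W = 2 := by omega
  by_cases hx : ∃ φ, Em d U W φ ∧ k3_BC φ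
  · obtain ⟨φ, hφ, hφ'⟩ := hx
    refine (k3_total hd h1 h2 h3 (k3_no_two hd h1 h2 h3 h4 hU.le hφ hφ')
      (k3_no_two hd h1 h2 h3 h4 hW.le hφ.sw (k3_BC_sw hφ')) tW hm).mono (fun _ _ h => h) ?_
    rw [hU, hW]
  · refine (k3_total hd h1 h2 h3 (bd_A2 hd 0) (bd_A2 hd 0) tW
      (Bd.zero fun φ a b => hx ⟨φ, a, b⟩)).mono (fun _ _ h => h) ?_
    rw [hU, hW]
    norm_num

end Pool.Agent.P.MP_f7c707_co.Sh
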