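import Pool.Agent.P.MP_f7c707_co.ShT

/-!
Orthocentric simplices without reflection.
-/

namespace Pool.Agent.P.MP_f7c707_co.Sh

open Finset Complex

variable {d : Tb}

/-- The copy has shift `L`. -/
def K4S (t : Fin 4 → ℝ) (L : ℝ) (ψ : Lb) : Prop :=
  (∀ i, (ψ i).1 ≠ 0 → normSq (ψ i).1 = t i + L) ∧ (∀ i, (ψ i).2 ≠ 0 → normSq (ψ i).2 = t i + -L) ∧
    ∀ i, (ψ i).1 = 0 → (ψ i).2 = 0 → t i = 0 ∧ L = 0

/-- The vertices that fit on a circle of the list. -/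
def K4I (t : Fin 4 → ℝ) (U : Finset ℝ) (L : ℝ) (I : Fin 4 → Bool) : Prop :=
  ∀ i, I i = true ↔ t i + L ∈ U ∧ 0 < t i + L

/-- The bound for the apex types. -/
def k4B (I J : Fin 4 → Bool) (z : Bool) : ℕ :=
  if ∀ i, I i = true then 2 else
    ∑ j, if J j = true ∧ ∀ i, i ≠ j → I i = true ∨ (i = 0 ∧ z = true) then 2 else 0

/-- The bound for one two-two type. -/
def k4T (I J : Fin 4 → Bool) (i k j l : Fin 4) : ℕ :=
  if I i = true ∧ I k = true ∧ J j = true ∧ J l = true then 4 else 0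

/-- The weights. -/
def k4W : Fin 4 → Fin 4 → ℕ := ![![2, 1, 1, 0], ![1, 0, 1, 1], ![1, 1, 0, 1], ![0, 1, 1, 2]]

/-- The weight of a shift. -/
def k4E (I J : Fin 4 → Bool) : ℕ := ∑ i, ∑ j, if I i = true ∧ J j = true then k4W i j else 0

set_option synthInstance.maxSize 4096 in
lemma k4_dec : ∀ I J : Fin 4 → Bool, ∀ z : Bool, (z = true → I 0 = false ∧ J 0 = false) →
    (∃ i, I i = true) → (∃ j, J j = true) →
    k4B I J z + (k4B J I z + (k4T I J 0 1 2 3 + (k4T I J 2 3 0 1 + (k4T I J 0 2 1 3 +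
      (k4T I J 1 3 0 2 + (k4T I J 0 3 1 2 + k4T I J 1 2 0 3)))))) ≤ 2 * k4E I J := by
  decide +kernel

set_option synthInstance.maxSize 4096 in
lemma k4_chain : ∀ i j k l : Fin 4, k4W i j ≠ 0 → k4W k l ≠ 0 →
    ((i = k ∧ j = l) ∨ (i = l ∧ j = k)) ∨ (i < k ∧ j ≤ l) ∨ (j < l ∧ i ≤ k) ∨ (i < l ∧ j ≤ k) ∨
      (j < k ∧ i ≤ l) ∨ (k < i ∧ l ≤ j) ∨ (l < j ∧ k ≤ i) ∨ (l < i ∧ k ≤ j) ∨ (k < j ∧ l ≤ i) := by
  decide +kernel

lemma k4_pair : ∀ k l : Fin 4,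
    ∑ i, ∑ j, (if (i = k ∧ j = l) ∨ (i = l ∧ j = k) then k4W i j else 0) ≤ 2 := by
  decide +kernel

lemma k4_cov : ∀ j j' : Fin 4, j ≠ j' → ∃ i k, Cov i k j' j ∧ Cov i k j j' := by
  decide +kernel

variable {t : Fin 4 → ℝ} {U W : Finset ℝ} {L : ℝ} {I J : Fin 4 → Bool} {z : Bool} {ψ ψ' : Lb}
  {i k j l : Fin 4}

lemma k4_two (ht : StrictMono t) (x : ℝ) :
    ∑ i, ∑ j, (if x = t i + t j then k4W i j else 0) ≤ 2 := by
  by_cases h : ∃ k l, k4W k l ≠ 0 ∧ x = t k + t l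
  · obtain ⟨k, l, h1, rfl⟩ := h
    refine le_trans (sum_le_sum fun i _ => sum_le_sum fun j _ => ?_) (k4_pair k l)
    by_cases h2 : k4W i j = 0
    · simp [h2]
    split_ifs with h3 h4
    · exact le_rfl
    · exfalso
      rcases (k4_chain i j k l h2 h1).resolve_left h4 with h | h | h | h | h | h | h | h <;>
        linarith [ht h.1, ht.monotone h.2]
    · exact Nat.zero_le _
    · exact le_rfl
  · push Not at h
    refine (sum_eq_zero fun i _ => sum_eq_zero fun j _ => ?_).trans_le (Nat.zero_le _)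
    split_ifs with h3
    · by_contra h4
      exact h i j h4 h3
    · rfl

lemma k4_sum (ht : StrictMono t) (S : Finset ℝ) {I J : ℝ → Fin 4 → Bool}
    (hI : ∀ L, K4I t U L (I L)) (hJ : ∀ L, K4I t W (-L) (J L)) :
    ∑ L ∈ S, k4E (I L) (J L) ≤ 2 * #U * #W := by
  classical
  calc ∑ L ∈ S, k4E (I L) (J L)
      = ∑ i, ∑ j, ∑ L ∈ S, if I L i = true ∧ J L j = true then k4W i j else 0 := by
        unfold k4E
        rw [sum_comm]
        exact sum_congr rfl fun i _ => sum_comm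
    _ ≤ ∑ i, ∑ j, ∑ p ∈ U ×ˢ W, if p.1 + p.2 = t i + t j then k4W i j else 0 := by
        refine sum_le_sum fun i _ => sum_le_sum fun j _ => ?_
        rw [← sum_filter, ← sum_filter, sum_const, sum_const, smul_eq_mul, smul_eq_mul]
        refine Nat.mul_le_mul_right _ (card_le_card_of_injOn (fun L => (t i + L, t j + -L))
          (fun L hL => ?_) fun a _ b _ e => add_left_cancel (congrArg Prod.fst e))
        have h := (mem_filter.1 hL).2
        exact mem_filter.2 ⟨mem_product.2 ⟨((hI L i).1 h.1).1, ((hJ L j).1 h.2).1⟩, by ring⟩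
    _ = ∑ p ∈ U ×ˢ W, ∑ i, ∑ j, if p.1 + p.2 = t i + t j then k4W i j else 0 := by
        rw [sum_comm (s := U ×ˢ W)]
        exact sum_congr rfl fun i _ => sum_comm
    _ ≤ ∑ _p ∈ U ×ˢ W, 2 := sum_le_sum fun p _ => k4_two ht _
    _ = 2 * #U * #W := by rw [sum_const, card_product, smul_eq_mul]; ring

lemma K4S.sw (s : K4S t L ψ) : K4S t (-L) (sw ψ) :=
  ⟨s.2.1, fun i hi => by rw [neg_neg]; exact s.1 i hi,
    fun i a b => ⟨(s.2.2 i b a).1, neg_eq_zero.2 (s.2.2 i b a).2⟩⟩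

lemma K4S.left (s : K4S t L ψ) (e : Em d U W ψ) (hI : K4I t U L I) (hi : (ψ i).1 ≠ 0) :
    I i = true := (hI i).2 (s.1 i hi ▸ ⟨e.hU i hi, normSq_pos.2 hi⟩)

lemma K4S.right (s : K4S t L ψ) (e : Em d U W ψ) (hJ : K4I t W (-L) J) (hi : (ψ i).2 ≠ 0) :
    J i = true := s.sw.left e.sw hJ hi

lemma k4_off (hd : ND d) (e : Em d U W ψ) : ∃ j, (ψ j).2 ≠ 0 := by
  by_contra! h
  exact (A2.top (j := 0) hd e fun i _ => h i).2 (h 0)

lemma k4_shift (hd : ND d) (h : ∀ i j, i ≠ j → d i j = t i + t j) (e : Em d U W ψ) :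
    ∃ i, ∃ r ∈ U, K4S t (r - t i) ψ := by
  obtain ⟨j₀, hj⟩ := k4_off hd e
  obtain ⟨i₀, hi⟩ : ∃ i, (ψ i).1 ≠ 0 := k4_off hd e.sw
  have h1 : ∀ i j, i ≠ j → (ψ i).2 = 0 → (ψ j).1 = 0 →
      normSq (ψ i).1 + normSq (ψ j).2 = t i + t j := fun i j hij a b => by
    rw [← h i j hij, ← e.ds, D2, a, b, sub_zero, zero_sub, normSq_neg]
  have h2 : ∀ j, (ψ j).1 = 0 → normSq (ψ j).2 = t j + -(normSq (ψ i₀).1 - t i₀) := fun j a => by
    linarith [h1 i₀ j (by rintro rfl; exact hi a) ((e.fr i₀).resolve_left hi) a]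
  have h3 : ∀ i, (ψ i).2 = 0 → normSq (ψ i).1 = t i + (normSq (ψ i₀).1 - t i₀) := fun i a => by
    linarith [h1 i j₀ (by rintro rfl; exact hj a) a ((e.fr j₀).resolve_right hj),
      h2 j₀ ((e.fr j₀).resolve_right hj)]
  refine ⟨i₀, _, e.hU i₀ hi, fun i a => h3 i ((e.fr i).resolve_left a),
    fun i a => h2 i ((e.fr i).resolve_right a), fun i a b => ?_⟩
  have h4 := h2 i a
  have h5 := h3 i b
  rw [b, map_zero] at h4
  rw [a, map_zero] at h5
  constructor <;> linarith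

lemma k4_det (hd : ND d) (h : ∀ i j, i ≠ j → d i j = t i + t j) (c : Cov i k l j)
    (e : Em d U W ψ) (a : A2 j ψ) (s : K4S t L ψ) :
    t i * t k * t l + L * (t i * t k + (t i + t k) * t l) = 0 := by
  have h1 := A2.det hd c e a
  obtain ⟨n1, n2, n3, n4, n5, n6⟩ := c.ne
  rw [s.2.1 j (A2.top hd e a).2, h _ _ n1, h _ _ n2, h _ _ n3, h _ _ n4, h _ _ n5, h _ _ n6,
    gd] at h1
  linear_combination h1

lemma k4_uniq (hd : ND d) (ht : StrictMono t) (h : ∀ i j, i ≠ j → d i j = t i + t j)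
    (hL : ∀ i, 0 < t i + L) (e : Em d U W ψ) (a : A2 j ψ) (s : K4S t L ψ) (e' : Em d U W ψ')
    (a' : A2 l ψ') (s' : K4S t L ψ') : j = l := by
  by_contra hne
  obtain ⟨i, k, c, c'⟩ := k4_cov j l hne
  have h1 := k4_det hd h c e a s
  have h2 := k4_det hd h c' e' a' s'
  have h3 : t i * t k + L * (t i + t k) = 0 :=
    mul_left_cancel₀ (sub_ne_zero.2 (ht.injective.ne hne)) (by linear_combination h2 - h1)
  have h4 : L * (t i * t k) = 0 := by linear_combination h1 - t l * h3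
  have h5 := hd.ps i k c.ne.1
  rw [h i k c.ne.1] at h5
  have h6 := hL i
  have h7 := hL k
  rcases mul_eq_zero.1 h4 with h0 | h0
  · rw [h0, add_zero] at h6 h7
    rw [h0, zero_mul, add_zero] at h3
    exact (mul_pos h6 h7).ne' h3
  · rw [h0, zero_add] at h3
    have h8 := (mul_eq_zero.1 h3).resolve_right h5.ne'
    rw [h8, add_zero] at h6 h7
    exact (mul_pos h6 h7).ne' h0

lemma k4_A (hd : ND d) (ht : StrictMono t) (h : ∀ i j, i ≠ j → d i j = t i + t j)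
    (hI : K4I t U L I) (hJ : K4I t W (-L) J) (hz : t 0 = 0 → L = 0 → z = true) :
    Bd d U W (fun ψ => (∃ j, A2 j ψ) ∧ K4S t L ψ) (k4B I J z) := by
  unfold k4B
  split_ifs with h1
  · refine Bd.of_ex fun ψ e ⟨⟨j, a⟩, s⟩ => (bd_A2 hd j).mono (fun ψ' e' ⟨⟨l, a'⟩, s'⟩ => ?_) le_rfl
    exact k4_uniq hd ht h (fun i => ((hI i).1 (h1 i)).2) e a s e' a' s' ▸ a'
  · refine Bd.sum univ (fun j ψ => A2 j ψ ∧ K4S t L ψ) _ (fun j _ => ?_)
      fun ψ _ ⟨⟨j, a⟩, s⟩ => ⟨j, mem_univ _, a, s⟩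
    split_ifs with h2
    · exact (bd_A2 hd j).mono (fun _ _ h => h.1) le_rfl
    · refine Bd.zero fun ψ e ⟨a, s⟩ => h2 ⟨s.right e hJ (A2.top hd e a).2, fun i hi => ?_⟩
      by_cases h3 : (ψ i).1 = 0
      · obtain ⟨h4, h5⟩ := s.2.2 i h3 (a i hi)
        obtain rfl : i = 0 := by
          by_contra h6
          have h7 := hd.ps i 0 h6
          rw [h i 0 h6] at h7
          linarith [ht (Fin.pos_iff_ne_zero.2 h6)]
        exact Or.inr ⟨rfl, hz h4 h5⟩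
      · exact Or.inl (s.left e hI h3)

lemma k4_T (hd : ND d) (hI : K4I t U L I) (hJ : K4I t W (-L) J) (c : Cov i k j l) :
    Bd d U W (fun ψ => Tw i k j l ψ ∧ K4S t L ψ) (k4T I J i k j l) := by
  unfold k4T
  split_ifs with h1
  · exact (fx_four hd c (t i + L)).mono (fun ψ _ h => ⟨h.1, h.2.1 i h.1.1⟩) le_rfl
  · exact Bd.zero fun ψ e ⟨a, s⟩ => h1 ⟨s.left e hI a.1, s.left e hI a.2.1,
      s.right e hJ a.2.2.1, s.right e hJ a.2.2.2⟩

lemma k4_L (hd : ND d) (ht : StrictMono t) (h : ∀ i j, i ≠ j → d i j = t i + t j)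
    (hI : K4I t U L I) (hJ : K4I t W (-L) J) : Bd d U W (K4S t L) (2 * k4E I J) := by
  obtain ⟨z, hz⟩ : ∃ z : Bool, z = true ↔ t 0 = 0 ∧ L = 0 := by
    classical exact ⟨decide _, decide_eq_true_iff⟩
  refine Bd.of_ex fun ψ₀ e₀ s₀ => ((k4_A hd ht h hI hJ fun a b => hz.2 ⟨a, b⟩).or
    ((k4_A (L := -L) hd ht h hJ (by rwa [neg_neg]) fun a b => hz.2 ⟨a, neg_eq_zero.1 b⟩).swap.or
    ((k4_T hd hI hJ (by decide)).or ((k4_T hd hI hJ (by decide)).or
    ((k4_T hd hI hJ (by decide)).or ((k4_T hd hI hJ (by decide)).or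
    ((k4_T hd hI hJ (by decide)).or (k4_T hd hI hJ (by decide))))))))).mono
    (fun ψ e s => ?_) (k4_dec I J z (fun h1 => ?_) ?_ ?_)
  · exact (cover e).imp (⟨·, s⟩) (Or.imp (⟨·, s.sw⟩) (Or.imp (⟨·, s⟩) (Or.imp (⟨·, s⟩)
      (Or.imp (⟨·, s⟩) (Or.imp (⟨·, s⟩) (Or.imp (⟨·, s⟩) (⟨·, s⟩)))))))
  · obtain ⟨a, b⟩ := hz.1 h1
    constructor
    · exact Bool.eq_false_iff.2 fun h2 => by linarith [((hI 0).1 h2).2]
    · exact Bool.eq_false_iff.2 fun h2 => by linarith [((hJ 0).1 h2).2]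
  · exact (k4_off hd e₀.sw).imp fun i hi => s₀.left e₀ hI hi
  · exact (k4_off hd e₀).imp fun i hi => s₀.right e₀ hJ hi

theorem kb_three (hd : ND d) (t : Fin 4 → ℝ) (ht : StrictMono t)
    (h : ∀ i j, i ≠ j → d i j = t i + t j) : Kb d := by
  intro U W
  have h1 : ∀ (U : Finset ℝ) (L : ℝ), ∃ I, K4I t U L I := fun U L => by
    classical exact ⟨fun i => decide _, fun i => decide_eq_true_iff⟩
  choose I hI using h1
  classical
  refine (Bd.sum ((univ ×ˢ U).image fun p : Fin 4 × ℝ => p.2 - t p.1) (K4S t) _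
    (fun L _ => k4_L hd ht h (hI U L) (hI W (-L))) fun ψ e _ => ?_).mono (fun _ _ h => h) ?_
  · obtain ⟨i, r, hr, s⟩ := k4_shift hd h e
    exact ⟨_, mem_image.2 ⟨(i, r), mem_product.2 ⟨mem_univ _, hr⟩, rfl⟩, s⟩
  · rw [← mul_sum]
    exact (Nat.mul_le_mul_left 2 (k4_sum ht _ (hI U) fun L => hI W (-L))).trans_eq (by ring)

end Pool.Agent.P.MP_f7c707_co.Sh
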