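import Pool.Agent.P.MP_f7c707_co.ShK1
import Pool.Agent.P.MP_f7c707_co.ShK2
import Pool.Agent.P.MP_f7c707_co.ShK3
import Pool.Agent.P.MP_f7c707_co.ShK4

/-!
The class count for every simplex.
-/

namespace Pool.Agent.P.MP_f7c707_co.Sh

open Finset Complex

variable {d : Tb} {i k j l : Fin 4}

lemma shk_surj (c : Cov i k j l) : Function.Surjective (![i, k, j, l] : Fin 4 → Fin 4) := by
  intro m
  rcases c m with h | h | h | h
  · exact ⟨0, h.symm⟩
  · exact ⟨1, h.symm⟩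
  · exact ⟨2, h.symm⟩
  · exact ⟨3, h.symm⟩

lemma shk_tc (hd : ND d) (c : Cov i k j l) (h1 : d i k = d i j) (h2 : d i k = d k j)
    (h3 : d i l = d k l) (h4 : d i l = d j l) (h5 : d i k ≠ d i l) : Kb d :=
  Kb.perm (shk_surj c) (kb_tc (hd.comp (shk_surj c)) h1 h2 h3 h4 h5)

lemma shk_tr0 (hd : ND d) (h1 : d 0 2 = d 1 2) (h2 : d 0 3 = d 1 3) : Kb d := by
  by_cases h3 : d 0 2 = d 0 3
  · by_cases h4 : d 0 1 ≠ d 0 2 ∨ d 2 3 ≠ d 0 2
    · exact kb_tt hd h1 h3 (h3.trans h2) h4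
    · rw [not_or, not_not, not_not] at h4
      exact kb_reg hd h4.1.symm (by linarith [h4.1]) (by linarith [h4.1]) (by linarith [h4.1])
        (by linarith [h4.1, h4.2])
  · by_cases h4 : d 0 1 + d 2 3 = d 0 2 + d 0 3
    · by_cases h5 : d 0 1 = d 0 2
      · exact kb_tc hd h5 (h5.trans h1) h2 (by linarith) fun h => h3 (h5.symm.trans h)
      · by_cases h6 : d 0 1 = d 0 3
        · have := hd.sy 3 2
          exact shk_tc hd (i := 0) (k := 1) (j := 3) (l := 2) (by decide) h6 (h6.trans h2) h1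
            (by linarith) h5
        · exact kb_t hd h1 h2 h3 fun _ => ⟨h5, h6⟩
    · exact kb_t hd h1 h2 h3 fun h => absurd h h4

lemma shk_tr (hd : ND d) (c : Cov i k j l) (h1 : d i j = d k j) (h2 : d i l = d k l) : Kb d :=
  Kb.perm (shk_surj c) (shk_tr0 (hd.comp (shk_surj c)) h1 h2)

lemma shk_lt (hd : ND d) (c : Cov i k j l) (h1 : d i j + d k l = d i l + d k j)
    (h2 : d i k + d j l ≠ d i j + d k l) (h3 : d i j < d k j) (h4 : d i j < d i l) : Kb d :=
  Kb.perm (shk_surj c) (kb_two (hd.comp (shk_surj c)) h1 h2 h3 h4)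

lemma shk_two0 (hd : ND d) (h1 : d 0 2 + d 1 3 = d 0 3 + d 1 2)
    (h2 : d 0 1 + d 2 3 ≠ d 0 2 + d 1 3) : Kb d := by
  have s1 := hd.sy 1 0
  have s2 := hd.sy 3 2
  have s3 := hd.sy 2 0
  have s4 := hd.sy 3 0
  have s5 := hd.sy 2 1
  have s6 := hd.sy 3 1
  rcases lt_trichotomy (d 0 2) (d 0 3) with hy | hy | hy
  · rcases lt_trichotomy (d 0 2) (d 1 2) with hx | hx | hx
    · exact kb_two hd h1 h2 hx hy
    · exact shk_tr0 hd hx (by linarith)
    · exact shk_lt hd (i := 1) (k := 0) (j := 2) (l := 3) (by decide) (by linarith)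
        (fun h => h2 (by linarith)) hx (by linarith)
  · exact shk_tr hd (i := 2) (k := 3) (j := 0) (l := 1) (by decide) (by linarith) (by linarith)
  · rcases lt_trichotomy (d 0 2) (d 1 2) with hx | hx | hx
    · exact shk_lt hd (i := 0) (k := 1) (j := 3) (l := 2) (by decide) (by linarith)
        (fun h => h2 (by linarith)) (by linarith) hy
    · exact shk_tr0 hd hx (by linarith)
    · exact shk_lt hd (i := 1) (k := 0) (j := 3) (l := 2) (by decide) (by linarith)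
        (fun h => h2 (by linarith)) (by linarith) (by linarith)

lemma shk_two (hd : ND d) (c : Cov i k j l) (h1 : d i j + d k l = d i l + d k j)
    (h2 : d i k + d j l ≠ d i j + d k l) : Kb d :=
  Kb.perm (shk_surj c) (shk_two0 (hd.comp (shk_surj c)) h1 h2)

lemma shk_cov : ∀ i k : Fin 4, i ≠ k → ∃ j l : Fin 4, Cov i k j l := by decide

lemma shk_sum (hd : ND d) (t : Fin 4 → ℝ) (h : ∀ i j, i ≠ j → d i j = t i + t j) : Kb d := by
  by_cases ht : Function.Injective t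
  · have hs : Function.Surjective (Tuple.sort t) := (Tuple.sort t).surjective
    refine Kb.perm hs (kb_three (hd.comp hs) (t ∘ Tuple.sort t) ?_ fun a b hab => ?_)
    · exact (Tuple.monotone_sort t).strictMono_of_injective (ht.comp (Tuple.sort t).injective)
    · exact h _ _ ((Tuple.sort t).injective.ne hab)
  · obtain ⟨a, b, e, hab⟩ := Function.not_injective_iff.1 ht
    obtain ⟨x, y, c⟩ := shk_cov a b hab
    obtain ⟨-, n1, n2, n3, n4, -⟩ := c.ne
    exact shk_tr hd c (by rw [h _ _ n1, h _ _ n3, e]) (by rw [h _ _ n2, h _ _ n4, e])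

lemma shk_three (hd : ND d) (h1 : d 0 1 + d 2 3 = d 0 2 + d 1 3)
    (h2 : d 0 2 + d 1 3 = d 0 3 + d 1 2) : Kb d := by
  have s1 := hd.sy 1 0
  have s2 := hd.sy 3 2
  have s3 := hd.sy 2 0
  have s4 := hd.sy 3 0
  have s5 := hd.sy 2 1
  have s6 := hd.sy 3 1
  obtain ⟨t, t0, t1, t2, t3⟩ : ∃ t : Fin 4 → ℝ, t 0 = (d 0 1 + d 0 2 - d 1 2) / 2 ∧
      t 1 = (d 0 1 - d 0 2 + d 1 2) / 2 ∧ t 2 = (d 0 2 - d 0 1 + d 1 2) / 2 ∧
      t 3 = d 0 3 - (d 0 1 + d 0 2 - d 1 2) / 2 :=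
    ⟨![(d 0 1 + d 0 2 - d 1 2) / 2, (d 0 1 - d 0 2 + d 1 2) / 2, (d 0 2 - d 0 1 + d 1 2) / 2,
      d 0 3 - (d 0 1 + d 0 2 - d 1 2) / 2], rfl, rfl, rfl, rfl⟩
  refine shk_sum hd t ?_
  simp only [Fin.forall_fin_succ, IsEmpty.forall_iff, and_true]
  refine ⟨⟨?_, ?_, ?_, ?_⟩, ⟨?_, ?_, ?_, ?_⟩, ⟨?_, ?_, ?_, ?_⟩, ?_, ?_, ?_, ?_⟩
  · exact fun h => absurd rfl h
  · exact fun _ => show d 0 1 = t 0 + t 1 by linarith
  · exact fun _ => show d 0 2 = t 0 + t 2 by linarith
  · exact fun _ => show d 0 3 = t 0 + t 3 by linarith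
  · exact fun _ => show d 1 0 = t 1 + t 0 by linarith
  · exact fun h => absurd rfl h
  · exact fun _ => show d 1 2 = t 1 + t 2 by linarith
  · exact fun _ => show d 1 3 = t 1 + t 3 by linarith
  · exact fun _ => show d 2 0 = t 2 + t 0 by linarith
  · exact fun _ => show d 2 1 = t 2 + t 1 by linarith
  · exact fun h => absurd rfl h
  · exact fun _ => show d 2 3 = t 2 + t 3 by linarith
  · exact fun _ => show d 3 0 = t 3 + t 0 by linarith
  · exact fun _ => show d 3 1 = t 3 + t 1 by linarith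
  · exact fun _ => show d 3 2 = t 3 + t 2 by linarith
  · exact fun h => absurd rfl h

theorem kb_all (hd : ND d) : Kb d := by
  have s2 := hd.sy 3 2
  have s5 := hd.sy 2 1
  have s6 := hd.sy 3 1
  by_cases h3 : d 0 2 + d 1 3 = d 0 3 + d 1 2
  · by_cases h1 : d 0 1 + d 2 3 = d 0 2 + d 1 3
    · exact shk_three hd h1 h3
    · exact shk_two0 hd h3 h1
  · by_cases h1 : d 0 1 + d 2 3 = d 0 2 + d 1 3
    · exact shk_two hd (i := 0) (k := 3) (j := 1) (l := 2) (by decide) (by linarith)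
        fun h => h3 (by linarith)
    · by_cases h2 : d 0 1 + d 2 3 = d 0 3 + d 1 2
      · exact shk_two hd (i := 0) (k := 2) (j := 1) (l := 3) (by decide) (by linarith)
          fun h => h1 (by linarith)
      · exact kb_one hd h1 h2 h3

end Pool.Agent.P.MP_f7c707_co.Sh
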