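import Pool.Agent.P.MP_f7c707_co.RLow

/-!
The lower bound.
-/

namespace Pool.Agent.P.MP_f7c707_co.Sh

open Finset Complex Pool.Agent.P.MP_f7c707_co

/-- A point of the first or of the second coordinate plane. -/
def loPt (b : Bool) (z : ℂ) : E4 := WithLp.toLp 2 (cond b (em1 1 z) (em2 1 z))

lemma lo_same (b : Bool) (z w : ℂ) : dist (loPt b z) (loPt b w) ^ 2 = normSq (z - w) := by
  rw [← d2_eq]
  cases b
  · simpa [loPt] using d2_em2 1 z w
  · simpa [loPt] using d2_em1 1 z w

lemma lo_cross (b : Bool) (z w : ℂ) :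
    dist (loPt b z) (loPt (!b) w) ^ 2 = normSq z + normSq w := by
  rw [← d2_eq]
  cases b
  · rw [d2_comm, add_comm]
    simpa [loPt] using d2_em12 1 1 w z
  · simpa [loPt] using d2_em12 1 1 z w

lemma lo_inj {b b' : Bool} {z w : ℂ} (hz : normSq z = 1) (h : loPt b z = loPt b' w) :
    b = b' ∧ z = w := by
  by_cases e : b' = b
  · subst e
    have := lo_same b' z w
    rw [h, dist_self] at this
    exact ⟨rfl, sub_eq_zero.1 (normSq_eq_zero.1 (by rw [← this]; norm_num))⟩
  · have e' : b' = !b := by cases b <;> cases b' <;> simp_all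
    subst e'
    have := lo_cross b z w
    rw [h, dist_self, hz] at this
    nlinarith [normSq_nonneg w]

/-- The squared edges of the simplex. -/
def loD : Fin 4 → Fin 4 → ℕ := ![![0, 4, 1, 2], ![4, 0, 3, 2], ![1, 3, 0, 2], ![2, 2, 2, 0]]

set_option synthInstance.maxSize 4096 in
lemma lo_rigid : ∀ a b c d : Fin 4, loD a b = 4 → loD a c = 1 → loD a d = 2 →
    a = 0 ∧ b = 1 ∧ c = 2 ∧ d = 3 := by
  decide

/-- A labelled copy. -/
def loV (b : Bool) (u z w : ℂ) : Fin 4 → E4 :=
  ![loPt b z, loPt b (-z), loPt b (z * u), loPt (!b) w]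

lemma lo_dist (b : Bool) {u z w : ℂ} (h0 : normSq u = 1) (hu : u.re = 1 / 2) (hz : normSq z = 1)
    (hw : normSq w = 1) (i j : Fin 4) : dist (loV b u z w i) (loV b u z w j) ^ 2 = loD i j := by
  have h0' := h0
  rw [normSq_apply, hu] at h0'
  have h1 : normSq (1 - u) = 1 := by
    simp only [normSq_apply, sub_re, sub_im, one_re, one_im, hu]; linarith
  have h3 : normSq (1 + u) = 3 := by
    simp only [normSq_apply, add_re, add_im, one_re, one_im, hu]; linarith
  have a01 : dist (loPt b z) (loPt b (-z)) ^ 2 = 4 := by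
    rw [lo_same, show z - -z = 2 * z by ring, map_mul, hz]; simp; norm_num
  have a02 : dist (loPt b z) (loPt b (z * u)) ^ 2 = 1 := by
    rw [lo_same, show z - z * u = z * (1 - u) by ring, map_mul, hz, h1, one_mul]
  have a12 : dist (loPt b (-z)) (loPt b (z * u)) ^ 2 = 3 := by
    rw [lo_same, show -z - z * u = -(z * (1 + u)) by ring, normSq_neg, map_mul, hz, h3, one_mul]
  have a03 : dist (loPt b z) (loPt (!b) w) ^ 2 = 2 := by
    rw [lo_cross, hz, hw]; norm_num
  have a13 : dist (loPt b (-z)) (loPt (!b) w) ^ 2 = 2 := by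
    rw [lo_cross, normSq_neg, hz, hw]; norm_num
  have a23 : dist (loPt b (z * u)) (loPt (!b) w) ^ 2 = 2 := by
    rw [lo_cross, map_mul, hz, h0, hw]; norm_num
  have a10 := a01
  have a20 := a02
  have a21 := a12
  have a30 := a03
  have a31 := a13
  have a32 := a23
  rw [dist_comm] at a10 a20 a21 a30 a31 a32
  fin_cases i <;> fin_cases j <;>
    simp [loV, loD, a01, a02, a12, a03, a13, a23, a10, a20, a21, a30, a31, a32]

lemma lo_ind {u : ℂ} (hu : u.im ≠ 0) : AffineIndependent ℝ (loV true u 1 1) := by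
  rw [affineIndependent_iff_of_fintype]
  intro c hc h
  rw [weightedVSub_eq_linear_combination _ hc] at h
  have e0 := congrArg (fun x : E4 => x 0) h
  have e1 := congrArg (fun x : E4 => x 1) h
  have e2 := congrArg (fun x : E4 => x 2) h
  simp [Fin.sum_univ_four, loV, loPt, em1, em2, hu] at e0 e1 e2 hc
  rw [e1] at e0 hc
  intro i
  fin_cases i
  · change c 0 = 0
    linarith
  · change c 1 = 0
    linarith
  · exact e1
  · exact e2

theorem lower : ∃ s : Finset E4, IsSimplex3 s ∧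
    ∀ n : ℕ, 4 * (6 * (n / 12)) ^ 2 ≤ maxCopies s n := by
  classical
  obtain ⟨t, ht⟩ : ∃ t : ℝ, t ^ 2 = 3 / 4 := ⟨_, Real.sq_sqrt (by norm_num)⟩
  have ht0 : t ≠ 0 := fun e => by rw [e] at ht; norm_num at ht
  let om : Bool → ℂ := fun c => ⟨1 / 2, cond c t (-t)⟩
  have hre : ∀ c, (om c).re = 1 / 2 := fun _ => rfl
  have hn0 : ∀ c, normSq (om c) = 1 := fun c => by
    cases c <;> simp only [om, normSq_mk, cond] <;> linarith
  have hq : ∀ c, om c ^ 2 - om c + 1 = 0 := fun c => by
    cases c <;> apply Complex.ext <;> simp [om, sq] <;> linarith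
  have h6 : ∀ c, om c ^ 6 = 1 := fun c => by
    linear_combination (om c ^ 4 + om c ^ 3 - om c - 1) * hq c
  have hoi : ∀ c c', om c = om c' → c = c' := fun c c' e => by
    have e' := congrArg Complex.im e
    cases c <;> cases c' <;> simp only [om, cond] at e' <;>
      first | rfl | exact absurd (by linarith) ht0
  have hind := lo_ind (u := om true) ht0
  have hs : IsSimplex3 (univ.image (loV true (om true) 1 1)) := by
    refine ⟨by rw [card_image_of_injective _ hind.injective]; simp, hind.range.mono ?_⟩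
    intro x hx
    obtain ⟨i, -, rfl⟩ := mem_image.1 (mem_coe.1 hx)
    exact ⟨i, rfl⟩
  refine ⟨_, hs, fun n => ?_⟩
  set s := univ.image (loV true (om true) 1 1) with hsd
  obtain ⟨m, hm⟩ : ∃ m, m = n / 12 := ⟨_, rfl⟩
  rw [← hm]
  rcases Nat.eq_zero_or_pos m with rfl | hp
  · simp
  set R := Polynomial.nthRootsFinset (6 * m) (1 : ℂ) with hR
  have hc : #R = 6 * m := (Complex.isPrimitiveRoot_exp (6 * m) (by omega)).card_nthRootsFinset
  have hmem : ∀ z : ℂ, z ∈ R ↔ z ^ (6 * m) = 1 := fun z =>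
    Polynomial.mem_nthRootsFinset (by omega) 1
  have hN : ∀ z ∈ R, normSq z = 1 := fun z hz => by
    rw [normSq_eq_norm_sq, Complex.norm_eq_one_of_pow_eq_one ((hmem z).1 hz) (by omega), one_pow]
  have hneg : ∀ z ∈ R, -z ∈ R := fun z hz => by
    rw [hmem, Even.neg_pow ⟨3 * m, by ring⟩, (hmem z).1 hz]
  have hmul : ∀ c, ∀ z ∈ R, z * om c ∈ R := fun c z hz => by
    rw [hmem, mul_pow, (hmem z).1 hz, pow_mul, h6, one_pow, one_mul]
  let P₀ : Finset E4 := univ.biUnion fun b : Bool => R.image (loPt b)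
  have hP₀ : #P₀ ≤ n := by
    refine (card_biUnion_le_card_mul _ _ (6 * m) fun i _ => card_image_le.trans hc.le).trans ?_
    rw [card_univ, Fintype.card_bool]; omega
  have hin : ∀ b, ∀ z ∈ R, loPt b z ∈ P₀ := fun b z hz =>
    mem_biUnion.2 ⟨b, mem_univ _, mem_image_of_mem _ hz⟩
  obtain ⟨P, hP, hPn⟩ := Infinite.exists_superset_card_eq P₀ n hP₀
  have hfin : ∀ P : Finset E4, {t : Finset E4 | t ⊆ P ∧ IsSimplex3 t ∧ Congr s t}.Finite :=
    fun P => (finite_toSet P.powerset).subset fun t ht => mem_coe.2 (mem_powerset.2 ht.1)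
  refine le_trans ?_ (le_csSup ⟨2 ^ n, ?_⟩ ⟨P, hPn, rfl⟩)
  · have h1 := Set.ncard_le_ncard_of_injOn
      (s := (((univ : Finset (Bool × Bool)) ×ˢ (R ×ˢ R) : Finset ((Bool × Bool) × ℂ × ℂ)) :
        Set ((Bool × Bool) × ℂ × ℂ)))
      (fun p : (Bool × Bool) × ℂ × ℂ => univ.image (loV p.1.1 (om p.1.2) p.2.1 p.2.2)) ?_ ?_
      (hfin P)
    · rw [Set.ncard_coe_finset, card_product, card_product, hc, card_univ, Fintype.card_prod,
        Fintype.card_bool, ← sq (6 * m)] at h1
      exact h1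
    · rintro ⟨⟨b, c⟩, z, w⟩ hp
      obtain ⟨hz, hw⟩ := mem_product.1 (mem_product.1 (mem_coe.1 hp)).2
      obtain ⟨g, hg⟩ := exists_isometry (loV true (om true) 1 1) (loV b (om c) z w) (fun i j => by
        rw [← sq_eq_sq₀ dist_nonneg dist_nonneg, lo_dist b (hn0 c) (hre c) (hN z hz) (hN w hw),
          lo_dist true (hn0 true) (hre true) (map_one _) (map_one _)]) univ
      have e1 : s.image g = univ.image (loV b (om c) z w) := by
        rw [hsd, image_image]
        exact image_congr fun i _ => hg i (mem_univ _)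
      refine ⟨fun x hx => hP ?_, e1 ▸ hs.image g, g, e1 ▸ coe_image.symm⟩
      obtain ⟨i, -, rfl⟩ := mem_image.1 hx
      fin_cases i
      · exact hin _ _ hz
      · exact hin _ _ (hneg _ hz)
      · exact hin _ _ (hmul _ _ hz)
      · exact hin _ _ hw
    · rintro ⟨⟨b, c⟩, z, w⟩ hp ⟨⟨b', c'⟩, z', w'⟩ hp' hh
      obtain ⟨hz, hw⟩ := mem_product.1 (mem_product.1 (mem_coe.1 hp)).2
      obtain ⟨hz', hw'⟩ := mem_product.1 (mem_product.1 (mem_coe.1 hp')).2
      dsimp only at hh hz hw hz' hw'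
      have key : ∀ k : Fin 4, ∃ l : Fin 4, loV b' (om c') z' w' l = loV b (om c) z w k := by
        intro k
        have h1 : loV b (om c) z w k ∈ univ.image (loV b' (om c') z' w') := by
          rw [← hh]; exact mem_image_of_mem _ (mem_univ _)
        obtain ⟨l, -, h2⟩ := mem_image.1 h1
        exact ⟨l, h2⟩
      choose σ hσ using key
      have hD : ∀ i j, loD (σ i) (σ j) = loD i j := fun i j => by
        have e := lo_dist b' (hn0 c') (hre c') (hN z' hz') (hN w' hw') (σ i) (σ j)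
        rw [hσ, hσ, lo_dist b (hn0 c) (hre c) (hN z hz) (hN w hw)] at e
        exact_mod_cast e.symm
      obtain ⟨s0, -, s2, s3⟩ := lo_rigid (σ 0) (σ 1) (σ 2) (σ 3) (hD 0 1) (hD 0 2) (hD 0 3)
      have e0 := hσ 0
      have e2 := hσ 2
      have e3 := hσ 3
      rw [s0] at e0
      rw [s2] at e2
      rw [s3] at e3
      obtain ⟨rfl, rfl⟩ := lo_inj (b := b') (b' := b) (hN z' hz') e0
      obtain ⟨-, rfl⟩ := lo_inj (b := !b') (b' := !b') (hN w' hw') e3
      have e4 := (lo_inj (b := b') (b' := b') (hN _ (hmul c' z' hz')) e2).2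
      have hz0 : z' ≠ 0 := fun e => by simpa [e] using hN z' hz'
      rw [hoi c' c (mul_left_cancel₀ hz0 e4)]
  · rintro k ⟨P, rfl, rfl⟩
    refine le_trans (Set.ncard_le_ncard (t := (P.powerset : Set (Finset E4)))
      (fun t ht => mem_coe.2 (mem_powerset.2 ht.1)) (finite_toSet _)) ?_
    rw [Set.ncard_coe_finset, card_powerset]

end Pool.Agent.P.MP_f7c707_co.Sh
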