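import Pool.Agent.P.MP_f7c707_co.ShV
import Pool.Agent.P.MP_f7c707_co.ShK
import Pool.Agent.P.MP_f7c707_co.ShL

/-!
The sharp constant.
-/

namespace Pool.Agent.P.MP_f7c707_co.Sh

open Finset Complex Pool.Agent.P.MP_f7c707_co

/-- A labelling with the longest edge first to last. -/
lemma m_label {s : Finset E4} (h : IsSimplex3 s) : ∃ v : Fin 4 → E4, Function.Injective v ∧
    Set.range v = s ∧ dist (v 0) (v 1) ≤ dist (v 0) (v 3) ∧
      dist (v 0) (v 2) ≤ dist (v 0) (v 3) := by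
  classical
  have hne : s.Nonempty := card_pos.1 (by rw [h.1]; norm_num)
  obtain ⟨⟨a, d⟩, had, hmax⟩ := exists_max_image (s ×ˢ s) (fun p => dist p.1 p.2) (hne.product hne)
  obtain ⟨ha, hd⟩ := mem_product.1 had
  have hne' : a ≠ d := by
    rintro rfl
    obtain ⟨x, hx, y, hy, hxy⟩ := one_lt_card.1 (show 1 < #s by rw [h.1]; norm_num)
    have := hmax (x, y) (mem_product.2 ⟨hx, hy⟩)
    simp only [dist_self] at this
    exact hxy (dist_le_zero.1 this)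
  have hc : #((s.erase a).erase d) = 2 := by
    rw [card_erase_of_mem (mem_erase.2 ⟨hne'.symm, hd⟩), card_erase_of_mem ha, h.1]
  obtain ⟨b, c, hbc, hs⟩ := card_eq_two.1 hc
  have hb : b ∈ (s.erase a).erase d := by rw [hs]; simp
  have hc : c ∈ (s.erase a).erase d := by rw [hs]; simp
  simp only [mem_erase] at hb hc
  refine ⟨![a, b, c, d], ?_, ?_, hmax (a, b) (mem_product.2 ⟨ha, hb.2.2⟩),
    hmax (a, c) (mem_product.2 ⟨ha, hc.2.2⟩)⟩
  · have e1 := hb.1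
    have e2 := hb.2.1
    have e3 := hc.1
    have e4 := hc.2.1
    intro i j hij
    fin_cases i <;> fin_cases j <;> first
      | rfl
      | exact absurd hij (by assumption)
      | exact absurd hij.symm (by assumption)
  · ext x
    constructor
    · rintro ⟨i, rfl⟩
      fin_cases i
      exacts [ha, hb.2.2, hc.2.2, hd]
    · intro hx
      by_cases h1 : x = a
      · exact ⟨0, h1.symm⟩
      by_cases h2 : x = d
      · exact ⟨3, h2.symm⟩
      have : x ∈ (s.erase a).erase d := mem_erase.2 ⟨h2, mem_erase.2 ⟨h1, hx⟩⟩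
      rw [hs, mem_insert, mem_singleton] at this
      rcases this with h3 | h3
      exacts [⟨1, h3.symm⟩, ⟨2, h3.symm⟩]

/-- The table of a simplex is nondegenerate. -/
lemma m_nd {v : Fin 4 → E4} (h : AffineIndependent ℝ v) :
    ND fun i j => dist (v i) (v j) ^ 2 := by
  refine ⟨fun i j => by rw [dist_comm], fun i => by simp,
    fun i j hij => pow_pos (dist_pos.2 (h.injective.ne hij)) 2, fun α h1 h2 => ?_⟩
  have e1 : inner ℝ (∑ i, α i • v i) (∑ j, α j • v j) =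
      ∑ i, ∑ j, α i * α j * inner ℝ (v i) (v j) := by
    rw [sum_inner]
    refine sum_congr rfl fun i _ => ?_
    rw [inner_sum]
    refine sum_congr rfl fun j _ => ?_
    rw [real_inner_smul_left, real_inner_smul_right, mul_assoc]
  have e2 : ∑ i, ∑ j, α i * α j * dist (v i) (v j) ^ 2 =
      (∑ i, α i * ‖v i‖ ^ 2) * (∑ j, α j) + (∑ i, α i) * (∑ j, α j * ‖v j‖ ^ 2) -
        2 * ∑ i, ∑ j, α i * α j * inner ℝ (v i) (v j) := by
    rw [sum_mul_sum, sum_mul_sum, mul_sum, ← sum_add_distrib, ← sum_sub_distrib]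
    refine sum_congr rfl fun i _ => ?_
    rw [mul_sum, ← sum_add_distrib, ← sum_sub_distrib]
    refine sum_congr rfl fun j _ => ?_
    rw [dist_eq_norm, norm_sub_sq_real]
    ring
  have e3 : inner ℝ (∑ i, α i • v i) (∑ j, α j • v j) = 0 := by
    rw [h2, h1] at e2
    rw [e1]
    linarith
  funext i
  exact affineIndependent_iff.1 h univ α h1 (inner_self_eq_zero.1 e3) i (mem_univ i)

lemma m_copies {δ : ℝ} (hδ : 0 < δ) : ∃ N : ℕ, ∀ s : Finset E4, IsSimplex3 s →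
    ∀ P : Finset E4, N ≤ #P → (copies s P : ℝ) ≤ (1 + δ) * (#P : ℝ) ^ 2 := by
  classical
  obtain ⟨N, hN⟩ := emb_le hδ
  refine ⟨N, fun s h P hP => ?_⟩
  obtain ⟨v, hv, hr, h1, h2⟩ := m_label h
  have hm : ∀ i, v i ∈ s := fun i => by
    rw [← mem_coe, ← hr]
    exact ⟨i, rfl⟩
  let e : Fin 4 ↪ {x // x ∈ s} := ⟨fun i => ⟨v i, hm i⟩, fun i j e => hv (congrArg Subtype.val e)⟩
  have ha : AffineIndependent ℝ v := h.2.comp_embedding e
  have hd := m_nd ha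
  have ho : Function.Injective (WithLp.ofLp : E4 → V) := WithLp.ofLp_injective 2
  have hc : #(P.image (WithLp.ofLp : E4 → V)) = #P := card_image_of_injective _ ho
  set T : Set (Finset E4) := {t | t ⊆ P ∧ IsSimplex3 t ∧ Congr s t} with hT
  have hf : T.Finite := (finite_toSet P.powerset).subset fun t ht =>
    mem_coe.2 (mem_powerset.2 ht.1)
  have hg : ∀ t ∈ T, ∃ g : E4 ≃ᵢ E4, g '' (s : Set E4) = (t : Set E4) := fun t ht => ht.2.2
  choose! g hg using hg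
  let Φ : Finset E4 → Fin 4 → V := fun t i => (g t (v i)).ofLp
  have hΦ : ∀ t ∈ T, Set.range (Φ t) = WithLp.ofLp '' (t : Set E4) := fun t ht => by
    rw [← hg t ht, ← hr, ← Set.range_comp, ← Set.range_comp]
    rfl
  have hi : ∀ t ∈ T, ∀ t' ∈ T, Set.range (Φ t) = Set.range (Φ t') → t = t' := by
    intro t ht t' ht' e
    rw [hΦ t ht, hΦ t' ht'] at e
    exact coe_injective (Set.image_injective.2 ho e)
  have key := hN (P.image WithLp.ofLp) _ hd (kb_all hd)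
    (pow_le_pow_left₀ dist_nonneg h1 2) (pow_le_pow_left₀ dist_nonneg h2 2) (hc ▸ hP)
    (hf.toFinset.image Φ) (fun φ hφ => ?_) fun φ hφ φ' hφ' e => ?_
  · rw [hc, card_image_of_injOn fun t ht t' ht' e => hi t (hf.mem_toFinset.1 ht) t'
      (hf.mem_toFinset.1 ht') (by rw [e])] at key
    rwa [copies, ← hT, Set.ncard_eq_toFinset_card T hf]
  · obtain ⟨t, ht, rfl⟩ := mem_image.1 hφ
    have ht' := hf.mem_toFinset.1 ht
    refine mem_Emb.2 ⟨fun i => mem_image_of_mem _ (ht'.1 ?_), fun i j => ?_⟩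
    · rw [← mem_coe, ← hg t ht']
      exact ⟨v i, hm i, rfl⟩
    · rw [d2_eq, (g t).dist_eq]
  · obtain ⟨t, ht, rfl⟩ := mem_image.1 hφ
    obtain ⟨t', ht', rfl⟩ := mem_image.1 hφ'
    rw [hi t (hf.mem_toFinset.1 ht) t' (hf.mem_toFinset.1 ht') e]

theorem upper {δ : ℝ} (hδ : 0 < δ) : ∃ N : ℕ, ∀ s : Finset E4, IsSimplex3 s → ∀ n : ℕ, N ≤ n →
    (maxCopies s n : ℝ) ≤ (1 + δ) * (n : ℝ) ^ 2 := by
  obtain ⟨N, hN⟩ := m_copies hδ
  refine ⟨N, fun s h n hn => ?_⟩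
  have h1 : maxCopies s n ≤ ⌊(1 + δ) * (n : ℝ) ^ 2⌋₊ := by
    apply csSup_le'
    rintro m ⟨P, rfl, rfl⟩
    exact Nat.le_floor (hN s h P hn)
  exact le_trans (by exact_mod_cast h1) (Nat.floor_le (by positivity))

theorem sharp : ∃ s₀ : Finset E4, IsSimplex3 s₀ ∧ ∀ ε : ℝ, 0 < ε → ∃ N : ℕ, ∀ n : ℕ, N ≤ n →
    (1 - ε) * (n : ℝ) ^ 2 ≤ maxCopies s₀ n ∧
      ∀ s : Finset E4, IsSimplex3 s → (maxCopies s n : ℝ) ≤ (1 + ε) * (n : ℝ) ^ 2 := by
  obtain ⟨s₀, h₀, hl⟩ := lower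
  refine ⟨s₀, h₀, fun ε hε => ?_⟩
  obtain ⟨N, hN⟩ := upper hε
  refine ⟨N + 11 + ⌈22 / ε⌉₊, fun n hn => ⟨?_, fun s hs => hN s hs n (by omega)⟩⟩
  have h1 : (22 / ε : ℝ) ≤ n := Nat.ceil_le.1 (by omega)
  have h2 : (22 : ℝ) ≤ n * ε := (div_le_iff₀ hε).1 h1
  have h3 : (n : ℝ) ≤ 12 * (n / 12 : ℕ) + 11 := by
    exact_mod_cast (by omega : n ≤ 12 * (n / 12) + 11)
  have h4 : (11 : ℝ) ≤ n := by exact_mod_cast (by omega : 11 ≤ n)
  have h5 : (4 * (6 * (n / 12 : ℕ)) ^ 2 : ℝ) ≤ maxCopies s₀ n := by exact_mod_cast hl n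
  have h6 : ((n : ℝ) - 11) ^ 2 ≤ (12 * (n / 12 : ℕ) : ℝ) ^ 2 :=
    pow_le_pow_left₀ (by linarith) (by linarith) 2
  have h7 : (22 : ℝ) * n ≤ n * ε * n := mul_le_mul_of_nonneg_right h2 (by linarith)
  nlinarith

end Pool.Agent.P.MP_f7c707_co.Sh
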