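import Pool.Agent.P.MP_f7c707_co.ExA
import Pool.Agent.P.MP_f7c707_co.ExL
import Pool.Agent.P.MP_f7c707_co.ShM

/-!
The exact maximum.
-/

namespace Pool.Agent.P.MP_f7c707_co.Sh

open Finset Complex Pool.Agent.P.MP_f7c707_co

lemma xm_copies : ∃ N : ℕ, ∀ s : Finset E4, IsSimplex3 s →
    ∀ P : Finset E4, N ≤ #P → copies s P ≤ #P ^ 2 := by
  classical
  obtain ⟨N, hN⟩ := emb_exact
  refine ⟨N, fun s h P hP => ?_⟩
  obtain ⟨v, hv, hr, h1, h2⟩ := m_label h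
  have hm : ∀ i, v i ∈ s := fun i => by
    rw [← mem_coe, ← hr]
    exact ⟨i, rfl⟩
  let e : Fin 4 ↪ {x // x ∈ s} := ⟨fun i => ⟨v i, hm i⟩, fun i j e => hv (congrArg Subtype.val e)⟩
  have ha : AffineIndependent ℝ v := h.2.comp_embedding e
  have hd := m_nd ha
  have ho : Function.Injective (WithLp.ofLp : E4 → V) := WithLp.ofLp_injective 2
  have hc : #(P.image (WithLp.ofLp : E4 → V)) = #P := card_image_of_injective _ ho
  set T : Set (Finset E4) := {t | t ⊆ P ∧ IsSimplex3 t ∧ Congr s t} with hT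
  have hf : T.Finite := (finite_toSet P.powerset).subset fun t ht =>
    mem_coe.2 (mem_powerset.2 ht.1)
  have hg : ∀ t ∈ T, ∃ g : E4 ≃ᵢ E4, g '' (s : Set E4) = (t : Set E4) := fun t ht => ht.2.2
  choose! g hg using hg
  let Φ : Finset E4 → Fin 4 → V := fun t i => (g t (v i)).ofLp
  have hΦ : ∀ t ∈ T, Set.range (Φ t) = WithLp.ofLp '' (t : Set E4) := fun t ht => by
    rw [← hg t ht, ← hr, ← Set.range_comp, ← Set.range_comp]
    rfl
  have hi : ∀ t ∈ T, ∀ t' ∈ T, Set.range (Φ t) = Set.range (Φ t') → t = t' := by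
    intro t ht t' ht' e
    rw [hΦ t ht, hΦ t' ht'] at e
    exact coe_injective (Set.image_injective.2 ho e)
  have key := hN (P.image WithLp.ofLp) _ hd (kb_all hd)
    (pow_le_pow_left₀ dist_nonneg h1 2) (pow_le_pow_left₀ dist_nonneg h2 2) (hc ▸ hP)
    (hf.toFinset.image Φ) (fun φ hφ => ?_) fun φ hφ φ' hφ' e => ?_
  · rw [hc, card_image_of_injOn fun t ht t' ht' e => hi t (hf.mem_toFinset.1 ht) t'
      (hf.mem_toFinset.1 ht') (by rw [e])] at key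
    rwa [copies, ← hT, Set.ncard_eq_toFinset_card T hf]
  · obtain ⟨t, ht, rfl⟩ := mem_image.1 hφ
    have ht' := hf.mem_toFinset.1 ht
    refine mem_Emb.2 ⟨fun i => mem_image_of_mem _ (ht'.1 ?_), fun i j => ?_⟩
    · rw [← mem_coe, ← hg t ht']
      exact ⟨v i, hm i, rfl⟩
    · rw [d2_eq, (g t).dist_eq]
  · obtain ⟨t, ht, rfl⟩ := mem_image.1 hφ
    obtain ⟨t', ht', rfl⟩ := mem_image.1 hφ'
    rw [hi t (hf.mem_toFinset.1 ht) t' (hf.mem_toFinset.1 ht') e]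

theorem upper_exact : ∃ N : ℕ, ∀ s : Finset E4, IsSimplex3 s → ∀ n : ℕ, N ≤ n →
    maxCopies s n ≤ n ^ 2 := by
  obtain ⟨N, hN⟩ := xm_copies
  refine ⟨N, fun s h n hn => ?_⟩
  apply csSup_le'
  rintro m ⟨P, rfl, rfl⟩
  exact hN s h P hn

lemma maxCopies_mono (s : Finset E4) {m n : ℕ} (h : m ≤ n) : maxCopies s m ≤ maxCopies s n := by
  apply csSup_le'
  rintro _ ⟨P, rfl, rfl⟩
  obtain ⟨Q, hQ, hQn⟩ := Infinite.exists_superset_card_eq P n h
  refine le_trans ?_ (le_csSup ⟨2 ^ n, ?_⟩ ⟨Q, hQn, rfl⟩)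
  · exact Set.ncard_le_ncard (fun t ht => ⟨ht.1.trans hQ, ht.2⟩)
      ((finite_toSet Q.powerset).subset fun t ht => mem_coe.2 (mem_powerset.2 ht.1))
  · rintro k ⟨R, rfl, rfl⟩
    refine le_trans (Set.ncard_le_ncard (t := (R.powerset : Set (Finset E4)))
      (fun t ht => mem_coe.2 (mem_powerset.2 ht.1)) (finite_toSet _)) ?_
    rw [Set.ncard_coe_finset, card_powerset]

theorem exact_max : ∃ N : ℕ,
    (∀ s : Finset E4, IsSimplex3 s → ∀ n : ℕ, N ≤ n → maxCopies s n ≤ n ^ 2) ∧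
    ∀ k : ℕ, 6 ≤ k → ∃ s : Finset E4, IsSimplex3 s ∧
      ∀ n : ℕ, N ≤ n → 2 * k ∣ n → maxCopies s n = n ^ 2 := by
  obtain ⟨N, hN⟩ := upper_exact
  refine ⟨N, hN, fun k hk => ?_⟩
  obtain ⟨s, hs, h⟩ := lower_gon hk
  refine ⟨s, hs, fun n hn ⟨m, hm⟩ => le_antisymm (hN s hs n hn) ?_⟩
  rw [hm]
  exact h m

end Pool.Agent.P.MP_f7c707_co.Sh
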