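import Pool.Agent.P.MP_f7c707_co.ExD

/-!
Copies with outside vertices: the first two types.
-/

namespace Pool.Agent.P.MP_f7c707_co.Sh

open Finset Complex Pool.Agent.P.MP_f7c707_co

variable {P : Finset V} {κ : V → CC} {d : Tb} {D : ℕ} {i j k l : Fin 4}

/-- Two vertices form a pair of `B`, each other vertex has at most `c` places. -/
lemma xo1_gen (hc : Cov i j k l) (S : Finset (Fin 4 → V)) (B : Finset (V × V)) (c : ℕ)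
    (R : V → V → V → Prop) (hB : ∀ φ ∈ S, (φ i, φ j) ∈ B) (hE : ∀ φ ∈ S, φ ∈ Emb P d)
    (hR : ∀ φ ∈ S, ∀ m, m = k ∨ m = l → R (φ i) (φ j) (φ m))
    (hT : ∀ b ∈ B, ∀ (a a' : ℝ) (T : Finset V),
      (∀ p ∈ T, R b.1 b.2 p ∧ d2 p b.1 = a ∧ d2 p b.2 = a') → #T ≤ c) : #S ≤ c * c * #B := by
  classical
  refine card_le_mul_card_image_of_maps_to (f := fun φ => (φ i, φ j)) hB _ fun b hb => ?_
  let T : Fin 4 → Finset V := fun m =>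
    {p ∈ P | R b.1 b.2 p ∧ d2 p b.1 = d m i ∧ d2 p b.2 = d m j}
  have h1 : ∀ m, #(T m) ≤ c := fun m => hT b hb _ _ _ fun p hp => (mem_filter.1 hp).2
  have h2 : #{φ ∈ S | (φ i, φ j) = b} ≤ #(T k ×ˢ T l) := by
    refine card_le_card_of_injOn (fun φ => (φ k, φ l)) (fun φ hφ => ?_) fun φ hφ ψ hψ e => ?_
    · obtain ⟨h3, rfl⟩ := mem_filter.1 (mem_coe.1 hφ)
      obtain ⟨a1, a2⟩ := mem_Emb.1 (hE φ h3)
      exact mem_coe.2 (mem_product.2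
        ⟨mem_filter.2 ⟨a1 k, hR φ h3 k (Or.inl rfl), a2 _ _, a2 _ _⟩,
          mem_filter.2 ⟨a1 l, hR φ h3 l (Or.inr rfl), a2 _ _, a2 _ _⟩⟩)
    · have h3 := Prod.mk.inj
        ((mem_filter.1 (mem_coe.1 hφ)).2.trans (mem_filter.1 (mem_coe.1 hψ)).2.symm)
      have h4 := Prod.mk.inj e
      exact e1_ext hc h3.1 h3.2 h4.1 h4.2
  rw [card_product] at h2
  exact h2.trans (Nat.mul_le_mul (h1 k) (h1 l))

lemma xo1_or {T : Finset V} {A B : V → Prop} {a b : ℕ} (h : ∀ p ∈ T, A p ∨ B p)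
    (h1 : ∀ T' ⊆ T, (∀ p ∈ T', A p) → #T' ≤ a) (h2 : ∀ T' ⊆ T, (∀ p ∈ T', B p) → #T' ≤ b) :
    #T ≤ a + b := by
  classical
  rw [← card_filter_add_card_filter_not (s := T) A]
  exact add_le_add (h1 _ (filter_subset _ _) fun p hp => (mem_filter.1 hp).2)
    (h2 _ (filter_subset _ _) fun p hp =>
      (h p (mem_filter.1 hp).1).resolve_left (mem_filter.1 hp).2)

lemma xo1_A (hκ : IsChart κ) {u v : V} (a b : ℝ) (T : Finset V)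
    (hT : ∀ p ∈ T, ((κ p).2 = 0 ∧ (κ u).1 ≠ (κ v).1) ∧ d2 p u = a ∧ d2 p v = b) : #T ≤ 2 := by
  rcases T.eq_empty_or_nonempty with rfl | ⟨q, hq⟩
  · simp
  · exact fibA hκ (hT q hq).1.2 a b T fun p hp => ⟨(hT p hp).1.1, (hT p hp).2⟩

lemma out_one (hκ : IsChart κ) (hD : Deg P κ D) (hc : Cov i j k l) (S : Finset (Fin 4 → V))
    (hS : ∀ φ ∈ S, φ ∈ Emb P d ∧ φ i ∈ e1W P κ ∧ (κ (φ j)).2 = 0 ∧ ∀ m, m = k ∨ m = l →
      ((κ (φ m)).2 = 0 ∧ (κ (φ j)).1 ≠ (κ (φ i)).1) ∨ (κ (φ m)).1 = 0 ∨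
        (κ (φ m)).1 = (κ (φ i)).1) : #S ≤ 36 * (#(e1W P κ) * D) := by
  classical
  have hB : #{b ∈ e1W P κ ×ˢ P | (κ b.2).2 = 0 ∧ d2 b.1 b.2 = d i j} ≤ D * #(e1W P κ) := by
    refine card_le_mul_card_image_of_maps_to (f := Prod.fst)
      (fun b hb => (mem_product.1 (mem_filter.1 hb).1).1) _ fun z hz => ?_
    obtain ⟨-, z1, z2⟩ := mem_e1W.1 hz
    rw [← card_image_of_injOn (f := Prod.snd) fun p hp q hq e => Prod.ext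
      ((mem_filter.1 (mem_coe.1 hp)).2.trans (mem_filter.1 (mem_coe.1 hq)).2.symm) e]
    refine hD z z1 z2 (d i j) _ fun x hx => ?_
    obtain ⟨b, hb, rfl⟩ := mem_image.1 hx
    obtain ⟨h1, rfl⟩ := mem_filter.1 hb
    obtain ⟨h2, h3, h4⟩ := mem_filter.1 h1
    exact ⟨(mem_product.1 h2).2, Or.inr h3, h4⟩
  refine (xo1_gen hc S {b ∈ e1W P κ ×ˢ P | (κ b.2).2 = 0 ∧ d2 b.1 b.2 = d i j} 6
    (fun z x p => ((κ p).2 = 0 ∧ (κ x).1 ≠ (κ z).1) ∨ (κ p).1 = 0 ∨ (κ p).1 = (κ z).1)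
    (fun φ hφ => ?_) (fun φ hφ => (hS φ hφ).1) (fun φ hφ => (hS φ hφ).2.2.2)
    fun b hb a a' T hT => ?_).trans (Nat.mul_le_mul_left _ (hB.trans (mul_comm _ _).le))
  · obtain ⟨h1, h2, h3, -⟩ := hS φ hφ
    obtain ⟨a1, a2⟩ := mem_Emb.1 h1
    exact mem_filter.2 ⟨mem_product.2 ⟨h2, a1 j⟩, h3, a2 _ _⟩
  · obtain ⟨h1, h2, -⟩ := mem_filter.1 hb
    obtain ⟨-, -, z2⟩ := mem_e1W.1 (mem_product.1 h1).1
    refine xo1_or (a := 2) (b := 4) (fun p hp => (hT p hp).1)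
      (fun T' s h => xo1_A hκ a' a T' fun p hp =>
        ⟨h p hp, (hT p (s hp)).2.2, (hT p (s hp)).2.1⟩) fun T' s h => ?_
    exact xo1_or (a := 2) (b := 2) h
      (fun T'' s' h' => fibB hκ h2 z2 _ a' a T'' fun p hp =>
        ⟨h' p hp, (hT p (s (s' hp))).2.2, (hT p (s (s' hp))).2.1⟩)
      fun T'' s' h' => fibB hκ h2 z2 _ a' a T'' fun p hp =>
        ⟨h' p hp, (hT p (s (s' hp))).2.2, (hT p (s (s' hp))).2.1⟩

lemma out_two (hκ : IsChart κ) (hc : Cov i j k l) (S : Finset (Fin 4 → V))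
    (hS : ∀ φ ∈ S, φ ∈ Emb P d ∧ φ i ∈ e1W P κ ∧ φ j ∈ e1W P κ ∧ ∀ m, m = k ∨ m = l →
      ((κ (φ m)).2 = 0 ∧ (κ (φ i)).1 ≠ (κ (φ j)).1) ∨
        ((κ (φ m)).1 = 0 ∧ (κ (φ i)).2 ≠ (κ (φ j)).2)) : #S ≤ 16 * #(e1W P κ) ^ 2 := by
  have h := xo1_gen hc S (e1W P κ ×ˢ e1W P κ) 4
    (fun z x p => ((κ p).2 = 0 ∧ (κ z).1 ≠ (κ x).1) ∨ ((κ p).1 = 0 ∧ (κ z).2 ≠ (κ x).2))
    (fun φ hφ => mem_product.2 ⟨(hS φ hφ).2.1, (hS φ hφ).2.2.1⟩) (fun φ hφ => (hS φ hφ).1)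
    (fun φ hφ => (hS φ hφ).2.2.2) fun b _ a a' T hT =>
      xo1_or (a := 2) (b := 2) (fun p hp => (hT p hp).1)
        (fun T' s h => xo1_A hκ a a' T' fun p hp => ⟨h p hp, (hT p (s hp)).2⟩)
        fun T' s h => xo1_A hκ.swap a a' T' fun p hp => ⟨h p hp, (hT p (s hp)).2⟩
  rwa [card_product, ← sq #(e1W P κ)] at h

end Pool.Agent.P.MP_f7c707_co.Sh
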