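import Pool.Agent.P.MP_f7c707_co.ExD

/-!
The decomposition of the copies, with a bound for the inside points.
-/

namespace Pool.Agent.P.MP_f7c707_co.Sh

open Finset Complex Pool.Agent.P.MP_f7c707_co

variable {P : Finset V} {d : Tb}

open Classical in
theorem core2 (hd : ND d) (hK' : Kb d) (L : ℕ) (hL : 2 ≤ L) {n Λ u : ℝ} (h2 : P2 n Λ)
    (hn : #P ≤ n) (hΛ : 0 ≤ Λ) (hu : 1 ≤ u) (hPu : #P ≤ u ^ 3) (C : Finset (Fin 4 → V))
    (hC : ∀ φ ∈ C, φ ∈ Emb P d)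
    (hinj : ∀ φ ∈ C, ∀ φ' ∈ C, Set.range φ = Set.range φ' → φ = φ') (B : ℕ)
    (hB : ∀ κ : V → CC, IsChart κ → #(P \ e1W P κ) ≤ B) :
    ∃ E : V → V → Prop, (∀ x y, E x y → E y x) ∧
      (∀ x y Q, E x y → y ∈ St P (d2 x y) x Q → #(St P (d2 x y) x Q) ≤ (#P + L ^ 2) / L) ∧
      (#C : ℝ) ≤ B * (#P + L ^ 2) + 16 * (L * (32 * #P + Λ * u * (8 * #P))) +
        256 * ((#P + L ^ 2) * ((#P + L ^ 2) / L : ℕ)) +
        #(ftet P E (d 0 1) (d 0 2) (d 0 3) (d 1 2) (d 1 3) (d 2 3)) := by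
  classical
  have e0 : (0 : ℝ) ≤ 32 * #P + Λ * u * (8 * #P) := by
    have : 0 ≤ u := by linarith
    positivity
  set F := {K ∈ P.powerset | IsSec P K ∧ #P + L ^ 2 < L * #K} with hF
  set M := (#P + L ^ 2) / L with hM
  have hFm : ∀ K ∈ F, IsSec P K ∧ #P + L ^ 2 < L * #K := fun K hK => (mem_filter.1 hK).2
  have sub : ∀ K ∈ F, K ⊆ P := fun K hK => mem_powerset.1 (mem_filter.1 hK).1
  have three : ∀ K : Finset V, #P + L ^ 2 < L * #K → 2 < #K := fun K h3 => by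
    by_contra h4
    have := Nat.mul_le_mul_left L ((not_lt.1 h4).trans hL)
    nlinarith
  have poor : ∀ K : Finset V, ¬ #P + L ^ 2 < L * #K → #K ≤ M := fun K h3 => by
    rw [hM, Nat.le_div_iff_mul_le (by omega), mul_comm]
    exact not_lt.1 h3
  have hFL : #F ≤ L := by
    by_contra h1
    obtain ⟨B, hB, hc⟩ := exists_subset_card_eq (not_le.1 h1).le
    have h3 := bonferroni id B fun x hx x' hx' => (hFm x (hB hx)).1.inter_le (hFm x' (hB hx')).1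
    have h4 : #(B.biUnion id) ≤ #P := card_le_card (biUnion_subset.2 fun x hx => sub x (hB hx))
    have h5 := card_nsmul_le_sum B (fun K => L * #K) (#P + L ^ 2 + 1)
      fun x hx => (hFm x (hB hx)).2
    rw [← mul_sum, hc, smul_eq_mul] at h5
    have h6 := Nat.le_of_mul_le_mul_left h5 (by omega)
    simp only [id, hc] at h3 h4
    omega
  have hsum : ∑ K ∈ F, #K ≤ #P + L ^ 2 := by
    have h3 := bonferroni id F fun x hx x' hx' => (hFm x hx).1.inter_le (hFm x' hx').1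
    have h4 : #(F.biUnion id) ≤ #P := card_le_card (biUnion_subset.2 fun x hx => sub x hx)
    have h5 := Nat.pow_le_pow_left hFL 2
    simp only [id] at h3 h4
    omega
  choose! ch rd hch using fun K (hK : K ∈ F) => (hFm K hK).1
  have rich : ∀ κ r, IsChart κ → 0 < r → #P + L ^ 2 < L * #(sec P κ r) → sec P κ r ∈ F ∧
      (∀ p, normSq (κ p).1 = normSq (ch (sec P κ r) p).1) ∧
      ∀ p, normSq (κ p).2 = normSq (ch (sec P κ r) p).2 := fun κ r h1 h3 h4 => by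
    have h5 : sec P κ r ∈ F := mem_filter.2
      ⟨mem_powerset.2 fun y hy => (mem_sec.1 hy).1, ⟨κ, r, h1, h3, rfl⟩, h4⟩
    refine ⟨h5, h1.planes (P := P) (r := r) (r' := rd (sec P κ r)) (hch _ h5).1 ?_⟩
    rw [← (hch _ h5).2.2, inter_self]
    exact three _ h4
  have zr : ∀ {a b : ℂ}, normSq a = normSq b → (a = 0 ↔ b = 0) := fun h => by
    rw [← normSq_eq_zero, h, normSq_eq_zero]
  let E : V → V → Prop := fun x y => ∀ K ∈ F, ¬ ((∃ ρ, ∀ z ∈ K, d2 x z = ρ) ∧ y ∈ K) ∧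
    ¬ ((∃ ρ, ∀ z ∈ K, d2 y z = ρ) ∧ x ∈ K)
  refine ⟨E, fun x y h K hK => (h K hK).symm, fun x y Q h hy => poor _ fun h3 => ?_, ?_⟩
  · exact (h _ (mem_filter.2 ⟨mem_powerset.2 fun z hz => (mem_St.1 hz).1,
      st_sec (three _ h3), h3⟩)).1 ⟨⟨_, fun z hz => (mem_St.1 hz).2.1⟩, hy⟩
  let key : Finset V → Sym2 (Set V) := fun K => s({p | (ch K p).1 = 0}, {p | (ch K p).2 = 0})
  let Pz : Sym2 (Set V) → Finset V := fun z => {K ∈ F | key K = z}.biUnion id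
  let Cz : Sym2 (Set V) → Finset (Fin 4 → V) := fun z =>
    {φ ∈ C | ∀ m, φ m ∈ Pz z ∨ ∀ S ∈ z, φ m ∈ S}
  let R1 : Finset V × Fin 4 × Fin 4 → Finset (Fin 4 → V) := fun t =>
    {φ ∈ C | t.2.1 ≠ t.2.2 ∧ (ch t.1 (φ t.2.1)).1 = 0 ∧ φ t.2.2 ∈ t.1 ∧
      ∃ m, (ch t.1 (φ m)).1 ≠ 0 ∧ (ch t.1 (φ m)).2 ≠ 0}
  let R2 : Finset V × Fin 4 × Fin 4 → Finset (Fin 4 → V) := fun t =>
    {φ ∈ C | t.2.1 ≠ t.2.2 ∧ φ t.2.1 ∈ t.1 ∧ (ch t.1 (φ t.2.2)).1 = 0 ∧
      (ch t.1 (φ t.2.2)).2 ≠ 0 ∧ (∀ m, (ch t.1 (φ m)).1 = 0 ∨ (ch t.1 (φ m)).2 = 0) ∧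
      #(sec P (fun p => (ch t.1 p).swap) (d t.2.1 t.2.2 - rd t.1)) ≤ M}
  let C0 := {φ ∈ C | ∀ i j, i ≠ j → E (φ i) (φ j)}
  have hsub : C ⊆ (F.image key).biUnion Cz ∪ (F ×ˢ univ).biUnion R1 ∪ (F ×ˢ univ).biUnion R2 ∪
      C0 := by
    intro φ hφ
    obtain ⟨hP, hdist⟩ := mem_Emb.1 (hC φ hφ)
    by_cases h0 : φ ∈ C0
    · exact mem_union_right _ h0
    refine mem_union_left _ ?_
    have h1 : ∃ K ∈ F, ∃ i j, i ≠ j ∧ (∃ ρ, ∀ z ∈ K, d2 (φ i) z = ρ) ∧ φ j ∈ K := by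
      by_contra h1
      exact h0 (mem_filter.2 ⟨hφ, fun i j hij K hK =>
        ⟨fun h => h1 ⟨K, hK, i, j, hij, h⟩, fun h => h1 ⟨K, hK, j, i, hij.symm, h⟩⟩⟩)
    obtain ⟨K, hK, i, j, hij, ⟨ρ, hρ⟩, hj⟩ := h1
    obtain ⟨hκ, hr, hKe⟩ := hch K hK
    have hi : (ch K (φ i)).1 = 0 :=
      hκ.axis (P := P) (r := rd K) (hKe ▸ three K (hFm K hK).2) (hKe ▸ hρ)
    have hj' := mem_sec.1 (hKe ▸ hj)
    by_cases h3 : ∃ m, (ch K (φ m)).1 ≠ 0 ∧ (ch K (φ m)).2 ≠ 0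
    · exact mem_union_left _ (mem_union_right _ (mem_biUnion.2 ⟨(K, i, j),
        mem_product.2 ⟨hK, mem_univ _⟩, mem_filter.2 ⟨hφ, hij, hi, hj, h3⟩⟩))
    have h4 : ∀ m, (ch K (φ m)).1 = 0 ∨ (ch K (φ m)).2 = 0 := fun m => by
      by_contra h
      exact h3 ⟨m, not_or.1 h⟩
    by_cases h5 : ∀ m, φ m ∈ Pz (key K) ∨ ∀ S ∈ key K, φ m ∈ S
    · exact mem_union_left _ (mem_union_left _ (mem_biUnion.2 ⟨key K, mem_image_of_mem _ hK,
        mem_filter.2 ⟨hφ, h5⟩⟩))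
    refine mem_union_right _ ?_
    obtain ⟨m, hm⟩ := not_forall.1 h5
    obtain ⟨hm1, hm2⟩ := not_or.1 hm
    have one : ∀ l, (ch K (φ l)).2 ≠ 0 → ¬ #P + L ^ 2 <
        L * #(sec P (fun p => (ch K p).swap) (normSq (ch K (φ l)).2)) →
        φ ∈ (F ×ˢ univ).biUnion R2 := fun l a1 a2 => by
      have a3 := (h4 l).resolve_right a1
      refine mem_biUnion.2 ⟨(K, j, l), mem_product.2 ⟨hK, mem_univ _⟩, mem_filter.2
        ⟨hφ, fun e => a1 ((show j = l from e) ▸ hj'.2.1), hj, a3, a1, h4, ?_⟩⟩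
      have a4 : d j l - rd K = normSq (ch K (φ l)).2 := by
        rw [← hdist, u_cross hκ hj'.2.1 a3, hj'.2.2]; ring
      dsimp only
      rw [a4]
      exact poor _ a2
    by_cases h6 : (ch K (φ m)).2 = 0
    swap
    · refine one m h6 fun a2 => hm1 ?_
      obtain ⟨b1, b2, b3⟩ := rich _ _ hκ.swap (normSq_pos.2 h6) a2
      refine mem_biUnion.2 ⟨_, mem_filter.2 ⟨b1, ?_⟩,
        mem_sec.2 ⟨hP m, (h4 m).resolve_right h6, rfl⟩⟩
      exact Sym2.eq_iff.2 (Or.inr ⟨Set.ext fun p => (zr (b2 p)).symm,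
        Set.ext fun p => (zr (b3 p)).symm⟩)
    have h7 : (ch K (φ m)).1 ≠ 0 := fun h7 => hm2 fun S hS => by
      rcases Sym2.mem_iff.1 hS with rfl | rfl
      exacts [h7, h6]
    have h8 : ¬ #P + L ^ 2 < L * #(sec P (ch K) (normSq (ch K (φ m)).1)) := fun a2 => hm1 (by
      obtain ⟨b1, b2, b3⟩ := rich _ _ hκ (normSq_pos.2 h7) a2
      refine mem_biUnion.2 ⟨_, mem_filter.2 ⟨b1, ?_⟩, mem_sec.2 ⟨hP m, h6, rfl⟩⟩
      exact Sym2.eq_iff.2 (Or.inl ⟨Set.ext fun p => (zr (b2 p)).symm,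
        Set.ext fun p => (zr (b3 p)).symm⟩))
    obtain ⟨l, hl⟩ := not_flat hd hκ (hC φ hφ)
    by_cases a2 : #P + L ^ 2 < L * #(sec P (fun p => (ch K p).swap) (normSq (ch K (φ l)).2))
    swap
    · exact one l hl a2
    obtain ⟨b1, b2, b3⟩ := rich _ _ hκ.swap (normSq_pos.2 hl) a2
    have a3 := (h4 l).resolve_right hl
    have a4 : φ l ∈ sec P (fun p => (ch K p).swap) (normSq (ch K (φ l)).2) :=
      mem_sec.2 ⟨hP l, a3, rfl⟩
    generalize sec P (fun p => (ch K p).swap) (normSq (ch K (φ l)).2) = K' at b1 b2 b3 a4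
    simp only [Prod.fst_swap, Prod.snd_swap] at b2 b3
    refine mem_biUnion.2 ⟨(K', l, m), mem_product.2 ⟨b1, mem_univ _⟩, mem_filter.2
      ⟨hφ, fun e => hl ((show l = m from e) ▸ h6), a4, (zr (b2 _)).1 h6,
        fun h => h7 ((zr (b3 _)).2 h), fun k => ?_, ?_⟩⟩
    · exact (h4 k).symm.imp (zr (b2 _)).1 (zr (b3 _)).1
    have a5 := (mem_sec.1 ((hch K' b1).2.2 ▸ a4)).2.2
    have a6 : d l m - rd K' = normSq (ch K (φ m)).1 := by
      rw [← hdist, d2_comm, u_cross hκ h6 a3, ← a5, ← b2]; ring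
    have a7 : sec P (fun p => (ch K' p).swap) (normSq (ch K (φ m)).1) =
        sec P (ch K) (normSq (ch K (φ m)).1) := by
      ext p
      rw [mem_sec, mem_sec, Prod.fst_swap, Prod.snd_swap, ← zr (b2 p), ← b3 p]
    dsimp only
    rw [a6, a7]
    exact poor _ h8
  have m1 : ∑ z ∈ F.image key, #(Cz z) ≤ B * (#P + L ^ 2) := by
    refine le_trans (sum_le_sum (g := fun z => B * ∑ K ∈ F with key K = z, (#K : ℕ))
      fun z hz => ?_) ?_
    · obtain ⟨K, hK, rfl⟩ := mem_image.1 hz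
      have hin : ∀ p ∈ Pz (key K), (ch K p).1 = 0 ∨ (ch K p).2 = 0 := fun p hp => by
        obtain ⟨K', h1, h3⟩ := mem_biUnion.1 hp
        obtain ⟨h4, h5⟩ := mem_filter.1 h1
        have h6 : p ∈ {p | (ch K' p).2 = 0} := (mem_sec.1 ((hch K' h4).2.2 ▸ h3)).2.1
        rcases Sym2.eq_iff.1 h5 with h | h
        · exact Or.inr (by rw [h.2] at h6; exact h6)
        · exact Or.inl (by rw [h.2] at h6; exact h6)
      have hsd : ∀ p ∈ P, Ins (ch K) p → p ∈ P \ e1W P (ch K) := fun p hp h =>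
        mem_sdiff.2 ⟨hp, fun h1 => (not_ins hp).2 h1 h⟩
      have hZ : Pz (key K) ⊆ P := biUnion_subset.2 fun x hx => sub x (mem_filter.1 hx).1
      have hO : ∀ φ ∈ Cz (key K), ∀ m, φ m ∈ Pz (key K) ∨
          (ch K (φ m)).1 = 0 ∧ (ch K (φ m)).2 = 0 := fun φ hφ m =>
        ((mem_filter.1 hφ).2 m).imp_right
          fun h => ⟨h _ (Sym2.mem_mk_left _ _), h _ (Sym2.mem_mk_right _ _)⟩
      exact (u_main (P := P \ e1W P (ch K)) hd hK' (hch K hK).1 (Pz (key K))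
        (fun p hp => hsd p (hZ hp) (hin p hp)) hin _
        (fun φ hφ => ⟨mem_Emb.2 ⟨fun m => hsd _ ((mem_Emb.1 (hC φ (mem_filter.1 hφ).1)).1 m)
          ((hO φ hφ m).elim (hin _) fun h => Or.inl h.1),
          (mem_Emb.1 (hC φ (mem_filter.1 hφ).1)).2⟩, hO φ hφ⟩)
        fun a ha b hb => hinj a (mem_filter.1 ha).1 b (mem_filter.1 hb).1).trans
        (Nat.mul_le_mul (hB _ (hch K hK).1) card_biUnion_le)
    · rw [← mul_sum, sum_fiberwise_of_maps_to fun K hK => mem_image_of_mem key hK]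
      exact Nat.mul_le_mul_left _ hsum
  have m2 : ∑ t ∈ F ×ˢ univ, (#(R1 t) : ℝ) ≤ 16 * (L * (32 * #P + Λ * u * (8 * #P))) := by
    refine (sum_le_card_nsmul _ _ (32 * #P + Λ * u * (8 * #P) : ℝ) fun t ht => ?_).trans ?_
    · obtain ⟨a1, a2, a3⟩ := hch t.1 (mem_product.1 ht).1
      by_cases hij : t.2.1 = t.2.2
      · rw [show R1 t = ∅ from filter_eq_empty_iff.2 fun φ _ h => h.1 hij, card_empty,
          Nat.cast_zero]
        exact e0
      exact err_one hd a1 a2 h2 hn hΛ hu hPu hij _ fun φ hφ => by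
        obtain ⟨b1, -, b2, b3, b4⟩ := mem_filter.1 hφ
        exact ⟨hC φ b1, b2, a3 ▸ b3, b4⟩
    · rw [nsmul_eq_mul, ← mul_assoc (16 : ℝ), card_product]
      refine mul_le_mul_of_nonneg_right ?_ e0
      have : #F * #(univ : Finset (Fin 4 × Fin 4)) ≤ 16 * L := by
        rw [card_univ, Fintype.card_prod, Fintype.card_fin]; omega
      exact_mod_cast this
  have m3 : ∑ t ∈ F ×ˢ univ, #(R2 t) ≤ 256 * ((#P + L ^ 2) * M) := by
    refine le_trans (sum_le_sum (g := fun t => 16 * (#t.1 * M)) fun t ht => ?_) ?_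
    · obtain ⟨a1, a2, a3⟩ := hch t.1 (mem_product.1 ht).1
      rcases (R2 t).eq_empty_or_nonempty with e | ⟨φ₀, h0⟩
      · rw [e]; exact Nat.zero_le _
      obtain ⟨-, hij, -, -, -, -, b⟩ := mem_filter.1 h0
      refine (err_two (P := P) (d := d) a1 a2 hij _ fun φ hφ => ?_).trans ?_
      · obtain ⟨b1, -, b2, b3, b4, b5, -⟩ := mem_filter.1 hφ
        exact ⟨hC φ b1, a3 ▸ b2, b3, b4, b5⟩
      · rw [← a3]
        exact Nat.mul_le_mul_left _ (Nat.mul_le_mul_left _ b)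
    · rw [sum_product]
      simp only [sum_const, card_univ, Fintype.card_prod, Fintype.card_fin, smul_eq_mul]
      rw [← mul_sum, ← mul_sum, ← sum_mul, ← mul_assoc]
      exact Nat.mul_le_mul_left _ (Nat.mul_le_mul_right _ hsum)
  have m4 : #C0 ≤ #(ftet P E (d 0 1) (d 0 2) (d 0 3) (d 1 2) (d 1 3) (d 2 3)) := by
    apply card_le_card_of_injOn fun φ => (φ 0, φ 1, φ 2, φ 3)
    · intro φ hφ
      obtain ⟨a1, a2⟩ := mem_filter.1 (mem_coe.1 hφ)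
      obtain ⟨a3, a4⟩ := mem_Emb.1 (hC φ a1)
      exact mem_coe.2 (mem_ftet.2 ⟨mem_tet.2 ⟨⟨a3 _, a3 _, a3 _, a3 _⟩, a4 _ _, a4 _ _, a4 _ _,
        a4 _ _, a4 _ _, a4 _ _⟩, a2 _ _ (by decide), a2 _ _ (by decide), a2 _ _ (by decide),
        a2 _ _ (by decide), a2 _ _ (by decide), a2 _ _ (by decide)⟩)
    · intro φ _ φ' _ e
      simp only [Prod.mk.injEq] at e
      funext i
      fin_cases i
      exacts [e.1, e.2.1, e.2.2.1, e.2.2.2]
  have m5 := ((card_le_card hsub).trans (card_union_le _ _)).trans (add_le_add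
    ((card_union_le _ _).trans (add_le_add ((card_union_le _ _).trans
      (add_le_add (card_biUnion_le.trans m1) card_biUnion_le)) (card_biUnion_le.trans m3))) m4)
  have m6 : (#C : ℝ) ≤ _ := Nat.cast_le.2 m5
  push_cast at m6
  linarith

end Pool.Agent.P.MP_f7c707_co.Sh
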