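import Pool.Agent.P.MP_f7c707_co.ShU

/-!
The upper bound with a power saving.
-/

namespace Pool.Agent.P.MP_f7c707_co.Sh

open Finset Complex Pool.Agent.P.MP_f7c707_co

lemma v_cnt (P : Finset V) (E : V → V → Prop) (ρ : ℝ) :
    (cnt P P fun x y => d2 x y = ρ ∧ E x y) ≤ (#(fed P E ρ) : ℝ) := by
  have h : #(P.sigma (nbr P fun x y => d2 x y = ρ ∧ E x y)) ≤ #(fed P E ρ) := by
    apply card_le_card_of_injOn (fun p => (p.2, p.1))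
    · intro p hp
      obtain ⟨h1, h2⟩ := mem_sigma.1 (mem_coe.1 hp)
      exact mem_coe.2 (mem_fed.2 ⟨⟨(mem_nbr.1 h2).1, h1⟩, (mem_nbr.1 h2).2⟩)
    · rintro ⟨a, b⟩ _ ⟨c, e⟩ _ hst
      simp only [Prod.mk.injEq] at hst
      rw [hst.1, hst.2]
  rw [card_sigma] at h
  unfold cnt
  exact_mod_cast h

/-- The upper bound with a power saving. -/
def PS (n Λ : ℝ) : Prop :=
  ∀ (P : Finset V) (d : Tb) (ν : ℝ), ND d → Kb d → d 0 1 ≤ d 0 3 → d 0 2 ≤ d 0 3 → #P = n →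
    1 ≤ ν → ν ^ 8000 = n → ∀ C : Finset (Fin 4 → V), (∀ φ ∈ C, φ ∈ Emb P d) →
    (∀ φ ∈ C, ∀ φ' ∈ C, Set.range φ = Set.range φ' → φ = φ') →
    (#C : ℝ) ≤ n ^ 2 + Λ * ν ^ 15999

theorem ev_PS : Ev PS := by
  refine (((ev_PG.and ev_PF).and ev_PT).and ev_P2).pow 40000 3
    fun n Λ Λ' _ hΛ hΛ' ⟨⟨⟨hG, hF⟩, hT⟩, h2⟩ P d ν hd hK e1 e2 hP hν hνn C hC hinj => ?_
  obtain ⟨Q, hQ⟩ := hG P ![d 0 1, d 0 2, d 0 3, d 1 2, d 1 3, d 2 3] ν hP.le hν hνn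
  have hν0 : 0 < ν := by linarith
  have hw : 1 ≤ ν ^ 3200 := one_le_pow₀ hν
  have hL1 : ν ^ 3200 ≤ (⌈ν ^ 3200⌉₊ + 1 : ℕ) := by push_cast; linarith [Nat.le_ceil (ν ^ 3200)]
  have hL2 : ((⌈ν ^ 3200⌉₊ + 1 : ℕ) : ℝ) ≤ 3 * ν ^ 3200 := by
    push_cast; linarith [Nat.ceil_lt_add_one (show 0 ≤ ν ^ 3200 by linarith)]
  have hL4 := Nat.one_le_ceil_iff.2 (show 0 < ν ^ 3200 by linarith)
  obtain ⟨E, hE, hM, key⟩ := core (P := P) hd hK (⌈ν ^ 3200⌉₊ + 1) (by omega)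
    h2 hP.le (by linarith) (one_le_pow₀ hν (n := 2667)) (by
      rw [hP, ← hνn, ← pow_mul]; exact pow_le_pow_right₀ hν (by norm_num)) C hC hinj
  generalize ⌈ν ^ 3200⌉₊ + 1 = L at hL1 hL2 hM key
  have hL0 : (0 : ℝ) < L := by linarith
  have pw : ∀ k l : ℕ, k ≤ l → ν ^ k ≤ ν ^ l := fun k l hk => pow_le_pow_right₀ hν hk
  have hL3 : (L : ℝ) ^ 2 ≤ 9 * ν ^ 6400 := by
    calc _ ≤ (3 * ν ^ 3200) ^ 2 := by gcongr
      _ = _ := by ring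
  have hM4 : (((#P + L ^ 2) / L : ℕ) : ℝ) ≤ 10 * ν ^ 4800 := by
    refine Nat.cast_div_le.trans ?_
    push_cast
    rw [div_le_iff₀ hL0, hP, ← hνn]
    calc _ ≤ 10 * ν ^ 8000 := by linarith [pw 6400 8000 (by norm_num)]
      _ = 10 * ν ^ 4800 * ν ^ 3200 := by ring
      _ ≤ _ := by gcongr
  generalize (#P + L ^ 2) / L = M at hM hM4 key
  have hl : ∀ p ∈ [d 0 1, d 0 2, d 0 3, d 1 2, d 1 3, d 2 3], p ≠ 0 ∧
      (cnt P P fun x y => d2 x y = p ∧ E x y) ≤ 961 * Λ * ν ^ 12800 := by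
    intro p hp
    have a1 : ∃ i, ![d 0 1, d 0 2, d 0 3, d 1 2, d 1 3, d 2 3] i = p := by
      revert p
      simp only [List.mem_cons, List.not_mem_nil, or_false, forall_eq_or_imp, forall_eq]
      exact ⟨⟨0, rfl⟩, ⟨1, rfl⟩, ⟨2, rfl⟩, ⟨3, rfl⟩, ⟨4, rfl⟩, 5, rfl⟩
    have a2 : p ≠ 0 := by
      simp only [List.mem_cons, List.not_mem_nil, or_false] at hp
      rcases hp with rfl | rfl | rfl | rfl | rfl | rfl <;> exact (hd.ps _ _ (by decide)).ne'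
    obtain ⟨i, hi⟩ := a1
    have a3 := (card_fed_le (P := P) (E := Fr Q) (ρ := p)).trans (hi ▸ hQ i)
    have a4 := poor_two (P := P) (ρ := p) Q hE M fun q hq i hi => by
      obtain ⟨⟨-, b2⟩, b3, b4⟩ := mem_fed.1 hq
      exact b3 ▸ hM q.1 q.2 (Q q.1 i) b4 (mem_St.2 ⟨b2, rfl, hi⟩)
    have a5 : (M : ℝ) * #P ≤ 10 * (Λ * ν ^ 12800) := by
      calc _ ≤ 10 * ν ^ 4800 * ν ^ 8000 := by rw [hP, ← hνn]; gcongr
        _ = 10 * (1 * ν ^ 12800) := by ring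
        _ ≤ _ := by gcongr
    exact ⟨a2, by linarith [v_cnt P E p]⟩
  have hΦ : 1 ≤ 961 * Λ := by linarith
  have z : ∀ i j : Fin 4, i ≠ j → d i j ≠ 0 := fun i j h => (hd.ps i j h).ne'
  have c4 := hT P E (d 0 1) (d 0 2) (d 0 3) (d 1 2) (d 1 3) (d 2 3) ν (Λ * (961 * Λ)) hE hP.le
    (z _ _ (by decide)) (z _ _ (by decide)) (z _ _ (by decide)) (z _ _ (by decide))
    (z _ _ (by decide)) (z _ _ (by decide))
    (by linarith [hd.ps 1 3 (by decide)]) (by linarith [hd.ps 2 3 (by decide)])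
    (fun a b c h1 h2 h3 => hd.ind2 (i := 0) (j := 1) (k := 3) (by decide) (by decide) (by decide)
      (h1.trans (hd.sy _ _)) h2 h3)
    (fun a b c h1 h2 h3 => hd.ind2 (i := 0) (j := 2) (k := 3) (by decide) (by decide) (by decide)
      (h1.trans (hd.sy _ _)) h2 h3)
    hν (one_le_mul_of_one_le_of_one_le hΛ hΦ) hνn fun p hp q hq r hr =>
      hF P E p q r ν (961 * Λ) hE hP.le (hl p hp).1 (hl q hq).1 (hl r hr).1 hν hΦ hνn (by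
        simp only [List.mem_cons, List.not_mem_nil, or_false, forall_eq_or_imp, forall_eq]
        exact ⟨(hl p hp).2, (hl q hq).2, (hl r hr).2⟩)
  rw [hP] at key
  set X := ν ^ 15999 with hX
  have hX0 : 0 < X := by positivity
  have a1 : n * (L : ℝ) ^ 2 ≤ 9 * X := by
    calc _ ≤ ν ^ 8000 * (9 * ν ^ 6400) := by rw [← hνn]; gcongr
      _ = 9 * ν ^ 14400 := by ring
      _ ≤ _ := by linarith [pw 14400 15999 (by norm_num)]
  have a3 : L * (32 * n + Λ * ν ^ 2667 * (8 * n)) ≤ 96 * X + 24 * (Λ * X) := by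
    calc _ ≤ 3 * ν ^ 3200 * (32 * ν ^ 8000 + Λ * ν ^ 2667 * (8 * ν ^ 8000)) := by
          rw [← hνn]; gcongr
      _ = 96 * ν ^ 11200 + 24 * (Λ * ν ^ 13867) := by ring
      _ ≤ _ := by gcongr <;> exact pw _ _ (by norm_num)
  have a4 : (n + (L : ℝ) ^ 2) * M ≤ 100 * X := by
    calc _ ≤ (ν ^ 8000 + 9 * ν ^ 8000) * (10 * ν ^ 4800) := by
          rw [← hνn]; gcongr; linarith [pw 6400 8000 (by norm_num)]
      _ = 100 * ν ^ 12800 := by ring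
      _ ≤ _ := by linarith [pw 12800 15999 (by norm_num)]
  have b1 : X ≤ Λ * X := le_mul_of_one_le_left hX0.le hΛ
  have b2 : Λ * X ≤ Λ * Λ * X := by rw [mul_assoc]; exact le_mul_of_one_le_left (by positivity) hΛ
  have b3 : Λ * Λ * X ≤ Λ * (Λ * Λ) * X := by
    rw [mul_assoc Λ (Λ * Λ)]; exact le_mul_of_one_le_left (by positivity) hΛ
  have b4 : 40000 * (Λ * (Λ * Λ) * X) ≤ Λ' * X := by
    have := mul_le_mul_of_nonneg_right hΛ' hX0.le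
    push_cast at this
    linarith
  have b5 : n * (n + (L : ℝ) ^ 2) = n ^ 2 + n * (L : ℝ) ^ 2 := by ring
  have b6 : Λ * (Λ * (961 * Λ)) * X = 961 * (Λ * (Λ * Λ) * X) := by ring
  linarith

theorem emb_le {δ : ℝ} (hδ : 0 < δ) : ∃ N : ℕ, ∀ (P : Finset V) (d : Tb), ND d → Kb d →
    d 0 1 ≤ d 0 3 → d 0 2 ≤ d 0 3 → N ≤ #P → ∀ C : Finset (Fin 4 → V), (∀ φ ∈ C, φ ∈ Emb P d) →
    (∀ φ ∈ C, ∀ φ' ∈ C, Set.range φ = Set.range φ' → φ = φ') →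
    (#C : ℝ) ≤ (1 + δ) * (#P : ℝ) ^ 2 := by
  obtain ⟨C, hC, h⟩ := ev_PS ((16000 : ℕ) : ℝ)⁻¹ (by positivity)
  refine ⟨⌈(C / δ) ^ 16000⌉₊ + 1, fun P d hd hK e1 e2 hP S hS hinj => ?_⟩
  have hn : (1 : ℝ) ≤ #P := by exact_mod_cast le_trans (Nat.le_add_left _ _) hP
  have h1 := Real.rpow_inv_natCast_pow (x := #P) (n := 16000) (by linarith) (by norm_num)
  have h2 := Real.one_le_rpow hn (z := ((16000 : ℕ) : ℝ)⁻¹) (by positivity)
  have h3 := h _ hn _ le_rfl P d (((#P : ℝ) ^ ((16000 : ℕ) : ℝ)⁻¹) ^ 2) hd hK e1 e2 rfl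
    (one_le_pow₀ h2) (by rw [← pow_mul]; exact h1) S hS hinj
  generalize (#P : ℝ) ^ ((16000 : ℕ) : ℝ)⁻¹ = μ at h1 h2 h3
  have h4 : C / δ ≤ μ := le_of_pow_le_pow_left₀ (n := 16000) (by norm_num) (by linarith) (by
    rw [h1]
    exact (Nat.le_ceil _).trans (by exact_mod_cast le_trans (Nat.le_succ _) hP))
  rw [div_le_iff₀' hδ] at h4
  rw [add_mul, one_mul]
  refine h3.trans (add_le_add le_rfl ?_)
  calc _ ≤ δ * μ * μ * (μ ^ 2) ^ 15999 := by gcongr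
    _ = δ * (μ ^ 16000) ^ 2 := by ring
    _ = _ := by rw [h1]

end Pool.Agent.P.MP_f7c707_co.Sh
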