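import Pool.Agent.Lib.PolyPart.Inc

/-!
Elementary geometry of spheres and planes in four-space.
-/

namespace Pool.Agent.P.MP_f7c707_co

open Finset MvPolynomial Pool.Agent.Lib.PolyPart

/-- Four-space in coordinates. -/
abbrev V := Fin 4 → ℝ

/-- Squared distance. -/
def d2 (x y : V) : ℝ := (x - y) ⬝ᵥ (x - y)

lemma d2_comm (x y : V) : d2 x y = d2 y x := by
  simp only [d2]
  rw [← neg_sub y x, neg_dotProduct_neg]

lemma d2_self (x : V) : d2 x x = 0 := by simp [d2]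

lemma perp_of_d2 {x y a b : V} (h : d2 x a - d2 x b = d2 y a - d2 y b) :
    (x - y) ⬝ᵥ (a - b) = 0 := by
  simp only [d2, dotProduct, Fin.sum_univ_four, Pi.sub_apply] at h ⊢
  linarith

/-- Linear independence of two vectors. -/
def Ind2 (u v : V) : Prop := ∀ α β : ℝ, α • u + β • v = 0 → α = 0 ∧ β = 0

/-- Linear independence of three vectors. -/
def Ind3 (u v w : V) : Prop :=
  ∀ α β γ : ℝ, α • u + β • v + γ • w = 0 → α = 0 ∧ β = 0 ∧ γ = 0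

lemma no_five {u₁ u₂ u₃ w₁ w₂ : V} (hu : Ind3 u₁ u₂ u₃) (hw : Ind2 w₁ w₂)
    (h11 : u₁ ⬝ᵥ w₁ = 0) (h12 : u₁ ⬝ᵥ w₂ = 0) (h21 : u₂ ⬝ᵥ w₁ = 0) (h22 : u₂ ⬝ᵥ w₂ = 0)
    (h31 : u₃ ⬝ᵥ w₁ = 0) (h32 : u₃ ⬝ᵥ w₂ = 0) : False := by
  have h : LinearIndependent ℝ ![u₁, u₂, u₃, w₁, w₂] := by
    rw [Fintype.linearIndependent_iff]
    intro g hg
    simp only [Fin.sum_univ_five, Matrix.cons_val] at hg
    have h1 : (g 3 • w₁ + g 4 • w₂) ⬝ᵥ (g 3 • w₁ + g 4 • w₂) = 0 := by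
      have h2 : g 3 • w₁ + g 4 • w₂ = -(g 0 • u₁ + g 1 • u₂ + g 2 • u₃) := by
        rw [eq_neg_iff_add_eq_zero, ← hg]; abel
      conv_lhs => enter [1]; rw [h2]
      simp only [neg_dotProduct, add_dotProduct, dotProduct_add, smul_dotProduct, dotProduct_smul,
        h11, h12, h21, h22, h31, h32, smul_zero, add_zero, neg_zero]
    have h3 := dotProduct_self_eq_zero.1 h1
    obtain ⟨h4, h5⟩ := hw _ _ h3
    rw [h4, h5, zero_smul, zero_smul, add_zero, add_zero] at hg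
    obtain ⟨h6, h7, h8⟩ := hu _ _ _ hg
    intro i
    fin_cases i <;> assumption
  have := h.fintype_card_le_finrank
  simp at this

lemma Ind2.ind3_of_perp {u v w : V} (h : Ind2 u v) (hw : w ≠ 0) (h1 : u ⬝ᵥ w = 0)
    (h2 : v ⬝ᵥ w = 0) : Ind3 u v w := by
  intro α β γ hh
  have h3 := congrArg (· ⬝ᵥ w) hh
  simp only [add_dotProduct, smul_dotProduct, h1, h2, mul_zero, zero_add, zero_dotProduct,
    smul_eq_mul] at h3
  have hγ : γ = 0 := (mul_eq_zero.1 h3).resolve_right fun h4 => hw (dotProduct_self_eq_zero.1 h4)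
  rw [hγ, zero_smul, add_zero] at hh
  exact ⟨(h _ _ hh).1, (h _ _ hh).2, hγ⟩

lemma Ind2.exists_of_not_ind3 {u v w : V} (h : Ind2 u v) (h3 : ¬ Ind3 u v w) :
    ∃ α β : ℝ, w = α • u + β • v := by
  simp only [Ind3, not_forall] at h3
  obtain ⟨α, β, γ, h1, h2⟩ := h3
  have hγ : γ ≠ 0 := by
    rintro rfl
    rw [zero_smul, add_zero] at h1
    exact h2 ⟨(h _ _ h1).1, (h _ _ h1).2, rfl⟩
  refine ⟨-α / γ, -β / γ, ?_⟩
  funext i
  have := congrFun h1 i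
  simp only [Pi.add_apply, Pi.smul_apply, smul_eq_mul, Pi.zero_apply] at this ⊢
  field_simp
  linarith

lemma ind2_of_cospherical {x₁ x₂ x₃ a : V} {ρ : ℝ} (h1 : d2 x₁ a = ρ) (h2 : d2 x₂ a = ρ)
    (h3 : d2 x₃ a = ρ) (h12 : x₁ ≠ x₂) (h13 : x₁ ≠ x₃) (h23 : x₂ ≠ x₃) :
    Ind2 (x₂ - x₁) (x₃ - x₁) := by
  intro α β h
  set u := x₂ - x₁ with hu
  set v := x₃ - x₁ with hv
  set p := x₁ - a with hp
  have e2 : 2 * (p ⬝ᵥ u) + u ⬝ᵥ u = 0 := by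
    simp only [d2, dotProduct, Fin.sum_univ_four, Pi.sub_apply, hp, hu] at h1 h2 ⊢
    linarith
  have e3 : 2 * (p ⬝ᵥ v) + v ⬝ᵥ v = 0 := by
    simp only [d2, dotProduct, Fin.sum_univ_four, Pi.sub_apply, hp, hv] at h1 h3 ⊢
    linarith
  have hu0 : u ⬝ᵥ u ≠ 0 := fun h => h12 (sub_eq_zero.1 (dotProduct_self_eq_zero.1 h)).symm
  have hv0 : v ⬝ᵥ v ≠ 0 := fun h => h13 (sub_eq_zero.1 (dotProduct_self_eq_zero.1 h)).symm
  have f1 := congrArg (p ⬝ᵥ ·) h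
  have f2 := congrArg (u ⬝ᵥ ·) h
  have f3 := congrArg (v ⬝ᵥ ·) h
  simp only [dotProduct_add, dotProduct_smul, smul_eq_mul, dotProduct_zero] at f1 f2 f3
  rw [dotProduct_comm v u] at f3
  have g1 : α * (u ⬝ᵥ u) + β * (v ⬝ᵥ v) = 0 := by linear_combination α * e2 + β * e3 - 2 * f1
  have g2 : β * (α + β) * (v ⬝ᵥ v) = 0 := by linear_combination α * g1 - α * f2 + β * f3
  have hβ : β = 0 := by
    by_contra hβ
    have g3 : α + β = 0 :=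
      (mul_eq_zero.1 ((mul_eq_zero.1 g2).resolve_right hv0)).resolve_left hβ
    apply h23
    funext i
    have := congrFun h i
    simp only [Pi.add_apply, Pi.smul_apply, smul_eq_mul, Pi.zero_apply, hu, hv,
      Pi.sub_apply] at this
    apply mul_left_cancel₀ hβ
    linear_combination (x₂ i - x₁ i) * g3 - this
  rw [hβ, zero_mul, add_zero] at g1
  exact ⟨(mul_eq_zero.1 g1).resolve_right hu0, hβ⟩

/-- A plane given by a base point and two spanning vectors. -/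
abbrev Pl := V × V × V

/-- Membership in a plane. -/
def InPl (Q : Pl) (x : V) : Prop := ∃ α β : ℝ, x = Q.1 + α • Q.2.1 + β • Q.2.2

/-- No four affinely independent points. -/
def NoFour (Y : Set V) : Prop :=
  ∀ x₀ ∈ Y, ∀ x₁ ∈ Y, ∀ x₂ ∈ Y, ∀ x₃ ∈ Y, ¬ Ind3 (x₁ - x₀) (x₂ - x₀) (x₃ - x₀)

lemma NoFour.mono {Y Z : Set V} (h : NoFour Y) (hZ : Z ⊆ Y) : NoFour Z :=
  fun _ h0 _ h1 _ h2 _ h3 => h _ (hZ h0) _ (hZ h1) _ (hZ h2) _ (hZ h3)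

lemma not_ind3_of_span {e₁ e₂ u v w : V} (hu : ∃ α β : ℝ, u = α • e₁ + β • e₂)
    (hv : ∃ α β : ℝ, v = α • e₁ + β • e₂) (hw : ∃ α β : ℝ, w = α • e₁ + β • e₂) :
    ¬ Ind3 u v w := by
  obtain ⟨a₁, b₁, rfl⟩ := hu
  obtain ⟨a₂, b₂, rfl⟩ := hv
  obtain ⟨a₃, b₃, rfl⟩ := hw
  intro h
  have h1 := h (a₂ * b₃ - a₃ * b₂) (a₃ * b₁ - a₁ * b₃) (a₁ * b₂ - a₂ * b₁) (by
    funext i
    simp only [Pi.add_apply, Pi.smul_apply, smul_eq_mul, Pi.zero_apply]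
    ring)
  have h2 := h a₂ (-a₁) 0 (by
    funext i
    simp only [Pi.add_apply, Pi.smul_apply, smul_eq_mul, Pi.zero_apply]
    linear_combination (-e₂ i) * h1.2.2)
  have h3 := h b₂ (-b₁) 0 (by
    funext i
    simp only [Pi.add_apply, Pi.smul_apply, smul_eq_mul, Pi.zero_apply]
    linear_combination (e₁ i) * h1.2.2)
  have h4 := h 1 0 0 (by
    have e1 : a₁ = 0 := by linarith [h2.2.1]
    have e2 : b₁ = 0 := by linarith [h3.2.1]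
    simp [e1, e2])
  exact one_ne_zero h4.1

lemma InPl.sub {Q : Pl} {x y : V} (hx : InPl Q x) (hy : InPl Q y) :
    ∃ α β : ℝ, x - y = α • Q.2.1 + β • Q.2.2 := by
  obtain ⟨a, b, rfl⟩ := hx
  obtain ⟨a', b', rfl⟩ := hy
  exact ⟨a - a', b - b', by rw [sub_smul, sub_smul]; abel⟩

lemma noFour_of_inPl (Q : Pl) {Y : Set V} (h : ∀ x ∈ Y, InPl Q x) : NoFour Y :=
  fun _ h0 _ h1 _ h2 _ h3 => not_ind3_of_span ((h _ h1).sub (h _ h0)) ((h _ h2).sub (h _ h0))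
    ((h _ h3).sub (h _ h0))

lemma NoFour.exists_plane {Y : Set V} (h : NoFour Y) : ∃ Q : Pl, ∀ x ∈ Y, InPl Q x := by
  by_cases h2 : ∃ x₀ ∈ Y, ∃ x₁ ∈ Y, ∃ x₂ ∈ Y, Ind2 (x₁ - x₀) (x₂ - x₀)
  · obtain ⟨x₀, h0, x₁, h1, x₂, h2, hi⟩ := h2
    refine ⟨(x₀, x₁ - x₀, x₂ - x₀), fun x hx => ?_⟩
    obtain ⟨α, β, hh⟩ := hi.exists_of_not_ind3 (h _ h0 _ h1 _ h2 _ hx)
    exact ⟨α, β, by rw [add_assoc, ← hh]; simp⟩
  push Not at h2
  by_cases h1 : ∃ x₀ ∈ Y, ∃ x₁ ∈ Y, x₁ ≠ x₀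
  · obtain ⟨x₀, h0, x₁, h1, hne⟩ := h1
    refine ⟨(x₀, x₁ - x₀, 0), fun x hx => ?_⟩
    have h3 := h2 _ h0 _ h1 _ hx
    simp only [Ind2, not_forall] at h3
    obtain ⟨α, β, h4, h5⟩ := h3
    have hβ : β ≠ 0 := by
      rintro rfl
      rw [zero_smul, add_zero, smul_eq_zero] at h4
      exact h5 ⟨h4.resolve_right (sub_ne_zero.2 hne), rfl⟩
    refine ⟨-α / β, 0, ?_⟩
    funext i
    have := congrFun h4 i
    simp only [Pi.add_apply, Pi.smul_apply, smul_eq_mul, Pi.zero_apply, Pi.sub_apply] at this ⊢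
    field_simp
    linarith
  push Not at h1
  rcases Y.eq_empty_or_nonempty with rfl | ⟨x₀, h0⟩
  · exact ⟨0, by simp⟩
  · exact ⟨(x₀, 0, 0), fun x hx => ⟨0, 0, by simp [h1 _ h0 _ hx]⟩⟩

lemma perp_plane {e₁ e₂ w₁ w₂ : V} (h : Ind2 w₁ w₂) (h1 : ∃ α β : ℝ, w₁ = α • e₁ + β • e₂)
    (h2 : ∃ α β : ℝ, w₂ = α • e₁ + β • e₂) :
    Ind2 e₁ e₂ ∧ ∀ v : V, w₁ ⬝ᵥ v = 0 → w₂ ⬝ᵥ v = 0 → v ⬝ᵥ e₁ = 0 ∧ v ⬝ᵥ e₂ = 0 := by
  obtain ⟨a₁, b₁, rfl⟩ := h1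
  obtain ⟨a₂, b₂, rfl⟩ := h2
  have hΔ : a₁ * b₂ - a₂ * b₁ ≠ 0 := by
    intro h0
    have h2 := h a₂ (-a₁) (by
      funext i
      simp only [Pi.add_apply, Pi.smul_apply, smul_eq_mul, Pi.zero_apply]
      linear_combination (-e₂ i) * h0)
    have h3 := h b₂ (-b₁) (by
      funext i
      simp only [Pi.add_apply, Pi.smul_apply, smul_eq_mul, Pi.zero_apply]
      linear_combination (e₁ i) * h0)
    have h4 := h 1 0 (by
      have e1 : a₁ = 0 := by linarith [h2.2]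
      have e2 : b₁ = 0 := by linarith [h3.2]
      simp [e1, e2])
    exact one_ne_zero h4.1
  constructor
  · intro α β hh
    have h2 := h (α * b₂ - β * a₂) (β * a₁ - α * b₁) (by
      funext i
      have := congrFun hh i
      simp only [Pi.add_apply, Pi.smul_apply, smul_eq_mul, Pi.zero_apply] at this ⊢
      linear_combination (a₁ * b₂ - a₂ * b₁) * this)
    constructor
    · apply mul_left_cancel₀ hΔ
      linear_combination a₁ * h2.1 + a₂ * h2.2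
    · apply mul_left_cancel₀ hΔ
      linear_combination b₁ * h2.1 + b₂ * h2.2
  · intro v h1 h2
    simp only [add_dotProduct, smul_dotProduct, smul_eq_mul] at h1 h2
    rw [dotProduct_comm v, dotProduct_comm v]
    constructor
    · apply mul_left_cancel₀ hΔ
      linear_combination b₂ * h1 - b₁ * h2
    · apply mul_left_cancel₀ hΔ
      linear_combination a₁ * h2 - a₂ * h1

/-- Common neighbours of three distinct points contain no four independent points. -/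
lemma noFour_common {a₁ a₂ a₃ : V} {ρ : ℝ} (h12 : a₁ ≠ a₂) (h13 : a₁ ≠ a₃) (h23 : a₂ ≠ a₃)
    {Y : Set V} (hY : ∀ d ∈ Y, d2 a₁ d = ρ ∧ d2 a₂ d = ρ ∧ d2 a₃ d = ρ) : NoFour Y := by
  intro x₀ h0 x₁ h1 x₂ h2 x₃ h3 hi
  have hw := ind2_of_cospherical (hY _ h0).1 (hY _ h0).2.1 (hY _ h0).2.2 h12 h13 h23
  have key : ∀ x ∈ Y, (x - x₀) ⬝ᵥ (a₂ - a₁) = 0 ∧ (x - x₀) ⬝ᵥ (a₃ - a₁) = 0 := by
    intro x hx
    constructor <;> apply perp_of_d2 <;>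
      simp only [d2_comm x, d2_comm x₀, (hY _ h0).1, (hY _ h0).2.1, (hY _ h0).2.2, (hY _ hx).1,
        (hY _ hx).2.1, (hY _ hx).2.2]
  exact no_five hi hw (key _ h1).1 (key _ h1).2 (key _ h2).1 (key _ h2).2 (key _ h3).1
    (key _ h3).2

/-- Three distinct points equidistant from `d` and from `z`, with no right angle at `d`. -/
lemma ind3_of_angle {x₁ x₂ x₃ d z : V} {p q r : ℝ} (h12 : x₁ ≠ x₂) (h13 : x₁ ≠ x₃)
    (h23 : x₂ ≠ x₃) (d1 : d2 x₁ d = p) (d2' : d2 x₂ d = p) (d3 : d2 x₃ d = p)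
    (z1 : d2 x₁ z = r) (z2 : d2 x₂ z = r) (z3 : d2 x₃ z = r) (hz : d2 z d = q)
    (hang : r ≠ p + q) : Ind3 (x₂ - x₁) (x₃ - x₁) (d - x₁) := by
  by_contra h
  obtain ⟨α, β, hh⟩ := (ind2_of_cospherical d1 d2' d3 h12 h13 h23).exists_of_not_ind3 h
  have e2 : (x₂ - x₁) ⬝ᵥ (z - d) = 0 := perp_of_d2 (by rw [z2, d2', z1, d1])
  have e3 : (x₃ - x₁) ⬝ᵥ (z - d) = 0 := perp_of_d2 (by rw [z3, d3, z1, d1])
  have e4 : (d - x₁) ⬝ᵥ (z - d) = 0 := by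
    rw [hh, add_dotProduct, smul_dotProduct, smul_dotProduct, e2, e3]; simp
  apply hang
  rw [← z1, ← d1, ← hz]
  simp only [d2, dotProduct, Fin.sum_univ_four, Pi.sub_apply] at e4 ⊢
  linarith

/-- At most two points of a plane through `a` and `d` have given distances from them. -/
lemma not_three_flat {x₁ x₂ x₃ a d : V} {p q : ℝ} (h12 : x₁ ≠ x₂) (h13 : x₁ ≠ x₃)
    (h23 : x₂ ≠ x₃) (a1 : d2 x₁ a = p) (a2 : d2 x₂ a = p) (a3 : d2 x₃ a = p)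
    (d1 : d2 x₁ d = q) (d2' : d2 x₂ d = q) (d3 : d2 x₃ d = q) (hi : Ind2 (a - x₁) (d - x₁))
    (n2 : ¬ Ind3 (a - x₁) (d - x₁) (x₂ - x₁)) (n3 : ¬ Ind3 (a - x₁) (d - x₁) (x₃ - x₁)) :
    False := by
  have hw := ind2_of_cospherical a1 a2 a3 h12 h13 h23
  obtain ⟨-, hp⟩ := perp_plane hw (hi.exists_of_not_ind3 n2) (hi.exists_of_not_ind3 n3)
  obtain ⟨e1, e2⟩ := hp (a - d) (perp_of_d2 (by rw [a2, d2', a1, d1]))
    (perp_of_d2 (by rw [a3, d3, a1, d1]))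
  have e3 : (a - d) ⬝ᵥ (a - d) = 0 := by
    have : a - d = (a - x₁) - (d - x₁) := by abel
    conv_lhs => enter [2]; rw [this]
    rw [dotProduct_sub, e1, e2, sub_zero]
  have e4 : a = d := sub_eq_zero.1 (dotProduct_self_eq_zero.1 e3)
  have := hi 1 (-1) (by simp [e4])
  exact one_ne_zero this.1

/-- Two circles with different centres share at most two points. -/
lemma center_eq {y₁ y₂ y₃ x x' : V} {ρ ρ' : ℝ} (h12 : y₁ ≠ y₂) (h13 : y₁ ≠ y₃) (h23 : y₂ ≠ y₃)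
    (a1 : d2 y₁ x = ρ) (a2 : d2 y₂ x = ρ) (a3 : d2 y₃ x = ρ)
    (b1 : d2 y₁ x' = ρ') (b2 : d2 y₂ x' = ρ') (b3 : d2 y₃ x' = ρ')
    (n : ¬ Ind3 (y₂ - y₁) (y₃ - y₁) (x - y₁)) (n' : ¬ Ind3 (y₂ - y₁) (y₃ - y₁) (x' - y₁)) :
    x = x' := by
  have hw := ind2_of_cospherical a1 a2 a3 h12 h13 h23
  obtain ⟨α, β, hh⟩ := hw.exists_of_not_ind3 n
  obtain ⟨α', β', hh'⟩ := hw.exists_of_not_ind3 n'
  have e2 : (y₂ - y₁) ⬝ᵥ (x - x') = 0 := perp_of_d2 (by rw [a2, b2, a1, b1])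
  have e3 : (y₃ - y₁) ⬝ᵥ (x - x') = 0 := perp_of_d2 (by rw [a3, b3, a1, b1])
  have e4 : (x - x') ⬝ᵥ (x - x') = 0 := by
    have : x - x' = (x - y₁) - (x' - y₁) := by abel
    conv_lhs => enter [1]; rw [this, hh, hh']
    simp only [sub_dotProduct _ _ (x - x'), add_dotProduct, smul_dotProduct] at e2 e3 ⊢
    rw [e2, e3]; simp
  exact sub_eq_zero.1 (dotProduct_self_eq_zero.1 e4)

lemma exists_perp (u₁ u₂ u₃ : V) : ∃ w : V, w ≠ 0 ∧ u₁ ⬝ᵥ w = 0 ∧ u₂ ⬝ᵥ w = 0 ∧ u₃ ⬝ᵥ w = 0 := by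
  obtain ⟨w, hw, hw0⟩ := Submodule.exists_mem_ne_zero_of_ne_bot
    (LinearMap.ker_ne_bot_of_finrank_lt (f := Matrix.mulVecLin (Matrix.of ![u₁, u₂, u₃]))
      (by simp))
  have h : (Matrix.of ![u₁, u₂, u₃]).mulVec w = 0 := hw
  exact ⟨w, hw0, congrFun h 0, congrFun h 1, congrFun h 2⟩

end Pool.Agent.P.MP_f7c707_co
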