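import Pool.Agent.P.MP_f7c707_co.Sph

/-!
Incidence bounds in links of a vertex and of an edge.
-/

namespace Pool.Agent.P.MP_f7c707_co

open Finset MvPolynomial Pool.Agent.Lib.PolyPart

/-- A property that holds for all `Λ` above `C n ^ ε`. -/
def Ev (P : ℝ → ℝ → Prop) : Prop :=
  ∀ ε : ℝ, 0 < ε → ∃ C : ℝ, 1 ≤ C ∧ ∀ n : ℝ, 1 ≤ n → ∀ Λ : ℝ, C * n ^ ε ≤ Λ → P n Λ

lemma Ev.and {P Q : ℝ → ℝ → Prop} (hP : Ev P) (hQ : Ev Q) : Ev fun n Λ => P n Λ ∧ Q n Λ := by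
  intro ε hε
  obtain ⟨C, hC, h⟩ := hP ε hε
  obtain ⟨C', hC', h'⟩ := hQ ε hε
  refine ⟨C + C', by linarith, fun n hn Λ hΛ => ?_⟩
  have : 0 ≤ n ^ ε := by positivity
  exact ⟨h n hn Λ (by nlinarith), h' n hn Λ (by nlinarith)⟩

lemma Ev.pow {P Q : ℝ → ℝ → Prop} (hP : Ev P) (a j : ℕ)
    (h : ∀ n Λ Λ' : ℝ, 1 ≤ n → 1 ≤ Λ → a * Λ ^ j ≤ Λ' → P n Λ → Q n Λ') : Ev Q := by
  intro ε hε
  obtain ⟨C, hC, hC'⟩ := hP (ε / (j + 1)) (by positivity)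
  refine ⟨(a + 1) * C ^ j, one_le_mul_of_one_le_of_one_le (by simp) (one_le_pow₀ hC),
    fun n hn Λ' hΛ' => ?_⟩
  refine h n (C * n ^ (ε / (j + 1))) Λ' hn
    (one_le_mul_of_one_le_of_one_le hC (Real.one_le_rpow hn (by positivity))) ?_
    (hC' n hn _ le_rfl)
  refine le_trans ?_ hΛ'
  rw [mul_pow, ← mul_assoc, ← Real.rpow_natCast (n ^ _), ← Real.rpow_mul (by linarith)]
  apply mul_le_mul (mul_le_mul_of_nonneg_right (by linarith) (by positivity)) _ (by positivity)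
    (by positivity)
  apply Real.rpow_le_rpow_of_exponent_le hn
  rw [div_mul_eq_mul_div, div_le_iff₀ (by positivity)]
  nlinarith

lemma ev_log : Ev fun n Λ => ∀ t : ℕ, (2 : ℝ) ^ t ≤ 2 * n → (t : ℝ) + 1 ≤ Λ := by
  intro ε hε
  refine ⟨2 + 2 / ε, by have : 0 < 2 / ε := by positivity
                        linarith, fun n hn Λ hΛ t ht => le_trans ?_ hΛ⟩
  have h1 := Real.log_le_log (by positivity) ht
  rw [Real.log_pow, Real.log_mul two_ne_zero (by linarith)] at h1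
  have h2 := Real.log_le_rpow_div (show 0 ≤ n by linarith) hε
  have h3 := Real.log_two_gt_d9
  have h4 : 1 ≤ n ^ ε := Real.one_le_rpow hn hε.le
  have h5 : 0 ≤ Real.log n := Real.log_nonneg hn
  have h6 : (t : ℝ) - 1 ≤ 2 * Real.log n := by
    by_cases h : (t : ℝ) ≤ 1
    · linarith
    · nlinarith
  have h7 : (2 + 2 / ε) * n ^ ε = 2 * n ^ ε + 2 * (n ^ ε / ε) := by ring
  linarith

lemma ev_tree (k : ℕ) : Ev fun n Λ => ∀ (I : Ideal (MP 4)) (y : Fin k → MP 4), Nice 4 k 2 I y →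
    ∀ X : Finset V, (∀ x ∈ X, Van I x) → #X ≤ n → ∀ θ : ℝ, 0 ≤ θ →
      ∃ T : Tree 4, T.Ok k I X θ Λ Λ := by
  intro ε hε
  obtain ⟨K, hK, h⟩ := exists_tree 4 k hε 2
  refine ⟨K, hK, fun n hn Λ hΛ I y hN X hX hXn θ hθ => ?_⟩
  obtain ⟨T, hT⟩ := h I y hN X hX θ
  refine ⟨T, hT.mono hθ (le_trans ?_ hΛ) (le_trans ?_ hΛ)⟩
  · exact le_mul_of_one_le_right (by linarith) (Real.one_le_rpow hn hε.le)
  · exact mul_le_mul_of_nonneg_left (Real.rpow_le_rpow (by positivity) hXn hε.le) (by linarith)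

lemma sum_card_comm {α δ : Type*} (A : Finset α) (D : Finset δ) (E : α → δ → Prop)
    [∀ a d, Decidable (E a d)] :
    ∑ d ∈ D, #{a ∈ A | E a d} = ∑ a ∈ A, #{d ∈ D | E a d} := by
  simp only [card_filter]
  exact sum_comm

lemma card_le_two {α : Type*} (S : Finset α)
    (h : ∀ a ∈ S, ∀ b ∈ S, ∀ c ∈ S, a ≠ b → a ≠ c → b ≠ c → False) : #S ≤ 2 := by
  by_contra h1
  obtain ⟨a, b, c, ha, hb, hc, h2, h3, h4⟩ := two_lt_card_iff.1 (not_le.1 h1)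
  exact h a ha b hb c hc h2 h3 h4

/-- Neighbours at a given squared distance. -/
noncomputable def nb (A : Finset V) (z : V) (r : ℝ) : Finset V := {x ∈ A | d2 x z = r}

lemma mem_nb {A : Finset V} {z x : V} {r : ℝ} : x ∈ nb A z r ↔ x ∈ A ∧ d2 x z = r := mem_filter

lemma omega_le {T : Tree 4} {k : ℕ} {I : Ideal (MP 4)} {X : Finset V} {u K L : ℝ}
    (h : T.Ok (k + 2) I X (u ^ (k + 1)) K L) (hu : 1 ≤ u) (τ : T.ι)
    (hτ : u ^ (k + 1) * T.R τ ≤ T.W τ) : u ^ (k + 2) ≤ T.W τ := by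
  have h1 := h.R1 τ
  rcases h.WR τ with h2 | h2
  · have h3 : u ^ (k + 1) ≤ T.R τ ^ (k + 1) := by
      have := hτ.trans h2
      rw [pow_succ (T.R τ)] at this
      exact le_of_mul_le_mul_right this (by linarith)
    have h4 : u ≤ T.R τ := le_of_pow_le_pow_left₀ k.succ_ne_zero (by linarith) h3
    refine le_trans ?_ hτ
    rw [pow_succ u (k + 1)]
    exact mul_le_mul_of_nonneg_left h4 (by positivity)
  · omega

lemma link_bound {T : Tree 4} {k : ℕ} {I : Ideal (MP 4)} {X : Finset V} {u Λ : ℝ}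
    (h : T.Ok (k + 2) I X (u ^ (k + 1)) Λ Λ) (hk : k ≤ 2) (hu : 1 ≤ u) (hΛ : 1 ≤ Λ)
    (D : Finset V) (r : ℝ) (t : ℕ) (ht : t ≤ 2)
    (hv : ∀ Z : Finset V, Z ⊆ X → #Z = t + 1 → #{d ∈ D | ∀ x ∈ Z, d2 x d = r} ≤ 2)
    (he : ∀ x ∈ X, ∀ Cn : Set V, NoFour Cn → (∀ z ρ, sph z ρ ∈ I → z ∈ Cn) →
      ∀ a ∈ D, ∀ b ∈ D, ∀ c ∈ D, a ∈ Cn → b ∈ Cn → c ∈ Cn → d2 x a = r → d2 x b = r →
      d2 x c = r → a ≠ b → a ≠ c → b ≠ c → False) :
    ∑ d ∈ D, (#(nb X d r) : ℝ) ≤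
      8 * Λ ^ 3 * (#D * u ^ (k + 1) + (#X : ℝ) ^ (t + 1) / (u ^ (k + 2)) ^ t + #X) := by
  classical
  choose Cn hCn using exists_families h (by omega) (by omega)
  have h1 := h.light (by linarith) t 2 D (fun d => sph d r) (fun d => totalDegree_sph d r)
    (fun d => {x ∈ X | d2 x d = r ∧ T.Hard x (sph d r)})
    (fun d _ x hx => ⟨by rw [eval_sph, (mem_filter.1 hx).2.1, sub_self], (mem_filter.1 hx).2.2⟩)
    (fun Z hZ => by
      by_cases hZX : Z ⊆ X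
      · refine le_trans (card_le_card fun d hd => ?_) (hv Z hZX hZ)
        exact mem_filter.2 ⟨(mem_filter.1 hd).1,
          fun x hx => (mem_filter.1 ((mem_filter.1 hd).2 hx)).2.1⟩
      · rw [filter_eq_empty_iff.2, card_empty]
        · exact zero_le_two
        · exact fun d _ hd => hZX (hd.trans (filter_subset _ _)))
    (u ^ (k + 2)) (by positivity) (omega_le h hu)
  have h2 : ∑ d ∈ D, #{x ∈ X | d2 x d = r ∧ ¬ T.Hard x (sph d r)} ≤ 8 * #X := by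
    rw [sum_card_comm, mul_comm, ← smul_eq_mul]
    apply sum_le_card_nsmul
    intro x hx
    obtain ⟨h3, h4⟩ := hCn x hx
    calc #{d ∈ D | d2 x d = r ∧ ¬ T.Hard x (sph d r)}
        ≤ #(univ.biUnion fun i => {d ∈ D | d2 x d = r ∧ d ∈ Cn x i}) := by
          apply card_le_card
          intro d hd
          obtain ⟨hd1, hd2, hd3⟩ := mem_filter.1 hd
          obtain ⟨i, hi⟩ := h4 d r hd3
          exact mem_biUnion.2 ⟨i, mem_univ _, mem_filter.2 ⟨hd1, hd2, hi⟩⟩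
      _ ≤ ∑ i, #{d ∈ D | d2 x d = r ∧ d ∈ Cn x i} := card_biUnion_le
      _ ≤ ∑ _i : Fin 4, 2 := by
          apply sum_le_sum
          intro i _
          apply card_le_two
          intro a ha b hb c hc
          rw [mem_filter] at ha hb hc
          exact he x hx _ (h3 i).1 (h3 i).2 a ha.1 b hb.1 c hc.1 ha.2.2 hb.2.2 hc.2.2
            ha.2.1 hb.2.1 hc.2.1
      _ = 8 := by simp
  have h3 : ∑ d ∈ D, #(nb X d r) = ∑ d ∈ D, #{x ∈ X | d2 x d = r ∧ T.Hard x (sph d r)} +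
      ∑ d ∈ D, #{x ∈ X | d2 x d = r ∧ ¬ T.Hard x (sph d r)} := by
    rw [← sum_add_distrib]
    apply sum_congr rfl
    intro d _
    rw [← filter_filter, ← filter_filter, card_filter_add_card_filter_not]
    rfl
  have h4 : ∑ d ∈ D, (#(nb X d r) : ℝ) ≤
      ∑ d ∈ D, (#{x ∈ X | d2 x d = r ∧ T.Hard x (sph d r)} : ℝ) + 8 * #X := by
    exact_mod_cast h3 ▸ Nat.add_le_add_left h2 _
  have hθ : 1 ≤ u ^ (k + 1) := one_le_pow₀ hu
  rw [max_eq_right (one_le_mul_of_one_le_of_one_le hΛ hθ)] at h1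
  have ht' : (t : ℝ) ≤ 2 := by exact_mod_cast ht
  have hΛ3 : Λ ≤ Λ ^ 3 := le_self_pow₀ hΛ (by norm_num)
  have e1 : (Λ + t) * (Λ * u ^ (k + 1) * Λ) * #D ≤ 8 * Λ ^ 3 * (#D * u ^ (k + 1)) := by
    have : (Λ + t) * (Λ * u ^ (k + 1) * Λ) * #D = (Λ + t) * (Λ ^ 2 * (#D * u ^ (k + 1))) := by ring
    rw [this, show 8 * Λ ^ 3 * (#D * u ^ (k + 1)) = (8 * Λ) * (Λ ^ 2 * (#D * u ^ (k + 1))) by ring]
    exact mul_le_mul_of_nonneg_right (by linarith) (by positivity)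
  have e2 : ((2 : ℕ) : ℝ) * (#X : ℝ) ^ (t + 1) / (u ^ (k + 2)) ^ t * Λ ≤
      8 * Λ ^ 3 * ((#X : ℝ) ^ (t + 1) / (u ^ (k + 2)) ^ t) := by
    rw [mul_div_assoc, mul_comm _ Λ, ← mul_assoc]
    apply mul_le_mul_of_nonneg_right _ (by positivity)
    push_cast; linarith
  have e3 : 8 * (#X : ℝ) ≤ 8 * Λ ^ 3 * #X :=
    mul_le_mul_of_nonneg_right (by linarith) (by positivity)
  linarith

/-- Incidences in the link of a vertex without a right angle. -/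
def P3 (n Λ : ℝ) : Prop :=
  ∀ (B A : Finset V) (d : V) (p q r : ℝ), #B ≤ n → r ≠ p + q → (∀ b ∈ B, d2 b d = p) →
    (∀ a ∈ A, d2 a d = q) → ∀ u : ℝ, 1 ≤ u →
      ∑ a ∈ A, (#(nb B a r) : ℝ) ≤ Λ * (#A * u ^ 2 + (#B : ℝ) ^ 3 / u ^ 6 + #B)

lemma ev_P3 : Ev P3 := by
  classical
  refine (ev_tree 3).pow 8 3 fun n Λ Λ' _ hΛ hΛ' h B A d p q r hB hr hBd hAd u hu => ?_
  obtain ⟨I, y, hN, hI, hV⟩ := exists_nice_three d p
  obtain ⟨T, hT⟩ := h I y hN B (fun b hb => hV b (hBd b hb)) hB (u ^ 2) (by positivity)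
  have := link_bound (k := 1) hT (by norm_num) hu hΛ A r 2 le_rfl ?_ ?_
  · refine this.trans ?_
    rw [← pow_mul]
    exact mul_le_mul_of_nonneg_right (by exact_mod_cast hΛ') (by positivity)
  · intro Z hZ hZ3
    obtain ⟨b₁, b₂, b₃, h12, h13, h23, rfl⟩ := card_eq_three.1 hZ3
    apply card_le_two
    intro a₁ ha₁ a₂ ha₂ a₃ ha₃ g12 g13 g23
    simp only [mem_filter, mem_insert, mem_singleton, forall_eq_or_imp, forall_eq] at ha₁ ha₂ ha₃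
    have hb₁ := hBd b₁ (hZ (by simp))
    have hi := ind3_of_angle h12 h13 h23 hb₁ (hBd b₂ (hZ (by simp))) (hBd b₃ (hZ (by simp)))
      ha₁.2.1 ha₁.2.2.1 ha₁.2.2.2 (hAd a₁ ha₁.1) hr
    have hw := ind2_of_cospherical (hAd _ ha₁.1) (hAd _ ha₂.1) (hAd _ ha₃.1) g12 g13 g23
    refine no_five hi hw ?_ ?_ ?_ ?_ ?_ ?_ <;> apply perp_of_d2 <;>
      simp only [d2_comm d, ha₁.2, ha₂.2, ha₃.2, hAd _ ha₁.1, hAd _ ha₂.1, hAd _ ha₃.1, sub_self]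
  · intro b hb Cn hCn hI' a₁ ha₁ a₂ ha₂ a₃ ha₃ c1 c2 c3 e1 e2 e3 g12 g13 g23
    refine hCn a₁ c1 a₂ c2 a₃ c3 d (hI' d p hI) ?_
    exact ind3_of_angle g12 g13 g23 (hAd _ ha₁) (hAd _ ha₂) (hAd _ ha₃)
      (by rw [d2_comm, e1]) (by rw [d2_comm, e2]) (by rw [d2_comm, e3]) (hBd b hb)
      (by rwa [add_comm])

lemma exists_split {α : Type*} [DecidableEq α] (B : Finset α) (bad : α → α → Prop)
    (hs : ∀ x y, bad x y → bad y x) (hi : ∀ x y, bad x y → x ≠ y)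
    (hu : ∀ x ∈ B, ∀ y ∈ B, ∀ z ∈ B, bad x y → bad x z → y = z) :
    ∃ B₁ B₂ : Finset α, B₁ ⊆ B ∧ B₂ ⊆ B ∧ B ⊆ B₁ ∪ B₂ ∧ (∀ x ∈ B₁, ∀ y ∈ B₁, ¬ bad x y) ∧
      ∀ x ∈ B₂, ∀ y ∈ B₂, ¬ bad x y := by
  classical
  refine ⟨{x ∈ B | ∀ y ∈ B, bad x y → WellOrderingRel x y},
    {x ∈ B | ¬ ∀ y ∈ B, bad x y → WellOrderingRel x y}, filter_subset _ _, filter_subset _ _,
    by rw [filter_union_filter_not_eq], ?_, ?_⟩
  · intro x hx y hy h
    rw [mem_filter] at hx hy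
    exact asymm (hx.2 y hy.1 h) (hy.2 x hx.1 (hs _ _ h))
  · intro x hx y hy h
    rw [mem_filter] at hx hy
    push Not at hx hy
    obtain ⟨hx1, y', hy', h1, h2⟩ := hx
    obtain ⟨hy1, x', hx', h3, h4⟩ := hy
    rw [hu x hx1 y' hy' y hy1 h1 h] at h2
    rw [hu y hy1 x' hx' x hx1 h3 (hs _ _ h)] at h4
    rcases trichotomous_of WellOrderingRel x y with h5 | h5 | h5
    · exact h2 h5
    · exact hi _ _ h h5
    · exact h4 h5

/-- Incidences in the link of an edge. -/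
def P2 (n Λ : ℝ) : Prop :=
  ∀ (B C : Finset V) (a d : V) (p q p' q' r : ℝ), #B ≤ n → a ≠ d →
    (∀ b ∈ B, d2 b a = p ∧ d2 b d = q ∧ Ind2 (a - b) (d - b)) →
    (∀ c ∈ C, d2 c a = p' ∧ d2 c d = q' ∧ Ind2 (a - c) (d - c)) → ∀ u : ℝ, 1 ≤ u →
      #B ≤ u ^ 3 → #C ≤ u ^ 3 → ∑ c ∈ C, (#(nb B c r) : ℝ) ≤ Λ * u ^ 4

lemma ev_P2 : Ev P2 := by
  classical
  refine (ev_tree 2).pow 48 3
    fun n Λ Λ' _ hΛ hΛ' h B C a d p q p' q' r hB had hBd hCd u hu hBu hCu => ?_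
  obtain ⟨I, y, hN, hIa, hId, hV⟩ := exists_nice_two a d had p q
  let bad : V → V → Prop := fun b b' => b ≠ b' ∧ ¬ Ind3 (a - b) (d - b) (b' - b) ∧
    ¬ Ind3 (a - b') (d - b') (b - b')
  have key : ∀ B' ⊆ B, (∀ x ∈ B', ∀ y ∈ B', ¬ bad x y) →
      ∑ c ∈ C, (#(nb B' c r) : ℝ) ≤ 24 * Λ ^ 3 * u ^ 4 := by
    intro B' hB' hbad
    have hc : (#B' : ℝ) ≤ #B := by exact_mod_cast card_le_card hB'
    obtain ⟨T, hT⟩ := h I y hN B' (fun b hb => hV b (hBd b (hB' hb)).1 (hBd b (hB' hb)).2.1)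
      (hc.trans hB) (u ^ 1) (by positivity)
    have := link_bound (k := 0) hT (by norm_num) hu hΛ C r 1 one_le_two ?_ ?_
    · refine this.trans ?_
      have e1 : (#C : ℝ) * u ^ (0 + 1) ≤ u ^ 4 := by
        rw [zero_add, pow_one, pow_succ u 3]
        exact mul_le_mul_of_nonneg_right hCu (by linarith)
      have e2 : (#B' : ℝ) ^ (1 + 1) / (u ^ (0 + 2)) ^ 1 ≤ u ^ 4 := by
        rw [div_le_iff₀ (by positivity)]
        calc (#B' : ℝ) ^ (1 + 1) ≤ (u ^ 3) ^ (1 + 1) :=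
              pow_le_pow_left₀ (by positivity) (hc.trans hBu) _
          _ = _ := by ring
      have e3 : (#B' : ℝ) ≤ u ^ 4 := (hc.trans hBu).trans (pow_le_pow_right₀ hu (by norm_num))
      calc _ ≤ 8 * Λ ^ 3 * (u ^ 4 + u ^ 4 + u ^ 4) :=
            mul_le_mul_of_nonneg_left (add_le_add (add_le_add e1 e2) e3) (by positivity)
        _ = _ := by ring
    · intro Z hZ hZ2
      obtain ⟨b₁, b₂, h12, rfl⟩ := card_eq_two.1 hZ2
      have aux : ∀ b₁ b₂ : V, Ind3 (a - b₁) (d - b₁) (b₂ - b₁) →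
          ∀ S ⊆ C, (∀ c ∈ S, d2 b₁ c = r ∧ d2 b₂ c = r) → #S ≤ 2 := by
        intro b₁ b₂ hi S hS hS'
        apply card_le_two
        intro c₁ h₁ c₂ h₂ c₃ h₃ g12 g13 g23
        have hw := ind2_of_cospherical (hCd _ (hS h₁)).1 (hCd _ (hS h₂)).1 (hCd _ (hS h₃)).1
          g12 g13 g23
        refine no_five hi hw ?_ ?_ ?_ ?_ ?_ ?_ <;> apply perp_of_d2 <;>
          simp only [d2_comm d, d2_comm a, hS' _ h₁, hS' _ h₂, hS' _ h₃, hCd _ (hS h₁),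
            hCd _ (hS h₂), hCd _ (hS h₃), sub_self]
      have hb := hbad b₁ (hZ (by simp)) b₂ (hZ (by simp))
      simp only [bad, not_and_or, not_not] at hb
      rcases hb with hb | hb | hb
      · exact absurd hb h12
      · exact aux b₁ b₂ hb _ (filter_subset _ _) fun c hc =>
          ⟨(mem_filter.1 hc).2 b₁ (by simp), (mem_filter.1 hc).2 b₂ (by simp)⟩
      · exact aux b₂ b₁ hb _ (filter_subset _ _) fun c hc =>
          ⟨(mem_filter.1 hc).2 b₂ (by simp), (mem_filter.1 hc).2 b₁ (by simp)⟩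
    · intro b _ Cn hCn hI' c₁ h₁ c₂ h₂ c₃ h₃ c1 c2 c3 _ _ _ g12 g13 g23
      exact not_three_flat g12 g13 g23 (hCd _ h₁).1 (hCd _ h₂).1 (hCd _ h₃).1 (hCd _ h₁).2.1
        (hCd _ h₂).2.1 (hCd _ h₃).2.1 (hCd _ h₁).2.2
        (hCn _ c1 _ (hI' a p hIa) _ (hI' d q hId) _ c2)
        (hCn _ c1 _ (hI' a p hIa) _ (hI' d q hId) _ c3)
  obtain ⟨B₁, B₂, h1, h2, h3, h4, h5⟩ := exists_split B bad
    (fun x y h => ⟨h.1.symm, h.2.2, h.2.1⟩) (fun x y h => h.1) (by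
      intro x hx y hy z hz hxy hxz
      by_contra hne
      exact not_three_flat hxy.1 hxz.1 hne (hBd _ hx).1 (hBd _ hy).1 (hBd _ hz).1 (hBd _ hx).2.1
        (hBd _ hy).2.1 (hBd _ hz).2.1 (hBd _ hx).2.2 hxy.2.1 hxz.2.1)
  have e1 : ∑ c ∈ C, (#(nb B c r) : ℝ) ≤
      ∑ c ∈ C, (#(nb B₁ c r) : ℝ) + ∑ c ∈ C, (#(nb B₂ c r) : ℝ) := by
    rw [← sum_add_distrib]
    apply sum_le_sum
    intro c _
    have : #(nb B c r) ≤ #(nb B₁ c r) + #(nb B₂ c r) := by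
      refine le_trans (card_le_card ?_) (card_union_le _ _)
      intro x hx
      rw [mem_nb] at hx
      rcases mem_union.1 (h3 hx.1) with h | h
      · exact mem_union_left _ (mem_nb.2 ⟨h, hx.2⟩)
      · exact mem_union_right _ (mem_nb.2 ⟨h, hx.2⟩)
    exact_mod_cast this
  have e2 := mul_le_mul_of_nonneg_right hΛ' (show 0 ≤ u ^ 4 by positivity)
  have e3 := key B₁ h1 h4
  have e4 := key B₂ h2 h5
  push_cast at e2
  linarith

end Pool.Agent.P.MP_f7c707_co
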