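import Pool.Agent.P.MP_f7c707_co.Tet
import Pool.Agent.P.MP_f7c707_co.Defs

/-!
The exponent is two.
-/

namespace Pool.Agent.P.MP_f7c707_co

open Finset

lemma d2_eq (x y : E4) : d2 x.ofLp y.ofLp = dist x y ^ 2 := by
  rw [EuclideanSpace.dist_eq, Real.sq_sqrt (sum_nonneg fun _ _ => sq_nonneg _)]
  simp only [d2, dotProduct, Pi.sub_apply, Real.dist_eq, sq_abs]
  exact sum_congr rfl fun _ _ => by ring

lemma ind2_transfer {a b d a' b' d' : V} (h1 : d2 b' a' = d2 b a) (h2 : d2 b' d' = d2 b d)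
    (h3 : d2 a' d' = d2 a d) (h : Ind2 (a - b) (d - b)) : Ind2 (a' - b') (d' - b') := by
  intro α β hh
  apply h
  apply dotProduct_self_eq_zero.1
  have h4 : (α • (a' - b') + β • (d' - b')) ⬝ᵥ (α • (a' - b') + β • (d' - b')) = 0 := by
    rw [hh, zero_dotProduct]
  simp only [d2, dotProduct, Fin.sum_univ_four, Pi.sub_apply, Pi.add_apply, Pi.smul_apply,
    smul_eq_mul] at h1 h2 h3 h4 ⊢
  linear_combination h4 - (α ^ 2 + α * β) * h1 - (β ^ 2 + α * β) * h2 + α * β * h3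

lemma IsSimplex3.ind2 {s : Finset E4} (h : IsSimplex3 s) {x y z : E4} (hx : x ∈ s) (hy : y ∈ s)
    (hz : z ∈ s) (hxy : x ≠ y) (hxz : x ≠ z) (hyz : y ≠ z) :
    Ind2 (y.ofLp - x.ofLp) (z.ofLp - x.ofLp) := by
  classical
  intro α β hh
  have e1 : (⟨x, hx⟩ : {x // x ∈ s}) ≠ ⟨y, hy⟩ := fun h => hxy (congrArg Subtype.val h)
  have e2 : (⟨x, hx⟩ : {x // x ∈ s}) ≠ ⟨z, hz⟩ := fun h => hxz (congrArg Subtype.val h)
  have e3 : (⟨y, hy⟩ : {x // x ∈ s}) ≠ ⟨z, hz⟩ := fun h => hyz (congrArg Subtype.val h)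
  have := affineIndependent_iff.1 h.2 {⟨x, hx⟩, ⟨y, hy⟩, ⟨z, hz⟩}
    (fun e => if e = ⟨y, hy⟩ then α else if e = ⟨z, hz⟩ then β else -(α + β))
    (by
      rw [sum_insert (by simp [hxy, hxz]), sum_pair e3]
      simp [e1, e2, e3.symm])
    (by
      rw [sum_insert (by simp [hxy, hxz]), sum_pair e3]
      simp only [e1, e2, e3.symm, if_true, if_false]
      ext i
      have := congrFun hh i
      simp only [Pi.add_apply, Pi.smul_apply, Pi.sub_apply, smul_eq_mul, Pi.zero_apply] at this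
      simp only [PiLp.add_apply, PiLp.smul_apply, smul_eq_mul, PiLp.zero_apply]
      linarith)
  exact ⟨by simpa using this ⟨y, hy⟩ (by simp), by simpa [e3.symm] using this ⟨z, hz⟩ (by simp)⟩

lemma copies_le {s : Finset E4} (h : IsSimplex3 s) {ε : ℝ} (hε : 0 < ε) :
    ∃ C : ℝ, 1 ≤ C ∧ ∀ P : Finset E4, 1 ≤ #P → (copies s P : ℝ) ≤ C * (#P : ℝ) ^ ε * #P ^ 2 := by
  classical
  have hne : s.Nonempty := card_pos.1 (by rw [h.1]; norm_num)
  obtain ⟨⟨a, d⟩, had, hmax⟩ := exists_max_image (s ×ˢ s) (fun p => dist p.1 p.2) (hne.product hne)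
  obtain ⟨ha, hd⟩ := mem_product.1 had
  have hne' : a ≠ d := by
    rintro rfl
    obtain ⟨x, hx, y, hy, hxy⟩ := one_lt_card.1 (show 1 < #s by rw [h.1]; norm_num)
    have := hmax (x, y) (mem_product.2 ⟨hx, hy⟩)
    simp only [dist_self] at this
    exact hxy (dist_le_zero.1 this)
  have hc : #((s.erase a).erase d) = 2 := by
    rw [card_erase_of_mem (mem_erase.2 ⟨hne'.symm, hd⟩), card_erase_of_mem ha, h.1]
  obtain ⟨b, c, hbc, hs⟩ := card_eq_two.1 hc
  have hb : b ∈ (s.erase a).erase d := by rw [hs]; simp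
  have hc : c ∈ (s.erase a).erase d := by rw [hs]; simp
  simp only [mem_erase] at hb hc
  have hall : ∀ x ∈ s, x = a ∨ x = b ∨ x = c ∨ x = d := by
    intro x hx
    by_cases h1 : x = a
    · exact Or.inl h1
    by_cases h2 : x = d
    · exact Or.inr (Or.inr (Or.inr h2))
    have : x ∈ (s.erase a).erase d := mem_erase.2 ⟨h2, mem_erase.2 ⟨h1, hx⟩⟩
    rw [hs, mem_insert, mem_singleton] at this
    tauto
  have hpos : ∀ x y : E4, x ≠ y → 0 < dist x y ^ 2 := fun x y h => pow_pos (dist_pos.2 h) 2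
  have hle : ∀ x ∈ s, dist a x ^ 2 ≤ dist a d ^ 2 := fun x hx =>
    pow_le_pow_left₀ dist_nonneg (hmax (a, x) (mem_product.2 ⟨ha, hx⟩)) 2
  obtain ⟨C, hC, hC'⟩ := ev_P7 ε hε
  refine ⟨C, hC, fun P hP => ?_⟩
  have key := hC' #P (by exact_mod_cast hP) _ le_rfl (P.image WithLp.ofLp) (dist a b ^ 2)
    (dist a c ^ 2) (dist a d ^ 2) (dist b c ^ 2) (dist b d ^ 2) (dist c d ^ 2)
    (by exact_mod_cast card_image_le) (hpos _ _ hb.2.1.symm).ne' (hpos _ _ hc.2.1.symm).ne'
    (hpos _ _ hne').ne' (hpos _ _ hbc).ne' (hpos _ _ hb.1).ne' (hpos _ _ hc.1).ne'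
    (by linarith [hle b hb.2.2, hpos _ _ hb.1]) (by linarith [hle c hc.2.2, hpos _ _ hc.1])
    (fun a' b' d' h1 h2 h3 => ind2_transfer (by rw [h1, d2_eq, dist_comm]) (by rw [h2, d2_eq])
      (by rw [h3, d2_eq]) (h.ind2 hb.2.2 ha hd hb.2.1 hb.1 hne'))
    (fun a' b' d' h1 h2 h3 => ind2_transfer (by rw [h1, d2_eq, dist_comm]) (by rw [h2, d2_eq])
      (by rw [h3, d2_eq]) (h.ind2 hc.2.2 ha hd hc.2.1 hc.1 hne'))
  refine le_trans ?_ key
  set T := tet (P.image WithLp.ofLp) (dist a b ^ 2)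
    (dist a c ^ 2) (dist a d ^ 2) (dist b c ^ 2) (dist b d ^ 2) (dist c d ^ 2) with hT
  let F : V × V × V × V → Finset E4 := fun t =>
    {WithLp.toLp 2 t.1, WithLp.toLp 2 t.2.1, WithLp.toLp 2 t.2.2.1, WithLp.toLp 2 t.2.2.2}
  have h1 : copies s P ≤ #T := by
    refine le_trans (Set.ncard_le_ncard (t := ((T.image F : Finset (Finset E4)) : Set _)) ?_
      (finite_toSet _)) ?_
    · rintro t ⟨htP, -, g, hg⟩
      have hm : ∀ x ∈ s, g x ∈ t := fun x hx => by
        rw [← mem_coe, ← hg]; exact ⟨x, hx, rfl⟩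
      have hm' : ∀ x ∈ s, (g x).ofLp ∈ P.image WithLp.ofLp :=
        fun x hx => mem_image_of_mem _ (htP (hm x hx))
      refine mem_coe.2 (mem_image.2 ⟨((g a).ofLp, (g b).ofLp, (g c).ofLp, (g d).ofLp), ?_, ?_⟩)
      · refine mem_tet.2 ⟨⟨hm' a ha, hm' b hb.2.2, hm' c hc.2.2, hm' d hd⟩, ?_⟩
        simp only [d2_eq, g.dist_eq, and_self]
      · ext x
        simp only [F, WithLp.toLp_ofLp, mem_insert, mem_singleton]
        constructor
        · rintro (rfl | rfl | rfl | rfl)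
          exacts [hm a ha, hm b hb.2.2, hm c hc.2.2, hm d hd]
        · intro hx
          rw [← mem_coe, ← hg] at hx
          obtain ⟨y, hy, rfl⟩ := hx
          rcases hall y hy with rfl | rfl | rfl | rfl <;> simp
    · rw [Set.ncard_coe_finset]
      exact card_image_le
  exact_mod_cast h1

lemma maxCopies_le {s : Finset E4} (h : IsSimplex3 s) {ε : ℝ} (hε : 0 < ε) :
    ∃ C : ℝ, 1 ≤ C ∧ ∀ n : ℕ, 1 ≤ n → (maxCopies s n : ℝ) ≤ C * (n : ℝ) ^ ε * n ^ 2 := by
  obtain ⟨C, hC, hC'⟩ := copies_le h hε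
  refine ⟨C, hC, fun n hn => ?_⟩
  have h1 : maxCopies s n ≤ ⌊C * (n : ℝ) ^ ε * n ^ 2⌋₊ := by
    apply csSup_le'
    rintro m ⟨P, rfl, rfl⟩
    exact Nat.le_floor (hC' P hn)
  exact le_trans (by exact_mod_cast h1) (Nat.floor_le (by positivity))

lemma eventually_div_log_le (c : ℝ) {ε : ℝ} (hε : 0 < ε) :
    ∀ᶠ n : ℕ in Filter.atTop, 0 < Real.log n ∧ c ≤ ε * Real.log n := by
  have h : Filter.Tendsto (fun n : ℕ => Real.log n) Filter.atTop Filter.atTop :=
    Real.tendsto_log_atTop.comp tendsto_natCast_atTop_atTop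
  filter_upwards [h.eventually_gt_atTop 0, h.eventually_ge_atTop (c / ε)] with n h1 h2
  exact ⟨h1, by rwa [div_le_iff₀' hε] at h2⟩

lemma limsup_le_two {s : Finset E4} (h : IsSimplex3 s) :
    Filter.limsup (fun n : ℕ => ((Real.log (maxCopies s n) / Real.log n : ℝ) : EReal))
      Filter.atTop ≤ 2 := by
  by_contra hcon
  obtain ⟨r, hr1, hr2⟩ := EReal.lt_iff_exists_real_btwn.1 (not_le.1 hcon)
  have hr : (2 : ℝ) < r := EReal.coe_lt_coe_iff.1 hr1
  obtain ⟨C, hC, hC'⟩ := maxCopies_le h (show 0 < (r - 2) / 2 by linarith)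
  refine absurd hr2 (not_lt.2 (Filter.limsup_le_of_le (by isBoundedDefault) ?_))
  filter_upwards [eventually_div_log_le (Real.log C) (show 0 < (r - 2) / 2 by linarith),
    Filter.eventually_ge_atTop 1] with n ⟨h1, h2⟩ hn
  rw [EReal.coe_le_coe_iff, div_le_iff₀ h1]
  have hn' : (0 : ℝ) < n := by exact_mod_cast hn
  rcases Nat.eq_zero_or_pos (maxCopies s n) with h0 | h0
  · rw [h0, Nat.cast_zero, Real.log_zero]
    nlinarith
  · refine (Real.log_le_log (by exact_mod_cast h0) (hC' n hn)).trans ?_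
    rw [Real.log_mul (by positivity) (by positivity), Real.log_mul (by positivity) (by positivity),
      Real.log_rpow hn', Real.log_pow]
    push_cast
    linarith

/-- Independent rotations in two orthogonal planes. -/
noncomputable def rotFun (θ φ : ℝ) (x : E4) : E4 :=
  WithLp.toLp 2 ![Real.cos θ * x 0 - Real.sin θ * x 1, Real.sin θ * x 0 + Real.cos θ * x 1,
    Real.cos φ * x 2 - Real.sin φ * x 3, Real.sin φ * x 2 + Real.cos φ * x 3]

lemma rotFun_neg (θ φ : ℝ) (x : E4) : rotFun (-θ) (-φ) (rotFun θ φ x) = x := by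
  have h1 := Real.sin_sq_add_cos_sq θ
  have h2 := Real.sin_sq_add_cos_sq φ
  ext i
  fin_cases i <;> simp [rotFun]
  · linear_combination (x 0) * h1
  · linear_combination (x 1) * h1
  · linear_combination (x 2) * h2
  · linear_combination (x 3) * h2

/-- The rotation as an isometry. -/
noncomputable def rot (θ φ : ℝ) : E4 ≃ᵢ E4 where
  toFun := rotFun θ φ
  invFun := rotFun (-θ) (-φ)
  left_inv := rotFun_neg θ φ
  right_inv := fun x => by simpa using rotFun_neg (-θ) (-φ) x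
  isometry_toFun := Isometry.of_dist_eq fun x y => by
    have h1 := Real.sin_sq_add_cos_sq θ
    have h2 := Real.sin_sq_add_cos_sq φ
    simp only [EuclideanSpace.dist_eq, Fin.sum_univ_four, Real.dist_eq, sq_abs]
    congr 1
    simp only [rotFun, Matrix.cons_val]
    linear_combination ((x 0 - y 0) ^ 2 + (x 1 - y 1) ^ 2) * h1 +
      ((x 2 - y 2) ^ 2 + (x 3 - y 3) ^ 2) * h2

lemma IsSimplex3.image [DecidableEq E4] {s : Finset E4} (h : IsSimplex3 s) (g : E4 ≃ᵢ E4) :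
    IsSimplex3 (s.image g) := by
  refine ⟨by rw [card_image_of_injective _ g.injective, h.1], ?_⟩
  have h1 := (h.2.map' g.toRealAffineIsometryEquiv.toAffineEquiv.toAffineMap g.injective).range
  refine h1.mono (s := (s.image g : Finset E4)) ?_
  intro x hx
  obtain ⟨y, hy, rfl⟩ := mem_image.1 (mem_coe.1 hx)
  exact ⟨⟨y, hy⟩, rfl⟩

open Classical in
/-- The regular simplex on the basis vectors. -/
noncomputable def s0 : Finset E4 := univ.image fun i : Fin 4 => EuclideanSpace.single i (1 : ℝ)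

lemma mem_s0 {x : E4} : x ∈ s0 ↔ ∃ i : Fin 4, EuclideanSpace.single i (1 : ℝ) = x := by
  simp [s0]

lemma isSimplex3_s0 : IsSimplex3 s0 := by
  have h : LinearIndependent ℝ fun i : Fin 4 => EuclideanSpace.single i (1 : ℝ) :=
    EuclideanSpace.orthonormal_single.linearIndependent
  constructor
  · unfold s0
    rw [card_image_of_injective _ h.injective]; simp
  · refine h.affineIndependent.range.mono (s := (s0 : Finset E4)) ?_
    intro x hx
    exact mem_s0.1 hx

lemma sq_le_maxCopies (n : ℕ) : (n / 4) ^ 2 ≤ maxCopies s0 n := by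
  classical
  set m := n / 4 with hm
  let θ : ℕ → ℝ := fun i => 1 / (i + 1)
  have hθ0 : ∀ i, 0 < θ i := fun i => by positivity
  have hθ1 : ∀ i, θ i ≤ 1 := fun i => by
    rw [div_le_one (by positivity)]; linarith [(Nat.cast_nonneg i : (0 : ℝ) ≤ i)]
  have hπ := Real.pi_gt_three
  have hcos : ∀ i, 0 < Real.cos (θ i) := fun i =>
    Real.cos_pos_of_mem_Ioo ⟨by linarith [hθ0 i], by linarith [hθ1 i]⟩
  have hsin : ∀ i, 0 < Real.sin (θ i) := fun i =>
    Real.sin_pos_of_pos_of_lt_pi (hθ0 i) (by linarith [hθ1 i])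
  have hinj : ∀ i j, Real.cos (θ i) = Real.cos (θ j) → i = j := by
    intro i j h
    have h1 := Real.injOn_cos ⟨(hθ0 i).le, by linarith [hθ1 i]⟩ ⟨(hθ0 j).le, by linarith [hθ1 j]⟩ h
    simp only [θ, one_div, inv_inj, add_left_inj, Nat.cast_inj] at h1
    exact h1
  let P₀ : Finset E4 := (range m).biUnion fun i => s0.image (rot (θ i) (θ i))
  have hP₀ : #P₀ ≤ n := by
    refine (card_biUnion_le_card_mul _ _ 4 fun i _ => card_image_le.trans isSimplex3_s0.1.le).trans ?_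
    rw [card_range]; omega
  obtain ⟨P, hP, hPn⟩ := Infinite.exists_superset_card_eq P₀ n hP₀
  have hfin : ∀ P : Finset E4, {t : Finset E4 | t ⊆ P ∧ IsSimplex3 t ∧ Congr s0 t}.Finite :=
    fun P => (finite_toSet P.powerset).subset fun t ht => mem_coe.2 (mem_powerset.2 ht.1)
  refine le_trans ?_ (le_csSup ⟨2 ^ n, ?_⟩ ⟨P, hPn, rfl⟩)
  · have h1 := Set.ncard_le_ncard_of_injOn
      (s := ((range m ×ˢ range m : Finset (ℕ × ℕ)) : Set (ℕ × ℕ)))
      (fun p : ℕ × ℕ => s0.image (rot (θ p.1) (θ p.2))) ?_ ?_ (hfin P)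
    · rwa [Set.ncard_coe_finset, card_product, card_range, ← sq] at h1
    · rintro ⟨i, j⟩ hij
      obtain ⟨hi, hj⟩ := mem_product.1 (mem_coe.1 hij)
      refine ⟨fun x hx => hP ?_, isSimplex3_s0.image _, _, (coe_image).symm⟩
      obtain ⟨y, hy, rfl⟩ := mem_image.1 hx
      obtain ⟨k, rfl⟩ := mem_s0.1 hy
      by_cases hk : k = 0 ∨ k = 1
      · refine mem_biUnion.2 ⟨i, hi, mem_image.2 ⟨_, hy, ?_⟩⟩
        change rotFun _ _ _ = rotFun _ _ _
        rcases hk with rfl | rfl <;> simp [rotFun]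
      · refine mem_biUnion.2 ⟨j, hj, mem_image.2 ⟨_, hy, ?_⟩⟩
        change rotFun _ _ _ = rotFun _ _ _
        have : k = 2 ∨ k = 3 := by omega
        rcases this with rfl | rfl <;> simp [rotFun]
    · rintro ⟨i, j⟩ _ ⟨i', j'⟩ _ hh
      simp only at hh
      have key : ∀ k : Fin 4, ∃ l : Fin 4, rotFun (θ i') (θ j') (EuclideanSpace.single l 1) =
          rotFun (θ i) (θ j) (EuclideanSpace.single k 1) := by
        intro k
        have h1 : rot (θ i) (θ j) (EuclideanSpace.single k 1) ∈ s0.image (rot (θ i') (θ j')) := by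
          rw [← hh]; exact mem_image_of_mem _ (mem_s0.2 ⟨k, rfl⟩)
        obtain ⟨y, hy, h2⟩ := mem_image.1 h1
        obtain ⟨l, rfl⟩ := mem_s0.1 hy
        exact ⟨l, h2⟩
      obtain ⟨l, hl⟩ := key 0
      obtain ⟨l', hl'⟩ := key 2
      have e1 := congrArg (fun x : E4 => x 0) hl
      have e2 := congrArg (fun x : E4 => x 2) hl'
      refine Prod.ext (hinj _ _ ?_) (hinj _ _ ?_)
      · fin_cases l <;> simp [rotFun] at e1 <;> linarith [hcos i, hsin i']
      · fin_cases l' <;> simp [rotFun] at e2 <;> linarith [hcos j, hsin j']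
  · rintro k ⟨P, rfl, rfl⟩
    refine le_trans (Set.ncard_le_ncard (t := (P.powerset : Set (Finset E4)))
      (fun t ht => mem_coe.2 (mem_powerset.2 ht.1)) (finite_toSet _)) ?_
    rw [Set.ncard_coe_finset, card_powerset]

lemma two_le_limsup : (2 : EReal) ≤
    Filter.limsup (fun n : ℕ => ((Real.log (maxCopies s0 n) / Real.log n : ℝ) : EReal))
      Filter.atTop := by
  by_contra hcon
  obtain ⟨r, hr1, hr2⟩ := EReal.lt_iff_exists_real_btwn.1 (not_le.1 hcon)
  have hr : r < (2 : ℝ) := EReal.coe_lt_coe_iff.1 hr2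
  refine absurd hr1 (not_lt.2 (Filter.le_limsup_of_frequently_le (Filter.Eventually.frequently ?_)))
  filter_upwards [eventually_div_log_le (Real.log 64) (show 0 < 2 - r by linarith),
    Filter.eventually_ge_atTop 4] with n ⟨h1, h2⟩ hn
  rw [EReal.coe_le_coe_iff, le_div_iff₀ h1]
  have hn' : (0 : ℝ) < n := by exact_mod_cast (by omega : 0 < n)
  have h3 : n ^ 2 ≤ 64 * maxCopies s0 n := by
    have h4 : n ≤ 8 * (n / 4) := by omega
    calc n ^ 2 ≤ (8 * (n / 4)) ^ 2 := Nat.pow_le_pow_left h4 2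
      _ = 64 * (n / 4) ^ 2 := by ring
      _ ≤ _ := Nat.mul_le_mul_left _ (sq_le_maxCopies n)
  have h4 : (n : ℝ) ^ 2 / 64 ≤ maxCopies s0 n := by
    rw [div_le_iff₀' (by norm_num)]; exact_mod_cast h3
  have h5 := Real.log_le_log (by positivity) h4
  rw [Real.log_div (by positivity) (by norm_num), Real.log_pow] at h5
  push_cast at h5
  linarith

theorem alphaStar_eq : alphaStar = 2 :=
  le_antisymm (iSup₂_le fun _ h => limsup_le_two h)
    (le_iSup₂_of_le s0 isSimplex3_s0 two_le_limsup)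

end Pool.Agent.P.MP_f7c707_co
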