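import Pool.Agent.P.MP_f7c707_co.QThom

/-!
Arcs with distinct pairs of end points.
-/

namespace Pool.Agent.P.MP_f7c707_co

open Finset MvPolynomial Pool.Agent.Lib.PolyPart

lemma qarc_sigma_eq {s : ℕ} (v : Fin s → ℝ) {σ σ' : Fin s → Bool} (h : ∀ i, 0 < sg (σ i) * v i)
    (h' : ∀ i, 0 < sg (σ' i) * v i) : σ = σ' := by
  funext i
  have h1 := h i
  have h2 := h' i
  cases hi : σ i <;> cases hi' : σ' i <;> simp only [hi, hi', sg_true, sg_false] at h1 h2 ⊢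
  · linarith
  · linarith

lemma qarc_sum {S : Type} [Fintype S] (a g x w : S → ℝ) (c N M Ω r r₀ κ : ℝ) (hc : 0 ≤ c)
    (hr : 0 < r) (hr₀ : 0 < r₀) (hκ : 1 ≤ κ) (hΩ : 0 ≤ Ω)
    (hx0 : ∀ σ, 0 ≤ x σ) (hg : ∑ σ, g σ ≤ κ * r₀ * N) (hx : ∀ σ, r₀ ^ 3 * x σ ≤ M)
    (hS : (Fintype.card S : ℝ) ≤ r₀ ^ 3) (hw : ∑ σ, w σ ≤ Ω)
    (ha : ∀ σ, a σ ≤ c * (g σ * (r / r₀) + x σ ^ 2 / (r / r₀) ^ 3 + w σ)) :
    ∑ σ, a σ ≤ κ * c * (N * r + M ^ 2 / r ^ 3 + Ω) := by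
  refine (sum_le_sum fun σ _ => ha σ).trans ?_
  rw [← mul_sum, sum_add_distrib, sum_add_distrib, ← sum_mul, mul_comm κ c, mul_assoc]
  apply mul_le_mul_of_nonneg_left _ hc
  have e1 : (∑ σ, g σ) * (r / r₀) ≤ κ * (N * r) := by
    calc _ ≤ κ * r₀ * N * (r / r₀) := mul_le_mul_of_nonneg_right hg (by positivity)
      _ = _ := by field_simp
  have e2 : ∑ σ, x σ ^ 2 / (r / r₀) ^ 3 ≤ M ^ 2 / r ^ 3 := by
    have h1 := sum_le_card_nsmul univ (fun σ => x σ ^ 2 / (r / r₀) ^ 3) (M ^ 2 / r ^ 3 / r₀ ^ 3)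
      fun σ _ => by
        have h2 : (r₀ ^ 3 * x σ) ^ 2 ≤ M ^ 2 := pow_le_pow_left₀ (by have := hx0 σ; positivity)
          (hx σ) 2
        calc x σ ^ 2 / (r / r₀) ^ 3 = (r₀ ^ 3 * x σ) ^ 2 / r ^ 3 / r₀ ^ 3 := by field_simp
          _ ≤ _ := by gcongr
    refine h1.trans ?_
    rw [nsmul_eq_mul, card_univ]
    calc _ ≤ r₀ ^ 3 * (M ^ 2 / r ^ 3 / r₀ ^ 3) := mul_le_mul_of_nonneg_right hS (by positivity)
      _ = _ := by field_simp
  have e3 : M ^ 2 / r ^ 3 ≤ κ * (M ^ 2 / r ^ 3) := le_mul_of_one_le_left (by positivity) hκ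
  have e4 : Ω ≤ κ * Ω := le_mul_of_one_le_left hΩ hκ
  rw [mul_add, mul_add]
  linarith

theorem arc_bound {ε : ℝ} (hε : 0 < ε) :
    ∃ (D : ℕ) (K : ℝ), 1 ≤ K ∧ ∀ (ι : Type) (F : Finset ι) (γ : ι → ℝ → V),
      (∀ Z ∈ F, ∀ i, IsRat 1 fun t => γ Z t i) → (∀ Z ∈ F, Function.Injective (γ Z)) →
      ∀ (c : ℕ) (I : Ideal (MP 4)) (y : Fin 3 → MP 4), Nice 4 3 c I y →
      ∀ ω : V → ℝ, (∀ p, 0 ≤ ω p) →
      (∀ (I' : Ideal (MP 4)) (y' : Fin 2 → MP 4), Nice 4 2 (c * D) I' y' → ∀ p, ∀ G ⊆ F,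
        (∀ Z ∈ G, (∃ t, γ Z t = p) ∧ ∀ t, Van I' (γ Z t)) → #G ≤ ω p) →
      ∀ (X : Finset V) (G : Finset ι) (A : Finset (Arc ι)), G ⊆ F → ArcSys A →
        (∀ Z ∈ G, ∀ t, Van I (γ Z t)) →
        (∀ a ∈ A, a.1 ∈ G ∧ γ a.1 a.2.1 ∈ X ∧ γ a.1 a.2.2 ∈ X) →
        (∀ a ∈ A, ∀ b ∈ A, γ a.1 a.2.1 = γ b.1 b.2.1 → γ a.1 a.2.2 = γ b.1 b.2.2 → a = b) →
        ∀ r : ℝ, 0 < r →
          (#A : ℝ) ≤ K * (#X : ℝ) ^ ε * (#G * r + (#X : ℝ) ^ 2 / r ^ 3 + ∑ p ∈ X, ω p) := by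
  classical
  set ρ : ℝ := (2 : ℝ) ^ ε with hρ
  have hρ1 : 1 < ρ := Real.one_lt_rpow one_lt_two hε
  obtain ⟨s', hs'1, hs'⟩ := exists_pow_ge 2 18 1 hρ1
  set r₀ : ℕ := 2 ^ s' with hr₀
  set s : ℕ := s' * 3 with hs
  set D : ℕ := s * (3 * r₀) with hD
  set κ : ℝ := 18 * s' + 18 with hκ
  have hr1 : 1 ≤ r₀ := Nat.one_le_two_pow
  have hr1' : (1 : ℝ) ≤ r₀ := by exact_mod_cast hr1
  have hrs : r₀ ^ 3 = 2 ^ s := by rw [hr₀, ← pow_mul]
  have hκ1 : 1 ≤ κ := by have : (0 : ℝ) ≤ s' := Nat.cast_nonneg _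
                         linarith
  have hκρ : 2 * κ ≤ ρ ^ s := by
    refine le_trans (le_of_eq ?_) (hs'.trans (pow_le_pow_right₀ hρ1.le ?_))
    · rw [hκ]; push_cast; ring
    · omega
  have hκD : ((2 * D + 1 : ℕ) : ℝ) ≤ κ * r₀ := by
    rw [hD, hs, hκ]; push_cast; nlinarith
  have hD0 : (0 : ℝ) ≤ D := Nat.cast_nonneg _
  refine ⟨D, 8 * D + 2, by linarith, fun ι F γ hγ hinj c I y hN ω hω hdeg X => ?_⟩
  set K : ℝ := 8 * D + 2 with hK
  induction X using Finset.strongInduction with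
  | H X ih =>
  intro G A hG hA hV hAX hAi r hr
  have hΩ : 0 ≤ ∑ p ∈ X, ω p := sum_nonneg fun p _ => hω p
  rcases A.eq_empty_or_nonempty with rfl | ⟨a₀, ha₀⟩
  · rw [card_empty, Nat.cast_zero]; positivity
  have hne : X.Nonempty := ⟨_, (hAX a₀ ha₀).2.1⟩
  have hX1 : (1 : ℝ) ≤ (#X : ℝ) ^ ε := Real.one_le_rpow (by exact_mod_cast hne.card_pos) hε.le
  by_cases hr' : r ≤ 1
  · have h1 : #A ≤ #(X ×ˢ X) := by
      apply card_le_card_of_injOn (fun a => (γ a.1 a.2.1, γ a.1 a.2.2))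
      · exact fun a ha => mem_coe.2 (mem_product.2 (hAX a (mem_coe.1 ha)).2)
      · intro a ha b hb hab
        simp only [Prod.mk.injEq] at hab
        exact hAi a (mem_coe.1 ha) b (mem_coe.1 hb) hab.1 hab.2
    rw [card_product, ← sq] at h1
    have h2 : (#A : ℝ) ≤ (#X : ℝ) ^ 2 := by exact_mod_cast h1
    have h3 : (#X : ℝ) ^ 2 ≤ (#X : ℝ) ^ 2 / r ^ 3 :=
      le_div_self (by positivity) (by positivity) (pow_le_one₀ hr.le hr')
    have h4 : 0 ≤ (#G : ℝ) * r := by positivity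
    refine le_trans (by linarith) (le_mul_of_one_le_left (by positivity)
      (one_le_mul_of_one_le_of_one_le (by linarith) hX1))
  push Not at hr'
  let Y : V → Fin 3 → ℝ := fun x i => eval x (y i)
  have hY : ∀ Z ∈ G, ∀ i, IsRat 1 fun t => Y (γ Z t) i := fun Z hZ i =>
    isRat_eval (γ Z) (hγ Z (hG hZ)) (y i) (hN.1 i)
  obtain ⟨h, hh, hcell⟩ := poly_partition 3 r₀ s
    (by rw [← hrs]; exact Nat.pow_le_pow_left r₀.le_succ _) Y X
  set H : MP 3 := ∏ i, h i with hH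
  have hH0 : H ≠ 0 := prod_ne_zero_iff.2 fun i _ => (hh i).1
  have hHD : H.totalDegree ≤ D := by
    refine (totalDegree_finsetProd _ _).trans ?_
    calc ∑ i, (h i).totalDegree ≤ ∑ _i : Fin s, 3 * r₀ := sum_le_sum fun i _ => (hh i).2
      _ = D := by simp [hD]
  obtain ⟨y', hN'⟩ := hN.step H hH0 hHD
  let f : Unit → ι → ℝ → ℝ := fun _ Z t => eval (Y (γ Z t)) H
  have hf : ∀ o, ∀ Z ∈ G, IsRat D (f o Z) := fun _ Z hZ => isRat_eval _ (hY Z hZ) H hHD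
  let A₁ : Finset (Arc ι) := {a ∈ A | ¬ Clean (f () a.1) a.2.1 a.2.2}
  let A₂ : Finset (Arc ι) := {a ∈ A | ∀ t, f () a.1 t = 0}
  let Xc : (Fin s → Bool) → Finset V := fun σ => {x ∈ X | ∀ i, 0 < sg (σ i) * eval (Y x) (h i)}
  let Gc : (Fin s → Bool) → Finset ι := fun σ =>
    {Z ∈ G | ∃ t, ∀ i, 0 < sg (σ i) * eval (Y (γ Z t)) (h i)}
  let Ac : (Fin s → Bool) → Finset (Arc ι) := fun σ =>
    {a ∈ A | γ a.1 a.2.1 ∈ Xc σ ∧ γ a.1 a.2.2 ∈ Xc σ}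
  have u1 : (#A₁ : ℝ) ≤ 4 * D * #G := by
    have := (hA.mono (B := A₁) (filter_subset _ _)).card_unclean G f D hf fun a ha =>
      ⟨(hAX a (mem_filter.1 ha).1).1, (), (mem_filter.1 ha).2⟩
    rw [Fintype.card_unit, mul_one] at this
    exact_mod_cast this
  have u2 : (#A₂ : ℝ) ≤ ∑ p ∈ X, ω p := by
    have e1 := card_eq_sum_card_fiberwise (s := A₂) (t := X) (f := fun a => γ a.1 a.2.1)
      (fun a ha => (hAX a (mem_filter.1 (mem_coe.1 ha)).1).2.1)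
    rw [e1]
    push_cast
    apply sum_le_sum
    intro p _
    have e2 : #(({a ∈ A₂ | γ a.1 a.2.1 = p} : Finset (Arc ι)).image Prod.fst) =
        #{a ∈ A₂ | γ a.1 a.2.1 = p} := by
      apply card_image_of_injOn
      intro a ha b hb hab
      obtain ⟨k1, k2⟩ := mem_filter.1 (mem_coe.1 ha)
      obtain ⟨k3, k4⟩ := mem_filter.1 (mem_coe.1 hb)
      have k5 := (mem_filter.1 k1).1
      refine hA.eq_of_fst k5 (mem_filter.1 k3).1 hab (hinj a.1 (hG (hAX a k5).1) ?_)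
      rw [k2, hab, k4]
    rw [← e2]
    refine hdeg _ y' hN' p _ (fun Z hZ => ?_) fun Z hZ => ?_
    · obtain ⟨a, ha, rfl⟩ := mem_image.1 hZ
      exact hG (hAX a (mem_filter.1 (mem_filter.1 ha).1).1).1
    · obtain ⟨a, ha, rfl⟩ := mem_image.1 hZ
      obtain ⟨k1, k2⟩ := mem_filter.1 ha
      obtain ⟨k3, k4⟩ := mem_filter.1 k1
      refine ⟨⟨_, k2⟩, fun t => (hV _ (hAX a k3).1 t).sup ?_⟩
      rw [eval_aeval']
      exact k4 t
  have hs1 : 1 ≤ s := by omega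
  have hss : ∀ σ, Xc σ ⊂ X := by
    intro σ
    refine (filter_subset _ _).ssubset_of_ne fun heq => ?_
    have h1 := hcell σ
    rw [heq] at h1
    have h2 : 2 ≤ 2 ^ s := Nat.le_self_pow (by omega) 2
    have h3 := hne.card_pos
    nlinarith
  have hρs : 0 < ρ ^ s := by positivity
  have hcε : ∀ σ, K * (#(Xc σ) : ℝ) ^ ε ≤ K * (#X : ℝ) ^ ε / ρ ^ s := by
    intro σ
    rw [mul_div_assoc]
    apply mul_le_mul_of_nonneg_left _ (by linarith)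
    rw [le_div_iff₀ hρs, hρ, ← Real.rpow_natCast, ← Real.rpow_mul (by norm_num), mul_comm ε,
      Real.rpow_mul (by norm_num), Real.rpow_natCast,
      ← Real.mul_rpow (by positivity) (by positivity)]
    apply Real.rpow_le_rpow (by positivity) _ hε.le
    rw [mul_comm]
    exact_mod_cast hcell σ
  have u3 := qarc_sum (fun σ => (#(Ac σ) : ℝ)) (fun σ => (#(Gc σ) : ℝ)) (fun σ => (#(Xc σ) : ℝ))
    (fun σ => ∑ p ∈ Xc σ, ω p) (K * (#X : ℝ) ^ ε / ρ ^ s) #G #X (∑ p ∈ X, ω p) r r₀ κ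
    (by positivity) hr (by linarith) hκ1 hΩ (fun σ => by positivity)
    (by
      have := sum_visits_le (E := D) G (fun Z i t => eval (Y (γ Z t)) (h i))
        (fun Z hZ i => (isRat_eval _ (hY Z hZ) (h i) le_rfl).continuous)
        (fun Z hZ => by simpa only [f, hH, map_prod] using hf () Z hZ)
      have h2 : ∑ σ, (#(Gc σ) : ℝ) ≤ ((2 * D + 1 : ℕ) : ℝ) * #G := by exact_mod_cast this
      exact h2.trans (mul_le_mul_of_nonneg_right hκD (by positivity)))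
    (fun σ => by exact_mod_cast (hrs ▸ hcell σ :))
    (by rw [Fintype.card_fun, Fintype.card_bool, Fintype.card_fin, ← hrs, Nat.cast_pow])
    (by
      rw [← sum_biUnion]
      · exact sum_le_sum_of_subset_of_nonneg (biUnion_subset.2 fun σ _ => (hss σ).subset)
          fun p _ _ => hω p
      · intro σ _ σ' _ hσ
        rw [Function.onFun, disjoint_left]
        exact fun x h1 h2 => hσ (qarc_sigma_eq _ (mem_filter.1 h1).2 (mem_filter.1 h2).2))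
    (fun σ => by
      refine (ih (Xc σ) (hss σ) (Gc σ) (Ac σ) ((filter_subset _ _).trans hG)
        (hA.mono (filter_subset _ _)) (fun Z hZ => hV Z (mem_filter.1 hZ).1) (fun a ha => ?_)
        (fun a ha b hb => hAi a (mem_filter.1 ha).1 b (mem_filter.1 hb).1) (r / r₀)
        (by positivity)).trans (mul_le_mul_of_nonneg_right (hcε σ) ?_)
      · obtain ⟨k1, k2, k3⟩ := mem_filter.1 ha
        exact ⟨mem_filter.2 ⟨(hAX a k1).1, _, (mem_filter.1 k2).2⟩, k2, k3⟩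
      · have : 0 ≤ ∑ p ∈ Xc σ, ω p := sum_nonneg fun p _ => hω p
        positivity)
  have hcov : ∀ a ∈ A, ∃ U ∈ [A₁, A₂, univ.biUnion Ac], a ∈ U := by
    intro a ha
    simp only [List.mem_cons, List.not_mem_nil, or_false, exists_eq_or_imp, exists_eq_left]
    by_cases c1 : Clean (f () a.1) a.2.1 a.2.2
    swap
    · exact Or.inl (mem_filter.2 ⟨ha, c1⟩)
    rcases c1 with c1 | c1
    · exact Or.inr (Or.inl (mem_filter.2 ⟨ha, c1⟩))
    obtain ⟨k1, k2, k3⟩ := hAX a ha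
    obtain ⟨σ, m1, m2⟩ := sign_keep_fun (fun i t => eval (Y (γ a.1 t)) (h i))
      (fun i => (isRat_eval _ (hY _ k1) (h i) le_rfl).continuous) (hA.1 a ha).le
      (fun t ht => by simpa only [f, hH, map_prod] using c1 t ht)
    exact Or.inr (Or.inr (mem_biUnion.2 ⟨σ, mem_univ _, mem_filter.2
      ⟨ha, mem_filter.2 ⟨k2, m1⟩, mem_filter.2 ⟨k3, m2⟩⟩⟩))
  have h1 := card_le_list _ A hcov
  simp only [List.map_cons, List.map_nil, List.sum_cons, List.sum_nil, add_zero] at h1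
  have h2 : (#A : ℝ) ≤ _ := Nat.cast_le.2 h1
  push_cast at h2
  have h3 : (#(univ.biUnion Ac) : ℝ) ≤ ∑ σ, (#(Ac σ) : ℝ) := by exact_mod_cast card_biUnion_le
  set T : ℝ := #G * r + (#X : ℝ) ^ 2 / r ^ 3 + ∑ p ∈ X, ω p with hT
  have hT1 : (#G : ℝ) ≤ #G * r := le_mul_of_one_le_right (by positivity) hr'.le
  have hT2 : 0 ≤ (#X : ℝ) ^ 2 / r ^ 3 := by positivity
  have hG0 : (0 : ℝ) ≤ #G := Nat.cast_nonneg _
  have hT0 : 0 ≤ T := by positivity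
  have h4 : κ * (K * (#X : ℝ) ^ ε / ρ ^ s) * T ≤ K * (#X : ℝ) ^ ε / 2 * T := by
    apply mul_le_mul_of_nonneg_right _ hT0
    rw [← mul_div_assoc, div_le_div_iff₀ hρs two_pos]
    have := mul_le_mul_of_nonneg_left hκρ (show 0 ≤ K * (#X : ℝ) ^ ε by positivity)
    linarith
  have h5 : (4 * D + 1) * T ≤ K * (#X : ℝ) ^ ε / 2 * T := by
    apply mul_le_mul_of_nonneg_right _ hT0
    have := mul_le_mul_of_nonneg_left hX1 (show 0 ≤ K by linarith)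
    linarith
  have h6 : (4 * D : ℝ) * #G ≤ 4 * D * T := mul_le_mul_of_nonneg_left (by linarith) (by positivity)
  linarith

end Pool.Agent.P.MP_f7c707_co
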