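import Pool.Agent.P.MP_f7c707_co.QDefs

/-!
Circles: parametrisation and reversal of tangents.
-/

namespace Pool.Agent.P.MP_f7c707_co

open Finset MvPolynomial Pool.Agent.Lib.PolyPart

lemma Crv.rat_pt (Γ : Crv) (i : Fin 4) : IsRat 1 fun t => Γ.pt t i := by
  refine ⟨Polynomial.C (Γ.o i - Γ.R * Γ.e₁ i) * Polynomial.X ^ 2 +
    Polynomial.C (2 * Γ.R * Γ.e₂ i) * Polynomial.X + Polynomial.C (Γ.o i + Γ.R * Γ.e₁ i),
    Polynomial.natDegree_quadratic_le, fun s => ?_⟩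
  simp only [Crv.pt, Polynomial.eval_add, Polynomial.eval_mul, Polynomial.eval_C,
    Polynomial.eval_pow, Polynomial.eval_X, Pi.add_apply, Pi.smul_apply, smul_eq_mul]
  field_simp
  ring

lemma Crv.rat_tg (Γ : Crv) (i : Fin 4) : IsRat 1 fun t => Γ.tg t i := by
  refine ⟨Polynomial.C (-Γ.e₂ i) * Polynomial.X ^ 2 +
    Polynomial.C (-2 * Γ.e₁ i) * Polynomial.X + Polynomial.C (Γ.e₂ i),
    Polynomial.natDegree_quadratic_le, fun s => ?_⟩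
  simp only [Crv.tg, Polynomial.eval_add, Polynomial.eval_mul, Polynomial.eval_C,
    Polynomial.eval_pow, Polynomial.eval_X, Pi.add_apply, Pi.smul_apply, smul_eq_mul]
  field_simp
  ring

lemma Crv.Ok.dot {Γ : Crv} (h : Γ.Ok) (a b a' b' : ℝ) :
    (a • Γ.e₁ + b • Γ.e₂) ⬝ᵥ (a' • Γ.e₁ + b' • Γ.e₂) = a * a' + b * b' := by
  simp only [add_dotProduct, dotProduct_add, smul_dotProduct, dotProduct_smul, smul_eq_mul,
    dotProduct_comm Γ.e₂ Γ.e₁, h.1, h.2.1, h.2.2.1]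
  ring

lemma Crv.Ok.pt_injective {Γ : Crv} (h : Γ.Ok) : Function.Injective Γ.pt := by
  intro s s' hs
  simp only [Crv.pt, add_assoc, add_right_inj] at hs
  have h1 := congrArg (· ⬝ᵥ ((1 : ℝ) • Γ.e₁ + (0 : ℝ) • Γ.e₂)) hs
  have h2 := congrArg (· ⬝ᵥ ((0 : ℝ) • Γ.e₁ + (1 : ℝ) • Γ.e₂)) hs
  simp only [h.dot, mul_one, mul_zero, add_zero, zero_add] at h1 h2
  have hR := h.2.2.2.ne'
  field_simp at h1 h2
  have h3 : s ^ 2 = s' ^ 2 := by linarith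
  have h4 : (s - s') * (1 + s' ^ 2) = 0 := by linear_combination h2 + s' * h3
  exact sub_eq_zero.1 ((mul_eq_zero.1 h4).resolve_right (by positivity))

lemma short_of_avoid {s s' : ℝ} (h : s < s')
    (h0 : ∀ t ∈ ({-1, 0, 1} : Finset ℝ), ¬ (s ≤ t ∧ t ≤ s')) : Short s s' := by
  have h1 := h0 (-1) (by simp)
  have h2 := h0 0 (by simp)
  have h3 := h0 1 (by simp)
  rw [not_and_or, not_le, not_le] at h1 h2 h3
  refine ⟨h, ?_, ?_⟩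
  · rcases h2 with h2 | h2
    · exact mul_pos h2 (by linarith)
    · exact mul_pos_of_neg_of_neg (by linarith) h2
  · rcases h1 with h1 | h1
    · rcases h3 with h3 | h3
      · exact mul_pos_of_neg_of_neg (by nlinarith) (by nlinarith)
      · exact mul_pos (by nlinarith) (by nlinarith)
    · exact mul_pos_of_neg_of_neg (by nlinarith) (by nlinarith)

lemma qcirc_half {a a' h : V} {k : ℝ} (ha : a ⬝ᵥ a = 1) (ha' : a' ⬝ᵥ a' = 1) (h1 : a + a' = k • h)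
    (hk : 0 < k) (p : 0 < a ⬝ᵥ a') :
    a ⬝ᵥ h = k * (h ⬝ᵥ h) / 2 ∧ 2 < k ^ 2 * (h ⬝ᵥ h) := by
  have e : a' = k • h - a := by rw [← h1]; abel
  subst e
  simp only [dotProduct_sub, sub_dotProduct, dotProduct_smul, smul_dotProduct, smul_eq_mul,
    dotProduct_comm h a, ha] at ha' p
  have e1 : a ⬝ᵥ h = k * (h ⬝ᵥ h) / 2 := by
    apply mul_left_cancel₀ hk.ne'
    linarith
  refine ⟨e1, ?_⟩
  rw [e1] at p
  linarith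

lemma qcirc_arith {aa bb ab H k₁ k₂ : ℝ} (hk₁ : 0 < k₁) (hk₂ : 0 < k₂)
    (e1 : aa = 1 - k₁ ^ 2 * H / 4) (e2 : bb = 1 - k₂ ^ 2 * H / 4) (p1 : 2 < k₁ ^ 2 * H)
    (p2 : 2 < k₂ ^ 2 * H) (cs : ab ^ 2 ≤ aa * bb)
    (w : 2 * (k₁ * k₂) * ab ≤ k₂ ^ 2 * aa + k₁ ^ 2 * bb) (x : 0 < aa + bb - 2 * ab) :
    (k₁ - k₂) ^ 2 * H / 4 < aa + bb - 2 * ab := by
  have hkk : 0 < k₁ * k₂ := mul_pos hk₁ hk₂
  have hH : 0 < H := by
    by_contra hH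
    nlinarith [sq_nonneg k₁]
  have a1 : aa < k₁ ^ 2 * H / 4 := by linarith
  have a2 : bb < k₂ ^ 2 * H / 4 := by linarith
  have a3 : ab < k₁ * k₂ * H / 4 := by
    apply lt_of_mul_lt_mul_left _ (show 0 ≤ 2 * (k₁ * k₂) by positivity)
    have b1 := mul_lt_mul_of_pos_left a1 (show 0 < k₂ ^ 2 by positivity)
    have b2 := mul_lt_mul_of_pos_left a2 (show 0 < k₁ ^ 2 by positivity)
    nlinarith
  have a4 : aa + bb + 2 * ab < (k₁ + k₂) ^ 2 * H / 4 := by nlinarith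
  have a5 : (aa - bb) ^ 2 ≤ (aa + bb - 2 * ab) * (aa + bb + 2 * ab) := by nlinarith
  have a6 : (aa - bb) ^ 2 = (k₁ - k₂) ^ 2 * H / 4 * ((k₁ + k₂) ^ 2 * H / 4) := by
    rw [e1, e2]; ring
  apply lt_of_mul_lt_mul_right _ (show 0 ≤ (k₁ + k₂) ^ 2 * H / 4 by positivity)
  rw [← a6]
  exact a5.trans_lt (mul_lt_mul_of_pos_left a4 x)

lemma qcirc_self_nonneg (u : V) : 0 ≤ u ⬝ᵥ u := sum_nonneg fun _ _ => mul_self_nonneg _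

lemma reversal_vec {a a' b b' h : V} {k₁ k₂ : ℝ} (ha : a ⬝ᵥ a = 1) (ha' : a' ⬝ᵥ a' = 1)
    (hb : b ⬝ᵥ b = 1) (hb' : b' ⬝ᵥ b' = 1) (h1 : a + a' = k₁ • h) (h2 : b + b' = k₂ • h)
    (hk₁ : 0 < k₁) (hk₂ : 0 < k₂) (p1 : 0 < a ⬝ᵥ a') (p2 : 0 < b ⬝ᵥ b') (hne : a ≠ b) :
    (a - b) ⬝ᵥ (a' - b') < 0 := by
  obtain ⟨q1, q2⟩ := qcirc_half ha ha' h1 hk₁ p1
  obtain ⟨q3, q4⟩ := qcirc_half hb hb' h2 hk₂ p2
  obtain ⟨A, rfl⟩ : ∃ A, a = A + (k₁ / 2) • h := ⟨a - (k₁ / 2) • h, by abel⟩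
  obtain ⟨B, rfl⟩ : ∃ B, b = B + (k₂ / 2) • h := ⟨b - (k₂ / 2) • h, by abel⟩
  have e1 : a' = k₁ • h - (A + (k₁ / 2) • h) := by rw [← h1]; abel
  have e2 : b' = k₂ • h - (B + (k₂ / 2) • h) := by rw [← h2]; abel
  subst e1 e2
  have cs : (A ⬝ᵥ B) ^ 2 ≤ (A ⬝ᵥ A) * (B ⬝ᵥ B) := by
    have := sum_mul_sq_le_sq_mul_sq univ A B
    simpa only [dotProduct, sq] using this
  have w := qcirc_self_nonneg (k₂ • A - k₁ • B)
  have x := qcirc_self_nonneg (A - B)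
  have x0 : (A - B) ⬝ᵥ (A - B) = 0 → A = B := fun h => sub_eq_zero.1 (dotProduct_self_eq_zero.1 h)
  simp only [dotProduct_sub, sub_dotProduct, dotProduct_add, add_dotProduct, dotProduct_smul,
    smul_dotProduct, smul_eq_mul, dotProduct_comm h A, dotProduct_comm h B,
    dotProduct_comm B A] at ha hb q1 q3 w x x0 ⊢
  have f1 : A ⬝ᵥ h = 0 := by linarith
  have f2 : B ⬝ᵥ h = 0 := by linarith
  rw [f1] at ha
  rw [f2] at hb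
  rw [f1, f2]
  have x1 : 0 < A ⬝ᵥ A + B ⬝ᵥ B - 2 * (A ⬝ᵥ B) := by
    refine lt_of_le_of_ne (by linarith) fun h0 => hne ?_
    have hAB := x0 (by linarith)
    subst hAB
    have hH : 0 < h ⬝ᵥ h := by
      by_contra hH
      nlinarith [sq_nonneg k₁]
    have : k₁ ^ 2 = k₂ ^ 2 := mul_right_cancel₀ hH.ne' (by linarith)
    rw [(pow_left_inj₀ hk₁.le hk₂.le two_ne_zero).1 this]
  have := qcirc_arith (aa := A ⬝ᵥ A) (bb := B ⬝ᵥ B) (ab := A ⬝ᵥ B) hk₁ hk₂ (by linarith)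
    (by linarith) q2 q4 cs (by linarith) x1
  linarith

/-- Inner unit normal. -/
noncomputable def Crv.nm (Γ : Crv) (s : ℝ) : V :=
  (-(1 - s ^ 2) / (1 + s ^ 2)) • Γ.e₁ + (-(2 * s) / (1 + s ^ 2)) • Γ.e₂

lemma Crv.Ok.tg_unit {Γ : Crv} (h : Γ.Ok) (s : ℝ) : Γ.tg s ⬝ᵥ Γ.tg s = 1 := by
  rw [Crv.tg, h.dot]; field_simp; ring

lemma Crv.Ok.nm_unit {Γ : Crv} (h : Γ.Ok) (s : ℝ) : Γ.nm s ⬝ᵥ Γ.nm s = 1 := by
  rw [Crv.nm, h.dot]; field_simp; ring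

lemma Crv.Ok.nm_tg {Γ : Crv} (h : Γ.Ok) (s : ℝ) : Γ.nm s ⬝ᵥ Γ.tg s = 0 := by
  rw [Crv.nm, Crv.tg, h.dot]; field_simp; ring

lemma Crv.Ok.tg_pos {Γ : Crv} (h : Γ.Ok) {s s' : ℝ} (k : Short s s') : 0 < Γ.tg s ⬝ᵥ Γ.tg s' := by
  rw [Crv.tg, Crv.tg, h.dot]
  have : -(2 * s) / (1 + s ^ 2) * (-(2 * s') / (1 + s' ^ 2)) +
      (1 - s ^ 2) / (1 + s ^ 2) * ((1 - s' ^ 2) / (1 + s' ^ 2)) =
      (4 * (s * s') + (1 - s ^ 2) * (1 - s' ^ 2)) / ((1 + s ^ 2) * (1 + s' ^ 2)) := by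
    field_simp; ring
  rw [this]
  exact div_pos (by linarith [k.2.1, k.2.2]) (by positivity)

lemma Crv.Ok.tg_add {Γ : Crv} (h : Γ.Ok) {s s' : ℝ} (k : s < s') :
    Γ.tg s + Γ.tg s' = ((1 + s * s') / (Γ.R * (s' - s))) • (Γ.pt s' - Γ.pt s) := by
  have hR := h.2.2.2.ne'
  have hs : s' - s ≠ 0 := by linarith
  funext i
  simp only [Crv.tg, Crv.pt, Pi.add_apply, Pi.sub_apply, Pi.smul_apply, smul_eq_mul]
  field_simp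
  ring

lemma Crv.chord (Γ : Crv) (s s' : ℝ) : Γ.pt s' - Γ.pt s =
    (2 * Γ.R * (s' - s) * (1 + s * s') / ((1 + s ^ 2) * (1 + s' ^ 2))) • Γ.tg s +
      (2 * Γ.R * (s' - s) ^ 2 / ((1 + s ^ 2) * (1 + s' ^ 2))) • Γ.nm s := by
  funext i
  simp only [Crv.tg, Crv.pt, Crv.nm, Pi.add_apply, Pi.sub_apply, Pi.smul_apply, smul_eq_mul]
  field_simp
  ring

lemma Crv.Ok.chord_sq {Γ : Crv} (h : Γ.Ok) (s s' : ℝ) : (Γ.pt s' - Γ.pt s) ⬝ᵥ (Γ.pt s' - Γ.pt s) =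
    2 * Γ.R * (2 * Γ.R * (s' - s) ^ 2 / ((1 + s ^ 2) * (1 + s' ^ 2))) := by
  rw [Γ.chord]
  simp only [add_dotProduct, dotProduct_add, smul_dotProduct, dotProduct_smul, smul_eq_mul,
    dotProduct_comm (Γ.tg s) (Γ.nm s), h.tg_unit, h.nm_unit, h.nm_tg]
  field_simp
  ring

lemma Crv.antipode (Γ : Crv) {s : ℝ} (hs : s ≠ 0) :
    Γ.pt (-1 / s) = Γ.pt s + (2 : ℝ) • Γ.R • Γ.nm s := by
  funext i
  simp only [Crv.pt, Crv.nm, Pi.add_apply, Pi.smul_apply, smul_eq_mul]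
  field_simp
  ring

lemma qcirc_centre {T n₁ n₂ : V} {l₁ l₂ m₁ m₂ R₁ R₂ : ℝ} (hT : T ⬝ᵥ T = 1) (u₁ : n₁ ⬝ᵥ n₁ = 1)
    (u₂ : n₂ ⬝ᵥ n₂ = 1) (p₁ : n₁ ⬝ᵥ T = 0) (p₂ : n₂ ⬝ᵥ T = 0) (h₁ : 0 < m₁) (h₂ : 0 < m₂)
    (e : l₁ • T + m₁ • n₁ = l₂ • T + m₂ • n₂) (e' : 2 * R₁ * m₁ = 2 * R₂ * m₂) :
    R₁ • n₁ = R₂ • n₂ := by
  have a1 := congrArg (· ⬝ᵥ T) e
  simp only [add_dotProduct, smul_dotProduct, smul_eq_mul, hT, p₁, p₂, mul_one, mul_zero,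
    add_zero] at a1
  rw [a1, add_right_inj] at e
  have a2 : (m₁ • n₁) ⬝ᵥ (m₁ • n₁) = (m₂ • n₂) ⬝ᵥ (m₂ • n₂) := by rw [e]
  simp only [smul_dotProduct, dotProduct_smul, smul_eq_mul, u₁, u₂, mul_one] at a2
  have a3 : m₁ = m₂ := (mul_self_inj h₁.le h₂.le).1 a2
  subst a3
  rw [smul_right_injective _ h₁.ne' e, show R₁ = R₂ by
    have := mul_right_cancel₀ h₁.ne' e'
    linarith]

/-- Two short arcs with the same end points: a third common point, or reversed tangents. -/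
theorem reversal {Γ₁ Γ₂ : Crv} (h₁ : Γ₁.Ok) (h₂ : Γ₂.Ok) {s₁ s₁' s₂ s₂' : ℝ}
    (k₁ : Short s₁ s₁') (k₂ : Short s₂ s₂') (e : Γ₁.pt s₁ = Γ₂.pt s₂)
    (e' : Γ₁.pt s₁' = Γ₂.pt s₂') :
    (∃ t t', t ≠ s₁ ∧ t ≠ s₁' ∧ Γ₁.pt t = Γ₂.pt t') ∨
      ∃ i, (Γ₁.tg s₁ i - Γ₂.tg s₂ i) * (Γ₁.tg s₁' i - Γ₂.tg s₂' i) < 0 := by
  have R₁ := h₁.2.2.2
  have R₂ := h₂.2.2.2
  have d₁ : 0 < s₁' - s₁ := sub_pos.2 k₁.1
  have d₂ : 0 < s₂' - s₂ := sub_pos.2 k₂.1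
  by_cases hT : Γ₁.tg s₁ = Γ₂.tg s₂
  · left
    have z₁ : s₁ ≠ 0 := left_ne_zero_of_mul k₁.2.1.ne'
    have z₂ : s₂ ≠ 0 := left_ne_zero_of_mul k₂.2.1.ne'
    refine ⟨-1 / s₁, -1 / s₂, fun h => ?_, fun h => ?_, ?_⟩
    · rw [div_eq_iff z₁] at h
      nlinarith
    · rw [div_eq_iff z₁] at h
      nlinarith [k₁.2.1]
    · have c1 := Γ₁.chord s₁ s₁'
      have c2 := h₁.chord_sq s₁ s₁'
      rw [e, e'] at c1 c2
      rw [Γ₂.chord, hT] at c1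
      rw [h₂.chord_sq] at c2
      rw [Γ₁.antipode z₁, Γ₂.antipode z₂, e, qcirc_centre (h₂.tg_unit s₂) (h₁.nm_unit s₁)
        (h₂.nm_unit s₂) (hT ▸ h₁.nm_tg s₁) (h₂.nm_tg s₂) (by positivity) (by positivity)
        c1.symm c2.symm]
  · right
    have c2 := h₂.tg_add k₂.1
    rw [← e, ← e'] at c2
    have := reversal_vec (h₁.tg_unit s₁) (h₁.tg_unit s₁') (h₂.tg_unit s₂) (h₂.tg_unit s₂')
      (h₁.tg_add k₁.1) c2 (div_pos (by linarith [k₁.2.1]) (by positivity))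
      (div_pos (by linarith [k₂.2.1]) (by positivity)) (h₁.tg_pos k₁) (h₂.tg_pos k₂) hT
    by_contra hcon
    push Not at hcon
    exact absurd this (not_lt.2 (sum_nonneg fun i _ => hcon i))

end Pool.Agent.P.MP_f7c707_co
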