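import Pool.Agent.P.MP_f7c707_co.QCirc

/-!
The common neighbours of two centres form a circle.
-/

namespace Pool.Agent.P.MP_f7c707_co

open Finset MvPolynomial Pool.Agent.Lib.PolyPart

lemma qcrv_unit {w : V} (hw : w ≠ 0) : ∃ t : ℝ, (t • w) ⬝ᵥ (t • w) = 1 := by
  have h : 0 < w ⬝ᵥ w :=
    lt_of_le_of_ne (qcirc_self_nonneg w) fun h => hw (dotProduct_self_eq_zero.1 h.symm)
  refine ⟨(√(w ⬝ᵥ w))⁻¹, ?_⟩
  rw [smul_dotProduct, dotProduct_smul, smul_eq_mul, smul_eq_mul, ← mul_assoc, ← mul_inv,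
    Real.mul_self_sqrt h.le, inv_mul_cancel₀ h.ne']

lemma qcrv_frame {u v : V} (h : Ind2 u v) : ∃ e₁ e₂ : V, e₁ ⬝ᵥ e₁ = 1 ∧ e₂ ⬝ᵥ e₂ = 1 ∧
    e₁ ⬝ᵥ e₂ = 0 ∧ u ⬝ᵥ e₁ = 0 ∧ u ⬝ᵥ e₂ = 0 ∧ v ⬝ᵥ e₁ = 0 ∧ v ⬝ᵥ e₂ = 0 ∧
      ∀ w, u ⬝ᵥ w = 0 → v ⬝ᵥ w = 0 → ∃ a b : ℝ, w = a • e₁ + b • e₂ := by
  obtain ⟨w₁, h1, a1, a2, -⟩ := exists_perp u v 0
  obtain ⟨w₂, h2, b1, b2, b3⟩ := exists_perp u v w₁
  obtain ⟨t₁, k1⟩ := qcrv_unit h1
  obtain ⟨t₂, k2⟩ := qcrv_unit h2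
  have c0 : (t₁ • w₁) ⬝ᵥ (t₂ • w₂) = 0 := by
    rw [smul_dotProduct, dotProduct_smul, b3, smul_zero, smul_zero]
  have c1 : u ⬝ᵥ (t₁ • w₁) = 0 := by rw [dotProduct_smul, a1, smul_zero]
  have c2 : u ⬝ᵥ (t₂ • w₂) = 0 := by rw [dotProduct_smul, b1, smul_zero]
  have c3 : v ⬝ᵥ (t₁ • w₁) = 0 := by rw [dotProduct_smul, a2, smul_zero]
  have c4 : v ⬝ᵥ (t₂ • w₂) = 0 := by rw [dotProduct_smul, b2, smul_zero]
  refine ⟨_, _, k1, k2, c0, c1, c2, c3, c4, fun w d1 d2 => ?_⟩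
  have hi : Ind2 (t₁ • w₁) (t₂ • w₂) := by
    intro α β hh
    have e1 := congrArg ((t₁ • w₁) ⬝ᵥ ·) hh
    have e2 := congrArg (· ⬝ᵥ (t₂ • w₂)) hh
    simp only [dotProduct_add, dotProduct_smul α, dotProduct_smul β, k1, c0, smul_eq_mul, mul_one,
      mul_zero, add_zero, dotProduct_zero] at e1
    simp only [add_dotProduct, smul_dotProduct α, smul_dotProduct β, k2, c0, smul_eq_mul, mul_one,
      mul_zero, zero_add, zero_dotProduct] at e2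
    exact ⟨e1, e2⟩
  refine hi.exists_of_not_ind3 fun h3 => no_five h3 h ?_ ?_ ?_ ?_ ?_ ?_ <;>
    rw [dotProduct_comm] <;> assumption

/-- The common neighbours of two centres form a circle. -/
theorem exists_crv {d : V} {al ga rho : ℝ} (hρ : rho ≠ al + ga) {Z : Finset V} (hZ : #Z = 2)
    (hc : ∀ c ∈ Z, d2 c d = ga) {x₁ x₂ : V} (h12 : x₁ ≠ x₂) (h1 : OnG d al rho Z x₁)
    (h2 : OnG d al rho Z x₂) :
    ∃ Γ : Crv, Γ.Ok ∧ (∀ s, OnG d al rho Z (Γ.pt s)) ∧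
      ∃ x₀, ∀ x, OnG d al rho Z x → x = x₀ ∨ ∃ s, x = Γ.pt s := by
  obtain ⟨c, c', hcc, rfl⟩ := card_eq_two.1 hZ
  have g1 := hc c (by simp)
  have g2 := hc c' (by simp)
  have hon : ∀ x, OnG d al rho {c, c'} x ↔ d2 x d = al ∧
      (c - d) ⬝ᵥ (x - d) = (al + ga - rho) / 2 ∧ (c' - d) ⬝ᵥ (x - d) = (al + ga - rho) / 2 := by
    intro x
    simp only [OnG, mem_insert, mem_singleton, forall_eq_or_imp, forall_eq, d2, dotProduct,
      Fin.sum_univ_four, Pi.sub_apply] at g1 g2 ⊢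
    constructor <;> rintro ⟨a1, a2, a3⟩ <;> refine ⟨a1, ?_, ?_⟩ <;> linarith
  simp only [hon] at h1 h2 ⊢
  have hi : Ind2 (c - d) (c' - d) := by
    intro α β hh
    have e1 := congrArg (· ⬝ᵥ (x₁ - d)) hh
    simp only [add_dotProduct, smul_dotProduct, h1.2.1, h1.2.2, smul_eq_mul, zero_dotProduct] at e1
    have e2 : α + β = 0 := by
      apply mul_right_cancel₀ (show (al + ga - rho) / 2 ≠ 0 from fun h => hρ (by linarith))
      linarith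
    have e3 : α = 0 := by
      by_contra hα
      apply hcc
      funext i
      have := congrFun hh i
      simp only [Pi.add_apply, Pi.smul_apply, Pi.sub_apply, smul_eq_mul, Pi.zero_apply] at this
      apply mul_left_cancel₀ hα
      linear_combination this - (c' i - d i) * e2
    exact ⟨e3, by linarith⟩
  obtain ⟨e₁, e₂, u1, u2, u3, p1, p2, p3, p4, hspan⟩ := qcrv_frame hi
  obtain ⟨o, ho⟩ : ∃ o, o = x₁ - d - ((x₁ - d) ⬝ᵥ e₁) • e₁ - ((x₁ - d) ⬝ᵥ e₂) • e₂ := ⟨_, rfl⟩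
  have o1 : o ⬝ᵥ e₁ = 0 := by
    rw [ho, sub_dotProduct, sub_dotProduct, smul_dotProduct, smul_dotProduct, u1,
      dotProduct_comm e₂, u3]
    simp
  have o2 : o ⬝ᵥ e₂ = 0 := by
    rw [ho, sub_dotProduct, sub_dotProduct, smul_dotProduct, smul_dotProduct, u2, u3]
    simp
  have o3 : (c - d) ⬝ᵥ o = (al + ga - rho) / 2 := by
    rw [ho, dotProduct_sub, dotProduct_sub, dotProduct_smul, dotProduct_smul, p1, p2, h1.2.1]
    simp
  have o4 : (c' - d) ⬝ᵥ o = (al + ga - rho) / 2 := by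
    rw [ho, dotProduct_sub, dotProduct_sub, dotProduct_smul, dotProduct_smul, p3, p4, h1.2.2]
    simp
  have hd : ∀ a b : ℝ, d2 (d + o + a • e₁ + b • e₂) d = o ⬝ᵥ o + (a ^ 2 + b ^ 2) := by
    intro a b
    have : d + o + a • e₁ + b • e₂ - d = o + a • e₁ + b • e₂ := by abel
    rw [d2, this]
    simp only [add_dotProduct, dotProduct_add, smul_dotProduct, dotProduct_smul, smul_eq_mul,
      dotProduct_comm e₁ o, dotProduct_comm e₂ o, dotProduct_comm e₂ e₁, u1, u2, u3, o1, o2]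
    ring
  have hrep : ∀ x, d2 x d = al ∧ (c - d) ⬝ᵥ (x - d) = (al + ga - rho) / 2 ∧
      (c' - d) ⬝ᵥ (x - d) = (al + ga - rho) / 2 →
      ∃ a b : ℝ, x = d + o + a • e₁ + b • e₂ ∧ a ^ 2 + b ^ 2 = al - o ⬝ᵥ o := by
    rintro x ⟨a1, a2, a3⟩
    obtain ⟨a, b, hab⟩ := hspan (x - d - o) (by rw [dotProduct_sub, a2, o3, sub_self])
      (by rw [dotProduct_sub, a3, o4, sub_self])
    have hx : x = d + o + a • e₁ + b • e₂ := by rw [add_assoc, ← hab]; abel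
    refine ⟨a, b, hx, ?_⟩
    rw [hx, hd] at a1
    linarith
  have hR : 0 < al - o ⬝ᵥ o := by
    obtain ⟨a, b, k1, k2⟩ := hrep x₁ h1
    obtain ⟨a', b', k3, k4⟩ := hrep x₂ h2
    by_contra hn
    have z : ∀ t t' : ℝ, t ^ 2 + t' ^ 2 = al - o ⬝ᵥ o → t = 0 ∧ t' = 0 := fun t t' h =>
      ⟨by nlinarith [sq_nonneg t, sq_nonneg t'], by nlinarith [sq_nonneg t, sq_nonneg t']⟩
    apply h12
    rw [k1, k3, (z a b k2).1, (z a b k2).2, (z a' b' k4).1, (z a' b' k4).2]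
  obtain ⟨R, hR0, hR2⟩ : ∃ R : ℝ, 0 < R ∧ R ^ 2 = al - o ⬝ᵥ o :=
    ⟨√_, Real.sqrt_pos.2 hR, Real.sq_sqrt hR.le⟩
  refine ⟨⟨d + o, e₁, e₂, R⟩, ⟨u1, u2, u3, hR0⟩, fun s => ?_, d + o + (-R) • e₁, fun x hx => ?_⟩
  · simp only [Crv.pt]
    have : ∀ a b : ℝ, d + o + a • e₁ + b • e₂ - d = o + a • e₁ + b • e₂ := fun a b => by abel
    refine ⟨?_, ?_, ?_⟩
    · have e : (R * (1 - s ^ 2) / (1 + s ^ 2)) ^ 2 + (R * (2 * s) / (1 + s ^ 2)) ^ 2 = R ^ 2 := by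
        field_simp; ring
      rw [hd, e, hR2]; ring
    · rw [this, dotProduct_add, dotProduct_add, dotProduct_smul, dotProduct_smul, p1, p2, o3]
      simp
    · rw [this, dotProduct_add, dotProduct_add, dotProduct_smul, dotProduct_smul, p3, p4, o4]
      simp
  · obtain ⟨a, b, rfl, k⟩ := hrep x hx
    rw [← hR2] at k
    by_cases ha : R + a = 0
    · left
      have e1 : a = -R := by linarith
      have e2 : b = 0 := by
        rw [e1] at k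
        exact pow_eq_zero_iff two_ne_zero |>.1 (by linarith)
      rw [e1, e2, zero_smul, add_zero]
    · right
      refine ⟨b / (R + a), ?_⟩
      have e0 : 1 + (b / (R + a)) ^ 2 = 2 * R / (R + a) := by
        field_simp
        linarith
      have e1 : R * (1 - (b / (R + a)) ^ 2) / (1 + (b / (R + a)) ^ 2) = a := by
        rw [show 1 - (b / (R + a)) ^ 2 = 2 - (1 + (b / (R + a)) ^ 2) by ring, e0]
        field_simp
        ring
      have e2 : R * (2 * (b / (R + a))) / (1 + (b / (R + a)) ^ 2) = b := by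
        rw [e0]
        field_simp
      simp only [Crv.pt, e1, e2]

end Pool.Agent.P.MP_f7c707_co
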