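import Pool.Agent.P.MP_f7c707_co.QRat
import Pool.Agent.P.MP_f7c707_co.QCirc
import Pool.Agent.P.MP_f7c707_co.QCrv

/-!
Short arcs between consecutive points.
-/

namespace Pool.Agent.P.MP_f7c707_co

open Finset MvPolynomial Pool.Agent.Lib.PolyPart

/-- Short arcs between consecutive points. -/
lemma exists_arcs (P C : Finset V) (d : V) (al ga rho : ℝ) (hρ : rho ≠ al + ga)
    (hP : ∀ p ∈ P, d2 p d = al) (hC : ∀ c ∈ C, d2 c d = ga) (F : Finset (Finset V))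
    (hF : ∀ Z ∈ F, Z ⊆ C ∧ #Z = 2) :
    ∃ (F' : Finset (Finset V)) (Γ : Finset V → Crv) (A : Finset (Arc (Finset V))), F' ⊆ F ∧
      (∀ Z ∈ F', (Γ Z).Ok) ∧ PairFam d al ga rho F' (fun Z => (Γ Z).pt) ∧ ArcSys A ∧
      (∀ a ∈ A, a.1 ∈ F' ∧ Short a.2.1 a.2.2 ∧ (Γ a.1).pt a.2.1 ∈ P ∧ (Γ a.1).pt a.2.2 ∈ P) ∧
      ∑ p ∈ P, #{Z ∈ F | Z ⊆ nb C p rho} ≤ #A + 8 * #F := by
  classical
  let PZ : Finset V → Finset V := fun Z => {p ∈ P | Z ⊆ nb C p rho}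
  have hon : ∀ Z, ∀ p ∈ PZ Z, OnG d al rho Z p := fun Z p hp =>
    ⟨hP p (mem_filter.1 hp).1, fun c hc => d2_comm _ _ ▸ (mem_nb.1 ((mem_filter.1 hp).2 hc)).2⟩
  set F' := {Z ∈ F | 1 < #(PZ Z)} with hF'
  have h1 : ∀ Z ∈ F', ∃ (Γ : Crv) (B : Finset (ℝ × ℝ)), Γ.Ok ∧ (∀ s, OnG d al rho Z (Γ.pt s)) ∧
      (∀ a ∈ B, Γ.pt a.1 ∈ P ∧ Γ.pt a.2 ∈ P ∧ a.1 < a.2) ∧
      (∀ a ∈ B, ∀ b ∈ B, a ≠ b → a.2 ≤ b.1 ∨ b.2 ≤ a.1) ∧ #(PZ Z) ≤ #B + 2 := by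
    intro Z hZ
    obtain ⟨k1, k2⟩ := mem_filter.1 hZ
    obtain ⟨x₁, m1, x₂, m2, h12⟩ := one_lt_card.1 k2
    obtain ⟨Γ, g1, g2, x₀, g3⟩ := exists_crv hρ (hF Z k1).2 (fun c hc => hC c ((hF Z k1).1 hc)) h12
      (hon Z _ m1) (hon Z _ m2)
    obtain ⟨B, b1, b2, b3⟩ := exists_consecutive (P.preimage Γ.pt g1.pt_injective.injOn)
    refine ⟨Γ, B, g1, g2, fun a ha => ⟨mem_preimage.1 (b1 a ha).1, mem_preimage.1 (b1 a ha).2.1,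
      (b1 a ha).2.2⟩, b2, ?_⟩
    have e1 : PZ Z ⊆ insert x₀ ((P.preimage Γ.pt g1.pt_injective.injOn).image Γ.pt) := by
      intro p hp
      rcases g3 p (hon Z p hp) with rfl | ⟨s, rfl⟩
      · exact mem_insert_self _ _
      · exact mem_insert_of_mem (mem_image_of_mem _ (mem_preimage.2 (mem_filter.1 hp).1))
    have e2 := (card_le_card e1).trans ((card_insert_le _ _).trans
      (Nat.add_le_add_right card_image_le 1))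
    omega
  have : Inhabited Crv := ⟨⟨0, 0, 0, 0⟩⟩
  choose! Γ B g1 g2 g3 g4 g5 using h1
  set A₀ : Finset (Arc (Finset V)) := (F'.sigma B).image fun x => (x.1, x.2) with hA₀
  have hm : ∀ a ∈ A₀, a.1 ∈ F' ∧ a.2 ∈ B a.1 := by
    intro a ha
    obtain ⟨x, hx, rfl⟩ := mem_image.1 ha
    exact mem_sigma.1 hx
  have hA : ArcSys A₀ := ⟨fun a ha => (g3 _ (hm a ha).1 _ (hm a ha).2).2.2,
    fun a ha b hb h hne => g4 _ (hm a ha).1 _ (hm a ha).2 _ (h ▸ (hm b hb).2)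
      fun h' => hne (Prod.ext h h')⟩
  have hc : #A₀ = ∑ Z ∈ F', #(B Z) := by
    rw [hA₀, card_image_of_injective, card_sigma]
    rintro ⟨a, b⟩ ⟨a', b'⟩ h
    simp only [Prod.mk.injEq] at h
    rw [h.1, h.2]
  let hit : Arc (Finset V) → Prop := fun a =>
    ∃ t ∈ ({-1, 0, 1} : Finset ℝ), a.2.1 ≤ t ∧ t ≤ a.2.2
  have h2 : #{a ∈ A₀ | hit a} ≤ 2 * 3 * #F' :=
    (hA.mono (filter_subset _ _)).card_hit F' (fun _ => {-1, 0, 1}) 3 (fun _ _ => card_le_three)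
      fun a ha => ⟨(hm a (mem_filter.1 ha).1).1, (mem_filter.1 ha).2⟩
  refine ⟨F', Γ, {a ∈ A₀ | ¬ hit a}, filter_subset _ _, g1, fun Z hZ => ?_,
    hA.mono (filter_subset _ _), fun a ha => ?_, ?_⟩
  · have k1 := hF Z (mem_filter.1 hZ).1
    exact ⟨k1.2, fun c hc => hC c (k1.1 hc), (g1 Z hZ).pt_injective, (Γ Z).rat_pt, g2 Z hZ⟩
  · obtain ⟨k1, k2⟩ := mem_filter.1 ha
    obtain ⟨k3, k4⟩ := hm a k1
    exact ⟨k3, short_of_avoid (hA.1 a k1) fun t ht h => k2 ⟨t, ht, h⟩, (g3 _ k3 _ k4).1,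
      (g3 _ k3 _ k4).2.1⟩
  · rw [sum_card_comm, ← sum_filter_add_sum_filter_not F (fun Z => 1 < #(PZ Z))]
    have e1 : ∑ Z ∈ F', #(PZ Z) ≤ #A₀ + #F' * 2 := by
      rw [hc, ← smul_eq_mul, ← sum_const, ← sum_add_distrib]
      exact sum_le_sum g5
    have e2 := sum_le_card_nsmul {Z ∈ F | ¬ 1 < #(PZ Z)} (fun Z => #(PZ Z)) 1
      fun Z hZ => not_lt.1 (mem_filter.1 hZ).2
    have e3 := card_filter_add_card_filter_not (s := F) (fun Z => 1 < #(PZ Z))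
    have e4 := card_filter_add_card_filter_not (s := A₀) (fun a => hit a)
    rw [smul_eq_mul] at e2
    rw [← hF'] at e3
    refine (Nat.add_le_add e1 e2).trans ?_
    omega

end Pool.Agent.P.MP_f7c707_co
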