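import Pool.Agent.P.MP_f7c707_co.QDefs

/-!
Decomposition of the distance graph of a link into cells.
-/

namespace Pool.Agent.P.MP_f7c707_co

open Finset MvPolynomial Pool.Agent.Lib.PolyPart

lemma qdec_families {T : Tree 4} {k : ℕ} {I : Ideal (MP 4)} {X : Finset V} {θ K L : ℝ}
    (h : T.Ok k I X θ K L) (hk0 : k ≠ 0) (hk : k ≤ 4) {x : V} {τ : T.ι} (hτ : x ∈ T.A τ) :
    ∃ Cn : Fin 4 → Set V, (∀ i, NoFour (Cn i) ∧ ∀ z ρ, sph z ρ ∈ I → z ∈ Cn i) ∧
      ∀ z ρ, ¬ T.ND τ x (sph z ρ) → ∃ i, z ∈ Cn i := by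
  refine ⟨fun i => {z | ∃ ρ, DegAt ((T.J τ).getD i I) x (sph z ρ)}, fun i => ?_, ?_⟩
  · have hmem : (T.J τ).getD i I ∈ T.J τ := by
      by_cases hi : (i : ℕ) < (T.J τ).length
      · rw [List.getD_eq_getElem _ _ hi]; exact List.getElem_mem hi
      · rw [List.getD_eq_default _ _ (not_lt.1 hi)]; exact h.top τ hk0
    obtain ⟨h1, h2, k', c', y', h3⟩ := h.ideals τ _ hmem
    exact ⟨noFour_deg h3 (h2 x hτ), fun z ρ hz => ⟨ρ, DegAt.of_mem (h1 hz)⟩⟩
  · intro z ρ hz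
    have : ∃ J ∈ T.J τ, DegAt J x (sph z ρ) := by
      by_contra h1
      push Not at h1
      exact hz ⟨hτ, h1⟩
    obtain ⟨J, hJ, hd⟩ := this
    obtain ⟨i, hi, rfl⟩ := List.getElem_of_mem hJ
    refine ⟨⟨i, by have := h.len τ; omega⟩, ρ, ?_⟩
    rw [List.getD_eq_getElem _ _ hi]
    exact hd

theorem ev_PDec : Ev PDec := by
  classical
  refine (ev_tree 3).pow 8 3 fun n Λ Λ' _ hΛ hΛ' h C P d al ga rho hCn hρ hP hC u hu => ?_
  obtain ⟨I, y, hN, hI, hV⟩ := exists_nice_three d ga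
  obtain ⟨T, hT⟩ := h I y hN C (fun c hc => hV c (hC c hc)) hCn (u ^ 2) (by positivity)
  have hlf : ∀ c, ∃ o : Option T.ι, c ∈ C → ∃ τ, o = some τ ∧ c ∈ T.A τ := by
    intro c
    by_cases hc : c ∈ C
    · obtain ⟨τ, hτ⟩ := hT.cover c hc
      exact ⟨some τ, fun _ => ⟨τ, rfl, hτ⟩⟩
    · exact ⟨none, fun h => absurd h hc⟩
  choose lf hlf using hlf
  let N : T.ι → V → Finset V := fun τ p =>
    {c ∈ C | lf c = some τ ∧ d2 c p = rho ∧ T.ND τ c (sph p rho)}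
  let Cc : T.ι → Finset V := fun τ => {c ∈ C | lf c = some τ ∧ u ^ 2 * T.R τ ≤ T.W τ}
  let Pc : T.ι → Finset V := fun τ => {p ∈ P | (N τ p).Nonempty}
  have hθ : 1 ≤ u ^ 2 := one_le_pow₀ hu
  have hΛ3 : Λ ^ 2 ≤ Λ ^ 3 := pow_le_pow_right₀ hΛ (by norm_num)
  have hΛ1 : 1 ≤ Λ ^ 3 := one_le_pow₀ hΛ
  push_cast at hΛ'
  have hPc : ∑ τ, (#(Pc τ) : ℝ) ≤ Λ ^ 2 * (u ^ 2 * #P) := by
    have e1 : ∑ τ, (#(Pc τ) : ℝ) = ∑ p ∈ P, ∑ τ, ind (N τ p).Nonempty 1 := by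
      rw [sum_comm]
      apply sum_congr rfl
      intro τ _
      simp only [Pc, card_filter, ind]
      push_cast
      exact sum_congr rfl fun p _ => by split_ifs <;> rfl
    rw [e1]
    refine (sum_le_card_nsmul P _ (Λ * u ^ 2 * Λ) fun p _ => ?_).trans
      (le_of_eq (by rw [nsmul_eq_mul]; ring))
    have := hT.cross (sph p rho) (totalDegree_sph p rho) (fun τ => N τ p) fun τ x hx =>
      ⟨by rw [eval_sph, (mem_filter.1 hx).2.2.1, sub_self], (mem_filter.1 hx).2.2.2⟩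
    rwa [max_eq_right (one_le_mul_of_one_le_of_one_le hΛ hθ)] at this
  have hp0 : 0 ≤ u ^ 2 * #P := by positivity
  refine ⟨T.ι, inferInstance, Cc, Pc, fun τ => filter_subset _ _, fun τ τ' hne => ?_, fun τ => ?_,
    fun τ => filter_subset _ _, hPc.trans (mul_le_mul_of_nonneg_right (by linarith) hp0), ?_⟩
  · rw [disjoint_left]
    intro c h1 h2
    exact hne (Option.some.inj ((mem_filter.1 h1).2.1.symm.trans (mem_filter.1 h2).2.1))
  · rcases (Cc τ).eq_empty_or_nonempty with h0 | ⟨c₀, h0⟩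
    · rw [h0]; simp
    have e1 : Cc τ ⊆ T.A τ := by
      intro c hc
      obtain ⟨k1, k2, -⟩ := mem_filter.1 hc
      obtain ⟨τ', k3, k4⟩ := hlf c k1
      rwa [Option.some.inj (k3.symm.trans k2)] at k4
    exact le_trans (mul_le_mul (by exact_mod_cast card_le_card e1)
      (omega_le (k := 1) hT hu τ (mem_filter.1 h0).2.2) (by positivity) (by positivity))
      (hT.size τ)
  let bad : V → V → Prop := fun c p => d2 c p = rho ∧ ∀ τ, lf c = some τ → ¬ T.ND τ c (sph p rho)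
  have h2 : ∑ p ∈ P, #{c ∈ C | bad c p} ≤ 8 * #C := by
    rw [sum_card_comm, mul_comm, ← smul_eq_mul]
    apply sum_le_card_nsmul
    intro c hc
    obtain ⟨τ, k1, k2⟩ := hlf c hc
    obtain ⟨Cn, h3, h4⟩ := qdec_families hT (by norm_num) (by norm_num) k2
    calc #{p ∈ P | bad c p} ≤ #(univ.biUnion fun i => {p ∈ P | d2 c p = rho ∧ p ∈ Cn i}) := by
          apply card_le_card
          intro p hp
          obtain ⟨hd1, hd2, hd3⟩ := mem_filter.1 hp
          obtain ⟨i, hi⟩ := h4 p rho (hd3 τ k1)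
          exact mem_biUnion.2 ⟨i, mem_univ _, mem_filter.2 ⟨hd1, hd2, hi⟩⟩
      _ ≤ ∑ i, #{p ∈ P | d2 c p = rho ∧ p ∈ Cn i} := card_biUnion_le
      _ ≤ ∑ _i : Fin 4, 2 := by
          apply sum_le_sum
          intro i _
          apply card_le_two
          intro a₁ ha₁ a₂ ha₂ a₃ ha₃ g12 g13 g23
          rw [mem_filter] at ha₁ ha₂ ha₃
          refine (h3 i).1 a₁ ha₁.2.2 a₂ ha₂.2.2 a₃ ha₃.2.2 d ((h3 i).2 d ga hI) ?_
          exact ind3_of_angle g12 g13 g23 (hP _ ha₁.1) (hP _ ha₂.1) (hP _ ha₃.1)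
            (by rw [d2_comm, ha₁.2.1]) (by rw [d2_comm, ha₂.2.1]) (by rw [d2_comm, ha₃.2.1])
            (hC c hc) hρ
      _ = 8 := by simp
  have h3 : ∀ p, #(nb C p rho) ≤ #{c ∈ C | bad c p} + ∑ τ, #(N τ p) := by
    intro p
    refine le_trans (card_le_card ?_) ((card_union_le _ _).trans
      (Nat.add_le_add_left card_biUnion_le _))
    intro c hc
    rw [mem_nb] at hc
    by_cases hb : bad c p
    · exact mem_union_left _ (mem_filter.2 ⟨hc.1, hb⟩)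
    · simp only [bad, hc.2, true_and, not_forall, not_not] at hb
      obtain ⟨τ, k1, k2⟩ := hb
      exact mem_union_right _ (mem_biUnion.2 ⟨τ, mem_univ _, mem_filter.2 ⟨hc.1, k1, hc.2, k2⟩⟩)
  have h4 : ∀ τ, ∑ p ∈ P, (#(N τ p) : ℝ) ≤ Λ * #(Pc τ) + ed (Cc τ) (Pc τ) rho := by
    intro τ
    rw [← sum_filter_of_ne (p := fun p => (N τ p).Nonempty)
      (fun p _ hp => card_pos.1 (Nat.pos_of_ne_zero (by exact_mod_cast hp))), ed, mul_comm,
      ← nsmul_eq_mul, ← sum_const, ← sum_add_distrib]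
    apply sum_le_sum
    intro p _
    rcases hT.lower τ with hb | hb
    · have : #(N τ p) ≤ #(nb (Cc τ) p rho) := card_le_card fun c hc => by
        obtain ⟨k1, k2, k3, -⟩ := mem_filter.1 hc
        exact mem_nb.2 ⟨mem_filter.2 ⟨k1, k2, hb⟩, k3⟩
      have e : (#(N τ p) : ℝ) ≤ #(nb (Cc τ) p rho) := by exact_mod_cast this
      linarith
    · have : #(N τ p) ≤ #(T.A τ) := card_le_card fun c hc => (mem_filter.1 hc).2.2.2.1
      have e : (#(N τ p) : ℝ) ≤ #(T.A τ) := by exact_mod_cast this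
      have e' : (0 : ℝ) ≤ #(nb (Cc τ) p rho) := Nat.cast_nonneg _
      linarith
  have h5 : ed C P rho ≤ 8 * #C + ∑ τ, ∑ p ∈ P, (#(N τ p) : ℝ) := by
    have e1 := sum_le_sum fun p (_ : p ∈ P) => h3 p
    rw [sum_add_distrib, sum_comm] at e1
    unfold ed
    exact_mod_cast e1.trans (Nat.add_le_add_right h2 _)
  have h6 := sum_le_sum fun τ (_ : τ ∈ univ) => h4 τ
  rw [sum_add_distrib, ← mul_sum] at h6
  have h7 := mul_le_mul_of_nonneg_left hPc (show 0 ≤ Λ by linarith)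
  have h8 : (8 : ℝ) * #C ≤ Λ' * #C := mul_le_mul_of_nonneg_right (by linarith) (by positivity)
  have h9 : Λ ^ 3 * (u ^ 2 * #P) ≤ Λ' * (u ^ 2 * #P) := mul_le_mul_of_nonneg_right (by linarith) hp0
  linarith

end Pool.Agent.P.MP_f7c707_co
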