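import Pool.Agent.P.MP_f7c707_co.Main

/-!
Definitions for the quadratic bound: rational curves, arcs, lenses, circles.
-/

namespace Pool.Agent.P.MP_f7c707_co

open Finset MvPolynomial Pool.Agent.Lib.PolyPart

/-- `f s * (1 + s ^ 2) ^ E` is a polynomial of degree at most `2 * E`. -/
def IsRat (E : ℕ) (f : ℝ → ℝ) : Prop :=
  ∃ q : Polynomial ℝ, q.natDegree ≤ 2 * E ∧ ∀ s, q.eval s = f s * (1 + s ^ 2) ^ E

/-- A curve index with two parameters. -/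
abbrev Arc (ι : Type) := ι × ℝ × ℝ

/-- Arcs on one curve have disjoint interiors. -/
def ArcSys {ι : Type} (A : Finset (Arc ι)) : Prop :=
  (∀ a ∈ A, a.2.1 < a.2.2) ∧
    ∀ a ∈ A, ∀ b ∈ A, a.1 = b.1 → a ≠ b → a.2.2 ≤ b.2.1 ∨ b.2.2 ≤ a.2.1

/-- `f` vanishes identically or has no zero in the closed interval. -/
def Clean (f : ℝ → ℝ) (s s' : ℝ) : Prop := (∀ t, f t = 0) ∨ ∀ t ∈ Set.Icc s s', f t ≠ 0

/-- A family of rational curves with separating polynomials. -/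
structure Fam {ι : Type} (F : Finset ι) (γ : ι → ℝ → V) (g : ι → MP 4) : Prop where
  rat : ∀ Z ∈ F, ∀ i, IsRat 1 fun t => γ Z t i
  inj : ∀ Z ∈ F, Function.Injective (γ Z)
  deg : ∀ Z ∈ F, (g Z).totalDegree ≤ 4
  zero : ∀ Z ∈ F, ∀ t, eval (γ Z t) (g Z) = 0
  sep : ∀ Z ∈ F, ∀ Z' ∈ F, Z ≠ Z' → ∀ t₁ t₂ t₃ : ℝ, t₁ ≠ t₂ → t₁ ≠ t₃ → t₂ ≠ t₃ →
    eval (γ Z t₁) (g Z') = 0 → eval (γ Z t₂) (g Z') = 0 → eval (γ Z t₃) (g Z') = 0 → False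

/-- Two arcs with the same end points whose lifts change order. -/
def IsLens {ι : Type} (γ : ι → ℝ → V) (τ : ι → ℝ → ℝ) (l : Arc ι × Arc ι) : Prop :=
  γ l.1.1 l.1.2.1 = γ l.2.1 l.2.2.1 ∧ γ l.1.1 l.1.2.2 = γ l.2.1 l.2.2.2 ∧
    τ l.1.1 l.1.2.1 < τ l.2.1 l.2.2.1 ∧ τ l.2.1 l.2.2.2 < τ l.1.1 l.1.2.2

/-- A set of lenses on the curves of `G` in which no arc is used twice in the same place. -/
def LensSys {ι : Type} (γ : ι → ℝ → V) (τ : ι → ℝ → ℝ) (A : Finset (Arc ι)) (G : Finset ι)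
    (L : Finset (Arc ι × Arc ι)) : Prop :=
  (∀ l ∈ L, l.1 ∈ A ∧ l.2 ∈ A ∧ l.1.1 ∈ G ∧ l.2.1 ∈ G ∧ IsLens γ τ l) ∧
    (∀ l ∈ L, ∀ l' ∈ L, l.1 = l'.1 → l = l') ∧ ∀ l ∈ L, ∀ l' ∈ L, l.2 = l'.2 → l = l'

/-- Bound for lens systems on curves inside the zero set of `I`. -/
def LensBd {ι : Type} (F : Finset ι) (γ : ι → ℝ → V) (τ : ι → ℝ → ℝ) (A : Finset (Arc ι))
    (I : Ideal (MP 4)) (B β : ℝ) : Prop :=
  ∀ G ⊆ F, (∀ Z ∈ G, ∀ t, Van I (γ Z t)) → ∀ L, LensSys γ τ A G L →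
    (#L : ℝ) ≤ B * (#G : ℝ) ^ β

/-- Centre, frame and radius of a circle. -/
structure Crv where
  o : V
  e₁ : V
  e₂ : V
  R : ℝ

/-- The frame is orthonormal and the radius positive. -/
def Crv.Ok (Γ : Crv) : Prop :=
  Γ.e₁ ⬝ᵥ Γ.e₁ = 1 ∧ Γ.e₂ ⬝ᵥ Γ.e₂ = 1 ∧ Γ.e₁ ⬝ᵥ Γ.e₂ = 0 ∧ 0 < Γ.R

/-- Rational parametrisation. -/
noncomputable def Crv.pt (Γ : Crv) (s : ℝ) : V :=
  Γ.o + (Γ.R * (1 - s ^ 2) / (1 + s ^ 2)) • Γ.e₁ + (Γ.R * (2 * s) / (1 + s ^ 2)) • Γ.e₂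

/-- Unit tangent. -/
noncomputable def Crv.tg (Γ : Crv) (s : ℝ) : V :=
  (-(2 * s) / (1 + s ^ 2)) • Γ.e₁ + ((1 - s ^ 2) / (1 + s ^ 2)) • Γ.e₂

/-- Both parameters lie in one open quarter of the circle. -/
def Short (s s' : ℝ) : Prop := s < s' ∧ 0 < s * s' ∧ 0 < (1 - s ^ 2) * (1 - s' ^ 2)

/-- `x` lies on the sphere about `d` and is a common neighbour of `Z`. -/
def OnG (d : V) (al rho : ℝ) (Z : Finset V) (x : V) : Prop :=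
  d2 x d = al ∧ ∀ c ∈ Z, d2 x c = rho

/-- A family of circles cut out by pairs of centres. -/
def PairFam (d : V) (al ga rho : ℝ) (F : Finset (Finset V)) (γ : Finset V → ℝ → V) : Prop :=
  ∀ Z ∈ F, #Z = 2 ∧ (∀ c ∈ Z, d2 c d = ga) ∧ Function.Injective (γ Z) ∧
    (∀ i, IsRat 1 fun t => γ Z t i) ∧ ∀ t, OnG d al rho Z (γ Z t)

/-- Number of pairs at squared distance `r`. -/
noncomputable def ed (C P : Finset V) (r : ℝ) : ℝ := ∑ p ∈ P, (#(nb C p r) : ℝ)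

/-- Incidences between points and circles cut out by pairs. -/
def PInc (n Λ : ℝ) : Prop :=
  ∀ (P C : Finset V) (d : V) (al ga rho : ℝ), #P ≤ n → rho ≠ al + ga →
    (∀ p ∈ P, d2 p d = al) → (∀ c ∈ C, d2 c d = ga) →
    ∀ F : Finset (Finset V), (∀ Z ∈ F, Z ⊆ C ∧ #Z = 2) → ∀ N r z : ℝ, #F ≤ N → 0 < r → 1 ≤ z →
      #C ≤ z ^ 10 → ∑ p ∈ P, (#{Z ∈ F | Z ⊆ nb C p rho} : ℝ) ≤
        Λ * (N * r + (#P : ℝ) ^ 2 / r ^ 3 + ed C P rho + #C * z ^ 19)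

/-- Decomposition of the distance graph into cells. -/
def PDec (n Λ : ℝ) : Prop :=
  ∀ (C P : Finset V) (d : V) (al ga rho : ℝ), #C ≤ n → rho ≠ al + ga →
    (∀ p ∈ P, d2 p d = al) → (∀ c ∈ C, d2 c d = ga) → ∀ u : ℝ, 1 ≤ u →
    ∃ (ι : Type) (_ : Fintype ι) (Cc Pc : ι → Finset V), (∀ τ, Cc τ ⊆ C) ∧
      (∀ τ τ', τ ≠ τ' → Disjoint (Cc τ) (Cc τ')) ∧ (∀ τ, #(Cc τ) * u ^ 3 ≤ #C) ∧
      (∀ τ, Pc τ ⊆ P) ∧ ∑ τ, (#(Pc τ) : ℝ) ≤ Λ * (u ^ 2 * #P) ∧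
      ed C P rho ≤ Λ * (#C + u ^ 2 * #P) + ∑ τ, ed (Cc τ) (Pc τ) rho

/-- The bound used inside one cell. -/
def PLoc (n Λ : ℝ) : Prop :=
  ∀ (C P : Finset V) (d : V) (al ga rho : ℝ), #C ≤ n → #P ≤ n → rho ≠ al + ga →
    (∀ p ∈ P, d2 p d = al) → (∀ c ∈ C, d2 c d = ga) → ∀ v z : ℝ, 1 ≤ v → 1 ≤ z →
      #C ≤ z ^ 10 → ed C P rho ≤ Λ * (#P * v ^ 4 + (#C : ℝ) ^ 3 / v ^ 13 + #C * z ^ 19)

/-- Edges in the link of a vertex, with a power saving. -/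
def P3p (n Λ : ℝ) : Prop :=
  ∀ (B A : Finset V) (d : V) (p q r : ℝ), #B ≤ n → #A ≤ n → r ≠ p + q → (∀ b ∈ B, d2 b d = p) →
    (∀ a ∈ A, d2 a d = q) → ∀ η : ℝ, 1 ≤ η → #B ≤ η ^ 4800 → #A ≤ η ^ 4800 →
      ∑ a ∈ A, (#(nb B a r) : ℝ) ≤ Λ * η ^ 7198

/-- Triangles in the link of a vertex, with a power saving. -/
def P5p (n Λ : ℝ) : Prop :=
  ∀ (A B C : Finset V) (d : V) (ab ac ad bc bd cd : ℝ), #A ≤ n → #B ≤ n → #C ≤ n →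
    ab ≠ bd + ad → ac ≠ cd + ad → ad ≠ 0 →
    (∀ a b d, d2 b a = ab → d2 b d = bd → d2 a d = ad → Ind2 (a - b) (d - b)) →
    (∀ a c d, d2 c a = ac → d2 c d = cd → d2 a d = ad → Ind2 (a - c) (d - c)) →
    (∀ a ∈ A, d2 a d = ad) → (∀ b ∈ B, d2 b d = bd) → (∀ c ∈ C, d2 c d = cd) →
    ∀ η : ℝ, 1 ≤ η → #A ≤ η ^ 4800 → #B ≤ η ^ 4800 → #C ≤ η ^ 4800 →
      ∑ a ∈ A, ∑ c ∈ nb C a ac, (#(nb (nb B a ab) c bc) : ℝ) ≤ Λ * η ^ 7999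

/-- Ordered triangles with vertices in three sets. -/
noncomputable def tri3 (X Y Z : Finset V) (p q r : ℝ) : Finset (V × V × V) :=
  {t ∈ X ×ˢ Y ×ˢ Z | d2 t.1 t.2.1 = p ∧ d2 t.1 t.2.2 = q ∧ d2 t.2.1 t.2.2 = r}

lemma mem_tri3 {X Y Z : Finset V} {p q r : ℝ} {t : V × V × V} : t ∈ tri3 X Y Z p q r ↔
    (t.1 ∈ X ∧ t.2.1 ∈ Y ∧ t.2.2 ∈ Z) ∧
      d2 t.1 t.2.1 = p ∧ d2 t.1 t.2.2 = q ∧ d2 t.2.1 t.2.2 = r := by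
  simp only [tri3, mem_filter, mem_product]

/-- Triangles with two vertices in small sets. -/
def P6m (n Λ : ℝ) : Prop :=
  ∀ (X Y Z : Finset V) (p q r h ν : ℝ), #X ≤ n → #Y ≤ h → #Z ≤ h → h ≤ n → 1 ≤ ν →
    ν ^ 8000 = n → p ≠ r + q → #(tri3 X Y Z p q r) ≤ Λ * (n * h + ν ^ 15200)

/-- Neither point lies in a plane attached to the other. -/
def Fr {κ : Type} (Q : V → κ → Pl) (x y : V) : Prop :=
  (∀ i, ¬ InPl (Q x i) y) ∧ ∀ i, ¬ InPl (Q y i) x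

/-- Planes that leave few edges for six distances. -/
def PG (n Λ : ℝ) : Prop :=
  ∀ (P : Finset V) (ds : Fin 6 → ℝ) (ν : ℝ), #P ≤ n → 1 ≤ ν → ν ^ 8000 = n →
    ∃ Q : V → Fin 6 × Bool × Fin 4 → Pl,
      ∀ j, cnt P P (fun x y => d2 x y = ds j ∧ Fr Q x y) ≤ Λ * ν ^ 12800

open Classical in
/-- Triangles all of whose edges satisfy `E`. -/
noncomputable def ftri (P : Finset V) (E : V → V → Prop) (p q r : ℝ) : Finset (V × V × V) :=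
  {t ∈ tri P p q r | E t.1 t.2.1 ∧ E t.1 t.2.2 ∧ E t.2.1 t.2.2}

lemma mem_ftri {P : Finset V} {E : V → V → Prop} {p q r : ℝ} {t : V × V × V} :
    t ∈ ftri P E p q r ↔ t ∈ tri P p q r ∧ E t.1 t.2.1 ∧ E t.1 t.2.2 ∧ E t.2.1 t.2.2 := by
  classical
  unfold ftri
  exact mem_filter

open Classical in
/-- Tetrahedra all of whose edges satisfy `E`. -/
noncomputable def ftet (P : Finset V) (E : V → V → Prop) (ab ac ad bc bd cd : ℝ) :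
    Finset (V × V × V × V) :=
  {t ∈ tet P ab ac ad bc bd cd | E t.1 t.2.1 ∧ E t.1 t.2.2.1 ∧ E t.1 t.2.2.2 ∧
    E t.2.1 t.2.2.1 ∧ E t.2.1 t.2.2.2 ∧ E t.2.2.1 t.2.2.2}

lemma mem_ftet {P : Finset V} {E : V → V → Prop} {ab ac ad bc bd cd : ℝ} {t : V × V × V × V} :
    t ∈ ftet P E ab ac ad bc bd cd ↔ t ∈ tet P ab ac ad bc bd cd ∧ E t.1 t.2.1 ∧ E t.1 t.2.2.1 ∧
      E t.1 t.2.2.2 ∧ E t.2.1 t.2.2.1 ∧ E t.2.1 t.2.2.2 ∧ E t.2.2.1 t.2.2.2 := by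
  classical
  unfold ftet
  exact mem_filter

/-- Triangles in a sparse distance graph. -/
def PF (n Λ : ℝ) : Prop :=
  ∀ (P : Finset V) (E : V → V → Prop) (p q r ν Φ : ℝ), (∀ x y, E x y → E y x) → #P ≤ n →
    p ≠ 0 → q ≠ 0 → r ≠ 0 → 1 ≤ ν → 1 ≤ Φ → ν ^ 8000 = n →
    (∀ a ∈ [p, q, r], cnt P P (fun x y => d2 x y = a ∧ E x y) ≤ Φ * ν ^ 12800) →
    #(ftri P E p q r) ≤ Λ * Φ * ν ^ 15999

/-- Tetrahedra in a graph with few triangles. -/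
def PT (n Λ : ℝ) : Prop :=
  ∀ (P : Finset V) (E : V → V → Prop) (ab ac ad bc bd cd ν Ψ : ℝ), (∀ x y, E x y → E y x) →
    #P ≤ n → ab ≠ 0 → ac ≠ 0 → ad ≠ 0 → bc ≠ 0 →
    bd ≠ 0 → cd ≠ 0 → ab ≠ bd + ad → ac ≠ cd + ad →
    (∀ a b d, d2 b a = ab → d2 b d = bd → d2 a d = ad → Ind2 (a - b) (d - b)) →
    (∀ a c d, d2 c a = ac → d2 c d = cd → d2 a d = ad → Ind2 (a - c) (d - c)) →
    1 ≤ ν → 1 ≤ Ψ → ν ^ 8000 = n →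
    (∀ p ∈ [ab, ac, ad, bc, bd, cd], ∀ q ∈ [ab, ac, ad, bc, bd, cd],
      ∀ r ∈ [ab, ac, ad, bc, bd, cd], #(ftri P E p q r) ≤ Ψ * ν ^ 15999) →
    #(ftet P E ab ac ad bc bd cd) ≤ Λ * Ψ * ν ^ 15999

lemma ev_ge (a : ℝ) : Ev fun _ Λ => a ≤ Λ := by
  intro ε hε
  refine ⟨max a 1, le_max_right _ _, fun n hn Λ hΛ => le_trans ?_ hΛ⟩
  exact (le_max_left a 1).trans (le_mul_of_one_le_right (by positivity) (Real.one_le_rpow hn hε.le))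

end Pool.Agent.P.MP_f7c707_co
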