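import Pool.Agent.P.MP_f7c707_co.QSep

/-!
Families of circles cut out by pairs.
-/

namespace Pool.Agent.P.MP_f7c707_co

open Finset MvPolynomial Pool.Agent.Lib.PolyPart

lemma common_le_two {c₁ c₂ c₃ x₁ x₂ x₃ d : V} {al ga rho : ℝ} (hρ : rho ≠ al + ga)
    (c12 : c₁ ≠ c₂) (c13 : c₁ ≠ c₃) (c23 : c₂ ≠ c₃) (x12 : x₁ ≠ x₂) (x13 : x₁ ≠ x₃)
    (x23 : x₂ ≠ x₃) (hc : ∀ c ∈ [c₁, c₂, c₃], d2 c d = ga) (hx : ∀ x ∈ [x₁, x₂, x₃], d2 x d = al)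
    (he : ∀ x ∈ [x₁, x₂, x₃], ∀ c ∈ [c₁, c₂, c₃], d2 x c = rho) : False := by
  simp only [List.mem_cons, List.not_mem_nil, or_false, forall_eq_or_imp, forall_eq] at hc hx he
  obtain ⟨⟨a1, a2, a3⟩, ⟨b1, b2, b3⟩, e1, e2, e3⟩ := he
  have hi := ind3_of_angle c12 c13 c23 hc.1 hc.2.1 hc.2.2 (d2_comm _ _ ▸ a1) (d2_comm _ _ ▸ a2)
    (d2_comm _ _ ▸ a3) hx.1 (by rwa [add_comm])
  have hw := ind2_of_cospherical hx.1 hx.2.1 hx.2.2 x12 x13 x23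
  refine no_five hi hw ?_ ?_ ?_ ?_ ?_ ?_ <;> rw [dotProduct_comm] <;> apply perp_of_d2 <;>
    simp only [a1, a2, a3, b1, b2, b3, e1, e2, e3, hx.1, hx.2.1, hx.2.2]

/-- A third centre is adjacent to at most two points of the circle of a pair. -/
lemma PairFam.no_three {d : V} {al ga rho : ℝ} (hρ : rho ≠ al + ga) {F : Finset (Finset V)}
    {γ : Finset V → ℝ → V} (h : PairFam d al ga rho F γ) {Z : Finset V} (hZ : Z ∈ F) {c : V}
    (hc : c ∉ Z) (hcd : d2 c d = ga) {t₁ t₂ t₃ : ℝ} (a1 : t₁ ≠ t₂) (a2 : t₁ ≠ t₃) (a3 : t₂ ≠ t₃)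
    (h₁ : d2 (γ Z t₁) c = rho) (h₂ : d2 (γ Z t₂) c = rho) (h₃ : d2 (γ Z t₃) c = rho) : False := by
  obtain ⟨k1, k2, k3, -, k5⟩ := h Z hZ
  obtain ⟨c₁, c₂, h12, rfl⟩ := card_eq_two.1 k1
  simp only [mem_insert, mem_singleton, not_or] at hc
  refine common_le_two hρ h12 (Ne.symm hc.1) (Ne.symm hc.2) (k3.ne a1) (k3.ne a2) (k3.ne a3)
    (d := d) ?_ ?_ ?_ <;>
    simp only [List.mem_cons, List.not_mem_nil, or_false, forall_eq_or_imp, forall_eq]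
  · exact ⟨k2 _ (by simp), k2 _ (by simp), hcd⟩
  · exact ⟨(k5 _).1, (k5 _).1, (k5 _).1⟩
  · exact ⟨⟨(k5 _).2 _ (by simp), (k5 _).2 _ (by simp), h₁⟩,
      ⟨(k5 _).2 _ (by simp), (k5 _).2 _ (by simp), h₂⟩,
      (k5 _).2 _ (by simp), (k5 _).2 _ (by simp), h₃⟩

lemma PairFam.fam {d : V} {al ga rho : ℝ} (hρ : rho ≠ al + ga) {F : Finset (Finset V)}
    {γ : Finset V → ℝ → V} (h : PairFam d al ga rho F γ) :
    Fam F γ fun Z => ∑ c ∈ Z, sph c rho ^ 2 := by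
  refine ⟨fun Z hZ => (h Z hZ).2.2.2.1, fun Z hZ => (h Z hZ).2.2.1, fun Z _ => ?_,
    fun Z hZ t => ?_, fun Z hZ Z' hZ' hne t₁ t₂ t₃ a1 a2 a3 h₁ h₂ h₃ => ?_⟩
  · refine totalDegree_finsetSum_le fun c _ => (totalDegree_pow _ _).trans ?_
    have := totalDegree_sph c rho
    omega
  · rw [map_sum]
    apply sum_eq_zero
    intro c hc
    rw [map_pow, eval_sph, ((h Z hZ).2.2.2.2 t).2 c hc, sub_self, zero_pow two_ne_zero]
  · obtain ⟨c, hc, hcZ⟩ : ∃ c ∈ Z', c ∉ Z := by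
      by_contra hh
      push Not at hh
      exact hne (eq_of_subset_of_card_le hh (by rw [(h Z hZ).1, (h Z' hZ').1])).symm
    have key : ∀ x, eval x (∑ c ∈ Z', sph c rho ^ 2) = 0 → d2 x c = rho := by
      intro x hx
      simp only [map_sum, map_pow, eval_sph] at hx
      rw [sum_eq_zero_iff_of_nonneg fun _ _ => sq_nonneg _] at hx
      exact sub_eq_zero.1 (pow_eq_zero_iff two_ne_zero |>.1 (hx c hc))
    exact h.no_three hρ hZ hcZ ((h Z' hZ').2.1 c hc) a1 a2 a3 (key _ h₁) (key _ h₂) (key _ h₃)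

lemma qfam_one {G : Finset (Finset V)} (hG : ∀ Z ∈ G, #Z = 2) {a b : V} (hab : a ≠ b) :
    #{Z ∈ G | a ∈ Z ∧ b ∈ Z} ≤ 1 := by
  have key : ∀ Z ∈ ({Z ∈ G | a ∈ Z ∧ b ∈ Z} : Finset (Finset V)), Z = {a, b} := by
    intro Z hZ
    obtain ⟨k1, k2, k3⟩ := mem_filter.1 hZ
    refine (eq_of_subset_of_card_le ?_ ?_).symm
    · exact insert_subset k2 (singleton_subset_iff.2 k3)
    · rw [hG Z k1, card_pair hab]
  exact card_le_one.2 fun Z hZ Z' hZ' => (key Z hZ).trans (key Z' hZ').symm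

lemma qfam_deg {G : Finset (Finset V)} (hG : ∀ Z ∈ G, #Z = 2) (a : V) (S : Finset V) :
    #{Z ∈ G | a ∈ Z ∧ ∃ b ∈ S, b ≠ a ∧ b ∈ Z} ≤ #S := by
  have h1 : ({Z ∈ G | a ∈ Z ∧ ∃ b ∈ S, b ≠ a ∧ b ∈ Z} : Finset (Finset V)) ⊆
      (S.erase a).biUnion fun b => {Z ∈ G | a ∈ Z ∧ b ∈ Z} := by
    intro Z hZ
    obtain ⟨k1, k2, b, k3, k4, k5⟩ := mem_filter.1 hZ
    exact mem_biUnion.2 ⟨b, mem_erase.2 ⟨k4, k3⟩, mem_filter.2 ⟨k1, k2, k5⟩⟩
  refine (card_le_card h1).trans ((card_biUnion_le_card_mul _ _ 1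
    fun b hb => qfam_one hG (mem_erase.1 hb).1.symm).trans ?_)
  rw [mul_one]
  exact card_erase_le

/-- Circles inside a nice surface form a sparse graph on the centres. -/
theorem pairs_le (c : ℕ) : ∃ K : ℕ, ∀ (d : V) (al ga rho : ℝ), rho ≠ al + ga →
    ∀ (F : Finset (Finset V)) (γ : Finset V → ℝ → V), PairFam d al ga rho F γ →
    ∀ (I : Ideal (MP 4)) (y : Fin 2 → MP 4), Nice 4 2 c I y →
    ∀ G ⊆ F, (∀ Z ∈ G, ∀ t, Van I (γ Z t)) → ∀ C : Finset V, (∀ Z ∈ G, Z ⊆ C) →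
      #G ≤ K * #C := by
  classical
  obtain ⟨B, hB⟩ := exists_sep 1 c 2
  refine ⟨B + (c + 1) + c, fun d al ga rho hρ F γ h I y hN G hG hV C hC => ?_⟩
  have hG2 : ∀ Z ∈ G, #Z = 2 := fun Z hZ => (h Z (hG hZ)).1
  have hbad : #{x ∈ C | B + (c + 1) < #{Z ∈ G | x ∈ Z}} ≤ c := by
    by_contra hlt
    obtain ⟨S, hS, hc⟩ := exists_subset_card_eq (Nat.succ_le_of_lt (not_le.1 hlt))
    let e : Fin (c + 1) → V := fun i => (S.equivFinOfCardEq hc).symm i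
    have he : ∀ i, e i ∈ S := fun i => ((S.equivFinOfCardEq hc).symm i).2
    have hinj : Function.Injective e :=
      Subtype.val_injective.comp (S.equivFinOfCardEq hc).symm.injective
    have hed : ∀ i, d2 (e i) d = ga := by
      intro i
      obtain ⟨Z, hZ⟩ := card_pos.1 (lt_of_le_of_lt (Nat.zero_le _) (mem_filter.1 (hS (he i))).2)
      exact (h Z (hG (mem_filter.1 hZ).1)).2.1 _ (mem_filter.1 hZ).2
    obtain ⟨i₀, I', y', hN', hI'⟩ := hB I y hN (fun i => sph (e i) rho)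
      fun i => totalDegree_sph _ _
    have h1 := (h.fam hρ).card_le hN' {Z ∈ G | e i₀ ∈ Z ∧ ¬ ∃ b ∈ S, b ≠ e i₀ ∧ b ∈ Z}
      ((filter_subset _ _).trans hG) (by
        intro Z hZ
        obtain ⟨k1, k2, k3⟩ := mem_filter.1 hZ
        refine (Set.finite_iUnion (f := fun j => {t | j ≠ i₀ ∧ d2 (γ Z t) (e j) = rho})
          fun j => ?_).subset fun t ht => ?_
        · exact finite_of_no_three fun t₁ h₁ t₂ h₂ t₃ h₃ a1 a2 a3 => h.no_three hρ (hG k1)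
            (fun hh => k3 ⟨e j, he j, hinj.ne h₁.1, hh⟩) (hed j) a1 a2 a3 h₁.2 h₂.2 h₃.2
        · by_contra hn
          simp only [Set.mem_iUnion, Set.mem_ofPred_eq, not_exists, not_and] at hn
          refine ht (hI' _ (hV Z k1 t) ?_ fun j hj => ?_)
          · rw [eval_sph, ((h Z (hG k1)).2.2.2.2 t).2 _ k2, sub_self]
          · rw [eval_sph]
            exact sub_ne_zero.2 (hn j hj))
    have h2 := qfam_deg hG2 (e i₀) S
    have h3 := card_filter_add_card_filter_not (s := {Z ∈ G | e i₀ ∈ Z})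
      (fun Z => ∃ b ∈ S, b ≠ e i₀ ∧ b ∈ Z)
    rw [filter_filter, filter_filter] at h3
    have h4 := (mem_filter.1 (hS (he i₀))).2
    omega
  have hdeg : ∀ x, #{Z ∈ G | x ∈ Z} ≤ #C := by
    intro x
    refine le_trans (card_le_card fun Z hZ => ?_) (qfam_deg hG2 x C)
    obtain ⟨k1, k2⟩ := mem_filter.1 hZ
    obtain ⟨b, hb, hbx⟩ := exists_mem_ne (s := Z) (by rw [hG2 Z k1]; norm_num) x
    exact mem_filter.2 ⟨k1, k2, b, hC Z k1 hb, hbx, hb⟩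
  have h1 : #G ≤ ∑ x ∈ C, #{Z ∈ G | x ∈ Z} := by
    refine le_trans (card_le_card fun Z hZ => ?_) card_biUnion_le
    obtain ⟨x, hx⟩ := card_pos.1 (show 0 < #Z by rw [hG2 Z hZ]; norm_num)
    exact mem_biUnion.2 ⟨x, hC Z hZ hx, mem_filter.2 ⟨hZ, hx⟩⟩
  rw [← sum_filter_add_sum_filter_not C (fun x => B + (c + 1) < #{Z ∈ G | x ∈ Z})] at h1
  have h2 := sum_le_card_nsmul {x ∈ C | B + (c + 1) < #{Z ∈ G | x ∈ Z}}
    (fun x => #{Z ∈ G | x ∈ Z}) #C fun x _ => hdeg x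
  have h3 := sum_le_card_nsmul {x ∈ C | ¬ B + (c + 1) < #{Z ∈ G | x ∈ Z}}
    (fun x => #{Z ∈ G | x ∈ Z}) (B + (c + 1)) fun x hx => not_lt.1 (mem_filter.1 hx).2
  rw [smul_eq_mul] at h2 h3
  have h4 := h2.trans (Nat.mul_le_mul_right _ hbad)
  have h5 := h3.trans (Nat.mul_le_mul_right _ (card_filter_le _ _))
  calc #G ≤ c * #C + #C * (B + (c + 1)) := h1.trans (Nat.add_le_add h4 h5)
    _ = _ := by ring

end Pool.Agent.P.MP_f7c707_co
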