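import Pool.Agent.P.MP_f7c707_co.QPF

/-!
The quadratic bound for triangles.
-/

namespace Pool.Agent.P.MP_f7c707_co

open Finset MvPolynomial Pool.Agent.Lib.PolyPart

lemma qfree_cnt_mono {X D : Finset V} {E E' : V → V → Prop} (h : ∀ x y, E x y → E' x y) :
    cnt X D E ≤ cnt X D E' :=
  sum_le_sum fun _ _ => Nat.cast_le.2 (card_le_card fun _ hx =>
    mem_nbr.2 ⟨(mem_nbr.1 hx).1, h _ _ (mem_nbr.1 hx).2⟩)

theorem ev_PG : Ev PG := by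
  refine ev_P4.pow 4 1 fun n Λ Λ' _ hΛ hΛ' h P ds ν hP hν hνn => ?_
  choose Q Q' hQ using fun j => h P P (ds j) hP hP (ν ^ 1600) (ν ^ 1600) (one_le_pow₀ hν)
    (one_le_pow₀ hν)
  refine ⟨fun x i => cond i.2.1 (Q' i.1 x i.2.2) (Q i.1 x i.2.2), fun j => ?_⟩
  refine (qfree_cnt_mono fun x y hh => ?_).trans ((hQ j).trans ?_)
  · exact ⟨hh.1, fun i => hh.2.1 (j, false, i), fun i => hh.2.2 (j, true, i)⟩
  rw [← hνn] at hP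
  have hν0 : 0 < ν := by linarith
  have e1 : (#P : ℝ) * (ν ^ 1600) ^ 3 ≤ ν ^ 12800 :=
    (mul_le_mul_of_nonneg_right hP (by positivity)).trans (le_of_eq (by ring))
  have e2 : ν ^ 1600 * (#P : ℝ) ^ 3 / (ν ^ 1600) ^ 8 ≤ ν ^ 12800 := by
    rw [div_le_iff₀ (by positivity)]
    exact (mul_le_mul_of_nonneg_left (pow_le_pow_left₀ (by positivity) hP 3)
      (by positivity)).trans (le_of_eq (by ring))
  push_cast at hΛ'
  calc _ ≤ Λ * (4 * ν ^ 12800) := mul_le_mul_of_nonneg_left (by linarith) (by linarith)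
    _ = 4 * Λ * ν ^ 12800 := by ring
    _ ≤ _ := mul_le_mul_of_nonneg_right (by linarith) (by positivity)

lemma Fr.symm {κ : Type} (Q : V → κ → Pl) (x y : V) (h : Fr Q x y) : Fr Q y x := ⟨h.2, h.1⟩

/-- Planes that leave few triangles. -/
def PGF (n Λ : ℝ) : Prop :=
  ∀ (P : Finset V) (ds : Fin 6 → ℝ) (ν : ℝ), #P ≤ n → 1 ≤ ν → ν ^ 8000 = n → (∀ j, ds j ≠ 0) →
    ∃ Q : V → Fin 6 × Bool × Fin 4 → Pl, ∀ p q r, (∃ i, ds i = p) → (∃ i, ds i = q) →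
      (∃ i, ds i = r) → #(ftri P (Fr Q) p q r) ≤ Λ * ν ^ 15999

theorem ev_PGF : Ev PGF := by
  refine (ev_PG.and ev_PF).pow 1 2 fun n Λ Λ' _ hΛ hΛ' ⟨h1, h2⟩ P ds ν hP hν hνn h0 => ?_
  obtain ⟨Q, hQ⟩ := h1 P ds ν hP hν hνn
  refine ⟨Q, ?_⟩
  rintro _ _ _ ⟨i, rfl⟩ ⟨j, rfl⟩ ⟨k, rfl⟩
  refine (h2 P (Fr Q) _ _ _ ν Λ (Fr.symm Q) hP (h0 i) (h0 j) (h0 k) hν hΛ hνn ?_).trans
    (mul_le_mul_of_nonneg_right ?_ (by positivity))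
  · simp only [List.mem_cons, List.not_mem_nil, or_false, forall_eq_or_imp, forall_eq]
    exact ⟨hQ i, hQ j, hQ k⟩
  · push_cast at hΛ'
    linarith

lemma Ev.root {P : ℝ → ℝ → Prop} (h : Ev P) :
    ∃ C : ℝ, 1 ≤ C ∧ ∀ n : ℝ, 1 ≤ n → ∃ ν : ℝ, 1 ≤ ν ∧ ν ^ 8000 = n ∧ P n (C * ν) := by
  obtain ⟨C, hC, h⟩ := h ((8000 : ℕ) : ℝ)⁻¹ (by positivity)
  exact ⟨C, hC, fun n hn => ⟨_, Real.one_le_rpow hn (by positivity),
    Real.rpow_inv_natCast_pow (by linarith) (by norm_num), h n hn _ le_rfl⟩⟩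

open Classical in
lemma card_exists_le' {α : Type*} (S : Finset α) (R : Fin 6 × Bool × Fin 4 → α → Prop) (M : ℝ)
    (h : ∀ i, (#{s ∈ S | R i s} : ℝ) ≤ M) : (#{s ∈ S | ∃ i, R i s} : ℝ) ≤ 48 * M := by
  have h1 : #{s ∈ S | ∃ i, R i s} ≤ ∑ i, #{s ∈ S | R i s} := by
    refine le_trans (card_le_card ?_) card_biUnion_le
    intro s hs
    obtain ⟨h2, i, h3⟩ := mem_filter.1 hs
    exact mem_biUnion.2 ⟨i, mem_univ _, mem_filter.2 ⟨h2, h3⟩⟩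
  have h2 : (#{s ∈ S | ∃ i, R i s} : ℝ) ≤ ∑ i, (#{s ∈ S | R i s} : ℝ) := by exact_mod_cast h1
  refine h2.trans ((sum_le_sum fun i _ => h i).trans (le_of_eq ?_))
  rw [sum_const, card_univ, nsmul_eq_mul]
  norm_num

theorem tri_le : ∃ C : ℝ, 1 ≤ C ∧ ∀ (P : Finset V) (p q r : ℝ), p ≠ 0 → q ≠ 0 → r ≠ 0 →
    #(tri P p q r) ≤ C * (#P : ℝ) ^ 2 := by
  classical
  obtain ⟨C, hC, h⟩ := ev_PGF.root
  refine ⟨C + 6 * (48 * 40), by linarith, fun P p q r hp hq hr => ?_⟩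
  rcases P.eq_empty_or_nonempty with rfl | hne
  · simp [tri]
  obtain ⟨ν, hν, hνn, h⟩ := h #P (by exact_mod_cast hne.card_pos)
  obtain ⟨Q, hQ⟩ := h P ![p, q, r, p, q, r] ν le_rfl hν hνn
    (fun j => by fin_cases j <;> assumption)
  have s0 := hQ p q r ⟨0, rfl⟩ ⟨1, rfl⟩ ⟨2, rfl⟩
  have e0 : C * ν * ν ^ 15999 = C * (#P : ℝ) ^ 2 := by rw [← hνn]; ring
  set S := tri P p q r with hS
  have hSm : ∀ t ∈ S, (t.1 ∈ P ∧ t.2.1 ∈ P ∧ t.2.2 ∈ P) ∧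
      d2 t.1 t.2.1 = p ∧ d2 t.1 t.2.2 = q ∧ d2 t.2.1 t.2.2 = r := fun t ht => mem_tri.1 ht
  have simple : ∀ (x y z : V × V × V → V) (a b c : ℝ),
      (∀ s t, x s = x t → y s = y t → z s = z t → s = t) →
      (∀ s ∈ S, x s ∈ P ∧ y s ∈ P ∧ z s ∈ P ∧ d2 (x s) (y s) = a ∧ d2 (x s) (z s) = b ∧
        d2 (y s) (z s) = c) →
      (#{s ∈ S | ∃ i, InPl (Q (x s) i) (z s)} : ℝ) ≤ 48 * (40 * (#P : ℝ) ^ 2) := by
    intro x y z a b c h1 h2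
    convert card_exists_le' S (fun i s => InPl (Q (x s) i) (z s)) _ fun i => ?_
    exact_mod_cast simple_three _ x y z P a b c (fun v => Q v i) (fun s _ t _ => h1 s t)
      (fun s hs => by
        obtain ⟨k1, k2, k3, k4, k5, k6⟩ := h2 s (mem_filter.1 hs).1
        exact ⟨k1, k2, k3, k4, k5, k6, (mem_filter.1 hs).2⟩)
  have s1 := simple (·.1) (·.2.1) (·.2.2) p q r
    (fun s t h1 h2 h3 => Prod.ext h1 (Prod.ext h2 h3))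
    (fun s hs => by obtain ⟨⟨k1, k2, k3⟩, k4, k5, k6⟩ := hSm s hs; exact ⟨k1, k2, k3, k4, k5, k6⟩)
  have s2 := simple (·.2.2) (·.2.1) (·.1) r q p
    (fun s t h1 h2 h3 => Prod.ext h3 (Prod.ext h2 h1))
    (fun s hs => by
      obtain ⟨⟨k1, k2, k3⟩, k4, k5, k6⟩ := hSm s hs
      exact ⟨k3, k2, k1, d2_comm _ _ ▸ k6, d2_comm _ _ ▸ k5, d2_comm _ _ ▸ k4⟩)
  have s3 := simple (·.2.1) (·.1) (·.2.2) p r q
    (fun s t h1 h2 h3 => Prod.ext h2 (Prod.ext h1 h3))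
    (fun s hs => by
      obtain ⟨⟨k1, k2, k3⟩, k4, k5, k6⟩ := hSm s hs
      exact ⟨k2, k1, k3, d2_comm _ _ ▸ k4, k6, k5⟩)
  have s4 := simple (·.2.2) (·.1) (·.2.1) q r p
    (fun s t h1 h2 h3 => Prod.ext h2 (Prod.ext h3 h1))
    (fun s hs => by
      obtain ⟨⟨k1, k2, k3⟩, k4, k5, k6⟩ := hSm s hs
      exact ⟨k3, k1, k2, d2_comm _ _ ▸ k5, d2_comm _ _ ▸ k6, k4⟩)
  have s5 := simple (·.1) (·.2.2) (·.2.1) q p r
    (fun s t h1 h2 h3 => Prod.ext h1 (Prod.ext h3 h2))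
    (fun s hs => by
      obtain ⟨⟨k1, k2, k3⟩, k4, k5, k6⟩ := hSm s hs
      exact ⟨k1, k3, k2, k5, k4, d2_comm _ _ ▸ k6⟩)
  have s6 := simple (·.2.1) (·.2.2) (·.1) r p q
    (fun s t h1 h2 h3 => Prod.ext h3 (Prod.ext h1 h2))
    (fun s hs => by
      obtain ⟨⟨k1, k2, k3⟩, k4, k5, k6⟩ := hSm s hs
      exact ⟨k2, k3, k1, k6, d2_comm _ _ ▸ k4, d2_comm _ _ ▸ k5⟩)
  have s7 := card_le_list [{s ∈ S | ∃ i, InPl (Q s.1 i) s.2.2},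
    {s ∈ S | ∃ i, InPl (Q s.2.2 i) s.1}, {s ∈ S | ∃ i, InPl (Q s.2.1 i) s.2.2},
    {s ∈ S | ∃ i, InPl (Q s.2.2 i) s.2.1}, {s ∈ S | ∃ i, InPl (Q s.1 i) s.2.1},
    {s ∈ S | ∃ i, InPl (Q s.2.1 i) s.1}, ftri P (Fr Q) p q r] S (by
      intro s hs
      simp only [List.mem_cons, List.not_mem_nil, or_false, exists_eq_or_imp, exists_eq_left,
        mem_filter, mem_ftri]
      by_contra hcon
      simp only [not_or, not_and, not_exists] at hcon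
      obtain ⟨k1, k2, k3, k4, k5, k6, k7⟩ := hcon
      exact k7 hs ⟨k5 hs, k6 hs⟩ ⟨k1 hs, k2 hs⟩ ⟨k3 hs, k4 hs⟩)
  simp only [List.map_cons, List.map_nil, List.sum_cons, List.sum_nil, add_zero] at s7
  have s8 : (#S : ℝ) ≤ _ := Nat.cast_le.2 s7
  push_cast at s8
  linarith

end Pool.Agent.P.MP_f7c707_co
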