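import Pool.Agent.P.MP_f7c707_co.QDefs

/-!
A maximal matching inside the classes of a map.
-/

namespace Pool.Agent.P.MP_f7c707_co

open Finset MvPolynomial Pool.Agent.Lib.PolyPart

/-- A maximal matching inside the classes of a map. -/
lemma exists_matching {α β : Type} (A : Finset α) (e : α → β) (R : Fin 4 → α → α → Prop)
    (hR : ∀ a ∈ A, ∀ b ∈ A, a ≠ b → e a = e b → ∃ i, R i a b ∨ R i b a) :
    ∃ (A₀ : Finset α) (L : Fin 4 → Finset (α × α)), A₀ ⊆ A ∧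
      (∀ a ∈ A₀, ∀ b ∈ A₀, e a = e b → a = b) ∧
      (∀ i, ∀ l ∈ L i, l.1 ∈ A ∧ l.2 ∈ A ∧ e l.1 = e l.2 ∧ R i l.1 l.2) ∧
      (∀ i, ∀ l ∈ L i, ∀ l' ∈ L i, l.1 = l'.1 → l = l') ∧
      (∀ i, ∀ l ∈ L i, ∀ l' ∈ L i, l.2 = l'.2 → l = l') ∧
      #A ≤ #A₀ + 2 * ∑ i, #(L i) := by
  classical
  induction A using Finset.strongInduction with
  | H A ih =>
  by_cases h : ∀ a ∈ A, ∀ b ∈ A, e a = e b → a = b
  · exact ⟨A, fun _ => ∅, Subset.rfl, h, by simp, by simp, by simp, by simp⟩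
  push Not at h
  obtain ⟨a, ha, b, hb, i, hab, he, hi⟩ :
      ∃ a ∈ A, ∃ b ∈ A, ∃ i, a ≠ b ∧ e a = e b ∧ R i a b := by
    obtain ⟨a, ha, b, hb, he, hab⟩ := h
    obtain ⟨i, hi | hi⟩ := hR a ha b hb hab he
    · exact ⟨a, ha, b, hb, i, hab, he, hi⟩
    · exact ⟨b, hb, a, ha, i, hab.symm, he.symm, hi⟩
  have hsub : (A.erase a).erase b ⊆ A := (erase_subset _ _).trans (erase_subset _ _)
  obtain ⟨A₀, L, h1, h2, h3, h4, h5, h6⟩ := ih ((A.erase a).erase b)
    ((erase_subset _ _).trans_ssubset (erase_ssubset ha))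
    fun x hx y hy => hR x (hsub hx) y (hsub hy)
  have hm : ∀ j l, l ∈ (if j = i then insert (a, b) (L j) else L j) →
      (j = i ∧ l = (a, b)) ∨ l ∈ L j := by
    intro j l hl
    split_ifs at hl with hj
    · exact (mem_insert.1 hl).imp_left fun h => ⟨hj, h⟩
    · exact Or.inr hl
  have n1 : ∀ j, ∀ l ∈ L j, l.1 ≠ a := fun j l hl =>
    (mem_erase.1 (mem_erase.1 (h3 j l hl).1).2).1
  have n2 : ∀ j, ∀ l ∈ L j, l.2 ≠ b := fun j l hl => (mem_erase.1 (h3 j l hl).2.1).1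
  refine ⟨A₀, fun j => if j = i then insert (a, b) (L j) else L j, h1.trans hsub, h2,
    fun j l hl => ?_, fun j l hl l' hl' hh => ?_, fun j l hl l' hl' hh => ?_, ?_⟩
  · rcases hm j l hl with ⟨rfl, rfl⟩ | hl
    · exact ⟨ha, hb, he, hi⟩
    · exact ⟨hsub (h3 j l hl).1, hsub (h3 j l hl).2.1, (h3 j l hl).2.2⟩
  · rcases hm j l hl with ⟨-, rfl⟩ | hl <;> rcases hm j l' hl' with ⟨-, rfl⟩ | hl'
    · rfl
    · exact absurd hh.symm (n1 j l' hl')
    · exact absurd hh (n1 j l hl)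
    · exact h4 j l hl l' hl' hh
  · rcases hm j l hl with ⟨-, rfl⟩ | hl <;> rcases hm j l' hl' with ⟨-, rfl⟩ | hl'
    · rfl
    · exact absurd hh.symm (n2 j l' hl')
    · exact absurd hh (n2 j l hl)
    · exact h5 j l hl l' hl' hh
  · have e1 : ∑ j, #(if j = i then insert (a, b) (L j) else L j) =
        ∑ j, (#(L j) + if j = i then 1 else 0) := by
      apply sum_congr rfl
      intro j _
      split_ifs
      · exact card_insert_of_notMem fun hl => n1 j _ hl rfl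
      · rfl
    rw [e1, sum_add_distrib, sum_ite_eq', if_pos (mem_univ _)]
    have e2 := card_erase_add_one ha
    have e3 := card_erase_add_one (mem_erase.2 ⟨hab.symm, hb⟩)
    omega

end Pool.Agent.P.MP_f7c707_co
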