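import Pool.Agent.P.MP_f7c707_co.QLens
import Pool.Agent.P.MP_f7c707_co.QArc
import Pool.Agent.P.MP_f7c707_co.QMatch
import Pool.Agent.P.MP_f7c707_co.QArcs

/-!
Incidences between points and circles cut out by pairs.
-/

namespace Pool.Agent.P.MP_f7c707_co

open Finset MvPolynomial Pool.Agent.Lib.PolyPart

theorem ev_PInc : Ev PInc := by
  classical
  intro ε hε
  obtain ⟨D, K, hK, harc⟩ := arc_bound hε
  obtain ⟨K', hK'⟩ := pairs_le (2 * D)
  obtain ⟨KL, hKL, hlens⟩ := lens_bound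
  have hK'0 : (0 : ℝ) ≤ K' := Nat.cast_nonneg _
  have hKK : K ≤ K * (K' + 1) := le_mul_of_one_le_right (by linarith) (by linarith)
  refine ⟨K * (K' + 1) + (8 * KL + 8), by linarith,
    fun n hn Λ hΛ P C d al ga rho hPn hρ hP hC F hF N r z hN hr hz hCz => ?_⟩
  obtain ⟨F', Γ, A, hF', hΓ, hfam, hA, hAm, hcount⟩ := exists_arcs P C d al ga rho hρ hP hC F hF
  have hf := hfam.fam hρ
  obtain ⟨A₀, L, a1, a2, a3, a4, a5, a6⟩ := exists_matching A
    (fun a => ((Γ a.1).pt a.2.1, (Γ a.1).pt a.2.2))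
    (fun i a b => (Γ a.1).tg a.2.1 i < (Γ b.1).tg b.2.1 i ∧ (Γ b.1).tg b.2.2 i < (Γ a.1).tg a.2.2 i)
    (by
      intro a ha b hb hab he
      simp only [Prod.mk.injEq] at he
      obtain ⟨k1, k2, -⟩ := hAm a ha
      obtain ⟨k3, k4, -⟩ := hAm b hb
      rcases reversal (hΓ _ k1) (hΓ _ k3) k2 k4 he.1 he.2 with ⟨t, t', m1, m2, m3⟩ | ⟨i, hi⟩
      · exfalso
        have hne : a.1 ≠ b.1 := fun h0 => hab (hA.eq_of_fst ha hb h0
          ((hΓ _ k1).pt_injective (by rw [he.1, h0])))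
        have hz := hf.zero _ k3
        exact hf.sep _ k1 _ k3 hne t a.2.1 a.2.2 m1 m2 k2.1.ne (by simpa only [m3] using hz _)
          (by simpa only [he.1] using hz _) (by simpa only [he.2] using hz _)
      · refine ⟨i, ?_⟩
        rcases mul_neg_iff.1 hi with ⟨m1, m2⟩ | ⟨m1, m2⟩
        · exact Or.inr ⟨by linarith, by linarith⟩
        · exact Or.inl ⟨by linarith, by linarith⟩)
  have hFC : ∀ Z ∈ F', Z ⊆ C := fun Z hZ => (hF Z (hF' hZ)).1
  have b1 : ∀ i, (#(L i) : ℝ) ≤ KL * (#C * z ^ 19) := fun i =>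
    hlens d al ga rho hρ F' _ (fun Z t => (Γ Z).tg t i) A hfam (fun Z _ => (Γ Z).rat_tg i) hA C
      hFC z hz hCz (L i) ⟨fun l hl => by
        obtain ⟨k1, k2, k3, k4⟩ := a3 i l hl
        simp only [Prod.mk.injEq] at k3
        exact ⟨k1, k2, (hAm _ k1).1, (hAm _ k2).1, k3.1, k3.2, k4.1, k4.2⟩, a4 i, a5 i⟩
  obtain ⟨I, y, hNice, -, hV⟩ := exists_nice_three d al
  have b2 := harc _ F' _ hf.rat hf.inj 2 I y hNice (fun p => K' * (#(nb C p rho) : ℝ))
    (fun p => by positivity)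
    (fun I' y' hN' p G hG h => by
      exact_mod_cast hK' d al ga rho hρ F' _ hfam I' y' hN' G hG (fun Z hZ => (h Z hZ).2)
        (nb C p rho) fun Z hZ c hc => by
          obtain ⟨t, ht⟩ := (h Z hZ).1
          refine mem_nb.2 ⟨hFC Z (hG hZ) hc, ?_⟩
          rw [d2_comm, ← ht]
          exact ((hfam Z (hG hZ)).2.2.2.2 t).2 c hc)
    P F' A₀ Subset.rfl (hA.mono a1) (fun Z hZ t => hV _ ((hfam Z hZ).2.2.2.2 t).1)
    (fun a ha => ⟨(hAm a (a1 ha)).1, (hAm a (a1 ha)).2.2⟩)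
    (fun a ha b hb e1 e2 => a2 a ha b hb (Prod.ext e1 e2)) r hr
  rw [← mul_sum] at b2
  have hE : ∑ p ∈ P, (#(nb C p rho) : ℝ) = ed C P rho := rfl
  rw [hE] at b2
  have hE0 : 0 ≤ ed C P rho := hE ▸ sum_nonneg fun _ _ => Nat.cast_nonneg _
  have b3 : (#F : ℝ) ≤ #C * z ^ 19 := by
    have k1 : F ⊆ powersetCard 2 C := fun Z hZ => mem_powersetCard.2 (hF Z hZ)
    have k2 := card_le_card k1
    rw [card_powersetCard] at k2
    have k3 : (#F : ℝ) ≤ (#C : ℝ) ^ 2 := by exact_mod_cast k2.trans (Nat.choose_le_pow _ _)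
    rw [sq] at k3
    exact k3.trans (mul_le_mul_of_nonneg_left (hCz.trans (pow_le_pow_right₀ hz (by norm_num)))
      (by positivity))
  have b4 : (#F' : ℝ) * r ≤ N * r := mul_le_mul_of_nonneg_right
    (le_trans (by exact_mod_cast card_le_card hF') hN) hr.le
  have hN0 : 0 ≤ N * r := le_trans (by positivity) b4
  set T : ℝ := N * r + (#P : ℝ) ^ 2 / r ^ 3 + ed C P rho + #C * z ^ 19 with hT
  have p1 : 0 ≤ (#P : ℝ) ^ 2 / r ^ 3 := by positivity
  have p2 : 0 ≤ (#C : ℝ) * z ^ 19 := by positivity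
  have hT0 : 0 ≤ T := by positivity
  have hn1 : 1 ≤ n ^ ε := Real.one_le_rpow hn hε.le
  have b5 : (#A₀ : ℝ) ≤ K * (K' + 1) * n ^ ε * T := by
    refine b2.trans ?_
    calc _ ≤ K * n ^ ε * ((K' + 1) * T) := by
          apply mul_le_mul (mul_le_mul_of_nonneg_left
            (Real.rpow_le_rpow (by positivity) hPn hε.le) (by linarith)) _ (by positivity)
            (by positivity)
          have := mul_nonneg hK'0 (show 0 ≤ T - ed C P rho by linarith)
          linarith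
      _ = _ := by ring
  have b6 : ∑ i, (#(L i) : ℝ) ≤ 4 * (KL * (#C * z ^ 19)) :=
    (sum_le_sum fun i _ => b1 i).trans (le_of_eq (by simp))
  have b7 : ∑ p ∈ P, (#{Z ∈ F | Z ⊆ nb C p rho} : ℝ) ≤ #A₀ + 2 * ∑ i, (#(L i) : ℝ) + 8 * #F := by
    exact_mod_cast hcount.trans (Nat.add_le_add_right a6 _)
  have b8 : (8 * KL + 8) * (#C * z ^ 19) ≤ (8 * KL + 8) * n ^ ε * T := by
    rw [mul_assoc]
    exact mul_le_mul_of_nonneg_left (le_trans (by linarith) (le_mul_of_one_le_left hT0 hn1))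
      (by linarith)
  have b9 := mul_le_mul_of_nonneg_right hΛ hT0
  linarith

end Pool.Agent.P.MP_f7c707_co
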