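import Pool.Agent.P.MP_f7c707_co.QRat

/-!
Order reversal forces equal signs of all derivatives.
-/

namespace Pool.Agent.P.MP_f7c707_co

open Finset MvPolynomial Pool.Agent.Lib.PolyPart

lemma qthom_pos {f g : ℝ → ℝ} {a b a' b' : ℝ} (hab : a < b) (hab' : b' < a')
    (hf : StrictMonoOn f (Set.Icc a b)) (hg : StrictMonoOn g (Set.Icc b' a'))
    (h1 : SignType.sign (f a) = SignType.sign (g a'))
    (h2 : SignType.sign (f b) = SignType.sign (g b')) :
    ∃ ε : SignType, (∀ x ∈ Set.Icc a b, SignType.sign (f x) = ε) ∧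
      ∀ x ∈ Set.Icc b' a', SignType.sign (g x) = ε := by
  have ma : a ∈ Set.Icc a b := ⟨le_rfl, hab.le⟩
  have mb : b ∈ Set.Icc a b := ⟨hab.le, le_rfl⟩
  have ma' : a' ∈ Set.Icc b' a' := ⟨hab'.le, le_rfl⟩
  have mb' : b' ∈ Set.Icc b' a' := ⟨le_rfl, hab'.le⟩
  have e1 := hf ma mb hab
  have e2 := hg mb' ma' hab'
  by_cases h : 0 ≤ f a
  · have k1 : 0 < g b' := by rw [← sign_eq_one_iff, ← h2, sign_eq_one_iff]; linarith
    have k2 : 0 < f a := by rw [← sign_eq_one_iff, h1, sign_eq_one_iff]; linarith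
    exact ⟨1, fun x hx => sign_pos (k2.trans_le (hf.monotoneOn ma hx hx.1)),
      fun x hx => sign_pos (k1.trans_le (hg.monotoneOn mb' hx hx.1))⟩
  · have k1 : g a' < 0 := by rw [← sign_eq_neg_one_iff, ← h1, sign_eq_neg_one_iff]; linarith
    have k2 : f b < 0 := by rw [← sign_eq_neg_one_iff, h2, sign_eq_neg_one_iff]; linarith
    exact ⟨-1, fun x hx => sign_neg ((hf.monotoneOn hx mb hx.2).trans_lt k2),
      fun x hx => sign_neg ((hg.monotoneOn hx ma' hx.2).trans_lt k1)⟩

lemma qthom_zero (u : Polynomial ℝ) {a b : ℝ} (hab : a < b)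
    (h : ∀ x ∈ Set.Icc a b, SignType.sign (u.eval x) = 0) : u = 0 :=
  u.eq_zero_of_infinite_isRoot
    ((Set.Icc_infinite hab).mono fun x hx => sign_eq_zero_iff.1 (h x hx))

lemma qthom_mono (u : Polynomial ℝ) {a b : ℝ}
    (h : ∀ x ∈ Set.Icc a b, 0 < u.derivative.eval x) :
    StrictMonoOn (fun x => u.eval x) (Set.Icc a b) :=
  strictMonoOn_of_deriv_pos (convex_Icc a b) u.continuous.continuousOn fun x hx => by
    rw [Polynomial.deriv]; exact h x (interior_subset hx)

lemma qthom_step (u v : Polynomial ℝ) {a b a' b' : ℝ} (hab : a < b) (hab' : b' < a')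
    (h1 : SignType.sign (u.eval a) = SignType.sign (v.eval a'))
    (h2 : SignType.sign (u.eval b) = SignType.sign (v.eval b')) (ε : SignType)
    (hu : ∀ x ∈ Set.Icc a b, SignType.sign (u.derivative.eval x) = ε)
    (hv : ∀ x ∈ Set.Icc b' a', SignType.sign (v.derivative.eval x) = ε) :
    ∃ ε : SignType, (∀ x ∈ Set.Icc a b, SignType.sign (u.eval x) = ε) ∧
      ∀ x ∈ Set.Icc b' a', SignType.sign (v.eval x) = ε := by
  rcases ε with _ | _ | _
  · have e1 := Polynomial.eq_C_of_derivative_eq_zero (qthom_zero _ hab hu)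
    have e2 := Polynomial.eq_C_of_derivative_eq_zero (qthom_zero _ hab' hv)
    rw [e1, e2] at h1 ⊢
    simp only [Polynomial.eval_C] at h1 ⊢
    exact ⟨_, fun _ _ => h1, fun _ _ => rfl⟩
  · obtain ⟨ε, k1, k2⟩ := qthom_pos hab hab'
      (qthom_mono (-u) fun x hx => by
        rw [Polynomial.derivative_neg, Polynomial.eval_neg, neg_pos]
        exact sign_eq_neg_one_iff.1 (hu x hx))
      (qthom_mono (-v) fun x hx => by
        rw [Polynomial.derivative_neg, Polynomial.eval_neg, neg_pos]
        exact sign_eq_neg_one_iff.1 (hv x hx))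
      (by simp only [Polynomial.eval_neg, Left.sign_neg, h1])
      (by simp only [Polynomial.eval_neg, Left.sign_neg, h2])
    simp only [Polynomial.eval_neg, Left.sign_neg] at k1 k2
    exact ⟨-ε, fun x hx => by rw [← k1 x hx, neg_neg], fun x hx => by rw [← k2 x hx, neg_neg]⟩
  · exact qthom_pos hab hab' (qthom_mono u fun x hx => sign_eq_one_iff.1 (hu x hx))
      (qthom_mono v fun x hx => sign_eq_one_iff.1 (hv x hx)) h1 h2

lemma thom_order (u v : Polynomial ℝ) {a b a' b' : ℝ} (hab : a < b) (hab' : b' < a')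
    (h1 : ∀ k, SignType.sign ((Polynomial.derivative^[k] u).eval a) =
      SignType.sign ((Polynomial.derivative^[k] v).eval a'))
    (h2 : ∀ k, SignType.sign ((Polynomial.derivative^[k] u).eval b) =
      SignType.sign ((Polynomial.derivative^[k] v).eval b')) :
    u = 0 ∨ ∀ x ∈ Set.Icc a b, u.eval x ≠ 0 := by
  have key : ∀ j k, u.natDegree + v.natDegree < j + k → ∃ ε : SignType,
      (∀ x ∈ Set.Icc a b, SignType.sign ((Polynomial.derivative^[k] u).eval x) = ε) ∧
      ∀ x ∈ Set.Icc b' a', SignType.sign ((Polynomial.derivative^[k] v).eval x) = ε := by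
    intro j
    induction j with
    | zero =>
      intro k hk
      rw [Polynomial.iterate_derivative_eq_zero (by omega),
        Polynomial.iterate_derivative_eq_zero (by omega)]
      exact ⟨0, by simp, by simp⟩
    | succ j ih =>
      intro k hk
      obtain ⟨ε, k1, k2⟩ := ih (k + 1) (by omega)
      rw [Function.iterate_succ_apply'] at k1 k2
      exact qthom_step _ _ hab hab' (h1 k) (h2 k) ε k1 k2
  obtain ⟨ε, k1, -⟩ := key (u.natDegree + v.natDegree + 1) 0 (by omega)
  by_cases hε : ε = 0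
  · exact Or.inl (qthom_zero u hab (hε ▸ k1))
  · exact Or.inr fun x hx h0 => hε (by rw [← k1 x hx]; exact sign_eq_zero_iff.2 h0)

lemma totalDegree_iterate_pderiv {j : ℕ} (H : MP (j + 1)) (k : ℕ) :
    ((pderiv 0)^[k] H).totalDegree ≤ H.totalDegree := by
  induction k with
  | zero => exact le_rfl
  | succ k ih =>
    rw [Function.iterate_succ_apply']
    exact (totalDegree_pderiv_le' _ _).trans ih

lemma qthom_pderiv {j : ℕ} (H : MP (j + 1)) :
    finSuccEquiv ℝ j (pderiv 0 H) = Polynomial.derivative (finSuccEquiv ℝ j H) := by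
  induction H using MvPolynomial.induction_on with
  | C a => simp [finSuccEquiv_apply]
  | add p q hp hq => simp only [map_add, hp, hq]
  | mul_X p i hp =>
    refine Fin.cases ?_ (fun i => ?_) i
    · simp only [Derivation.leibniz, pderiv_X_self, smul_eq_mul, map_add, map_mul, hp, mul_one,
        finSuccEquiv_X_zero, Polynomial.derivative_mul, Polynomial.derivative_X]
      ring
    · simp only [Derivation.leibniz, pderiv_X_of_ne (Fin.succ_ne_zero i), smul_eq_mul, map_mul, hp,
        mul_zero, zero_add, finSuccEquiv_X_succ, Polynomial.derivative_mul,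
        Polynomial.derivative_C, add_zero]
      ring

lemma qthom_iter {j : ℕ} (H : MP (j + 1)) (k : ℕ) :
    finSuccEquiv ℝ j ((pderiv 0)^[k] H) = Polynomial.derivative^[k] (finSuccEquiv ℝ j H) := by
  induction k with
  | zero => rfl
  | succ k ih => rw [Function.iterate_succ_apply', Function.iterate_succ_apply', qthom_pderiv, ih]

/-- The form used for lifted curves. -/
lemma thom_lift {j D : ℕ} (H : MP (j + 1)) (hH : H ≠ 0) (hD : H.totalDegree ≤ D) :
    ∃ g : MP j, g ≠ 0 ∧ g.totalDegree ≤ D ∧ ∀ (p p' : Fin j → ℝ) (a b a' b' : ℝ), a < b →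
      b' < a' →
      (∀ k ≤ D, SignType.sign (eval (Fin.cons a p) ((pderiv 0)^[k] H)) =
        SignType.sign (eval (Fin.cons a' p') ((pderiv 0)^[k] H))) →
      (∀ k ≤ D, SignType.sign (eval (Fin.cons b p) ((pderiv 0)^[k] H)) =
        SignType.sign (eval (Fin.cons b' p') ((pderiv 0)^[k] H))) →
      eval p g = 0 ∨ ∀ x ∈ Set.Icc a b, eval (Fin.cons x p) H ≠ 0 := by
  set W := finSuccEquiv ℝ j H with hW
  have hW0 : W ≠ 0 := by simpa [hW] using hH
  have hWd : W.natDegree ≤ D := by
    rw [hW, natDegree_finSuccEquiv]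
    exact (degreeOf_le_totalDegree _ _).trans hD
  have hg : W.coeff W.natDegree ≠ 0 := Polynomial.leadingCoeff_ne_zero.2 hW0
  refine ⟨W.coeff W.natDegree, hg, ?_, fun p p' a b a' b' hab hab' h1 h2 => ?_⟩
  · exact le_trans (Nat.le_add_right _ _)
      ((totalDegree_coeff_finSuccEquiv_add_le H _ hg).trans hD)
  have key : ∀ x x' : ℝ, (∀ k ≤ D, SignType.sign (eval (Fin.cons x p) ((pderiv 0)^[k] H)) =
        SignType.sign (eval (Fin.cons x' p') ((pderiv 0)^[k] H))) →
      ∀ k, SignType.sign ((Polynomial.derivative^[k] (W.map (eval p))).eval x) =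
        SignType.sign ((Polynomial.derivative^[k] (W.map (eval p'))).eval x') := by
    intro x x' h k
    rw [Polynomial.iterate_derivative_map, Polynomial.iterate_derivative_map]
    by_cases hk : k ≤ D
    · have := h k hk
      rwa [eval_eq_eval_mv_eval', eval_eq_eval_mv_eval', qthom_iter] at this
    · rw [Polynomial.iterate_derivative_eq_zero (by omega)]
      simp
  rcases thom_order (W.map (eval p)) (W.map (eval p')) hab hab' (key a a' h1) (key b b' h2) with
    h | h
  · left
    rw [← Polynomial.coeff_map, h, Polynomial.coeff_zero]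
  · right
    intro x hx
    rw [eval_eq_eval_mv_eval']
    exact h x hx

lemma sign_keep_fun {s : ℕ} (f : Fin s → ℝ → ℝ) (hf : ∀ i, Continuous (f i)) {a b : ℝ}
    (hab : a ≤ b) (h0 : ∀ t ∈ Set.Icc a b, ∏ i, f i t ≠ 0) :
    ∃ σ : Fin s → Bool, (∀ i, 0 < sg (σ i) * f i a) ∧ ∀ i, 0 < sg (σ i) * f i b := by
  have h1 : ∀ i, ∀ t ∈ Set.Icc a b, f i t ≠ 0 :=
    fun i t ht => prod_ne_zero_iff.1 (h0 t ht) i (mem_univ i)
  have h2 : ∀ i, SignType.sign (f i a) = SignType.sign (f i b) :=
    fun i => Clean.sign_eq (hf i) hab (Or.inr (h1 i))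
  refine ⟨fun i => decide (0 < f i a), fun i => ?_, fun i => ?_⟩
  · by_cases h : 0 < f i a
    · simp only [h, decide_true, sg_true, one_mul]
    · simp only [h, decide_false, sg_false, neg_mul, one_mul, neg_pos]
      exact lt_of_le_of_ne (not_lt.1 h) (h1 i a ⟨le_rfl, hab⟩)
  · by_cases h : 0 < f i a
    · simp only [h, decide_true, sg_true, one_mul]
      rw [← sign_eq_one_iff, ← h2 i, sign_eq_one_iff]
      exact h
    · simp only [h, decide_false, sg_false, neg_mul, one_mul, neg_pos]
      rw [← sign_eq_neg_one_iff, ← h2 i, sign_eq_neg_one_iff]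
      exact lt_of_le_of_ne (not_lt.1 h) (h1 i a ⟨le_rfl, hab⟩)

/-- Factors of a product without zero on a vertical segment keep their signs. -/
lemma sign_keep {j s : ℕ} (h : Fin s → MP (j + 1)) (p : Fin j → ℝ) {a b : ℝ} (hab : a ≤ b)
    (h0 : ∀ x ∈ Set.Icc a b, eval (Fin.cons x p) (∏ i, h i) ≠ 0) :
    ∃ σ : Fin s → Bool, (∀ i, 0 < sg (σ i) * eval (Fin.cons a p) (h i)) ∧
      ∀ i, 0 < sg (σ i) * eval (Fin.cons b p) (h i) := by
  refine sign_keep_fun (fun i x => eval (Fin.cons x p) (h i)) (fun i => ?_) hab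
    fun t ht => by simpa only [map_prod] using h0 t ht
  simp only [eval_eq_eval_mv_eval']
  exact Polynomial.continuous _

end Pool.Agent.P.MP_f7c707_co
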