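import Pool.Agent.P.MP_f7c707_co.QRat
import Pool.Agent.P.MP_f7c707_co.QThom

/-!
The recursion for lenses.
-/

namespace Pool.Agent.P.MP_f7c707_co

open Finset MvPolynomial Pool.Agent.Lib.PolyPart

lemma qrec_arith {S : Type} [Fintype S] (a g : S → ℝ) (Lc N W T C β : ℝ) (hW : 0 < W)
    (hS : (Fintype.card S : ℝ) ≤ W) (hT : 0 < T) (hN : 0 < N) (hC : 0 ≤ C) (hβ : 0 ≤ β)
    (hLc : 0 ≤ Lc) (hg0 : ∀ σ, 0 ≤ g σ) (ha : ∀ σ, W * a σ ≤ Lc) (hg : ∑ σ, g σ ≤ T * N)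
    (hag : ∀ σ, a σ ≤ C * g σ ^ β) (hkey : W * (4 * T / W) ^ β ≤ 1 / 4) :
    ∑ σ, a σ ≤ Lc / 4 + C * N ^ β / 4 := by
  classical
  rw [← sum_filter_add_sum_filter_not univ (fun σ => 4 * T / W * N < g σ)]
  apply add_le_add
  · set Hv := univ.filter (fun σ => 4 * T / W * N < g σ) with hHv
    have h1 := card_nsmul_le_sum Hv g (4 * T / W * N) fun σ hσ => (mem_filter.1 hσ).2.le
    have h2 : ∑ σ ∈ Hv, g σ ≤ ∑ σ, g σ :=
      sum_le_sum_of_subset_of_nonneg (subset_univ _) fun σ _ _ => hg0 σ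
    rw [nsmul_eq_mul] at h1
    have h3 : (#Hv : ℝ) * (4 / W) ≤ 1 := by
      apply le_of_mul_le_mul_right _ (mul_pos hT hN)
      calc (#Hv : ℝ) * (4 / W) * (T * N) = #Hv * (4 * T / W * N) := by ring
        _ ≤ T * N := h1.trans (h2.trans hg)
        _ = _ := (one_mul _).symm
    have h4 := sum_le_card_nsmul Hv a (Lc / W) fun σ _ => by
      rw [le_div_iff₀ hW, mul_comm]; exact ha σ
    rw [nsmul_eq_mul] at h4
    refine h4.trans ?_
    calc (#Hv : ℝ) * (Lc / W) = #Hv * (4 / W) * (Lc / 4) := by ring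
      _ ≤ 1 * (Lc / 4) := mul_le_mul_of_nonneg_right h3 (by positivity)
      _ = _ := one_mul _
  · set Lt := univ.filter (fun σ => ¬ 4 * T / W * N < g σ) with hLt
    have h4 := sum_le_card_nsmul Lt a (C * ((4 * T / W) ^ β * N ^ β)) fun σ hσ => by
      refine (hag σ).trans (mul_le_mul_of_nonneg_left ?_ hC)
      rw [← Real.mul_rpow (by positivity) hN.le]
      exact Real.rpow_le_rpow (hg0 σ) (not_lt.1 (mem_filter.1 hσ).2) hβ
    rw [nsmul_eq_mul] at h4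
    refine h4.trans ?_
    have h5 : (#Lt : ℝ) ≤ W := le_trans (by exact_mod_cast card_le_univ Lt) hS
    calc (#Lt : ℝ) * (C * ((4 * T / W) ^ β * N ^ β)) ≤ W * (C * ((4 * T / W) ^ β * N ^ β)) :=
          mul_le_mul_of_nonneg_right h5 (by positivity)
      _ = W * (4 * T / W) ^ β * (C * N ^ β) := by ring
      _ ≤ 1 / 4 * (C * N ^ β) := mul_le_mul_of_nonneg_right hkey (by positivity)
      _ = _ := by ring

lemma qrec_const (k : ℕ) (β : ℝ) (hβ : (k + 2 : ℝ) < (k + 1) * β) :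
    ∃ s' : ℕ, 1 ≤ s' ∧ (2 : ℝ) ^ (s' * (k + 2)) *
      (4 * ((2 * (s' * (k + 2) * ((k + 2) * 2 ^ s')) + 1 : ℕ) : ℝ) / 2 ^ (s' * (k + 2))) ^ β ≤
        1 / 4 := by
  have hk : (0 : ℝ) ≤ k := Nat.cast_nonneg k
  have hβ1 : 1 < β := by nlinarith
  set δ : ℝ := ((k + 1) * β - (k + 2)) / β with hδ
  have hδ0 : 0 < δ := div_pos (by linarith) (by linarith)
  have hρ : 1 < (2 : ℝ) ^ δ := Real.one_lt_rpow one_lt_two hδ0
  obtain ⟨s', hs'1, hs'⟩ := exists_pow_ge 16 (2 * (k + 2) ^ 2) 1 hρ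
  refine ⟨s', hs'1, ?_⟩
  set R : ℝ := 2 ^ s' with hR
  have hR1 : 1 ≤ R := one_le_pow₀ one_le_two
  have hR0 : 0 < R := by linarith
  set κ : ℝ := ((2 * (k + 2) ^ 2 : ℕ) : ℝ) * s' + ((2 * (k + 2) ^ 2 : ℕ) : ℝ) with hκ
  have hκ0 : 0 ≤ κ := by positivity
  have e1 : (2 : ℝ) ^ (s' * (k + 2)) = R ^ (k + 2) := by rw [hR, ← pow_mul]
  have e2 : ((2 * (s' * (k + 2) * ((k + 2) * 2 ^ s')) + 1 : ℕ) : ℝ) ≤ κ * R := by
    rw [hκ]
    push_cast
    rw [← hR]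
    nlinarith [mul_nonneg hk hk]
  have e3 : ((2 : ℝ) ^ δ) ^ s' = R ^ δ := by
    rw [hR, ← Real.rpow_natCast, ← Real.rpow_mul (by norm_num), mul_comm, Real.rpow_mul (by norm_num),
      Real.rpow_natCast]
  rw [pow_one, e3] at hs'
  have e4 : 4 * ((2 * (s' * (k + 2) * ((k + 2) * 2 ^ s')) + 1 : ℕ) : ℝ) / R ^ (k + 2) ≤
      R ^ δ / 4 / R ^ (k + 1) := by
    rw [div_le_div_iff₀ (by positivity) (by positivity), pow_succ R (k + 1)]
    have h1 : 4 * (κ * R) ≤ R ^ δ / 4 * R := by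
      push_cast at hs' hκ
      nlinarith
    calc _ ≤ R ^ δ / 4 * R * R ^ (k + 1) :=
          mul_le_mul_of_nonneg_right (by linarith) (by positivity)
      _ = _ := by ring
  rw [e1]
  have e5 : (R ^ δ / 4 / R ^ (k + 1)) ^ β = 1 / (4 ^ β * R ^ (k + 2)) := by
    rw [Real.div_rpow (by positivity) (by positivity), Real.div_rpow (by positivity) (by positivity),
      ← Real.rpow_mul hR0.le, hδ, div_mul_cancel₀ _ (by linarith), ← Real.rpow_natCast R (k + 1),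
      ← Real.rpow_mul hR0.le, Real.rpow_sub hR0, ← Real.rpow_natCast R (k + 2)]
    push_cast
    field_simp
  have e6 : (4 : ℝ) ≤ 4 ^ β := by
    calc (4 : ℝ) = 4 ^ (1 : ℝ) := (Real.rpow_one _).symm
      _ ≤ _ := Real.rpow_le_rpow_of_exponent_le (by norm_num) hβ1.le
  calc _ ≤ R ^ (k + 2) * (R ^ δ / 4 / R ^ (k + 1)) ^ β :=
        mul_le_mul_of_nonneg_left (Real.rpow_le_rpow (by positivity) e4 (by linarith))
          (by positivity)
    _ = 1 / 4 ^ β := by rw [e5]; field_simp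
    _ ≤ _ := one_div_le_one_div_of_le (by norm_num) e6

lemma LensSys.sub {ι : Type} {γ : ι → ℝ → V} {τ : ι → ℝ → ℝ} {A : Finset (Arc ι)}
    {G G' : Finset ι} {L L' : Finset (Arc ι × Arc ι)} (h : LensSys γ τ A G L) (hL : L' ⊆ L)
    (hG : ∀ l ∈ L', l.1.1 ∈ G' ∧ l.2.1 ∈ G') : LensSys γ τ A G' L' :=
  ⟨fun l hl => ⟨(h.1 l (hL hl)).1, (h.1 l (hL hl)).2.1, (hG l hl).1, (hG l hl).2,
      (h.1 l (hL hl)).2.2.2.2⟩,
    fun l hl l' hl' => h.2.1 l (hL hl) l' (hL hl'), fun l hl l' hl' => h.2.2 l (hL hl) l' (hL hl')⟩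

theorem lens_rec (k : ℕ) (β : ℝ) (hβ : (k + 2 : ℝ) < (k + 1) * β) :
    ∃ (D : ℕ) (K : ℝ), 1 ≤ K ∧ ∀ (ι : Type) (F : Finset ι) (γ : ι → ℝ → V) (τ : ι → ℝ → ℝ)
      (A : Finset (Arc ι)), (∀ Z ∈ F, ∀ i, IsRat 1 fun t => γ Z t i) →
      (∀ Z ∈ F, IsRat 1 (τ Z)) → ArcSys A →
      ∀ (c : ℕ) (I : Ideal (MP 4)) (y : Fin (k + 1) → MP 4), Nice 4 (k + 1) c I y →
      ∀ B : ℝ, 1 ≤ B →
        (∀ (I' : Ideal (MP 4)) (y' : Fin k → MP 4), Nice 4 k (c * D) I' y' →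
          LensBd F γ τ A I' B β) → LensBd F γ τ A I (K * B) β := by
  classical
  have hk : (0 : ℝ) ≤ k := Nat.cast_nonneg k
  have hβ1 : 1 < β := by nlinarith
  obtain ⟨s', hs'1, hkey⟩ := qrec_const k β hβ
  set r : ℕ := 2 ^ s' with hr
  set s : ℕ := s' * (k + 2) with hs
  set d : ℕ := (k + 2) * r with hd
  set D : ℕ := s * d with hD
  set K₁ : ℝ := ((4 * D * (D + 2) : ℕ) : ℝ) with hK₁
  have hK₁0 : 0 ≤ K₁ := Nat.cast_nonneg _
  refine ⟨D, 4 * K₁ + 2, by linarith, fun ι F γ τ A hγ hτ hA c I y hN B hB hlow G hG hV L => ?_⟩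
  induction L using Finset.strongInduction generalizing G with
  | H L ih =>
  intro hL
  rcases L.eq_empty_or_nonempty with rfl | hne
  · rw [card_empty, Nat.cast_zero]; positivity
  let Y : ι → ℝ → Fin (k + 1) → ℝ := fun Z t i => eval (γ Z t) (y i)
  let lift : ι → ℝ → Fin (k + 2) → ℝ := fun Z t => Fin.cons (τ Z t) (Y Z t)
  have hY : ∀ Z ∈ G, ∀ i, IsRat 1 fun t => Y Z t i := fun Z hZ i =>
    isRat_eval (γ Z) (hγ Z (hG hZ)) (y i) (hN.1 i)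
  have hlift : ∀ Z ∈ G, ∀ i, IsRat 1 fun t => lift Z t i := fun Z hZ i => by
    refine Fin.cases ?_ (fun i => ?_) i
    · exact hτ Z (hG hZ)
    · exact hY Z hZ i
  obtain ⟨h, hh, hcell⟩ := poly_partition (k + 2) r s
    (by rw [hs, pow_mul]; exact Nat.pow_le_pow_left r.le_succ _)
    (fun l : Arc ι × Arc ι => lift l.1.1 l.1.2.1) L
  set H : MP (k + 2) := ∏ i, h i with hH
  have hH0 : H ≠ 0 := prod_ne_zero_iff.2 fun i _ => (hh i).1
  have hHD : H.totalDegree ≤ D := by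
    refine (totalDegree_finsetProd _ _).trans ?_
    calc ∑ i, (h i).totalDegree ≤ ∑ _i : Fin s, d := sum_le_sum fun i _ => (hh i).2
      _ = D := by simp [hD]
  obtain ⟨g, hg0, hgD, hg⟩ := thom_lift H hH0 hHD
  obtain ⟨y', hN'⟩ := hN.step g hg0 hgD
  set I' := I ⊔ Ideal.span {aeval y g} with hI'
  let f : Option (Fin (D + 1)) → ι → ℝ → ℝ := fun o Z t =>
    o.elim (eval (Y Z t) g) fun m => eval (lift Z t) ((pderiv 0)^[m] H)
  have hf : ∀ o, ∀ Z ∈ G, IsRat D (f o Z) := by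
    rintro (_ | m) Z hZ
    · exact isRat_eval (Y Z) (hY Z hZ) g hgD
    · exact isRat_eval (lift Z) (hlift Z hZ) _ ((totalDegree_iterate_pderiv H m).trans hHD)
  have hun : ∀ π : Arc ι × Arc ι → Arc ι, (∀ l ∈ L, π l ∈ A ∧ (π l).1 ∈ G) →
      (∀ l ∈ L, ∀ l' ∈ L, π l = π l' → l = l') →
      (#{l ∈ L | ∃ o, ¬ Clean (f o (π l).1) (π l).2.1 (π l).2.2} : ℝ) ≤ K₁ * #G := by
    intro π h1 h2
    set U := {l ∈ L | ∃ o, ¬ Clean (f o (π l).1) (π l).2.1 (π l).2.2} with hU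
    have e1 : #(U.image π) = #U := card_image_of_injOn fun l hl l' hl' =>
      h2 l (mem_filter.1 (mem_coe.1 hl)).1 l' (mem_filter.1 (mem_coe.1 hl')).1
    have e2 := (hA.mono (B := U.image π) fun a ha => by
      obtain ⟨l, hl, rfl⟩ := mem_image.1 ha
      exact (h1 l (mem_filter.1 hl).1).1).card_unclean G f D hf fun a ha => by
      obtain ⟨l, hl, rfl⟩ := mem_image.1 ha
      exact ⟨(h1 l (mem_filter.1 hl).1).2, (mem_filter.1 hl).2⟩
    rw [e1, Fintype.card_option, Fintype.card_fin] at e2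
    rw [hK₁]
    exact_mod_cast e2
  have u1 := hun Prod.fst (fun l hl => ⟨(hL.1 l hl).1, (hL.1 l hl).2.2.1⟩) hL.2.1
  have u2 := hun Prod.snd (fun l hl => ⟨(hL.1 l hl).2.1, (hL.1 l hl).2.2.2.1⟩) hL.2.2
  let G₀ : Finset ι := {Z ∈ G | ∀ t, Van I' (γ Z t)}
  let L₀ : Finset (Arc ι × Arc ι) := {l ∈ L | l.1.1 ∈ G₀ ∧ l.2.1 ∈ G₀}
  let Gc : (Fin s → Bool) → Finset ι := fun σ =>
    {Z ∈ G | ∃ t, ∀ i, 0 < sg (σ i) * eval (lift Z t) (h i)}
  let Lc : (Fin s → Bool) → Finset (Arc ι × Arc ι) := fun σ =>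
    {l ∈ L | (∀ i, 0 < sg (σ i) * eval (lift l.1.1 l.1.2.1) (h i)) ∧ l.1.1 ∈ Gc σ ∧ l.2.1 ∈ Gc σ}
  have hGpos : (1 : ℝ) ≤ #G := by
    obtain ⟨l, hl⟩ := hne
    exact_mod_cast card_pos.2 ⟨_, (hL.1 l hl).2.2.1⟩
  have hGβ : (#G : ℝ) ≤ (#G : ℝ) ^ β := by
    calc (#G : ℝ) = (#G : ℝ) ^ (1 : ℝ) := (Real.rpow_one _).symm
      _ ≤ _ := Real.rpow_le_rpow_of_exponent_le hGpos hβ1.le
  have u3 : (#L₀ : ℝ) ≤ B * (#G : ℝ) ^ β := by
    refine (hlow I' y' hN' G₀ ((filter_subset _ _).trans hG) (fun Z hZ => (mem_filter.1 hZ).2) L₀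
      (hL.sub (filter_subset _ _) fun l hl => (mem_filter.1 hl).2)).trans ?_
    apply mul_le_mul_of_nonneg_left _ (by linarith)
    exact Real.rpow_le_rpow (by positivity) (by exact_mod_cast card_filter_le _ _) (by linarith)
  have hLc : ∀ σ, 2 ^ s * #(Lc σ) ≤ #L := fun σ =>
    le_trans (Nat.mul_le_mul_left _ (card_le_card fun l hl =>
      mem_filter.2 ⟨(mem_filter.1 hl).1, (mem_filter.1 hl).2.1⟩)) (hcell σ)
  have hs1 : 1 ≤ s := Nat.mul_pos hs'1 (by omega)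
  have u4 : ∑ σ, (#(Lc σ) : ℝ) ≤ #L / 4 + (4 * K₁ + 2) * B * (#G : ℝ) ^ β / 4 := by
    refine qrec_arith (fun σ => (#(Lc σ) : ℝ)) (fun σ => (#(Gc σ) : ℝ)) #L #G (2 ^ s)
      ((2 * D + 1 : ℕ) : ℝ) _ β (by positivity) ?_ (by positivity) (by linarith) (by positivity)
      (by linarith) (by positivity) (fun σ => by positivity) (fun σ => ?_) ?_ (fun σ => ?_) hkey
    · rw [Fintype.card_fun, Fintype.card_bool, Fintype.card_fin]
      exact_mod_cast le_rfl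
    · exact_mod_cast hLc σ
    · have := sum_visits_le (E := D) G (fun Z i t => eval (lift Z t) (h i))
        (fun Z hZ i => (isRat_eval (lift Z) (hlift Z hZ) (h i) le_rfl).continuous)
        (fun Z hZ => by
          have := isRat_eval (lift Z) (hlift Z hZ) H hHD
          simpa only [hH, map_prod] using this)
      exact_mod_cast this
    · refine ih (Lc σ) ?_ (Gc σ) ((filter_subset _ _).trans hG)
        (fun Z hZ => hV Z (mem_filter.1 hZ).1)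
        (hL.sub (filter_subset _ _) fun l hl => (mem_filter.1 hl).2.2)
      refine (filter_subset _ _).ssubset_of_ne fun heq => ?_
      have h1 := hLc σ
      have h2 : #(Lc σ) = #L := congrArg card heq
      have h3 : 2 ≤ 2 ^ s := Nat.le_self_pow (by omega) 2
      have h4 := hne.card_pos
      rw [h2] at h1
      nlinarith
  have hcov : ∀ l ∈ L, ∃ U ∈ [{l ∈ L | ∃ o, ¬ Clean (f o l.1.1) l.1.2.1 l.1.2.2},
      {l ∈ L | ∃ o, ¬ Clean (f o l.2.1) l.2.2.1 l.2.2.2}, L₀, univ.biUnion Lc], l ∈ U := by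
    intro l hl
    simp only [List.mem_cons, List.not_mem_nil, or_false, exists_eq_or_imp, exists_eq_left]
    by_cases c1 : ∃ o, ¬ Clean (f o l.1.1) l.1.2.1 l.1.2.2
    · exact Or.inl (mem_filter.2 ⟨hl, c1⟩)
    by_cases c2 : ∃ o, ¬ Clean (f o l.2.1) l.2.2.1 l.2.2.2
    · exact Or.inr (Or.inl (mem_filter.2 ⟨hl, c2⟩))
    push Not at c1 c2
    obtain ⟨a1, a2, g1, g2, e1, e2, t1, t2⟩ := hL.1 l hl
    have y1 : Y l.2.1 l.2.2.1 = Y l.1.1 l.1.2.1 := by simp only [Y, e1]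
    have y2 : Y l.2.1 l.2.2.2 = Y l.1.1 l.1.2.2 := by simp only [Y, e2]
    refine Or.inr (Or.inr ?_)
    rcases hg (Y l.1.1 l.1.2.1) (Y l.1.1 l.1.2.2) _ _ _ _ t1 t2
      (fun m hm => (c1 (some ⟨m, Nat.lt_succ_of_le hm⟩)).sign_eq (hf _ _ g1).continuous
        (hA.1 _ a1).le)
      (fun m hm => by
        have := (c2 (some ⟨m, Nat.lt_succ_of_le hm⟩)).sign_eq (hf _ _ g2).continuous
          (hA.1 _ a2).le
        simp only [f, Option.elim, lift, y1, y2] at this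
        exact this) with h0 | h0
    · have key : ∀ (Z : ι) (a b : ℝ), Z ∈ G → a < b → Clean (f none Z) a b →
          eval (Y Z a) g = 0 → Z ∈ G₀ := by
        intro Z a b hZ hab hc hz
        refine mem_filter.2 ⟨hZ, fun t => (hV Z hZ t).sup ?_⟩
        rw [eval_aeval']
        rcases hc with hc | hc
        · exact hc t
        · exact absurd hz (hc a ⟨le_rfl, hab.le⟩)
      exact Or.inl (mem_filter.2 ⟨hl, key _ _ _ g1 (hA.1 _ a1) (c1 none) h0,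
        key _ _ _ g2 (hA.1 _ a2) (c2 none) (by rw [y1]; exact h0)⟩)
    · obtain ⟨σ, k1, k2⟩ := sign_keep h (Y l.1.1 l.1.2.1) t1.le h0
      refine Or.inr (mem_biUnion.2 ⟨σ, mem_univ _, mem_filter.2 ⟨hl, k1,
        mem_filter.2 ⟨g1, _, k1⟩, mem_filter.2 ⟨g2, l.2.2.1, ?_⟩⟩⟩)
      simp only [lift, y1]
      exact k2
  have h1 := card_le_list _ L hcov
  simp only [List.map_cons, List.map_nil, List.sum_cons, List.sum_nil, add_zero] at h1
  have h2 : (#L : ℝ) ≤ _ := Nat.cast_le.2 h1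
  push_cast at h2
  have h3 : (#(univ.biUnion Lc) : ℝ) ≤ ∑ σ, (#(Lc σ) : ℝ) := by exact_mod_cast card_biUnion_le
  have h4 : K₁ * #G ≤ K₁ * (B * (#G : ℝ) ^ β) :=
    mul_le_mul_of_nonneg_left (hGβ.trans (le_mul_of_one_le_left (by positivity) hB)) hK₁0
  have h5 : (4 * K₁ + 2) * B * (#G : ℝ) ^ β =
      4 * (K₁ * (B * (#G : ℝ) ^ β)) + 2 * (B * (#G : ℝ) ^ β) := by ring
  linarith

end Pool.Agent.P.MP_f7c707_co
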