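import Pool.Agent.P.MP_f7c707_co.QFam
import Pool.Agent.P.MP_f7c707_co.QRec

/-!
The bound for lenses.
-/

namespace Pool.Agent.P.MP_f7c707_co

open Finset MvPolynomial Pool.Agent.Lib.PolyPart

lemma lens_one {ι : Type} {F : Finset ι} {γ : ι → ℝ → V} {g : ι → MP 4} (h : Fam F γ g)
    (τ : ι → ℝ → ℝ) {A : Finset (Arc ι)} (hA : ArcSys A) {c : ℕ} {I : Ideal (MP 4)}
    {y : Fin 1 → MP 4} (hN : Nice 4 1 c I y) {β : ℝ} (hβ : 0 ≤ β) :
    LensBd F γ τ A I (c ^ 2 + 1) β := by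
  intro G hG hV L hL
  rcases L.eq_empty_or_nonempty with rfl | ⟨l₀, hl₀⟩
  · rw [card_empty, Nat.cast_zero]; positivity
  have h1 : #G ≤ c := h.card_le hN G hG fun Z hZ => by simp [hV Z hZ]
  have h2 : #L ≤ #(G ×ˢ G) := by
    apply card_le_card_of_injOn (fun l => (l.1.1, l.2.1))
    · exact fun l hl => mem_coe.2 (mem_product.2 ⟨(hL.1 l hl).2.2.1, (hL.1 l hl).2.2.2.1⟩)
    · intro l hl l' hl' hh
      simp only [Prod.mk.injEq] at hh
      obtain ⟨a1, -, g1, g2, e1, e2, t1, -⟩ := hL.1 l hl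
      obtain ⟨b1, -, -, -, e3, e4, -, -⟩ := hL.1 l' hl'
      rw [← hh.1, ← hh.2] at e3 e4
      have hne : l.1.1 ≠ l.2.1 := by
        intro h0
        rw [← h0] at e1 t1
        rw [h.inj _ (hG g1) e1] at t1
        exact lt_irrefl _ t1
      have hz := h.zero _ (hG g2)
      have key := h.sep _ (hG g1) _ (hG g2) hne
      have p1 := hA.1 _ a1
      have p2 := hA.1 _ b1
      by_contra hll
      rcases hA.2 _ a1 _ b1 hh.1 (fun h0 => hll (hL.2.1 l hl l' hl' h0)) with k | k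
      · exact key l.1.2.1 l.1.2.2 l'.1.2.2 p1.ne (by linarith) (by linarith) (e1 ▸ hz _)
          (e2 ▸ hz _) (e4 ▸ hz _)
      · exact key l'.1.2.1 l'.1.2.2 l.1.2.2 p2.ne (by linarith) (by linarith) (e3 ▸ hz _)
          (e4 ▸ hz _) (e2 ▸ hz _)
  rw [card_product] at h2
  have h3 : (#L : ℝ) ≤ c ^ 2 + 1 := by
    have : #L ≤ c ^ 2 + 1 := by nlinarith [Nat.mul_le_mul h1 h1]
    exact_mod_cast this
  exact h3.trans (le_mul_of_one_le_right (by positivity)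
    (Real.one_le_rpow (by exact_mod_cast card_pos.2 ⟨_, (hL.1 l₀ hl₀).2.2.1⟩) hβ))

/-- Lenses of circles cut out by pairs of `k` centres. -/
theorem lens_bound : ∃ K : ℝ, 1 ≤ K ∧ ∀ (d : V) (al ga rho : ℝ), rho ≠ al + ga →
    ∀ (F : Finset (Finset V)) (γ : Finset V → ℝ → V) (τ : Finset V → ℝ → ℝ)
      (A : Finset (Arc (Finset V))), PairFam d al ga rho F γ → (∀ Z ∈ F, IsRat 1 (τ Z)) →
      ArcSys A → ∀ C : Finset V, (∀ Z ∈ F, Z ⊆ C) → ∀ z : ℝ, 1 ≤ z → #C ≤ z ^ 10 →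
      ∀ L, LensSys γ τ A F L → (#L : ℝ) ≤ K * (#C * z ^ 19) := by
  obtain ⟨D₃, K₃, hK₃, h₃⟩ := lens_rec 2 (27 / 20) (by norm_num)
  obtain ⟨D₂, K₂, hK₂, h₂⟩ := lens_rec 1 (31 / 20) (by norm_num)
  obtain ⟨K', hK'⟩ := pairs_le (2 * D₃)
  set B₁ : ℝ := ((2 * D₃ * D₂ : ℕ) : ℝ) ^ 2 + 1 with hB₁
  have hB₁1 : 1 ≤ B₁ := le_add_of_nonneg_left (by positivity)
  have hKB : 1 ≤ K₂ * B₁ := one_le_mul_of_one_le_of_one_le hK₂ hB₁1
  have hK'1 : (1 : ℝ) ≤ K' + 1 := le_add_of_nonneg_left (by positivity)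
  refine ⟨K₃ * (K₂ * B₁ * (K' + 1)), one_le_mul_of_one_le_of_one_le hK₃
    (one_le_mul_of_one_le_of_one_le hKB hK'1),
    fun d al ga rho hρ F γ τ A h hτ hA C hC z hz hCz L hL => ?_⟩
  rcases L.eq_empty_or_nonempty with rfl | ⟨l₀, hl₀⟩
  · rw [card_empty, Nat.cast_zero]; positivity
  have hk : (1 : ℝ) ≤ #C := by
    have k1 := (hL.1 l₀ hl₀).2.2.1
    have k2 := card_le_card (hC _ k1)
    rw [(h _ k1).1] at k2
    exact_mod_cast le_trans one_le_two k2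
  have hk0 : (0 : ℝ) < #C := by linarith
  have hf := h.fam hρ
  obtain ⟨I, y, hN, -, hV⟩ := exists_nice_three d al
  have hk5 : 1 ≤ (#C : ℝ) ^ (1 / 5 : ℝ) := Real.one_le_rpow hk (by norm_num)
  have h1 := h₃ _ F γ τ A hf.rat hτ hA 2 I y hN (K₂ * B₁ * ((K' + 1) * (#C : ℝ) ^ (1 / 5 : ℝ)))
    (one_le_mul_of_one_le_of_one_le hKB (one_le_mul_of_one_le_of_one_le hK'1 hk5))
    (by
      intro I' y' hN' G hG hGV L' hL'
      refine (h₂ _ F γ τ A hf.rat hτ hA _ I' y' hN' B₁ hB₁1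
        (fun I'' y'' hN'' => lens_one hf τ hA hN'' (by norm_num)) G hG hGV L' hL').trans ?_
      rw [mul_assoc (K₂ * B₁)]
      apply mul_le_mul_of_nonneg_left _ (by linarith)
      rw [show (31 / 20 : ℝ) = 1 / 5 + 27 / 20 by norm_num,
        Real.rpow_add' (by positivity) (by norm_num)]
      apply mul_le_mul_of_nonneg_right _ (by positivity)
      have k1 : (#G : ℝ) ≤ K' * #C := by
        exact_mod_cast hK' d al ga rho hρ F γ h I' y' hN' G hG hGV C fun Z hZ => hC Z (hG hZ)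
      calc (#G : ℝ) ^ (1 / 5 : ℝ) ≤ ((K' + 1) * #C) ^ (1 / 5 : ℝ) :=
            Real.rpow_le_rpow (by positivity) (by linarith) (by norm_num)
        _ = (K' + 1) ^ (1 / 5 : ℝ) * (#C : ℝ) ^ (1 / 5 : ℝ) :=
            Real.mul_rpow (by positivity) (by positivity)
        _ ≤ _ := mul_le_mul_of_nonneg_right
            (Real.rpow_le_self_of_one_le hK'1 (by norm_num)) (by positivity))
    F Subset.rfl (fun Z hZ t => hV _ ((h Z hZ).2.2.2.2 t).1) L hL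
  have h4 : (#F : ℝ) ≤ (#C : ℝ) ^ (2 : ℝ) := by
    have k1 : F ⊆ powersetCard 2 C := fun Z hZ => mem_powersetCard.2 ⟨hC Z hZ, (h Z hZ).1⟩
    have k2 := card_le_card k1
    rw [card_powersetCard] at k2
    rw [Real.rpow_two]
    exact_mod_cast k2.trans (Nat.choose_le_pow _ _)
  have h5 : (#C : ℝ) ^ (1 / 5 : ℝ) * (#F : ℝ) ^ (27 / 20 : ℝ) ≤ #C * z ^ 19 := by
    calc _ ≤ (#C : ℝ) ^ (1 / 5 : ℝ) * ((#C : ℝ) ^ (2 : ℝ)) ^ (27 / 20 : ℝ) :=
          mul_le_mul_of_nonneg_left (Real.rpow_le_rpow (by positivity) h4 (by norm_num))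
            (by positivity)
      _ = #C * (#C : ℝ) ^ (19 / 10 : ℝ) := by
          rw [← Real.rpow_mul hk0.le, ← Real.rpow_add hk0, ← Real.rpow_one_add' hk0.le (by norm_num)]
          norm_num
      _ ≤ #C * (z ^ 10) ^ (19 / 10 : ℝ) :=
          mul_le_mul_of_nonneg_left (Real.rpow_le_rpow hk0.le hCz (by norm_num)) hk0.le
      _ = _ := by
          rw [← Real.rpow_natCast z 10, ← Real.rpow_mul (by linarith), ← Real.rpow_natCast z 19]
          norm_num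
  refine h1.trans ?_
  calc _ = K₃ * (K₂ * B₁ * (K' + 1)) * ((#C : ℝ) ^ (1 / 5 : ℝ) * (#F : ℝ) ^ (27 / 20 : ℝ)) := by
        ring
    _ ≤ _ := mul_le_mul_of_nonneg_left h5 (by positivity)

end Pool.Agent.P.MP_f7c707_co
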