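import Pool.Agent.P.MP_f7c707_co.QInc
import Pool.Agent.P.MP_f7c707_co.QDec

/-!
A power saving for edges in the link of a vertex.
-/

namespace Pool.Agent.P.MP_f7c707_co

open Finset MvPolynomial Pool.Agent.Lib.PolyPart

lemma qlink_r {k m v : ℝ} (hk : 0 < k) (hm : 0 ≤ m) (hv : 0 < v) :
    ∃ r : ℝ, 0 < r ∧ k ^ 2 / v ^ 6 * r + m ^ 2 / r ^ 3 ≤ m * v ^ 4 + k ^ 3 / v ^ 13 := by
  by_cases h : m * v ^ 17 ≤ k ^ 3
  · refine ⟨k / v ^ 7, by positivity, ?_⟩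
    rw [add_comm]
    apply add_le_add
    · calc m ^ 2 / (k / v ^ 7) ^ 3 = m * v ^ 4 * (m * v ^ 17 / k ^ 3) := by field_simp
        _ ≤ _ := mul_le_of_le_one_right (by positivity) ((div_le_one (by positivity)).2 h)
    · exact le_of_eq (by field_simp)
  · push Not at h
    have hm0 : 0 < m := by
      rcases hm.eq_or_lt with rfl | h1
      · rw [zero_mul] at h
        exact absurd h (not_lt.2 (by positivity))
      · exact h1
    refine ⟨m * v ^ 10 / k ^ 2, by positivity, add_le_add (le_of_eq (by field_simp)) ?_⟩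
    calc m ^ 2 / (m * v ^ 10 / k ^ 2) ^ 3 = k ^ 3 / v ^ 13 * (k ^ 3 / (m * v ^ 17)) := by
          field_simp
      _ ≤ _ := mul_le_of_le_one_right (by positivity) ((div_le_one (by positivity)).2 h.le)

lemma qlink_sum {ι : Type} [Fintype ι] {C : Finset V} {Cc : ι → Finset V} (h1 : ∀ τ, Cc τ ⊆ C)
    (h2 : ∀ τ τ', τ ≠ τ' → Disjoint (Cc τ) (Cc τ')) : ∑ τ, (#(Cc τ) : ℝ) ≤ #C := by
  have := card_le_card (biUnion_subset.2 fun τ (_ : τ ∈ univ) => h1 τ)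
  rw [card_biUnion fun τ _ τ' _ h => h2 τ τ' h] at this
  exact_mod_cast this

lemma ed_nonneg (C P : Finset V) (r : ℝ) : 0 ≤ ed C P r :=
  sum_nonneg fun _ _ => Nat.cast_nonneg _

theorem ev_PLoc : Ev PLoc := by
  classical
  refine (ev_PInc.and ev_PDec).pow 12 2
    fun n Λ Λ' _ hΛ hΛ' ⟨hinc, hdec⟩ C P d al ga rho hCn hPn hρ hP hC v z hv hz hCz => ?_
  push_cast at hΛ'
  have hΛ2 : 1 ≤ Λ ^ 2 := one_le_pow₀ hΛ
  rcases C.eq_empty_or_nonempty with rfl | hne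
  · have : ed ∅ P rho = 0 := by simp [ed, nb]
    rw [this]
    exact mul_nonneg (by linarith) (by positivity)
  have hk : (0 : ℝ) < #C := by exact_mod_cast hne.card_pos
  obtain ⟨ι, _, Cc, Pc, c1, c2, c3, c4, c5, c6⟩ := hdec C P d al ga rho hCn hρ hP hC (v ^ 2)
    (one_le_pow₀ hv)
  obtain ⟨r, hr, hX⟩ := qlink_r hk (Nat.cast_nonneg #P) (show 0 < v by linarith)
  set F := univ.biUnion fun τ => powersetCard 2 (Cc τ) with hF
  have hFc : (#F : ℝ) ≤ (#C : ℝ) ^ 2 / v ^ 6 := by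
    have e1 : #F ≤ ∑ τ, #(Cc τ) ^ 2 := card_biUnion_le.trans (sum_le_sum fun τ _ => by
      rw [card_powersetCard]; exact Nat.choose_le_pow _ _)
    have e2 : (#F : ℝ) ≤ ∑ τ, (#(Cc τ) : ℝ) ^ 2 := by exact_mod_cast e1
    refine e2.trans ?_
    calc _ ≤ ∑ τ, (#C : ℝ) / v ^ 6 * #(Cc τ) := by
          apply sum_le_sum
          intro τ _
          rw [sq]
          apply mul_le_mul_of_nonneg_right _ (by positivity)
          rw [le_div_iff₀ (by positivity)]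
          exact le_trans (le_of_eq (by ring)) (c3 τ)
      _ ≤ (#C : ℝ) / v ^ 6 * #C := by
          rw [← mul_sum]
          exact mul_le_mul_of_nonneg_left (qlink_sum c1 c2) (by positivity)
      _ = _ := by ring
  have h1 := hinc P C d al ga rho hPn hρ hP hC F (fun Z hZ => by
    obtain ⟨τ, -, h⟩ := mem_biUnion.1 hZ
    rw [mem_powersetCard] at h
    exact ⟨h.1.trans (c1 τ), h.2⟩) _ r z hFc hr hz hCz
  have h2 : ∀ p, ∑ τ, (#(nb (Cc τ) p rho)).choose 2 ≤ #{Z ∈ F | Z ⊆ nb C p rho} := by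
    intro p
    simp only [← card_powersetCard]
    rw [← card_biUnion]
    · apply card_le_card
      intro Z hZ
      obtain ⟨τ, -, h⟩ := mem_biUnion.1 hZ
      rw [mem_powersetCard] at h
      exact mem_filter.2 ⟨mem_biUnion.2 ⟨τ, mem_univ _, mem_powersetCard.2
        ⟨h.1.trans (filter_subset _ _), h.2⟩⟩,
        fun c hc => mem_nb.2 ⟨c1 τ (mem_nb.1 (h.1 hc)).1, (mem_nb.1 (h.1 hc)).2⟩⟩
    · intro τ _ τ' _ hne
      rw [Function.onFun, disjoint_left]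
      intro Z k1 k2
      rw [mem_powersetCard] at k1 k2
      obtain ⟨c, hc⟩ := card_pos.1 (show 0 < #Z by omega)
      exact disjoint_left.1 (c2 τ τ' hne) (mem_nb.1 (k1.1 hc)).1 (mem_nb.1 (k2.1 hc)).1
  have h3 : ∀ τ, 2 * Λ * ed (Cc τ) (Pc τ) rho ≤
      ∑ p ∈ P, (((#(nb (Cc τ) p rho)).choose 2 : ℕ) : ℝ) + 8 * Λ ^ 2 * #(Pc τ) := by
    intro τ
    refine le_trans ?_ (add_le_add (sum_le_sum_of_subset_of_nonneg (c4 τ)
      fun _ _ _ => Nat.cast_nonneg _) le_rfl)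
    rw [ed, mul_sum, mul_comm _ (#(Pc τ) : ℝ), ← nsmul_eq_mul, ← sum_const, ← sum_add_distrib]
    apply sum_le_sum
    intro p _
    rw [Nat.cast_choose_two]
    nlinarith [sq_nonneg ((#(nb (Cc τ) p rho) : ℝ) - 2 * Λ - 1 / 2)]
  have h4 := sum_le_sum fun τ (_ : τ ∈ univ) => h3 τ
  rw [← mul_sum, sum_add_distrib, ← mul_sum, sum_comm] at h4
  have h5 : ∑ p ∈ P, ∑ τ, (((#(nb (Cc τ) p rho)).choose 2 : ℕ) : ℝ) ≤
      ∑ p ∈ P, (#{Z ∈ F | Z ⊆ nb C p rho} : ℝ) := sum_le_sum fun p _ => by exact_mod_cast h2 p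
  set S := ∑ τ, ed (Cc τ) (Pc τ) rho with hS
  set a : ℝ := #P * v ^ 4 with ha
  set b : ℝ := (#C : ℝ) ^ 3 / v ^ 13 with hb
  set c : ℝ := #C * z ^ 19 with hc
  have a0 : 0 ≤ a := by positivity
  have b0 : 0 ≤ b := by positivity
  have c0 : (#C : ℝ) ≤ c := le_mul_of_one_le_right hk.le (one_le_pow₀ hz)
  have e0 : (v ^ 2) ^ 2 * (#P : ℝ) = a := by rw [ha]; ring
  rw [e0] at c5 c6
  have h6 : 2 * S ≤ a + b + ed C P rho + c + 8 * (Λ ^ 2 * a) := by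
    apply le_of_mul_le_mul_left _ (show 0 < Λ by linarith)
    have k1 := mul_le_mul_of_nonneg_left c5 (show 0 ≤ 8 * Λ ^ 2 by positivity)
    have k2 := mul_le_mul_of_nonneg_left hX (show 0 ≤ Λ by linarith)
    linarith
  have hΛΛ : Λ ≤ Λ ^ 2 := le_self_pow₀ hΛ two_ne_zero
  have k1 : Λ * #C ≤ Λ ^ 2 * c := mul_le_mul hΛΛ c0 hk.le (by positivity)
  have k2 : Λ * a ≤ Λ ^ 2 * a := mul_le_mul_of_nonneg_right hΛΛ a0
  have k3 : a ≤ Λ ^ 2 * a := le_mul_of_one_le_left a0 hΛ2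
  have k4 : b ≤ Λ ^ 2 * b := le_mul_of_one_le_left b0 hΛ2
  have k5 : c ≤ Λ ^ 2 * c := le_mul_of_one_le_left (by linarith) hΛ2
  have k6 := mul_le_mul_of_nonneg_right hΛ' (show 0 ≤ a + b + c by linarith)
  linarith

theorem ev_P3p : Ev P3p := by
  refine (ev_PLoc.and ev_PDec).pow 5 2
    fun n Λ Λ' _ hΛ hΛ' ⟨hloc, hdec⟩ C P d ga al rho hCn hPn hρ hC hP η hη hCη hPη => ?_
  push_cast at hΛ'
  rw [add_comm] at hρ
  obtain ⟨ι, _, Cc, Pc, c1, c2, c3, c4, c5, c6⟩ := hdec C P d al ga rho hCn hρ hP hC (η ^ 1183)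
    (one_le_pow₀ hη)
  have hη0 : 0 < η := by linarith
  have hsz : ∀ τ, (#(Cc τ) : ℝ) ≤ η ^ 1251 := by
    intro τ
    apply le_of_mul_le_mul_right _ (show 0 < (η ^ 1183) ^ 3 by positivity)
    exact ((c3 τ).trans hCη).trans (le_of_eq (by ring))
  have h1 : ∀ τ, ed (Cc τ) (Pc τ) rho ≤ Λ * (η ^ 32 * #(Pc τ) + 2 * η ^ 2398 * #(Cc τ)) := by
    intro τ
    refine (hloc (Cc τ) (Pc τ) d al ga rho
      (le_trans (by exact_mod_cast card_le_card (c1 τ)) hCn)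
      (le_trans (by exact_mod_cast card_le_card (c4 τ)) hPn) hρ (fun p hp => hP p (c4 τ hp))
      (fun c hc => hC c (c1 τ hc)) (η ^ 8) (η ^ 126) (one_le_pow₀ hη) (one_le_pow₀ hη)
      ((hsz τ).trans (by rw [← pow_mul]; exact pow_le_pow_right₀ hη (by norm_num)))).trans ?_
    apply mul_le_mul_of_nonneg_left _ (by linarith)
    have e1 : (#(Cc τ) : ℝ) ^ 3 / (η ^ 8) ^ 13 ≤ η ^ 2398 * #(Cc τ) := by
      rw [div_le_iff₀ (by positivity)]
      calc (#(Cc τ) : ℝ) ^ 3 = (#(Cc τ) : ℝ) ^ 2 * #(Cc τ) := by ring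
        _ ≤ (η ^ 1251) ^ 2 * #(Cc τ) := mul_le_mul_of_nonneg_right
            (pow_le_pow_left₀ (by positivity) (hsz τ) 2) (by positivity)
        _ = _ := by ring
    have e2 : (#(Cc τ) : ℝ) * (η ^ 126) ^ 19 ≤ η ^ 2398 * #(Cc τ) := by
      rw [mul_comm, ← pow_mul]
      exact mul_le_mul_of_nonneg_right (pow_le_pow_right₀ hη (by norm_num)) (by positivity)
    have e3 : (#(Pc τ) : ℝ) * (η ^ 8) ^ 4 = η ^ 32 * #(Pc τ) := by ring
    linarith
  have h2 := sum_le_sum fun τ (_ : τ ∈ univ) => h1 τ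
  rw [← mul_sum, sum_add_distrib, ← mul_sum, ← mul_sum] at h2
  have h3 : (η ^ 1183) ^ 2 * (#P : ℝ) ≤ η ^ 7166 :=
    (mul_le_mul_of_nonneg_left hPη (by positivity)).trans (le_of_eq (by ring))
  have h4 : η ^ 32 * ∑ τ, (#(Pc τ) : ℝ) ≤ Λ * η ^ 7198 :=
    (mul_le_mul_of_nonneg_left (c5.trans (mul_le_mul_of_nonneg_left h3 (by linarith)))
      (by positivity)).trans (le_of_eq (by ring))
  have h5 : 2 * η ^ 2398 * ∑ τ, (#(Cc τ) : ℝ) ≤ 2 * η ^ 7198 :=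
    (mul_le_mul_of_nonneg_left ((qlink_sum c1 c2).trans hCη) (by positivity)).trans
      (le_of_eq (by ring))
  have h6 : η ^ 7166 ≤ η ^ 7198 := pow_le_pow_right₀ hη (by norm_num)
  have h7 : η ^ 4800 ≤ η ^ 7198 := pow_le_pow_right₀ hη (by norm_num)
  have hy : 0 ≤ η ^ 7198 := by positivity
  generalize η ^ 7198 = y at *
  have h8 : Λ * (#C + (η ^ 1183) ^ 2 * #P) ≤ Λ * (2 * y) :=
    mul_le_mul_of_nonneg_left (by linarith) (by linarith)
  have h9 := h2.trans (mul_le_mul_of_nonneg_left (add_le_add h4 h5) (by linarith))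
  have k1 : Λ * y ≤ Λ ^ 2 * y := mul_le_mul_of_nonneg_right (le_self_pow₀ hΛ two_ne_zero) hy
  have k2 := mul_le_mul_of_nonneg_right hΛ' hy
  refine (c6.trans (add_le_add h8 h9)).trans ?_
  linarith

end Pool.Agent.P.MP_f7c707_co
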