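import Pool.Agent.P.MP_f7c707_co.QLink

/-!
A power saving for triangles in the link of a vertex.
-/

namespace Pool.Agent.P.MP_f7c707_co

open Finset MvPolynomial Pool.Agent.Lib.PolyPart

theorem ev_P5p : Ev P5p := by
  classical
  refine (((ev_P2.and ev_P3).and ev_P3p).and ev_log).pow (12 ^ 4) 6
    fun n Λ Λ' hn hΛ hΛ' ⟨⟨⟨h2, h3⟩, h3p⟩, hlog⟩ A B C d ab ac ad bc bd cd hA hB hC r1 r2 had t1 t2
      hAd hBd hCd θ hθ hAθ hBθ hCθ => ?_
  have key := halving (fun A' => ∑ a ∈ A', ∑ c ∈ nb C a ac, (#(nb (nb B a ab) c bc) : ℝ)) A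
    (12 ^ 4 * Λ ^ 5 * θ ^ 7999) (by positivity) (by simp) ?_ hn hA hlog
  · refine key.trans ?_
    rw [← mul_assoc]
    apply mul_le_mul_of_nonneg_right _ (by positivity)
    refine le_trans (le_of_eq ?_) hΛ'
    push_cast; ring
  intro A' hA' hne
  have hM1 : (1 : ℝ) ≤ #A' := by exact_mod_cast hne.card_pos
  have hM : (#A' : ℝ) ≤ θ ^ 4800 := le_trans (by exact_mod_cast card_le_card hA') hAθ
  obtain ⟨ζ, hζ, hζM⟩ := exists_root 8 (by norm_num) (x := θ ^ 7999 / #A') (by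
    rw [le_div_iff₀ (by linarith), one_mul]
    exact hM.trans (pow_le_pow_right₀ hθ (by norm_num)))
  have hζM' : ζ ^ 8 * #A' = θ ^ 7999 := by rw [hζM]; field_simp
  have hlink : ∀ (Z : Finset V) (zd az : ℝ), #Z ≤ n → #Z ≤ θ ^ 4800 → az ≠ zd + ad →
      (∀ z ∈ Z, d2 z d = zd) → ∑ a ∈ A', (#(nb Z a az) : ℝ) ≤ #A' * (3 * Λ * ζ ^ 6) := by
    intro Z zd az hZ hZθ hr hZd
    by_cases hcase : (#A' : ℝ) ^ 2 * θ ^ 14400 ≤ θ ^ 23997
    swap
    · refine (h3p Z A' d zd ad az hZ (le_trans (by exact_mod_cast card_le_card hA') hA) hr hZd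
        (fun a ha => hAd a (hA' ha)) θ hθ hZθ hM).trans ?_
      have e1 : θ ^ 7198 ≤ #A' * ζ ^ 6 := by
        apply le_of_pow_le_pow_left₀ (show 8 ≠ 0 by norm_num) (by positivity)
        calc (θ ^ 7198) ^ 8 ≤ θ ^ 57591 := by
              rw [← pow_mul]; exact pow_le_pow_right₀ hθ (by norm_num)
          _ = θ ^ 23997 * θ ^ 33594 := by ring
          _ ≤ (#A' : ℝ) ^ 2 * θ ^ 14400 * θ ^ 33594 :=
              mul_le_mul_of_nonneg_right (not_le.1 hcase).le (by positivity)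
          _ = (#A' : ℝ) ^ 2 * (θ ^ 7999) ^ 6 := by ring
          _ = _ := by rw [← hζM']; ring
      calc _ ≤ Λ * (3 * (#A' * ζ ^ 6)) := by
            apply mul_le_mul_of_nonneg_left _ (by linarith)
            have : 0 ≤ (#A' : ℝ) * ζ ^ 6 := by positivity
            linarith
        _ = _ := by ring
    refine (h3 Z A' d zd ad az hZ hr hZd (fun a ha => hAd a (hA' ha)) (ζ ^ 3)
      (one_le_pow₀ hζ)).trans ?_
    have e0 : (#A' * ζ ^ 6) ^ 4 = #A' * θ ^ 23997 := by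
      calc (#A' * ζ ^ 6) ^ 4 = #A' * (ζ ^ 8 * #A') ^ 3 := by ring
        _ = _ := by rw [hζM']; ring
    have e1 : (#Z : ℝ) ^ 3 / (ζ ^ 3) ^ 6 ≤ #A' * ζ ^ 6 := by
      rw [div_le_iff₀ (by positivity)]
      refine (pow_le_pow_left₀ (by positivity) hZθ 3).trans ?_
      apply le_of_mul_le_mul_right _ (show (0 : ℝ) < (#A' : ℝ) ^ 2 by positivity)
      calc (θ ^ 4800) ^ 3 * (#A' : ℝ) ^ 2 = (#A' : ℝ) ^ 2 * θ ^ 14400 := by ring
        _ ≤ θ ^ 23997 := hcase
        _ = (ζ ^ 8 * #A') ^ 3 := by rw [hζM']; ring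
        _ = _ := by ring
    have e2 : (#Z : ℝ) ≤ #A' * ζ ^ 6 := by
      refine hZθ.trans (le_of_pow_le_pow_left₀ (show 4 ≠ 0 by norm_num) (by positivity) ?_)
      rw [e0, ← pow_mul]
      exact (pow_le_pow_right₀ hθ (by norm_num)).trans
        (le_mul_of_one_le_left (by positivity) hM1)
    calc _ ≤ Λ * (3 * (#A' * ζ ^ 6)) := by
          apply mul_le_mul_of_nonneg_left _ (by linarith)
          rw [← pow_mul]
          linarith
      _ = _ := by ring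
  let g : V → ℝ := fun a => #(nb B a ab) + #(nb C a ac)
  have hg := markov A' g (6 * Λ * ζ ^ 6) (by positivity) (fun a => by positivity) (by
    simp only [g]
    rw [sum_add_distrib]
    linarith [hlink B bd ab hB hBθ r1 hBd, hlink C cd ac hC hCθ r2 hCd])
  refine ⟨_, filter_subset _ _, hg, ?_⟩
  rw [← sum_filter_add_sum_filter_not A' (fun a => 2 * (6 * Λ * ζ ^ 6) < g a), add_comm]
  refine add_le_add ?_ le_rfl
  have hu : 1 ≤ 12 * Λ * ζ ^ 2 :=
    one_le_mul_of_one_le_of_one_le (by linarith) (one_le_pow₀ hζ)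
  have hu3 : 2 * (6 * Λ * ζ ^ 6) ≤ (12 * Λ * ζ ^ 2) ^ 3 := by
    have : 12 * Λ ≤ (12 * Λ) ^ 3 := le_self_pow₀ (by linarith) (by norm_num)
    calc _ = 12 * Λ * ζ ^ 6 := by ring
      _ ≤ (12 * Λ) ^ 3 * ζ ^ 6 := mul_le_mul_of_nonneg_right this (by positivity)
      _ = _ := by ring
  have hb := sum_le_card_nsmul {a ∈ A' | ¬ 2 * (6 * Λ * ζ ^ 6) < g a}
    (fun a => ∑ c ∈ nb C a ac, (#(nb (nb B a ab) c bc) : ℝ)) (Λ * (12 * Λ * ζ ^ 2) ^ 4) (by
      intro a ha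
      obtain ⟨ha1, ha2⟩ := mem_filter.1 ha
      have had' := hAd a (hA' ha1)
      have k := (not_lt.1 ha2).trans hu3
      have k1 : (0 : ℝ) ≤ #(nb B a ab) := by positivity
      have k2 : (0 : ℝ) ≤ #(nb C a ac) := by positivity
      simp only [g] at k
      refine h2 (nb B a ab) (nb C a ac) a d ab bd ac cd bc
        (le_trans (by exact_mod_cast card_filter_le _ _) hB)
        (by rintro rfl; exact had (by rw [← had', d2_self])) (fun b hb => ?_) (fun c hc => ?_) _ hu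
        (by linarith) (by linarith)
      · rw [mem_nb] at hb
        exact ⟨hb.2, hBd b hb.1, t1 a b d hb.2 (hBd b hb.1) had'⟩
      · rw [mem_nb] at hc
        exact ⟨hc.2, hCd c hc.1, t2 a c d hc.2 (hCd c hc.1) had'⟩)
  refine hb.trans ?_
  rw [nsmul_eq_mul]
  calc _ ≤ #A' * (Λ * (12 * Λ * ζ ^ 2) ^ 4) :=
        mul_le_mul_of_nonneg_right (by exact_mod_cast card_filter_le _ _) (by positivity)
    _ = 12 ^ 4 * Λ ^ 5 * (ζ ^ 8 * #A') := by ring
    _ = _ := by rw [hζM']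

end Pool.Agent.P.MP_f7c707_co
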