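import Pool.Agent.P.MP_f7c707_co.QLink5

/-!
Tetrahedra in a graph with few triangles.
-/

namespace Pool.Agent.P.MP_f7c707_co

open Finset MvPolynomial Pool.Agent.Lib.PolyPart

theorem ev_PT : Ev PT := by
  classical
  refine (((ev_P5p.and (ev_ge 6)).and ev_P4').and ev_log).pow 97 16000
    fun n Λ Λ' hn hΛ hΛ' ⟨⟨⟨h5, h6⟩, h4⟩, hlog⟩ P E ab ac ad bc bd cd ν Ψ hE hP z1 z2 z3 z4 z5 z6
      r1 r2 t1 t2 hν hΨ hνn hT => ?_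
  have key := halving (fun D => (#{t ∈ ftet P E ab ac ad bc bd cd | t.2.2.2 ∈ D} : ℝ)) P
    (97 * Λ ^ 15999 * (Ψ * ν ^ 15999)) (by positivity) (by simp) ?_ hn hP hlog
  · rw [filter_true_of_mem fun t ht => (mem_tet.1 (mem_ftet.1 ht).1).1.2.2.2] at key
    refine key.trans ?_
    rw [← mul_assoc, mul_assoc Λ']
    apply mul_le_mul_of_nonneg_right _ (by positivity)
    refine le_trans (le_of_eq ?_) hΛ'
    push_cast; ring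
  intro D hD hne
  have hDn : (#D : ℝ) ≤ n := le_trans (by exact_mod_cast card_le_card hD) hP
  obtain ⟨ξ, hξ, hξn⟩ := exists_xi hn hDn hne
  obtain ⟨Q₁, Q₁', c₁⟩ := h4 P D ad hP hDn hne ξ hξ hξn
  obtain ⟨Q₂, Q₂', c₂⟩ := h4 P D bd hP hDn hne ξ hξ hξn
  obtain ⟨Q₃, Q₃', c₃⟩ := h4 P D cd hP hDn hne ξ hξ hξn
  set E₁ : V → V → Prop :=
    fun x d => d2 x d = ad ∧ (∀ i, ¬ InPl (Q₁ x i) d) ∧ ∀ i, ¬ InPl (Q₁' d i) x with hE₁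
  set E₂ : V → V → Prop :=
    fun x d => d2 x d = bd ∧ (∀ i, ¬ InPl (Q₂ x i) d) ∧ ∀ i, ¬ InPl (Q₂' d i) x with hE₂
  set E₃ : V → V → Prop :=
    fun x d => d2 x d = cd ∧ (∀ i, ¬ InPl (Q₃ x i) d) ∧ ∀ i, ¬ InPl (Q₃' d i) x with hE₃
  let g : V → ℝ := fun d => #(nbr P E₁ d) + #(nbr P E₂ d) + #(nbr P E₃ d)
  have hg := markov D g (3 * Λ * ξ ^ 3) (by positivity) (fun a => by positivity) (by
    simp only [g, cnt] at c₁ c₂ c₃ ⊢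
    rw [sum_add_distrib, sum_add_distrib]
    linarith)
  refine ⟨_, filter_subset _ _, hg, ?_⟩
  set D' := {d ∈ D | 2 * (3 * Λ * ξ ^ 3) < g d} with hD'
  set S := {t ∈ ftet P E ab ac ad bc bd cd | t.2.2.2 ∈ D} with hS
  have hSm : ∀ t ∈ S, (t.1 ∈ P ∧ t.2.1 ∈ P ∧ t.2.2.1 ∈ P ∧ t.2.2.2 ∈ P) ∧
      d2 t.1 t.2.1 = ab ∧ d2 t.1 t.2.2.1 = ac ∧ d2 t.1 t.2.2.2 = ad ∧
      d2 t.2.1 t.2.2.1 = bc ∧ d2 t.2.1 t.2.2.2 = bd ∧ d2 t.2.2.1 t.2.2.2 = cd :=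
    fun t ht => mem_tet.1 (mem_ftet.1 (mem_filter.1 ht).1).1
  have hSe : ∀ t ∈ S, E t.1 t.2.1 ∧ E t.1 t.2.2.1 ∧ E t.1 t.2.2.2 ∧ E t.2.1 t.2.2.1 ∧
      E t.2.1 t.2.2.2 ∧ E t.2.2.1 t.2.2.2 := fun t ht => (mem_ftet.1 (mem_filter.1 ht).1).2
  have simple : ∀ (x y z w : V × V × V × V → V) (p q r p' q' r' : ℝ) (Q : V → Fin 4 → Pl),
      p ≠ 0 → (∀ a ∈ [p, q, r, p', q'], a ∈ [ab, ac, ad, bc, bd, cd]) →
      (∀ s t, x s = x t → y s = y t → z s = z t → w s = w t → s = t) →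
      (∀ s ∈ S, (x s ∈ P ∧ y s ∈ P ∧ z s ∈ P ∧ w s ∈ P) ∧ (d2 (x s) (y s) = p ∧
        d2 (x s) (z s) = q ∧ d2 (y s) (z s) = r ∧ d2 (x s) (w s) = p' ∧ d2 (y s) (w s) = q' ∧
        d2 (z s) (w s) = r') ∧ E (x s) (y s) ∧ E (x s) (z s) ∧ E (y s) (z s) ∧ E (x s) (w s) ∧
          E (y s) (w s)) →
      (#{s ∈ S | ∃ i, InPl (Q (x s) i) (w s)} : ℝ) ≤ 4 * (4 * (Ψ * ν ^ 15999)) := by
    intro x y z w p q r p' q' r' Q hp hl h1 h2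
    convert card_exists_le S (fun i s => InPl (Q (x s) i) (w s)) _ fun i => ?_
    have a1 := simple_four {s ∈ S | InPl (Q (x s) i) (w s)} x y z w p q r p' q' r' hp
      (fun v => Q v i) (ftri P E p q r) (ftri P E p p' q') (fun s _ t _ => h1 s t)
      (fun s hs => by
        obtain ⟨⟨k1, k2, k3, k4⟩, ⟨m1, m2, m3, m4, m5, m6⟩, e1, e2, e3, e4, e5⟩ :=
          h2 s (mem_filter.1 hs).1
        exact ⟨mem_ftri.2 ⟨mem_tri.2 ⟨⟨k1, k2, k3⟩, m1, m2, m3⟩, e1, e2, e3⟩,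
          mem_ftri.2 ⟨mem_tri.2 ⟨⟨k1, k2, k4⟩, m1, m4, m5⟩, e1, e4, e5⟩,
          m1, m2, m3, m4, m5, m6, (mem_filter.1 hs).2⟩)
    have a2 : (#{s ∈ S | InPl (Q (x s) i) (w s)} : ℝ) ≤
        2 * #(ftri P E p q r) + 2 * #(ftri P E p p' q') := by exact_mod_cast a1
    linarith [hT p (hl p (by simp)) q (hl q (by simp)) r (hl r (by simp)),
      hT p (hl p (by simp)) p' (hl p' (by simp)) q' (hl q' (by simp))]
  have s1 := simple (·.1) (·.2.1) (·.2.2.1) (·.2.2.2) ab ac bc ad bd cd Q₁ z1 (by simp)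
    (fun s t h1 h2 h3 h4 => Prod.ext h1 (Prod.ext h2 (Prod.ext h3 h4)))
    (fun s hs => by
      obtain ⟨⟨k1, k2, k3, k4⟩, m1, m2, m3, m4, m5, m6⟩ := hSm s hs
      obtain ⟨e1, e2, e3, e4, e5, e6⟩ := hSe s hs
      exact ⟨⟨k1, k2, k3, k4⟩, ⟨m1, m2, m4, m3, m5, m6⟩, e1, e2, e4, e3, e5⟩)
  have s2 := simple (·.2.2.2) (·.2.1) (·.2.2.1) (·.1) bd cd bc ad ab ac Q₁' z5 (by simp)
    (fun s t h1 h2 h3 h4 => Prod.ext h4 (Prod.ext h2 (Prod.ext h3 h1)))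
    (fun s hs => by
      obtain ⟨⟨k1, k2, k3, k4⟩, m1, m2, m3, m4, m5, m6⟩ := hSm s hs
      obtain ⟨e1, e2, e3, e4, e5, e6⟩ := hSe s hs
      exact ⟨⟨k4, k2, k3, k1⟩, ⟨d2_comm _ _ ▸ m5, d2_comm _ _ ▸ m6, m4, d2_comm _ _ ▸ m3,
        d2_comm _ _ ▸ m1, d2_comm _ _ ▸ m2⟩, hE _ _ e5, hE _ _ e6, e4, hE _ _ e3, hE _ _ e1⟩)
  have s3 := simple (·.2.1) (·.1) (·.2.2.1) (·.2.2.2) ab bc ac bd ad cd Q₂ z1 (by simp)
    (fun s t h1 h2 h3 h4 => Prod.ext h2 (Prod.ext h1 (Prod.ext h3 h4)))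
    (fun s hs => by
      obtain ⟨⟨k1, k2, k3, k4⟩, m1, m2, m3, m4, m5, m6⟩ := hSm s hs
      obtain ⟨e1, e2, e3, e4, e5, e6⟩ := hSe s hs
      exact ⟨⟨k2, k1, k3, k4⟩, ⟨d2_comm _ _ ▸ m1, m4, m2, m5, m3, m6⟩,
        hE _ _ e1, e4, e2, e5, e3⟩)
  have s4 := simple (·.2.2.2) (·.1) (·.2.2.1) (·.2.1) ad cd ac bd ab bc Q₂' z3 (by simp)
    (fun s t h1 h2 h3 h4 => Prod.ext h2 (Prod.ext h4 (Prod.ext h3 h1)))
    (fun s hs => by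
      obtain ⟨⟨k1, k2, k3, k4⟩, m1, m2, m3, m4, m5, m6⟩ := hSm s hs
      obtain ⟨e1, e2, e3, e4, e5, e6⟩ := hSe s hs
      exact ⟨⟨k4, k1, k3, k2⟩, ⟨d2_comm _ _ ▸ m3, d2_comm _ _ ▸ m6, m2, d2_comm _ _ ▸ m5,
        m1, d2_comm _ _ ▸ m4⟩, hE _ _ e3, hE _ _ e6, e2, hE _ _ e5, e1⟩)
  have s5 := simple (·.2.2.1) (·.1) (·.2.1) (·.2.2.2) ac bc ab cd ad bd Q₃ z2 (by simp)
    (fun s t h1 h2 h3 h4 => Prod.ext h2 (Prod.ext h3 (Prod.ext h1 h4)))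
    (fun s hs => by
      obtain ⟨⟨k1, k2, k3, k4⟩, m1, m2, m3, m4, m5, m6⟩ := hSm s hs
      obtain ⟨e1, e2, e3, e4, e5, e6⟩ := hSe s hs
      exact ⟨⟨k3, k1, k2, k4⟩, ⟨d2_comm _ _ ▸ m2, d2_comm _ _ ▸ m4, m1, m6, m3, m5⟩,
        hE _ _ e2, hE _ _ e4, e1, e6, e3⟩)
  have s6 := simple (·.2.2.2) (·.1) (·.2.1) (·.2.2.1) ad bd ab cd ac bc Q₃' z3 (by simp)
    (fun s t h1 h2 h3 h4 => Prod.ext h2 (Prod.ext h3 (Prod.ext h4 h1)))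
    (fun s hs => by
      obtain ⟨⟨k1, k2, k3, k4⟩, m1, m2, m3, m4, m5, m6⟩ := hSm s hs
      obtain ⟨e1, e2, e3, e4, e5, e6⟩ := hSe s hs
      exact ⟨⟨k4, k1, k2, k3⟩, ⟨d2_comm _ _ ▸ m3, d2_comm _ _ ▸ m5, m1, d2_comm _ _ ▸ m6,
        m2, m4⟩, hE _ _ e3, hE _ _ e5, e1, hE _ _ e6, e2⟩)
  set H := {t ∈ S | t.2.2.2 ∉ D' ∧ E₁ t.1 t.2.2.2 ∧ E₂ t.2.1 t.2.2.2 ∧ E₃ t.2.2.1 t.2.2.2} with hH
  obtain ⟨χ, hχ, rfl⟩ := exists_root 1600 (by norm_num) hξ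
  set θ := Λ ^ 2 * χ with hθd
  have hθ : 1 ≤ θ := one_le_mul_of_one_le_of_one_le (one_le_pow₀ hΛ) hχ
  have hθ3 : 6 * Λ * (χ ^ 1600) ^ 3 ≤ θ ^ 4800 := by
    rw [hθd, mul_pow, ← pow_mul]
    apply mul_le_mul_of_nonneg_right _ (by positivity)
    refine le_trans ?_ (le_self_pow₀ (one_le_pow₀ hΛ) (by norm_num))
    rw [sq]
    exact mul_le_mul_of_nonneg_right h6 (by linarith)
  have hχν : χ ^ 7999 * #D ≤ ν ^ 15999 := by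
    have hD1 : (0 : ℝ) < #D := by exact_mod_cast hne.card_pos
    have e1 : ν ≤ χ := by
      apply le_of_pow_le_pow_left₀ (show 8000 ≠ 0 by norm_num) (by positivity)
      apply le_of_mul_le_mul_right _ hD1
      rw [hνn, show χ ^ 8000 = (χ ^ 1600) ^ 5 by ring, hξn, sq]
      exact mul_le_mul_of_nonneg_left hDn (by linarith)
    apply le_of_mul_le_mul_left _ (show 0 < ν by linarith)
    calc ν * (χ ^ 7999 * #D) ≤ χ * (χ ^ 7999 * #D) := mul_le_mul_of_nonneg_right e1 (by positivity)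
      _ = (χ ^ 1600) ^ 5 * #D := by ring
      _ = _ := by rw [hξn, ← hνn]; ring
  have s7 : (#H : ℝ) ≤ Λ ^ 15999 * ν ^ 15999 := by
    have a1 : #H ≤ #((D \ D').sigma fun d => (nbr P E₁ d).sigma fun a =>
        (nb (nbr P E₃ d) a ac).sigma fun c => nb (nb (nbr P E₂ d) a ab) c bc) := by
      apply card_le_card_of_injOn (fun t => ⟨t.2.2.2, t.1, t.2.2.1, t.2.1⟩)
      · intro t ht
        obtain ⟨k1, k2, k3, k4, k5⟩ := mem_filter.1 (mem_coe.1 ht)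
        obtain ⟨⟨m1, m2, m3, -⟩, m4, m5, -, m6, -⟩ := hSm t k1
        exact mem_coe.2 (mem_sigma.2 ⟨mem_sdiff.2 ⟨(mem_filter.1 k1).2, k2⟩,
          mem_sigma.2 ⟨mem_nbr.2 ⟨m1, k3⟩, mem_sigma.2
            ⟨mem_nb.2 ⟨mem_nbr.2 ⟨m3, k5⟩, d2_comm _ _ ▸ m5⟩,
              mem_nb.2 ⟨mem_nb.2 ⟨mem_nbr.2 ⟨m2, k4⟩, d2_comm _ _ ▸ m4⟩, m6⟩⟩⟩⟩)
      · intro s _ t _ hst
        simp only [Sigma.mk.injEq, heq_eq_eq] at hst
        exact Prod.ext hst.2.1 (Prod.ext hst.2.2.2 (Prod.ext hst.2.2.1 hst.1))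
    simp only [card_sigma] at a1
    have a2 : (#H : ℝ) ≤ ∑ d ∈ D \ D', ∑ a ∈ nbr P E₁ d, ∑ c ∈ nb (nbr P E₃ d) a ac,
        (#(nb (nb (nbr P E₂ d) a ab) c bc) : ℝ) := by
      exact_mod_cast a1
    have a3 := sum_le_card_nsmul (D \ D')
      (fun d => ∑ a ∈ nbr P E₁ d, ∑ c ∈ nb (nbr P E₃ d) a ac,
        (#(nb (nb (nbr P E₂ d) a ab) c bc) : ℝ)) (Λ * θ ^ 7999) (by
        intro d hd
        have k : g d ≤ θ ^ 4800 := by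
          have := (mem_sdiff.1 hd).2
          rw [hD', mem_filter, not_and, not_lt] at this
          linarith [this (mem_sdiff.1 hd).1]
        have k1 : (0 : ℝ) ≤ #(nbr P E₁ d) := by positivity
        have k2 : (0 : ℝ) ≤ #(nbr P E₂ d) := by positivity
        have k3 : (0 : ℝ) ≤ #(nbr P E₃ d) := by positivity
        simp only [g] at k
        exact h5 (nbr P E₁ d) (nbr P E₂ d) (nbr P E₃ d) d ab ac ad bc bd cd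
          ((card_nbr_le _ _ _).trans hP) ((card_nbr_le _ _ _).trans hP)
          ((card_nbr_le _ _ _).trans hP) r1 r2 z3 t1 t2
          (fun b hb => (mem_nbr.1 hb).2.1) (fun b hb => (mem_nbr.1 hb).2.1)
          (fun b hb => (mem_nbr.1 hb).2.1) θ hθ (by linarith) (by linarith) (by linarith))
    refine a2.trans (a3.trans ?_)
    rw [nsmul_eq_mul]
    calc _ ≤ #D * (Λ * θ ^ 7999) := mul_le_mul_of_nonneg_right
          (by exact_mod_cast card_le_card sdiff_subset) (by positivity)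
      _ = Λ ^ 15999 * (χ ^ 7999 * #D) := by rw [hθd]; ring
      _ ≤ _ := mul_le_mul_of_nonneg_left hχν (by positivity)
  have s8 := card_le_list [{s ∈ S | ∃ i, InPl (Q₁ s.1 i) s.2.2.2},
    {s ∈ S | ∃ i, InPl (Q₁' s.2.2.2 i) s.1}, {s ∈ S | ∃ i, InPl (Q₂ s.2.1 i) s.2.2.2},
    {s ∈ S | ∃ i, InPl (Q₂' s.2.2.2 i) s.2.1}, {s ∈ S | ∃ i, InPl (Q₃ s.2.2.1 i) s.2.2.2},
    {s ∈ S | ∃ i, InPl (Q₃' s.2.2.2 i) s.2.2.1}, H,
    {t ∈ ftet P E ab ac ad bc bd cd | t.2.2.2 ∈ D'}] S (by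
      intro s hs
      simp only [List.mem_cons, List.not_mem_nil, or_false, exists_eq_or_imp, exists_eq_left,
        mem_filter, hH, hE₁, hE₂, hE₃]
      by_contra hcon
      push Not at hcon
      obtain ⟨k1, k2, k3, k4, k5, k6, k7, k8⟩ := hcon
      obtain ⟨-, -, -, m4, -, m5, m6⟩ := hSm s hs
      obtain ⟨i, hi⟩ := k7 hs (k8 (mem_filter.1 hs).1) ⟨m4, k1 hs, k2 hs⟩ ⟨m5, k3 hs, k4 hs⟩
        m6 (k5 hs)
      exact k6 hs i hi)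
  simp only [List.map_cons, List.map_nil, List.sum_cons, List.sum_nil, add_zero] at s8
  have s9 : (#S : ℝ) ≤ _ := Nat.cast_le.2 s8
  push_cast at s9
  have hΛ6 : Ψ * ν ^ 15999 ≤ Λ ^ 15999 * (Ψ * ν ^ 15999) :=
    le_mul_of_one_le_left (by positivity) (one_le_pow₀ hΛ)
  have hΛ7 : Λ ^ 15999 * ν ^ 15999 ≤ Λ ^ 15999 * (Ψ * ν ^ 15999) :=
    mul_le_mul_of_nonneg_left (le_mul_of_one_le_left (by positivity) hΨ) (by positivity)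
  linarith

end Pool.Agent.P.MP_f7c707_co
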