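import Pool.Agent.P.MP_f7c707_co.QFree
import Pool.Agent.P.MP_f7c707_co.QTet

/-!
The quadratic bound.
-/

namespace Pool.Agent.P.MP_f7c707_co

open Finset Pool.Agent.Lib.PolyPart

theorem tet_le : ∃ C : ℝ, 1 ≤ C ∧ ∀ (P : Finset V) (ab ac ad bc bd cd : ℝ), ab ≠ 0 → ac ≠ 0 →
    ad ≠ 0 → bc ≠ 0 → bd ≠ 0 → cd ≠ 0 → ab ≠ bd + ad → ac ≠ cd + ad →
    (∀ a b d, d2 b a = ab → d2 b d = bd → d2 a d = ad → Ind2 (a - b) (d - b)) →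
    (∀ a c d, d2 c a = ac → d2 c d = cd → d2 a d = ad → Ind2 (a - c) (d - c)) →
    #(tet P ab ac ad bc bd cd) ≤ C * (#P : ℝ) ^ 2 := by
  classical
  obtain ⟨C₀, hC₀, h₀⟩ := tri_le
  obtain ⟨C, hC, h⟩ := ((ev_PGF.and ev_PT).pow (Q := fun n Λ' => ∃ Λ, 1 ≤ Λ ∧ Λ * Λ ≤ Λ' ∧
    PGF n Λ ∧ PT n Λ) 1 2 fun n Λ Λ' _ hΛ hΛ' h => ⟨Λ, hΛ, by push_cast at hΛ'; linarith, h⟩).root
  refine ⟨C + 12 * (48 * (4 * C₀)), by linarith,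
    fun P ab ac ad bc bd cd z1 z2 z3 z4 z5 z6 r1 r2 t1 t2 => ?_⟩
  rcases P.eq_empty_or_nonempty with rfl | hne
  · simp [tet]
  obtain ⟨ν, hν, hνn, Λ, hΛ, hΛC, h1, h2⟩ := h #P (by exact_mod_cast hne.card_pos)
  obtain ⟨Q, hQ⟩ := h1 P ![ab, ac, ad, bc, bd, cd] ν le_rfl hν hνn
    (fun j => by fin_cases j <;> assumption)
  have hl : ∀ p ∈ [ab, ac, ad, bc, bd, cd], ∃ i, ![ab, ac, ad, bc, bd, cd] i = p := by
    simp only [List.mem_cons, List.not_mem_nil, or_false, forall_eq_or_imp, forall_eq]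
    exact ⟨⟨0, rfl⟩, ⟨1, rfl⟩, ⟨2, rfl⟩, ⟨3, rfl⟩, ⟨4, rfl⟩, 5, rfl⟩
  have s0 := (h2 P (Fr Q) ab ac ad bc bd cd ν Λ (Fr.symm Q) le_rfl z1 z2 z3 z4 z5 z6 r1 r2 t1 t2
    hν hΛ hνn fun p hp q hq r hr => hQ p q r (hl p hp) (hl q hq) (hl r hr)).trans
    (mul_le_mul_of_nonneg_right hΛC (by positivity))
  have e0 : C * ν * ν ^ 15999 = C * (#P : ℝ) ^ 2 := by rw [← hνn]; ring
  set S := tet P ab ac ad bc bd cd with hS
  have hSm : ∀ t ∈ S, (t.1 ∈ P ∧ t.2.1 ∈ P ∧ t.2.2.1 ∈ P ∧ t.2.2.2 ∈ P) ∧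
      d2 t.1 t.2.1 = ab ∧ d2 t.1 t.2.2.1 = ac ∧ d2 t.1 t.2.2.2 = ad ∧
      d2 t.2.1 t.2.2.1 = bc ∧ d2 t.2.1 t.2.2.2 = bd ∧ d2 t.2.2.1 t.2.2.2 = cd :=
    fun t ht => mem_tet.1 ht
  have simple : ∀ (x y z w : V × V × V × V → V) (p q r p' q' r' : ℝ),
      p ≠ 0 → q ≠ 0 → r ≠ 0 → p' ≠ 0 → q' ≠ 0 →
      (∀ s t, x s = x t → y s = y t → z s = z t → w s = w t → s = t) →
      (∀ s ∈ S, (x s ∈ P ∧ y s ∈ P ∧ z s ∈ P ∧ w s ∈ P) ∧ d2 (x s) (y s) = p ∧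
        d2 (x s) (z s) = q ∧ d2 (y s) (z s) = r ∧ d2 (x s) (w s) = p' ∧ d2 (y s) (w s) = q' ∧
        d2 (z s) (w s) = r') →
      (#{s ∈ S | ∃ i, InPl (Q (x s) i) (w s)} : ℝ) ≤ 48 * (4 * (C₀ * (#P : ℝ) ^ 2)) := by
    intro x y z w p q r p' q' r' hp hq hr hp' hq' h1 h2
    convert card_exists_le' S (fun i s => InPl (Q (x s) i) (w s)) _ fun i => ?_
    have a1 := simple_four {s ∈ S | InPl (Q (x s) i) (w s)} x y z w p q r p' q' r' hp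
      (fun v => Q v i) (tri P p q r) (tri P p p' q') (fun s _ t _ => h1 s t)
      (fun s hs => by
        obtain ⟨⟨k1, k2, k3, k4⟩, m1, m2, m3, m4, m5, m6⟩ := h2 s (mem_filter.1 hs).1
        exact ⟨mem_tri.2 ⟨⟨k1, k2, k3⟩, m1, m2, m3⟩, mem_tri.2 ⟨⟨k1, k2, k4⟩, m1, m4, m5⟩,
          m1, m2, m3, m4, m5, m6, (mem_filter.1 hs).2⟩)
    have a2 : (#{s ∈ S | InPl (Q (x s) i) (w s)} : ℝ) ≤
        2 * #(tri P p q r) + 2 * #(tri P p p' q') := by exact_mod_cast a1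
    linarith [h₀ P p q r hp hq hr, h₀ P p p' q' hp hp' hq']
  have s1 := simple (·.1) (·.2.2.1) (·.2.2.2) (·.2.1) ac ad cd ab bc bd
    z2 z3 z6 z1 z4
    (fun s t h1 h2 h3 h4 => Prod.ext h1 (Prod.ext h4 (Prod.ext h2 h3)))
    (fun s hs => by
      obtain ⟨⟨k1, k2, k3, k4⟩, m1, m2, m3, m4, m5, m6⟩ := hSm s hs
      exact ⟨⟨k1, k3, k4, k2⟩, m2, m3, m6,
        m1, d2_comm _ _ ▸ m4, d2_comm _ _ ▸ m5⟩)
  have s2 := simple (·.1) (·.2.1) (·.2.2.2) (·.2.2.1) ab ad bd ac bc cd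
    z1 z3 z5 z2 z4
    (fun s t h1 h2 h3 h4 => Prod.ext h1 (Prod.ext h2 (Prod.ext h4 h3)))
    (fun s hs => by
      obtain ⟨⟨k1, k2, k3, k4⟩, m1, m2, m3, m4, m5, m6⟩ := hSm s hs
      exact ⟨⟨k1, k2, k4, k3⟩, m1, m3, m5,
        m2, m4, d2_comm _ _ ▸ m6⟩)
  have s3 := simple (·.1) (·.2.1) (·.2.2.1) (·.2.2.2) ab ac bc ad bd cd
    z1 z2 z4 z3 z5
    (fun s t h1 h2 h3 h4 => Prod.ext h1 (Prod.ext h2 (Prod.ext h3 h4)))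
    (fun s hs => by
      obtain ⟨⟨k1, k2, k3, k4⟩, m1, m2, m3, m4, m5, m6⟩ := hSm s hs
      exact ⟨⟨k1, k2, k3, k4⟩, m1, m2, m4,
        m3, m5, m6⟩)
  have s4 := simple (·.2.1) (·.2.2.1) (·.2.2.2) (·.1) bc bd cd ab ac ad
    z4 z5 z6 z1 z2
    (fun s t h1 h2 h3 h4 => Prod.ext h4 (Prod.ext h1 (Prod.ext h2 h3)))
    (fun s hs => by
      obtain ⟨⟨k1, k2, k3, k4⟩, m1, m2, m3, m4, m5, m6⟩ := hSm s hs
      exact ⟨⟨k2, k3, k4, k1⟩, m4, m5, m6,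
        d2_comm _ _ ▸ m1, d2_comm _ _ ▸ m2, d2_comm _ _ ▸ m3⟩)
  have s5 := simple (·.2.1) (·.1) (·.2.2.2) (·.2.2.1) ab bd ad bc ac cd
    z1 z5 z3 z4 z2
    (fun s t h1 h2 h3 h4 => Prod.ext h2 (Prod.ext h1 (Prod.ext h4 h3)))
    (fun s hs => by
      obtain ⟨⟨k1, k2, k3, k4⟩, m1, m2, m3, m4, m5, m6⟩ := hSm s hs
      exact ⟨⟨k2, k1, k4, k3⟩, d2_comm _ _ ▸ m1, m5, m3,
        m4, m2, d2_comm _ _ ▸ m6⟩)
  have s6 := simple (·.2.1) (·.1) (·.2.2.1) (·.2.2.2) ab bc ac bd ad cd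
    z1 z4 z2 z5 z3
    (fun s t h1 h2 h3 h4 => Prod.ext h2 (Prod.ext h1 (Prod.ext h3 h4)))
    (fun s hs => by
      obtain ⟨⟨k1, k2, k3, k4⟩, m1, m2, m3, m4, m5, m6⟩ := hSm s hs
      exact ⟨⟨k2, k1, k3, k4⟩, d2_comm _ _ ▸ m1, m4, m2,
        m5, m3, m6⟩)
  have s7 := simple (·.2.2.1) (·.2.1) (·.2.2.2) (·.1) bc cd bd ac ab ad
    z4 z6 z5 z2 z1
    (fun s t h1 h2 h3 h4 => Prod.ext h4 (Prod.ext h2 (Prod.ext h1 h3)))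
    (fun s hs => by
      obtain ⟨⟨k1, k2, k3, k4⟩, m1, m2, m3, m4, m5, m6⟩ := hSm s hs
      exact ⟨⟨k3, k2, k4, k1⟩, d2_comm _ _ ▸ m4, m6, m5,
        d2_comm _ _ ▸ m2, d2_comm _ _ ▸ m1, d2_comm _ _ ▸ m3⟩)
  have s8 := simple (·.2.2.1) (·.1) (·.2.2.2) (·.2.1) ac cd ad bc ab bd
    z2 z6 z3 z4 z1
    (fun s t h1 h2 h3 h4 => Prod.ext h2 (Prod.ext h4 (Prod.ext h1 h3)))
    (fun s hs => by
      obtain ⟨⟨k1, k2, k3, k4⟩, m1, m2, m3, m4, m5, m6⟩ := hSm s hs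
      exact ⟨⟨k3, k1, k4, k2⟩, d2_comm _ _ ▸ m2, m6, m3,
        d2_comm _ _ ▸ m4, m1, d2_comm _ _ ▸ m5⟩)
  have s9 := simple (·.2.2.1) (·.1) (·.2.1) (·.2.2.2) ac bc ab cd ad bd
    z2 z4 z1 z6 z3
    (fun s t h1 h2 h3 h4 => Prod.ext h2 (Prod.ext h3 (Prod.ext h1 h4)))
    (fun s hs => by
      obtain ⟨⟨k1, k2, k3, k4⟩, m1, m2, m3, m4, m5, m6⟩ := hSm s hs
      exact ⟨⟨k3, k1, k2, k4⟩, d2_comm _ _ ▸ m2, d2_comm _ _ ▸ m4, m1,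
        m6, m3, m5⟩)
  have s10 := simple (·.2.2.2) (·.2.1) (·.2.2.1) (·.1) bd cd bc ad ab ac
    z5 z6 z4 z3 z1
    (fun s t h1 h2 h3 h4 => Prod.ext h4 (Prod.ext h2 (Prod.ext h3 h1)))
    (fun s hs => by
      obtain ⟨⟨k1, k2, k3, k4⟩, m1, m2, m3, m4, m5, m6⟩ := hSm s hs
      exact ⟨⟨k4, k2, k3, k1⟩, d2_comm _ _ ▸ m5, d2_comm _ _ ▸ m6, m4,
        d2_comm _ _ ▸ m3, d2_comm _ _ ▸ m1, d2_comm _ _ ▸ m2⟩)
  have s11 := simple (·.2.2.2) (·.1) (·.2.2.1) (·.2.1) ad cd ac bd ab bc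
    z3 z6 z2 z5 z1
    (fun s t h1 h2 h3 h4 => Prod.ext h2 (Prod.ext h4 (Prod.ext h3 h1)))
    (fun s hs => by
      obtain ⟨⟨k1, k2, k3, k4⟩, m1, m2, m3, m4, m5, m6⟩ := hSm s hs
      exact ⟨⟨k4, k1, k3, k2⟩, d2_comm _ _ ▸ m3, d2_comm _ _ ▸ m6, m2,
        d2_comm _ _ ▸ m5, m1, d2_comm _ _ ▸ m4⟩)
  have s12 := simple (·.2.2.2) (·.1) (·.2.1) (·.2.2.1) ad bd ab cd ac bc
    z3 z5 z1 z6 z2
    (fun s t h1 h2 h3 h4 => Prod.ext h2 (Prod.ext h3 (Prod.ext h4 h1)))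
    (fun s hs => by
      obtain ⟨⟨k1, k2, k3, k4⟩, m1, m2, m3, m4, m5, m6⟩ := hSm s hs
      exact ⟨⟨k4, k1, k2, k3⟩, d2_comm _ _ ▸ m3, d2_comm _ _ ▸ m5, m1,
        d2_comm _ _ ▸ m6, m2, m4⟩)
  have s13 := card_le_list [{s ∈ S | ∃ i, InPl (Q s.1 i) s.2.1}, {s ∈ S | ∃ i, InPl (Q s.1 i) s.2.2.1},
    {s ∈ S | ∃ i, InPl (Q s.1 i) s.2.2.2}, {s ∈ S | ∃ i, InPl (Q s.2.1 i) s.1},
    {s ∈ S | ∃ i, InPl (Q s.2.1 i) s.2.2.1}, {s ∈ S | ∃ i, InPl (Q s.2.1 i) s.2.2.2},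
    {s ∈ S | ∃ i, InPl (Q s.2.2.1 i) s.1}, {s ∈ S | ∃ i, InPl (Q s.2.2.1 i) s.2.1},
    {s ∈ S | ∃ i, InPl (Q s.2.2.1 i) s.2.2.2}, {s ∈ S | ∃ i, InPl (Q s.2.2.2 i) s.1},
    {s ∈ S | ∃ i, InPl (Q s.2.2.2 i) s.2.1}, {s ∈ S | ∃ i, InPl (Q s.2.2.2 i) s.2.2.1},
    ftet P (Fr Q) ab ac ad bc bd cd] S (by
      intro s hs
      simp only [List.mem_cons, List.not_mem_nil, or_false, exists_eq_or_imp, exists_eq_left,
        mem_filter, mem_ftet]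
      by_contra hcon
      simp only [not_or, not_and, not_exists] at hcon
      obtain ⟨k1, k2, k3, k4, k5, k6, k7, k8, k9, k10, k11, k12, k13⟩ := hcon
      exact k13 hs ⟨k1 hs, k4 hs⟩ ⟨k2 hs, k7 hs⟩ ⟨k3 hs, k10 hs⟩
        ⟨k5 hs, k8 hs⟩ ⟨k6 hs, k11 hs⟩ ⟨k9 hs, k12 hs⟩)
  simp only [List.map_cons, List.map_nil, List.sum_cons, List.sum_nil, add_zero] at s13
  have s14 : (#S : ℝ) ≤ _ := Nat.cast_le.2 s13
  push_cast at s14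
  linarith

lemma copies_le_sq : ∃ C : ℝ, 1 ≤ C ∧ ∀ s : Finset E4, IsSimplex3 s → ∀ P : Finset E4,
    (copies s P : ℝ) ≤ C * (#P : ℝ) ^ 2 := by
  classical
  obtain ⟨C, hC, hC'⟩ := tet_le
  refine ⟨C, hC, fun s h P => ?_⟩
  have hne : s.Nonempty := card_pos.1 (by rw [h.1]; norm_num)
  obtain ⟨⟨a, d⟩, had, hmax⟩ := exists_max_image (s ×ˢ s) (fun p => dist p.1 p.2) (hne.product hne)
  obtain ⟨ha, hd⟩ := mem_product.1 had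
  have hne' : a ≠ d := by
    rintro rfl
    obtain ⟨x, hx, y, hy, hxy⟩ := one_lt_card.1 (show 1 < #s by rw [h.1]; norm_num)
    have := hmax (x, y) (mem_product.2 ⟨hx, hy⟩)
    simp only [dist_self] at this
    exact hxy (dist_le_zero.1 this)
  have hc : #((s.erase a).erase d) = 2 := by
    rw [card_erase_of_mem (mem_erase.2 ⟨hne'.symm, hd⟩), card_erase_of_mem ha, h.1]
  obtain ⟨b, c, hbc, hs⟩ := card_eq_two.1 hc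
  have hb : b ∈ (s.erase a).erase d := by rw [hs]; simp
  have hc : c ∈ (s.erase a).erase d := by rw [hs]; simp
  simp only [mem_erase] at hb hc
  have hall : ∀ x ∈ s, x = a ∨ x = b ∨ x = c ∨ x = d := by
    intro x hx
    by_cases h1 : x = a
    · exact Or.inl h1
    by_cases h2 : x = d
    · exact Or.inr (Or.inr (Or.inr h2))
    have : x ∈ (s.erase a).erase d := mem_erase.2 ⟨h2, mem_erase.2 ⟨h1, hx⟩⟩
    rw [hs, mem_insert, mem_singleton] at this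
    tauto
  have hpos : ∀ x y : E4, x ≠ y → 0 < dist x y ^ 2 := fun x y h => pow_pos (dist_pos.2 h) 2
  have hle : ∀ x ∈ s, dist a x ^ 2 ≤ dist a d ^ 2 := fun x hx =>
    pow_le_pow_left₀ dist_nonneg (hmax (a, x) (mem_product.2 ⟨ha, hx⟩)) 2
  have key := hC' (P.image WithLp.ofLp) (dist a b ^ 2)
    (dist a c ^ 2) (dist a d ^ 2) (dist b c ^ 2) (dist b d ^ 2) (dist c d ^ 2)
    (hpos _ _ hb.2.1.symm).ne' (hpos _ _ hc.2.1.symm).ne'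
    (hpos _ _ hne').ne' (hpos _ _ hbc).ne' (hpos _ _ hb.1).ne' (hpos _ _ hc.1).ne'
    (by linarith [hle b hb.2.2, hpos _ _ hb.1]) (by linarith [hle c hc.2.2, hpos _ _ hc.1])
    (fun a' b' d' h1 h2 h3 => ind2_transfer (by rw [h1, d2_eq, dist_comm]) (by rw [h2, d2_eq])
      (by rw [h3, d2_eq]) (h.ind2 hb.2.2 ha hd hb.2.1 hb.1 hne'))
    (fun a' b' d' h1 h2 h3 => ind2_transfer (by rw [h1, d2_eq, dist_comm]) (by rw [h2, d2_eq])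
      (by rw [h3, d2_eq]) (h.ind2 hc.2.2 ha hd hc.2.1 hc.1 hne'))
  refine le_trans ?_ (key.trans (mul_le_mul_of_nonneg_left (pow_le_pow_left₀ (by positivity)
    (by exact_mod_cast card_image_le) 2) (by linarith)))
  set T := tet (P.image WithLp.ofLp) (dist a b ^ 2)
    (dist a c ^ 2) (dist a d ^ 2) (dist b c ^ 2) (dist b d ^ 2) (dist c d ^ 2) with hT
  let F : V × V × V × V → Finset E4 := fun t =>
    {WithLp.toLp 2 t.1, WithLp.toLp 2 t.2.1, WithLp.toLp 2 t.2.2.1, WithLp.toLp 2 t.2.2.2}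
  have h1 : copies s P ≤ #T := by
    refine le_trans (Set.ncard_le_ncard (t := ((T.image F : Finset (Finset E4)) : Set _)) ?_
      (finite_toSet _)) ?_
    · rintro t ⟨htP, -, g, hg⟩
      have hm : ∀ x ∈ s, g x ∈ t := fun x hx => by
        rw [← mem_coe, ← hg]; exact ⟨x, hx, rfl⟩
      have hm' : ∀ x ∈ s, (g x).ofLp ∈ P.image WithLp.ofLp :=
        fun x hx => mem_image_of_mem _ (htP (hm x hx))
      refine mem_coe.2 (mem_image.2 ⟨((g a).ofLp, (g b).ofLp, (g c).ofLp, (g d).ofLp), ?_, ?_⟩)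
      · refine mem_tet.2 ⟨⟨hm' a ha, hm' b hb.2.2, hm' c hc.2.2, hm' d hd⟩, ?_⟩
        simp only [d2_eq, g.dist_eq, and_self]
      · ext x
        simp only [F, WithLp.toLp_ofLp, mem_insert, mem_singleton]
        constructor
        · rintro (rfl | rfl | rfl | rfl)
          exacts [hm a ha, hm b hb.2.2, hm c hc.2.2, hm d hd]
        · intro hx
          rw [← mem_coe, ← hg] at hx
          obtain ⟨y, hy, rfl⟩ := hx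
          rcases hall y hy with rfl | rfl | rfl | rfl <;> simp
    · rw [Set.ncard_coe_finset]
      exact card_image_le
  exact_mod_cast h1

theorem maxCopies_le_sq : ∃ C : ℝ, ∀ s : Finset E4, IsSimplex3 s → ∀ n : ℕ,
    (maxCopies s n : ℝ) ≤ C * (n : ℝ) ^ 2 := by
  obtain ⟨C, hC, hC'⟩ := copies_le_sq
  refine ⟨C, fun s h n => ?_⟩
  have h1 : maxCopies s n ≤ ⌊C * (n : ℝ) ^ 2⌋₊ := by
    apply csSup_le'
    rintro m ⟨P, rfl, rfl⟩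
    exact Nat.le_floor (hC' s h P)
  exact le_trans (by exact_mod_cast h1) (Nat.floor_le (by positivity))

end Pool.Agent.P.MP_f7c707_co
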