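import Pool.Agent.P.MP_f7c707_co.QTri6

/-!
Triangles in a sparse distance graph.
-/

namespace Pool.Agent.P.MP_f7c707_co

open Finset MvPolynomial Pool.Agent.Lib.PolyPart

/-- Neighbours at squared distance `a` in the graph `E`. -/
noncomputable def qpfN (P : Finset V) (E : V → V → Prop) (a : ℝ) (z : V) : Finset V :=
  nbr P (fun x y => d2 x y = a ∧ E x y) z

lemma qpf_light {n Λ : ℝ} (h3 : P3 n Λ) (hΛ : 1 ≤ Λ) {α : Type*} (S : Finset α) (x y z : α → V)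
    (P : Finset V) (E : V → V → Prop) (a b c u : ℝ) (hP : #P ≤ n) (hu : 1 ≤ u) (hr : a ≠ c + b)
    (hinj : ∀ s t, x s = x t → y s = y t → z s = z t → s = t)
    (hS : ∀ s ∈ S, z s ∈ P ∧ d2 (y s) (x s) = a ∧ x s ∈ qpfN P E b (z s) ∧
      y s ∈ qpfN P E c (z s) ∧ (#(qpfN P E b (z s)) : ℝ) ≤ u ^ 4 ∧
      (#(qpfN P E c (z s)) : ℝ) ≤ u ^ 4) : (#S : ℝ) ≤ n * (Λ * (3 * u ^ 6)) := by
  classical
  set D := {d ∈ P | (#(qpfN P E b d) : ℝ) ≤ u ^ 4 ∧ (#(qpfN P E c d) : ℝ) ≤ u ^ 4} with hD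
  have a1 : #S ≤ #(D.sigma fun d => (qpfN P E b d).sigma fun v => nb (qpfN P E c d) v a) := by
    apply card_le_card_of_injOn (fun s => ⟨z s, x s, y s⟩)
    · intro s hs
      obtain ⟨k1, k2, k3, k4, k5⟩ := hS s (mem_coe.1 hs)
      exact mem_coe.2 (mem_sigma.2 ⟨mem_filter.2 ⟨k1, k5⟩,
        mem_sigma.2 ⟨k3, mem_nb.2 ⟨k4, k2⟩⟩⟩)
    · intro s _ t _ hst
      simp only [Sigma.mk.injEq, heq_eq_eq] at hst
      exact hinj s t hst.2.1 hst.2.2 hst.1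
  simp only [card_sigma] at a1
  have a2 : (#S : ℝ) ≤ ∑ d ∈ D, ∑ v ∈ qpfN P E b d, (#(nb (qpfN P E c d) v a) : ℝ) := by
    exact_mod_cast a1
  have a3 := sum_le_card_nsmul D
    (fun d => ∑ v ∈ qpfN P E b d, (#(nb (qpfN P E c d) v a) : ℝ)) (Λ * (3 * u ^ 6)) (by
      intro d hd
      obtain ⟨k1, k2⟩ := (mem_filter.1 hd).2
      refine (h3 (qpfN P E c d) (qpfN P E b d) d c b a ((card_nbr_le _ _ _).trans hP) hr
        (fun b hb => (mem_nbr.1 hb).2.1) (fun b hb => (mem_nbr.1 hb).2.1) u hu).trans ?_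
      apply mul_le_mul_of_nonneg_left _ (by linarith)
      have k3 : u ^ 4 ≤ u ^ 6 := pow_le_pow_right₀ hu (by norm_num)
      have e1 : (#(qpfN P E b d) : ℝ) * u ^ 2 ≤ u ^ 6 := by
        calc _ ≤ u ^ 4 * u ^ 2 := mul_le_mul_of_nonneg_right k1 (by positivity)
          _ = _ := by ring
      have e2 : (#(qpfN P E c d) : ℝ) ^ 3 / u ^ 6 ≤ u ^ 6 := by
        rw [div_le_iff₀ (by positivity)]
        calc _ ≤ (u ^ 4) ^ 3 := pow_le_pow_left₀ (by positivity) k2 3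
          _ = _ := by ring
      linarith)
  refine a2.trans (a3.trans ?_)
  rw [nsmul_eq_mul]
  exact mul_le_mul_of_nonneg_right
    (le_trans (by exact_mod_cast card_filter_le _ _) hP) (by positivity)

lemma qpf_heavy (P : Finset V) (E : V → V → Prop) (a w M : ℝ) (hw : 0 < w)
    (h : cnt P P (fun x y => d2 x y = a ∧ E x y) ≤ M * w) :
    (#{z ∈ P | w < #(qpfN P E a z)} : ℝ) ≤ M := by
  have h1 := card_nsmul_le_sum {z ∈ P | w < #(qpfN P E a z)} (fun z => (#(qpfN P E a z) : ℝ)) w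
    fun d hd => (mem_filter.1 hd).2.le
  have h2 : ∑ z ∈ P with w < #(qpfN P E a z), (#(qpfN P E a z) : ℝ) ≤
      ∑ z ∈ P, (#(qpfN P E a z) : ℝ) :=
    sum_le_sum_of_subset_of_nonneg (filter_subset _ _) fun d _ _ => by positivity
  rw [nsmul_eq_mul] at h1
  exact le_of_mul_le_mul_right (h1.trans (h2.trans h)) hw

lemma qpf_main {n Λ : ℝ} (h3 : P3 n Λ) (h6 : P6m n Λ) (hΛ : 1 ≤ Λ) (P : Finset V)
    (E : V → V → Prop) (p q r ν Φ : ℝ) (hE : ∀ x y, E x y → E y x) (hP : #P ≤ n)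
    (r1 : p ≠ r + q) (r2 : q ≠ r + p) (hν : 1 ≤ ν) (hΦ : 1 ≤ Φ) (hn : ν ^ 8000 = n)
    (hc : ∀ a ∈ [p, q, r], cnt P P (fun x y => d2 x y = a ∧ E x y) ≤ Φ * ν ^ 12800) :
    #(ftri P E p q r) ≤ 9 * Λ * Φ * ν ^ 15999 := by
  classical
  have hu : 1 ≤ ν ^ 1250 := one_le_pow₀ hν
  set u := ν ^ 1250 with hud
  let Hv : ℝ → Finset V := fun a => {z ∈ P | u ^ 4 < #(qpfN P E a z)}
  have hH : ∀ a ∈ [p, q, r], (#(Hv a) : ℝ) ≤ Φ * ν ^ 7800 := fun a ha =>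
    qpf_heavy P E a _ _ (by positivity) ((hc a ha).trans_eq (by rw [hud]; ring))
  have hU : ∀ a ∈ [p, q, r], (#(Hv a ∪ Hv r) : ℝ) ≤ min n (2 * Φ * ν ^ 7800) := by
    intro a ha
    refine le_min (le_trans ?_ hP) ?_
    · exact_mod_cast card_le_card (union_subset (filter_subset _ _) (filter_subset _ _))
    · have h1 : (#(Hv a ∪ Hv r) : ℝ) ≤ #(Hv a) + #(Hv r) := by exact_mod_cast card_union_le _ _
      linarith [hH a ha, hH r (by simp)]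
  have hL : ∀ a z, z ∈ P → z ∉ Hv a ∪ Hv r →
      (#(qpfN P E a z) : ℝ) ≤ u ^ 4 ∧ (#(qpfN P E r z) : ℝ) ≤ u ^ 4 := by
    intro a z h1 h2
    rw [mem_union, not_or] at h2
    exact ⟨not_lt.1 fun h => h2.1 (mem_filter.2 ⟨h1, h⟩),
      not_lt.1 fun h => h2.2 (mem_filter.2 ⟨h1, h⟩)⟩
  have s1 := qpf_light h3 hΛ {t ∈ ftri P E p q r | t.2.2 ∉ Hv q ∪ Hv r} (·.1) (·.2.1) (·.2.2)
    P E p q r u hP hu r1 (fun s t h1 h2 h3 => Prod.ext h1 (Prod.ext h2 h3)) (fun s hs => by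
      obtain ⟨k0, k⟩ := mem_filter.1 hs
      obtain ⟨k0, e1, e2, e3⟩ := mem_ftri.1 k0
      obtain ⟨⟨k1, k2, k3⟩, k4, k5, k6⟩ := mem_tri.1 k0
      exact ⟨k3, d2_comm _ _ ▸ k4, mem_nbr.2 ⟨k1, k5, e2⟩, mem_nbr.2 ⟨k2, k6, e3⟩, hL q _ k3 k⟩)
  have s2 := qpf_light h3 hΛ {t ∈ ftri P E p q r | t.2.1 ∉ Hv p ∪ Hv r} (·.1) (·.2.2) (·.2.1)
    P E q p r u hP hu r2 (fun s t h1 h2 h3 => Prod.ext h1 (Prod.ext h3 h2)) (fun s hs => by
      obtain ⟨k0, k⟩ := mem_filter.1 hs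
      obtain ⟨k0, e1, e2, e3⟩ := mem_ftri.1 k0
      obtain ⟨⟨k1, k2, k3⟩, k4, k5, k6⟩ := mem_tri.1 k0
      exact ⟨k2, d2_comm _ _ ▸ k5, mem_nbr.2 ⟨k1, k4, e1⟩,
        mem_nbr.2 ⟨k3, d2_comm _ _ ▸ k6, hE _ _ e3⟩, hL p _ k2 k⟩)
  have s3 := h6 P (Hv p ∪ Hv r) (Hv q ∪ Hv r) p q r _ ν hP (hU p (by simp)) (hU q (by simp))
    (min_le_left _ _) hν hn r1
  have s4 := card_le_list [{t ∈ ftri P E p q r | t.2.2 ∉ Hv q ∪ Hv r},
    {t ∈ ftri P E p q r | t.2.1 ∉ Hv p ∪ Hv r}, tri3 P (Hv p ∪ Hv r) (Hv q ∪ Hv r) p q r]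
    (ftri P E p q r) (by
      intro s hs
      simp only [List.mem_cons, List.not_mem_nil, or_false, exists_eq_or_imp, exists_eq_left]
      by_cases k1 : s.2.2 ∈ Hv q ∪ Hv r
      · by_cases k2 : s.2.1 ∈ Hv p ∪ Hv r
        · obtain ⟨⟨k3, -⟩, k4⟩ := mem_tri.1 (mem_ftri.1 hs).1
          exact Or.inr (Or.inr (mem_tri3.2 ⟨⟨k3, k2, k1⟩, k4⟩))
        · exact Or.inr (Or.inl (mem_filter.2 ⟨hs, k2⟩))
      · exact Or.inl (mem_filter.2 ⟨hs, k1⟩))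
  simp only [List.map_cons, List.map_nil, List.sum_cons, List.sum_nil, add_zero] at s4
  have s5 : (#(ftri P E p q r) : ℝ) ≤ _ := Nat.cast_le.2 s4
  push_cast at s5
  have hn0 : 0 ≤ n := hn ▸ by positivity
  have hw : ∀ j : ℕ, j ≤ 15999 → Λ * ν ^ j ≤ Λ * Φ * ν ^ 15999 := fun j hj =>
    mul_le_mul (le_mul_of_one_le_right (by linarith) hΦ) (pow_le_pow_right₀ hν hj)
      (by positivity) (by positivity)
  have e1 : n * (Λ * (3 * u ^ 6)) ≤ 3 * (Λ * Φ * ν ^ 15999) := by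
    calc _ = 3 * (Λ * ν ^ 15500) := by rw [← hn, hud]; ring
      _ ≤ _ := mul_le_mul_of_nonneg_left (hw _ (by norm_num)) (by norm_num)
  have e2 : Λ * (n * min n (2 * Φ * ν ^ 7800)) ≤ 2 * (Λ * Φ * ν ^ 15999) := by
    calc _ ≤ Λ * (n * (2 * Φ * ν ^ 7800)) := mul_le_mul_of_nonneg_left
          (mul_le_mul_of_nonneg_left (min_le_right _ _) hn0) (by linarith)
      _ = 2 * (Λ * Φ * ν ^ 15800) := by rw [← hn]; ring
      _ ≤ _ := mul_le_mul_of_nonneg_left (mul_le_mul_of_nonneg_left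
          (pow_le_pow_right₀ hν (by norm_num)) (by positivity)) (by norm_num)
  have e3 := hw 15200 (by norm_num)
  rw [mul_add] at s3
  calc _ ≤ 9 * (Λ * Φ * ν ^ 15999) := by linarith
    _ = _ := by ring

lemma qpf_perm (P : Finset V) (E : V → V → Prop) (p q r p' q' r' : ℝ)
    (f : V × V × V → V × V × V) (hf : Function.Injective f)
    (h : ∀ t ∈ ftri P E p q r, f t ∈ ftri P E p' q' r') :
    (#(ftri P E p q r) : ℝ) ≤ #(ftri P E p' q' r') := by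
  exact_mod_cast card_le_card_of_injOn f h hf.injOn

theorem ev_PF : Ev PF := by
  refine (ev_P3.and ev_P6m).pow 9 1
    fun n Λ Λ' _ hΛ hΛ' ⟨h3, h6⟩ P E p q r ν Φ hE hP hp hq hr hν hΦ hn hc => ?_
  refine le_trans ?_ (mul_le_mul_of_nonneg_right (mul_le_mul_of_nonneg_right
    (show 9 * Λ ≤ Λ' by simpa using hΛ') (by linarith)) (by positivity))
  by_cases r1 : p = r + q
  · refine le_trans ?_ (qpf_main h3 h6 hΛ P E q r p ν Φ hE hP (fun h => hr (by linarith))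
      (fun h => hq (by linarith)) hν hΦ hn fun a ha => hc a (by simp at ha ⊢; tauto))
    refine qpf_perm P E _ _ _ _ _ _ (fun t => (t.2.2, t.1, t.2.1)) (fun s t h => ?_) fun t ht => ?_
    · simp only [Prod.mk.injEq] at h
      exact Prod.ext h.2.1 (Prod.ext h.2.2 h.1)
    · obtain ⟨k0, e1, e2, e3⟩ := mem_ftri.1 ht
      obtain ⟨⟨k1, k2, k3⟩, k4, k5, k6⟩ := mem_tri.1 k0
      exact mem_ftri.2 ⟨mem_tri.2 ⟨⟨k3, k1, k2⟩, d2_comm _ _ ▸ k5, d2_comm _ _ ▸ k6, k4⟩,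
        hE _ _ e2, hE _ _ e3, e1⟩
  by_cases r2 : q = r + p
  · refine le_trans ?_ (qpf_main h3 h6 hΛ P E p r q ν Φ hE hP (fun h => hr (by linarith))
      (fun h => hp (by linarith)) hν hΦ hn fun a ha => hc a (by simp at ha ⊢; tauto))
    refine qpf_perm P E _ _ _ _ _ _ (fun t => (t.2.1, t.1, t.2.2)) (fun s t h => ?_) fun t ht => ?_
    · simp only [Prod.mk.injEq] at h
      exact Prod.ext h.2.1 (Prod.ext h.1 h.2.2)
    · obtain ⟨k0, e1, e2, e3⟩ := mem_ftri.1 ht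
      obtain ⟨⟨k1, k2, k3⟩, k4, k5, k6⟩ := mem_tri.1 k0
      exact mem_ftri.2 ⟨mem_tri.2 ⟨⟨k2, k1, k3⟩, d2_comm _ _ ▸ k4, k6, k5⟩, hE _ _ e1, e3, e2⟩
  exact qpf_main h3 h6 hΛ P E p q r ν Φ hE hP r1 r2 hν hΦ hn hc

end Pool.Agent.P.MP_f7c707_co
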