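import Pool.Agent.P.MP_f7c707_co.QDefs

/-!
Rational functions of one parameter, clean arcs and sign vectors.
-/

namespace Pool.Agent.P.MP_f7c707_co

open Finset MvPolynomial Pool.Agent.Lib.PolyPart

lemma IsRat.continuous {E : ℕ} {f : ℝ → ℝ} (h : IsRat E f) : Continuous f := by
  obtain ⟨q, -, hq⟩ := h
  have : f = fun s => q.eval s / (1 + s ^ 2) ^ E := by
    funext s
    rw [hq, mul_div_cancel_right₀ _ (by positivity)]
  rw [this]
  exact q.continuous.div (by fun_prop) fun s => by positivity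

lemma isRat_const (a : ℝ) : IsRat 0 fun _ => a := ⟨Polynomial.C a, by simp, by simp⟩

lemma IsRat.mul {E E' : ℕ} {f g : ℝ → ℝ} (h : IsRat E f) (h' : IsRat E' g) :
    IsRat (E + E') fun t => f t * g t := by
  obtain ⟨q, h1, hq⟩ := h
  obtain ⟨q', h1', hq'⟩ := h'
  refine ⟨q * q', Polynomial.natDegree_mul_le.trans (by omega), fun s => ?_⟩
  rw [Polynomial.eval_mul, hq, hq']
  ring

lemma IsRat.mono {E E' : ℕ} {f : ℝ → ℝ} (h : IsRat E f) (hE : E ≤ E') : IsRat E' f := by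
  obtain ⟨j, rfl⟩ := Nat.exists_eq_add_of_le hE
  obtain ⟨q, h1, hq⟩ := h
  refine ⟨q * (1 + Polynomial.X ^ 2) ^ j, Polynomial.natDegree_mul_le.trans ?_, fun s => ?_⟩
  · have h2 : (1 + Polynomial.X ^ 2 : Polynomial ℝ).natDegree ≤ 2 := by compute_degree
    have h3 := (Polynomial.natDegree_pow_le (p := (1 + Polynomial.X ^ 2 : Polynomial ℝ))
      (n := j)).trans (Nat.mul_le_mul_left j h2)
    omega
  · simp only [Polynomial.eval_mul, Polynomial.eval_pow, Polynomial.eval_add, Polynomial.eval_one,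
      Polynomial.eval_X, hq]
    ring

lemma isRat_sum {α : Type*} {E : ℕ} (S : Finset α) (f : α → ℝ → ℝ) (h : ∀ a ∈ S, IsRat E (f a)) :
    IsRat E fun t => ∑ a ∈ S, f a t := by
  choose! q h1 hq using h
  refine ⟨∑ a ∈ S, q a, Polynomial.natDegree_sum_le_of_forall_le _ _ h1, fun s => ?_⟩
  rw [Polynomial.eval_finsetSum, sum_mul]
  exact sum_congr rfl fun a ha => hq a ha s

lemma isRat_prod {α : Type*} (S : Finset α) (E : α → ℕ) (f : α → ℝ → ℝ)
    (h : ∀ a ∈ S, IsRat (E a) (f a)) : IsRat (∑ a ∈ S, E a) fun t => ∏ a ∈ S, f a t := by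
  classical
  induction S using Finset.induction_on with
  | empty => simpa using isRat_const 1
  | insert a S ha ih =>
    simp only [sum_insert ha, prod_insert ha]
    exact (h a (mem_insert_self _ _)).mul (ih fun b hb => h b (mem_insert_of_mem hb))

lemma IsRat.pow {f : ℝ → ℝ} (h : IsRat 1 f) (m : ℕ) : IsRat m fun t => f t ^ m := by
  simpa using isRat_prod (range m) (fun _ => 1) (fun _ => f) fun _ _ => h

lemma isRat_eval {n : ℕ} (f : ℝ → Fin n → ℝ) (hf : ∀ i, IsRat 1 fun t => f t i) (G : MP n)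
    {E : ℕ} (hG : G.totalDegree ≤ E) : IsRat E fun t => eval (f t) G := by
  simp only [eval_eq]
  apply isRat_sum
  intro m hm
  have h1 := (isRat_const (coeff m G)).mul
    (isRat_prod m.support (fun i => m i) (fun i t => f t i ^ m i) fun i _ => (hf i).pow _)
  rw [zero_add] at h1
  exact h1.mono ((le_totalDegree hm).trans hG)

lemma IsRat.exists_roots {E : ℕ} {f : ℝ → ℝ} (h : IsRat E f) (h0 : ¬ ∀ t, f t = 0) :
    ∃ T : Finset ℝ, #T ≤ 2 * E ∧ ∀ t, f t = 0 → t ∈ T := by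
  obtain ⟨q, h1, hq⟩ := h
  have hq0 : q ≠ 0 := by
    rintro rfl
    apply h0
    intro t
    have := hq t
    rw [Polynomial.eval_zero] at this
    exact (mul_eq_zero.1 this.symm).resolve_right (by positivity)
  refine ⟨q.roots.toFinset, (Multiset.toFinset_card_le _).trans ((Polynomial.card_roots' q).trans h1),
    fun t ht => ?_⟩
  rw [Multiset.mem_toFinset, Polynomial.mem_roots hq0, Polynomial.IsRoot, hq, ht, zero_mul]

lemma qrat_ivt {f : ℝ → ℝ} (hf : Continuous f) {s s' : ℝ} (hs : s ≤ s') (h : f s * f s' < 0) :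
    ∃ t, s ≤ t ∧ t < s' ∧ f t = 0 := by
  have key : ∃ t ∈ Set.Icc s s', f t = 0 := by
    rcases mul_neg_iff.1 h with ⟨h1, h2⟩ | ⟨h1, h2⟩
    · exact intermediate_value_Icc' hs hf.continuousOn ⟨h2.le, h1.le⟩
    · exact intermediate_value_Icc hs hf.continuousOn ⟨h1.le, h2.le⟩
  obtain ⟨t, ht, h0⟩ := key
  refine ⟨t, ht.1, lt_of_le_of_ne ht.2 ?_, h0⟩
  rintro rfl
  rw [h0, mul_zero] at h
  exact lt_irrefl _ h

lemma Clean.sign_eq {f : ℝ → ℝ} (hf : Continuous f) {s s' : ℝ} (hs : s ≤ s') (h : Clean f s s') :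
    SignType.sign (f s) = SignType.sign (f s') := by
  rcases h with h | h
  · rw [h s, h s']
  have h1 := h s ⟨le_rfl, hs⟩
  have h2 := h s' ⟨hs, le_rfl⟩
  have h3 : ¬ f s * f s' < 0 := fun h3 => by
    obtain ⟨t, t1, t2, t3⟩ := qrat_ivt hf hs h3
    exact h t ⟨t1, t2.le⟩ t3
  rcases lt_or_gt_of_ne h1 with a | a <;> rcases lt_or_gt_of_ne h2 with b | b
  · rw [sign_neg a, sign_neg b]
  · exact absurd (mul_neg_of_neg_of_pos a b) h3
  · exact absurd (mul_neg_of_pos_of_neg a b) h3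
  · rw [sign_pos a, sign_pos b]

lemma ArcSys.mono {ι : Type} {A B : Finset (Arc ι)} (hA : ArcSys A) (h : B ⊆ A) : ArcSys B :=
  ⟨fun a ha => hA.1 a (h ha), fun a ha b hb => hA.2 a (h ha) b (h hb)⟩

/-- An arc is determined by its curve and its first parameter. -/
lemma ArcSys.eq_of_fst {ι : Type} {A : Finset (Arc ι)} (hA : ArcSys A) {a b : Arc ι} (ha : a ∈ A)
    (hb : b ∈ A) (h1 : a.1 = b.1) (h2 : a.2.1 = b.2.1) : a = b := by
  by_contra hne
  have h3 := hA.1 a ha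
  have h4 := hA.1 b hb
  rcases hA.2 a ha b hb h1 hne with h | h <;> linarith

/-- Arcs that meet a finite set of parameters. -/
lemma ArcSys.card_hit {ι : Type} {A : Finset (Arc ι)} (hA : ArcSys A) (G : Finset ι)
    (T : ι → Finset ℝ) (M : ℕ) (hT : ∀ Z ∈ G, #(T Z) ≤ M)
    (h : ∀ a ∈ A, a.1 ∈ G ∧ ∃ t ∈ T a.1, a.2.1 ≤ t ∧ t ≤ a.2.2) : #A ≤ 2 * M * #G := by
  classical
  choose! t ht using fun a ha => (h a ha).2
  have h1 := card_le_two_mul A (fun a => (⟨a.1, t a⟩ : Σ _ : ι, ℝ)) (G.sigma T)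
    (fun a ha => mem_sigma.2 ⟨(h a ha).1, (ht a ha).1⟩) (by
      intro a ha b hb c hc g1 g2 g3 e1 e2
      simp only [Sigma.mk.injEq, heq_eq_eq] at e1 e2
      have a1 := (ht a ha).2
      have b1 := (ht b hb).2
      have c1 := (ht c hc).2
      rw [e1.2] at b1
      rw [e2.2] at c1
      have a2 := hA.1 a ha
      have b2 := hA.1 b hb
      have c2 := hA.1 c hc
      rcases hA.2 a ha b hb e1.1.symm g1 with k1 | k1 <;>
        rcases hA.2 a ha c hc e2.1.symm g2 with k2 | k2 <;>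
        rcases hA.2 b hb c hc (e1.1.trans e2.1.symm) g3 with k3 | k3 <;>
        linarith [a1.1, a1.2, b1.1, b1.2, c1.1, c1.2])
  refine h1.trans ?_
  rw [card_sigma, mul_assoc, mul_comm M]
  exact Nat.mul_le_mul_left _ (sum_le_card_nsmul G _ M hT)

/-- Arcs that are unclean for one of finitely many rational functions. -/
lemma ArcSys.card_unclean {ι κ : Type} [Fintype κ] {A : Finset (Arc ι)} (hA : ArcSys A)
    (G : Finset ι) (f : κ → ι → ℝ → ℝ) (E : ℕ) (hf : ∀ j, ∀ Z ∈ G, IsRat E (f j Z))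
    (h : ∀ a ∈ A, a.1 ∈ G ∧ ∃ j, ¬ Clean (f j a.1) a.2.1 a.2.2) :
    #A ≤ 4 * E * Fintype.card κ * #G := by
  classical
  have h1 : ∀ j, ∀ Z ∈ G, ∃ T : Finset ℝ, #T ≤ 2 * E ∧
      ((¬ ∀ t, f j Z t = 0) → ∀ t, f j Z t = 0 → t ∈ T) := by
    intro j Z hZ
    by_cases h0 : ∀ t, f j Z t = 0
    · exact ⟨∅, by simp, fun h => absurd h0 h⟩
    · obtain ⟨T, h1, h2⟩ := (hf j Z hZ).exists_roots h0
      exact ⟨T, h1, fun _ => h2⟩
  choose! T hT hT' using h1
  refine (hA.card_hit G (fun Z => univ.biUnion fun j => T j Z) (Fintype.card κ * (2 * E))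
    (fun Z hZ => card_biUnion_le_card_mul _ _ _ fun j _ => hT j Z hZ) fun a ha => ?_).trans
    (le_of_eq (by ring))
  obtain ⟨h2, j, hj⟩ := h a ha
  rw [Clean, not_or] at hj
  obtain ⟨h3, h4⟩ := hj
  push Not at h4
  obtain ⟨t, ht, h5⟩ := h4
  exact ⟨h2, t, mem_biUnion.2 ⟨j, mem_univ _, hT' j _ h2 h3 t h5⟩, ht⟩

/-- A rational curve visits few cells. -/
lemma card_signs_le {s E : ℕ} (f : Fin s → ℝ → ℝ) (hc : ∀ i, Continuous (f i))
    (hE : IsRat E fun t => ∏ i, f i t) (S : Finset (Fin s → Bool))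
    (h : ∀ σ ∈ S, ∃ t, ∀ i, 0 < sg (σ i) * f i t) : #S ≤ 2 * E + 1 := by
  classical
  rcases S.eq_empty_or_nonempty with rfl | ⟨σ₀, h₀⟩
  · simp
  choose! t ht using h
  obtain ⟨T, hT, hT'⟩ := hE.exists_roots fun h0 =>
    prod_ne_zero_iff.2 (fun i _ => right_ne_zero_of_mul (ht σ₀ h₀ i).ne') (h0 (t σ₀))
  have key : ∀ σ ∈ S, ∀ σ' ∈ S, σ ≠ σ' → t σ ≤ t σ' → #{x ∈ T | x < t σ} < #{x ∈ T | x < t σ'} := by
    intro σ hσ σ' hσ' hne hle
    obtain ⟨i, hi⟩ := Function.ne_iff.1 hne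
    have h1 := ht σ hσ i
    have h2 := ht σ' hσ' i
    have h3 : f i (t σ) * f i (t σ') < 0 := by
      cases e : σ i <;> cases e' : σ' i <;> simp only [e, e', sg_true, sg_false] at h1 h2 hi
      · exact absurd rfl hi
      · nlinarith
      · nlinarith
      · exact absurd rfl hi
    obtain ⟨x, x1, x2, x3⟩ := qrat_ivt (hc i) hle h3
    apply card_lt_card
    refine ⟨fun z hz => mem_filter.2 ⟨(mem_filter.1 hz).1, (mem_filter.1 hz).2.trans_le hle⟩,
      fun hsub => ?_⟩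
    have := hsub (mem_filter.2 ⟨hT' x (prod_eq_zero (mem_univ i) x3), x2⟩)
    exact absurd (mem_filter.1 this).2 (not_lt.2 x1)
  have h1 : #S ≤ #(range (2 * E + 1)) := by
    apply card_le_card_of_injOn (fun σ => #{x ∈ T | x < t σ})
    · exact fun σ _ => mem_coe.2 (mem_range.2 (Nat.lt_succ_of_le ((card_filter_le _ _).trans hT)))
    · intro σ hσ σ' hσ' hh
      by_contra hne
      rcases le_total (t σ) (t σ') with hle | hle
      · exact (key σ hσ σ' hσ' hne hle).ne hh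
      · exact (key σ' hσ' σ hσ (Ne.symm hne) hle).ne hh.symm
  rwa [card_range] at h1

open Classical in
/-- Total number of visits of curves to cells. -/
lemma sum_visits_le {ι : Type} {s E : ℕ} (G : Finset ι) (f : ι → Fin s → ℝ → ℝ)
    (hc : ∀ Z ∈ G, ∀ i, Continuous (f Z i)) (hE : ∀ Z ∈ G, IsRat E fun t => ∏ i, f Z i t) :
    ∑ σ : Fin s → Bool, #{Z ∈ G | ∃ t, ∀ i, 0 < sg (σ i) * f Z i t} ≤ (2 * E + 1) * #G := by
  rw [sum_card_comm, mul_comm, ← smul_eq_mul]
  apply sum_le_card_nsmul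
  intro Z hZ
  exact card_signs_le (f Z) (hc Z hZ) (hE Z hZ) _ fun σ hσ => (mem_filter.1 hσ).2

/-- Consecutive elements of a finite set of parameters. -/
lemma exists_consecutive (S : Finset ℝ) : ∃ A : Finset (ℝ × ℝ),
    (∀ a ∈ A, a.1 ∈ S ∧ a.2 ∈ S ∧ a.1 < a.2) ∧
      (∀ a ∈ A, ∀ b ∈ A, a ≠ b → a.2 ≤ b.1 ∨ b.2 ≤ a.1) ∧ #S ≤ #A + 1 := by
  classical
  induction S using Finset.induction_on_max with
  | empty => exact ⟨∅, by simp, by simp, by simp⟩
  | insert x S hx ih =>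
    rcases S.eq_empty_or_nonempty with rfl | hne
    · exact ⟨∅, by simp, by simp, by simp⟩
    obtain ⟨A, h1, h2, h3⟩ := ih
    have hxS : x ∉ S := fun h => lt_irrefl _ (hx x h)
    have hm := S.max'_mem hne
    have hnA : (S.max' hne, x) ∉ A := fun h => hxS (h1 _ h).2.1
    refine ⟨insert (S.max' hne, x) A, fun a ha => ?_, fun a ha b hb hab => ?_, ?_⟩
    · rcases mem_insert.1 ha with rfl | ha
      · exact ⟨mem_insert_of_mem hm, mem_insert_self _ _, hx _ hm⟩
      · exact ⟨mem_insert_of_mem (h1 a ha).1, mem_insert_of_mem (h1 a ha).2.1, (h1 a ha).2.2⟩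
    · rcases mem_insert.1 ha with rfl | ha <;> rcases mem_insert.1 hb with rfl | hb
      · exact absurd rfl hab
      · exact Or.inr (S.le_max' _ (h1 b hb).2.1)
      · exact Or.inl (S.le_max' _ (h1 a ha).2.1)
      · exact h2 a ha b hb hab
    · rw [card_insert_of_notMem hxS, card_insert_of_notMem hnA]
      omega

end Pool.Agent.P.MP_f7c707_co
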