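import Pool.Agent.P.MP_f7c707_co.QRat

/-!
Linear relations modulo nice ideals and separation.
-/

namespace Pool.Agent.P.MP_f7c707_co

open Finset MvPolynomial Pool.Agent.Lib.PolyPart

lemma qsep_exists (k c D : ℕ) : ∃ J : ℕ, c * (J + D + 1) ^ k < (c + 1) * (J + 1) ^ k := by
  have h1 : Filter.Tendsto (fun J : ℕ => (c : ℝ) * (1 + D * (1 / ((J : ℝ) + 1))) ^ k)
      Filter.atTop (nhds (c * (1 + D * 0) ^ k)) :=
    ((tendsto_one_div_add_atTop_nhds_zero_nat.const_mul _).const_add _).pow _ |>.const_mul _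
  obtain ⟨J, hJ⟩ := (h1.eventually (gt_mem_nhds (show (c : ℝ) * (1 + D * 0) ^ k < c + 1 by
    simp))).exists
  refine ⟨J, ?_⟩
  have h2 : (1 + D * (1 / ((J : ℝ) + 1))) = (J + D + 1) / (J + 1) := by field_simp; ring
  rw [h2, div_pow, ← mul_div_assoc, div_lt_iff₀ (by positivity)] at hJ
  exact_mod_cast hJ

theorem exists_relation (k c D : ℕ) : ∃ B : ℕ, ∀ (I : Ideal (MP 4)) (y : Fin k → MP 4),
    Nice 4 k c I y → ∀ f : Fin (c + 1) → MP 4, (∀ i, (f i).totalDegree ≤ D) →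
      ∃ a : Fin (c + 1) → MP k, a ≠ 0 ∧ (∀ i, (a i).totalDegree ≤ B) ∧
        ∑ i, aeval y (a i) * f i ∈ I := by
  classical
  obtain ⟨J, hJ⟩ := qsep_exists k c D
  refine ⟨k * J, fun I y hN f hf => ?_⟩
  obtain ⟨-, ι, _, e, h2, h3, -⟩ := hN
  choose p hp hp' using fun i => h3 (f i)
  let Ψ : (Fin (c + 1) × (Fin k → Fin (J + 1)) → ℝ) →ₗ[ℝ] (ι × (Fin k → Fin (J + D + 1)) → ℝ) :=
    Fintype.linearCombination ℝ fun q w => coeff (ex w.2) (monomial (ex q.2) (1 : ℝ) * p q.1 w.1)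
  have hlt : Module.finrank ℝ (ι × (Fin k → Fin (J + D + 1)) → ℝ) <
      Module.finrank ℝ (Fin (c + 1) × (Fin k → Fin (J + 1)) → ℝ) := by
    simp only [Module.finrank_fintype_fun_eq_card, Fintype.card_prod, Fintype.card_fun,
      Fintype.card_fin]
    exact lt_of_le_of_lt (Nat.mul_le_mul_right _ h2) hJ
  obtain ⟨a, ha, ha0⟩ := Submodule.exists_mem_ne_zero_of_ne_bot
    (LinearMap.ker_ne_bot_of_finrank_lt (f := Ψ) hlt)
  let A : Fin (c + 1) → MP k := fun i => ∑ α, monomial (ex α) (a (i, α))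
  have hA : ∀ j, ∑ i, A i * p i j = 0 := by
    intro j
    ext m
    rw [coeff_zero]
    by_contra hm
    have hle : ∀ s, m s ≤ J + D := by
      intro s
      refine (monomial_le_degreeOf s (mem_support_iff.2 hm)).trans
        ((degreeOf_sum_le _ _ _).trans (Finset.sup_le fun i _ => ?_))
      refine (degreeOf_mul_le _ _ _).trans (Nat.add_le_add ?_
        ((degreeOf_le_totalDegree _ _).trans ((hp i j).trans (hf i))))
      refine (degreeOf_sum_le _ _ _).trans (Finset.sup_le fun α _ => ?_)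
      rw [degreeOf_le_iff]
      intro m' hm'
      rw [mem_singleton.1 (support_monomial_subset hm')]
      exact Nat.lt_succ_iff.1 (α s).2
    have h5 : m = ex (fun s => (⟨m s, Nat.lt_succ_of_le (hle s)⟩ : Fin (J + D + 1))) := by
      ext s; rfl
    have h1 : Ψ a = 0 := ha
    have h4 := congrFun h1 (j, fun s => (⟨m s, Nat.lt_succ_of_le (hle s)⟩ : Fin (J + D + 1)))
    simp only [Ψ, Fintype.linearCombination_apply, Finset.sum_apply, Pi.smul_apply,
      Pi.zero_apply, ← h5] at h4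
    apply hm
    rw [← h4, Fintype.sum_prod_type, coeff_sum]
    apply sum_congr rfl
    intro i _
    simp only [A]
    rw [sum_mul, coeff_sum]
    apply sum_congr rfl
    intro α _
    rw [← coeff_smul, ← smul_mul_assoc, smul_monomial, smul_eq_mul, mul_one]
  refine ⟨A, fun h => ha0 ?_, fun i => totalDegree_finsetSum_le fun α _ =>
    totalDegree_monomial_ex α _, ?_⟩
  · funext ⟨i, α⟩
    have h1 := congrArg (coeff (ex α)) (congrFun h i)
    simpa only [A, coeff_sum, coeff_monomial, ex_injective.eq_iff, sum_ite_eq', mem_univ, if_true,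
      coeff_zero, Pi.zero_apply] using h1
  · have h1 : ∑ i, aeval y (A i) * ∑ j, aeval y (p i j) * e j = 0 := by
      simp only [mul_sum]
      rw [sum_comm]
      apply sum_eq_zero
      intro j _
      have h4 := congrArg (aeval y) (hA j)
      rw [map_sum, map_zero] at h4
      simp only [← mul_assoc, ← map_mul]
      rw [← sum_mul, h4, zero_mul]
    have h4 := I.sum_mem (t := univ) fun i _ => I.mul_mem_left (aeval y (A i)) (hp' i)
    simp only [mul_sub] at h4
    rwa [sum_sub_distrib, h1, sub_zero] at h4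

theorem exists_sep (k c D : ℕ) : ∃ B : ℕ, ∀ (I : Ideal (MP 4)) (y : Fin (k + 1) → MP 4),
    Nice 4 (k + 1) c I y → ∀ g : Fin (c + 1) → MP 4, (∀ i, (g i).totalDegree ≤ D) →
      ∃ (i₀ : Fin (c + 1)) (I' : Ideal (MP 4)) (y' : Fin k → MP 4), Nice 4 k B I' y' ∧
        ∀ x, Van I x → eval x (g i₀) = 0 → (∀ j, j ≠ i₀ → eval x (g j) ≠ 0) → Van I' x := by
  classical
  obtain ⟨B, hB⟩ := exists_relation (k + 1) c ((c + 1) * D)
  refine ⟨c * B, fun I y hN g hg => ?_⟩
  obtain ⟨a, ha0, had, ha⟩ := hB I y hN (fun i => ∏ j ∈ univ.erase i, g j) fun i => by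
    refine (totalDegree_finsetProd _ _).trans ((sum_le_card_nsmul _ _ D fun j _ => hg j).trans ?_)
    rw [smul_eq_mul]
    exact Nat.mul_le_mul_right _ ((card_le_univ _).trans (by simp))
  obtain ⟨i₀, hi₀⟩ := Function.ne_iff.1 ha0
  obtain ⟨y', hN'⟩ := hN.step (a i₀) hi₀ (had i₀)
  refine ⟨i₀, _, y', hN', fun x hx h0 h1 => hx.sup ?_⟩
  have h2 := hx _ ha
  rw [map_sum, sum_eq_single i₀, map_mul, map_prod] at h2
  · exact (mul_eq_zero.1 h2).resolve_right
      (prod_ne_zero_iff.2 fun j hj => h1 j (mem_erase.1 hj).1)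
  · intro i _ hi
    rw [map_mul, map_prod, prod_eq_zero (mem_erase.2 ⟨hi.symm, mem_univ _⟩) h0, mul_zero]
  · simp

lemma finite_of_no_three {S : Set ℝ}
    (h : ∀ t₁ ∈ S, ∀ t₂ ∈ S, ∀ t₃ ∈ S, t₁ ≠ t₂ → t₁ ≠ t₃ → t₂ ≠ t₃ → False) : S.Finite := by
  by_contra h1
  obtain ⟨T, hT, hc⟩ := Set.Infinite.exists_subset_card_eq h1 3
  have := card_le_two T fun a ha b hb c hc => h a (hT ha) b (hT hb) c (hT hc)
  omega

/-- A nice curve contains few curves of a family. -/
theorem Fam.card_le {ι : Type} {F : Finset ι} {γ : ι → ℝ → V} {g : ι → MP 4} (h : Fam F γ g)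
    {c : ℕ} {I : Ideal (MP 4)} {y : Fin 1 → MP 4} (hN : Nice 4 1 c I y) (G : Finset ι)
    (hG : G ⊆ F) (hV : ∀ Z ∈ G, {t | ¬ Van I (γ Z t)}.Finite) : #G ≤ c := by
  classical
  by_contra hlt
  obtain ⟨G', hG', hc⟩ := exists_subset_card_eq (show c + 1 ≤ #G by omega)
  let e : Fin (c + 1) → ι := fun i => (G'.equivFinOfCardEq hc).symm i
  have he : ∀ i, e i ∈ G := fun i => hG' ((G'.equivFinOfCardEq hc).symm i).2
  have hinj : Function.Injective e :=
    Subtype.val_injective.comp (G'.equivFinOfCardEq hc).symm.injective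
  obtain ⟨B, hB⟩ := exists_sep 0 c 4
  obtain ⟨i₀, I', y', hN', hI'⟩ := hB I y hN (fun i => g (e i)) fun i => h.deg _ (hG (he i))
  have hfin : {t | ¬ Van I' (γ (e i₀) t)}.Finite := by
    refine ((hV _ (he i₀)).union (Set.finite_iUnion (f := fun j =>
      {t | j ≠ i₀ ∧ eval (γ (e i₀) t) (g (e j)) = 0}) fun j => ?_)).subset fun t ht => ?_
    · exact finite_of_no_three fun t₁ h₁ t₂ h₂ t₃ h₃ a1 a2 a3 => h.sep _ (hG (he i₀)) _ (hG (he j))
        (fun hh => h₁.1 (hinj hh).symm) t₁ t₂ t₃ a1 a2 a3 h₁.2 h₂.2 h₃.2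
    · by_contra hn
      simp only [Set.mem_union, Set.mem_iUnion, Set.mem_ofPred_eq, not_or, not_not, not_exists,
        not_and] at hn
      exact ht (hI' _ hn.1 (h.zero _ (hG (he i₀)) t) hn.2)
  obtain ⟨T, hT, hTc⟩ := hfin.infinite_compl.exists_subset_card_eq (B + 1)
  have h1 := hN'.card_le (T.image (γ (e i₀))) fun x hx => by
    obtain ⟨t, ht, rfl⟩ := mem_image.1 hx
    exact not_not.1 (hT ht)
  rw [card_image_of_injective _ (h.inj _ (hG (he i₀))), hTc] at h1
  omega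

end Pool.Agent.P.MP_f7c707_co
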