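import Pool.Agent.P.MP_f7c707_co.QDefs

/-!
Star triangles with vertices in three sets.
-/

namespace Pool.Agent.P.MP_f7c707_co

open Finset MvPolynomial Pool.Agent.Lib.PolyPart

lemma sum_sq_le' {α β : Type*} [DecidableEq α] [DecidableEq β] (Y : β → Finset α) (B : Finset β)
    (P : Finset α) (hY : ∀ x ∈ B, Y x ⊆ P)
    (h : ∀ x ∈ B, ∀ x' ∈ B, x ≠ x' → #(Y x ∩ Y x') ≤ 2) :
    ∑ x ∈ B, #(Y x) ^ 2 ≤ 2 * #P ^ 2 + 16 * #B * #P := by
  set n := #P with hn'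
  rcases Nat.eq_zero_or_pos n with hn | hn
  · have : ∀ x ∈ B, #(Y x) ^ 2 = 0 := fun x hx => by
      have := card_le_card (hY x hx)
      rw [show #(Y x) = 0 by omega]
      rfl
    rw [sum_congr rfl this]
    simp
  set m := n.sqrt with hm
  have hm1 : m * m ≤ n := Nat.sqrt_le n
  have hm2 : n < (m + 1) * (m + 1) := Nat.lt_succ_sqrt n
  have hm3 : 1 ≤ m := Nat.sqrt_pos.2 hn
  have hU : ∀ B' ⊆ B, ∑ x ∈ B', #(Y x) ≤ n + #B' ^ 2 := by
    intro B' hB'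
    refine (bonferroni Y B' fun x hx x' hx' => h x (hB' hx) x' (hB' hx')).trans ?_
    exact Nat.add_le_add_right (card_le_card (biUnion_subset.2 fun x hx => hY x (hB' hx))) _
  set G := {x ∈ B | 2 * (m + 1) < #(Y x)} with hG
  have hGc : #G ≤ m := by
    by_contra h1
    obtain ⟨B', hB', hc⟩ := exists_subset_card_eq (show m + 1 ≤ #G by omega)
    have h2 := hU B' (hB'.trans (filter_subset _ _))
    have h3 := card_nsmul_le_sum B' (fun x => #(Y x)) (2 * (m + 1))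
      fun x hx => (mem_filter.1 (hB' hx)).2.le
    rw [hc] at h2 h3
    rw [smul_eq_mul] at h3
    nlinarith
  rw [← sum_filter_add_sum_filter_not B (fun x => 2 * (m + 1) < #(Y x))]
  have e1 : ∑ x ∈ G, #(Y x) ^ 2 ≤ 2 * n ^ 2 := by
    calc ∑ x ∈ G, #(Y x) ^ 2 ≤ ∑ x ∈ G, n * #(Y x) := by
          apply sum_le_sum
          intro x hx
          rw [sq]
          exact Nat.mul_le_mul_right _ (card_le_card (hY x (mem_filter.1 hx).1))
      _ = n * ∑ x ∈ G, #(Y x) := by rw [mul_sum]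
      _ ≤ n * (n + n) := by
          apply Nat.mul_le_mul_left
          refine (hU G (filter_subset _ _)).trans (Nat.add_le_add_left ?_ _)
          nlinarith
      _ = _ := by ring
  have e2 : ∑ x ∈ B with ¬ 2 * (m + 1) < #(Y x), #(Y x) ^ 2 ≤ 16 * #B * n := by
    have := sum_le_card_nsmul {x ∈ B | ¬ 2 * (m + 1) < #(Y x)} (fun x => #(Y x) ^ 2) (16 * n)
      fun x hx => by
        have h1 := Nat.pow_le_pow_left (not_lt.1 (mem_filter.1 hx).2) 2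
        nlinarith
    refine this.trans ?_
    rw [smul_eq_mul]
    have h2 := card_filter_le B fun x => ¬ 2 * (m + 1) < #(Y x)
    calc _ ≤ #B * (16 * n) := Nat.mul_le_mul_right _ h2
      _ = _ := by ring
  exact Nat.add_le_add e1 e2

lemma qtri_three {α : Type*} (S : Finset α) (x y z : α → V) (X Y Z : Finset V) (p q r : ℝ)
    (Q : V → Pl) (hinj : ∀ s ∈ S, ∀ t ∈ S, x s = x t → y s = y t → z s = z t → s = t)
    (hS : ∀ s ∈ S, x s ∈ X ∧ y s ∈ Y ∧ z s ∈ Z ∧ d2 (x s) (y s) = p ∧ d2 (x s) (z s) = q ∧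
      d2 (y s) (z s) = r ∧ InPl (Q (x s)) (z s)) :
    ∃ w : ℕ, #S ≤ 2 * (#X * #Y) + 2 * (#X * #Z) + w ∧
      w ^ 2 ≤ (2 * #Y ^ 2 + 16 * #X * #Y) * (2 * #Z ^ 2 + 16 * #X * #Z) := by
  classical
  have h1 : #{s ∈ S | ¬ Ax (Q (x s)) (x s) (y s)} ≤ 2 * #(X ×ˢ Y) := by
    apply card_le_two_mul _ (fun s => (x s, y s))
    · intro s hs
      have := hS s (mem_filter.1 hs).1
      exact mem_product.2 ⟨this.1, this.2.1⟩
    · intro a ha b hb c hc g1 g2 g3 e1 e2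
      rw [mem_filter] at ha hb hc
      simp only [Prod.mk.injEq] at e1 e2
      obtain ⟨-, -, -, -, a1, a2, a3⟩ := hS a ha.1
      obtain ⟨-, -, -, -, b1, b2, b3⟩ := hS b hb.1
      obtain ⟨-, -, -, -, c1, c2, c3⟩ := hS c hc.1
      simp only [e1.1, e1.2, e2.1, e2.2] at b1 b2 b3 c1 c2 c3
      exact ha.2 (ax_of_three (fun h => g1 (hinj a ha.1 b hb.1 e1.1.symm e1.2.symm h))
        (fun h => g2 (hinj a ha.1 c hc.1 e2.1.symm e2.2.symm h))
        (fun h => g3 (hinj b hb.1 c hc.1 (e1.1.trans e2.1.symm) (e1.2.trans e2.2.symm) h))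
        a3 b3 c3 a1 b1 c1 a2 b2 c2)
  have h2 : #{s ∈ S | Ax (Q (x s)) (x s) (y s) ∧ ¬ InPl (Q (x s)) (x s)} ≤ 2 * #(X ×ˢ Z) := by
    apply card_le_two_mul _ (fun s => (x s, z s))
    · intro s hs
      have := hS s (mem_filter.1 hs).1
      exact mem_product.2 ⟨this.1, this.2.2.1⟩
    · intro a ha b hb c hc g1 g2 g3 e1 e2
      rw [mem_filter] at ha hb hc
      simp only [Prod.mk.injEq] at e1 e2
      obtain ⟨-, -, -, a1, -, a2, α, β, a3⟩ := hS a ha.1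
      obtain ⟨-, -, -, b1, -, b2, -⟩ := hS b hb.1
      obtain ⟨-, -, -, c1, -, c2, -⟩ := hS c hc.1
      have b3 := hb.2.1
      have c3 := hc.2.1
      simp only [e1.1, e1.2, e2.1, e2.2] at b1 b2 b3 c1 c2 c3
      rw [d2_comm] at a1 b1 c1
      have hw := ind2_of_cospherical a1 b1 c1
        (fun h => g1 (hinj a ha.1 b hb.1 e1.1.symm h e1.2.symm))
        (fun h => g2 (hinj a ha.1 c hc.1 e2.1.symm h e2.2.symm))
        (fun h => g3 (hinj b hb.1 c hc.1 (e1.1.trans e2.1.symm) h (e1.2.trans e2.2.symm)))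
      have k1 := b3.sub ha.2.1
      have k2 := c3.sub ha.2.1
      have hn : ¬ Ind3 (Q (x a)).2.1 (Q (x a)).2.2 (z a - x a) := fun hi =>
        no_five hi hw (by rw [dotProduct_comm, k1.1]) (by rw [dotProduct_comm, k2.1])
          (by rw [dotProduct_comm, k1.2]) (by rw [dotProduct_comm, k2.2])
          (by rw [dotProduct_comm]; exact perp_of_d2 (by rw [b2, b1, a2, a1]))
          (by rw [dotProduct_comm]; exact perp_of_d2 (by rw [c2, c1, a2, a1]))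
      obtain ⟨α', β', hh⟩ := ha.2.1.1.exists_of_not_ind3 hn
      refine ha.2.2 ⟨α - α', β - β', ?_⟩
      have : x a = z a - (z a - x a) := by abel
      conv_lhs => rw [this, hh, a3]
      rw [sub_smul, sub_smul]; abel
  have h3 : #{s ∈ S | Ax (Q (x s)) (x s) (y s) ∧ InPl (Q (x s)) (x s)} ^ 2 ≤
      (2 * #Y ^ 2 + 16 * #X * #Y) * (2 * #Z ^ 2 + 16 * #X * #Z) := by
    let B : Finset V := {a ∈ X | InPl (Q a) a}
    let U : V → Finset V := fun a => {b ∈ Y | d2 b a = p ∧ Ax (Q a) a b}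
    let W : V → Finset V := fun a => {c ∈ Z | d2 c a = q ∧ InPl (Q a) c}
    have hB : #B ≤ #X := card_filter_le _ _
    have hU := sum_sq_le' U B Y (fun _ _ => filter_subset _ _) (by
      intro a _ a' _ hne
      apply card_le_two
      intro b₁ h₁ b₂ h₂ b₃ h₃ g1 g2 g3
      simp only [U, mem_inter, mem_filter] at h₁ h₂ h₃
      have aux : ∀ a, Ax (Q a) a b₁ → Ax (Q a) a b₂ → Ax (Q a) a b₃ →
          ¬ Ind3 (b₂ - b₁) (b₃ - b₁) (a - b₁) := fun a k1 k2 k3 hi =>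
        no_five hi k1.1 (k2.sub k1).1 (k2.sub k1).2 (k3.sub k1).1 (k3.sub k1).2
          (by rw [← neg_sub, neg_dotProduct, k1.2.1, neg_zero])
          (by rw [← neg_sub, neg_dotProduct, k1.2.2, neg_zero])
      exact hne (center_eq g1 g2 g3 h₁.1.2.1 h₂.1.2.1 h₃.1.2.1 h₁.2.2.1 h₂.2.2.1 h₃.2.2.1
        (aux a h₁.1.2.2 h₂.1.2.2 h₃.1.2.2) (aux a' h₁.2.2.2 h₂.2.2.2 h₃.2.2.2)))
    have hW := sum_sq_le' W B Z (fun _ _ => filter_subset _ _) (by
      intro a ha a' ha' hne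
      apply card_le_two
      intro b₁ h₁ b₂ h₂ b₃ h₃ g1 g2 g3
      simp only [W, mem_inter, mem_filter] at h₁ h₂ h₃
      have aux : ∀ a, InPl (Q a) a → InPl (Q a) b₁ → InPl (Q a) b₂ → InPl (Q a) b₃ →
          ¬ Ind3 (b₂ - b₁) (b₃ - b₁) (a - b₁) := fun a k0 k1 k2 k3 =>
        not_ind3_of_span (k2.sub k1) (k3.sub k1) (k0.sub k1)
      exact hne (center_eq g1 g2 g3 h₁.1.2.1 h₂.1.2.1 h₃.1.2.1 h₁.2.2.1 h₂.2.2.1 h₃.2.2.1
        (aux a (mem_filter.1 ha).2 h₁.1.2.2 h₂.1.2.2 h₃.1.2.2)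
        (aux a' (mem_filter.1 ha').2 h₁.2.2.2 h₂.2.2.2 h₃.2.2.2)))
    have h4 : #{s ∈ S | Ax (Q (x s)) (x s) (y s) ∧ InPl (Q (x s)) (x s)} ≤
        #(B.sigma fun a => U a ×ˢ W a) := by
      apply card_le_card_of_injOn (fun s => ⟨x s, y s, z s⟩)
      · intro s hs
        obtain ⟨h5, h6, h7⟩ := mem_filter.1 (mem_coe.1 hs)
        obtain ⟨a1, a2, a3, a4, a5, -, a7⟩ := hS s h5
        rw [d2_comm] at a4 a5
        exact mem_coe.2 (mem_sigma.2 ⟨mem_filter.2 ⟨a1, h7⟩,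
          mem_product.2 ⟨mem_filter.2 ⟨a2, a4, h6⟩, mem_filter.2 ⟨a3, a5, a7⟩⟩⟩)
      · intro s hs t ht hst
        simp only [Sigma.mk.injEq, heq_eq_eq, Prod.mk.injEq] at hst
        exact hinj s (mem_filter.1 (mem_coe.1 hs)).1 t (mem_filter.1 (mem_coe.1 ht)).1
          hst.1 hst.2.1 hst.2.2
    refine (Nat.pow_le_pow_left h4 2).trans ?_
    rw [card_sigma]
    simp only [card_product]
    refine (sum_mul_sq_le_sq_mul_sq B (fun a => #(U a)) (fun a => #(W a))).trans ?_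
    exact Nat.mul_le_mul (hU.trans (by gcongr)) (hW.trans (by gcongr))
  have h5 := card_filter_add_card_filter_not (s := S) (fun s => Ax (Q (x s)) (x s) (y s))
  have h6 := card_filter_add_card_filter_not (s := {s ∈ S | Ax (Q (x s)) (x s) (y s)})
    (fun s => InPl (Q (x s)) (x s))
  rw [filter_filter, filter_filter] at h6
  rw [card_product] at h1 h2
  exact ⟨_, by omega, h3⟩

lemma simple_three' {α : Type*} (S : Finset α) (x y z : α → V) (X Y Z : Finset V) (p q r : ℝ)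
    (Q : V → Pl) (hinj : ∀ s ∈ S, ∀ t ∈ S, x s = x t → y s = y t → z s = z t → s = t)
    (hS : ∀ s ∈ S, x s ∈ X ∧ y s ∈ Y ∧ z s ∈ Z ∧ d2 (x s) (y s) = p ∧ d2 (x s) (z s) = q ∧
      d2 (y s) (z s) = r ∧ InPl (Q (x s)) (z s)) {n h : ℝ} (hh : h ≤ n)
    (hc : (#X ≤ n ∧ #Y ≤ h ∧ #Z ≤ h) ∨ (#X ≤ h ∧ #Y ≤ n ∧ #Z ≤ h) ∨ (#X ≤ h ∧ #Y ≤ h ∧ #Z ≤ n)) :
    (#S : ℝ) ≤ 22 * (n * h) := by
  obtain ⟨w, h1, h2⟩ := qtri_three S x y z X Y Z p q r Q hinj hS
  have h3 : (#S : ℝ) ≤ 2 * (#X * #Y) + 2 * (#X * #Z) + w := by exact_mod_cast h1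
  have h4 : (w : ℝ) ^ 2 ≤ (2 * #Y ^ 2 + 16 * #X * #Y) * (2 * #Z ^ 2 + 16 * #X * #Z) := by
    exact_mod_cast h2
  have hX : (0 : ℝ) ≤ #X := by positivity
  have hY : (0 : ℝ) ≤ #Y := by positivity
  have hZ : (0 : ℝ) ≤ #Z := by positivity
  have h0 : 0 ≤ h := by rcases hc with k | k | k <;> linarith [k.1, k.2.1, k.2.2, k.2.1]
  have hn : 0 ≤ n := h0.trans hh
  have hhh : h * h ≤ n * h := mul_le_mul_of_nonneg_right hh h0
  have key : ∀ {a b A B : ℝ}, 0 ≤ a → 0 ≤ b → a ≤ A → b ≤ B → a * b ≤ A * B :=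
    fun ha hb h1 h2 => mul_le_mul h1 h2 hb (ha.trans h1)
  have fin : ∀ A B : ℝ, 2 * (#Y : ℝ) ^ 2 + 16 * #X * #Y ≤ 18 * A →
      2 * (#Z : ℝ) ^ 2 + 16 * #X * #Z ≤ 18 * B → A * B = (n * h) ^ 2 →
      (#X : ℝ) * #Y ≤ n * h → (#X : ℝ) * #Z ≤ n * h → (#S : ℝ) ≤ 22 * (n * h) := by
    intro A B k1 k2 k3 k4 k5
    have k6 := h4.trans (key (by positivity) (by positivity) k1 k2)
    have k7 : (w : ℝ) ≤ 18 * (n * h) :=
      le_of_pow_le_pow_left₀ two_ne_zero (by positivity) (k6.trans (by nlinarith))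
    linarith
  rcases hc with ⟨k1, k2, k3⟩ | ⟨k1, k2, k3⟩ | ⟨k1, k2, k3⟩
  · refine fin (n * h) (n * h) ?_ ?_ (by ring) (key hX hY k1 k2) (key hX hZ k1 k3)
    · linarith [key hX hY k1 k2, key hY hY k2 k2, sq (#Y : ℝ)]
    · linarith [key hX hZ k1 k3, key hZ hZ k3 k3, sq (#Z : ℝ)]
  · refine fin (n * n) (h * h) ?_ ?_ (by ring) ?_ ?_
    · linarith [key hX hY (k1.trans hh) k2, key hY hY k2 k2, sq (#Y : ℝ)]
    · linarith [key hX hZ k1 k3, key hZ hZ k3 k3, sq (#Z : ℝ)]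
    · linarith [key hX hY k1 k2]
    · linarith [key hX hZ k1 k3]
  · refine fin (h * h) (n * n) ?_ ?_ (by ring) ?_ ?_
    · linarith [key hX hY k1 k2, key hY hY k2 k2, sq (#Y : ℝ)]
    · linarith [key hX hZ (k1.trans hh) k3, key hZ hZ k3 k3, sq (#Z : ℝ)]
    · linarith [key hX hY k1 k2]
    · linarith [key hX hZ k1 k3]

end Pool.Agent.P.MP_f7c707_co
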