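import Pool.Agent.P.MP_f7c707_co.QTri

/-!
Triangles with two vertices in small sets.
-/

namespace Pool.Agent.P.MP_f7c707_co

open Finset MvPolynomial Pool.Agent.Lib.PolyPart

theorem ev_P6m : Ev P6m := by
  classical
  refine ((ev_P3.and ev_P4').and ev_log).pow (352 + 3 * 4 ^ 5) 7
    fun n Λ Λ' hn hΛ hΛ' ⟨⟨h3, h4⟩, hlog⟩ X Y Z p q r h ν hX hY hZ hh hν hνn hr => ?_
  obtain ⟨μ, hμ, hμn, hμν⟩ : ∃ μ : ℝ, 1 ≤ μ ∧ μ ^ 20 = n ∧ ν ^ 15200 = μ ^ 38 :=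
    ⟨ν ^ 400, one_le_pow₀ hν, by rw [← pow_mul, ← hνn], by rw [← pow_mul]⟩
  rw [hμν]
  have h0 : 0 ≤ h := le_trans (by positivity) hY
  have hYn := hY.trans hh
  have hZn := hZ.trans hh
  have key := halving (fun D => (#{t ∈ tri3 X Y Z p q r | t.2.2 ∈ D} : ℝ)) Z
    ((352 + 3 * 4 ^ 5) * Λ ^ 6 * (n * h + μ ^ 38)) (by positivity) (by simp) ?_ hn hZn hlog
  · rw [filter_true_of_mem fun t ht => (mem_tri3.1 ht).1.2.2] at key
    refine key.trans ?_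
    rw [← mul_assoc]
    apply mul_le_mul_of_nonneg_right _ (by positivity)
    refine le_trans (le_of_eq ?_) hΛ'
    push_cast; ring
  intro D hD hne
  have hDn : (#D : ℝ) ≤ n := le_trans (by exact_mod_cast card_le_card hD) hZn
  obtain ⟨ξ, hξ, hξn⟩ := exists_xi hn hDn hne
  obtain ⟨Q₁, Q₁', c₁⟩ := h4 X D q hX hDn hne ξ hξ hξn
  obtain ⟨Q₂, Q₂', c₂⟩ := h4 Y D r hYn hDn hne ξ hξ hξn
  set E₁ : V → V → Prop :=
    fun x d => d2 x d = q ∧ (∀ i, ¬ InPl (Q₁ x i) d) ∧ ∀ i, ¬ InPl (Q₁' d i) x with hE₁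
  set E₂ : V → V → Prop :=
    fun x d => d2 x d = r ∧ (∀ i, ¬ InPl (Q₂ x i) d) ∧ ∀ i, ¬ InPl (Q₂' d i) x with hE₂
  let g : V → ℝ := fun d => #(nbr X E₁ d) + #(nbr Y E₂ d)
  have hg := markov D g (2 * Λ * ξ ^ 3) (by positivity) (fun a => by positivity) (by
    simp only [g, cnt] at c₁ c₂ ⊢
    rw [sum_add_distrib]
    linarith)
  refine ⟨_, filter_subset _ _, hg, ?_⟩
  set D' := {d ∈ D | 2 * (2 * Λ * ξ ^ 3) < g d} with hD'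
  set S := {t ∈ tri3 X Y Z p q r | t.2.2 ∈ D} with hS
  have hSm : ∀ t ∈ S, (t.1 ∈ X ∧ t.2.1 ∈ Y ∧ t.2.2 ∈ Z) ∧
      d2 t.1 t.2.1 = p ∧ d2 t.1 t.2.2 = q ∧ d2 t.2.1 t.2.2 = r :=
    fun t ht => mem_tri3.1 (mem_filter.1 ht).1
  have simple : ∀ (x y z : V × V × V → V) (A B C : Finset V) (a b c : ℝ) (Q : V → Fin 4 → Pl),
      ((#A ≤ n ∧ #B ≤ h ∧ #C ≤ h) ∨ (#A ≤ h ∧ #B ≤ n ∧ #C ≤ h) ∨ (#A ≤ h ∧ #B ≤ h ∧ #C ≤ n)) →
      (∀ s t, x s = x t → y s = y t → z s = z t → s = t) →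
      (∀ s ∈ S, x s ∈ A ∧ y s ∈ B ∧ z s ∈ C ∧ d2 (x s) (y s) = a ∧ d2 (x s) (z s) = b ∧
        d2 (y s) (z s) = c) →
      (#{s ∈ S | ∃ i, InPl (Q (x s) i) (z s)} : ℝ) ≤ 4 * (22 * (n * h)) := by
    intro x y z A B C a b c Q hc h1 h2
    convert card_exists_le S (fun i s => InPl (Q (x s) i) (z s)) _ fun i => ?_
    exact simple_three' _ x y z A B C a b c (fun v => Q v i) (fun s _ t _ => h1 s t)
      (fun s hs => by
        obtain ⟨k1, k2, k3, k4, k5, k6⟩ := h2 s (mem_filter.1 hs).1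
        exact ⟨k1, k2, k3, k4, k5, k6, (mem_filter.1 hs).2⟩) hh hc
  have s1 := simple (·.1) (·.2.1) (·.2.2) X Y Z p q r Q₁ (Or.inl ⟨hX, hY, hZ⟩)
    (fun s t h1 h2 h3 => Prod.ext h1 (Prod.ext h2 h3))
    (fun s hs => by obtain ⟨⟨k1, k2, k3⟩, k4, k5, k6⟩ := hSm s hs; exact ⟨k1, k2, k3, k4, k5, k6⟩)
  have s2 := simple (·.2.2) (·.2.1) (·.1) Z Y X r q p Q₁' (Or.inr (Or.inr ⟨hZ, hY, hX⟩))
    (fun s t h1 h2 h3 => Prod.ext h3 (Prod.ext h2 h1))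
    (fun s hs => by
      obtain ⟨⟨k1, k2, k3⟩, k4, k5, k6⟩ := hSm s hs
      exact ⟨k3, k2, k1, d2_comm _ _ ▸ k6, d2_comm _ _ ▸ k5, d2_comm _ _ ▸ k4⟩)
  have s3 := simple (·.2.1) (·.1) (·.2.2) Y X Z p r q Q₂ (Or.inr (Or.inl ⟨hY, hX, hZ⟩))
    (fun s t h1 h2 h3 => Prod.ext h2 (Prod.ext h1 h3))
    (fun s hs => by
      obtain ⟨⟨k1, k2, k3⟩, k4, k5, k6⟩ := hSm s hs
      exact ⟨k2, k1, k3, d2_comm _ _ ▸ k4, k6, k5⟩)
  have s4 := simple (·.2.2) (·.1) (·.2.1) Z X Y q r p Q₂' (Or.inr (Or.inl ⟨hZ, hX, hY⟩))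
    (fun s t h1 h2 h3 => Prod.ext h2 (Prod.ext h3 h1))
    (fun s hs => by
      obtain ⟨⟨k1, k2, k3⟩, k4, k5, k6⟩ := hSm s hs
      exact ⟨k3, k1, k2, d2_comm _ _ ▸ k5, d2_comm _ _ ▸ k6, k4⟩)
  set H := {t ∈ S | t.2.2 ∉ D' ∧ E₁ t.1 t.2.2 ∧ E₂ t.2.1 t.2.2} with hH
  obtain ⟨hθ, hθ3⟩ := le_cube (a := 4) (by norm_num) hΛ hξ
  obtain ⟨φ, hφ, hφθ⟩ := exists_root 4 (by norm_num) hθ
  have hμξ : μ ^ 4 ≤ ξ := by
    refine le_of_pow_le_pow_left₀ (show 5 ≠ 0 by norm_num) (by linarith) ?_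
    refine le_of_mul_le_mul_right ?_ (show 0 < n by linarith)
    calc (μ ^ 4) ^ 5 * n = n ^ 2 := by rw [← pow_mul, hμn, sq]
      _ = ξ ^ 5 * #D := hξn.symm
      _ ≤ _ := mul_le_mul_of_nonneg_left hDn (by positivity)
  have hμφ : μ ≤ φ := by
    refine le_of_pow_le_pow_left₀ (show 4 ≠ 0 by norm_num) (by linarith) (hμξ.trans ?_)
    rw [hφθ]
    exact le_mul_of_one_le_left (by linarith) (by linarith)
  have hDφ : #D * φ ^ 18 ≤ 4 ^ 5 * Λ ^ 5 * μ ^ 38 := by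
    refine le_of_mul_le_mul_right ?_ (show 0 < μ ^ 2 by positivity)
    calc #D * φ ^ 18 * μ ^ 2 ≤ #D * φ ^ 18 * φ ^ 2 := by gcongr
      _ = #D * (φ ^ 4) ^ 5 := by ring
      _ = 4 ^ 5 * Λ ^ 5 * (ξ ^ 5 * #D) := by rw [hφθ]; ring
      _ = _ := by rw [hξn, ← hμn]; ring
  have s5 : (#H : ℝ) ≤ 3 * 4 ^ 5 * Λ ^ 6 * μ ^ 38 := by
    have a1 : #H ≤ #((D \ D').sigma fun d => (nbr X E₁ d).sigma fun a => nb (nbr Y E₂ d) a p) := by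
      apply card_le_card_of_injOn (fun t => ⟨t.2.2, t.1, t.2.1⟩)
      · intro t ht
        obtain ⟨k1, k2, k3, k4⟩ := mem_filter.1 (mem_coe.1 ht)
        obtain ⟨⟨m1, m2, -⟩, m4, -⟩ := hSm t k1
        exact mem_coe.2 (mem_sigma.2 ⟨mem_sdiff.2 ⟨(mem_filter.1 k1).2, k2⟩,
          mem_sigma.2 ⟨mem_nbr.2 ⟨m1, k3⟩, mem_nb.2 ⟨mem_nbr.2 ⟨m2, k4⟩, d2_comm _ _ ▸ m4⟩⟩⟩)
      · intro s _ t _ hst
        simp only [Sigma.mk.injEq, heq_eq_eq] at hst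
        exact Prod.ext hst.2.1 (Prod.ext hst.2.2 hst.1)
    simp only [card_sigma] at a1
    have a2 : (#H : ℝ) ≤ ∑ d ∈ D \ D', ∑ a ∈ nbr X E₁ d, (#(nb (nbr Y E₂ d) a p) : ℝ) := by
      exact_mod_cast a1
    have a3 := sum_le_card_nsmul (D \ D')
      (fun d => ∑ a ∈ nbr X E₁ d, (#(nb (nbr Y E₂ d) a p) : ℝ)) (Λ * (3 * φ ^ 18)) (by
        intro d hd
        have k : g d ≤ φ ^ 12 := by
          have := (mem_sdiff.1 hd).2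
          rw [hD', mem_filter, not_and, not_lt] at this
          have e0 : (4 * Λ * ξ) ^ 3 = φ ^ 12 := by rw [← hφθ, ← pow_mul]
          linarith [this (mem_sdiff.1 hd).1]
        have k1 : (0 : ℝ) ≤ #(nbr X E₁ d) := by positivity
        have k2 : (0 : ℝ) ≤ #(nbr Y E₂ d) := by positivity
        simp only [g] at k
        refine (h3 (nbr Y E₂ d) (nbr X E₁ d) d r q p ((card_nbr_le _ _ _).trans hYn) hr
          (fun b hb => (mem_nbr.1 hb).2.1) (fun b hb => (mem_nbr.1 hb).2.1) (φ ^ 3)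
          (one_le_pow₀ hφ)).trans ?_
        apply mul_le_mul_of_nonneg_left _ (by linarith)
        have k3 : φ ^ 12 ≤ φ ^ 18 := pow_le_pow_right₀ hφ (by norm_num)
        have e1 : (#(nbr X E₁ d) : ℝ) * (φ ^ 3) ^ 2 ≤ φ ^ 18 := by
          calc _ ≤ φ ^ 12 * (φ ^ 3) ^ 2 := mul_le_mul_of_nonneg_right (by linarith) (by positivity)
            _ = _ := by ring
        have e2 : (#(nbr Y E₂ d) : ℝ) ^ 3 / (φ ^ 3) ^ 6 ≤ φ ^ 18 := by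
          rw [div_le_iff₀ (by positivity)]
          calc _ ≤ (φ ^ 12) ^ 3 := pow_le_pow_left₀ k2 (by linarith) 3
            _ = _ := by ring
        linarith)
    refine a2.trans (a3.trans ?_)
    rw [nsmul_eq_mul]
    calc _ ≤ #D * (Λ * (3 * φ ^ 18)) := mul_le_mul_of_nonneg_right
          (by exact_mod_cast card_le_card sdiff_subset) (by positivity)
      _ = 3 * Λ * (#D * φ ^ 18) := by ring
      _ ≤ 3 * Λ * (4 ^ 5 * Λ ^ 5 * μ ^ 38) := mul_le_mul_of_nonneg_left hDφ (by positivity)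
      _ = _ := by ring
  have s6 := card_le_list [{s ∈ S | ∃ i, InPl (Q₁ s.1 i) s.2.2},
    {s ∈ S | ∃ i, InPl (Q₁' s.2.2 i) s.1}, {s ∈ S | ∃ i, InPl (Q₂ s.2.1 i) s.2.2},
    {s ∈ S | ∃ i, InPl (Q₂' s.2.2 i) s.2.1}, H, {t ∈ tri3 X Y Z p q r | t.2.2 ∈ D'}] S (by
      intro s hs
      simp only [List.mem_cons, List.not_mem_nil, or_false, exists_eq_or_imp, exists_eq_left,
        mem_filter, hH, hE₁, hE₂]
      by_contra hcon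
      push Not at hcon
      obtain ⟨k1, k2, k3, k4, k5, k6⟩ := hcon
      obtain ⟨-, -, m5, m6⟩ := hSm s hs
      obtain ⟨i, hi⟩ := k5 hs (k6 (mem_filter.1 hs).1) ⟨m5, k1 hs, k2 hs⟩ m6 (k3 hs)
      exact k4 hs i hi)
  simp only [List.map_cons, List.map_nil, List.sum_cons, List.sum_nil, add_zero] at s6
  have s7 : (#S : ℝ) ≤ _ := Nat.cast_le.2 s6
  push_cast at s7
  have hnh : 0 ≤ n * h := by positivity
  have hΛ6 : n * h ≤ Λ ^ 6 * (n * h) := le_mul_of_one_le_left hnh (one_le_pow₀ hΛ)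
  have p1 : 0 ≤ Λ ^ 6 * μ ^ 38 := by positivity
  linarith

end Pool.Agent.P.MP_f7c707_co
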