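import Pool.Agent.P.MP_f7c707_co.Simple

/-!
Equilateral subsets, and pairs of circles at constant distance.
-/

namespace Pool.Agent.P.MP_f7c707_co

open Finset Pool.Agent.Lib.PolyPart

open Classical in
/-- The `k`-point subsets all of whose squared distances equal `ρ`. -/
noncomputable def Cl (ρ : ℝ) (X : Finset V) (k : ℕ) : Finset (Finset V) :=
  {T ∈ X.powersetCard k | ∀ a ∈ T, ∀ b ∈ T, a ≠ b → d2 a b = ρ}

lemma mem_Cl {ρ : ℝ} {X T : Finset V} {k : ℕ} :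
    T ∈ Cl ρ X k ↔ T ⊆ X ∧ #T = k ∧ ∀ a ∈ T, ∀ b ∈ T, a ≠ b → d2 a b = ρ := by
  classical
  unfold Cl
  rw [mem_filter, mem_powersetCard, and_assoc]

lemma disjoint_of_cross {ρ : ℝ} (hρ : ρ ≠ 0) {A B : Finset V}
    (h : ∀ a ∈ A, ∀ b ∈ B, d2 a b = ρ) : Disjoint A B :=
  disjoint_left.2 fun a ha hb => hρ (by rw [← h a ha a hb, d2_self])

lemma card_Cl_union {ρ : ℝ} (hρ : ρ ≠ 0) {A B : Finset V} (h : ∀ a ∈ A, ∀ b ∈ B, d2 a b = ρ)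
    (k : ℕ) : #(Cl ρ (A ∪ B) k) = ∑ j ∈ range (k + 1), #(Cl ρ A j) * #(Cl ρ B (k - j)) := by
  have hd := disjoint_of_cross hρ h
  have e : ∑ j ∈ range (k + 1), #(Cl ρ A j) * #(Cl ρ B (k - j)) =
      #((range (k + 1)).sigma fun j => Cl ρ A j ×ˢ Cl ρ B (k - j)) := by
    simp only [card_sigma, card_product]
  rw [e]
  apply card_nbij' (fun T => ⟨#(T ∩ A), T ∩ A, T ∩ B⟩) (fun p => p.2.1 ∪ p.2.2)
  · intro T hT
    obtain ⟨h1, h2, h3⟩ := mem_Cl.1 (mem_coe.1 hT)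
    have h4 : #(T ∩ A) + #(T ∩ B) = k := by
      rw [← card_union_of_disjoint (hd.mono inter_subset_right inter_subset_right),
        ← inter_union_distrib_left, inter_eq_left.2 h1, h2]
    refine mem_coe.2 (mem_sigma.2 ⟨mem_range.2 (by dsimp only; omega), mem_product.2
      ⟨mem_Cl.2 ⟨inter_subset_right, rfl, fun a ha b hb => ?_⟩,
        mem_Cl.2 ⟨inter_subset_right, by dsimp only; omega, fun a ha b hb => ?_⟩⟩⟩) <;>
    exact h3 a (mem_inter.1 ha).1 b (mem_inter.1 hb).1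
  · rintro ⟨j, S, U⟩ hp
    obtain ⟨h0, h1⟩ := mem_sigma.1 (mem_coe.1 hp)
    obtain ⟨⟨s1, s2, s3⟩, u1, u2, u3⟩ := (mem_product.1 h1).imp mem_Cl.1 mem_Cl.1
    rw [mem_range] at h0
    dsimp only at h0 s1 s2 s3 u1 u2 u3
    refine mem_coe.2 (mem_Cl.2 ⟨union_subset_union s1 u1, ?_, fun a ha b hb hab => ?_⟩)
    · rw [card_union_of_disjoint (hd.mono s1 u1)]; omega
    · rcases mem_union.1 ha with ha | ha <;> rcases mem_union.1 hb with hb | hb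
      exacts [s3 a ha b hb hab, h a (s1 ha) b (u1 hb), d2_comm _ _ ▸ h b (s1 hb) a (u1 ha),
        u3 a ha b hb hab]
  · intro T hT
    dsimp only
    rw [← inter_union_distrib_left, inter_eq_left.2 (mem_Cl.1 (mem_coe.1 hT)).1]
  · rintro ⟨j, S, U⟩ hp
    obtain ⟨-, h1⟩ := mem_sigma.1 (mem_coe.1 hp)
    obtain ⟨⟨s1, s2, -⟩, u1, -, -⟩ := (mem_product.1 h1).imp mem_Cl.1 mem_Cl.1
    dsimp only at s1 s2 u1 ⊢
    have e1 : (S ∪ U) ∩ A = S := by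
      rw [union_inter_distrib_right, inter_eq_left.2 s1,
        disjoint_iff_inter_eq_empty.1 (hd.symm.mono_left u1), union_empty]
    have e2 : (S ∪ U) ∩ B = U := by
      rw [union_inter_distrib_right, inter_eq_left.2 u1,
        disjoint_iff_inter_eq_empty.1 (hd.mono_left s1), empty_union]
    rw [e1, e2, s2]

lemma card_Cl_mem (ρ : ℝ) (X : Finset V) (k : ℕ) (x : V) :
    #{T ∈ Cl ρ X (k + 1) | x ∈ T} ≤ (#(nb X x ρ)).choose k := by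
  rw [← card_powersetCard]
  apply card_le_card_of_injOn (fun T => T.erase x)
  · intro T hT
    obtain ⟨h1, hx⟩ := mem_filter.1 (mem_coe.1 hT)
    obtain ⟨h2, h3, h4⟩ := mem_Cl.1 h1
    refine mem_coe.2 (mem_powersetCard.2 ⟨fun y hy => ?_, by rw [card_erase_of_mem hx, h3]; rfl⟩)
    obtain ⟨h5, h6⟩ := mem_erase.1 hy
    exact mem_nb.2 ⟨h2 h6, h4 y h6 x hx h5⟩
  · intro S hS T hT h
    rw [← insert_erase (mem_filter.1 (mem_coe.1 hS)).2,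
      ← insert_erase (mem_filter.1 (mem_coe.1 hT)).2]
    exact congrArg _ h

lemma card_Cl_le {ρ : ℝ} {X : Finset V} (h : ∀ x ∈ X, #(nb X x ρ) ≤ 2) (k : ℕ) :
    #(Cl ρ X (k + 1)) * (k + 1) ≤ #X * Nat.choose 2 k := by
  apply card_mul_le_card_mul (fun (T : Finset V) (x : V) => x ∈ T)
  · intro T hT
    obtain ⟨h1, h2, -⟩ := mem_Cl.1 hT
    rw [← h2]
    exact card_le_card fun x hx => (mem_bipartiteAbove _).2 ⟨h1 hx, hx⟩
  · exact fun x hx => (card_Cl_mem ρ X k x).trans (Nat.choose_le_choose k (h x hx))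

lemma le_card_Cl {ρ : ℝ} {X : Finset V} {k m : ℕ}
    (h : ∀ x ∈ X, m ≤ #{T ∈ Cl ρ X k | x ∈ T}) : #X * m ≤ #(Cl ρ X k) * k := by
  apply card_mul_le_card_mul' (fun (T : Finset V) (x : V) => x ∈ T) h
  intro T hT
  rw [← (mem_Cl.1 hT).2.1]
  exact card_le_card fun x hx => ((mem_bipartiteAbove _).1 hx).2

lemma not_six {ρ : ℝ} (hρ : ρ ≠ 0) {A B S T : Finset V} (h : ∀ a ∈ A, ∀ b ∈ B, d2 a b = ρ)
    (hS : S ∈ Cl ρ A 3) (hT : T ∈ Cl ρ B 3) : False := by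
  obtain ⟨s1, s2, s3⟩ := mem_Cl.1 hS
  obtain ⟨t1, t2, t3⟩ := mem_Cl.1 hT
  obtain ⟨a, b, c, ab, ac, bc, rfl⟩ := card_eq_three.1 s2
  obtain ⟨x, y, z, xy, xz, yz, rfl⟩ := card_eq_three.1 t2
  have k : ∀ p ∈ ({a, b, c} : Finset V), ∀ q ∈ ({x, y, z} : Finset V), d2 p q = ρ :=
    fun p hp q hq => h p (s1 hp) q (t1 hq)
  simp only [mem_insert, mem_singleton, forall_eq_or_imp, forall_eq] at k
  obtain ⟨⟨ax, ay, az⟩, ⟨bx, bw, bz⟩, cx, cy, cz⟩ := k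
  have e1 := s3 a (by simp) b (by simp) ab
  have e2 := s3 a (by simp) c (by simp) ac
  have e3 := s3 b (by simp) c (by simp) bc
  have f1 := t3 x (by simp) y (by simp) xy
  have f2 := t3 x (by simp) z (by simp) xz
  have f3 := t3 y (by simp) z (by simp) yz
  have hi := (ind2_of_cospherical ax bx cx ab ac bc).ind3_of_perp (w := a + b + c - (x + y + z))
    (fun h0 => by
      have h1 : (a + b + c - (x + y + z)) ⬝ᵥ (a + b + c - (x + y + z)) = 0 := by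
        rw [h0, zero_dotProduct]
      apply hρ
      simp only [d2, dotProduct, Fin.sum_univ_four, Pi.sub_apply, Pi.add_apply] at *
      linarith)
    (by simp only [d2, dotProduct, Fin.sum_univ_four, Pi.sub_apply, Pi.add_apply] at *; linarith)
    (by simp only [d2, dotProduct, Fin.sum_univ_four, Pi.sub_apply, Pi.add_apply] at *; linarith)
  refine no_five hi (ind2_of_cospherical (d2_comm _ _ ▸ ax) (d2_comm _ _ ▸ ay) (d2_comm _ _ ▸ az)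
    xy xz yz) ?_ ?_ ?_ ?_ ?_ ?_ <;>
  · clear hi
    simp only [d2, dotProduct, Fin.sum_univ_four, Pi.sub_apply, Pi.add_apply] at *
    linarith

lemma card_Cl_four {ρ : ℝ} (hρ : ρ ≠ 0) {A B : Finset V} (h : ∀ a ∈ A, ∀ b ∈ B, d2 a b = ρ)
    (hA : ∀ x ∈ A, #(nb A x ρ) ≤ 2) (hB : ∀ x ∈ B, #(nb B x ρ) ≤ 2) :
    3 * #(Cl ρ (A ∪ B) 4) ≤ #(A ∪ B) ^ 2 := by
  rw [card_Cl_union hρ h, card_union_of_disjoint (disjoint_of_cross hρ h)]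
  have a1 := card_Cl_le hA 0
  have a2 := card_Cl_le hA 1
  have a3 := card_Cl_le hA 2
  have a4 := card_Cl_le hA 3
  have b1 := card_Cl_le hB 0
  have b2 := card_Cl_le hB 1
  have b3 := card_Cl_le hB 2
  have b4 := card_Cl_le hB 3
  norm_num [Nat.choose] at a1 a2 a3 a4 b1 b2 b3 b4
  simp only [sum_range_succ, range_zero, sum_empty, a4, b4, Nat.reduceSub, card_empty]
  have m1 := Nat.mul_le_mul a2 b2
  have m2 := Nat.mul_le_mul a1 b3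
  have m3 := Nat.mul_le_mul a3 b1
  have m4 : 4 * (#A * #B) ≤ (#A + #B) ^ 2 := by
    zify; nlinarith [sq_nonneg ((#A : ℤ) - #B)]
  rcases (Cl ρ A 3).eq_empty_or_nonempty with e | ⟨S, hS⟩
  · rw [e, card_empty]; nlinarith
  rcases (Cl ρ B 3).eq_empty_or_nonempty with e | ⟨T, hT⟩
  · rw [e, card_empty]; nlinarith
  exact (not_six hρ h hS hT).elim

lemma d2_eq_of_flat {y₁ y₂ y₃ z w x : V} {ρ : ℝ} (h12 : y₁ ≠ y₂) (h13 : y₁ ≠ y₃) (h23 : y₂ ≠ y₃)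
    (w1 : d2 w y₁ = ρ) (w2 : d2 w y₂ = ρ) (w3 : d2 w y₃ = ρ)
    (x1 : d2 x y₁ = ρ) (x2 : d2 x y₂ = ρ) (x3 : d2 x y₃ = ρ)
    (n : ¬ Ind3 (y₂ - y₁) (y₃ - y₁) (z - y₁)) : d2 w z = d2 x z := by
  rw [d2_comm] at w1 w2 w3 x1 x2 x3
  obtain ⟨α, β, hh⟩ := (ind2_of_cospherical x1 x2 x3 h12 h13 h23).exists_of_not_ind3 n
  have e2 : (y₂ - y₁) ⬝ᵥ (w - x) = 0 := perp_of_d2 (by rw [w2, x2, w1, x1])
  have e3 : (y₃ - y₁) ⬝ᵥ (w - x) = 0 := perp_of_d2 (by rw [w3, x3, w1, x1])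
  have e4 : (z - y₁) ⬝ᵥ (w - x) = 0 := by
    rw [hh, add_dotProduct, smul_dotProduct, smul_dotProduct, e2, e3]; simp
  simp only [d2, dotProduct, Fin.sum_univ_four, Pi.sub_apply] at w1 x1 e4 ⊢
  linarith

lemma inPl_of_flat {Q : Pl} {y₁ y₂ y₃ z : V} (h : Ind2 (y₂ - y₁) (y₃ - y₁)) (q1 : InPl Q y₁)
    (q2 : InPl Q y₂) (q3 : InPl Q y₃) (n : ¬ Ind3 (y₂ - y₁) (y₃ - y₁) (z - y₁)) : InPl Q z := by
  obtain ⟨α, β, hh⟩ := h.exists_of_not_ind3 n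
  obtain ⟨a₁, b₁, rfl⟩ := q1
  obtain ⟨a₂, b₂, rfl⟩ := q2
  obtain ⟨a₃, b₃, rfl⟩ := q3
  refine ⟨a₁ + α * (a₂ - a₁) + β * (a₃ - a₁), b₁ + α * (b₂ - b₁) + β * (b₃ - b₁), ?_⟩
  funext i
  have := congrFun hh i
  simp only [Pi.add_apply, Pi.smul_apply, Pi.sub_apply, smul_eq_mul] at this ⊢
  linear_combination this

open Classical in
/-- Neighbours of `x` inside a plane. -/
noncomputable def St (P : Finset V) (ρ : ℝ) (x : V) (Q : Pl) : Finset V :=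
  {y ∈ P | d2 x y = ρ ∧ InPl Q y}

lemma mem_St {P : Finset V} {ρ : ℝ} {x y : V} {Q : Pl} :
    y ∈ St P ρ x Q ↔ y ∈ P ∧ d2 x y = ρ ∧ InPl Q y := by
  classical
  unfold St
  exact mem_filter

open Classical in
/-- Common neighbours of a set. -/
noncomputable def Nb (P : Finset V) (ρ : ℝ) (K : Finset V) : Finset V :=
  {x ∈ P | ∀ y ∈ K, d2 x y = ρ}

lemma mem_Nb {P K : Finset V} {ρ : ℝ} {x : V} : x ∈ Nb P ρ K ↔ x ∈ P ∧ ∀ y ∈ K, d2 x y = ρ := by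
  classical
  unfold Nb
  exact mem_filter

/-- A planar star with at least three points. -/
def IsSt (P : Finset V) (ρ : ℝ) (K : Finset V) : Prop := 2 < #K ∧ ∃ x Q, K = St P ρ x Q

variable {P K K' : Finset V} {ρ : ℝ}

lemma IsSt.sub (h : IsSt P ρ K) : K ⊆ P := by
  obtain ⟨-, x, Q, rfl⟩ := h
  exact fun y hy => (mem_St.1 hy).1

lemma IsSt.c1 (h : IsSt P ρ K) {z : V} (hz : z ∈ P) (h3 : 2 < #(nb K z ρ)) : z ∈ Nb P ρ K := by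
  obtain ⟨-, x, Q, rfl⟩ := h
  obtain ⟨a, b, c, ha, hb, hc, ab, ac, bc⟩ := two_lt_card_iff.1 h3
  simp only [mem_nb, mem_St] at ha hb hc
  refine mem_Nb.2 ⟨hz, fun y hy => ?_⟩
  rw [mem_St] at hy
  rw [← hy.2.1]
  exact d2_eq_of_flat ab ac bc (d2_comm _ _ ▸ ha.2) (d2_comm _ _ ▸ hb.2) (d2_comm _ _ ▸ hc.2)
    ha.1.2.1 hb.1.2.1 hc.1.2.1
    (not_ind3_of_span (hb.1.2.2.sub ha.1.2.2) (hc.1.2.2.sub ha.1.2.2) (hy.2.2.sub ha.1.2.2))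

lemma IsSt.c2 (h : IsSt P ρ K) {z : V} (hz : z ∈ P) (h3 : 2 < #(nb (Nb P ρ K) z ρ)) : z ∈ K := by
  obtain ⟨h0, x, Q, rfl⟩ := h
  obtain ⟨a, b, c, ha, hb, hc, ab, ac, bc⟩ := two_lt_card_iff.1 h3
  obtain ⟨p, q, r, hp, hq, hr, pq, pr, qr⟩ := two_lt_card_iff.1 h0
  simp only [mem_nb, mem_Nb] at ha hb hc
  have n := noFour_common ab ac bc (Y := {d | d2 a d = ρ ∧ d2 b d = ρ ∧ d2 c d = ρ})
    (fun d hd => hd) p ⟨ha.1.2 p hp, hb.1.2 p hp, hc.1.2 p hp⟩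
    q ⟨ha.1.2 q hq, hb.1.2 q hq, hc.1.2 q hq⟩ r ⟨ha.1.2 r hr, hb.1.2 r hr, hc.1.2 r hr⟩
    z ⟨ha.2, hb.2, hc.2⟩
  have e := d2_eq_of_flat pq pr qr (mem_St.1 hp).2.1 (mem_St.1 hq).2.1 (mem_St.1 hr).2.1
    (ha.1.2 p hp) (ha.1.2 q hq) (ha.1.2 r hr) n
  rw [mem_St] at hp hq hr ⊢
  exact ⟨hz, e.trans ha.2, inPl_of_flat (ind2_of_cospherical (d2_comm _ _ ▸ hp.2.1)
    (d2_comm _ _ ▸ hq.2.1) (d2_comm _ _ ▸ hr.2.1) pq pr qr) hp.2.2 hq.2.2 hr.2.2 n⟩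

lemma IsSt.c3 (h : IsSt P ρ K) (h' : IsSt P ρ K') (h3 : 2 < #(K ∩ K')) : K ⊆ K' := by
  obtain ⟨-, x, Q, rfl⟩ := h
  obtain ⟨-, x', Q', rfl⟩ := h'
  obtain ⟨a, b, c, ha, hb, hc, ab, ac, bc⟩ := two_lt_card_iff.1 h3
  simp only [mem_inter, mem_St] at ha hb hc
  intro z hz
  rw [mem_St] at hz ⊢
  have n := not_ind3_of_span (hb.1.2.2.sub ha.1.2.2) (hc.1.2.2.sub ha.1.2.2) (hz.2.2.sub ha.1.2.2)
  exact ⟨hz.1, (d2_eq_of_flat ab ac bc ha.2.2.1 hb.2.2.1 hc.2.2.1 ha.1.2.1 hb.1.2.1 hc.1.2.1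
    n).trans hz.2.1, inPl_of_flat (ind2_of_cospherical (d2_comm _ _ ▸ ha.1.2.1)
    (d2_comm _ _ ▸ hb.1.2.1) (d2_comm _ _ ▸ hc.1.2.1) ab ac bc) ha.2.2.2 hb.2.2.2 hc.2.2.2 n⟩

lemma IsSt.inter_le (h : IsSt P ρ K) (h' : IsSt P ρ K') (hne : K ≠ K') : #(K ∩ K') ≤ 2 := by
  by_contra h3
  exact hne (Subset.antisymm (h.c3 h' (not_le.1 h3)) (h'.c3 h (inter_comm K K' ▸ not_le.1 h3)))

lemma IsSt.cross (h : IsSt P ρ K) (h' : IsSt P ρ K') (h3 : 2 < #(K ∩ Nb P ρ K')) :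
    K ∪ Nb P ρ K = K' ∪ Nb P ρ K' := by
  have e1 : K' = Nb P ρ K := by
    refine Subset.antisymm (fun z hz => h.c1 (h'.sub hz) (h3.trans_le (card_le_card ?_)))
      fun z hz => h'.c2 (mem_Nb.1 hz).1 (h3.trans_le (card_le_card ?_))
    · exact fun y hy => mem_nb.2 ⟨(mem_inter.1 hy).1, (mem_Nb.1 (mem_inter.1 hy).2).2 z hz⟩
    · exact fun y hy => mem_nb.2 ⟨(mem_inter.1 hy).2,
        d2_comm _ _ ▸ (mem_Nb.1 hz).2 y (mem_inter.1 hy).1⟩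
  have e2 : Nb P ρ K' = K := by
    refine Subset.antisymm (fun z hz => h.c2 (mem_Nb.1 hz).1 (h'.1.trans_le (card_le_card ?_)))
      fun z hz => mem_Nb.2 ⟨h.sub hz, fun y hy => ?_⟩
    · exact fun y hy => mem_nb.2 ⟨e1 ▸ hy, d2_comm _ _ ▸ (mem_Nb.1 hz).2 y hy⟩
    · rw [e1] at hy
      exact d2_comm _ _ ▸ (mem_Nb.1 hy).2 z hz
  rw [e2, ← e1, union_comm]

lemma IsSt.overlap (h : IsSt P ρ K) (h' : IsSt P ρ K')
    (hne : K ∪ Nb P ρ K ≠ K' ∪ Nb P ρ K') : #((K ∪ Nb P ρ K) ∩ (K' ∪ Nb P ρ K')) ≤ 8 := by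
  have hK : K ≠ K' := fun e => hne (by rw [e])
  have a1 := h.inter_le h' hK
  have a2 : #(K ∩ Nb P ρ K') ≤ 2 := not_lt.1 fun h3 => hne (h.cross h' h3)
  have a3 : #(Nb P ρ K ∩ K') ≤ 2 := not_lt.1 fun h3 => hne (h'.cross h (inter_comm _ K' ▸ h3)).symm
  have a4 : #(Nb P ρ K ∩ Nb P ρ K') ≤ 2 := not_lt.1 fun h3 => hK (Subset.antisymm
    (fun z hz => h'.c2 (h.sub hz) (h3.trans_le (card_le_card fun y hy => mem_nb.2
      ⟨(mem_inter.1 hy).2, (mem_Nb.1 (mem_inter.1 hy).1).2 z hz⟩)))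
    fun z hz => h.c2 (h'.sub hz) (h3.trans_le (card_le_card fun y hy => mem_nb.2
      ⟨(mem_inter.1 hy).1, (mem_Nb.1 (mem_inter.1 hy).2).2 z hz⟩)))
  rw [union_inter_distrib_right, inter_union_distrib_left, inter_union_distrib_left]
  have b1 := card_union_le (K ∩ K' ∪ K ∩ Nb P ρ K') (Nb P ρ K ∩ K' ∪ Nb P ρ K ∩ Nb P ρ K')
  have b2 := card_union_le (K ∩ K') (K ∩ Nb P ρ K')
  have b3 := card_union_le (Nb P ρ K ∩ K') (Nb P ρ K ∩ Nb P ρ K')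
  omega

lemma IsSt.card_four (h : IsSt P ρ K) (hρ : ρ ≠ 0) :
    3 * #(Cl ρ (K ∪ Nb P ρ K) 4) ≤ #(K ∪ Nb P ρ K) ^ 2 := by
  have hc : ∀ a ∈ K, ∀ b ∈ Nb P ρ K, d2 a b = ρ :=
    fun a ha b hb => d2_comm _ _ ▸ (mem_Nb.1 hb).2 a ha
  have hd := disjoint_left.1 (disjoint_of_cross hρ hc)
  exact card_Cl_four hρ hc (fun x hx => not_lt.1 fun h3 => hd hx (h.c1 (h.sub hx) h3))
    fun x hx => not_lt.1 fun h3 => hd (h.c2 (mem_Nb.1 hx).1 h3) hx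

end Pool.Agent.P.MP_f7c707_co
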