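import Pool.Agent.P.MP_f7c707_co.RUp

/-!
The extremal construction and the exact value.
-/

namespace Pool.Agent.P.MP_f7c707_co

open Finset Pool.Agent.Lib.PolyPart

lemma exists_refl (p q : E4) :
    ∃ R : E4 ≃ᵢ E4, R p = q ∧ ∀ z, dist z p = dist z q → R z = z := by
  have : Nonempty (AffineSubspace.perpBisector p q) :=
    ⟨⟨_, AffineSubspace.midpoint_mem_perpBisector p q⟩⟩
  refine ⟨(EuclideanGeometry.reflection (AffineSubspace.perpBisector p q)).toIsometryEquiv, ?_,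
    fun z hz => (EuclideanGeometry.reflection_eq_self_iff z).2
      (AffineSubspace.mem_perpBisector_iff_dist_eq.2 hz)⟩
  have h := EuclideanGeometry.reflection_orthogonal_vadd
    (AffineSubspace.midpoint_mem_perpBisector p q) (v := p -ᵥ midpoint ℝ p q) (by
      rw [AffineSubspace.direction_perpBisector, Submodule.orthogonal_orthogonal,
        left_vsub_midpoint, ← neg_vsub_eq_vsub_rev q p]
      exact Submodule.smul_mem _ _ (Submodule.neg_mem _ (Submodule.mem_span_singleton_self _)))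
  rw [vsub_vadd] at h
  refine h.trans ?_
  rw [neg_vsub_eq_vsub_rev, midpoint_vsub_left, ← right_vsub_midpoint, vsub_vadd]

lemma exists_isometry {ι : Type*} (a b : ι → E4) (h : ∀ i j, dist (a i) (a j) = dist (b i) (b j))
    (S : Finset ι) : ∃ g : E4 ≃ᵢ E4, ∀ i ∈ S, g (a i) = b i := by
  classical
  induction S using Finset.induction_on with
  | empty => exact ⟨IsometryEquiv.refl _, by simp⟩
  | insert j S _ ih =>
    obtain ⟨g, hg⟩ := ih
    obtain ⟨R, h1, h2⟩ := exists_refl (g (a j)) (b j)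
    refine ⟨g.trans R, fun i hi => ?_⟩
    rcases mem_insert.1 hi with rfl | hi
    · exact h1
    · rw [IsometryEquiv.trans_apply, hg i hi]
      exact h2 _ (by rw [← h i j, ← hg i hi, g.dist_eq])

lemma copies_eq {s : Finset E4} (hs : IsSimplex3 s) {ρ : ℝ}
    (hρ : ∀ a ∈ s, ∀ b ∈ s, a ≠ b → dist a b ^ 2 = ρ) (P : Finset E4) :
    copies s P = #(Cl ρ (P.image WithLp.ofLp) 4) := by
  classical
  have hi : Function.Injective (WithLp.ofLp : E4 → V) := WithLp.ofLp_injective 2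
  rw [← Set.ncard_coe_finset]
  apply Set.ncard_congr (fun t _ => t.image WithLp.ofLp)
  · rintro t ⟨h1, h2, g, hg⟩
    refine mem_coe.2 (mem_Cl.2 ⟨image_subset_image h1, by rw [card_image_of_injective _ hi, h2.1], ?_⟩)
    simp only [mem_image, forall_exists_index, and_imp, forall_apply_eq_imp_iff₂]
    intro a ha b hb hab
    rw [← mem_coe, ← hg] at ha hb
    obtain ⟨a, ha, rfl⟩ := ha
    obtain ⟨b, hb, rfl⟩ := hb
    rw [d2_eq, g.dist_eq, hρ a ha b hb fun e => hab (by rw [e])]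
  · exact fun t t' _ _ e => image_injective hi e
  · intro T hT
    obtain ⟨h1, h2, h3⟩ := mem_Cl.1 (mem_coe.1 hT)
    obtain ⟨t, ht, rfl⟩ := subset_image_iff.1 h1
    rw [card_image_of_injective _ hi] at h2
    let e := Finset.equivOfCardEq (hs.1.trans h2.symm)
    obtain ⟨g, hg⟩ := exists_isometry (fun i : s => (i : E4)) (fun i => (e i : E4)) (fun i j => by
      rcases eq_or_ne i j with rfl | hij
      · simp
      · rw [← sq_eq_sq₀ dist_nonneg dist_nonneg, hρ _ i.2 _ j.2 (Subtype.val_injective.ne hij),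
          ← d2_eq, h3 _ (mem_image_of_mem _ (e i).2) _ (mem_image_of_mem _ (e j).2)
            (hi.ne (Subtype.val_injective.ne (e.injective.ne hij)))]) univ
    have e1 : s.image g = t := by
      ext x
      simp only [mem_image]
      constructor
      · rintro ⟨y, hy, rfl⟩
        rw [hg ⟨y, hy⟩ (mem_univ _)]
        exact (e _).2
      · intro hx
        exact ⟨e.symm ⟨x, hx⟩, (e.symm _).2, by rw [hg _ (mem_univ _)]; simp⟩
    exact ⟨t, ⟨ht, e1 ▸ hs.image g, g, by rw [← e1, coe_image]⟩, rfl⟩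

/-- The first coordinate plane. -/
def em1 (r : ℝ) (z : ℂ) : V := ![r * z.re, r * z.im, 0, 0]

/-- The second coordinate plane. -/
def em2 (r : ℝ) (z : ℂ) : V := ![0, 0, r * z.re, r * z.im]

lemma d2_em1 (r : ℝ) (z w : ℂ) : d2 (em1 r z) (em1 r w) = r ^ 2 * Complex.normSq (z - w) := by
  simp [d2, em1, dotProduct, Fin.sum_univ_four, Complex.normSq_apply]; ring

lemma d2_em2 (r : ℝ) (z w : ℂ) : d2 (em2 r z) (em2 r w) = r ^ 2 * Complex.normSq (z - w) := by
  simp [d2, em2, dotProduct, Fin.sum_univ_four, Complex.normSq_apply]; ring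

lemma d2_em12 (r r' : ℝ) (z w : ℂ) :
    d2 (em1 r z) (em2 r' w) = r ^ 2 * Complex.normSq z + r' ^ 2 * Complex.normSq w := by
  simp [d2, em1, em2, dotProduct, Fin.sum_univ_four, Complex.normSq_apply]; ring

lemma exists_A {ρ r : ℝ} (hρ : 0 < ρ) (hr : r ^ 2 = ρ / 3) (p : ℕ) (hp : 0 < p) :
    ∃ A : Finset V, #A = 3 * p ∧ (∀ a ∈ A, ∃ z, Complex.normSq z = 1 ∧ a = em1 r z) ∧
      3 * p ≤ #(Cl ρ A 2) ∧ p ≤ #(Cl ρ A 3) := by
  classical
  have hi : Function.Injective (em1 r) := fun z w h => by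
    have := d2_em1 r z w
    rw [h, d2_self, hr] at this
    exact sub_eq_zero.1 (Complex.normSq_eq_zero.1
      ((mul_eq_zero.1 this.symm).resolve_left (by positivity)))
  obtain ⟨t, ht⟩ : ∃ t : ℝ, t ^ 2 = 3 / 4 := ⟨_, Real.sq_sqrt (by norm_num)⟩
  let ω : ℂ := ⟨-1 / 2, t⟩
  have hω : ω ^ 2 + ω + 1 = 0 := by
    apply Complex.ext <;> simp [ω, sq] <;> linarith
  have hω3 : ω ^ (3 * p) = 1 := by
    rw [pow_mul, show ω ^ 3 = 1 by linear_combination (ω - 1) * hω, one_pow]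
  have hn0 : Complex.normSq ω = 1 := by
    simp only [ω, Complex.normSq_mk]; linarith
  have hn1 : Complex.normSq (1 - ω) = 3 := by
    simp only [ω, Complex.normSq_apply, Complex.sub_re, Complex.sub_im, Complex.one_re,
      Complex.one_im]; linarith
  set A := (Polynomial.nthRootsFinset (3 * p) (1 : ℂ)).image (em1 r) with hA
  have hc : #A = 3 * p := by
    rw [card_image_of_injective _ hi,
      (Complex.isPrimitiveRoot_exp (3 * p) (by omega)).card_nthRootsFinset]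
  have hm : ∀ z : ℂ, z ^ (3 * p) = 1 → em1 r z ∈ A := fun z hz =>
    mem_image_of_mem _ ((Polynomial.mem_nthRootsFinset (by omega) 1).2 hz)
  have hm' : ∀ a ∈ A, ∃ z : ℂ, z ^ (3 * p) = 1 ∧ Complex.normSq z = 1 ∧ a = em1 r z := by
    intro a ha
    obtain ⟨z, hz, rfl⟩ := mem_image.1 ha
    rw [Polynomial.mem_nthRootsFinset (by omega)] at hz
    refine ⟨z, hz, ?_, rfl⟩
    rw [Complex.normSq_eq_norm_sq, Complex.norm_eq_one_of_pow_eq_one hz (by omega), one_pow]
  have key : ∀ x ∈ A, ∃ y ∈ A, ∃ w ∈ A, d2 x y = ρ ∧ d2 x w = ρ ∧ d2 y w = ρ := by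
    intro x hx
    obtain ⟨z, h1, h2, rfl⟩ := hm' x hx
    refine ⟨_, hm (ω * z) (by rw [mul_pow, hω3, h1, one_mul]), _,
      hm (ω * (ω * z)) (by rw [mul_pow, mul_pow, hω3, h1, one_mul, one_mul]), ?_, ?_, ?_⟩
    · rw [d2_em1, show z - ω * z = (1 - ω) * z by ring, map_mul, hn1, h2, hr]; ring
    · rw [d2_em1, show z - ω * (ω * z) = -((1 - ω) * (ω * (ω * z))) by
        linear_combination (z - ω * z) * hω, Complex.normSq_neg, map_mul, map_mul, map_mul, hn0,
        hn1, h2, hr]; ring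
    · rw [d2_em1, show ω * z - ω * (ω * z) = (1 - ω) * (ω * z) by ring, map_mul, map_mul, hn0,
        hn1, h2, hr]; ring
  have ne : ∀ {x y : V}, d2 x y = ρ → x ≠ y := fun h e => hρ.ne (by rw [← h, e, d2_self])
  have two : ∀ x ∈ A, ∀ y ∈ A, d2 x y = ρ → {x, y} ∈ {T ∈ Cl ρ A 2 | x ∈ T} := by
    intro x hx y hy h
    refine mem_filter.2 ⟨mem_Cl.2 ⟨by simp [insert_subset_iff, hx, hy], card_pair (ne h), ?_⟩,
      by simp⟩
    simp [h, d2_comm y x]
  have c2 := le_card_Cl (ρ := ρ) (X := A) (k := 2) (m := 2) fun x hx => by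
    obtain ⟨y, hy, w, hw, h1, h2, h3⟩ := key x hx
    refine one_lt_card.2 ⟨_, two x hx y hy h1, _, two x hx w hw h2, fun e => ?_⟩
    have : y ∈ ({x, w} : Finset V) := by rw [← e]; simp
    simp [(ne h1).symm, ne h3] at this
  have c3 := le_card_Cl (ρ := ρ) (X := A) (k := 3) (m := 1) fun x hx => by
    obtain ⟨y, hy, w, hw, h1, h2, h3⟩ := key x hx
    refine card_pos.2 ⟨{x, y, w}, mem_filter.2 ⟨mem_Cl.2 ⟨by simp [insert_subset_iff, hx, hy, hw],
      card_eq_three.2 ⟨_, _, _, ne h1, ne h2, ne h3, rfl⟩, ?_⟩, by simp⟩⟩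
    simp [h1, h2, h3, d2_comm y x, d2_comm w x, d2_comm w y]
  exact ⟨A, hc, fun a ha => (hm' a ha).imp fun z hz => hz.2, by omega, by omega⟩

lemma exists_B {ρ r : ℝ} (hρ : 0 < ρ) (hr : r ^ 2 = 2 * ρ / 3) (q : ℕ) :
    ∃ B : Finset V, #B = q + 1 ∧ (∀ b ∈ B, ∃ z, Complex.normSq z = 1 ∧ b = em2 r z) ∧
      q ≤ #(Cl ρ B 2) ∧ q + 1 ≤ #(Cl ρ B 1) := by
  classical
  obtain ⟨t, ht⟩ : ∃ t : ℝ, t ^ 2 = 15 / 16 := ⟨_, Real.sq_sqrt (by norm_num)⟩
  let β : ℂ := ⟨1 / 4, t⟩
  have hβ : β ^ 2 - (1 / 2) * β + 1 = 0 := by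
    apply Complex.ext <;> simp [β, sq] <;> linarith
  have hn0 : Complex.normSq β = 1 := by
    simp only [β, Complex.normSq_mk]; linarith
  have hn1 : Complex.normSq (1 - β) = 3 / 2 := by
    simp only [β, Complex.normSq_apply, Complex.sub_re, Complex.sub_im, Complex.one_re,
      Complex.one_im]; linarith
  have hord : ¬ IsOfFinOrder β := by
    intro h
    obtain ⟨k, hk, h1⟩ := isOfFinOrder_iff_pow_eq_one.1 h
    have h2 : IsIntegral ℤ β := IsIntegral.of_pow hk (h1 ▸ isIntegral_one)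
    have h3 : β + β ^ (k - 1) = algebraMap ℚ ℂ (1 / 2) := by
      have h4 : β ^ (k - 1) * β = 1 := by rw [← pow_succ, Nat.sub_add_cancel hk, h1]
      simp only [eq_ratCast]
      push_cast
      linear_combination (β ^ (k - 1)) * hβ - (β - 1 / 2) * h4
    have h5 := h2.add (h2.pow (k - 1))
    rw [h3, isIntegral_algebraMap_iff (algebraMap ℚ ℂ).injective,
      IsIntegrallyClosed.isIntegral_iff] at h5
    obtain ⟨y, hy⟩ := h5
    have h6 : (2 * y : ℤ) = 1 := by
      have : (2 * y : ℚ) = 1 := by simp only [eq_intCast] at hy; rw [hy]; norm_num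
      exact_mod_cast this
    omega
  have hβ0 : β ≠ 0 := fun h => by simp [h] at hn0
  have hi : Function.Injective fun j : ℕ => em2 r (β ^ j) := fun i j h => by
    have := d2_em2 r (β ^ i) (β ^ j)
    rw [show em2 r (β ^ i) = em2 r (β ^ j) from h, d2_self, hr] at this
    have e := sub_eq_zero.1 (Complex.normSq_eq_zero.1
      ((mul_eq_zero.1 this.symm).resolve_left (by positivity)))
    by_contra hne
    wlog hij : i < j generalizing i j
    · exact this j i h.symm (by rw [← neg_sub, Complex.normSq_neg]; assumption) e.symm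
        (Ne.symm hne) (by omega)
    refine hord (isOfFinOrder_iff_pow_eq_one.2 ⟨j - i, by omega, ?_⟩)
    apply mul_left_cancel₀ (pow_ne_zero i hβ0)
    rw [← pow_add, Nat.add_sub_cancel' hij.le, mul_one, e]
  set b := fun j : ℕ => em2 r (β ^ j) with hb
  have hd : ∀ j, d2 (b j) (b (j + 1)) = ρ := fun j => by
    rw [d2_em2, show β ^ j - β ^ (j + 1) = (1 - β) * β ^ j by ring, map_mul, map_pow, hn0, hn1, hr]
    ring
  have hc : #((range (q + 1)).image b) = q + 1 := by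
    rw [card_image_of_injective _ hi, card_range]
  refine ⟨(range (q + 1)).image b, hc, fun x hx => ?_, ?_, ?_⟩
  · obtain ⟨j, -, rfl⟩ := mem_image.1 hx
    exact ⟨_, by rw [map_pow, hn0, one_pow], rfl⟩
  · conv_lhs => rw [← card_range q]
    apply card_le_card_of_injOn (fun j => {b j, b (j + 1)})
    · intro j hj
      have hj' := mem_range.1 (mem_coe.1 hj)
      refine mem_coe.2 (mem_Cl.2 ⟨insert_subset (mem_image_of_mem _ (mem_range.2 (by omega)))
        (singleton_subset_iff.2 (mem_image_of_mem _ (mem_range.2 (by omega)))),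
        card_pair (hi.ne (by omega)), ?_⟩)
      simp [hd j, d2_comm (b (j + 1)) (b j)]
    · intro i _ j _ e
      dsimp only at e
      have e1 : b i ∈ ({b j, b (j + 1)} : Finset V) := by rw [← e]; simp
      have e2 : b j ∈ ({b i, b (i + 1)} : Finset V) := by rw [e]; simp
      simp only [mem_insert, mem_singleton, hi.eq_iff] at e1 e2
      omega
  · have := le_card_Cl (ρ := ρ) (X := (range (q + 1)).image b) (k := 1) (m := 1) fun x hx =>
      card_pos.2 ⟨{x}, mem_filter.2 ⟨mem_Cl.2 ⟨singleton_subset_iff.2 hx, rfl, by simp⟩, by simp⟩⟩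
    omega

lemma exists_many {ρ : ℝ} (hρ : 0 < ρ) (p q : ℕ) (hp : 0 < p) :
    ∃ X : Finset V, #X ≤ 3 * p + (q + 1) ∧ 4 * (p * q) + p ≤ #(Cl ρ X 4) := by
  obtain ⟨A, a1, a2, a3, a4⟩ := exists_A hρ (Real.sq_sqrt (by positivity)) p hp
  obtain ⟨B, b1, b2, b3, b4⟩ := exists_B hρ (Real.sq_sqrt (by positivity)) q
  refine ⟨A ∪ B, (card_union_le _ _).trans (by omega), ?_⟩
  rw [card_Cl_union hρ.ne' fun a ha b hb => by
    obtain ⟨z, h1, rfl⟩ := a2 a ha
    obtain ⟨w, h2, rfl⟩ := b2 b hb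
    rw [d2_em12, h1, h2, Real.sq_sqrt (by positivity), Real.sq_sqrt (by positivity)]; ring]
  simp only [sum_range_succ, range_zero, sum_empty, Nat.reduceSub]
  have m1 := Nat.mul_le_mul a3 b3
  have m2 := Nat.mul_le_mul a4 b4
  nlinarith [Nat.zero_le (#(Cl ρ A 0) * #(Cl ρ B 4)), Nat.zero_le (#(Cl ρ A 1) * #(Cl ρ B 3)),
    Nat.zero_le (#(Cl ρ A 4) * #(Cl ρ B 0))]

theorem regular_exact : ∃ N : ℕ, ∀ s : Finset E4, IsSimplex3 s →
    (∀ a ∈ s, ∀ b ∈ s, ∀ c ∈ s, ∀ d ∈ s, a ≠ b → c ≠ d → dist a b = dist c d) →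
      ∀ n : ℕ, N ≤ n → (maxCopies s n : ℤ) = Fv n := by
  classical
  obtain ⟨N, h⟩ := cl_exact
  refine ⟨N + 12, fun s hs hr n hn => ?_⟩
  obtain ⟨a, ha, b, hb, hab⟩ := one_lt_card.1 (show 1 < #s by rw [hs.1]; norm_num)
  have hρ : 0 < dist a b ^ 2 := pow_pos (dist_pos.2 hab) 2
  have he := copies_eq hs (ρ := dist a b ^ 2) fun c hc d hd hcd => by
    rw [hr c hc d hd a ha b hb hcd hab]
  have hi : Function.Injective (WithLp.ofLp : E4 → V) := WithLp.ofLp_injective 2
  have up : ∀ m ∈ {m : ℕ | ∃ P : Finset E4, P.card = n ∧ copies s P = m}, m ≤ (Fv n).toNat := by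
    rintro _ ⟨P, rfl, rfl⟩
    have := h (P.image WithLp.ofLp) _ hρ.ne' (by rw [card_image_of_injective _ hi]; omega)
    rw [card_image_of_injective _ hi, ← he] at this
    omega
  have h1 : maxCopies s n ≤ (Fv n).toNat := csSup_le' up
  obtain ⟨X, x1, x2⟩ := exists_many hρ ((n + 2) / 6) (n - 3 * ((n + 2) / 6) - 1) (by omega)
  obtain ⟨P, hP, hPn⟩ := Infinite.exists_superset_card_eq (X.image (WithLp.toLp 2) : Finset E4) n
    (card_image_le.trans (by omega))
  have x3 : #(Cl (dist a b ^ 2) X 4) ≤ copies s P := by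
    rw [he]
    refine card_le_card fun T hT => mem_Cl.2 ⟨(mem_Cl.1 hT).1.trans fun x hx => ?_, (mem_Cl.1 hT).2⟩
    exact mem_image.2 ⟨_, hP (mem_image_of_mem _ hx), rfl⟩
  have x4 : copies s P ≤ maxCopies s n := le_csSup ⟨_, up⟩ ⟨P, hPn, rfl⟩
  have x5 : Fv n = (4 * ((n + 2) / 6 * (n - 3 * ((n + 2) / 6) - 1)) + (n + 2) / 6 : ℕ) := by
    unfold Fv
    obtain ⟨q, hq⟩ : ∃ q, n = 3 * ((n + 2) / 6) + 1 + q := ⟨n - 3 * ((n + 2) / 6) - 1, by omega⟩
    have e1 : n - 3 * ((n + 2) / 6) - 1 = q := by omega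
    have e2 : (q : ℤ) = n - 3 * ((n + 2) / 6) - 1 := by omega
    rw [e1]
    push_cast
    rw [e2]
    ring
  omega

end Pool.Agent.P.MP_f7c707_co
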