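import Pool.Agent.P.MP_f7c707_co.RClq

/-!
The exact count on two circles at constant distance.
-/

namespace Pool.Agent.P.MP_f7c707_co

open Finset Pool.Agent.Lib.PolyPart

/-- The extremal value. -/
def Fv (n : ℤ) : ℤ := (n + 2) / 6 * (4 * n - 12 * ((n + 2) / 6) - 3)

lemma le_Fv (n q : ℤ) : q * (4 * n - 12 * q - 3) ≤ Fv n := by
  unfold Fv
  have h1 : 6 * ((n + 2) / 6) ≤ n + 2 := by omega
  have h2 : n + 2 ≤ 6 * ((n + 2) / 6) + 5 := by omega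
  generalize (n + 2) / 6 = p at h1 h2
  rcases lt_trichotomy q p with h | rfl | h
  · nlinarith [mul_nonneg (show 0 ≤ p - q by omega) (show 0 ≤ 4 * n - 3 - 12 * (p + q) by omega)]
  · exact le_rfl
  · nlinarith [mul_nonneg (show 0 ≤ q - p by omega) (show 0 ≤ 12 * (p + q) + 3 - 4 * n by omega)]

lemma sq_le_Fv {n : ℤ} (hn : 0 ≤ n) : n ^ 2 - 2 * n - 25 ≤ 3 * Fv n := by
  have h := le_Fv n (n / 6)
  have h1 : 6 * (n / 6) ≤ n := by omega
  have h2 : n ≤ 6 * (n / 6) + 5 := by omega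
  generalize n / 6 = q at h h1 h2
  nlinarith [mul_nonneg (show 0 ≤ n - 6 * q + 5 by omega) (show 0 ≤ 5 - (n - 6 * q) by omega)]

lemma ind2_of_perp {u v : V} (hu : u ≠ 0) (hv : v ≠ 0) (h : u ⬝ᵥ v = 0) : Ind2 u v := by
  intro α β hh
  have f1 := congrArg (u ⬝ᵥ ·) hh
  have f2 := congrArg (· ⬝ᵥ v) hh
  simp only [dotProduct_add, dotProduct_smul, add_dotProduct, smul_dotProduct, smul_eq_mul,
    dotProduct_zero, zero_dotProduct, h, mul_zero, add_zero, zero_add] at f1 f2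
  exact ⟨(mul_eq_zero.1 f1).resolve_right fun h => hu (dotProduct_self_eq_zero.1 h),
    (mul_eq_zero.1 f2).resolve_right fun h => hv (dotProduct_self_eq_zero.1 h)⟩

lemma chord_rec {ρ : ℝ} (hρ : ρ ≠ 0) {a b c x y z : V} (ab : d2 a b = ρ) (ac : d2 a c = ρ)
    (bc : d2 b c = ρ) (hx : d2 a x = ρ ∧ d2 b x = ρ ∧ d2 c x = ρ)
    (hy : d2 a y = ρ ∧ d2 b y = ρ ∧ d2 c y = ρ) (hz : d2 a z = ρ ∧ d2 b z = ρ ∧ d2 c z = ρ)
    (xy : d2 x y = ρ) (zy : d2 z y = ρ) (xz : x ≠ z) :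
    y + y + y - (a + b + c) ≠ 0 ∧ y + y + y - (a + b + c) =
      (2 : ℤ) • ((x + x + x - (a + b + c)) + (z + z + z - (a + b + c))) := by
  have ne : ∀ {x y : V}, d2 x y = ρ → x ≠ y := fun h e => hρ (by rw [← h, e, d2_self])
  have hi := ind2_of_cospherical hx.1 hx.2.1 hx.2.2 (ne ab) (ne ac) (ne bc)
  obtain ⟨x1, x2, x3⟩ := hx
  obtain ⟨y1, y2, y3⟩ := hy
  obtain ⟨z1, z2, z3⟩ := hz
  have h0 : y + y + y - (a + b + c) ≠ 0 := fun h0 => by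
    have h1 : (y + y + y - (a + b + c)) ⬝ᵥ (y + y + y - (a + b + c)) = 0 := by
      rw [h0, zero_dotProduct]
    apply hρ
    simp only [d2, dotProduct, Fin.sum_univ_four, Pi.sub_apply, Pi.add_apply] at ab ac bc y1 y2 y3 h1
    linarith
  refine ⟨h0, ?_⟩
  rw [two_zsmul]
  by_contra hne
  simp only [d2, dotProduct, Fin.sum_univ_four, Pi.sub_apply] at ab ac bc x1 x2 x3 y1 y2 y3 z1 z2 z3
  simp only [d2, dotProduct, Fin.sum_univ_four, Pi.sub_apply] at xy zy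
  refine no_five ((ind2_of_perp (sub_ne_zero.2 xz) h0 ?_).ind3_of_perp (sub_ne_zero.2 hne) ?_ ?_)
    hi ?_ ?_ ?_ ?_ ?_ ?_ <;>
  · simp only [dotProduct, Fin.sum_univ_four, Pi.sub_apply, Pi.add_apply]
    linarith

lemma chords_lt {ρ : ℝ} (hρ : ρ ≠ 0) {A B S : Finset V} (h : ∀ a ∈ A, ∀ b ∈ B, d2 a b = ρ)
    (hS : S ∈ Cl ρ A 3) (hB : ∀ x ∈ B, #(nb B x ρ) ≤ 2) (hne : B.Nonempty) :
    #(Cl ρ B 2) < #B := by
  by_contra hcon
  have deg : ∀ y ∈ B, 1 < #(nb B y ρ) := by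
    intro y hy
    by_contra h1
    have e := sum_card_bipartiteAbove_eq_sum_card_bipartiteBelow (s := Cl ρ B 2) (t := B)
      (fun (T : Finset V) (x : V) => x ∈ T)
    have e1 := card_nsmul_le_sum (Cl ρ B 2) (fun T => #(B.bipartiteAbove (fun T x => x ∈ T) T)) 2
      fun T hT => by
        obtain ⟨h1, h2, -⟩ := mem_Cl.1 hT
        rw [← h2]
        exact card_le_card fun x hx => (mem_bipartiteAbove _).2 ⟨h1 hx, hx⟩
    have k : ∀ x, #((Cl ρ B 2).bipartiteBelow (fun (T : Finset V) (x : V) => x ∈ T) x) ≤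
        #(nb B x ρ) := fun x => (card_Cl_mem ρ B 1 x).trans (Nat.choose_one_right _).le
    have e2 := sum_lt_sum (s := B) (g := fun _ => 2) (fun x hx => (k x).trans (hB x hx))
      ⟨y, hy, (k y).trans_lt (by omega)⟩
    rw [sum_const, ← e] at e2
    simp only [smul_eq_mul] at e1 e2
    omega
  obtain ⟨s1, s2, s3⟩ := mem_Cl.1 hS
  obtain ⟨a, b, c, ab, ac, bc, rfl⟩ := card_eq_three.1 s2
  have k : ∀ x ∈ B, d2 a x = ρ ∧ d2 b x = ρ ∧ d2 c x = ρ := fun x hx =>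
    ⟨h a (s1 (by simp)) x hx, h b (s1 (by simp)) x hx, h c (s1 (by simp)) x hx⟩
  let u : V → V := fun y => y + y + y - (a + b + c)
  have key : ∀ y ∈ B, u y ≠ 0 ∧ ∃ x ∈ B, ∃ z ∈ B, u y = (2 : ℤ) • (u x + u z) := by
    intro y hy
    obtain ⟨x, hx, z, hz, xz⟩ := one_lt_card.1 (deg y hy)
    rw [mem_nb] at hx hz
    have := chord_rec hρ (s3 a (by simp) b (by simp) ab) (s3 a (by simp) c (by simp) ac)
      (s3 b (by simp) c (by simp) bc) (k x hx.1) (k y hy) (k z hz.1) hx.2 hz.2 xz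
    exact ⟨this.1, x, hx.1, z, hz.1, this.2⟩
  obtain ⟨r, h1, h2⟩ := Submodule.exists_sub_one_mem_and_smul_eq_zero_of_fg_of_le_smul
    (Ideal.span {(2 : ℤ)}) (Submodule.span ℤ (u '' B))
    (Submodule.fg_span ((finite_toSet B).image u)) (Submodule.span_le.2 (by
      rintro _ ⟨y, hy, rfl⟩
      obtain ⟨-, x, hx, z, hz, e⟩ := key y hy
      rw [e]
      exact Submodule.smul_mem_smul (Ideal.mem_span_singleton_self _)
        (Submodule.add_mem _ (Submodule.subset_span ⟨x, hx, rfl⟩)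
          (Submodule.subset_span ⟨z, hz, rfl⟩))))
  obtain ⟨y, hy⟩ := hne
  rw [Ideal.mem_span_singleton] at h1
  rcases smul_eq_zero.1 (h2 _ (Submodule.subset_span ⟨y, hy, rfl⟩)) with h3 | h3
  · omega
  · exact (key y hy).1 h3

lemma card_Cl_side {ρ : ℝ} (hρ : ρ ≠ 0) {A B S : Finset V} (h : ∀ a ∈ A, ∀ b ∈ B, d2 a b = ρ)
    (hA : ∀ x ∈ A, #(nb A x ρ) ≤ 2) (hB : ∀ x ∈ B, #(nb B x ρ) ≤ 2) (hn : 16 ≤ #A + #B)
    (hS : S ∈ Cl ρ A 3) : (#(Cl ρ (A ∪ B) 4) : ℤ) ≤ Fv (#A + #B) := by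
  rw [card_Cl_union hρ h]
  have a2 := card_Cl_le hA 1
  have a3 := card_Cl_le hA 2
  have a4 := card_Cl_le hA 3
  have b1 := card_Cl_le hB 0
  have b2 := card_Cl_le hB 1
  have b4 := card_Cl_le hB 3
  have b3 : Cl ρ B 3 = ∅ := eq_empty_of_forall_notMem fun T hT => not_six hρ h hS hT
  norm_num [Nat.choose] at a2 a3 a4 b1 b2 b4
  simp only [sum_range_succ, range_zero, sum_empty, a4, b3, b4, Nat.reduceSub, card_empty,
    mul_zero, zero_mul, zero_add, add_zero]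
  have q0 := le_Fv (#A + #B) 0
  rcases B.eq_empty_or_nonempty with rfl | hne
  · simp only [card_empty, Nat.le_zero] at b1 b2
    rw [b1, b2]
    simpa using q0
  have b5 := chords_lt hρ h hS hB hne
  obtain ⟨b, hb⟩ : ∃ b, #B = b + 1 := ⟨#B - 1, by omega⟩
  have m1 := Nat.mul_le_mul a2 (show #(Cl ρ B 2) ≤ b by omega)
  have m2 := Nat.mul_le_mul (show #(Cl ρ A 3) ≤ #A / 3 by omega) b1
  refine le_trans (Nat.cast_le.2 (add_le_add m1 m2)) ?_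
  obtain ⟨q, r, hr, e⟩ : ∃ q r, r < 3 ∧ #A = 3 * q + r := ⟨#A / 3, #A % 3, by omega, by omega⟩
  have e' : #A / 3 = q := by omega
  have q1 := le_Fv (#A + #B) q
  have q2 := le_Fv (#A + #B) (q + 1)
  rw [e']
  rw [e, hb] at q1 q2 ⊢
  push_cast at q1 q2 ⊢
  have hq : (0 : ℤ) ≤ q := by positivity
  by_cases hc : b ≤ 4 * q
  · have : (b : ℤ) ≤ 4 * q := by exact_mod_cast hc
    nlinarith [mul_nonneg (Nat.cast_nonneg r : (0 : ℤ) ≤ r) (sub_nonneg.2 this)]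
  · have h1 : 4 * (q : ℤ) + 1 ≤ b := by omega
    have h2 : (6 : ℤ) ≤ b := by omega
    interval_cases r <;> push_cast at q1 q2 ⊢ <;> nlinarith

lemma card_Cl_exact {ρ : ℝ} (hρ : ρ ≠ 0) {A B : Finset V} (h : ∀ a ∈ A, ∀ b ∈ B, d2 a b = ρ)
    (hA : ∀ x ∈ A, #(nb A x ρ) ≤ 2) (hB : ∀ x ∈ B, #(nb B x ρ) ≤ 2) (hn : 16 ≤ #(A ∪ B)) :
    (#(Cl ρ (A ∪ B) 4) : ℤ) ≤ Fv #(A ∪ B) := by
  rw [card_union_of_disjoint (disjoint_of_cross hρ h)] at hn ⊢
  push_cast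
  rcases (Cl ρ A 3).eq_empty_or_nonempty with a3 | ⟨S, hS⟩
  swap
  · exact card_Cl_side hρ h hA hB hn hS
  rcases (Cl ρ B 3).eq_empty_or_nonempty with b3 | ⟨S, hS⟩
  swap
  · rw [union_comm, add_comm]
    exact card_Cl_side hρ (fun b hb a ha => d2_comm _ _ ▸ h a ha b hb) hB hA (by omega) hS
  rw [card_Cl_union hρ h]
  have a2 := card_Cl_le hA 1
  have a4 := card_Cl_le hA 3
  have b2 := card_Cl_le hB 1
  have b4 := card_Cl_le hB 3
  norm_num [Nat.choose] at a2 a4 b2 b4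
  simp only [sum_range_succ, range_zero, sum_empty, a3, a4, b3, b4, Nat.reduceSub, card_empty,
    mul_zero, zero_mul, zero_add, add_zero]
  refine le_trans (Nat.cast_le.2 (Nat.mul_le_mul a2 b2)) ?_
  have h1 := sq_le_Fv (n := #A + #B) (by positivity)
  have h2 : (16 : ℤ) ≤ #A + #B := by exact_mod_cast hn
  push_cast
  nlinarith [sq_nonneg ((#A : ℤ) - #B)]

lemma IsSt.card_exact {P K : Finset V} {ρ : ℝ} (h : IsSt P ρ K) (hρ : ρ ≠ 0)
    (hn : 16 ≤ #(K ∪ Nb P ρ K)) : (#(Cl ρ (K ∪ Nb P ρ K) 4) : ℤ) ≤ Fv #(K ∪ Nb P ρ K) := by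
  have hc : ∀ a ∈ K, ∀ b ∈ Nb P ρ K, d2 a b = ρ :=
    fun a ha b hb => d2_comm _ _ ▸ (mem_Nb.1 hb).2 a ha
  have hd := disjoint_left.1 (disjoint_of_cross hρ hc)
  exact card_Cl_exact hρ hc (fun x hx => not_lt.1 fun h3 => hd hx (h.c1 (h.sub hx) h3))
    (fun x hx => not_lt.1 fun h3 => hd (h.c2 (mem_Nb.1 hx).1 h3) hx) hn

end Pool.Agent.P.MP_f7c707_co
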