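import Pool.Agent.P.MP_f7c707_co.RClq
import Pool.Agent.P.MP_f7c707_co.QMain

/-!
Equilateral configurations that avoid the rich circles.
-/

namespace Pool.Agent.P.MP_f7c707_co

open Finset Pool.Agent.Lib.PolyPart

/-- Index set of the planes attached to a point. -/
abbrev Ix := Fin 6 × Bool × Fin 4

open Classical in
/-- Ordered edges satisfying `E`. -/
noncomputable def fed (P : Finset V) (E : V → V → Prop) (ρ : ℝ) : Finset (V × V) :=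
  {p ∈ P ×ˢ P | d2 p.1 p.2 = ρ ∧ E p.1 p.2}

variable {P : Finset V} {E : V → V → Prop} {ρ : ℝ}

lemma mem_fed {p : V × V} : p ∈ fed P E ρ ↔ (p.1 ∈ P ∧ p.2 ∈ P) ∧ d2 p.1 p.2 = ρ ∧ E p.1 p.2 := by
  classical
  unfold fed
  rw [mem_filter, mem_product]

lemma card_fed_le : (#(fed P E ρ) : ℝ) ≤ cnt P P fun x y => d2 x y = ρ ∧ E x y := by
  have h : #(fed P E ρ) ≤ #(P.sigma (nbr P fun x y => d2 x y = ρ ∧ E x y)) := by
    apply card_le_card_of_injOn (fun p => ⟨p.2, p.1⟩)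
    · intro p hp
      obtain ⟨h1, h2⟩ := mem_fed.1 (mem_coe.1 hp)
      exact mem_coe.2 (mem_sigma.2 ⟨h1.2, mem_nbr.2 ⟨h1.1, h2⟩⟩)
    · intro s _ t _ hst
      simp only [Sigma.mk.injEq, heq_eq_eq] at hst
      exact Prod.ext hst.2 hst.1
  rw [card_sigma] at h
  unfold cnt
  exact_mod_cast h

lemma poor_two (Q : V → Ix → Pl) (hE : ∀ x y, E x y → E y x) (M : ℕ)
    (h : ∀ p ∈ fed P E ρ, ∀ i, InPl (Q p.1 i) p.2 → #(St P ρ p.1 (Q p.1 i)) ≤ M) :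
    (#(fed P E ρ) : ℝ) ≤ #(fed P (Fr Q) ρ) + 2 * (48 * (M * #P)) := by
  classical
  have s1 : (#{p ∈ fed P E ρ | ∃ i, InPl (Q p.1 i) p.2} : ℝ) ≤ 48 * (M * #P) := by
    convert card_exists_le' (fed P E ρ) (fun i p => InPl (Q p.1 i) p.2) _ fun i => ?_
    have : #{p ∈ fed P E ρ | InPl (Q p.1 i) p.2} ≤ M * #P := by
      apply card_le_mul_card_image_of_maps_to (f := Prod.fst)
      · exact fun p hp => (mem_fed.1 (mem_filter.1 hp).1).1.1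
      · intro x _
        rcases ({p ∈ {p ∈ fed P E ρ | InPl (Q p.1 i) p.2} | p.1 = x}).eq_empty_or_nonempty with
          e | ⟨p₀, hp₀⟩
        · rw [e]; exact Nat.zero_le _
        simp only [mem_filter] at hp₀
        refine le_trans (card_le_card_of_injOn Prod.snd ?_ ?_) (h p₀ hp₀.1.1 i hp₀.1.2)
        · intro p hp
          simp only [coe_filter, mem_filter, Set.mem_ofPred_eq, mem_fed] at hp
          rw [hp₀.2, ← hp.2]
          exact mem_coe.2 (mem_St.2 ⟨hp.1.1.1.2, hp.1.1.2.1, hp.1.2⟩)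
        · intro p hp q hq e
          exact Prod.ext ((mem_filter.1 (mem_coe.1 hp)).2.trans
            (mem_filter.1 (mem_coe.1 hq)).2.symm) e
    exact_mod_cast this
  set G := {p ∈ fed P E ρ | ∃ i, InPl (Q p.1 i) p.2} with hG
  have s2 := card_le_list [fed P (Fr Q) ρ, G, G.image Prod.swap] (fed P E ρ) (by
    rintro ⟨x, y⟩ hp
    simp only [List.mem_cons, List.not_mem_nil, or_false, exists_eq_or_imp, exists_eq_left]
    by_contra hcon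
    simp only [not_or] at hcon
    obtain ⟨k1, k2, k3⟩ := hcon
    obtain ⟨m1, m2, m3⟩ := mem_fed.1 hp
    exact k1 (mem_fed.2 ⟨m1, m2, fun i hi => k2 (mem_filter.2 ⟨hp, i, hi⟩), fun i hi => k3
      (mem_image.2 ⟨(y, x), mem_filter.2
        ⟨mem_fed.2 ⟨m1.symm, d2_comm _ _ ▸ m2, hE _ _ m3⟩, i, hi⟩, rfl⟩)⟩))
  simp only [List.map_cons, List.map_nil, List.sum_cons, List.sum_nil, add_zero] at s2
  have s3 : (#(fed P E ρ) : ℝ) ≤ _ := Nat.cast_le.2 s2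
  have s4 : (#(G.image Prod.swap) : ℝ) ≤ #G := Nat.cast_le.2 card_image_le
  push_cast at s3
  linarith

lemma poor_three (hρ : ρ ≠ 0) (Q : V → Pl) (S : Finset (V × V × V))
    (hS : ∀ s ∈ S, s ∈ ftri P E ρ ρ ρ ∧ InPl (Q s.1) s.2.2) : #S ≤ 4 * #(fed P E ρ) := by
  classical
  simp only [mem_ftri, mem_tri] at hS
  have h1 : #{s ∈ S | ¬ Ax (Q s.1) s.1 s.2.1} ≤ 2 * #(fed P E ρ) := by
    apply card_le_two_mul _ (fun s : V × V × V => (s.1, s.2.1))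
    · intro s hs
      obtain ⟨⟨⟨⟨a1, a2, -⟩, a3, -⟩, a4, -⟩, -⟩ := hS s (mem_filter.1 hs).1
      exact mem_fed.2 ⟨⟨a1, a2⟩, a3, a4⟩
    · rintro ⟨x, y, a⟩ ha ⟨_, _, b⟩ hb ⟨_, _, c⟩ hc g1 g2 g3 e1 e2
      simp only [Prod.mk.injEq] at e1 e2
      obtain ⟨rfl, rfl⟩ := e1
      obtain ⟨rfl, rfl⟩ := e2
      rw [mem_filter] at ha hb hc
      obtain ⟨⟨⟨-, -, a1, a2⟩, -⟩, a3⟩ := hS _ ha.1
      obtain ⟨⟨⟨-, -, b1, b2⟩, -⟩, b3⟩ := hS _ hb.1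
      obtain ⟨⟨⟨-, -, c1, c2⟩, -⟩, c3⟩ := hS _ hc.1
      exact ha.2 (ax_of_three (fun h => g1 (by rw [show a = b from h]))
        (fun h => g2 (by rw [show a = c from h])) (fun h => g3 (by rw [show b = c from h]))
        a3 b3 c3 a1 b1 c1 a2 b2 c2)
  have h2 : #{s ∈ S | Ax (Q s.1) s.1 s.2.1} ≤ 2 * #(fed P E ρ) := by
    apply card_le_two_mul _ (fun s : V × V × V => (s.1, s.2.2))
    · intro s hs
      obtain ⟨⟨⟨⟨a1, -, a2⟩, -, a3, -⟩, -, a4, -⟩, -⟩ := hS s (mem_filter.1 hs).1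
      exact mem_fed.2 ⟨⟨a1, a2⟩, a3, a4⟩
    · rintro ⟨x, a, z⟩ ha ⟨x', b, z'⟩ hb ⟨x'', c, z''⟩ hc g1 g2 g3 e1 e2
      simp only [Prod.mk.injEq] at e1 e2
      obtain rfl := e1.1.symm
      obtain rfl := e1.2.symm
      obtain rfl := e2.1.symm
      obtain rfl := e2.2.symm
      rw [mem_filter] at ha hb hc
      obtain ⟨⟨⟨-, a1, a0, a2⟩, -⟩, -⟩ := hS _ ha.1
      obtain ⟨⟨⟨-, b1, -, b2⟩, -⟩, -⟩ := hS _ hb.1
      obtain ⟨⟨⟨-, c1, -, c2⟩, -⟩, -⟩ := hS _ hc.1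
      have a3 := ha.2
      have k1 := hb.2.sub ha.2
      have k2 := hc.2.sub ha.2
      dsimp only at a0 a1 a2 a3 b1 b2 c1 c2 k1 k2
      rw [d2_comm] at a1 b1 c1
      have hw := ind2_of_cospherical a1 b1 c1 (fun h => g1 (by rw [h])) (fun h => g2 (by rw [h]))
        (fun h => g3 (by rw [h]))
      obtain ⟨α, β, hh⟩ := a3.1.exists_of_not_ind3 (w := z - x) fun hi =>
        no_five hi hw (by rw [dotProduct_comm, k1.1]) (by rw [dotProduct_comm, k2.1])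
          (by rw [dotProduct_comm, k1.2]) (by rw [dotProduct_comm, k2.2])
          (by rw [dotProduct_comm]; exact perp_of_d2 (by rw [b2, b1, a2, a1]))
          (by rw [dotProduct_comm]; exact perp_of_d2 (by rw [c2, c1, a2, a1]))
      have e := congrArg (fun v => (a - x) ⬝ᵥ v) hh
      simp only [dotProduct_add, dotProduct_smul] at e
      rw [a3.2.1, a3.2.2, smul_zero, smul_zero, add_zero] at e
      apply hρ
      simp only [d2, dotProduct, Fin.sum_univ_four, Pi.sub_apply] at a0 a1 a2 e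
      linarith
  have h5 := card_filter_add_card_filter_not (s := S) (fun s => Ax (Q s.1) s.1 s.2.1)
  omega

lemma ftri_swap (hE : ∀ x y, E x y → E y x) {a b c : V} (h : (a, b, c) ∈ ftri P E ρ ρ ρ) :
    (b, a, c) ∈ ftri P E ρ ρ ρ ∧ (a, c, b) ∈ ftri P E ρ ρ ρ := by
  simp only [mem_ftri, mem_tri] at h ⊢
  obtain ⟨⟨⟨a1, a2, a3⟩, b1, b2, b3⟩, c1, c2, c3⟩ := h
  exact ⟨⟨⟨⟨a2, a1, a3⟩, d2_comm _ _ ▸ b1, b3, b2⟩, hE _ _ c1, c3, c2⟩,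
    ⟨⟨a1, a3, a2⟩, b2, b1, d2_comm _ _ ▸ b3⟩, c2, c1, hE _ _ c3⟩

lemma poor_tri (hρ : ρ ≠ 0) (Q : V → Ix → Pl) (hE : ∀ x y, E x y → E y x) :
    (#(ftri P E ρ ρ ρ) : ℝ) ≤ #(ftri P (Fr Q) ρ ρ ρ) + 6 * (48 * (4 * #(fed P E ρ))) := by
  classical
  have s1 : (#{s ∈ ftri P E ρ ρ ρ | ∃ i, InPl (Q s.1 i) s.2.2} : ℝ) ≤ 48 * (4 * #(fed P E ρ)) := by
    convert card_exists_le' (ftri P E ρ ρ ρ) (fun i s => InPl (Q s.1 i) s.2.2) _ fun i => ?_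
    exact_mod_cast poor_three hρ (fun v => Q v i) _ fun s hs => mem_filter.1 hs
  set G := {s ∈ ftri P E ρ ρ ρ | ∃ i, InPl (Q s.1 i) s.2.2} with hG
  have s2 := card_le_list [ftri P (Fr Q) ρ ρ ρ, G, G.image fun s => (s.1, s.2.2, s.2.1),
    G.image fun s => (s.2.1, s.1, s.2.2), G.image fun s => (s.2.2, s.1, s.2.1),
    G.image fun s => (s.2.1, s.2.2, s.1), G.image fun s => (s.2.2, s.2.1, s.1)] (ftri P E ρ ρ ρ) (by
    rintro ⟨x, y, z⟩ hp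
    simp only [List.mem_cons, List.not_mem_nil, or_false, exists_eq_or_imp, exists_eq_left]
    by_contra hcon
    simp only [not_or] at hcon
    obtain ⟨k1, k2, k3, k4, k5, k6, k7⟩ := hcon
    obtain ⟨yxz, xzy⟩ := ftri_swap hE hp
    have yzx := (ftri_swap hE yxz).2
    have zxy := (ftri_swap hE xzy).1
    have zyx := (ftri_swap hE zxy).2
    exact k1 (mem_ftri.2 ⟨(mem_ftri.1 hp).1,
      ⟨fun i hi => k3 (mem_image.2 ⟨_, mem_filter.2 ⟨xzy, i, hi⟩, rfl⟩),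
        fun i hi => k5 (mem_image.2 ⟨_, mem_filter.2 ⟨yzx, i, hi⟩, rfl⟩)⟩,
      ⟨fun i hi => k2 (mem_filter.2 ⟨hp, i, hi⟩),
        fun i hi => k7 (mem_image.2 ⟨_, mem_filter.2 ⟨zyx, i, hi⟩, rfl⟩)⟩,
      ⟨fun i hi => k4 (mem_image.2 ⟨_, mem_filter.2 ⟨yxz, i, hi⟩, rfl⟩),
        fun i hi => k6 (mem_image.2 ⟨_, mem_filter.2 ⟨zxy, i, hi⟩, rfl⟩)⟩⟩))
  simp only [List.map_cons, List.map_nil, List.sum_cons, List.sum_nil, add_zero] at s2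
  have s3 : #(ftri P E ρ ρ ρ) ≤ #(ftri P (Fr Q) ρ ρ ρ) + (#G + (#G + (#G + (#G + (#G + #G))))) := by
    refine s2.trans (add_le_add le_rfl (add_le_add le_rfl (add_le_add card_image_le
      (add_le_add card_image_le (add_le_add card_image_le
        (add_le_add card_image_le card_image_le))))))
  have s4 : (#(ftri P E ρ ρ ρ) : ℝ) ≤ _ := Nat.cast_le.2 s3
  push_cast at s4
  linarith

/-- The vertex set of an ordered tetrahedron. -/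
noncomputable def vs (t : V × V × V × V) : Finset V := {t.1, t.2.1, t.2.2.1, t.2.2.2}

lemma four_mem {T : Finset V} (hT : T ∈ Cl ρ P 4) (hE : ∀ a ∈ T, ∀ b ∈ T, a ≠ b → E a b)
    {a b : V} (ha : a ∈ T) (hb : b ∈ T) (hab : a ≠ b) :
    ∃ c d, (a, c, d, b) ∈ ftet P E ρ ρ ρ ρ ρ ρ ∧ vs (a, c, d, b) = T := by
  obtain ⟨h1, h2, h3⟩ := mem_Cl.1 hT
  have hc : #((T.erase a).erase b) = 2 := by
    rw [card_erase_of_mem (mem_erase.2 ⟨hab.symm, hb⟩), card_erase_of_mem ha, h2]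
  obtain ⟨c, d, cd, hs⟩ := card_eq_two.1 hc
  have hc : c ∈ (T.erase a).erase b := by rw [hs]; simp
  have hd : d ∈ (T.erase a).erase b := by rw [hs]; simp
  simp only [mem_erase] at hc hd
  obtain ⟨cb, ca, hc⟩ := hc
  obtain ⟨db, da, hd⟩ := hd
  refine ⟨c, d, mem_ftet.2 ⟨mem_tet.2 ⟨⟨h1 ha, h1 hc, h1 hd, h1 hb⟩, h3 _ ha _ hc ca.symm,
    h3 _ ha _ hd da.symm, h3 _ ha _ hb hab, h3 _ hc _ hd cd, h3 _ hc _ hb cb, h3 _ hd _ hb db⟩,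
    hE _ ha _ hc ca.symm, hE _ ha _ hd da.symm, hE _ ha _ hb hab, hE _ hc _ hd cd,
    hE _ hc _ hb cb, hE _ hd _ hb db⟩, ?_⟩
  ext x
  have := congrArg (x ∈ ·) hs
  simp only [vs, mem_insert, mem_singleton, mem_erase, eq_iff_iff] at this ⊢
  constructor
  · rintro (rfl | rfl | rfl | rfl) <;> assumption
  · tauto

lemma poor_tet (hρ : ρ ≠ 0) (Q : V → Ix → Pl) (C : Finset (Finset V))
    (hC : ∀ T ∈ C, T ∈ Cl ρ P 4 ∧ ∀ a ∈ T, ∀ b ∈ T, a ≠ b → E a b) :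
    (#C : ℝ) ≤ #(ftet P (Fr Q) ρ ρ ρ ρ ρ ρ) + 48 * (4 * #(ftri P E ρ ρ ρ)) := by
  classical
  have s1 : (#{s ∈ ftet P E ρ ρ ρ ρ ρ ρ | ∃ i, InPl (Q s.1 i) s.2.2.2} : ℝ) ≤
      48 * (4 * #(ftri P E ρ ρ ρ)) := by
    convert card_exists_le' (ftet P E ρ ρ ρ ρ ρ ρ) (fun i s => InPl (Q s.1 i) s.2.2.2) _
      fun i => ?_
    have a1 := simple_four {s ∈ ftet P E ρ ρ ρ ρ ρ ρ | InPl (Q s.1 i) s.2.2.2} (·.1) (·.2.1)
      (·.2.2.1) (·.2.2.2) ρ ρ ρ ρ ρ ρ hρ (fun v => Q v i) (ftri P E ρ ρ ρ) (ftri P E ρ ρ ρ)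
      (fun s _ t _ h1 h2 h3 h4 => Prod.ext h1 (Prod.ext h2 (Prod.ext h3 h4))) (fun s hs => by
        obtain ⟨h1, h2⟩ := mem_filter.1 hs
        obtain ⟨h3, e1, e2, e3, e4, e5, -⟩ := mem_ftet.1 h1
        obtain ⟨⟨k1, k2, k3, k4⟩, m1, m2, m3, m4, m5, m6⟩ := mem_tet.1 h3
        exact ⟨mem_ftri.2 ⟨mem_tri.2 ⟨⟨k1, k2, k3⟩, m1, m2, m4⟩, e1, e2, e4⟩,
          mem_ftri.2 ⟨mem_tri.2 ⟨⟨k1, k2, k4⟩, m1, m3, m5⟩, e1, e3, e5⟩, m1, m2, m4, m3, m5, m6, h2⟩)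
    have a2 : (#{s ∈ ftet P E ρ ρ ρ ρ ρ ρ | InPl (Q s.1 i) s.2.2.2} : ℝ) ≤
        2 * #(ftri P E ρ ρ ρ) + 2 * #(ftri P E ρ ρ ρ) := by exact_mod_cast a1
    linarith
  set G := {s ∈ ftet P E ρ ρ ρ ρ ρ ρ | ∃ i, InPl (Q s.1 i) s.2.2.2} with hG
  have s2 : C ⊆ (ftet P (Fr Q) ρ ρ ρ ρ ρ ρ ∪ G).image vs := by
    intro T hT
    obtain ⟨h1, h2⟩ := hC T hT
    by_cases h : ∃ a ∈ T, ∃ b ∈ T, a ≠ b ∧ ∃ i, InPl (Q a i) b
    · obtain ⟨a, ha, b, hb, hab, hi⟩ := h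
      obtain ⟨c, d, h3, h4⟩ := four_mem h1 h2 ha hb hab
      exact mem_image.2 ⟨_, mem_union_right _ (mem_filter.2 ⟨h3, hi⟩), h4⟩
    · push Not at h
      obtain ⟨a, ha, b, hb, hab⟩ := one_lt_card.1 (show 1 < #T by rw [(mem_Cl.1 h1).2.1]; norm_num)
      obtain ⟨c, d, h3, h4⟩ := four_mem (E := Fr Q) h1
        (fun a ha b hb hab => ⟨h a ha b hb hab, h b hb a ha hab.symm⟩) ha hb hab
      exact mem_image.2 ⟨_, mem_union_left _ h3, h4⟩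
  have s3 : (#C : ℝ) ≤ _ :=
    Nat.cast_le.2 (((card_le_card s2).trans card_image_le).trans (card_union_le _ _))
  push_cast at s3
  linarith

end Pool.Agent.P.MP_f7c707_co
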