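import Pool.Agent.P.MP_f7c707_co.RPoor
import Pool.Agent.P.MP_f7c707_co.RPair

/-!
The exact upper bound, by stability.
-/

namespace Pool.Agent.P.MP_f7c707_co

open Finset Pool.Agent.Lib.PolyPart

variable {P K : Finset V} {ρ : ℝ}

lemma ind2_eq (hρ : ρ ≠ 0) (a b d : V) (h1 : d2 b a = ρ) (h2 : d2 b d = ρ) (h3 : d2 a d = ρ) :
    Ind2 (a - b) (d - b) := by
  intro α β h
  have f1 := congrArg ((a - b) ⬝ᵥ ·) h
  have f2 := congrArg ((d - b) ⬝ᵥ ·) h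
  simp only [dotProduct_add, dotProduct_smul, smul_eq_mul, dotProduct_zero] at f1 f2
  have e1 : (a - b) ⬝ᵥ (a - b) = ρ := by rw [← h1, d2_comm]; rfl
  have e2 : (d - b) ⬝ᵥ (d - b) = ρ := by rw [← h2, d2_comm]; rfl
  have e3 : (a - b) ⬝ᵥ (d - b) = ρ / 2 := by
    simp only [d2, dotProduct, Fin.sum_univ_four, Pi.sub_apply] at h1 h2 h3 ⊢
    linarith
  rw [dotProduct_comm (d - b) (a - b)] at f2
  rw [e1, e3] at f1
  rw [e2, e3] at f2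
  constructor <;> apply mul_right_cancel₀ hρ
  · linarith
  · linarith

lemma rich_err (h : IsSt P ρ K) (hρ : ρ ≠ 0) {n Λ u : ℝ} (h2 : P2 n Λ) (hn : #P ≤ n) (hΛ : 0 ≤ Λ)
    (hu : 1 ≤ u) (hPu : #P ≤ u ^ 3) (C : Finset (Finset V))
    (hC : ∀ T ∈ C, T ∈ Cl ρ P 4 ∧ (∃ x ∈ T, x ∈ Nb P ρ K) ∧ (∃ y ∈ T, y ∈ K) ∧
      ¬ T ⊆ K ∪ Nb P ρ K) : (#C : ℝ) ≤ 4 * #P + Λ * u * (4 * #P) := by
  set N := Nb P ρ K with hN
  set W := P \ (K ∪ N) with hW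
  have hWP : #W ≤ #P := card_le_card sdiff_subset
  have n1 : ∀ z ∈ W, #(nb K z ρ) ≤ 2 := fun z hz => not_lt.1 fun h3 =>
    (mem_sdiff.1 hz).2 (mem_union_right _ (h.c1 (mem_sdiff.1 hz).1 h3))
  have n2 : ∀ z ∈ W, #(nb N z ρ) ≤ 2 := fun z hz => not_lt.1 fun h3 =>
    (mem_sdiff.1 hz).2 (mem_union_left _ (h.c2 (mem_sdiff.1 hz).1 h3))
  set A := W.biUnion fun z => {T ∈ Cl ρ (insert z (K ∪ N)) 4 | z ∈ T} with hA
  have hAc : #A ≤ #W * 4 := card_biUnion_le_card_mul _ _ _ fun z hz => by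
    refine (card_Cl_mem ρ _ 3 z).trans (Nat.choose_le_choose 3 (b := 4) ?_)
    refine le_trans (card_le_card (t := nb K z ρ ∪ nb N z ρ) fun y hy => ?_)
      ((card_union_le _ _).trans (add_le_add (n1 z hz) (n2 z hz)))
    obtain ⟨h3, h4⟩ := mem_nb.1 hy
    rcases mem_insert.1 h3 with rfl | h3
    · exact absurd (by rw [← h4, d2_self]) hρ
    · rcases mem_union.1 h3 with h3 | h3
      exacts [mem_union_left _ (mem_nb.2 ⟨h3, h4⟩), mem_union_right _ (mem_nb.2 ⟨h3, h4⟩)]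
  let Z : V × V → Finset V := fun p => {z ∈ W | d2 z p.1 = ρ ∧ d2 z p.2 = ρ}
  set B := (N ×ˢ K).sigma fun p => (Z p).sigma fun c => nb (Z p) c ρ with hB
  have hZ : ∑ p ∈ N ×ˢ K, #(Z p) ≤ 4 * #P := by
    rw [sum_card_comm W (N ×ˢ K) fun z p => d2 z p.1 = ρ ∧ d2 z p.2 = ρ]
    refine (sum_le_card_nsmul _ _ 4 fun z hz => ?_).trans (by rw [smul_eq_mul]; omega)
    refine le_trans (card_le_card (t := nb N z ρ ×ˢ nb K z ρ) fun p hp => ?_) ?_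
    · obtain ⟨h3, h4, h5⟩ := mem_filter.1 hp
      exact mem_product.2 ⟨mem_nb.2 ⟨(mem_product.1 h3).1, d2_comm _ _ ▸ h4⟩,
        mem_nb.2 ⟨(mem_product.1 h3).2, d2_comm _ _ ▸ h5⟩⟩
    · rw [card_product]
      exact Nat.mul_le_mul (n2 z hz) (n1 z hz)
  have hBc : (#B : ℝ) ≤ Λ * u * (4 * #P) := by
    have e : (#B : ℝ) = ∑ p ∈ N ×ˢ K, ∑ c ∈ Z p, (#(nb (Z p) c ρ) : ℝ) := by
      simp only [hB, card_sigma]
      push_cast
      rfl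
    have hZ' : ∑ p ∈ N ×ˢ K, (#(Z p) : ℝ) ≤ 4 * #P := by exact_mod_cast hZ
    rw [e]
    refine le_trans (sum_le_sum (g := fun p => Λ * u * #(Z p)) fun p hp => ?_) ?_
    · rcases (Z p).eq_empty_or_nonempty with e0 | hne
      · simp [e0]
      obtain ⟨v, hv, hv3⟩ := exists_root 3 (by norm_num) (x := #(Z p))
        (by exact_mod_cast hne.card_pos)
      have hZP : (#(Z p) : ℝ) ≤ #P := by exact_mod_cast (card_filter_le _ _).trans hWP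
      have hd : d2 p.1 p.2 = ρ := (mem_Nb.1 (mem_product.1 hp).1).2 _ (mem_product.1 hp).2
      have hb : ∀ b ∈ Z p, d2 b p.1 = ρ ∧ d2 b p.2 = ρ ∧ Ind2 (p.1 - b) (p.2 - b) := fun b hb =>
        ⟨(mem_filter.1 hb).2.1, (mem_filter.1 hb).2.2,
          ind2_eq hρ _ _ _ (mem_filter.1 hb).2.1 (mem_filter.1 hb).2.2 hd⟩
      refine (h2 (Z p) (Z p) p.1 p.2 ρ ρ ρ ρ ρ (hZP.trans hn)
        (fun e => hρ (by rw [← hd, e, d2_self])) hb hb v hv hv3.ge hv3.ge).trans ?_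
      have hvu : v ≤ u := le_of_pow_le_pow_left₀ (n := 3) (by norm_num) (by linarith)
        (by rw [hv3]; exact hZP.trans hPu)
      rw [← hv3, mul_assoc, pow_succ' v 3]
      gcongr
    · rw [← mul_sum]
      exact mul_le_mul_of_nonneg_left hZ' (by positivity)
  have hsub : C ⊆ A ∪ B.image fun s => vs (s.1.1, s.2.1, s.2.2, s.1.2) := by
    intro T hT
    obtain ⟨h1, ⟨x, hx, hxN⟩, ⟨y, hy, hyK⟩, h3⟩ := hC T hT
    have hxy : x ≠ y := fun e => hρ (by rw [← (mem_Nb.1 hxN).2 y hyK, e, d2_self])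
    obtain ⟨c, d, h4, rfl⟩ := four_mem (E := fun _ _ => True) h1 (fun _ _ _ _ _ => trivial)
      hx hy hxy
    obtain ⟨⟨-, k2, k3, -⟩, m1, m2, -, m4, m5, m6⟩ := mem_tet.1 (mem_ftet.1 h4).1
    dsimp only at k2 k3 m1 m2 m4 m5 m6
    have hxU : x ∈ K ∪ N := mem_union_right _ hxN
    have hyU : y ∈ K ∪ N := mem_union_left _ hyK
    have one : ∀ z ∈ P, z ∉ K ∪ N → z ∈ vs (x, c, d, y) → vs (x, c, d, y) ⊆ insert z (K ∪ N) →
        vs (x, c, d, y) ∈ A := fun z a1 a2 a3 a4 =>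
      mem_biUnion.2 ⟨z, mem_sdiff.2 ⟨a1, a2⟩, mem_filter.2 ⟨mem_Cl.2 ⟨a4, (mem_Cl.1 h1).2⟩, a3⟩⟩
    by_cases hc : c ∈ K ∪ N <;> by_cases hd : d ∈ K ∪ N
    · exact absurd (by simp only [vs, insert_subset_iff, singleton_subset_iff]; tauto) h3
    · refine mem_union_left _ (one d k3 hd (by simp [vs]) ?_)
      simp only [vs, insert_subset_iff, singleton_subset_iff, mem_insert]; tauto
    · refine mem_union_left _ (one c k2 hc (by simp [vs]) ?_)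
      simp only [vs, insert_subset_iff, singleton_subset_iff, mem_insert]; tauto
    · exact mem_union_right _ (mem_image.2 ⟨⟨(x, y), c, d⟩, mem_sigma.2 ⟨mem_product.2 ⟨hxN, hyK⟩,
        mem_sigma.2 ⟨mem_filter.2 ⟨mem_sdiff.2 ⟨k2, hc⟩, d2_comm _ _ ▸ m1, m5⟩,
          mem_nb.2 ⟨mem_filter.2 ⟨mem_sdiff.2 ⟨k3, hd⟩, d2_comm _ _ ▸ m2, m6⟩,
            d2_comm _ _ ▸ m4⟩⟩⟩, rfl⟩)
  have h5 : #C ≤ 4 * #P + #B :=
    ((card_le_card hsub).trans (card_union_le _ _)).trans (add_le_add (by omega) card_image_le)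
  have h6 : (#C : ℝ) ≤ 4 * #P + #B := by exact_mod_cast h5
  linarith

lemma bonf {α : Type*} [DecidableEq α] (c : ℕ) (B : Finset (Finset α))
    (h : ∀ x ∈ B, ∀ x' ∈ B, x ≠ x' → #(x ∩ x') ≤ c) :
    ∑ x ∈ B, #x ≤ #(B.biUnion id) + c * #B ^ 2 := by
  induction B using Finset.induction_on with
  | empty => simp
  | insert a B ha ih =>
    have h1 := ih fun x hx x' hx' => h x (mem_insert_of_mem hx) x' (mem_insert_of_mem hx')
    rw [sum_insert ha, biUnion_insert, card_insert_of_notMem ha]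
    have h2 := card_union_add_card_inter a (B.biUnion id)
    have h3 : #(a ∩ B.biUnion id) ≤ #B * c := by
      rw [inter_biUnion]
      exact card_biUnion_le_card_mul _ _ _ fun x hx =>
        h a (mem_insert_self _ _) x (mem_insert_of_mem hx) (fun h => ha (h ▸ hx))
    simp only [id] at h1 h2 h3 ⊢
    nlinarith

theorem up_core (hρ : ρ ≠ 0) (Q : V → Ix → Pl) (L : ℕ) (hL : 2 ≤ L) {n Λ u : ℝ} (h2 : P2 n Λ)
    (hn : #P ≤ n) (hΛ : 0 ≤ Λ) (hu : 1 ≤ u) (hPu : #P ≤ u ^ 3) {D : ℝ} (hD0 : 0 ≤ D)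
    (hD : ∀ K, IsSt P ρ K → #(K ∪ Nb P ρ K) ≤ D) :
    (#(Cl ρ P 4) : ℝ) ≤ D * (#P + 8 * L ^ 2) / 3 + L * (4 * #P + Λ * u * (4 * #P)) +
      #(ftet P (Fr Q) ρ ρ ρ ρ ρ ρ) + 192 * (#(ftri P (Fr Q) ρ ρ ρ) +
        1152 * (#(fed P (Fr Q) ρ) + 96 * ((#P + L ^ 2) / L * #P))) := by
  classical
  set F := {K ∈ (P ×ˢ univ).image fun p : V × Ix => St P ρ p.1 (Q p.1 p.2) |
    #P + L ^ 2 < L * #K} with hF
  have hSt : ∀ K ∈ F, IsSt P ρ K := fun K hK => by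
    obtain ⟨h1, h3⟩ := mem_filter.1 hK
    obtain ⟨p, -, rfl⟩ := mem_image.1 h1
    refine ⟨?_, _, _, rfl⟩
    by_contra h4
    have := Nat.mul_le_mul_left L ((not_lt.1 h4).trans hL)
    nlinarith
  have hFL : #F ≤ L := by
    by_contra h1
    obtain ⟨B, hB, hc⟩ := exists_subset_card_eq (not_le.1 h1).le
    have h3 := bonferroni id B fun x hx x' hx' => (hSt x (hB hx)).inter_le (hSt x' (hB hx'))
    have h4 : #(B.biUnion id) ≤ #P := card_le_card (biUnion_subset.2 fun x hx => (hSt x (hB hx)).sub)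
    have h5 := card_nsmul_le_sum B (fun K => L * #K) (#P + L ^ 2 + 1)
      fun x hx => (mem_filter.1 (hB hx)).2
    rw [← mul_sum, hc, smul_eq_mul] at h5
    have h6 := Nat.le_of_mul_le_mul_left h5 (by omega)
    simp only [id, hc] at h3 h4
    omega
  let E : V → V → Prop := fun x y => ∀ K ∈ F, ¬ (x ∈ Nb P ρ K ∧ y ∈ K) ∧ ¬ (y ∈ Nb P ρ K ∧ x ∈ K)
  have hE : ∀ x y, E x y → E y x := fun x y h K hK => (h K hK).symm
  have p2 := poor_two (P := P) (ρ := ρ) Q hE ((#P + L ^ 2) / L) fun p hp i hi => by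
    obtain ⟨⟨a1, a2⟩, a3, a4⟩ := mem_fed.1 hp
    rw [Nat.le_div_iff_mul_le (by omega), mul_comm]
    by_contra h1
    exact (a4 _ (mem_filter.2 ⟨mem_image.2 ⟨(p.1, i), mem_product.2 ⟨a1, mem_univ _⟩, rfl⟩,
      not_le.1 h1⟩)).1 ⟨mem_Nb.2 ⟨a1, fun y hy => (mem_St.1 hy).2.1⟩, mem_St.2 ⟨a2, a3, hi⟩⟩
  have p3 := poor_tri (P := P) hρ Q hE
  obtain ⟨C₀, hC₀⟩ : ∃ C₀ : Finset (Finset V), ∀ T, T ∈ C₀ ↔
      T ∈ Cl ρ P 4 ∧ ∀ a ∈ T, ∀ b ∈ T, a ≠ b → E a b :=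
    ⟨{T ∈ Cl ρ P 4 | ∀ a ∈ T, ∀ b ∈ T, a ≠ b → E a b}, fun T => mem_filter⟩
  have p4 := poor_tet (P := P) (E := E) hρ Q C₀ fun T hT => (hC₀ T).1 hT
  set U := F.image fun K => K ∪ Nb P ρ K with hU
  let R : Finset V → Finset (Finset V) := fun K => {T ∈ Cl ρ P 4 | (∃ x ∈ T, x ∈ Nb P ρ K) ∧
    (∃ y ∈ T, y ∈ K) ∧ ¬ T ⊆ K ∪ Nb P ρ K}
  have hsub : Cl ρ P 4 ⊆ C₀ ∪ (U.biUnion fun X => Cl ρ X 4) ∪ F.biUnion R := by
    intro T hT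
    by_cases h0 : T ∈ C₀
    · exact mem_union_left _ (mem_union_left _ h0)
    have h1 : ∃ K ∈ F, (∃ x ∈ T, x ∈ Nb P ρ K) ∧ ∃ y ∈ T, y ∈ K := by
      by_contra h1
      exact h0 ((hC₀ T).2 ⟨hT, fun a ha b hb _ K hK =>
        ⟨fun h => h1 ⟨K, hK, ⟨a, ha, h.1⟩, b, hb, h.2⟩, fun h => h1 ⟨K, hK, ⟨b, hb, h.1⟩, a, ha, h.2⟩⟩⟩)
    obtain ⟨K, hK, h3, h4⟩ := h1
    by_cases h5 : T ⊆ K ∪ Nb P ρ K
    · exact mem_union_left _ (mem_union_right _ (mem_biUnion.2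
        ⟨_, mem_image_of_mem _ hK, mem_Cl.2 ⟨h5, (mem_Cl.1 hT).2⟩⟩))
    · exact mem_union_right _ (mem_biUnion.2 ⟨K, hK, mem_filter.2 ⟨hT, h3, h4, h5⟩⟩)
  have hUL : #U ≤ L := card_image_le.trans hFL
  have m1 : ∑ X ∈ U, #X ≤ #P + 8 * L ^ 2 := by
    have b1 := bonf 8 U fun X hX X' hX' hne => by
      obtain ⟨K, hK, rfl⟩ := mem_image.1 hX
      obtain ⟨K', hK', rfl⟩ := mem_image.1 hX'
      exact (hSt K hK).overlap (hSt K' hK') hne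
    have b2 : #(U.biUnion id) ≤ #P := card_le_card (biUnion_subset.2 fun X hX => by
      obtain ⟨K, hK, rfl⟩ := mem_image.1 hX
      exact union_subset (hSt K hK).sub fun x hx => (mem_Nb.1 hx).1)
    have b3 := Nat.pow_le_pow_left hUL 2
    omega
  have m5 : 3 * ∑ X ∈ U, (#(Cl ρ X 4) : ℝ) ≤ D * (#P + 8 * L ^ 2) := by
    rw [mul_sum]
    calc _ ≤ ∑ X ∈ U, D * (#X : ℝ) := sum_le_sum fun X hX => by
          obtain ⟨K, hK, rfl⟩ := mem_image.1 hX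
          have b1 : 3 * (#(Cl ρ (K ∪ Nb P ρ K) 4) : ℝ) ≤ (#(K ∪ Nb P ρ K) : ℝ) ^ 2 := by
            exact_mod_cast (hSt K hK).card_four hρ
          rw [sq] at b1
          exact b1.trans (mul_le_mul_of_nonneg_right (hD K (hSt K hK)) (by positivity))
      _ ≤ _ := by
          rw [← mul_sum]
          exact mul_le_mul_of_nonneg_left (by exact_mod_cast m1) hD0
  have m2 : ∑ K ∈ F, (#(R K) : ℝ) ≤ L * (4 * #P + Λ * u * (4 * #P)) := by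
    refine (sum_le_card_nsmul _ _ _ fun K hK => rich_err (hSt K hK) hρ h2 hn hΛ hu hPu (R K)
      fun T hT => mem_filter.1 hT).trans ?_
    rw [nsmul_eq_mul]
    exact mul_le_mul_of_nonneg_right (by exact_mod_cast hFL) (by positivity)
  have m3 : #(Cl ρ P 4) ≤ #C₀ + ∑ X ∈ U, #(Cl ρ X 4) + ∑ K ∈ F, #(R K) :=
    ((card_le_card hsub).trans (card_union_le _ _)).trans (add_le_add
      ((card_union_le _ _).trans (add_le_add le_rfl card_biUnion_le)) card_biUnion_le)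
  have m4 : (#(Cl ρ P 4) : ℝ) ≤ #C₀ + ∑ X ∈ U, (#(Cl ρ X 4) : ℝ) + ∑ K ∈ F, (#(R K) : ℝ) := by
    exact_mod_cast m3
  have m6 : (((#P + L ^ 2) / L : ℕ) : ℝ) * #P ≤ (#P + L ^ 2) / L * #P :=
    mul_le_mul_of_nonneg_right (Nat.cast_div_le.trans (by push_cast; rfl)) (by positivity)
  linarith

/-- The upper bound with a power saving. -/
def PU (n Λ : ℝ) : Prop :=
  ∀ (P : Finset V) (ρ ν D : ℝ), #P = n → ρ ≠ 0 → 1 ≤ ν → ν ^ 8000 = n → 0 ≤ D → D ≤ n →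
    (∀ K, IsSt P ρ K → #(K ∪ Nb P ρ K) ≤ D) → (#(Cl ρ P 4) : ℝ) ≤ D * n / 3 + Λ * ν ^ 15999

theorem ev_PU : Ev PU := by
  refine (((ev_PG.and ev_PF).and ev_PT).and ev_P2).pow 1000000000 3
    fun n Λ Λ' _ hΛ hΛ' ⟨⟨⟨hG, hF⟩, hT⟩, h2⟩ P ρ ν D hP hρ hν hνn hD0 hDn hD => ?_
  obtain ⟨Q, hQ⟩ := hG P (fun _ => ρ) ν hP.le hν hνn
  have c2 := (card_fed_le (P := P) (E := Fr Q) (ρ := ρ)).trans (hQ 0)
  have c3 := hF P (Fr Q) ρ ρ ρ ν Λ (Fr.symm Q) hP.le hρ hρ hρ hν hΛ hνn (by simpa using hQ 0)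
  have hρ2 : ρ ≠ ρ + ρ := fun h => hρ (by linarith)
  have c4 := hT P (Fr Q) ρ ρ ρ ρ ρ ρ ν (Λ * Λ) (Fr.symm Q) hP.le hρ hρ hρ hρ hρ hρ hρ2 hρ2
    (ind2_eq hρ) (ind2_eq hρ) hν (one_le_mul_of_one_le_of_one_le hΛ hΛ) hνn (by simpa using c3)
  have hL1 : ν ≤ (⌈ν⌉₊ + 1 : ℕ) := by push_cast; linarith [Nat.le_ceil ν]
  have hL2 : ((⌈ν⌉₊ + 1 : ℕ) : ℝ) ≤ 3 * ν := by
    push_cast; linarith [Nat.ceil_lt_add_one (show 0 ≤ ν by linarith)]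
  have hL4 := Nat.one_le_ceil_iff.2 (show 0 < ν by linarith)
  have key := up_core (P := P) hρ Q (⌈ν⌉₊ + 1) (by omega)
    h2 hP.le (by linarith) (one_le_pow₀ hν (n := 2667)) (by
      rw [hP, ← hνn, ← pow_mul]; exact pow_le_pow_right₀ hν (by norm_num)) hD0 hD
  generalize ((⌈ν⌉₊ + 1 : ℕ) : ℝ) = L at hL1 hL2 key
  rw [hP] at key
  have hν0 : 0 < ν := by linarith
  have hL0 : 0 < L := by linarith
  have pw : ∀ k : ℕ, k ≤ 15999 → ν ^ k ≤ ν ^ 15999 := fun k hk => pow_le_pow_right₀ hν hk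
  set X := ν ^ 15999 with hX
  have hX0 : 0 < X := by positivity
  have hL3 : L ^ 2 ≤ 9 * ν ^ 2 := by nlinarith
  have a1 : n * L ^ 2 ≤ 9 * X := by
    calc _ ≤ ν ^ 8000 * (9 * ν ^ 2) := by rw [← hνn]; gcongr
      _ = 9 * ν ^ 8002 := by ring
      _ ≤ _ := by linarith [pw 8002 (by norm_num)]
  have a2 : D * L ^ 2 ≤ n * L ^ 2 := by gcongr
  have a3 : L * (4 * n + Λ * ν ^ 2667 * (4 * n)) ≤ 12 * X + 12 * (Λ * X) := by
    calc _ ≤ 3 * ν * (4 * ν ^ 8000 + Λ * ν ^ 2667 * (4 * ν ^ 8000)) := by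
          rw [← hνn]; gcongr
      _ = 12 * ν ^ 8001 + 12 * (Λ * ν ^ 10668) := by ring
      _ ≤ _ := by gcongr <;> exact pw _ (by norm_num)
  have a4 : (n + L ^ 2) / L * n ≤ 10 * X := by
    calc _ ≤ (ν ^ 8000 + 9 * ν ^ 2) / ν * ν ^ 8000 := by rw [← hνn]; gcongr
      _ = X + 9 * ν ^ 8001 := by rw [hX]; field_simp
      _ ≤ _ := by linarith [pw 8001 (by norm_num)]
  have a5 : Λ * ν ^ 12800 ≤ Λ * X := by gcongr; exact pw _ (by norm_num)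
  have b1 : X ≤ Λ * X := le_mul_of_one_le_left hX0.le hΛ
  have b2 : Λ * X ≤ Λ * Λ * X := by rw [mul_assoc]; exact le_mul_of_one_le_left (by positivity) hΛ
  have b3 : Λ * Λ * X ≤ Λ * (Λ * Λ) * X := by
    rw [mul_assoc Λ (Λ * Λ)]; exact le_mul_of_one_le_left (by positivity) hΛ
  have b4 : 1000000000 * (Λ * (Λ * Λ) * X) ≤ Λ' * X := by
    have := mul_le_mul_of_nonneg_right hΛ' hX0.le
    push_cast at this
    linarith
  have b5 : D * (n + 8 * L ^ 2) = D * n + 8 * (D * L ^ 2) := by ring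
  linarith

theorem cl_le {δ : ℝ} (hδ : 0 < δ) : ∃ N : ℕ, ∀ (P : Finset V) (ρ D : ℝ), ρ ≠ 0 → N ≤ #P →
    0 ≤ D → D ≤ #P → (∀ K, IsSt P ρ K → #(K ∪ Nb P ρ K) ≤ D) →
    (#(Cl ρ P 4) : ℝ) ≤ D * #P / 3 + δ * (#P : ℝ) ^ 2 := by
  obtain ⟨C, hC, h⟩ := ev_PU ((16000 : ℕ) : ℝ)⁻¹ (by positivity)
  refine ⟨⌈(C / δ) ^ 16000⌉₊ + 1, fun P ρ D hρ hP hD0 hDn hD => ?_⟩
  have hn : (1 : ℝ) ≤ #P := by exact_mod_cast le_trans (Nat.le_add_left _ _) hP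
  have h1 := Real.rpow_inv_natCast_pow (x := #P) (n := 16000) (by linarith) (by norm_num)
  have h2 := Real.one_le_rpow hn (z := ((16000 : ℕ) : ℝ)⁻¹) (by positivity)
  have h3 := h _ hn _ le_rfl P ρ (((#P : ℝ) ^ ((16000 : ℕ) : ℝ)⁻¹) ^ 2) D rfl hρ
    (one_le_pow₀ h2) (by rw [← pow_mul]; exact h1) hD0 hDn hD
  generalize (#P : ℝ) ^ ((16000 : ℕ) : ℝ)⁻¹ = μ at h1 h2 h3
  have h4 : C / δ ≤ μ := le_of_pow_le_pow_left₀ (n := 16000) (by norm_num) (by linarith) (by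
    rw [h1]
    exact (Nat.le_ceil _).trans (by exact_mod_cast le_trans (Nat.le_succ _) hP))
  rw [div_le_iff₀' hδ] at h4
  refine h3.trans (add_le_add le_rfl ?_)
  calc _ ≤ δ * μ * μ * (μ ^ 2) ^ 15999 := by gcongr
    _ = δ * (μ ^ 16000) ^ 2 := by ring
    _ = _ := by rw [h1]

theorem near_le : ∃ C : ℝ, 1 ≤ C ∧ ∀ (P K : Finset V) (ρ : ℝ), ρ ≠ 0 → IsSt P ρ K →
    (#(Cl ρ P 4) : ℝ) ≤ #(Cl ρ (K ∪ Nb P ρ K) 4) + C * (#(P \ (K ∪ Nb P ρ K)) : ℝ) ^ 2 := by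
  classical
  obtain ⟨C₃, hC₃, h₃⟩ := tri_le
  obtain ⟨C₄, hC₄, h₄⟩ := tet_le
  refine ⟨16 * (2 + C₃ + C₄), by linarith, fun P K ρ hρ h => ?_⟩
  set N := Nb P ρ K with hN
  set W := P \ (K ∪ N) with hW
  have hρ2 : ρ ≠ ρ + ρ := fun h => hρ (by linarith)
  have c1 : #(Cl ρ W 1) ≤ #W ^ 2 := by
    refine (card_le_card fun T hT => mem_powersetCard.2 ⟨(mem_Cl.1 hT).1, (mem_Cl.1 hT).2.1⟩).trans ?_
    rw [card_powersetCard, Nat.choose_one_right]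
    exact Nat.le_self_pow two_ne_zero _
  have c2 : #(Cl ρ W 2) ≤ #W ^ 2 := by
    refine (card_le_card fun T hT => mem_powersetCard.2 ⟨(mem_Cl.1 hT).1, (mem_Cl.1 hT).2.1⟩).trans ?_
    rw [card_powersetCard]
    exact Nat.choose_le_pow _ _
  have c3 : #(Cl ρ W 3) ≤ #(tri W ρ ρ ρ) := by
    refine (card_le_card fun T hT => ?_).trans
      (card_image_le (f := fun t : V × V × V => ({t.1, t.2.1, t.2.2} : Finset V)))
    obtain ⟨s1, s2, s3⟩ := mem_Cl.1 hT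
    obtain ⟨a, b, c, ab, ac, bc, rfl⟩ := card_eq_three.1 s2
    exact mem_image.2 ⟨(a, b, c), mem_tri.2 ⟨⟨s1 (by simp), s1 (by simp), s1 (by simp)⟩,
      s3 a (by simp) b (by simp) ab, s3 a (by simp) c (by simp) ac,
      s3 b (by simp) c (by simp) bc⟩, rfl⟩
  have c4 : #(Cl ρ W 4) ≤ #(tet W ρ ρ ρ ρ ρ ρ) := by
    refine (card_le_card fun T hT => ?_).trans (card_image_le (f := vs))
    obtain ⟨a, ha, b, hb, hab⟩ := one_lt_card.1 (show 1 < #T by rw [(mem_Cl.1 hT).2.1]; norm_num)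
    obtain ⟨c, d, h3, h4⟩ := four_mem (E := fun _ _ => True) hT (fun _ _ _ _ _ => trivial) ha hb hab
    exact mem_image.2 ⟨_, (mem_ftet.1 h3).1, h4⟩
  have d3 := h₃ W ρ ρ ρ hρ hρ hρ
  have d4 := h₄ W ρ ρ ρ ρ ρ ρ hρ hρ hρ hρ hρ hρ hρ2 hρ2 (ind2_eq hρ) (ind2_eq hρ)
  have e1 : #(Cl ρ P 4 \ Cl ρ (K ∪ N) 4) ≤
      16 * #(Cl ρ W 1 ∪ Cl ρ W 2 ∪ Cl ρ W 3 ∪ Cl ρ W 4) := by
    have ne : ∀ T ∈ Cl ρ P 4 \ Cl ρ (K ∪ N) 4, (T \ (K ∪ N)).Nonempty := fun T hT =>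
      sdiff_nonempty.2 fun h1 => (mem_sdiff.1 hT).2 (mem_Cl.2 ⟨h1, (mem_Cl.1 (mem_sdiff.1 hT).1).2⟩)
    apply card_le_mul_card_image_of_maps_to (f := fun T => T \ (K ∪ N))
    · intro T hT
      obtain ⟨s1, s2, s3⟩ := mem_Cl.1 (mem_sdiff.1 hT).1
      have k : T \ (K ∪ N) ∈ Cl ρ W #(T \ (K ∪ N)) := mem_Cl.2 ⟨sdiff_subset_sdiff s1 Subset.rfl, rfl,
        fun a ha b hb => s3 a (mem_sdiff.1 ha).1 b (mem_sdiff.1 hb).1⟩
      have k1 := (ne T hT).card_pos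
      have k2 : #(T \ (K ∪ N)) ≤ 4 := (card_le_card sdiff_subset).trans s2.le
      simp only [mem_union]
      generalize #(T \ (K ∪ N)) = j at k k1 k2
      interval_cases j <;> simp [k]
    · intro S _
      rcases ({T ∈ Cl ρ P 4 \ Cl ρ (K ∪ N) 4 | T \ (K ∪ N) = S}).eq_empty_or_nonempty with
        e | ⟨T₀, hT₀⟩
      · rw [e]; exact Nat.zero_le _
      obtain ⟨h1, rfl⟩ := mem_filter.1 hT₀
      obtain ⟨z, hz⟩ := ne T₀ h1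
      have hzP := (mem_Cl.1 (mem_sdiff.1 h1).1).1 (mem_sdiff.1 hz).1
      have hzU := (mem_sdiff.1 hz).2
      have n1 : #(nb K z ρ) ≤ 2 := not_lt.1 fun h3 => hzU (mem_union_right _ (h.c1 hzP h3))
      have n2 : #(nb N z ρ) ≤ 2 := not_lt.1 fun h3 => hzU (mem_union_left _ (h.c2 hzP h3))
      refine le_trans (card_le_card_of_injOn (t := (nb K z ρ ∪ nb N z ρ).powerset)
        (fun T => T ∩ (K ∪ N)) ?_ ?_) ?_
      · intro T hT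
        obtain ⟨h2, h3⟩ := mem_filter.1 (mem_coe.1 hT)
        rw [← h3] at hz
        refine mem_coe.2 (mem_powerset.2 fun y hy => ?_)
        obtain ⟨h4, h5⟩ := mem_inter.1 hy
        have h6 := (mem_Cl.1 (mem_sdiff.1 h2).1).2.2 y h4 z (mem_sdiff.1 hz).1
          fun e => hzU (e ▸ h5)
        rcases mem_union.1 h5 with h5 | h5
        exacts [mem_union_left _ (mem_nb.2 ⟨h5, h6⟩), mem_union_right _ (mem_nb.2 ⟨h5, h6⟩)]
      · intro T hT T' hT' e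
        dsimp only at e
        rw [← sdiff_union_inter T (K ∪ N), ← sdiff_union_inter T' (K ∪ N), e,
          (mem_filter.1 (mem_coe.1 hT)).2, (mem_filter.1 (mem_coe.1 hT')).2]
      · rw [card_powerset]
        exact Nat.pow_le_pow_right two_pos ((card_union_le _ _).trans (add_le_add n1 n2))
  have e2 := le_card_sdiff (Cl ρ (K ∪ N) 4) (Cl ρ P 4)
  have e3 := card_union_le (Cl ρ W 1 ∪ Cl ρ W 2 ∪ Cl ρ W 3) (Cl ρ W 4)
  have e4 := card_union_le (Cl ρ W 1 ∪ Cl ρ W 2) (Cl ρ W 3)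
  have e5 := card_union_le (Cl ρ W 1) (Cl ρ W 2)
  have e6 : #(Cl ρ P 4) ≤ #(Cl ρ (K ∪ N) 4) +
      16 * (2 * #W ^ 2 + #(tri W ρ ρ ρ) + #(tet W ρ ρ ρ ρ ρ ρ)) := by omega
  have e7 : (#(Cl ρ P 4) : ℝ) ≤ _ := Nat.cast_le.2 e6
  push_cast at e7
  linarith

theorem cl_exact : ∃ N : ℕ, ∀ (P : Finset V) (ρ : ℝ), ρ ≠ 0 → N ≤ #P →
    (#(Cl ρ P 4) : ℤ) ≤ Fv #P := by
  obtain ⟨C, hC, h⟩ := near_le
  have hε : 0 < 1 / (2 * C + 1) := by positivity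
  have hεC : 1 / (2 * C + 1) * (2 * C + 1) = 1 := by field_simp
  generalize 1 / (2 * C + 1) = ε at hε hεC
  have hε3 : ε ≤ 1 / 3 := by nlinarith
  obtain ⟨N, hN⟩ := cl_le (δ := ε / 6) (by positivity)
  refine ⟨N + ⌈6 / ε⌉₊ + 25, fun P ρ hρ hP => ?_⟩
  have hn : (25 : ℝ) ≤ #P := by exact_mod_cast (by omega : 25 ≤ #P)
  by_cases hc : ∀ K, IsSt P ρ K → (#(K ∪ Nb P ρ K) : ℝ) ≤ (1 - ε) * #P
  · have h1 := hN P ρ _ hρ (by omega) (by nlinarith) (by nlinarith) hc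
    have h2 : ((#P : ℝ)) ^ 2 - 2 * #P - 25 ≤ 3 * (Fv #P : ℝ) := by
      exact_mod_cast sq_le_Fv (n := #P) (by positivity)
    have h3 : 6 / ε ≤ #P := (Nat.le_ceil _).trans (by exact_mod_cast (by omega : _ ≤ #P))
    rw [div_le_iff₀' hε] at h3
    have h4 : (#(Cl ρ P 4) : ℝ) ≤ (Fv #P : ℝ) := by nlinarith
    exact_mod_cast h4
  push Not at hc
  obtain ⟨K, hK, h1⟩ := hc
  have h2 := h P K ρ hρ hK
  have h3 := card_sdiff_add_card_eq_card (union_subset hK.sub fun x (hx : x ∈ Nb P ρ K) =>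
    (mem_Nb.1 hx).1)
  have h3' : (#(P \ (K ∪ Nb P ρ K)) : ℝ) + #(K ∪ Nb P ρ K) = #P := by exact_mod_cast h3
  have h4 : (16 : ℝ) ≤ #(K ∪ Nb P ρ K) := by nlinarith
  have h5 := hK.card_exact hρ (by exact_mod_cast h4)
  have h6 := le_Fv #P ((#(K ∪ Nb P ρ K) + 2) / 6)
  have h7 : (#(K ∪ Nb P ρ K) : ℤ) - 3 ≤ 6 * ((#(K ∪ Nb P ρ K) + 2) / 6) := by omega
  unfold Fv at h5
  generalize ((#(K ∪ Nb P ρ K) : ℤ) + 2) / 6 = p at h5 h6 h7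
  have h5' : (#(Cl ρ (K ∪ Nb P ρ K) 4) : ℝ) ≤ p * (4 * #(K ∪ Nb P ρ K) - 12 * p - 3) := by
    exact_mod_cast h5
  have h6' : (p : ℝ) * (4 * #P - 12 * p - 3) ≤ (Fv #P : ℝ) := by exact_mod_cast h6
  have h7' : (#(K ∪ Nb P ρ K) : ℝ) - 3 ≤ 6 * p := by exact_mod_cast h7
  have hm : (0 : ℝ) ≤ #(P \ (K ∪ Nb P ρ K)) := by positivity
  generalize (#(P \ (K ∪ Nb P ρ K)) : ℝ) = m at *
  generalize (#(K ∪ Nb P ρ K) : ℝ) = u at *
  have h8 : 2 * C * m ≤ u := by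
    have : (1 - ε) * (m + u) * (2 * C + 1) ≤ u * (2 * C + 1) :=
      mul_le_mul_of_nonneg_right (by rw [h3']; exact h1.le) (by linarith)
    have e : (1 - ε) * (m + u) * (2 * C + 1) = 2 * C * (m + u) := by
      linear_combination (-(m + u)) * hεC
    linarith
  have h9 : C * m * m ≤ 4 * p * m := mul_le_mul_of_nonneg_right (by linarith) hm
  have h10 : (#(Cl ρ P 4) : ℝ) ≤ (Fv #P : ℝ) := by
    rw [← h3'] at h6'
    nlinarith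
  exact_mod_cast h10

end Pool.Agent.P.MP_f7c707_co
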