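import Pool.Agent.P.MP_f7c707_co.ShD

/-!
Three vertices in one plane.
-/

namespace Pool.Agent.P.MP_f7c707_co.Sh

open Finset Complex

variable {d : Tb} {U W U' W' : Finset ℝ} {ψ ψ' : Lb} {i k j l : Fin 4}

/-- Gram determinant of a base seen from an apex at squared height `h`. -/
noncomputable def gd (p q r e f g h : ℝ) : ℝ :=
  (p - h) * ((q - h) * (r - h) - ((q + r - g) / 2 - h) ^ 2) -
    ((p + q - e) / 2 - h) * (((p + q - e) / 2 - h) * (r - h) -
      ((q + r - g) / 2 - h) * ((p + r - f) / 2 - h)) +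
    ((p + r - f) / 2 - h) * (((p + q - e) / 2 - h) * ((q + r - g) / 2 - h) -
      (q - h) * ((p + r - f) / 2 - h))

lemma sha_sq (α a : Fin 4 → ℝ) (h0 : ∑ i, α i = 0) (h1 : ∑ i, α i * a i = 0) :
    ∑ i, ∑ j, α i * α j * ((a i - a j) * (a i - a j)) = 0 := by
  simp only [Fin.sum_univ_four] at h0 h1 ⊢
  linear_combination (2 * (α 0 * a 0 ^ 2 + α 1 * a 1 ^ 2 + α 2 * a 2 ^ 2 + α 3 * a 3 ^ 2)) * h0 -
    2 * (α 0 * a 0 + α 1 * a 1 + α 2 * a 2 + α 3 * a 3) * h1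

lemma sha_dep (hd : ND d) (h : Em d U W ψ) (α : Fin 4 → ℝ) (h0 : ∑ i, α i = 0)
    (h1 : ∑ i, α i * (ψ i).1.re = 0) (h2 : ∑ i, α i * (ψ i).1.im = 0)
    (h3 : ∑ i, α i * (ψ i).2.re = 0) (h4 : ∑ i, α i * (ψ i).2.im = 0) : α = 0 := by
  refine hd.nd α h0 ?_
  have e1 := sha_sq α _ h0 h1
  have e2 := sha_sq α _ h0 h2
  have e3 := sha_sq α _ h0 h3
  have e4 := sha_sq α _ h0 h4
  simp only [← h.ds, D2, normSq_apply, sub_re, sub_im, mul_add, sum_add_distrib]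
  rw [e1, e2, e3, e4]
  simp

lemma sha_flat (hd : ND d) (h : Em d U W ψ) (a : ∀ i, (ψ i).2 = 0) : False := by
  have h1 : ¬ LinearIndependent ℝ fun i : Fin 4 => (![1, (ψ i).1.re, (ψ i).1.im] : Fin 3 → ℝ) :=
    fun h => by simpa using h.fintype_card_le_finrank
  obtain ⟨g, h2, i, h3⟩ := Fintype.not_linearIndependent_iff.1 h1
  refine h3 (congrFun (sha_dep hd h g ?_ ?_ ?_ (by simp [a]) (by simp [a])) i)
  · simpa using congrFun h2 0
  · simpa using congrFun h2 1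
  · simpa using congrFun h2 2

/-- The apex is in the second plane and not at the origin. -/
lemma A2.top (hd : ND d) (h : Em d U W ψ) (a : A2 j ψ) : (ψ j).1 = 0 ∧ (ψ j).2 ≠ 0 := by
  have h1 : (ψ j).2 ≠ 0 := fun e => sha_flat hd h fun i => by
    by_cases hi : i = j
    · rw [hi, e]
    · exact a i hi
  exact ⟨(h.fr j).resolve_right h1, h1⟩

lemma sha_apex (hd : ND d) (h : Em d U W ψ) (a : A2 j ψ) (hi : i ≠ j) :
    d i j = normSq (ψ i).1 + normSq (ψ j).2 := by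
  rw [← h.ds, D2, (a.top hd h).1, a i hi, sub_zero, zero_sub, normSq_neg]

lemma sha_base (h : Em d U W ψ) (a : A2 j ψ) (hi : i ≠ j) (hk : k ≠ j) :
    d i k = normSq ((ψ i).1 - (ψ k).1) := by
  rw [← h.ds, D2, a i hi, a k hk, sub_zero, map_zero, add_zero]

lemma A2.data (hd : ND d) (h : Em d U W ψ) (a : A2 j ψ) :
    normSq (ψ j).2 ∈ W ∧ 0 < normSq (ψ j).2 ∧ ∀ i, i ≠ j →
      (d i j - normSq (ψ j).2 ∈ U ∧ 0 < d i j - normSq (ψ j).2) ∨
        (d i j = normSq (ψ j).2 ∧ ∀ k, k ≠ i → k ≠ j → d k j = d k i + d i j ∧ d k i ∈ U) := by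
  refine ⟨h.hW j (a.top hd h).2, normSq_pos.2 (a.top hd h).2, fun i hi => ?_⟩
  have e := sha_apex hd h a hi
  by_cases h0 : (ψ i).1 = 0
  · rw [h0, map_zero, zero_add] at e
    refine Or.inr ⟨e, fun k hk hj => ?_⟩
    have e1 := sha_base h a hj hi
    rw [h0, sub_zero] at e1
    refine ⟨by rw [sha_apex hd h a hj, e1, e], ?_⟩
    rw [e1]
    exact h.hU k (normSq_pos.1 (e1 ▸ hd.ps k i hk))
  · rw [e, add_sub_cancel_right]
    exact Or.inl ⟨h.hU i h0, normSq_pos.2 h0⟩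

lemma A2.det (hd : ND d) (c : Cov i k l j) (h : Em d U W ψ) (a : A2 j ψ) :
    gd (d i j) (d k j) (d l j) (d i k) (d i l) (d k l) (normSq (ψ j).2) = 0 := by
  obtain ⟨-, -, n1, -, n2, n3⟩ := c.ne
  rw [sha_apex hd h a n1, sha_apex hd h a n2, sha_apex hd h a n3, sha_base h a n1 n2,
    sha_base h a n1 n3, sha_base h a n2 n3]
  generalize normSq (ψ j).2 = s
  simp only [gd, normSq_apply, sub_re, sub_im]
  ring

/-- Twice the signed area of the base. -/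
def shaX (ψ : Lb) : ℝ :=
  ((ψ 1).1.re - (ψ 0).1.re) * ((ψ 2).1.im - (ψ 0).1.im) -
    ((ψ 1).1.im - (ψ 0).1.im) * ((ψ 2).1.re - (ψ 0).1.re)

lemma sha_X_sq (h : Em d U W ψ) (a : A2 3 ψ) :
    shaX ψ ^ 2 = d 0 1 * d 0 2 - ((d 0 1 + d 0 2 - d 1 2) / 2) ^ 2 := by
  rw [sha_base h a (i := 0) (k := 1) (by decide) (by decide),
    sha_base h a (i := 0) (k := 2) (by decide) (by decide),
    sha_base h a (i := 1) (k := 2) (by decide) (by decide)]
  simp only [shaX, normSq_apply, sub_re, sub_im]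
  ring

lemma sha_X_ne (hd : ND d) (h : Em d U W ψ) (a : A2 3 ψ) : shaX ψ ≠ 0 := by
  intro e
  have e0 := sha_base h a (i := 0) (k := 1) (by decide) (by decide)
  have e1 := hd.ps 0 1 (by decide)
  simp only [normSq_apply, sub_re, sub_im] at e0
  simp only [shaX] at e
  obtain ⟨s, hs⟩ : ∃ s, s = ((ψ 1).1.re - (ψ 0).1.re) * ((ψ 2).1.re - (ψ 0).1.re) +
    ((ψ 1).1.im - (ψ 0).1.im) * ((ψ 2).1.im - (ψ 0).1.im) := ⟨_, rfl⟩
  have e2 := sha_dep hd h ![s - d 0 1, -s, d 0 1, 0]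
    (by simp only [Fin.sum_univ_four, Matrix.cons_val]; ring) ?_ ?_
    (by simp [Fin.sum_univ_four, a 0 (by decide), a 1 (by decide), a 2 (by decide)])
    (by simp [Fin.sum_univ_four, a 0 (by decide), a 1 (by decide), a 2 (by decide)])
  · exact e1.ne' (congrFun e2 2)
  · simp only [Fin.sum_univ_four, Matrix.cons_val]
    rw [hs, e0]
    linear_combination (-((ψ 1).1.im - (ψ 0).1.im)) * e
  · simp only [Fin.sum_univ_four, Matrix.cons_val]
    rw [hs, e0]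
    linear_combination ((ψ 1).1.re - (ψ 0).1.re) * e

lemma sha_ht (hd : ND d) (h : Em d U W ψ) (h' : Em d U' W' ψ') (a : A2 3 ψ) (a' : A2 3 ψ') :
    normSq (ψ 3).2 = normSq (ψ' 3).2 := by
  have e1 := a.det (i := 0) (k := 1) (l := 2) hd (by decide) h
  have e2 := a'.det (i := 0) (k := 1) (l := 2) hd (by decide) h'
  refine mul_left_cancel₀ (pow_ne_zero 2 (sha_X_ne hd h a)) ?_
  rw [sha_X_sq h a]
  simp only [gd] at e1 e2
  linear_combination e2 - e1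

lemma sha_surj (c : Cov i k l j) : Function.Surjective ![i, k, l, j] := fun m => by
  rcases c m with rfl | rfl | rfl | rfl
  exacts [⟨0, rfl⟩, ⟨1, rfl⟩, ⟨2, rfl⟩, ⟨3, rfl⟩]

lemma sha_A2 (c : Cov i k l j) (a : A2 j ψ) : A2 3 (ψ ∘ ![i, k, l, j]) := fun m hm => by
  obtain ⟨-, -, n1, -, n2, n3⟩ := c.ne
  fin_cases m
  exacts [a i n1, a k n2, a l n3, (hm rfl).elim]

lemma sha_cov : ∀ j : Fin 4, ∃ i k l, Cov i k l j := by decide

/-- The height is a function of the table. -/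
lemma ht_eq (hd : ND d) (h : Em d U W ψ) (h' : Em d U' W' ψ') (a : A2 j ψ) (a' : A2 j ψ') :
    normSq (ψ j).2 = normSq (ψ' j).2 := by
  obtain ⟨i, k, l, c⟩ := sha_cov j
  exact sha_ht (hd.comp (sha_surj c)) (h.comp _) (h'.comp _) (sha_A2 c a) (sha_A2 c a')

lemma sha_eqv (hd : ND d) (h : Em d U W ψ) (h' : Em d U W ψ') (a : A2 3 ψ) (a' : A2 3 ψ')
    (hs : 0 ≤ shaX ψ * shaX ψ') : Eqv ψ ψ' := by
  have x0 := sha_X_ne hd h' a'
  have x1 : shaX ψ = shaX ψ' := by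
    rcases sq_eq_sq_iff_eq_or_eq_neg.1 ((sha_X_sq h a).trans (sha_X_sq h' a').symm) with e | e
    · exact e
    · rw [e] at hs
      exact (x0 (by nlinarith [sq_nonneg (shaX ψ')])).elim
  have t := sha_ht hd h h' a a'
  have r : ∀ m, m ≠ 3 → normSq (ψ m).1 = normSq (ψ' m).1 := fun m hm => by
    linarith [sha_apex hd h a hm, sha_apex hd h' a' hm]
  have b : ∀ m n, m ≠ 3 → n ≠ 3 → normSq ((ψ m).1 - (ψ n).1) = normSq ((ψ' m).1 - (ψ' n).1) :=
    fun m n hm hn => (sha_base h a hm hn).symm.trans (sha_base h' a' hm hn)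
  have n0 : (ψ 1).1 - (ψ 0).1 ≠ 0 := normSq_pos.1
    (sha_base h a (i := 1) (k := 0) (by decide) (by decide) ▸ hd.ps 1 0 (by decide))
  have y0 := (a.top hd h).2
  obtain ⟨u, hu⟩ : ∃ u, u * ((ψ 1).1 - (ψ 0).1) = (ψ' 1).1 - (ψ' 0).1 :=
    ⟨_, div_mul_cancel₀ _ n0⟩
  obtain ⟨v, hv⟩ : ∃ v, v * (ψ 3).2 = (ψ' 3).2 := ⟨_, div_mul_cancel₀ _ y0⟩
  have b10 := b 1 0 (by decide) (by decide)
  have b20 := b 2 0 (by decide) (by decide)
  have b21 := b 2 1 (by decide) (by decide)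
  have u1 : normSq u = 1 := mul_right_cancel₀ (normSq_pos.2 n0).ne' (by
    rw [← map_mul, hu, one_mul, b10])
  have v1 : normSq v = 1 := mul_right_cancel₀ (normSq_pos.2 y0).ne' (by
    rw [← map_mul, hv, one_mul, t])
  have c1 : (starRingEnd ℂ) ((ψ 1).1 - (ψ 0).1) * ((ψ 2).1 - (ψ 0).1) =
      (starRingEnd ℂ) ((ψ' 1).1 - (ψ' 0).1) * ((ψ' 2).1 - (ψ' 0).1) := by
    simp only [normSq_apply, sub_re, sub_im, shaX] at b10 b20 b21 x1
    refine Complex.ext ?_ ?_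
    · simp only [mul_re, conj_re, conj_im, sub_re, sub_im]
      linear_combination (b10 + b20 - b21) / 2
    · simp only [mul_im, conj_re, conj_im, sub_re, sub_im]
      linear_combination x1
  have uu : u * (starRingEnd ℂ) u = 1 := by rw [mul_conj, u1, ofReal_one]
  have hw : u * ((ψ 2).1 - (ψ 0).1) = (ψ' 2).1 - (ψ' 0).1 := by
    refine mul_left_cancel₀ ((map_ne_zero (starRingEnd ℂ)).2 n0) ?_
    rw [← hu, map_mul] at c1
    linear_combination u * c1 +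
      (starRingEnd ℂ) ((ψ 1).1 - (ψ 0).1) * ((ψ' 2).1 - (ψ' 0).1) * uu
  have q : ∀ m, m ≠ 3 → normSq (u * (ψ m).1) = normSq (ψ' m).1 := fun m hm => by
    rw [map_mul, u1, one_mul, r m hm]
  have z0 : u * (ψ 0).1 = (ψ' 0).1 := by
    have q0 := q 0 (by decide)
    have q1 := q 1 (by decide)
    have q2 := q 2 (by decide)
    rw [show u * (ψ 1).1 = u * (ψ 0).1 + ((ψ' 1).1 - (ψ' 0).1) by linear_combination hu] at q1
    rw [show u * (ψ 2).1 = u * (ψ 0).1 + ((ψ' 2).1 - (ψ' 0).1) by linear_combination hw] at q2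
    generalize u * (ψ 0).1 = w at q0 q1 q2
    simp only [normSq_apply, sub_re, sub_im, add_re, add_im] at q0 q1 q2
    refine Complex.ext (mul_left_cancel₀ x0 ?_) (mul_left_cancel₀ x0 ?_)
    · simp only [shaX]
      linear_combination ((ψ' 2).1.im - (ψ' 0).1.im) / 2 * (q1 - q0) -
        ((ψ' 1).1.im - (ψ' 0).1.im) / 2 * (q2 - q0)
    · simp only [shaX]
      linear_combination ((ψ' 1).1.re - (ψ' 0).1.re) / 2 * (q2 - q0) -
        ((ψ' 2).1.re - (ψ' 0).1.re) / 2 * (q1 - q0)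
  have z1 : u * (ψ 1).1 = (ψ' 1).1 := by linear_combination hu + z0
  have z2 : u * (ψ 2).1 = (ψ' 2).1 := by linear_combination hw + z0
  have y : ∀ m, m ≠ 3 → (ψ' m).2 = v * (ψ m).2 := fun m hm => by rw [a m hm, a' m hm, mul_zero]
  refine ⟨u, v, u1, v1, congrArg Set.range (funext fun m => ?_)⟩
  fin_cases m
  · exact Prod.ext z0.symm (y 0 (by decide))
  · exact Prod.ext z1.symm (y 1 (by decide))
  · exact Prod.ext z2.symm (y 2 (by decide))
  · refine Prod.ext ?_ hv.symm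
    change (ψ' 3).1 = u * (ψ 3).1
    rw [(a.top hd h).1, (a'.top hd h').1, mul_zero]

lemma sha_pos (hd : ND d) : Bd d U W (fun ψ => A2 3 ψ ∧ 0 ≤ shaX ψ) 1 :=
  Bd.one fun _ _ h h' a a' => sha_eqv hd h h' a.1 a'.1 (mul_nonneg a.2 a'.2)

lemma sha_neg (hd : ND d) : Bd d U W (fun ψ => A2 3 ψ ∧ shaX ψ ≤ 0) 1 :=
  Bd.one fun _ _ h h' a a' => sha_eqv hd h h' a.1 a'.1 (mul_nonneg_of_nonpos_of_nonpos a.2 a'.2)

lemma bd_A2 (hd : ND d) (j : Fin 4) : Bd d U W (A2 j) 2 := by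
  obtain ⟨i, k, l, c⟩ := sha_cov j
  have hd' := hd.comp (sha_surj c)
  exact (((sha_pos hd').or (sha_neg hd')).perm (sha_surj c)).mono (fun ψ _ a =>
    (le_total 0 _).imp (fun e => ⟨sha_A2 c a, e⟩) fun e => ⟨sha_A2 c a, e⟩) le_rfl

lemma sha_one (hd : ND d) (h1 : d 0 2 = d 1 2) (h2 : d 0 3 = d 1 3) : Bd d U W (A2 3) 1 := by
  refine (sha_pos hd).rel fun ψ _ a => ?_
  rcases le_total 0 (shaX ψ) with e | e
  · exact ⟨id, ⟨Function.surjective_id, fun _ _ => rfl⟩, a, e⟩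
  · have c : Cov 1 0 2 3 := by decide
    refine ⟨![1, 0, 2, 3], ⟨sha_surj c, fun m n => ?_⟩, sha_A2 c a, ?_⟩
    · have e1 := (hd.dg 0).trans (hd.dg 1).symm
      have e2 := ((hd.sy 2 0).trans h1).trans (hd.sy 1 2)
      have e3 := ((hd.sy 3 0).trans h2).trans (hd.sy 1 3)
      fin_cases m <;> fin_cases n
      exacts [e1.symm, hd.sy 1 0, h1.symm, h2.symm, hd.sy 0 1, e1, h1, h2, e2.symm, e2, rfl, rfl,
        e3.symm, e3, rfl, rfl]
    · simp only [shaX, Function.comp_apply, Matrix.cons_val] at e ⊢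
      linarith

lemma bd_A2s (hd : ND d) (c : Cov i k l j) (h1 : d i l = d k l) (h2 : d i j = d k j) :
    Bd d U W (A2 j) 1 :=
  ((sha_one (hd.comp (sha_surj c)) h1 h2).perm (sha_surj c)).mono (fun _ _ a => sha_A2 c a) le_rfl

lemma Kb.of_le (hd : ND d)
    (h : ∀ U W : Finset ℝ, 1 ≤ #U → #U ≤ #W → Bd d U W (fun _ => True) (4 * #U * #W)) :
    Kb d := by
  have key : ∀ U W : Finset ℝ, #U ≤ #W → Bd d U W (fun _ => True) (4 * #U * #W) := by
    intro U W e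
    rcases U.eq_empty_or_nonempty with rfl | h0
    · refine (Bd.zero fun ψ h1 _ => sha_flat hd h1.sw fun i => ?_).mono (fun _ _ h => h)
        (Nat.zero_le _)
      by_contra h2
      exact notMem_empty _ (h1.hU i h2)
    · exact h U W h0.card_pos e
  intro U W
  rcases le_total #U #W with e | e
  · exact key U W e
  · exact (key W U e).swap.mono (fun _ _ h => h) (mul_right_comm _ _ _).le

end Pool.Agent.P.MP_f7c707_co.Sh
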