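import Pool.Agent.P.MP_f7c707_co.ShD
import Pool.Agent.P.MP_f7c707_co.RClq

/-!
Charts and circle sections.
-/

namespace Pool.Agent.P.MP_f7c707_co.Sh

open Finset Complex Pool.Agent.P.MP_f7c707_co

/-- An isometry onto the pair of planes. -/
def IsChart (κ : V → CC) : Prop := Function.Surjective κ ∧ ∀ p q, d2 p q = D2 (κ p) (κ q)

open Classical in
/-- The points on a circle of the first plane. -/
noncomputable def sec (P : Finset V) (κ : V → CC) (r : ℝ) : Finset V :=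
  {y ∈ P | (κ y).2 = 0 ∧ normSq (κ y).1 = r}

/-- A circle section. -/
def IsSec (P K : Finset V) : Prop := ∃ κ r, IsChart κ ∧ 0 < r ∧ K = sec P κ r

open Classical in
/-- Labelled copies. -/
noncomputable def Emb (P : Finset V) (d : Tb) : Finset (Fin 4 → V) :=
  {φ ∈ Fintype.piFinset fun _ => P | ∀ i j, d2 (φ i) (φ j) = d i j}

variable {P K K' : Finset V} {κ κ' : V → CC} {r r' : ℝ}

lemma mem_sec {y : V} : y ∈ sec P κ r ↔ y ∈ P ∧ (κ y).2 = 0 ∧ normSq (κ y).1 = r := by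
  classical
  unfold sec
  exact mem_filter

lemma mem_Emb {d : Tb} {φ : Fin 4 → V} :
    φ ∈ Emb P d ↔ (∀ i, φ i ∈ P) ∧ ∀ i j, d2 (φ i) (φ j) = d i j := by
  classical
  unfold Emb
  rw [mem_filter, Fintype.mem_piFinset]

lemma ND.ind2 {d : Tb} (hd : ND d) {i j k : Fin 4} (hij : i ≠ j) (hik : i ≠ k) (hjk : j ≠ k)
    {a b c : V} (h1 : d2 b a = d j i) (h2 : d2 b c = d j k) (h3 : d2 a c = d i k) :
    Ind2 (a - b) (c - b) := by
  intro α β h
  have e0 : α ^ 2 * d j i + β ^ 2 * d j k + α * β * (d j i + d j k - d i k) = 0 := by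
    have f := fun m => congrFun h m
    have f0 := f 0
    have f1 := f 1
    have f2 := f 2
    have f3 := f 3
    simp only [Pi.add_apply, Pi.smul_apply, Pi.sub_apply, smul_eq_mul, Pi.zero_apply]
      at f0 f1 f2 f3
    rw [← h1, ← h2, ← h3]
    simp only [d2, dotProduct, Fin.sum_univ_four, Pi.sub_apply]
    linear_combination (α * (a 0 - b 0) + β * (c 0 - b 0)) * f0 +
      (α * (a 1 - b 1) + β * (c 1 - b 1)) * f1 + (α * (a 2 - b 2) + β * (c 2 - b 2)) * f2 +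
      (α * (a 3 - b 3) + β * (c 3 - b 3)) * f3
  let γ : Fin 4 → ℝ := fun m =>
    (if m = i then α else 0) + (if m = k then β else 0) + if m = j then -α - β else 0
  have hs : ∀ f : Fin 4 → ℝ, ∑ m, γ m * f m = α * f i + β * f k + (-α - β) * f j := by
    intro f
    simp only [γ, add_mul, ite_mul, zero_mul, sum_add_distrib, sum_ite_eq', mem_univ, if_true]
  have hz := hd.nd γ (by
      have := hs fun _ => 1
      simp only [mul_one] at this
      rw [this]; ring) (by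
      have : ∀ m, ∑ n, γ m * γ n * d m n = γ m * (α * d m i + β * d m k + (-α - β) * d m j) := by
        intro m
        rw [← hs fun n => d m n, mul_sum]
        exact sum_congr rfl fun n _ => mul_assoc _ _ _
      simp only [this]
      rw [hs fun m => α * d m i + β * d m k + (-α - β) * d m j, hd.dg, hd.dg, hd.dg,
        hd.sy i j, hd.sy k i, hd.sy k j]
      linear_combination -2 * e0)
  have g1 := congrFun hz i
  have g2 := congrFun hz k
  simp only [γ, if_true, if_neg hik, if_neg hij, if_neg hik.symm, if_neg hjk.symm, add_zero,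
    zero_add, Pi.zero_apply] at g1 g2
  exact ⟨g1, g2⟩

lemma IsChart.swap (h : IsChart κ) : IsChart fun p => (κ p).swap := by
  refine ⟨Prod.swap_surjective.comp h.1, fun p q => ?_⟩
  rw [h.2]
  exact add_comm _ _

lemma IsChart.inj (h : IsChart κ) : Function.Injective κ := by
  intro p q e
  have := h.2 p q
  rw [e, D2, sub_self, sub_self, map_zero, add_zero] at this
  exact sub_eq_zero.1 (dotProduct_self_eq_zero.1 this)

/-- Two circles with different centres share at most two points. -/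
lemma circ_two (S : Finset ℂ) {z : ℂ} (hz : z ≠ 0) {r s : ℝ}
    (h : ∀ y ∈ S, normSq y = r ∧ normSq (y - z) = s) : #S ≤ 2 := by
  by_contra h3
  obtain ⟨a, b, c, ha, hb, hc, ab, ac, bc⟩ := two_lt_card_iff.1 (not_le.1 h3)
  have hz' : z.re * z.re + z.im * z.im ≠ 0 := fun e => hz (normSq_eq_zero.1 (by rwa [normSq_apply]))
  have k1 : ∀ x ∈ S, ∀ y ∈ S, z.re * x.re + z.im * x.im = z.re * y.re + z.im * y.im := by
    intro x hx y hy
    obtain ⟨a1, a2⟩ := h x hx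
    obtain ⟨b1, b2⟩ := h y hy
    simp only [normSq_apply, sub_re, sub_im] at a1 a2 b1 b2
    linarith
  have k2 : ∀ x ∈ S, ∀ y ∈ S, x ≠ y →
      z.im * x.re - z.re * x.im = -(z.im * y.re - z.re * y.im) := by
    intro x hx y hy hne
    have a1 := (h x hx).1
    have b1 := (h y hy).1
    have e := k1 x hx y hy
    simp only [normSq_apply] at a1 b1
    have e2 : (z.im * x.re - z.re * x.im) ^ 2 = (z.im * y.re - z.re * y.im) ^ 2 := by
      linear_combination (z.re * z.re + z.im * z.im) * (a1 - b1) -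
        (z.re * x.re + z.im * x.im + (z.re * y.re + z.im * y.im)) * e
    refine (sq_eq_sq_iff_eq_or_eq_neg.1 e2).resolve_left fun e3 => hne ?_
    apply Complex.ext <;> apply mul_left_cancel₀ hz'
    · linear_combination z.re * e + z.im * e3
    · linear_combination z.im * e - z.re * e3
  have e1 := k2 a ha b hb ab
  have e2 := k2 a ha c hc ac
  have e := k1 b hb c hc
  apply bc
  apply Complex.ext <;> apply mul_left_cancel₀ hz'
  · linear_combination z.re * e + z.im * (e1 - e2)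
  · linear_combination z.im * e - z.re * (e1 - e2)

lemma IsChart.c_axis (h : IsChart κ) {T : Finset V} (h3 : 2 < #T)
    (hT : ∀ y ∈ T, (κ y).2 = 0 ∧ normSq (κ y).1 = r) {x : V} {ρ : ℝ}
    (hx : ∀ y ∈ T, d2 x y = ρ) : (κ x).1 = 0 := by
  classical
  by_contra hz
  have h1 := circ_two (T.image fun y => (κ y).1) hz (r := r) (s := ρ - normSq (κ x).2) (by
    intro w hw
    obtain ⟨y, hy, rfl⟩ := mem_image.1 hw
    have := hx y hy
    rw [h.2, D2, (hT y hy).1, sub_zero, ← normSq_neg, neg_sub] at this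
    exact ⟨(hT y hy).2, by linarith⟩)
  rw [card_image_of_injOn fun a ha b hb e =>
    h.inj (Prod.ext e ((hT a ha).1.trans (hT b hb).1.symm))] at h1
  omega

lemma IsChart.c_le (h : IsChart κ) (h' : IsChart κ') {T : Finset V} (h3 : 2 < #T)
    (hT : ∀ y ∈ T, (κ y).2 = 0 ∧ normSq (κ y).1 = r)
    (hT' : ∀ y ∈ T, (κ' y).2 = 0 ∧ normSq (κ' y).1 = r') (p : V) :
    normSq (κ p).1 ≤ normSq (κ' p).1 := by
  obtain ⟨q, hq⟩ := h'.1 (0, (κ' p).2)
  have h1 : (κ q).1 = 0 := h.c_axis h3 hT (ρ := r' + normSq (κ' p).2) fun y hy => by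
    rw [h'.2, D2, hq, (hT' y hy).1, zero_sub, normSq_neg, sub_zero, (hT' y hy).2]
  have h2 := (h.2 p q).symm.trans (h'.2 p q)
  rw [D2, D2, hq, h1, sub_zero, sub_zero, sub_self, map_zero] at h2
  linarith [normSq_nonneg ((κ p).2 - (κ q).2)]

/-- A point equidistant from a section with three points is on the axis plane. -/
lemma IsChart.axis (h : IsChart κ) (h3 : 2 < #(sec P κ r)) {x : V} {ρ : ℝ}
    (hx : ∀ y ∈ sec P κ r, d2 x y = ρ) : (κ x).1 = 0 := by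
  exact h.c_axis h3 (fun y hy => (mem_sec.1 hy).2) hx

/-- Three common points fix both planes and the radii. -/
lemma IsChart.planes (h : IsChart κ) (h' : IsChart κ') (h3 : 2 < #(sec P κ r ∩ sec P κ' r')) :
    (∀ p, normSq (κ p).1 = normSq (κ' p).1) ∧ ∀ p, normSq (κ p).2 = normSq (κ' p).2 := by
  set T := sec P κ r ∩ sec P κ' r' with hT
  have m1 : ∀ y ∈ T, (κ y).2 = 0 ∧ normSq (κ y).1 = r :=
    fun y hy => (mem_sec.1 (mem_inter.1 hy).1).2
  have m2 : ∀ y ∈ T, (κ' y).2 = 0 ∧ normSq (κ' y).1 = r' :=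
    fun y hy => (mem_sec.1 (mem_inter.1 hy).2).2
  have e1 : ∀ p, normSq (κ p).1 = normSq (κ' p).1 :=
    fun p => le_antisymm (h.c_le h' h3 m1 m2 p) (h'.c_le h h3 m2 m1 p)
  refine ⟨e1, fun p => ?_⟩
  obtain ⟨y, hy⟩ := card_pos.1 (lt_trans (by norm_num) h3)
  obtain ⟨O, hO⟩ := h.1 (0, 0)
  have o1 : (κ' O).1 = 0 := normSq_eq_zero.1 (by rw [← e1, hO, map_zero])
  have o2 : (κ' O).2 = 0 := by
    have a1 := (h.2 y O).symm.trans (h'.2 y O)
    rw [D2, D2, hO, o1, (m1 y hy).1, (m2 y hy).1, sub_zero, sub_zero, sub_zero, zero_sub,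
      normSq_neg, e1, map_zero] at a1
    exact normSq_eq_zero.1 (by linarith)
  have a2 := (h.2 p O).symm.trans (h'.2 p O)
  rw [D2, D2, hO, o1, o2, sub_zero, sub_zero, sub_zero, sub_zero, e1] at a2
  linarith

lemma IsSec.inter_le (h : IsSec P K) (h' : IsSec P K') (hne : K ≠ K') : #(K ∩ K') ≤ 2 := by
  by_contra h3
  obtain ⟨κ, r, a1, -, rfl⟩ := h
  obtain ⟨κ', r', b1, -, rfl⟩ := h'
  obtain ⟨e1, e2⟩ := a1.planes b1 (not_le.1 h3)
  obtain ⟨y, hy⟩ := card_pos.1 (lt_trans (by norm_num) (not_le.1 h3))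
  have e : r = r' := by
    rw [← (mem_sec.1 (mem_inter.1 hy).1).2.2, ← (mem_sec.1 (mem_inter.1 hy).2).2.2, e1]
  apply hne
  ext p
  rw [mem_sec, mem_sec, ← normSq_eq_zero, ← normSq_eq_zero (z := (κ' p).2), e1, e2, e]

lemma c_unit (u₁ u₂ u₃ : V) :
    ∃ w : V, w ⬝ᵥ w = 1 ∧ u₁ ⬝ᵥ w = 0 ∧ u₂ ⬝ᵥ w = 0 ∧ u₃ ⬝ᵥ w = 0 := by
  obtain ⟨w, h0, h1, h2, h3⟩ := exists_perp u₁ u₂ u₃
  have hp : 0 < w ⬝ᵥ w := lt_of_le_of_ne (sum_nonneg fun i _ => mul_self_nonneg _)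
    fun e => h0 (dotProduct_self_eq_zero.1 e.symm)
  refine ⟨(√(w ⬝ᵥ w))⁻¹ • w, ?_, ?_, ?_, ?_⟩
  · rw [smul_dotProduct, dotProduct_smul, smul_eq_mul, smul_eq_mul, ← mul_assoc, ← mul_inv,
      Real.mul_self_sqrt hp.le, inv_mul_cancel₀ hp.ne']
  · rw [dotProduct_smul, h1, smul_zero]
  · rw [dotProduct_smul, h2, smul_zero]
  · rw [dotProduct_smul, h3, smul_zero]

lemma c_chart {e₁ e₂ e₃ e₄ : V} (a11 : e₁ ⬝ᵥ e₁ = 1) (a22 : e₂ ⬝ᵥ e₂ = 1) (a33 : e₃ ⬝ᵥ e₃ = 1)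
    (a44 : e₄ ⬝ᵥ e₄ = 1) (a12 : e₁ ⬝ᵥ e₂ = 0) (a31 : e₃ ⬝ᵥ e₁ = 0) (a41 : e₄ ⬝ᵥ e₁ = 0)
    (a32 : e₃ ⬝ᵥ e₂ = 0) (a42 : e₄ ⬝ᵥ e₂ = 0) (a34 : e₃ ⬝ᵥ e₄ = 0) (x y : V) :
    IsChart fun p => (⟨(p - x) ⬝ᵥ e₁, (p - x) ⬝ᵥ e₂⟩, ⟨(p - y) ⬝ᵥ e₃, (p - y) ⬝ᵥ e₄⟩) := by
  have a21 := (dotProduct_comm _ _).trans a12
  have a13 := (dotProduct_comm _ _).trans a31
  have a14 := (dotProduct_comm _ _).trans a41
  have a23 := (dotProduct_comm _ _).trans a32
  have a24 := (dotProduct_comm _ _).trans a42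
  have a43 := (dotProduct_comm _ _).trans a34
  constructor
  · rintro ⟨z, w⟩
    refine ⟨x + (z.re • e₁ + z.im • e₂ + (w.re - (x - y) ⬝ᵥ e₃) • e₃ +
      (w.im - (x - y) ⬝ᵥ e₄) • e₄), ?_⟩
    refine Prod.ext (Complex.ext ?_ ?_) (Complex.ext ?_ ?_) <;>
      simp only [add_sub_cancel_left, add_sub_right_comm x _ y, add_dotProduct, smul_dotProduct,
        a11, a22, a33, a44, a12, a21, a13, a31, a14, a41, a23, a32, a24, a42, a34, a43,
        smul_eq_mul] <;> ring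
  · intro p q
    let M : Matrix (Fin 4) (Fin 4) ℝ := Matrix.of ![e₁, e₂, e₃, e₄]
    have h1 : M * M.transpose = 1 := by
      ext i j
      rw [Matrix.mul_apply]
      fin_cases i <;> fin_cases j <;> assumption
    have h2 := mul_eq_one_comm.1 h1
    have h3 : d2 p q = M.mulVec (p - q) ⬝ᵥ M.mulVec (p - q) := by
      rw [Matrix.dotProduct_mulVec, Matrix.vecMul_mulVec, h2, Matrix.vecMul_one, d2]
    have h4 : M.mulVec (p - q) ⬝ᵥ M.mulVec (p - q) = e₁ ⬝ᵥ (p - q) * e₁ ⬝ᵥ (p - q) +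
        e₂ ⬝ᵥ (p - q) * e₂ ⬝ᵥ (p - q) + e₃ ⬝ᵥ (p - q) * e₃ ⬝ᵥ (p - q) +
        e₄ ⬝ᵥ (p - q) * e₄ ⬝ᵥ (p - q) := Fin.sum_univ_four _
    rw [h3, h4, dotProduct_comm e₁, dotProduct_comm e₂, dotProduct_comm e₃, dotProduct_comm e₄]
    simp only [D2, normSq_apply, sub_re, sub_im, sub_dotProduct]
    ring

lemma st_sec {ρ : ℝ} {x : V} {Q : Pl} (h : 2 < #(St P ρ x Q)) : IsSec P (St P ρ x Q) := by
  obtain ⟨y₁, y₂, y₃, h1, h2, h3, n12, n13, n23⟩ := two_lt_card_iff.1 h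
  rw [mem_St] at h1 h2 h3
  have hi := ind2_of_cospherical (d2_comm _ _ ▸ h1.2.1) (d2_comm _ _ ▸ h2.2.1)
    (d2_comm _ _ ▸ h3.2.1) n12 n13 n23
  obtain ⟨e₃, a33, a1, a2, -⟩ := c_unit (y₂ - y₁) (y₃ - y₁) 0
  obtain ⟨e₄, a44, b1, b2, a34⟩ := c_unit (y₂ - y₁) (y₃ - y₁) e₃
  obtain ⟨e₁, a11, a31, a41, -⟩ := c_unit e₃ e₄ 0
  obtain ⟨e₂, a22, a32, a42, a12⟩ := c_unit e₃ e₄ e₁
  have hκ := c_chart a11 a22 a33 a44 a12 a31 a41 a32 a42 a34 x y₁
  set κ : V → CC := fun p => (⟨(p - x) ⬝ᵥ e₁, (p - x) ⬝ᵥ e₂⟩, ⟨(p - y₁) ⬝ᵥ e₃, (p - y₁) ⬝ᵥ e₄⟩)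
    with hκd
  have hx : (κ x).1 = 0 := by
    apply Complex.ext <;> simp only [hκd, sub_self, zero_dotProduct, zero_re, zero_im]
  have hp : ∀ y, InPl Q y ↔ (κ y).2 = 0 := by
    intro y
    constructor
    · intro hy
      obtain ⟨α, β, e⟩ := hi.exists_of_not_ind3 (not_ind3_of_span (h2.2.2.sub h1.2.2)
        (h3.2.2.sub h1.2.2) (hy.sub h1.2.2))
      apply Complex.ext <;> simp only [hκd, e, add_dotProduct, smul_dotProduct, a1, a2, b1, b2,
        smul_zero, add_zero, zero_re, zero_im]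
    · intro hy
      have i34 : Ind2 e₃ e₄ := by
        intro α β e
        have f1 := congrArg (e₃ ⬝ᵥ ·) e
        have f2 := congrArg (· ⬝ᵥ e₄) e
        simp only [dotProduct_add, dotProduct_smul, add_dotProduct, smul_dotProduct, a33, a34, a44,
          smul_eq_mul, mul_one, mul_zero, add_zero, zero_add, dotProduct_zero, zero_dotProduct]
          at f1 f2
        exact ⟨f1, f2⟩
      exact inPl_of_flat hi h1.2.2 h2.2.2 h3.2.2 fun h3 =>
        no_five h3 i34 a1 b1 a2 b2 (congrArg Complex.re hy) (congrArg Complex.im hy)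
  have hd : ∀ y, (κ y).2 = 0 → d2 x y = normSq (κ y).1 + normSq (κ x).2 := by
    intro y hy
    rw [hκ.2, D2, hx, hy, zero_sub, normSq_neg, sub_zero]
  refine ⟨κ, ρ - normSq (κ x).2, hκ, ?_, ?_⟩
  · have f1 := hd y₁ ((hp _).1 h1.2.2)
    have f2 := hd y₂ ((hp _).1 h2.2.2)
    rw [h1.2.1] at f1
    rw [h2.2.1] at f2
    by_contra hr
    have g1 : (κ y₁).1 = 0 :=
      normSq_eq_zero.1 (le_antisymm (by linarith [not_lt.1 hr]) (normSq_nonneg _))
    have g2 : (κ y₂).1 = 0 :=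
      normSq_eq_zero.1 (le_antisymm (by linarith [not_lt.1 hr]) (normSq_nonneg _))
    exact n12 (hκ.inj (Prod.ext (g1.trans g2.symm)
      (((hp _).1 h1.2.2).trans ((hp _).1 h2.2.2).symm)))
  · ext y
    rw [mem_St, mem_sec, hp]
    constructor
    · rintro ⟨k1, k2, k3⟩
      exact ⟨k1, k3, by linarith [hd y k3]⟩
    · rintro ⟨k1, k2, k3⟩
      exact ⟨k1, by linarith [hd y k2], k2⟩

end Pool.Agent.P.MP_f7c707_co.Sh
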