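import Mathlib

/-!
Simplices inside two orthogonal planes: definitions and counting up to rotations.
-/

namespace Pool.Agent.P.MP_f7c707_co.Sh

open Finset Complex

/-- Four-space as a pair of planes. -/
abbrev CC := ℂ × ℂ

/-- Labelled quadruples. -/
abbrev Lb := Fin 4 → CC

/-- Tables of squared distances. -/
abbrev Tb := Fin 4 → Fin 4 → ℝ

/-- Squared distance. -/
def D2 (p q : CC) : ℝ := normSq (p.1 - q.1) + normSq (p.2 - q.2)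

/-- The table of a genuine simplex. -/
structure ND (d : Tb) : Prop where
  sy : ∀ i j, d i j = d j i
  dg : ∀ i, d i i = 0
  ps : ∀ i j, i ≠ j → 0 < d i j
  nd : ∀ α : Fin 4 → ℝ, ∑ i, α i = 0 → ∑ i, ∑ j, α i * α j * d i j = 0 → α = 0

/-- A copy inside the two planes with squared radii in `U` and `W`. -/
structure Em (d : Tb) (U W : Finset ℝ) (ψ : Lb) : Prop where
  ds : ∀ i j, D2 (ψ i) (ψ j) = d i j
  fr : ∀ i, (ψ i).1 = 0 ∨ (ψ i).2 = 0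
  hU : ∀ i, (ψ i).1 ≠ 0 → normSq (ψ i).1 ∈ U
  hW : ∀ i, (ψ i).2 ≠ 0 → normSq (ψ i).2 ∈ W

/-- The vertex sets differ by rotations of the two planes. -/
def Eqv (ψ ψ' : Lb) : Prop := ∃ u v : ℂ, normSq u = 1 ∧ normSq v = 1 ∧
  Set.range ψ' = Set.range fun i => ((u * (ψ i).1, v * (ψ i).2) : CC)

/-- At most `n` rotation classes satisfy `Q`. -/
def Bd (d : Tb) (U W : Finset ℝ) (Q : Lb → Prop) (n : ℕ) : Prop :=
  ∀ R : Finset Lb, (∀ ψ ∈ R, Em d U W ψ ∧ Q ψ) →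
    (∀ ψ ∈ R, ∀ ψ' ∈ R, Eqv ψ ψ' → ψ = ψ') → #R ≤ n

/-- Exchange of the planes. -/
def sw (ψ : Lb) : Lb := fun i => (ψ i).swap

/-- Relabellings that keep the table. -/
def Aut (d : Tb) (π : Fin 4 → Fin 4) : Prop :=
  Function.Surjective π ∧ ∀ i j, d (π i) (π j) = d i j

/-- All vertices but `j` are in the first plane. -/
def A2 (j : Fin 4) (ψ : Lb) : Prop := ∀ i, i ≠ j → (ψ i).2 = 0

/-- All vertices but `j` are in the second plane. -/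
def A1 (j : Fin 4) (ψ : Lb) : Prop := A2 j (sw ψ)

/-- Two vertices in each plane, none at the origin. -/
def Tw (i k j l : Fin 4) (ψ : Lb) : Prop :=
  (ψ i).1 ≠ 0 ∧ (ψ k).1 ≠ 0 ∧ (ψ j).2 ≠ 0 ∧ (ψ l).2 ≠ 0

/-- The four indices are all indices. -/
abbrev Cov (i k j l : Fin 4) : Prop := ∀ m : Fin 4, m = i ∨ m = k ∨ m = j ∨ m = l

/-- The class count. -/
def Kb (d : Tb) : Prop := ∀ U W : Finset ℝ, Bd d U W (fun _ => True) (4 * #U * #W)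

variable {d : Tb} {U W : Finset ℝ} {Q Q' : Lb → Prop} {n n' : ℕ} {ψ ψ' : Lb}

lemma Cov.ne {i k j l : Fin 4} (h : Cov i k j l) :
    i ≠ k ∧ i ≠ j ∧ i ≠ l ∧ k ≠ j ∧ k ≠ l ∧ j ≠ l := by
  revert i k j l
  decide

lemma Bd.mono (h : Bd d U W Q n) (hQ : ∀ ψ, Em d U W ψ → Q' ψ → Q ψ) (hn : n ≤ n') :
    Bd d U W Q' n' :=
  fun R h1 h2 => (h R (fun ψ hψ => ⟨(h1 ψ hψ).1, hQ ψ (h1 ψ hψ).1 (h1 ψ hψ).2⟩) h2).trans hn

lemma Bd.or (h : Bd d U W Q n) (h' : Bd d U W Q' n') :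
    Bd d U W (fun ψ => Q ψ ∨ Q' ψ) (n + n') := by
  classical
  intro R h1 h2
  rw [← card_filter_add_card_filter_not (s := R) Q]
  refine add_le_add (h _ (fun ψ hψ => ?_) fun a ha b hb => ?_)
    (h' _ (fun ψ hψ => ?_) fun a ha b hb => ?_)
  · exact ⟨(h1 ψ (mem_filter.1 hψ).1).1, (mem_filter.1 hψ).2⟩
  · exact h2 a (mem_filter.1 ha).1 b (mem_filter.1 hb).1
  · exact ⟨(h1 ψ (mem_filter.1 hψ).1).1,
      (h1 ψ (mem_filter.1 hψ).1).2.resolve_left (mem_filter.1 hψ).2⟩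
  · exact h2 a (mem_filter.1 ha).1 b (mem_filter.1 hb).1

lemma Bd.zero (h : ∀ ψ, Em d U W ψ → ¬ Q ψ) : Bd d U W Q 0 := by
  intro R h1 _
  rcases R.eq_empty_or_nonempty with rfl | ⟨ψ, hψ⟩
  · simp
  · exact absurd (h1 ψ hψ).2 (h ψ (h1 ψ hψ).1)

lemma Bd.one (h : ∀ ψ ψ', Em d U W ψ → Em d U W ψ' → Q ψ → Q ψ' → Eqv ψ ψ') : Bd d U W Q 1 :=
  fun _ h1 h2 => card_le_one.2 fun a ha b hb =>
    h2 a ha b hb (h a b (h1 a ha).1 (h1 b hb).1 (h1 a ha).2 (h1 b hb).2)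

lemma Bd.of_ex (h : ∀ ψ, Em d U W ψ → Q ψ → Bd d U W Q n) : Bd d U W Q n := by
  by_cases h1 : ∃ ψ, Em d U W ψ ∧ Q ψ
  · obtain ⟨ψ, a, b⟩ := h1
    exact h ψ a b
  · exact (Bd.zero fun ψ a b => h1 ⟨ψ, a, b⟩).mono (fun _ _ h => h) (Nat.zero_le _)

lemma Bd.sum {ι : Type*} (S : Finset ι) (T : ι → Lb → Prop) (m : ι → ℕ)
    (h : ∀ v ∈ S, Bd d U W (T v) (m v)) (hQ : ∀ ψ, Em d U W ψ → Q ψ → ∃ v ∈ S, T v ψ) :
    Bd d U W Q (∑ v ∈ S, m v) := by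
  classical
  intro R h1 h2
  have h3 : R ⊆ S.biUnion fun v => {ψ ∈ R | T v ψ} := fun ψ hψ => by
    obtain ⟨v, hv, h4⟩ := hQ ψ (h1 ψ hψ).1 (h1 ψ hψ).2
    exact mem_biUnion.2 ⟨v, hv, mem_filter.2 ⟨hψ, h4⟩⟩
  refine ((card_le_card h3).trans card_biUnion_le).trans (sum_le_sum fun v hv => ?_)
  exact h v hv _ (fun ψ hψ => ⟨(h1 ψ (mem_filter.1 hψ).1).1, (mem_filter.1 hψ).2⟩)
    fun a ha b hb => h2 a (mem_filter.1 ha).1 b (mem_filter.1 hb).1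

lemma Em.comp (h : Em d U W ψ) (π : Fin 4 → Fin 4) :
    Em (fun i j => d (π i) (π j)) U W (ψ ∘ π) :=
  ⟨fun _ _ => h.ds _ _, fun _ => h.fr _, fun _ => h.hU _, fun _ => h.hW _⟩

lemma Em.aut (h : Em d U W ψ) {π : Fin 4 → Fin 4} (hπ : Aut d π) : Em d U W (ψ ∘ π) :=
  ⟨fun _ _ => (h.ds _ _).trans (hπ.2 _ _), fun _ => h.fr _, fun _ => h.hU _, fun _ => h.hW _⟩

lemma Eqv.of_comp {π π' : Fin 4 → Fin 4} (hπ : Function.Surjective π)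
    (hπ' : Function.Surjective π') (h : Eqv (ψ ∘ π) (ψ' ∘ π')) : Eqv ψ ψ' := by
  obtain ⟨u, v, hu, hv, h⟩ := h
  refine ⟨u, v, hu, hv, ?_⟩
  rw [← hπ'.range_comp ψ', h]
  exact hπ.range_comp fun i => ((u * (ψ i).1, v * (ψ i).2) : CC)

lemma Eqv.refl (ψ : Lb) : Eqv ψ ψ := ⟨1, 1, by simp, by simp, by simp⟩

lemma Bd.map {d' : Tb} {U' W' : Finset ℝ} (h : Bd d' U' W' Q n) (R : Finset Lb) (f : Lb → Lb)
    (h1 : ∀ ψ ∈ R, Em d' U' W' (f ψ) ∧ Q (f ψ))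
    (h2 : ∀ ψ ∈ R, ∀ ψ' ∈ R, Eqv (f ψ) (f ψ') → ψ = ψ') : #R ≤ n := by
  classical
  rw [← card_image_of_injOn (f := f) fun a ha b hb e => h2 a ha b hb (e ▸ Eqv.refl _)]
  refine h _ (fun ψ hψ => ?_) fun a ha b hb e => ?_
  · obtain ⟨x, hx, rfl⟩ := mem_image.1 hψ
    exact h1 x hx
  · obtain ⟨x, hx, rfl⟩ := mem_image.1 ha
    obtain ⟨y, hy, rfl⟩ := mem_image.1 hb
    rw [h2 x hx y hy e]

lemma Bd.rel (h : Bd d U W Q n) (hQ : ∀ ψ, Em d U W ψ → Q' ψ → ∃ π, Aut d π ∧ Q (ψ ∘ π)) :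
    Bd d U W Q' n := by
  classical
  intro R h1 h2
  choose! π hπ using hQ
  exact h.map R (fun ψ => ψ ∘ π ψ)
    (fun ψ hψ => ⟨(h1 ψ hψ).1.aut (hπ ψ (h1 ψ hψ).1 (h1 ψ hψ).2).1,
      (hπ ψ (h1 ψ hψ).1 (h1 ψ hψ).2).2⟩)
    fun a ha b hb e => h2 a ha b hb (e.of_comp (hπ a (h1 a ha).1 (h1 a ha).2).1.1
      (hπ b (h1 b hb).1 (h1 b hb).2).1.1)

lemma Bd.perm {π : Fin 4 → Fin 4} (hπ : Function.Surjective π)
    (h : Bd (fun i j => d (π i) (π j)) U W Q n) : Bd d U W (fun ψ => Q (ψ ∘ π)) n :=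
  fun R h1 h2 => h.map R (fun ψ => ψ ∘ π) (fun ψ hψ => ⟨(h1 ψ hψ).1.comp π, (h1 ψ hψ).2⟩)
    fun a ha b hb e => h2 a ha b hb (e.of_comp hπ hπ)

lemma Em.sw (h : Em d U W ψ) : Em d W U (sw ψ) :=
  ⟨fun i j => (add_comm _ _).trans (h.ds i j), fun i => (h.fr i).symm, h.hW, h.hU⟩

lemma Eqv.of_sw (h : Eqv (sw ψ) (sw ψ')) : Eqv ψ ψ' := by
  obtain ⟨u, v, hu, hv, h⟩ := h
  refine ⟨v, u, hv, hu, ?_⟩
  have h1 := congrArg (Set.image Prod.swap) h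
  rw [← Set.range_comp, ← Set.range_comp] at h1
  exact h1

lemma Bd.swap (h : Bd d W U Q n) : Bd d U W (fun ψ => Q (sw ψ)) n :=
  fun R h1 h2 => h.map R sw (fun ψ hψ => ⟨(h1 ψ hψ).1.sw, (h1 ψ hψ).2⟩)
    fun a ha b hb e => h2 a ha b hb e.of_sw

lemma Kb.perm {π : Fin 4 → Fin 4} (hπ : Function.Surjective π)
    (h : Kb fun i j => d (π i) (π j)) : Kb d := fun U W => (h U W).perm hπ

lemma ND.perm (h : ND d) (π : Equiv.Perm (Fin 4)) : ND fun i j => d (π i) (π j) := by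
  refine ⟨fun _ _ => h.sy _ _, fun _ => h.dg _, fun i j hij => h.ps _ _ (π.injective.ne hij),
    fun α h1 h2 => ?_⟩
  have h3 := h.nd (α ∘ π.symm) (by rw [← h1]; exact Equiv.sum_comp π.symm α) (by
    rw [← h2, ← Equiv.sum_comp π]
    refine sum_congr rfl fun i _ => ?_
    rw [← Equiv.sum_comp π]
    simp)
  funext i
  simpa using congrFun h3 (π i)

lemma ND.comp (h : ND d) {π : Fin 4 → Fin 4} (hπ : Function.Surjective π) :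
    ND fun i j => d (π i) (π j) :=
  h.perm (Equiv.ofBijective π (Finite.surjective_iff_bijective.1 hπ))

set_option synthInstance.maxSize 4096 in
lemma cover (h : Em d U W ψ) : (∃ j, A2 j ψ) ∨ (∃ j, A1 j ψ) ∨ Tw 0 1 2 3 ψ ∨ Tw 2 3 0 1 ψ ∨
    Tw 0 2 1 3 ψ ∨ Tw 1 3 0 2 ψ ∨ Tw 0 3 1 2 ψ ∨ Tw 1 2 0 3 ψ := by
  have key : ∀ a b : Fin 4 → Bool, (∀ i, a i = true ∨ b i = true) →
      (∃ j, ∀ i, i ≠ j → b i = true) ∨ (∃ j, ∀ i, i ≠ j → a i = true) ∨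
      (¬ a 0 = true ∧ ¬ a 1 = true ∧ ¬ b 2 = true ∧ ¬ b 3 = true) ∨
      (¬ a 2 = true ∧ ¬ a 3 = true ∧ ¬ b 0 = true ∧ ¬ b 1 = true) ∨
      (¬ a 0 = true ∧ ¬ a 2 = true ∧ ¬ b 1 = true ∧ ¬ b 3 = true) ∨
      (¬ a 1 = true ∧ ¬ a 3 = true ∧ ¬ b 0 = true ∧ ¬ b 2 = true) ∨
      (¬ a 0 = true ∧ ¬ a 3 = true ∧ ¬ b 1 = true ∧ ¬ b 2 = true) ∨
      (¬ a 1 = true ∧ ¬ a 2 = true ∧ ¬ b 0 = true ∧ ¬ b 3 = true) := by
    decide +kernel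
  classical
  have h1 := key (fun i => decide ((ψ i).1 = 0)) (fun i => decide ((ψ i).2 = 0))
    fun i => by simpa only [decide_eq_true_eq] using h.fr i
  simp only [decide_eq_true_eq] at h1
  exact h1

end Pool.Agent.P.MP_f7c707_co.Sh
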