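import Pool.Agent.P.MP_f7c707_co.ShC
import Pool.Agent.P.MP_f7c707_co.Count

/-!
Copies that leave the two planes.
-/

namespace Pool.Agent.P.MP_f7c707_co.Sh

open Finset Complex Pool.Agent.P.MP_f7c707_co

variable {P : Finset V} {κ : V → CC} {r : ℝ} {d : Tb} {i j : Fin 4}

lemma e1_cross (hκ : IsChart κ) {x y : V} (hx : (κ x).1 = 0) (hy : (κ y).2 = 0) :
    d2 x y = normSq (κ y).1 + normSq (κ x).2 := by
  rw [hκ.2, D2, hx, hy, zero_sub, sub_zero, normSq_neg]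

/-- A point off the axis plane has at most two points of a section at a given distance. -/
lemma e1_nb (hκ : IsChart κ) {z : V} (hz : (κ z).1 ≠ 0) (s ρ : ℝ) :
    #(nb (sec P κ s) z ρ) ≤ 2 := by
  classical
  have h1 : Set.InjOn (fun y => (κ y).1) (nb (sec P κ s) z ρ : Set V) := fun a ha b hb e =>
    hκ.inj (Prod.ext e (by
      rw [(mem_sec.1 (mem_nb.1 (mem_coe.1 ha)).1).2.1,
        (mem_sec.1 (mem_nb.1 (mem_coe.1 hb)).1).2.1]))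
  rw [← card_image_of_injOn h1]
  refine circ_two _ hz (r := s) (s := ρ - normSq (κ z).2) fun y hy => ?_
  obtain ⟨a, ha, rfl⟩ := mem_image.1 hy
  obtain ⟨h2, h3⟩ := mem_nb.1 ha
  obtain ⟨-, h4, h5⟩ := mem_sec.1 h2
  rw [hκ.2, D2, h4, zero_sub, normSq_neg] at h3
  exact ⟨h5, by linarith⟩

open Classical in
/-- The points outside both planes. -/
noncomputable def e1W (P : Finset V) (κ : V → CC) : Finset V :=
  {z ∈ P | (κ z).1 ≠ 0 ∧ (κ z).2 ≠ 0}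

lemma mem_e1W {z : V} : z ∈ e1W P κ ↔ z ∈ P ∧ (κ z).1 ≠ 0 ∧ (κ z).2 ≠ 0 := by
  classical
  unfold e1W
  exact mem_filter

lemma e1W_le : #(e1W P κ) ≤ #P := card_le_card fun _ hz => (mem_e1W.1 hz).1

lemma e1_axis (hκ : IsChart κ) {φ : Fin 4 → V} (h1 : φ ∈ Emb P d) {m : Fin 4}
    (h2 : (κ (φ m)).1 = 0) (h3 : φ j ∈ sec P κ r) :
    φ m ∈ sec P (fun p => (κ p).swap) (d m j - r) := by
  obtain ⟨a1, a2⟩ := mem_Emb.1 h1
  obtain ⟨-, b1, b2⟩ := mem_sec.1 h3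
  have h4 := e1_cross hκ h2 b1
  rw [a2, b2] at h4
  refine mem_sec.2 ⟨a1 m, h2, ?_⟩
  show normSq (κ (φ m)).2 = _
  linarith

lemma e1_ext {k l : Fin 4} (hc : Cov i k j l) {φ φ' : Fin 4 → V} (h1 : φ i = φ' i)
    (h2 : φ k = φ' k) (h3 : φ j = φ' j) (h4 : φ l = φ' l) : φ = φ' := by
  funext m
  rcases hc m with rfl | rfl | rfl | rfl <;> assumption

/-- One vertex outside the planes. -/
lemma e1_one (hκ : IsChart κ) {k l : Fin 4} (hc : Cov i k j l) (C : Finset (Fin 4 → V))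
    (hC : ∀ φ ∈ C, φ ∈ Emb P d ∧ (κ (φ i)).1 = 0 ∧ φ j ∈ sec P κ r ∧ φ k ∈ e1W P κ ∧
      φ l ∉ e1W P κ) : #C ≤ 16 * #P := by
  classical
  let T : V → Finset (V × V × V × V) := fun z => {z} ×ˢ
    (nb (sec P (fun p => (κ p).swap) (d i j - r)) z (d i k) ×ˢ nb (sec P κ r) z (d j k) ×ˢ
      (nb (sec P κ (d i l - (d i j - r))) z (d l k) ∪
        nb (sec P (fun p => (κ p).swap) (d l j - r)) z (d l k)))
  have hT : ∀ z ∈ e1W P κ, #(T z) ≤ 16 := fun z hz => by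
    obtain ⟨-, z1, z2⟩ := mem_e1W.1 hz
    simp only [T, card_product, card_singleton, one_mul]
    exact Nat.mul_le_mul (e1_nb hκ.swap z2 _ _) (Nat.mul_le_mul (e1_nb hκ z1 _ _)
      ((card_union_le _ _).trans (add_le_add (e1_nb hκ z1 _ _) (e1_nb hκ.swap z2 _ _))))
  have h1 : #C ≤ #((e1W P κ).biUnion T) := by
    refine card_le_card_of_injOn (fun φ => (φ k, φ i, φ j, φ l)) (fun φ hφ => ?_)
      fun a _ b _ e => ?_
    · obtain ⟨c1, c2, c3, c4, c5⟩ := hC φ (mem_coe.1 hφ)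
      obtain ⟨a1, a2⟩ := mem_Emb.1 c1
      have hN := e1_axis hκ c1 c2 c3
      refine mem_coe.2 (mem_biUnion.2 ⟨φ k, c4, mem_product.2 ⟨mem_singleton_self _,
        mem_product.2 ⟨mem_nb.2 ⟨hN, a2 _ _⟩, mem_product.2 ⟨mem_nb.2 ⟨c3, a2 _ _⟩, ?_⟩⟩⟩⟩)
      by_cases h3 : (κ (φ l)).1 = 0
      · exact mem_union_right _ (mem_nb.2 ⟨e1_axis hκ c1 h3 c3, a2 _ _⟩)
      · have h4 : (κ (φ l)).2 = 0 := by
          by_contra h4
          exact c5 (mem_e1W.2 ⟨a1 l, h3, h4⟩)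
        refine mem_union_left _ (mem_nb.2 ⟨mem_sec.2 ⟨a1 l, h4, ?_⟩, a2 _ _⟩)
        have h5 := e1_cross hκ c2 h4
        have h6 : normSq (κ (φ i)).2 = d i j - r := (mem_sec.1 hN).2.2
        rw [a2, h6] at h5
        show normSq (κ (φ l)).1 = _
        linarith
    · simp only [Prod.mk.injEq] at e
      exact e1_ext hc e.2.1 e.1 e.2.2.1 e.2.2.2
  have h2 := card_biUnion_le_card_mul _ T 16 hT
  have h3 := e1W_le (P := P) (κ := κ)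
  omega

open Classical in
/-- The outside points at given distances from a pair. -/
noncomputable def e1Z (P : Finset V) (κ : V → CC) (a b : ℝ) (p : V × V) : Finset V :=
  {z ∈ e1W P κ | d2 z p.1 = a ∧ d2 z p.2 = b}

lemma mem_e1Z {a b : ℝ} {p : V × V} {z : V} :
    z ∈ e1Z P κ a b p ↔ z ∈ e1W P κ ∧ d2 z p.1 = a ∧ d2 z p.2 = b := by
  classical
  unfold e1Z
  exact mem_filter

lemma e1Z_le {a b : ℝ} {p : V × V} : #(e1Z P κ a b p) ≤ #P :=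
  (card_le_card fun _ hz => (mem_e1Z.1 hz).1).trans e1W_le

lemma e1Z_sum (hκ : IsChart κ) (s a b : ℝ) :
    ∑ p ∈ sec P (fun p => (κ p).swap) s ×ˢ sec P κ r, #(e1Z P κ a b p) ≤ 4 * #P := by
  classical
  have e : ∀ p : V × V, e1Z P κ a b p = {z ∈ e1W P κ | d2 z p.1 = a ∧ d2 z p.2 = b} :=
    fun p => by
      ext z
      rw [mem_e1Z, mem_filter]
  simp only [e]
  rw [sum_card_comm (e1W P κ) (sec P (fun p => (κ p).swap) s ×ˢ sec P κ r)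
    fun z p => d2 z p.1 = a ∧ d2 z p.2 = b]
  have h3 := e1W_le (P := P) (κ := κ)
  refine (sum_le_card_nsmul _ _ 4 fun z hz => ?_).trans (by rw [smul_eq_mul]; omega)
  obtain ⟨-, z1, z2⟩ := mem_e1W.1 hz
  refine le_trans (card_le_card (t := nb (sec P (fun p => (κ p).swap) s) z a ×ˢ
    nb (sec P κ r) z b) fun p hp => ?_) ?_
  · obtain ⟨h4, h5, h6⟩ := mem_filter.1 hp
    exact mem_product.2 ⟨mem_nb.2 ⟨(mem_product.1 h4).1, (d2_comm _ _).trans h5⟩,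
      mem_nb.2 ⟨(mem_product.1 h4).2, (d2_comm _ _).trans h6⟩⟩
  · rw [card_product]
    exact Nat.mul_le_mul (e1_nb hκ.swap z2 _ _) (e1_nb hκ z1 _ _)

/-- Two vertices outside the planes. -/
lemma e1_two (hd : ND d) (hκ : IsChart κ) {n Λ u : ℝ} (h2 : P2 n Λ) (hn : #P ≤ n)
    (hΛ : 0 ≤ Λ) (hu : 1 ≤ u) (hPu : #P ≤ u ^ 3) {k l : Fin 4} (hc : Cov i k j l)
    (C : Finset (Fin 4 → V))
    (hC : ∀ φ ∈ C, φ ∈ Emb P d ∧ (κ (φ i)).1 = 0 ∧ φ j ∈ sec P κ r ∧ φ k ∈ e1W P κ ∧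
      φ l ∈ e1W P κ) : (#C : ℝ) ≤ Λ * u * (8 * #P) := by
  classical
  obtain ⟨nik, nij, nil, nkj, -, njl⟩ := hc.ne
  set S := sec P (fun p => (κ p).swap) (d i j - r) ×ˢ sec P κ r with hS
  let Z := e1Z P κ (d k i) (d k j)
  let Y := e1Z P κ (d l i) (d l j)
  let T : V × V → Finset ((V × V) × V × V) := fun p =>
    (Z p).biUnion fun c => {p} ×ˢ {c} ×ˢ nb (Y p) c (d l k)
  have h1 : #C ≤ #(S.biUnion T) := by
    refine card_le_card_of_injOn (fun φ => ((φ i, φ j), φ k, φ l)) (fun φ hφ => ?_)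
      fun a _ b _ e => ?_
    · obtain ⟨c1, c2, c3, c4, c5⟩ := hC φ (mem_coe.1 hφ)
      obtain ⟨-, a2⟩ := mem_Emb.1 c1
      exact mem_coe.2 (mem_biUnion.2 ⟨(φ i, φ j), mem_product.2 ⟨e1_axis hκ c1 c2 c3, c3⟩,
        mem_biUnion.2 ⟨φ k, mem_e1Z.2 ⟨c4, a2 _ _, a2 _ _⟩, mem_product.2
          ⟨mem_singleton_self _, mem_product.2 ⟨mem_singleton_self _,
            mem_nb.2 ⟨mem_e1Z.2 ⟨c5, a2 _ _, a2 _ _⟩, a2 _ _⟩⟩⟩⟩⟩)
    · simp only [Prod.mk.injEq] at e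
      exact e1_ext hc e.1.1 e.2.1 e.1.2 e.2.2
  have h3 : #(S.biUnion T) ≤ ∑ p ∈ S, ∑ c ∈ Z p, #(nb (Y p) c (d l k)) :=
    card_biUnion_le.trans (sum_le_sum fun p _ => card_biUnion_le.trans
      (sum_le_sum fun c _ => by simp only [card_product, card_singleton, one_mul, le_refl]))
  have h4 : (#C : ℝ) ≤ ∑ p ∈ S, ∑ c ∈ Z p, (#(nb (Y p) c (d l k)) : ℝ) := by
    exact_mod_cast h1.trans h3
  have hZ : ∑ p ∈ S, (#(Z p) : ℝ) ≤ 4 * #P := by exact_mod_cast e1Z_sum hκ _ _ _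
  have hY : ∑ p ∈ S, (#(Y p) : ℝ) ≤ 4 * #P := by exact_mod_cast e1Z_sum hκ _ _ _
  refine h4.trans (le_trans (sum_le_sum (g := fun p => Λ * u * (#(Z p) + #(Y p)))
    fun p hp => ?_) ?_)
  · rcases (Z p).eq_empty_or_nonempty with e0 | hne
    · rw [e0, sum_empty]
      positivity
    have z1 : (1 : ℝ) ≤ #(Z p) := by exact_mod_cast hne.card_pos
    have y0 : (0 : ℝ) ≤ #(Y p) := Nat.cast_nonneg _
    obtain ⟨v, hv, hv3⟩ := exists_root 3 (by norm_num) (x := max (#(Z p) : ℝ) #(Y p))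
      (z1.trans (le_max_left _ _))
    have hZP : (#(Z p) : ℝ) ≤ #P := by exact_mod_cast e1Z_le
    have hYP : (#(Y p) : ℝ) ≤ #P := by exact_mod_cast e1Z_le
    obtain ⟨p1, p2⟩ := mem_product.1 hp
    have hp' : d2 p.1 p.2 = d i j := by
      have b1 : normSq (κ p.1).2 = d i j - r := (mem_sec.1 p1).2.2
      rw [e1_cross hκ (mem_sec.1 p1).2.1 (mem_sec.1 p2).2.1, (mem_sec.1 p2).2.2, b1]
      ring
    have hne' : p.1 ≠ p.2 := fun e => (hd.ps i j nij).ne (by rw [← hp', e, d2_self])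
    refine (h2 (Y p) (Z p) p.1 p.2 _ _ _ _ (d l k) (hYP.trans hn) hne'
      (fun b hb => ⟨(mem_e1Z.1 hb).2.1, (mem_e1Z.1 hb).2.2,
        hd.ind2 nil nij njl.symm (mem_e1Z.1 hb).2.1 (mem_e1Z.1 hb).2.2 hp'⟩)
      (fun b hb => ⟨(mem_e1Z.1 hb).2.1, (mem_e1Z.1 hb).2.2,
        hd.ind2 nik nij nkj (mem_e1Z.1 hb).2.1 (mem_e1Z.1 hb).2.2 hp'⟩)
      v hv (hv3 ▸ le_max_right _ _) (hv3 ▸ le_max_left _ _)).trans ?_
    have hvu : v ≤ u := le_of_pow_le_pow_left₀ (n := 3) (by norm_num) (by linarith)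
      (by rw [hv3]; exact (max_le hZP hYP).trans hPu)
    have hv4 : v ^ 3 ≤ #(Z p) + #(Y p) := by
      rw [hv3]
      exact max_le (by linarith) (by linarith)
    rw [mul_assoc, pow_succ' v 3]
    gcongr
  · rw [← mul_sum, sum_add_distrib]
    exact mul_le_mul_of_nonneg_left (by linarith) (by positivity)

lemma e1_cov : ∀ i j : Fin 4, i ≠ j → ∃ k l, Cov i k j l ∧ Cov i l j k := by
  decide

lemma err_one (hd : ND d) (hκ : IsChart κ) (hr : 0 < r) {n Λ u : ℝ} (h2 : P2 n Λ) (hn : #P ≤ n)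
    (hΛ : 0 ≤ Λ) (hu : 1 ≤ u) (hPu : #P ≤ u ^ 3) (hij : i ≠ j) (C : Finset (Fin 4 → V))
    (hC : ∀ φ ∈ C, φ ∈ Emb P d ∧ (κ (φ i)).1 = 0 ∧ φ j ∈ sec P κ r ∧
      ∃ m, (κ (φ m)).1 ≠ 0 ∧ (κ (φ m)).2 ≠ 0) :
    (#C : ℝ) ≤ 32 * #P + Λ * u * (8 * #P) := by
  classical
  have _ := hr
  obtain ⟨k, l, hc, hc'⟩ := e1_cov i j hij
  have a1 := e1_one (d := d) (r := r) hκ hc {φ ∈ C | φ k ∈ e1W P κ ∧ φ l ∉ e1W P κ}
    fun φ hφ => by
      obtain ⟨b1, b2⟩ := mem_filter.1 hφ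
      exact ⟨(hC φ b1).1, (hC φ b1).2.1, (hC φ b1).2.2.1, b2⟩
  have a2 := e1_one (d := d) (r := r) hκ hc' {φ ∈ C | φ l ∈ e1W P κ ∧ φ k ∉ e1W P κ}
    fun φ hφ => by
      obtain ⟨b1, b2⟩ := mem_filter.1 hφ
      exact ⟨(hC φ b1).1, (hC φ b1).2.1, (hC φ b1).2.2.1, b2⟩
  have a3 := e1_two (r := r) hd hκ h2 hn hΛ hu hPu hc {φ ∈ C | φ k ∈ e1W P κ ∧ φ l ∈ e1W P κ}
    fun φ hφ => by
      obtain ⟨b1, b2⟩ := mem_filter.1 hφ
      exact ⟨(hC φ b1).1, (hC φ b1).2.1, (hC φ b1).2.2.1, b2⟩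
  have a4 : C ⊆ ({φ ∈ C | φ k ∈ e1W P κ ∧ φ l ∉ e1W P κ} ∪
      {φ ∈ C | φ l ∈ e1W P κ ∧ φ k ∉ e1W P κ}) ∪
      {φ ∈ C | φ k ∈ e1W P κ ∧ φ l ∈ e1W P κ} := fun φ hφ => by
    obtain ⟨c1, c2, c3, m, c4, c5⟩ := hC φ hφ
    have hm : φ m ∈ e1W P κ := mem_e1W.2 ⟨(mem_Emb.1 c1).1 m, c4, c5⟩
    by_cases hk : φ k ∈ e1W P κ <;> by_cases hl : φ l ∈ e1W P κ
    · exact mem_union_right _ (mem_filter.2 ⟨hφ, hk, hl⟩)
    · exact mem_union_left _ (mem_union_left _ (mem_filter.2 ⟨hφ, hk, hl⟩))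
    · exact mem_union_left _ (mem_union_right _ (mem_filter.2 ⟨hφ, hl, hk⟩))
    · rcases hc m with rfl | rfl | rfl | rfl
      · exact absurd c2 c4
      · exact absurd hm hk
      · exact absurd (mem_sec.1 c3).2.1 c5
      · exact absurd hm hl
  have a5 := ((card_le_card a4).trans (card_union_le _ _)).trans
    (add_le_add ((card_union_le _ _).trans (add_le_add a1 a2)) le_rfl)
  have a6 : (#C : ℝ) ≤ 16 * #P + 16 * #P + #{φ ∈ C | φ k ∈ e1W P κ ∧ φ l ∈ e1W P κ} := by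
    exact_mod_cast a5
  linarith

end Pool.Agent.P.MP_f7c707_co.Sh
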