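import Pool.Agent.P.MP_f7c707_co.ShC
import Pool.Agent.P.MP_f7c707_co.ShA

/-!
Copies inside the two planes with a vertex on a poor circle.
-/

namespace Pool.Agent.P.MP_f7c707_co.Sh

open Finset Complex Pool.Agent.P.MP_f7c707_co

variable {P : Finset V} {κ : V → CC} {r : ℝ} {d : Tb} {i j : Fin 4}

/-- Points of the first plane at given distances from a point of each plane. -/
lemma e2_half (hκ : IsChart κ) {x y : V} (hx : (κ x).2 = 0) (hx' : (κ x).1 ≠ 0)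
    (hy : (κ y).1 = 0) (a b : ℝ) (T : Finset V)
    (hT : ∀ p ∈ T, (κ p).2 = 0 ∧ d2 p x = a ∧ d2 p y = b) : #T ≤ 2 := by
  classical
  have hinj : Set.InjOn (fun p => (κ p).1) T := fun p hp q hq e =>
    hκ.inj (Prod.ext e ((hT p hp).1.trans (hT q hq).1.symm))
  rw [← card_image_of_injOn hinj]
  refine circ_two _ hx' (r := b - normSq (κ y).2) (s := a) fun w hw => ?_
  obtain ⟨p, hp, rfl⟩ := mem_image.1 hw
  obtain ⟨h1, h2, h3⟩ := hT p hp
  rw [hκ.2, D2, h1, hx, sub_zero, map_zero, add_zero] at h2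
  rw [hκ.2, D2, h1, hy, sub_zero, zero_sub, normSq_neg] at h3
  exact ⟨by linarith, h2⟩

/-- At most four places inside the two planes. -/
lemma e2_four (hκ : IsChart κ) {x y : V} (hx : (κ x).2 = 0) (hx' : (κ x).1 ≠ 0)
    (hy : (κ y).1 = 0) (hy' : (κ y).2 ≠ 0) (a b : ℝ) (T : Finset V)
    (hT : ∀ p ∈ T, ((κ p).1 = 0 ∨ (κ p).2 = 0) ∧ d2 p x = a ∧ d2 p y = b) : #T ≤ 4 := by
  classical
  rw [← card_filter_add_card_filter_not (s := T) fun p => (κ p).2 = 0]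
  have h1 := e2_half hκ hx hx' hy a b {p ∈ T | (κ p).2 = 0} fun p hp =>
    ⟨(mem_filter.1 hp).2, (hT p (mem_filter.1 hp).1).2⟩
  have h2 := e2_half hκ.swap (x := y) (y := x) hy hy' hx b a {p ∈ T | ¬ (κ p).2 = 0} fun p hp =>
    ⟨(hT p (mem_filter.1 hp).1).1.resolve_right (mem_filter.1 hp).2,
      (hT p (mem_filter.1 hp).1).2.2, (hT p (mem_filter.1 hp).1).2.1⟩
  omega

lemma e2_cov : ∀ i j : Fin 4, i ≠ j → ∃ k l, Cov i k j l := by
  decide

lemma err_two (hκ : IsChart κ) (hr : 0 < r) (hij : i ≠ j) (C : Finset (Fin 4 → V))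
    (hC : ∀ φ ∈ C, φ ∈ Emb P d ∧ φ i ∈ sec P κ r ∧ (κ (φ j)).1 = 0 ∧ (κ (φ j)).2 ≠ 0 ∧
      ∀ m, (κ (φ m)).1 = 0 ∨ (κ (φ m)).2 = 0) :
    #C ≤ 16 * (#(sec P κ r) * #(sec P (fun p => (κ p).swap) (d i j - r))) := by
  classical
  obtain ⟨k, l, c⟩ := e2_cov i j hij
  rw [← card_product]
  refine card_le_mul_card_image_of_maps_to (f := fun φ => (φ i, φ j)) (fun φ hφ => ?_) 16
    fun b _ => ?_
  · obtain ⟨h1, h2, h3, -, -⟩ := hC φ hφ
    obtain ⟨h4, h5⟩ := mem_Emb.1 h1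
    obtain ⟨-, h6, h7⟩ := mem_sec.1 h2
    refine mem_product.2 ⟨h2, mem_sec.2 ⟨h4 j, h3, ?_⟩⟩
    have h8 := h5 i j
    rw [hκ.2, D2, h6, h3, sub_zero, zero_sub, normSq_neg, h7] at h8
    show normSq (κ (φ j)).2 = d i j - r
    linarith
  · rcases {φ ∈ C | (φ i, φ j) = b}.eq_empty_or_nonempty with h0 | ⟨φ₀, h0⟩
    · rw [h0]; simp
    obtain ⟨h1, rfl⟩ := mem_filter.1 h0
    obtain ⟨-, h2, h3, h4, -⟩ := hC φ₀ h1
    obtain ⟨-, h5, h6⟩ := mem_sec.1 h2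
    have h7 : (κ (φ₀ i)).1 ≠ 0 := fun e => by
      rw [e, map_zero] at h6
      exact hr.ne h6
    let T : Fin 4 → Finset V := fun m =>
      {p ∈ P | ((κ p).1 = 0 ∨ (κ p).2 = 0) ∧ d2 p (φ₀ i) = d m i ∧ d2 p (φ₀ j) = d m j}
    have hT : ∀ m, #(T m) ≤ 4 := fun m =>
      e2_four hκ h5 h7 h3 h4 (d m i) (d m j) _ fun p hp => (mem_filter.1 hp).2
    have h8 : #{φ ∈ C | (φ i, φ j) = (φ₀ i, φ₀ j)} ≤ #(T k ×ˢ T l) := by
      refine card_le_card_of_injOn (fun φ => (φ k, φ l)) (fun φ hφ => ?_) fun φ hφ ψ hψ e => ?_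
      · obtain ⟨a1, a2⟩ := mem_filter.1 (mem_coe.1 hφ)
        obtain ⟨b1, -, -, -, b2⟩ := hC φ a1
        obtain ⟨b3, b4⟩ := mem_Emb.1 b1
        have e1 : φ i = φ₀ i := congrArg Prod.fst a2
        have e2 : φ j = φ₀ j := congrArg Prod.snd a2
        have key : ∀ m, φ m ∈ T m := fun m =>
          mem_filter.2 ⟨b3 m, b2 m, e1 ▸ b4 m i, e2 ▸ b4 m j⟩
        exact mem_coe.2 (mem_product.2 ⟨key k, key l⟩)
      · have a := (mem_filter.1 (mem_coe.1 hφ)).2.trans (mem_filter.1 (mem_coe.1 hψ)).2.symm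
        funext m
        rcases c m with rfl | rfl | rfl | rfl
        exacts [congrArg Prod.fst a, congrArg Prod.fst e, congrArg Prod.snd a,
          congrArg Prod.snd e]
    rw [card_product] at h8
    exact h8.trans (Nat.mul_le_mul (hT k) (hT l))

/-- A genuine simplex is not inside one plane. -/
lemma not_flat (hd : ND d) (hκ : IsChart κ) {φ : Fin 4 → V} (h : φ ∈ Emb P d) :
    ∃ m, (κ (φ m)).2 ≠ 0 := by
  classical
  by_contra hc
  have h1 : ∀ m, (κ (φ m)).2 = 0 := fun m => by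
    by_contra h2
    exact hc ⟨m, h2⟩
  have h2 : Em d (univ.image fun m => normSq (κ (φ m)).1) ∅ fun m => κ (φ m) :=
    ⟨fun a b => (hκ.2 _ _).symm.trans ((mem_Emb.1 h).2 a b), fun m => Or.inr (h1 m),
      fun m _ => mem_image_of_mem _ (mem_univ m), fun m hm => absurd (h1 m) hm⟩
  exact (A2.top (j := 0) hd h2 fun m _ => h1 m).2 (h1 0)

end Pool.Agent.P.MP_f7c707_co.Sh
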