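import Pool.Agent.P.MP_f7c707_co.ShA

/-!
From the class count to the count of copies.
-/

namespace Pool.Agent.P.MP_f7c707_co.Sh

open Finset Complex

variable {d : Tb}

lemma shf_symm {ψ ψ' : Lb} (h : Eqv ψ ψ') : Eqv ψ' ψ := by
  obtain ⟨u, v, hu, hv, h⟩ := h
  have hu0 : u ≠ 0 := by rintro rfl; simp at hu
  have hv0 : v ≠ 0 := by rintro rfl; simp at hv
  refine ⟨u⁻¹, v⁻¹, by simp [hu], by simp [hv], ?_⟩
  have h1 := congrArg (Set.image fun p : CC => ((u⁻¹ * p.1, v⁻¹ * p.2) : CC)) h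
  rw [← Set.range_comp, ← Set.range_comp] at h1
  refine Eq.trans (congrArg Set.range (funext fun i => ?_)) h1.symm
  simp [hu0, hv0]

lemma shf_trans {ψ ψ' ψ'' : Lb} (h : Eqv ψ ψ') (h' : Eqv ψ' ψ'') : Eqv ψ ψ'' := by
  obtain ⟨u, v, hu, hv, h⟩ := h
  obtain ⟨u', v', hu', hv', h'⟩ := h'
  refine ⟨u' * u, v' * v, by simp [hu, hu'], by simp [hv, hv'], ?_⟩
  have h1 := congrArg (Set.image fun p : CC => ((u' * p.1, v' * p.2) : CC)) h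
  rw [← Set.range_comp, ← Set.range_comp] at h1
  refine h'.trans (h1.trans (congrArg Set.range (funext fun i => ?_)))
  simp [mul_assoc]

lemma shf_class {X Y : Finset ℂ} {C : Finset Lb}
    (hC : ∀ ψ ∈ C, (∀ i, (ψ i).1 ≠ 0 → (ψ i).1 ∈ X) ∧ ∀ i, (ψ i).2 ≠ 0 → (ψ i).2 ∈ Y)
    (hinj : ∀ ψ ∈ C, ∀ ψ' ∈ C, Set.range ψ = Set.range ψ' → ψ = ψ') {φ : Lb}
    (hS : ∀ ψ ∈ C, Eqv φ ψ) {i j : Fin 4} (hi : (φ i).1 ≠ 0) (hj : (φ j).2 ≠ 0) :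
    #C ≤ #{y ∈ X | normSq y = normSq (φ i).1} * #{y ∈ Y | normSq y = normSq (φ j).2} := by
  choose! u v hu hv h using hS
  rw [← card_product]
  refine card_le_card_of_injOn (fun ψ => (u ψ * (φ i).1, v ψ * (φ j).2)) (fun ψ hψ => ?_)
    fun a ha b hb e => ?_
  · obtain ⟨k, hk⟩ : (u ψ * (φ i).1, v ψ * (φ i).2) ∈ Set.range ψ := h ψ hψ ▸ ⟨i, rfl⟩
    obtain ⟨l, hl⟩ : (u ψ * (φ j).1, v ψ * (φ j).2) ∈ Set.range ψ := h ψ hψ ▸ ⟨j, rfl⟩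
    have h1 := (hC ψ hψ).1 k
    have h2 := (hC ψ hψ).2 l
    rw [hk] at h1
    rw [hl] at h2
    have hu0 : u ψ ≠ 0 := fun h0 => by simpa [h0] using hu ψ hψ
    have hv0 : v ψ ≠ 0 := fun h0 => by simpa [h0] using hv ψ hψ
    exact mem_coe.2 (mem_product.2
      ⟨mem_filter.2 ⟨h1 (mul_ne_zero hu0 hi), by rw [map_mul, hu ψ hψ, one_mul]⟩,
        mem_filter.2 ⟨h2 (mul_ne_zero hv0 hj), by rw [map_mul, hv ψ hψ, one_mul]⟩⟩)
  · have e1 : u a = u b := mul_right_cancel₀ hi (congrArg Prod.fst e)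
    have e2 : v a = v b := mul_right_cancel₀ hj (congrArg Prod.snd e)
    exact hinj a ha b hb (by rw [h a ha, h b hb, e1, e2])

lemma shf_layer (X : Finset ℂ) : ∃ U : ℕ → Finset ℝ, ∑ t ∈ range #X, #(U t) ≤ #X ∧
    ∀ f : Fin 4 → ℂ, (∃ i, f i ≠ 0) → (∀ i, f i ≠ 0 → f i ∈ X) →
      ∃ i, f i ≠ 0 ∧ ∀ t < #{y ∈ X | normSq y = normSq (f i)},
        t < #X ∧ ∀ k, f k ≠ 0 → normSq (f k) ∈ U t := by
  classical
  refine ⟨fun t => {r ∈ X.image normSq | t < #{y ∈ X | normSq y = r}}, ?_, fun f h0 hf => ?_⟩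
  · simp only [card_filter]
    rw [sum_comm]
    refine le_trans (sum_le_sum fun r _ => ?_) (card_eq_sum_card_image normSq X).ge
    rw [← card_filter, ← card_filter]
    exact (card_le_card fun t ht => mem_range.2 (mem_filter.1 ht).2).trans_eq (card_range _)
  · obtain ⟨i₀, h0⟩ := h0
    obtain ⟨i, hi, h⟩ := exists_min_image {i | f i ≠ 0}
      (fun i => #{y ∈ X | normSq y = normSq (f i)}) ⟨i₀, mem_filter.2 ⟨mem_univ _, h0⟩⟩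
    refine ⟨i, (mem_filter.1 hi).2, fun t ht => ⟨ht.trans_le (card_filter_le _ _), fun k hk => ?_⟩⟩
    exact mem_filter.2 ⟨mem_image_of_mem _ (hf k hk),
      ht.trans_le (h k (mem_filter.2 ⟨mem_univ _, hk⟩))⟩

theorem frame_le (hd : ND d) (hK : Kb d) (X Y : Finset ℂ) (C : Finset Lb)
    (hC : ∀ ψ ∈ C, (∀ i j, D2 (ψ i) (ψ j) = d i j) ∧ (∀ i, (ψ i).1 = 0 ∨ (ψ i).2 = 0) ∧
      (∀ i, (ψ i).1 ≠ 0 → (ψ i).1 ∈ X) ∧ ∀ i, (ψ i).2 ≠ 0 → (ψ i).2 ∈ Y)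
    (hinj : ∀ ψ ∈ C, ∀ ψ' ∈ C, Set.range ψ = Set.range ψ' → ψ = ψ') : #C ≤ 4 * #X * #Y := by
  classical
  obtain ⟨U, hU1, hU⟩ := shf_layer X
  obtain ⟨W, hW1, hW⟩ := shf_layer Y
  obtain ⟨ρ, h1, h2⟩ : ∃ ρ : Lb → Lb, (∀ ψ ∈ C, ρ ψ ∈ C ∧ Eqv (ρ ψ) ψ) ∧
      ∀ ψ ψ', Eqv ψ ψ' → ρ ψ = ρ ψ' :=
    ⟨fun ψ => Classical.epsilon fun φ => φ ∈ C ∧ Eqv φ ψ,
      fun ψ hψ => Classical.epsilon_spec (p := fun φ => φ ∈ C ∧ Eqv φ ψ) ⟨ψ, hψ, Eqv.refl ψ⟩,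
      fun ψ ψ' e => congrArg Classical.epsilon (funext fun φ => propext
        ⟨fun h => ⟨h.1, shf_trans h.2 e⟩, fun h => ⟨h.1, shf_trans h.2 (shf_symm e)⟩⟩)⟩
  have h3 : ∀ φ ∈ C.image ρ, φ ∈ C ∧ ρ φ = φ := fun φ hφ => by
    obtain ⟨ψ, hψ, rfl⟩ := mem_image.1 hφ
    exact ⟨(h1 ψ hψ).1, h2 _ _ (h1 ψ hψ).2⟩
  have h4 : ∀ φ ∈ C, Em d (X.image normSq) (Y.image normSq) φ := fun φ hφ =>
    ⟨(hC φ hφ).1, (hC φ hφ).2.1, fun i hi => mem_image_of_mem _ ((hC φ hφ).2.2.1 i hi),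
      fun i hi => mem_image_of_mem _ ((hC φ hφ).2.2.2 i hi)⟩
  let P : Lb → ℕ × ℕ → Prop := fun φ t => (∀ k, (φ k).1 ≠ 0 → normSq (φ k).1 ∈ U t.1) ∧
    ∀ k, (φ k).2 ≠ 0 → normSq (φ k).2 ∈ W t.2
  calc #C = ∑ φ ∈ C.image ρ, #{ψ ∈ C | ρ ψ = φ} := card_eq_sum_card_image _ _
    _ ≤ ∑ φ ∈ C.image ρ, #{t ∈ range #X ×ˢ range #Y | P φ t} := sum_le_sum fun φ hφ => by
      have hφ' := (h3 φ hφ).1
      obtain ⟨i, hi, hi'⟩ := hU (fun i => (φ i).1) (by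
        by_contra! h
        exact (A2.top (j := 0) hd (h4 φ hφ').sw fun i _ => h i).2 (h 0)) (hC φ hφ').2.2.1
      obtain ⟨j, hj, hj'⟩ := hW (fun i => (φ i).2) (by
        by_contra! h
        exact (A2.top (j := 0) hd (h4 φ hφ') fun i _ => h i).2 (h 0)) (hC φ hφ').2.2.2
      refine (shf_class (fun ψ hψ => (hC ψ (mem_filter.1 hψ).1).2.2)
        (fun a ha b hb => hinj a (mem_filter.1 ha).1 b (mem_filter.1 hb).1)
        (fun ψ hψ => (mem_filter.1 hψ).2 ▸ (h1 ψ (mem_filter.1 hψ).1).2) hi hj).trans ?_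
      rw [← card_range #{y ∈ X | _}, ← card_range #{y ∈ Y | _}, ← card_product]
      refine card_le_card fun t ht => ?_
      have a := hi' _ (mem_range.1 (mem_product.1 ht).1)
      have b := hj' _ (mem_range.1 (mem_product.1 ht).2)
      exact mem_filter.2 ⟨mem_product.2 ⟨mem_range.2 a.1, mem_range.2 b.1⟩, a.2, b.2⟩
    _ = ∑ t ∈ range #X ×ˢ range #Y, #{φ ∈ C.image ρ | P φ t} := by
      simp only [card_filter]
      exact sum_comm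
    _ ≤ ∑ t ∈ range #X ×ˢ range #Y, 4 * #(U t.1) * #(W t.2) := sum_le_sum fun t _ =>
      hK _ _ _ (fun φ hφ => by
        have h := h4 φ (h3 φ (mem_filter.1 hφ).1).1
        exact ⟨⟨h.ds, h.fr, (mem_filter.1 hφ).2.1, (mem_filter.1 hφ).2.2⟩, trivial⟩)
        fun a ha b hb e => by
          rw [← (h3 a (mem_filter.1 ha).1).2, h2 a b e, (h3 b (mem_filter.1 hb).1).2]
    _ = 4 * (∑ t ∈ range #X, #(U t)) * ∑ t ∈ range #Y, #(W t) := by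
      rw [sum_product, mul_sum (range #X), sum_mul_sum]
    _ ≤ 4 * #X * #Y := by gcongr

end Pool.Agent.P.MP_f7c707_co.Sh
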