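import Pool.Agent.P.MP_f7c707_co.ShT

/-!
No perpendicular opposite edges; two reflections; three equal edges at a vertex.
-/

namespace Pool.Agent.P.MP_f7c707_co.Sh

open Finset Complex

variable {d : Tb}

section aux

variable {U W : Finset ℝ} {ψ : Lb} {i k j l : Fin 4} {π π' : Fin 4 → Fin 4}

lemma k1_id : Aut d id := ⟨Function.surjective_id, fun _ _ => rfl⟩

lemma k1_cmp (h : Aut d π) (h' : Aut d π') : Aut d (π ∘ π') :=
  ⟨h.1.comp h'.1, fun a b => (h.2 (π' a) (π' b)).trans (h'.2 a b)⟩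

lemma k1_swp (hd : ND d) (c : Cov i k l j) (h1 : d i l = d k l) (h2 : d i j = d k j) :
    Aut d (Equiv.swap i k) := by
  obtain ⟨-, n2, n3, n4, n5, -⟩ := c.ne
  have s1 : Equiv.swap i k l = l := Equiv.swap_apply_of_ne_of_ne n2.symm n4.symm
  have s2 : Equiv.swap i k j = j := Equiv.swap_apply_of_ne_of_ne n3.symm n5.symm
  have y1 := hd.sy i k
  have y2 := hd.sy i l
  have y3 := hd.sy k l
  have y4 := hd.sy i j
  have y5 := hd.sy k j
  have y6 := hd.dg i
  have y7 := hd.dg k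
  refine ⟨(Equiv.swap i k).surjective, fun a b => ?_⟩
  rcases c a with e | e | e | e <;> rcases c b with f | f | f | f <;> rw [e, f] <;>
    simp only [Equiv.swap_apply_left, Equiv.swap_apply_right, s1, s2] <;> linarith

lemma k1_A2 (hπ : Aut d π) (e : π k = j) (a : A2 j ψ) : A2 k (ψ ∘ π) :=
  fun m hm => a (π m) fun h => hm (Finite.injective_iff_surjective.2 hπ.1 (h.trans e.symm))

lemma k1_Tw {i' k' j' l' : Fin 4} (t : Tw i' k' j' l' ψ) (e1 : π i = i') (e2 : π k = k')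
    (e3 : π j = j') (e4 : π l = l') : Tw i k j l (ψ ∘ π) := by
  subst e1 e2 e3 e4
  exact t

lemma k1_Tl (t : Tw i k j l ψ) : Tw k i j l ψ := ⟨t.2.1, t.1, t.2.2⟩

lemma k1_Tr (t : Tw i k j l ψ) : Tw i k l j ψ := ⟨t.1, t.2.1, t.2.2.2, t.2.2.1⟩

lemma k1_cases : ∀ m : Fin 4, m = 0 ∨ m = 1 ∨ m = 2 ∨ m = 3 := by decide

lemma k1_sw {n : ℕ} (h : Bd d W U (fun ψ => ∃ j, A2 j ψ) n) :
    Bd d U W (fun ψ => ∃ j, A1 j ψ) n := h.swap

lemma k1_tsum (c : Cov i k j l) (h : Em d U W ψ) (t : Tw i k j l ψ) :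
    d i j + d k l = d i l + d k j := by
  obtain ⟨-, -, ⟨e1, e2, e3, e4⟩, -⟩ := t.data c h
  linarith

lemma k1_eight (hd : ND d) : Bd d U W (fun ψ => ∃ j, A2 j ψ) 8 := by
  have h := Bd.sum (d := d) (U := U) (W := W) (Q := fun ψ => ∃ j, A2 j ψ) univ A2 (fun _ => 2)
    (fun j _ => bd_A2 hd j) fun ψ _ ⟨j, a⟩ => ⟨j, mem_univ _, a⟩
  exact h.mono (fun _ _ h => h) (by simp)

lemma k1_six (hd : ND d) (h0 : ∀ ψ, Em d U W ψ → ¬ A2 k ψ) :
    Bd d U W (fun ψ => ∃ j, A2 j ψ) 6 := by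
  have h := Bd.sum (d := d) (U := U) (W := W) (Q := fun ψ => ∃ j, A2 j ψ) (univ.erase k) A2
    (fun _ => 2) (fun j _ => bd_A2 hd j)
    fun ψ hψ ⟨j, a⟩ => ⟨j, mem_erase.2 ⟨fun e => h0 ψ hψ (e ▸ a), mem_univ _⟩, a⟩
  exact h.mono (fun _ _ h => h) (by simp [card_erase_of_mem])

lemma k1_oth : ∀ i j : Fin 4, i ≠ j → ∃ k l, Cov k l j i := by decide

lemma k1_base : ∀ j : Fin 4, ∃ i k l, Cov i j k l ∧ Cov k j i l ∧ Cov l j i k := by decide

/-- No two of the three sums of opposite edges agree. -/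
def K1S (d : Tb) : Prop := ∀ i k j l : Fin 4, Cov i k j l → d i j + d k l ≠ d i l + d k j

lemma k1_S (hd : ND d) (h1 : d 0 1 + d 2 3 ≠ d 0 2 + d 1 3)
    (h2 : d 0 1 + d 2 3 ≠ d 0 3 + d 1 2) (h3 : d 0 2 + d 1 3 ≠ d 0 3 + d 1 2) : K1S d := by
  intro i k j l c e
  obtain ⟨n1, n2, n3, n4, n5, n6⟩ := c.ne
  have y1 := hd.sy 0 1
  have y2 := hd.sy 0 2
  have y3 := hd.sy 0 3
  have y4 := hd.sy 1 2
  have y5 := hd.sy 1 3
  have y6 := hd.sy 2 3
  clear c
  rcases k1_cases i with rfl | rfl | rfl | rfl <;> rcases k1_cases k with rfl | rfl | rfl | rfl <;>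
    first
    | exact n1 rfl
    | (rcases k1_cases j with rfl | rfl | rfl | rfl <;>
        first
        | exact n2 rfl
        | exact n4 rfl
        | (rcases k1_cases l with rfl | rfl | rfl | rfl <;>
            first
            | exact n3 rfl
            | exact n5 rfl
            | exact n6 rfl
            | exact h1 (by linarith)
            | exact h2 (by linarith)
            | exact h3 (by linarith)))

lemma k1_noO (hd : ND d) (hS : K1S d) (h : Em d U W ψ) (a : A2 j ψ) (hi : i ≠ j) :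
    d i j - normSq (ψ j).2 ∈ U := by
  rcases (a.data hd h).2.2 i hi with h1 | ⟨-, h1⟩
  · exact h1.1
  · obtain ⟨k, l, c⟩ := k1_oth i j hi
    obtain ⟨-, n2, n3, n4, n5, -⟩ := c.ne
    have e1 := (h1 k n3 n2).1
    have e2 := (h1 l n5 n4).1
    exact absurd (by linarith) (hS k l j i c)

lemma k1_equi (hd : ND d) (hS : K1S d) (hU : #U ≤ 1) (h : Em d U W ψ) (a : A2 j ψ) (hi : i ≠ j)
    (hk : k ≠ j) : d i j = d k j := by
  have e := card_le_one.1 hU _ (k1_noO hd hS h a hi) _ (k1_noO hd hS h a hk)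
  linarith

lemma k1_two (hd : ND d) (hS : K1S d) (hU : #U ≤ 1) : Bd d U W (fun ψ => ∃ j, A2 j ψ) 2 := by
  refine Bd.of_ex fun ψ h ⟨j, a⟩ => (bd_A2 hd j).mono (fun ψ' h' ⟨i, a'⟩ => ?_) le_rfl
  by_cases hi : i = j
  · exact hi ▸ a'
  · obtain ⟨k, l, c⟩ := k1_oth i j hi
    obtain ⟨-, n2, n3, n4, n5, n6⟩ := c.ne
    have e1 := k1_equi hd hS hU h a n2 n4
    have e2 := k1_equi hd hS hU h' a' n3 n5
    exact absurd (by linarith) (hS k l j i c)

lemma k1_noT (hS : K1S d) {n m : ℕ} (h2 : Bd d U W (fun ψ => ∃ j, A2 j ψ) n)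
    (h1 : Bd d W U (fun ψ => ∃ j, A2 j ψ) m) : Bd d U W (fun _ => True) (n + m) := by
  refine (h2.or (k1_sw h1)).mono (fun ψ h _ => ?_) le_rfl
  rcases cover h with a | a | t | t | t | t | t | t
  · exact Or.inl a
  · exact Or.inr a
  all_goals exact absurd (k1_tsum (by decide) h t) (hS _ _ _ _ (by decide))

lemma k1_mid (hd : ND d) (hS : K1S d) (hU : #U ≤ 1) (hW : #W ≤ 2) :
    Bd d U W (fun _ => True) 8 := by
  by_cases h0 : ∃ ψ j, Em d U W ψ ∧ A2 j ψ
  · obtain ⟨ψ, j, h, a⟩ := h0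
    by_cases h1 : ∀ m, ∃ φ, Em d W U φ ∧ A2 m φ
    · exfalso
      obtain ⟨i, k, l, c1, c2, c3⟩ := k1_base j
      obtain ⟨n1, n2, n3, n4, n5, n6⟩ := c1.ne
      obtain ⟨φ, hφ, b⟩ := h1 i
      obtain ⟨χ, hχ, b'⟩ := h1 k
      have r := card_le_one.1 hU _ (b.data hd hφ).1 _ (b'.data hd hχ).1
      have m1 := k1_noO hd hS hφ b n2.symm
      have m2 := k1_noO hd hS hφ b n3.symm
      have m3 := k1_noO hd hS hχ b' n6.symm
      have e1 := k1_equi hd hS hU h a n1 n4.symm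
      have e2 := k1_equi hd hS hU h a n1 n5.symm
      have y1 := hd.sy i j
      have y2 := hd.sy k j
      have y3 := hd.sy l j
      have y4 := hd.sy i k
      have y5 := hd.sy i l
      have y6 := hd.sy k l
      refine absurd (two_lt_card_iff.2 ⟨_, _, _, m1, m2, m3, fun e => ?_, fun e => ?_,
        fun e => ?_⟩)
        (not_lt.2 hW)
      · exact hS _ _ _ _ c1 (by linarith)
      · exact hS _ _ _ _ c2 (by linarith)
      · exact hS _ _ _ _ c3 (by linarith)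
    · obtain ⟨m, hm⟩ := not_forall.1 h1
      exact k1_noT hS (k1_two hd hS hU) (k1_six hd (k := m) fun φ p q => hm ⟨φ, p, q⟩)
  · exact k1_noT hS (Bd.zero fun ψ h ⟨j, a⟩ => h0 ⟨ψ, j, h, a⟩) (k1_eight hd)

lemma k1_pair (hd : ND d) {x y z w : Fin 4} (c : Cov x y z w) (h1 : d x z = d y z)
    (h2 : d x w = d y w) (h3 : d z x = d w x) (h4 : d z y = d w y) :
    Bd d U W (fun ψ => A2 z ψ ∨ A2 w ψ) 1 := by
  have c' : Cov z w x y := fun m => by
    rcases c m with e | e | e | e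
    exacts [Or.inr (Or.inr (Or.inl e)), Or.inr (Or.inr (Or.inr e)), Or.inl e, Or.inr (Or.inl e)]
  refine (bd_A2s hd c h1 h2).rel fun ψ _ a => ?_
  rcases a with a | a
  · have s := k1_swp hd c' h3 h4
    exact ⟨_, s, k1_A2 s (Equiv.swap_apply_right _ _) a⟩
  · exact ⟨id, k1_id, a⟩

lemma k1_near (hd : ND d) {x y z w : Fin 4} (c : Cov x y z w) (hU : #U ≤ 1)
    (h2 : d x w = d y w) (h3 : d x z = d x w) (h : Em d U W ψ) (a : A2 w ψ) :
    d z w = d x w := by
  obtain ⟨n1, n2, n3, n4, n5, n6⟩ := c.ne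
  rcases (a.data hd h).2.2 z n6 with p | ⟨-, p⟩
  · rcases (a.data hd h).2.2 x n3 with q | ⟨-, q⟩
    · have e := card_le_one.1 hU _ p.1 _ q.1
      linarith
    · have e := (q y n1.symm n5).1
      have := hd.ps y x n1.symm
      linarith
  · have e := (p x n2 n3).1
    have := hd.ps z w n6
    linarith

end aux

theorem kb_one (hd : ND d) (h1 : d 0 1 + d 2 3 ≠ d 0 2 + d 1 3)
    (h2 : d 0 1 + d 2 3 ≠ d 0 3 + d 1 2) (h3 : d 0 2 + d 1 3 ≠ d 0 3 + d 1 2) : Kb d := by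
  have hS := k1_S hd h1 h2 h3
  refine Kb.of_le hd fun U W ha hb => ?_
  by_cases a1 : #U ≤ 1
  · have ea : #U = 1 := le_antisymm a1 ha
    by_cases b1 : #W ≤ 1
    · exact (k1_noT hS (k1_two hd hS a1) (k1_two hd hS b1)).mono (fun _ _ h => h)
        (by rw [ea]; omega)
    · by_cases b2 : #W ≤ 2
      · exact (k1_mid hd hS a1 b2).mono (fun _ _ h => h) (by rw [ea]; omega)
      · exact (k1_noT hS (k1_two hd hS a1) (k1_eight hd)).mono (fun _ _ h => h)
          (by rw [ea]; omega)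
  · refine (k1_noT hS (k1_eight hd) (k1_eight hd)).mono (fun _ _ h => h) ?_
    have p : 2 ≤ #U := by omega
    have q : 2 ≤ #W := by omega
    nlinarith [Nat.mul_le_mul p q]

theorem kb_tc (hd : ND d) (h1 : d 0 1 = d 0 2) (h2 : d 0 1 = d 1 2) (h3 : d 0 3 = d 1 3)
    (h4 : d 0 3 = d 2 3) (h5 : d 0 1 ≠ d 0 3) : Kb d := by
  have y1 := hd.sy 0 1
  have y2 := hd.sy 0 2
  have y3 := hd.sy 0 3
  have y4 := hd.sy 1 2
  have y5 := hd.sy 1 3
  have y6 := hd.sy 2 3
  have s02 : Aut d (Equiv.swap 0 2) :=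
    k1_swp hd (l := 1) (j := 3) (by decide) (by linarith) (by linarith)
  have s12 : Aut d (Equiv.swap 1 2) :=
    k1_swp hd (l := 0) (j := 3) (by decide) (by linarith) (by linarith)
  have ap : ∀ U W : Finset ℝ, Bd d U W (fun ψ => ∃ j, A2 j ψ) 2 := fun U W => by
    have p3 : Bd d U W (A2 3) 1 :=
      bd_A2s hd (i := 0) (k := 1) (l := 2) (by decide) (by linarith) h3
    have p2 : Bd d U W (A2 2) 1 :=
      bd_A2s hd (i := 0) (k := 1) (l := 3) (by decide) h3 (by linarith)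
    refine (p2.or p3).rel fun ψ _ ⟨j, a⟩ => ?_
    rcases k1_cases j with rfl | rfl | rfl | rfl
    · exact ⟨_, s02, Or.inl (k1_A2 s02 (by decide) a)⟩
    · exact ⟨_, s12, Or.inl (k1_A2 s12 (by decide) a)⟩
    · exact ⟨id, k1_id, Or.inl a⟩
    · exact ⟨id, k1_id, Or.inr a⟩
  refine Kb.of_le hd fun U W ha hb => ?_
  have t1 : Bd d U W (Tw 0 1 2 3) (2 * (#W - 1)) :=
    (fx_left hd (by decide) (Or.inl ⟨by linarith, h3⟩)).lt_W (by decide) fun e => h5 (by linarith)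
  have t2 : Bd d U W (Tw 2 3 0 1) (2 * (#U - 1)) :=
    (fx_right hd (by decide) (Or.inl ⟨by linarith, by linarith⟩)).lt_U (by decide)
      fun e => h5 (by linarith)
  have t3 : Bd d U W (fun ψ => Tw 0 1 2 3 ψ ∨ Tw 2 3 0 1 ψ ∨ Tw 0 2 1 3 ψ ∨ Tw 1 3 0 2 ψ ∨
      Tw 0 3 1 2 ψ ∨ Tw 1 2 0 3 ψ) (2 * (#W - 1) + 2 * (#U - 1)) := by
    refine (t1.or t2).rel fun ψ _ t => ?_
    rcases t with t | t | t | t | t | t
    · exact ⟨id, k1_id, Or.inl t⟩
    · exact ⟨id, k1_id, Or.inr t⟩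
    · exact ⟨_, s12, Or.inl (k1_Tw t (by decide) (by decide) (by decide) (by decide))⟩
    · exact ⟨_, s12, Or.inr (k1_Tw t (by decide) (by decide) (by decide) (by decide))⟩
    · exact ⟨_, s02, Or.inr (k1_Tw (k1_Tr t) (by decide) (by decide) (by decide) (by decide))⟩
    · exact ⟨_, s02, Or.inl (k1_Tw (k1_Tl t) (by decide) (by decide) (by decide) (by decide))⟩
  refine ((ap U W).or ((k1_sw (ap W U)).or t3)).mono (fun ψ h _ => cover h) ?_
  obtain ⟨a, ea⟩ := Nat.exists_eq_add_of_le ha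
  obtain ⟨b, eb⟩ := Nat.exists_eq_add_of_le (ha.trans hb)
  rw [ea, eb, Nat.add_sub_cancel_left, Nat.add_sub_cancel_left]
  nlinarith [Nat.zero_le (a * b)]

theorem kb_tt (hd : ND d) (h1 : d 0 2 = d 1 2) (h2 : d 0 2 = d 0 3) (h3 : d 0 2 = d 1 3)
    (h4 : d 0 1 ≠ d 0 2 ∨ d 2 3 ≠ d 0 2) : Kb d := by
  have y1 := hd.sy 0 1
  have y2 := hd.sy 0 2
  have y3 := hd.sy 0 3
  have y4 := hd.sy 1 2
  have y5 := hd.sy 1 3
  have y6 := hd.sy 2 3
  have s01 : Aut d (Equiv.swap 0 1) :=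
    k1_swp hd (l := 2) (j := 3) (by decide) (by linarith) (by linarith)
  have s23 : Aut d (Equiv.swap 2 3) :=
    k1_swp hd (l := 0) (j := 1) (by decide) (by linarith) (by linarith)
  have p01 : ∀ U W : Finset ℝ, Bd d U W (fun ψ => A2 0 ψ ∨ A2 1 ψ) 1 := fun U W =>
    k1_pair hd (x := 2) (y := 3) (by decide) (by linarith) (by linarith) (by linarith)
      (by linarith)
  have p23 : ∀ U W : Finset ℝ, Bd d U W (fun ψ => A2 2 ψ ∨ A2 3 ψ) 1 := fun U W =>
    k1_pair hd (x := 0) (y := 1) (by decide) (by linarith) (by linarith) (by linarith)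
      (by linarith)
  have ap : ∀ U W : Finset ℝ, Bd d U W (fun ψ => ∃ j, A2 j ψ) 2 := fun U W => by
    refine ((p01 U W).or (p23 U W)).mono (fun ψ _ ⟨j, a⟩ => ?_) le_rfl
    rcases k1_cases j with rfl | rfl | rfl | rfl
    exacts [Or.inl (Or.inl a), Or.inl (Or.inr a), Or.inr (Or.inl a), Or.inr (Or.inr a)]
  have ap1 : ∀ U W : Finset ℝ, #U ≤ 1 → Bd d U W (fun ψ => ∃ j, A2 j ψ) 1 := fun U W hU => by
    rcases h4 with h4 | h4
    · refine (p23 U W).mono (fun ψ h ⟨j, a⟩ => ?_) le_rfl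
      rcases k1_cases j with rfl | rfl | rfl | rfl
      · have e := k1_near hd (x := 2) (y := 3) (z := 1) (by decide) hU (by linarith)
          (by linarith) h a
        exact absurd (by linarith) h4
      · have e := k1_near hd (x := 2) (y := 3) (z := 0) (by decide) hU (by linarith)
          (by linarith) h a
        exact absurd (by linarith) h4
      · exact Or.inl a
      · exact Or.inr a
    · refine (p01 U W).mono (fun ψ h ⟨j, a⟩ => ?_) le_rfl
      rcases k1_cases j with rfl | rfl | rfl | rfl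
      · exact Or.inl a
      · exact Or.inr a
      · have e := k1_near hd (x := 0) (y := 1) (z := 3) (by decide) hU (by linarith)
          (by linarith) h a
        exact absurd (by linarith) h4
      · have e := k1_near hd (x := 0) (y := 1) (z := 2) (by decide) hU (by linarith)
          (by linarith) h a
        exact absurd (by linarith) h4
  refine Kb.of_le hd fun U W ha hb => ?_
  have t1 : Bd d U W (Tw 0 1 2 3) (1 * #U) :=
    (fx_one hd (by decide) (Or.inl ⟨by linarith, by linarith⟩)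
      (Or.inl ⟨by linarith, by linarith⟩)).le_U (by decide)
  have t2 : Bd d U W (Tw 2 3 0 1) (1 * #U) :=
    (fx_one hd (by decide) (Or.inl ⟨by linarith, by linarith⟩)
      (Or.inl ⟨by linarith, by linarith⟩)).le_U (by decide)
  have t3 : Bd d U W (Tw 0 2 1 3) (4 * (#U - 1)) := by
    refine Bd.of_ex fun ψ h t => (fx_four hd (by decide)).lt_U (by decide) fun e => ?_
    have e1 := k1_tsum (by decide) h t
    rcases h4 with h4 | h4 <;> exact h4 (by linarith)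
  have t4 : Bd d U W (fun ψ => Tw 0 2 1 3 ψ ∨ Tw 1 3 0 2 ψ ∨ Tw 0 3 1 2 ψ ∨ Tw 1 2 0 3 ψ)
      (4 * (#U - 1)) := by
    refine t3.rel fun ψ _ t => ?_
    rcases t with t | t | t | t
    · exact ⟨id, k1_id, t⟩
    · exact ⟨_, k1_cmp s01 s23, k1_Tw t (by decide) (by decide) (by decide) (by decide)⟩
    · exact ⟨_, s23, k1_Tw t (by decide) (by decide) (by decide) (by decide)⟩
    · exact ⟨_, s01, k1_Tw t (by decide) (by decide) (by decide) (by decide)⟩
  by_cases b1 : #W ≤ 1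
  · refine ((ap1 U W (hb.trans b1)).or ((k1_sw (ap1 W U b1)).or (t1.or (t2.or t4)))).mono
      (fun ψ h _ => cover h) ?_
    have ea : #U = 1 := by omega
    have eb : #W = 1 := by omega
    rw [ea, eb]
  · refine ((ap U W).or ((k1_sw (ap W U)).or (t1.or (t2.or t4)))).mono
      (fun ψ h _ => cover h) ?_
    have q : 2 ≤ #W := by omega
    have r := Nat.mul_le_mul_left (4 * #U) q
    omega

theorem kb_reg (hd : ND d) (h1 : d 0 2 = d 0 1) (h2 : d 0 3 = d 0 1) (h3 : d 1 2 = d 0 1)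
    (h4 : d 1 3 = d 0 1) (h5 : d 2 3 = d 0 1) : Kb d := by
  have y1 := hd.sy 0 1
  have y2 := hd.sy 0 2
  have y3 := hd.sy 0 3
  have y4 := hd.sy 1 2
  have y5 := hd.sy 1 3
  have y6 := hd.sy 2 3
  have hc : ∀ i j, i ≠ j → d i j = d 0 1 := fun i j n => by
    rcases k1_cases i with rfl | rfl | rfl | rfl <;>
      rcases k1_cases j with rfl | rfl | rfl | rfl <;>
      first
      | exact absurd rfl n
      | linarith
  have au : ∀ π : Fin 4 → Fin 4, Function.Surjective π → Aut d π := fun π hπ =>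
    ⟨hπ, fun i j => by
      by_cases e : i = j
      · rw [e, hd.dg, hd.dg]
      · rw [hc i j e, hc _ _ fun f => e (Finite.injective_iff_surjective.2 hπ f)]⟩
  have ap : ∀ U W : Finset ℝ, Bd d U W (fun ψ => ∃ j, A2 j ψ) 1 := fun U W => by
    have p3 : Bd d U W (A2 3) 1 :=
      bd_A2s hd (i := 0) (k := 1) (l := 2) (by decide) (by linarith) (by linarith)
    refine p3.rel fun ψ _ ⟨j, a⟩ => ?_
    have s := au _ (Equiv.swap j 3).surjective
    exact ⟨_, s, k1_A2 s (Equiv.swap_apply_right _ _) a⟩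
  refine Kb.of_le hd fun U W ha hb => ?_
  have t1 : Bd d U W (Tw 0 1 2 3) (1 * #U) :=
    (fx_one hd (by decide) (Or.inl ⟨by linarith, by linarith⟩)
      (Or.inl ⟨by linarith, by linarith⟩)).le_U (by decide)
  have t3 : Bd d U W (fun ψ => Tw 0 1 2 3 ψ ∨ Tw 2 3 0 1 ψ ∨ Tw 0 2 1 3 ψ ∨ Tw 1 3 0 2 ψ ∨
      Tw 0 3 1 2 ψ ∨ Tw 1 2 0 3 ψ) (1 * #U) := by
    refine t1.rel fun ψ _ t => ?_
    rcases t with t | t | t | t | t | t
    · exact ⟨id, k1_id, t⟩
    · exact ⟨![2, 3, 0, 1], au _ (by decide), k1_Tw t rfl rfl rfl rfl⟩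
    · exact ⟨![0, 2, 1, 3], au _ (by decide), k1_Tw t rfl rfl rfl rfl⟩
    · exact ⟨![1, 3, 0, 2], au _ (by decide), k1_Tw t rfl rfl rfl rfl⟩
    · exact ⟨![0, 3, 1, 2], au _ (by decide), k1_Tw t rfl rfl rfl rfl⟩
    · exact ⟨![1, 2, 0, 3], au _ (by decide), k1_Tw t rfl rfl rfl rfl⟩
  refine ((ap U W).or ((k1_sw (ap W U)).or t3)).mono (fun ψ h _ => cover h) ?_
  have r := Nat.mul_le_mul_left (4 * #U) (ha.trans hb)
  omega

end Pool.Agent.P.MP_f7c707_co.Sh
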