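import Pool.Agent.P.MP_f7c707_co.ShA

/-!
Two vertices in each plane.
-/

namespace Pool.Agent.P.MP_f7c707_co.Sh

open Finset Complex

variable {d : Tb} {U W U' W' : Finset ℝ} {ψ ψ' : Lb} {i k j l : Fin 4}

variable {n : ℕ}

lemma Tw.zero (h : Em d U W ψ) (t : Tw i k j l ψ) :
    (ψ i).2 = 0 ∧ (ψ k).2 = 0 ∧ (ψ j).1 = 0 ∧ (ψ l).1 = 0 :=
  ⟨(h.fr i).resolve_left t.1, (h.fr k).resolve_left t.2.1, (h.fr j).resolve_right t.2.2.1,
    (h.fr l).resolve_right t.2.2.2⟩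

lemma Tw.data (c : Cov i k j l) (h : Em d U W ψ) (t : Tw i k j l ψ) :
    (normSq (ψ i).1 ∈ U ∧ normSq (ψ k).1 ∈ U ∧ normSq (ψ j).2 ∈ W ∧ normSq (ψ l).2 ∈ W) ∧
    (0 < normSq (ψ i).1 ∧ 0 < normSq (ψ k).1 ∧ 0 < normSq (ψ j).2 ∧ 0 < normSq (ψ l).2) ∧
    (normSq (ψ i).1 + normSq (ψ j).2 = d i j ∧ normSq (ψ i).1 + normSq (ψ l).2 = d i l ∧
      normSq (ψ k).1 + normSq (ψ j).2 = d k j ∧ normSq (ψ k).1 + normSq (ψ l).2 = d k l) ∧
    normSq ((ψ i).1 - (ψ k).1) = d i k ∧ normSq ((ψ j).2 - (ψ l).2) = d j l := by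
  obtain ⟨z1, z2, z3, z4⟩ := t.zero h
  obtain ⟨t1, t2, t3, t4⟩ := t
  refine ⟨⟨h.hU i t1, h.hU k t2, h.hW j t3, h.hW l t4⟩,
    ⟨normSq_pos.2 t1, normSq_pos.2 t2, normSq_pos.2 t3, normSq_pos.2 t4⟩, ⟨?_, ?_, ?_, ?_⟩, ?_, ?_⟩
  all_goals
    rw [← h.ds]
    simp only [D2, z1, z2, z3, z4, sub_zero, zero_sub, normSq_neg, sub_self, map_zero, add_zero,
      zero_add]

/-- Two pairs with the same lengths and the same orientation differ by a rotation. -/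
lemma t_rot {z w z' w' : ℂ} {e : ℝ} (hz : z ≠ 0) (e1 : normSq z = normSq z')
    (e2 : normSq w = normSq w') (e3 : normSq (z - w) = normSq (z' - w')) (he : e ≠ 0)
    (s : 0 ≤ e * ((starRingEnd ℂ) z * w).im) (s' : 0 ≤ e * ((starRingEnd ℂ) z' * w').im) :
    ∃ u : ℂ, normSq u = 1 ∧ z' = u * z ∧ w' = u * w := by
  have hn : normSq z ≠ 0 := (normSq_pos.2 hz).ne'
  have hz' : z' ≠ 0 := normSq_pos.1 (e1 ▸ normSq_pos.2 hz)
  have re : ((starRingEnd ℂ) z * w).re = ((starRingEnd ℂ) z' * w').re := by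
    simp only [normSq_apply, sub_re, sub_im, mul_re, conj_re, conj_im] at e1 e2 e3 ⊢
    linear_combination (e1 + e2 - e3) / 2
  have nm : normSq ((starRingEnd ℂ) z * w) = normSq ((starRingEnd ℂ) z' * w') := by
    rw [map_mul, map_mul, normSq_conj, normSq_conj, e1, e2]
  have im : ((starRingEnd ℂ) z * w).im = ((starRingEnd ℂ) z' * w').im := by
    rw [normSq_apply, normSq_apply, re] at nm
    refine mul_left_cancel₀ he ((mul_self_inj_of_nonneg s s').1 ?_)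
    linear_combination e * e * nm
  have A : (starRingEnd ℂ) z * w = (starRingEnd ℂ) z' * w' := Complex.ext re im
  have B : (starRingEnd ℂ) z * z = (starRingEnd ℂ) z' * z' := by
    rw [← normSq_eq_conj_mul_self, ← normSq_eq_conj_mul_self, e1]
  have hc : (starRingEnd ℂ) z' ≠ 0 := (map_ne_zero _).2 hz'
  refine ⟨z' / z, by rw [map_div₀, ← e1, div_self hn], by rw [div_mul_cancel₀ _ hz], ?_⟩
  rw [div_mul_eq_mul_div, eq_div_iff hz]
  apply mul_left_cancel₀ hc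
  linear_combination w * B - z * A

/-- Two vertices in each plane, one radius, conditions on the two orientations. -/
def TP (i k j l : Fin 4) (ρ : ℝ) (P P' : ℝ → Prop) (ψ : Lb) : Prop :=
  (Tw i k j l ψ ∧ normSq (ψ i).1 = ρ) ∧ P ((starRingEnd ℂ) (ψ i).1 * (ψ k).1).im ∧
    P' ((starRingEnd ℂ) (ψ j).2 * (ψ l).2).im

variable {ρ : ℝ} {P P' : ℝ → Prop}

lemma t_base (c : Cov i k j l) {e e' : ℝ} (he : e ≠ 0) (he' : e' ≠ 0) :
    Bd d U W (TP i k j l ρ (fun x => 0 ≤ e * x) fun x => 0 ≤ e' * x) 1 := by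
  refine Bd.one fun ψ ψ' h h' ⟨⟨t, r⟩, s1, s2⟩ ⟨⟨t', r'⟩, s1', s2'⟩ => ?_
  obtain ⟨-, -, ⟨a1, a2, a3, a4⟩, a5, a6⟩ := t.data c h
  obtain ⟨-, -, ⟨b1, b2, b3, b4⟩, b5, b6⟩ := t'.data c h'
  obtain ⟨z1, z2, z3, z4⟩ := t.zero h
  obtain ⟨y1, y2, y3, y4⟩ := t'.zero h'
  obtain ⟨u, hu, u1, u2⟩ := t_rot t.1 (r.trans r'.symm) (by linarith) (a5.trans b5.symm) he s1 s1'
  obtain ⟨v, hv, v1, v2⟩ := t_rot t.2.2.1 (by linarith) (by linarith) (a6.trans b6.symm) he' s2 s2'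
  refine ⟨u, v, hu, hv, congrArg Set.range (funext fun m => ?_)⟩
  rcases c m with rfl | rfl | rfl | rfl
  · exact Prod.ext u1 (by simp only [y1, z1, mul_zero])
  · exact Prod.ext u2 (by simp only [y2, z2, mul_zero])
  · exact Prod.ext (by simp only [y3, z3, mul_zero]) v1
  · exact Prod.ext (by simp only [y4, z4, mul_zero]) v2

lemma t_sign (x : ℝ) : 0 ≤ 1 * x ∨ 0 ≤ -1 * x := by
  rcases le_total 0 x with h | h
  · exact Or.inl (by linarith)
  · exact Or.inr (by linarith)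

lemma t_two1 (h : ∀ e : ℝ, e ≠ 0 → Bd d U W (TP i k j l ρ (fun x => 0 ≤ e * x) P') n) :
    Bd d U W (TP i k j l ρ (fun _ => True) P') (n + n) :=
  ((h 1 one_ne_zero).or (h (-1) (by norm_num))).mono
    (fun _ _ q => (t_sign _).imp (fun s => ⟨q.1, s, q.2.2⟩) fun s => ⟨q.1, s, q.2.2⟩) le_rfl

lemma t_two2 (h : ∀ e : ℝ, e ≠ 0 → Bd d U W (TP i k j l ρ P fun x => 0 ≤ e * x) n) :
    Bd d U W (TP i k j l ρ P fun _ => True) (n + n) :=
  ((h 1 one_ne_zero).or (h (-1) (by norm_num))).mono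
    (fun _ _ q => (t_sign _).imp (fun s => ⟨q.1, q.2.1, s⟩) fun s => ⟨q.1, q.2.1, s⟩) le_rfl

lemma t_aut (hd : ND d) (c : Cov i k j l) (h1 : d i j = d k j) (h2 : d i l = d k l) :
    Aut d (Equiv.swap i k) := by
  obtain ⟨-, n2, n3, n4, n5, -⟩ := c.ne
  have s1 : Equiv.swap i k j = j := Equiv.swap_apply_of_ne_of_ne n2.symm n4.symm
  have s2 : Equiv.swap i k l = l := Equiv.swap_apply_of_ne_of_ne n3.symm n5.symm
  have h3 : d j i = d j k := by rw [hd.sy j i, hd.sy j k, h1]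
  have h4 : d l i = d l k := by rw [hd.sy l i, hd.sy l k, h2]
  have h5 := hd.sy i k
  refine ⟨(Equiv.swap i k).surjective, fun a b => ?_⟩
  rcases c a with ha | ha | ha | ha <;> rcases c b with hb | hb | hb | hb <;>
    simp only [ha, hb, s1, s2, Equiv.swap_apply_left, Equiv.swap_apply_right, hd.dg, h1, h2, h3,
      h4, h5]

lemma t_id : Aut d id := ⟨Function.surjective_id, fun _ _ => rfl⟩

lemma t_flip (z w : ℂ) (h : 0 ≤ -1 * ((starRingEnd ℂ) z * w).im) :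
    0 ≤ 1 * ((starRingEnd ℂ) w * z).im := by
  simp only [mul_im, conj_re, conj_im] at h ⊢
  linarith

/-- The pair in the first plane gives one class only. -/
def H1 (d : Tb) (U W : Finset ℝ) (i k j l : Fin 4) : Prop :=
  (d i j = d k j ∧ d i l = d k l) ∨
    ∀ ψ, Em d U W ψ → Tw i k j l ψ → ((starRingEnd ℂ) (ψ i).1 * (ψ k).1).im = 0

/-- The pair in the second plane gives one class only. -/
def H2 (d : Tb) (U W : Finset ℝ) (i k j l : Fin 4) : Prop :=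
  (d i j = d i l ∧ d k j = d k l) ∨
    ∀ ψ, Em d U W ψ → Tw i k j l ψ → ((starRingEnd ℂ) (ψ j).2 * (ψ l).2).im = 0

/-- The number of classes for one radius. -/
def Fx (d : Tb) (U W : Finset ℝ) (i k j l : Fin 4) (n : ℕ) : Prop :=
  ∀ ρ : ℝ, Bd d U W (fun ψ => Tw i k j l ψ ∧ normSq (ψ i).1 = ρ) n

lemma t_one1 (hd : ND d) (c : Cov i k j l) (H : H1 d U W i k j l)
    (h : Bd d U W (TP i k j l ρ (fun x => 0 ≤ 1 * x) P') n) :
    Bd d U W (TP i k j l ρ (fun _ => True) P') n := by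
  rcases H with ⟨h1, h2⟩ | H
  · refine h.rel fun ψ hψ ⟨⟨t, r⟩, _, s2⟩ => ?_
    rcases t_sign ((starRingEnd ℂ) (ψ i).1 * (ψ k).1).im with s | s
    · exact ⟨id, t_id, ⟨t, r⟩, s, s2⟩
    obtain ⟨-, n2, n3, n4, n5, -⟩ := c.ne
    have s1 : Equiv.swap i k j = j := Equiv.swap_apply_of_ne_of_ne n2.symm n4.symm
    have s3 : Equiv.swap i k l = l := Equiv.swap_apply_of_ne_of_ne n3.symm n5.symm
    obtain ⟨-, -, ⟨a1, -, a3, -⟩, -⟩ := t.data c hψ
    refine ⟨Equiv.swap i k, t_aut hd c h1 h2, ?_⟩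
    simp only [TP, Tw, Function.comp_apply, Equiv.swap_apply_left, Equiv.swap_apply_right, s1, s3]
    exact ⟨⟨⟨t.2.1, t.1, t.2.2⟩, by linarith⟩, t_flip _ _ s, s2⟩
  · exact h.mono (fun ψ hψ q => ⟨q.1, by simp only [H ψ hψ q.1.1, mul_zero, le_refl], q.2.2⟩) le_rfl

lemma t_one2 (hd : ND d) (c : Cov i k j l) (H : H2 d U W i k j l)
    (h : Bd d U W (TP i k j l ρ P fun x => 0 ≤ 1 * x) n) :
    Bd d U W (TP i k j l ρ P fun _ => True) n := by
  rcases H with ⟨h1, h2⟩ | H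
  · refine h.rel fun ψ hψ ⟨⟨t, r⟩, s2, _⟩ => ?_
    rcases t_sign ((starRingEnd ℂ) (ψ j).2 * (ψ l).2).im with s | s
    · exact ⟨id, t_id, ⟨t, r⟩, s2, s⟩
    obtain ⟨-, n2, n3, n4, n5, -⟩ := c.ne
    have s1 : Equiv.swap j l i = i := Equiv.swap_apply_of_ne_of_ne n2 n3
    have s3 : Equiv.swap j l k = k := Equiv.swap_apply_of_ne_of_ne n4 n5
    have c' : Cov j l i k := fun m => or_comm.1 (or_assoc.2 (c m)) |>.imp_left id |> or_assoc.1
    refine ⟨Equiv.swap j l, t_aut hd c' (by rw [hd.sy j i, hd.sy l i, h1])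
      (by rw [hd.sy j k, hd.sy l k, h2]), ?_⟩
    simp only [TP, Tw, Function.comp_apply, Equiv.swap_apply_left, Equiv.swap_apply_right, s1, s3]
    exact ⟨⟨⟨t.1, t.2.1, t.2.2.2, t.2.2.1⟩, r⟩, s2, t_flip _ _ s⟩
  · exact h.mono (fun ψ hψ q => ⟨q.1, q.2.1, by simp only [H ψ hψ q.1.1, mul_zero, le_refl]⟩) le_rfl

lemma t_fx (h : ∀ ρ, Bd d U W (TP i k j l ρ (fun _ => True) fun _ => True) n) :
    Fx d U W i k j l n := fun ρ => (h ρ).mono (fun _ _ q => ⟨q, trivial, trivial⟩) le_rfl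

lemma t_card (S : Finset ℝ) {δ : ℝ} (hδ : δ ≠ 0) : #{x ∈ S | x + δ ∈ S} ≤ #S - 1 := by
  rcases S.eq_empty_or_nonempty with rfl | hS
  · simp
  have key : ∃ m ∈ S, m + δ ∉ S := by
    rcases hδ.lt_or_gt with h | h
    · exact ⟨S.min' hS, S.min'_mem hS, fun q => by linarith [S.min'_le _ q]⟩
    · exact ⟨S.max' hS, S.max'_mem hS, fun q => by linarith [S.le_max' _ q]⟩
  obtain ⟨m, hm, hm'⟩ := key
  rw [← card_erase_of_mem hm]
  refine card_le_card fun x hx => mem_erase.2 ⟨?_, (mem_filter.1 hx).1⟩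
  rintro rfl
  exact hm' (mem_filter.1 hx).2

lemma fx_four (hd : ND d) (c : Cov i k j l) : Fx d U W i k j l 4 := by
  exact t_fx fun _ => t_two1 (n := 2) fun _ he => t_two2 (n := 1) fun _ he' => t_base c he he'

lemma fx_left (hd : ND d) (c : Cov i k j l) (h : H1 d U W i k j l) : Fx d U W i k j l 2 := by
  exact t_fx fun _ => t_one1 hd c h (t_two2 (n := 1) fun _ he' => t_base c one_ne_zero he')

lemma fx_right (hd : ND d) (c : Cov i k j l) (h : H2 d U W i k j l) : Fx d U W i k j l 2 := by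
  exact t_fx fun _ => t_one2 hd c h (t_two1 (n := 1) fun _ he => t_base c he one_ne_zero)

lemma fx_one (hd : ND d) (c : Cov i k j l) (h : H1 d U W i k j l) (h' : H2 d U W i k j l) :
    Fx d U W i k j l 1 := by
  exact t_fx fun _ => t_one1 hd c h (t_one2 hd c h' (t_base c one_ne_zero one_ne_zero))

lemma Fx.le_U (c : Cov i k j l) (h : Fx d U W i k j l n) : Bd d U W (Tw i k j l) (n * #U) := by
  refine (Bd.sum U (fun ρ ψ => Tw i k j l ψ ∧ normSq (ψ i).1 = ρ) (fun _ => n) (fun ρ _ => h ρ)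
    fun ψ hψ t => ⟨_, (t.data c hψ).1.1, t, rfl⟩).mono (fun _ _ q => q) ?_
  rw [sum_const, smul_eq_mul, mul_comm]

lemma Fx.lt_U (c : Cov i k j l) (h : Fx d U W i k j l n) (hne : d i j ≠ d k j) :
    Bd d U W (Tw i k j l) (n * (#U - 1)) := by
  refine (Bd.sum {x ∈ U | x + (d k j - d i j) ∈ U} (fun ρ ψ => Tw i k j l ψ ∧ normSq (ψ i).1 = ρ)
    (fun _ => n) (fun ρ _ => h ρ) fun ψ hψ t => ?_).mono (fun _ _ q => q) ?_
  · obtain ⟨⟨m1, m2, -, -⟩, -, ⟨a1, -, a3, -⟩, -⟩ := t.data c hψ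
    refine ⟨_, mem_filter.2 ⟨m1, ?_⟩, t, rfl⟩
    rwa [show normSq (ψ i).1 + (d k j - d i j) = normSq (ψ k).1 by linarith]
  · rw [sum_const, smul_eq_mul, mul_comm]
    exact Nat.mul_le_mul_left _ (t_card U (sub_ne_zero.2 hne.symm))

lemma Fx.lt_W (c : Cov i k j l) (h : Fx d U W i k j l n) (hne : d i j ≠ d i l) :
    Bd d U W (Tw i k j l) (n * (#W - 1)) := by
  refine (Bd.sum {x ∈ W | x + (d i l - d i j) ∈ W}
    (fun y ψ => Tw i k j l ψ ∧ normSq (ψ i).1 = d i j - y)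
    (fun _ => n) (fun y _ => h _) fun ψ hψ t => ?_).mono (fun _ _ q => q) ?_
  · obtain ⟨⟨-, -, m1, m2⟩, -, ⟨a1, a2, -, -⟩, -⟩ := t.data c hψ
    refine ⟨_, mem_filter.2 ⟨m1, ?_⟩, t, by linarith⟩
    rwa [show normSq (ψ j).2 + (d i l - d i j) = normSq (ψ l).2 by linarith]
  · rw [sum_const, smul_eq_mul, mul_comm]
    exact Nat.mul_le_mul_left _ (t_card W (sub_ne_zero.2 hne.symm))

/-- If the edge `j l` is seen under a right angle and `l` is at its height, then `i`, `k` are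
on a line through the origin. -/
lemma col (hd : ND d) (c : Cov i k j l) (h : Em d U W ψ) (t : Tw i k j l ψ) (h' : Em d U' W' ψ')
    (a : A2 l ψ') (e1 : normSq (ψ' l).2 = normSq (ψ l).2)
    (e2 : d j l = normSq (ψ j).2 + normSq (ψ l).2) :
    ((starRingEnd ℂ) (ψ i).1 * (ψ k).1).im = 0 := by
  have g := A2.det hd c h' a
  obtain ⟨-, ⟨-, -, p, -⟩, ⟨a1, a2, a3, a4⟩, a5, -⟩ := t.data c h
  rw [e1, e2, ← a1, ← a2, ← a3, ← a4, ← a5] at g
  have g' : normSq (ψ j).2 * ((starRingEnd ℂ) (ψ i).1 * (ψ k).1).im ^ 2 = 0 := by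
    rw [← g]
    generalize normSq (ψ j).2 = s, normSq (ψ l).2 = s'
    simp only [gd, normSq_apply, sub_re, sub_im, mul_im, conj_re, conj_im]
    ring
  exact pow_eq_zero_iff two_ne_zero |>.1 ((mul_eq_zero.1 g').resolve_left p.ne')

end Pool.Agent.P.MP_f7c707_co.Sh
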