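import Pool.Agent.P.MP_f7c707_co.Edges

/-!
Counting configurations one of whose edges lies in a plane attached to a vertex.
-/

namespace Pool.Agent.P.MP_f7c707_co

open Finset Pool.Agent.Lib.PolyPart

lemma card_le_two_mul {α β : Type*} [DecidableEq β] (S : Finset α) (f : α → β) (T : Finset β)
    (hf : ∀ s ∈ S, f s ∈ T)
    (h : ∀ a ∈ S, ∀ b ∈ S, ∀ c ∈ S, a ≠ b → a ≠ c → b ≠ c → f b = f a → f c = f a → False) :
    #S ≤ 2 * #T := by
  apply card_le_mul_card_image_of_maps_to hf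
  intro t _
  apply card_le_two
  intro a ha b hb c hc h1 h2 h3
  rw [mem_filter] at ha hb hc
  exact h a ha.1 b hb.1 c hc.1 h1 h2 h3 (hb.2.trans ha.2.symm) (hc.2.trans ha.2.symm)

lemma bonferroni {α β : Type*} [DecidableEq α] [DecidableEq β] (Y : β → Finset α) (B : Finset β)
    (h : ∀ x ∈ B, ∀ x' ∈ B, x ≠ x' → #(Y x ∩ Y x') ≤ 2) :
    ∑ x ∈ B, #(Y x) ≤ #(B.biUnion Y) + #B ^ 2 := by
  induction B using Finset.induction_on with
  | empty => simp
  | insert a B ha ih =>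
    have h1 := ih fun x hx x' hx' => h x (mem_insert_of_mem hx) x' (mem_insert_of_mem hx')
    rw [sum_insert ha, biUnion_insert, card_insert_of_notMem ha]
    have h2 := card_union_add_card_inter (Y a) (B.biUnion Y)
    have h3 : #(Y a ∩ B.biUnion Y) ≤ #B * 2 := by
      rw [inter_biUnion]
      exact card_biUnion_le_card_mul _ _ _ fun x hx =>
        h a (mem_insert_self _ _) x (mem_insert_of_mem hx) (fun h => ha (h ▸ hx))
    nlinarith

lemma sum_sq_le {α β : Type*} [DecidableEq α] [DecidableEq β] (Y : β → Finset α) (B : Finset β)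
    (P : Finset α) (n : ℕ) (hP : #P ≤ n) (hB : #B ≤ n) (hY : ∀ x ∈ B, Y x ⊆ P)
    (h : ∀ x ∈ B, ∀ x' ∈ B, x ≠ x' → #(Y x ∩ Y x') ≤ 2) :
    ∑ x ∈ B, #(Y x) ^ 2 ≤ 18 * n ^ 2 := by
  rcases Nat.eq_zero_or_pos n with rfl | hn
  · rw [Nat.le_zero, card_eq_zero] at hB
    simp [hB]
  set m := n.sqrt with hm
  have hm1 : m * m ≤ n := Nat.sqrt_le n
  have hm2 : n < (m + 1) * (m + 1) := Nat.lt_succ_sqrt n
  have hm3 : 1 ≤ m := Nat.sqrt_pos.2 hn
  have hU : ∀ B' ⊆ B, ∑ x ∈ B', #(Y x) ≤ n + #B' ^ 2 := by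
    intro B' hB'
    refine (bonferroni Y B' fun x hx x' hx' => h x (hB' hx) x' (hB' hx')).trans ?_
    exact Nat.add_le_add_right
      ((card_le_card (biUnion_subset.2 fun x hx => hY x (hB' hx))).trans hP) _
  set G := {x ∈ B | 2 * (m + 1) < #(Y x)} with hG
  have hGc : #G ≤ m := by
    by_contra h1
    obtain ⟨B', hB', hc⟩ := exists_subset_card_eq (show m + 1 ≤ #G by omega)
    have h2 := hU B' (hB'.trans (filter_subset _ _))
    have h3 := card_nsmul_le_sum B' (fun x => #(Y x)) (2 * (m + 1))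
      fun x hx => (mem_filter.1 (hB' hx)).2.le
    rw [hc] at h2 h3
    rw [smul_eq_mul] at h3
    nlinarith
  rw [← sum_filter_add_sum_filter_not B (fun x => 2 * (m + 1) < #(Y x))]
  have e1 : ∑ x ∈ G, #(Y x) ^ 2 ≤ 2 * n ^ 2 := by
    calc ∑ x ∈ G, #(Y x) ^ 2 ≤ ∑ x ∈ G, n * #(Y x) := by
          apply sum_le_sum
          intro x hx
          rw [sq]
          exact Nat.mul_le_mul_right _ ((card_le_card (hY x (mem_filter.1 hx).1)).trans hP)
      _ = n * ∑ x ∈ G, #(Y x) := by rw [mul_sum]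
      _ ≤ n * (n + n) := by
          apply Nat.mul_le_mul_left
          refine (hU G (filter_subset _ _)).trans (Nat.add_le_add_left ?_ _)
          nlinarith
      _ = _ := by ring
  have e2 : ∑ x ∈ B with ¬ 2 * (m + 1) < #(Y x), #(Y x) ^ 2 ≤ 16 * n ^ 2 := by
    have := sum_le_card_nsmul {x ∈ B | ¬ 2 * (m + 1) < #(Y x)} (fun x => #(Y x) ^ 2) (16 * n)
      fun x hx => by
        have h1 := Nat.pow_le_pow_left (not_lt.1 (mem_filter.1 hx).2) 2
        nlinarith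
    refine this.trans ?_
    rw [smul_eq_mul]
    have h2 := (card_filter_le B fun x => ¬ 2 * (m + 1) < #(Y x)).trans hB
    nlinarith
  exact (Nat.add_le_add e1 e2).trans (by omega)

/-- `y - x` is orthogonal to a genuine plane. -/
def Ax (Q : Pl) (x y : V) : Prop :=
  Ind2 Q.2.1 Q.2.2 ∧ (y - x) ⬝ᵥ Q.2.1 = 0 ∧ (y - x) ⬝ᵥ Q.2.2 = 0

lemma ax_of_three {Q : Pl} {x y z₁ z₂ z₃ : V} {q r : ℝ} (h12 : z₁ ≠ z₂) (h13 : z₁ ≠ z₃)
    (h23 : z₂ ≠ z₃) (q1 : InPl Q z₁) (q2 : InPl Q z₂) (q3 : InPl Q z₃)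
    (x1 : d2 x z₁ = q) (x2 : d2 x z₂ = q) (x3 : d2 x z₃ = q)
    (y1 : d2 y z₁ = r) (y2 : d2 y z₂ = r) (y3 : d2 y z₃ = r) : Ax Q x y := by
  rw [d2_comm] at x1 x2 x3 y1 y2 y3
  obtain ⟨h1, h2⟩ := perp_plane (ind2_of_cospherical x1 x2 x3 h12 h13 h23) (q2.sub q1) (q3.sub q1)
  exact ⟨h1, h2 _ (perp_of_d2 (by rw [y2, x2, y1, x1])) (perp_of_d2 (by rw [y3, x3, y1, x1]))⟩

lemma Ax.sub {Q : Pl} {x y y' : V} (h : Ax Q x y) (h' : Ax Q x y') :
    (y - y') ⬝ᵥ Q.2.1 = 0 ∧ (y - y') ⬝ᵥ Q.2.2 = 0 := by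
  have : y - y' = (y - x) - (y' - x) := by abel
  rw [this, sub_dotProduct (y - x), sub_dotProduct (y - x), h.2.1, h.2.2, h'.2.1, h'.2.2]
  simp

lemma simple_three {α : Type*} (S : Finset α) (x y z : α → V) (P : Finset V) (p q r : ℝ)
    (Q : V → Pl) (hinj : ∀ s ∈ S, ∀ t ∈ S, x s = x t → y s = y t → z s = z t → s = t)
    (hS : ∀ s ∈ S, x s ∈ P ∧ y s ∈ P ∧ z s ∈ P ∧ d2 (x s) (y s) = p ∧ d2 (x s) (z s) = q ∧
      d2 (y s) (z s) = r ∧ InPl (Q (x s)) (z s)) : #S ≤ 40 * #P ^ 2 := by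
  classical
  have h1 : #{s ∈ S | ¬ Ax (Q (x s)) (x s) (y s)} ≤ 2 * #(P ×ˢ P) := by
    apply card_le_two_mul _ (fun s => (x s, y s))
    · intro s hs
      have := hS s (mem_filter.1 hs).1
      exact mem_product.2 ⟨this.1, this.2.1⟩
    · intro a ha b hb c hc g1 g2 g3 e1 e2
      rw [mem_filter] at ha hb hc
      simp only [Prod.mk.injEq] at e1 e2
      obtain ⟨-, -, -, -, a1, a2, a3⟩ := hS a ha.1
      obtain ⟨-, -, -, -, b1, b2, b3⟩ := hS b hb.1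
      obtain ⟨-, -, -, -, c1, c2, c3⟩ := hS c hc.1
      simp only [e1.1, e1.2, e2.1, e2.2] at b1 b2 b3 c1 c2 c3
      exact ha.2 (ax_of_three (fun h => g1 (hinj a ha.1 b hb.1 e1.1.symm e1.2.symm h))
        (fun h => g2 (hinj a ha.1 c hc.1 e2.1.symm e2.2.symm h))
        (fun h => g3 (hinj b hb.1 c hc.1 (e1.1.trans e2.1.symm) (e1.2.trans e2.2.symm) h))
        a3 b3 c3 a1 b1 c1 a2 b2 c2)
  have h2 : #{s ∈ S | Ax (Q (x s)) (x s) (y s) ∧ ¬ InPl (Q (x s)) (x s)} ≤ 2 * #(P ×ˢ P) := by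
    apply card_le_two_mul _ (fun s => (x s, z s))
    · intro s hs
      have := hS s (mem_filter.1 hs).1
      exact mem_product.2 ⟨this.1, this.2.2.1⟩
    · intro a ha b hb c hc g1 g2 g3 e1 e2
      rw [mem_filter] at ha hb hc
      simp only [Prod.mk.injEq] at e1 e2
      obtain ⟨-, -, -, a1, -, a2, α, β, a3⟩ := hS a ha.1
      obtain ⟨-, -, -, b1, -, b2, -⟩ := hS b hb.1
      obtain ⟨-, -, -, c1, -, c2, -⟩ := hS c hc.1
      have b3 := hb.2.1
      have c3 := hc.2.1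
      simp only [e1.1, e1.2, e2.1, e2.2] at b1 b2 b3 c1 c2 c3
      rw [d2_comm] at a1 b1 c1
      have hw := ind2_of_cospherical a1 b1 c1
        (fun h => g1 (hinj a ha.1 b hb.1 e1.1.symm h e1.2.symm))
        (fun h => g2 (hinj a ha.1 c hc.1 e2.1.symm h e2.2.symm))
        (fun h => g3 (hinj b hb.1 c hc.1 (e1.1.trans e2.1.symm) h (e1.2.trans e2.2.symm)))
      have k1 := b3.sub ha.2.1
      have k2 := c3.sub ha.2.1
      have hn : ¬ Ind3 (Q (x a)).2.1 (Q (x a)).2.2 (z a - x a) := fun hi =>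
        no_five hi hw (by rw [dotProduct_comm, k1.1]) (by rw [dotProduct_comm, k2.1])
          (by rw [dotProduct_comm, k1.2]) (by rw [dotProduct_comm, k2.2])
          (by rw [dotProduct_comm]; exact perp_of_d2 (by rw [b2, b1, a2, a1]))
          (by rw [dotProduct_comm]; exact perp_of_d2 (by rw [c2, c1, a2, a1]))
      obtain ⟨α', β', hh⟩ := ha.2.1.1.exists_of_not_ind3 hn
      refine ha.2.2 ⟨α - α', β - β', ?_⟩
      have : x a = z a - (z a - x a) := by abel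
      conv_lhs => rw [this, hh, a3]
      rw [sub_smul, sub_smul]; abel
  have h3 : #{s ∈ S | Ax (Q (x s)) (x s) (y s) ∧ InPl (Q (x s)) (x s)} ≤ 36 * #P ^ 2 := by
    let B : Finset V := {a ∈ P | InPl (Q a) a}
    let U : V → Finset V := fun a => {b ∈ P | d2 b a = p ∧ Ax (Q a) a b}
    let W : V → Finset V := fun a => {c ∈ P | d2 c a = q ∧ InPl (Q a) c}
    have hB : #B ≤ #P := card_filter_le _ _
    have hU := sum_sq_le U B P #P le_rfl hB (fun _ _ => filter_subset _ _) (by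
      intro a _ a' _ hne
      apply card_le_two
      intro b₁ h₁ b₂ h₂ b₃ h₃ g1 g2 g3
      simp only [U, mem_inter, mem_filter] at h₁ h₂ h₃
      have aux : ∀ a, Ax (Q a) a b₁ → Ax (Q a) a b₂ → Ax (Q a) a b₃ →
          ¬ Ind3 (b₂ - b₁) (b₃ - b₁) (a - b₁) := fun a k1 k2 k3 hi =>
        no_five hi k1.1 (k2.sub k1).1 (k2.sub k1).2 (k3.sub k1).1 (k3.sub k1).2
          (by rw [← neg_sub, neg_dotProduct, k1.2.1, neg_zero])
          (by rw [← neg_sub, neg_dotProduct, k1.2.2, neg_zero])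
      exact hne (center_eq g1 g2 g3 h₁.1.2.1 h₂.1.2.1 h₃.1.2.1 h₁.2.2.1 h₂.2.2.1 h₃.2.2.1
        (aux a h₁.1.2.2 h₂.1.2.2 h₃.1.2.2) (aux a' h₁.2.2.2 h₂.2.2.2 h₃.2.2.2)))
    have hW := sum_sq_le W B P #P le_rfl hB (fun _ _ => filter_subset _ _) (by
      intro a ha a' ha' hne
      apply card_le_two
      intro b₁ h₁ b₂ h₂ b₃ h₃ g1 g2 g3
      simp only [W, mem_inter, mem_filter] at h₁ h₂ h₃
      have aux : ∀ a, InPl (Q a) a → InPl (Q a) b₁ → InPl (Q a) b₂ → InPl (Q a) b₃ →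
          ¬ Ind3 (b₂ - b₁) (b₃ - b₁) (a - b₁) := fun a k0 k1 k2 k3 =>
        not_ind3_of_span (k2.sub k1) (k3.sub k1) (k0.sub k1)
      exact hne (center_eq g1 g2 g3 h₁.1.2.1 h₂.1.2.1 h₃.1.2.1 h₁.2.2.1 h₂.2.2.1 h₃.2.2.1
        (aux a (mem_filter.1 ha).2 h₁.1.2.2 h₂.1.2.2 h₃.1.2.2)
        (aux a' (mem_filter.1 ha').2 h₁.2.2.2 h₂.2.2.2 h₃.2.2.2)))
    have h4 : #{s ∈ S | Ax (Q (x s)) (x s) (y s) ∧ InPl (Q (x s)) (x s)} ≤
        #(B.sigma fun a => U a ×ˢ W a) := by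
      apply card_le_card_of_injOn (fun s => ⟨x s, y s, z s⟩)
      · intro s hs
        obtain ⟨h5, h6, h7⟩ := mem_filter.1 (mem_coe.1 hs)
        obtain ⟨a1, a2, a3, a4, a5, -, a7⟩ := hS s h5
        rw [d2_comm] at a4 a5
        exact mem_coe.2 (mem_sigma.2 ⟨mem_filter.2 ⟨a1, h7⟩,
          mem_product.2 ⟨mem_filter.2 ⟨a2, a4, h6⟩, mem_filter.2 ⟨a3, a5, a7⟩⟩⟩)
      · intro s hs t ht hst
        simp only [Sigma.mk.injEq, heq_eq_eq, Prod.mk.injEq] at hst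
        exact hinj s (mem_filter.1 (mem_coe.1 hs)).1 t (mem_filter.1 (mem_coe.1 ht)).1
          hst.1 hst.2.1 hst.2.2
    refine h4.trans ?_
    rw [card_sigma]
    calc ∑ a ∈ B, #(U a ×ˢ W a) ≤ ∑ a ∈ B, (#(U a) ^ 2 + #(W a) ^ 2) := by
          apply sum_le_sum
          intro a _
          rw [card_product]
          nlinarith [sq_nonneg ((#(U a) : ℤ) - #(W a))]
      _ ≤ _ := by rw [sum_add_distrib]; linarith
  have h5 := card_filter_add_card_filter_not (s := S) (fun s => Ax (Q (x s)) (x s) (y s))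
  have h6 := card_filter_add_card_filter_not (s := {s ∈ S | Ax (Q (x s)) (x s) (y s)})
    (fun s => InPl (Q (x s)) (x s))
  rw [filter_filter, filter_filter] at h6
  rw [card_product, ← sq] at h1 h2
  omega

lemma simple_four {α : Type*} (S : Finset α) (x y z w : α → V) (p q r p' q' r' : ℝ) (hp : p ≠ 0)
    (Q : V → Pl) (T₁ T₂ : Finset (V × V × V))
    (hinj : ∀ s ∈ S, ∀ t ∈ S, x s = x t → y s = y t → z s = z t → w s = w t → s = t)
    (hS : ∀ s ∈ S, (x s, y s, z s) ∈ T₁ ∧ (x s, y s, w s) ∈ T₂ ∧ d2 (x s) (y s) = p ∧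
      d2 (x s) (z s) = q ∧ d2 (y s) (z s) = r ∧ d2 (x s) (w s) = p' ∧ d2 (y s) (w s) = q' ∧
      d2 (z s) (w s) = r' ∧ InPl (Q (x s)) (w s)) : #S ≤ 2 * #T₁ + 2 * #T₂ := by
  classical
  have h1 : #{s ∈ S | ¬ (Ax (Q (x s)) (x s) (y s) ∧ Ax (Q (x s)) (x s) (z s))} ≤ 2 * #T₁ := by
    apply card_le_two_mul _ (fun s => (x s, y s, z s))
    · exact fun s hs => (hS s (mem_filter.1 hs).1).1
    · intro a ha b hb c hc g1 g2 g3 e1 e2
      rw [mem_filter] at ha hb hc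
      simp only [Prod.mk.injEq] at e1 e2
      obtain ⟨-, -, -, -, -, a1, a2, a3, a4⟩ := hS a ha.1
      obtain ⟨-, -, -, -, -, b1, b2, b3, b4⟩ := hS b hb.1
      obtain ⟨-, -, -, -, -, c1, c2, c3, c4⟩ := hS c hc.1
      simp only [e1.1, e1.2.1, e1.2.2, e2.1, e2.2.1, e2.2.2] at b1 b2 b3 b4 c1 c2 c3 c4
      have k1 : w a ≠ w b := fun h => g1 (hinj a ha.1 b hb.1 e1.1.symm e1.2.1.symm e1.2.2.symm h)
      have k2 : w a ≠ w c := fun h => g2 (hinj a ha.1 c hc.1 e2.1.symm e2.2.1.symm e2.2.2.symm h)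
      have k3 : w b ≠ w c := fun h => g3 (hinj b hb.1 c hc.1 (e1.1.trans e2.1.symm)
        (e1.2.1.trans e2.2.1.symm) (e1.2.2.trans e2.2.2.symm) h)
      exact ha.2 ⟨ax_of_three k1 k2 k3 a4 b4 c4 a1 b1 c1 a2 b2 c2,
        ax_of_three k1 k2 k3 a4 b4 c4 a1 b1 c1 a3 b3 c3⟩
  have h2 : #{s ∈ S | Ax (Q (x s)) (x s) (y s) ∧ Ax (Q (x s)) (x s) (z s)} ≤ 2 * #T₂ := by
    apply card_le_two_mul _ (fun s => (x s, y s, w s))
    · exact fun s hs => (hS s (mem_filter.1 hs).1).2.1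
    · intro a ha b hb c hc g1 g2 g3 e1 e2
      rw [mem_filter] at ha hb hc
      simp only [Prod.mk.injEq] at e1 e2
      obtain ⟨-, -, a0, a1, a2, -⟩ := hS a ha.1
      obtain ⟨-, -, -, b1, b2, -⟩ := hS b hb.1
      obtain ⟨-, -, -, c1, c2, -⟩ := hS c hc.1
      have b3 := hb.2.2
      have c3 := hc.2.2
      simp only [e1.1, e1.2.1, e2.1, e2.2.1] at b1 b2 b3 c1 c2 c3
      rw [d2_comm] at a1 b1 c1 a2 b2 c2
      have hw := ind2_of_cospherical a1 b1 c1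
        (fun h => g1 (hinj a ha.1 b hb.1 e1.1.symm e1.2.1.symm h e1.2.2.symm))
        (fun h => g2 (hinj a ha.1 c hc.1 e2.1.symm e2.2.1.symm h e2.2.2.symm))
        (fun h => g3 (hinj b hb.1 c hc.1 (e1.1.trans e2.1.symm) (e1.2.1.trans e2.2.1.symm) h
          (e1.2.2.trans e2.2.2.symm)))
      have hne : y a - x a ≠ 0 := by
        intro h
        rw [sub_eq_zero.1 h, d2_self] at a0
        exact hp a0.symm
      have hi := hw.ind3_of_perp hne (perp_of_d2 (by rw [b2, b1, a2, a1]))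
        (perp_of_d2 (by rw [c2, c1, a2, a1]))
      exact no_five hi ha.2.1.1 (b3.sub ha.2.2).1 (b3.sub ha.2.2).2 (c3.sub ha.2.2).1
        (c3.sub ha.2.2).2 ha.2.1.2.1 ha.2.1.2.2
  have h5 := card_filter_add_card_filter_not (s := S)
    (fun s => Ax (Q (x s)) (x s) (y s) ∧ Ax (Q (x s)) (x s) (z s))
  omega

end Pool.Agent.P.MP_f7c707_co
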