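import Pool.Agent.P.MP_f7c707_co.Geo

/-!
Spheres as polynomials, degenerate spheres and starting ideals.
-/

namespace Pool.Agent.P.MP_f7c707_co

open Finset MvPolynomial Pool.Agent.Lib.PolyPart

/-- The equation of a sphere. -/
noncomputable def sph (c : V) (ρ : ℝ) : MP 4 := ∑ i, (X i - C (c i)) ^ 2 - C ρ

lemma eval_sph (x c : V) (ρ : ℝ) : eval x (sph c ρ) = d2 x c - ρ := by
  simp only [sph, d2, dotProduct, map_sub, map_sum, eval_X, eval_C, Pi.sub_apply, sq,
    map_mul]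

lemma totalDegree_sph (c : V) (ρ : ℝ) : (sph c ρ).totalDegree ≤ 2 := by
  refine (totalDegree_sub _ _).trans (max_le ?_ (by simp))
  apply totalDegree_finsetSum_le
  intro i _
  refine (totalDegree_pow _ _).trans ?_
  have : (X i - C (c i) : MP 4).totalDegree ≤ 1 :=
    (totalDegree_sub _ _).trans (max_le (by simp) (by simp))
  omega

lemma integral_of_four {T : Type*} [CommRing T] [Algebra ℝ T] (x : Fin 4 → T) (c : Fin 4 → V)
    (ρ : Fin 4 → ℝ) (hc : Ind3 (c 1 - c 0) (c 2 - c 0) (c 3 - c 0))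
    (h : ∀ j, ∑ i, (x i - algebraMap ℝ T (c j i)) ^ 2 - algebraMap ℝ T (ρ j) = 0) (m : Fin 4) :
    IsIntegral ℝ (x m) := by
  obtain ⟨w, hw0, h1, h2, h3⟩ := exists_perp (c 1 - c 0) (c 2 - c 0) (c 3 - c 0)
  have hww : w ⬝ᵥ w ≠ 0 := fun h => hw0 (dotProduct_self_eq_zero.1 h)
  let b : Fin 4 → V := ![c 1 - c 0, c 2 - c 0, c 3 - c 0, w]
  have hb : LinearIndependent ℝ b := by
    rw [Fintype.linearIndependent_iff]
    intro g hg
    simp only [b, Fin.sum_univ_four, Matrix.cons_val] at hg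
    have h4 := congrArg (· ⬝ᵥ w) hg
    simp only [add_dotProduct, smul_dotProduct, h1, h2, h3, smul_eq_mul, mul_zero, zero_add,
      zero_dotProduct] at h4
    have h5 : g 3 = 0 := (mul_eq_zero.1 h4).resolve_right hww
    rw [h5, zero_smul, add_zero] at hg
    obtain ⟨h6, h7, h8⟩ := hc _ _ _ hg
    intro i
    fin_cases i <;> assumption
  have hspan := hb.span_eq_top_of_card_eq_finrank' (by simp)
  have hcoef : ∀ m : Fin 4, ∃ a : Fin 4 → ℝ, ∑ j, a j • b j = Pi.single m 1 := fun m =>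
    (Submodule.mem_span_range_iff_exists_fun ℝ).1 (hspan ▸ Submodule.mem_top)
  choose a ha using hcoef
  let L : V →ₗ[ℝ] T := Fintype.linearCombination ℝ x
  have hL : ∀ v, L v = ∑ i, v i • x i := fun v => Fintype.linearCombination_apply ℝ x v
  have hLc : ∀ j, ∃ k : ℝ, L (c j - c 0) = algebraMap ℝ T k := by
    intro j
    refine ⟨(c j ⬝ᵥ c j - c 0 ⬝ᵥ c 0 - ρ j + ρ 0) / 2, ?_⟩
    have e1 := h j
    have e0 := h 0
    have e2 : (2 : T) * algebraMap ℝ T (1 / 2) = 1 := by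
      rw [← map_ofNat (algebraMap ℝ T) 2, ← map_mul]; norm_num
    rw [hL, div_eq_mul_one_div]
    simp only [Fin.sum_univ_four, dotProduct, Algebra.smul_def, Pi.sub_apply, map_sub, map_mul,
      map_add] at e1 e0 ⊢
    linear_combination (algebraMap ℝ T (1 / 2)) * (e0 - e1) -
      ((algebraMap ℝ T (c j 0) - algebraMap ℝ T (c 0 0)) * x 0 +
        (algebraMap ℝ T (c j 1) - algebraMap ℝ T (c 0 1)) * x 1 +
        (algebraMap ℝ T (c j 2) - algebraMap ℝ T (c 0 2)) * x 2 +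
        (algebraMap ℝ T (c j 3) - algebraMap ℝ T (c 0 3)) * x 3) * e2
  obtain ⟨k1, hk1⟩ := hLc 1
  obtain ⟨k2, hk2⟩ := hLc 2
  obtain ⟨k3, hk3⟩ := hLc 3
  have hx : ∀ m, x m = algebraMap ℝ T (a m 0 * k1 + a m 1 * k2 + a m 2 * k3) +
      algebraMap ℝ T (a m 3) * L w := by
    intro m
    have e1 := congrArg L (ha m)
    have e2 : L (Pi.single m 1) = x m := by
      simp [L]
    rw [e2, map_sum] at e1
    simp only [b, Fin.sum_univ_four, Matrix.cons_val, map_smul, hk1, hk2, hk3] at e1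
    rw [← e1]
    simp only [Algebra.smul_def, map_add, map_mul]
  have ha3 : ∀ m, a m 3 * (w ⬝ᵥ w) = w m := by
    intro m
    have e1 := congrArg (· ⬝ᵥ w) (ha m)
    simpa only [b, Fin.sum_univ_four, Matrix.cons_val, add_dotProduct, smul_dotProduct, h1, h2, h3,
      smul_eq_mul, mul_zero, zero_add, single_dotProduct, one_mul] using e1
  have hA : ∑ m, a m 3 ^ 2 ≠ 0 := by
    intro h0
    rw [sum_eq_zero_iff_of_nonneg (fun _ _ => sq_nonneg _)] at h0
    apply hw0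
    funext m
    rw [← ha3 m, pow_eq_zero_iff two_ne_zero |>.1 (h0 m (mem_univ m)), zero_mul]
    rfl
  have hz : IsIntegral ℝ (L w) := by
    apply IsAlgebraic.isIntegral
    let κ : Fin 4 → ℝ := fun m => a m 0 * k1 + a m 1 * k2 + a m 2 * k3 - c 0 m
    refine ⟨Polynomial.C (∑ m, a m 3 ^ 2) * Polynomial.X ^ 2 +
      Polynomial.C (∑ m, 2 * a m 3 * κ m) * Polynomial.X + Polynomial.C (∑ m, κ m ^ 2 - ρ 0),
      ?_, ?_⟩
    · intro h0
      have := congrArg (fun P => Polynomial.coeff P 2) h0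
      simp only [Polynomial.coeff_add, Polynomial.coeff_C_mul, Polynomial.coeff_X_pow,
        Polynomial.coeff_X, Polynomial.coeff_C, Polynomial.coeff_zero] at this
      apply hA
      simpa using this
    · have e0 := h 0
      simp only [Fin.sum_univ_four] at e0
      rw [hx 0, hx 1, hx 2, hx 3] at e0
      simp only [map_add, map_mul, map_pow, Polynomial.aeval_C, Polynomial.aeval_X,
        Fin.sum_univ_four, map_sub, κ, map_ofNat] at e0 ⊢
      linear_combination e0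
  rw [hx m]
  exact isIntegral_algebraMap.add (isIntegral_algebraMap.mul hz)

/-- Four spheres with independent centres are not all degenerate on a positive-dimensional
nice variety. -/
lemma noFour_deg {k c : ℕ} {J : Ideal (MP 4)} {y : Fin (k + 1) → MP 4} (hN : Nice 4 (k + 1) c J y)
    {x : V} (hx : Van J x) : NoFour {z | ∃ ρ, DegAt J x (sph z ρ)} := by
  rintro c₀ ⟨ρ₀, Ψ₀, N₀, a₀, b₀⟩ c₁ ⟨ρ₁, Ψ₁, N₁, a₁, b₁⟩ c₂ ⟨ρ₂, Ψ₂, N₂, a₂, b₂⟩
    c₃ ⟨ρ₃, Ψ₃, N₃, a₃, b₃⟩ hi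
  set Ψ := Ψ₀ * Ψ₁ * Ψ₂ * Ψ₃ with hΨ
  let A : Ideal (MP 4) :=
    { carrier := {g | g * Ψ ∈ J}
      add_mem' := fun {a b} ha hb => by
        simp only [Set.mem_ofPred_eq, add_mul] at ha hb ⊢
        exact J.add_mem ha hb
      zero_mem' := by simp
      smul_mem' := fun a b hb => by
        simp only [Set.mem_ofPred_eq, smul_eq_mul, mul_assoc] at hb ⊢
        exact J.mul_mem_left a hb }
  let cc : Fin 4 → V := ![c₀, c₁, c₂, c₃]
  let ρρ : Fin 4 → ℝ := ![ρ₀, ρ₁, ρ₂, ρ₃]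
  have hA : ∀ j, sph (cc j) (ρρ j) ∈ A.radical := by
    intro j
    fin_cases j
    · refine ⟨N₀, ?_⟩
      change sph c₀ ρ₀ ^ N₀ * Ψ ∈ J
      convert J.mul_mem_right (Ψ₁ * Ψ₂ * Ψ₃) b₀ using 1
      rw [hΨ]; ring
    · refine ⟨N₁, ?_⟩
      change sph c₁ ρ₁ ^ N₁ * Ψ ∈ J
      convert J.mul_mem_right (Ψ₀ * Ψ₂ * Ψ₃) b₁ using 1
      rw [hΨ]; ring
    · refine ⟨N₂, ?_⟩
      change sph c₂ ρ₂ ^ N₂ * Ψ ∈ J
      convert J.mul_mem_right (Ψ₀ * Ψ₁ * Ψ₃) b₂ using 1
      rw [hΨ]; ring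
    · refine ⟨N₃, ?_⟩
      change sph c₃ ρ₃ ^ N₃ * Ψ ∈ J
      convert J.mul_mem_right (Ψ₀ * Ψ₁ * Ψ₂) b₃ using 1
      rw [hΨ]; ring
  let mk := Ideal.Quotient.mkₐ ℝ A.radical
  have hX : ∀ m, IsIntegral ℝ (mk (X m)) := by
    apply integral_of_four (fun m => mk (X m)) cc ρρ hi
    intro j
    have h1 : mk (sph (cc j) (ρρ j)) = 0 := Ideal.Quotient.eq_zero_iff_mem.2 (hA j)
    simpa only [sph, map_sub, map_sum, map_pow, ← algebraMap_eq, AlgHom.commutes] using h1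
  have hall : ∀ g, IsIntegral ℝ (mk g) := by
    intro g
    induction g using MvPolynomial.induction_on with
    | C a => rw [← algebraMap_eq, AlgHom.commutes]; exact isIntegral_algebraMap
    | add p q hp hq => rw [map_add]; exact hp.add hq
    | mul_X p i hp => rw [map_mul]; exact hp.mul (hX i)
  obtain ⟨p, hp, hp'⟩ := hall (y 0)
  rw [← Polynomial.aeval_def, Polynomial.aeval_algHom_apply] at hp'
  obtain ⟨M, hM⟩ := Ideal.Quotient.eq_zero_iff_mem.1 hp'
  have hM' : (Polynomial.aeval (y 0) p) ^ M * Ψ ∈ J := hM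
  let p' : MP (k + 1) := Polynomial.aeval (X 0) p
  have h1 : aeval y p' = Polynomial.aeval (y 0) p := by
    simp only [p']
    rw [← Polynomial.aeval_algHom_apply, aeval_X]
  have h2 : p' ≠ 0 := by
    intro h0
    have h3 : aeval (fun _ : Fin (k + 1) => (Polynomial.X : Polynomial ℝ)) p' = p := by
      simp only [p']
      rw [← Polynomial.aeval_algHom_apply, aeval_X, Polynomial.aeval_X_left_apply]
    rw [h0, map_zero] at h3
    exact hp.ne_zero h3.symm
  rw [← h1, ← map_pow] at hM'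
  have h4 := hx _ (hN.nzd (pow_ne_zero M h2) hM')
  simp only [hΨ, map_mul] at h4
  exact mul_ne_zero (mul_ne_zero (mul_ne_zero a₀ a₁) a₂) a₃ h4

lemma exists_families {T : Tree 4} {k : ℕ} {I : Ideal (MP 4)} {X : Finset V} {θ K L : ℝ}
    (h : T.Ok k I X θ K L) (hk0 : k ≠ 0) (hk : k ≤ 4) (x : V) :
    ∃ Cn : Fin 4 → Set V, x ∈ X → (∀ i, NoFour (Cn i) ∧ ∀ z ρ, sph z ρ ∈ I → z ∈ Cn i) ∧
      ∀ z ρ, ¬ T.Hard x (sph z ρ) → ∃ i, z ∈ Cn i := by
  by_cases hx : x ∈ X
  swap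
  · exact ⟨fun _ => ∅, fun h => absurd h hx⟩
  obtain ⟨τ, hτ⟩ := h.cover x hx
  refine ⟨fun i => {z | ∃ ρ, DegAt ((T.J τ).getD i I) x (sph z ρ)}, fun _ => ⟨fun i => ?_, ?_⟩⟩
  · have hmem : (T.J τ).getD i I ∈ T.J τ := by
      by_cases hi : (i : ℕ) < (T.J τ).length
      · rw [List.getD_eq_getElem _ _ hi]; exact List.getElem_mem hi
      · rw [List.getD_eq_default _ _ (not_lt.1 hi)]; exact h.top τ hk0
    obtain ⟨h1, h2, k', c', y', h3⟩ := h.ideals τ _ hmem
    exact ⟨noFour_deg h3 (h2 x hτ), fun z ρ hz => ⟨ρ, DegAt.of_mem (h1 hz)⟩⟩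
  · intro z ρ hz
    have : ∃ J ∈ T.J τ, DegAt J x (sph z ρ) := by
      by_contra h1
      push Not at h1
      exact hz ⟨τ, hτ, h1⟩
    obtain ⟨J, hJ, hd⟩ := this
    obtain ⟨i, hi, rfl⟩ := List.getElem_of_mem hJ
    refine ⟨⟨i, by have := h.len τ; omega⟩, ρ, ?_⟩
    rw [List.getD_eq_getElem _ _ hi]
    exact hd

lemma isConic_of_inPl (Q : Pl) (d : V) (ρ : ℝ) {Y : Set V} (h : ∀ x ∈ Y, InPl Q x ∧ d2 x d = ρ) :
    IsConic Y := by
  obtain ⟨o, e₁, e₂⟩ := Q
  let φ : Fin 4 → MP 2 := fun i => C (o i) + C (e₁ i) * X 0 + C (e₂ i) * X 1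
  have hφ : ∀ i, (φ i).totalDegree ≤ 1 := by
    intro i
    refine (totalDegree_add _ _).trans (max_le ((totalDegree_add _ _).trans (max_le (by simp) ?_))
      ?_) <;> exact (isHomogeneous_C_mul_X _ _).totalDegree_le
  have hev : ∀ α β : ℝ, (fun i => eval ![α, β] (φ i)) = o + α • e₁ + β • e₂ := by
    intro α β
    funext i
    simp [φ, mul_comm]
  by_cases hq : aeval φ (sph d ρ) = 0
  · have h1 : ∀ α β : ℝ, d2 (o + α • e₁ + β • e₂) d - ρ = 0 := by
      intro α β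
      rw [← eval_sph, ← hev, ← eval_aeval', hq, map_zero]
    have e1 : e₁ = 0 := by
      apply dotProduct_self_eq_zero.1
      have a := h1 1 0
      have b := h1 (-1) 0
      have c := h1 0 0
      simp only [d2, dotProduct, Fin.sum_univ_four, Pi.sub_apply, Pi.add_apply, Pi.smul_apply,
        smul_eq_mul] at a b c ⊢
      linarith
    have e2 : e₂ = 0 := by
      apply dotProduct_self_eq_zero.1
      have a := h1 0 1
      have b := h1 0 (-1)
      have c := h1 0 0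
      simp only [d2, dotProduct, Fin.sum_univ_four, Pi.sub_apply, Pi.add_apply, Pi.smul_apply,
        smul_eq_mul] at a b c ⊢
      linarith
    refine ⟨φ, X 0, hφ, X_ne_zero _, by simp, fun x hx => ⟨![0, 0], by simp, ?_⟩⟩
    obtain ⟨α, β, rfl⟩ := (h x hx).1
    rw [hev]
    simp [e1, e2]
  · refine ⟨φ, aeval φ (sph d ρ), hφ, hq, ?_, fun x hx => ?_⟩
    · refine (totalDegree_aeval_le φ 1 hφ _).trans ?_
      rw [one_mul]; exact totalDegree_sph _ _
    · obtain ⟨⟨α, β, rfl⟩, h2⟩ := h x hx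
      refine ⟨![α, β], ?_, (hev α β).symm⟩
      rw [eval_aeval', hev, eval_sph]
      exact sub_eq_zero.2 h2

lemma exists_nice_three (d : V) (ρ : ℝ) : ∃ (I : Ideal (MP 4)) (y : Fin 3 → MP 4),
    Nice 4 3 2 I y ∧ sph d ρ ∈ I ∧ ∀ x, d2 x d = ρ → Van I x := by
  have h0 : sph d ρ ≠ 0 := by
    intro h
    have a := eval_sph d d ρ
    have b := eval_sph (d + Pi.single 0 1) d ρ
    rw [h, map_zero] at a b
    simp [d2] at a b
    linarith
  obtain ⟨y, hy⟩ := (nice_bot 4).step (sph d ρ) h0 (totalDegree_sph d ρ)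
  rw [aeval_X_left_apply] at hy
  refine ⟨_, y, hy, Ideal.mem_sup_right (Ideal.subset_span rfl), fun x hx => ?_⟩
  exact Van.sup (fun g hg => by rw [Ideal.mem_bot.1 hg, map_zero]) (by rw [eval_sph, hx, sub_self])

lemma exists_nice_two (a d : V) (had : a ≠ d) (p q : ℝ) :
    ∃ (I : Ideal (MP 4)) (y : Fin 2 → MP 4), Nice 4 2 2 I y ∧ sph a p ∈ I ∧ sph d q ∈ I ∧
      ∀ x, d2 x a = p → d2 x d = q → Van I x := by
  let l : MP 4 := ∑ i, C (2 * (d i - a i)) * X i + C (a ⬝ᵥ a - d ⬝ᵥ d - p + q)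
  have hl : l = sph a p - sph d q := by
    simp only [l, sph, Fin.sum_univ_four, dotProduct, map_sub, map_add, map_mul, map_ofNat]
    ring
  have hld : l.totalDegree ≤ 1 := by
    refine (totalDegree_add _ _).trans (max_le ?_ (by rw [totalDegree_C]; exact zero_le_one))
    exact totalDegree_finsetSum_le fun i _ => (isHomogeneous_C_mul_X _ _).totalDegree_le
  have hev : ∀ x, eval x l = d2 x a - p - (d2 x d - q) := by
    intro x; rw [hl, map_sub, eval_sph, eval_sph]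
  have hda : (d - a) ⬝ᵥ (d - a) ≠ 0 :=
    fun h => had (sub_eq_zero.1 (dotProduct_self_eq_zero.1 h)).symm
  have h0 : l ≠ 0 := by
    intro h
    have e1 := hev a
    have e2 := hev d
    rw [h, map_zero] at e1 e2
    apply hda
    simp only [d2, dotProduct, Fin.sum_univ_four, Pi.sub_apply] at e1 e2 ⊢
    linarith
  obtain ⟨y, hy⟩ := (nice_bot 4).step l h0 hld
  rw [aeval_X_left_apply] at hy
  set I₁ : Ideal (MP 4) := ⊥ ⊔ Ideal.span {l} with hI₁
  have hV : ∀ x, eval x l = 0 → Van I₁ x :=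
    fun x hx => Van.sup (fun g hg => by rw [Ideal.mem_bot.1 hg, map_zero]) hx
  obtain ⟨x₀, hx₀, hx₀'⟩ : ∃ x₀, eval x₀ l = 0 ∧ eval x₀ (sph a p) ≠ 0 := by
    obtain ⟨w, hw0, hw, -, -⟩ := exists_perp (d - a) 0 0
    have hww : w ⬝ᵥ w ≠ 0 := fun h => hw0 (dotProduct_self_eq_zero.1 h)
    let t : ℝ := ((d - a) ⬝ᵥ (d - a) + p - q) / (2 * ((d - a) ⬝ᵥ (d - a)))
    have ht : t * (2 * ((d - a) ⬝ᵥ (d - a))) = (d - a) ⬝ᵥ (d - a) + p - q := by
      simp only [t]; field_simp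
    have e1 : ∀ s : ℝ, eval (a + t • (d - a) + s • w) l = 0 := by
      intro s
      rw [hev]
      simp only [d2, dotProduct, Fin.sum_univ_four, Pi.sub_apply, Pi.add_apply, Pi.smul_apply,
        smul_eq_mul] at ht hw ⊢
      linear_combination ht + 2 * s * hw
    by_contra hcon
    push Not at hcon
    have b0 := hcon _ (e1 0)
    have b1 := hcon _ (e1 1)
    rw [eval_sph] at b0 b1
    apply hww
    simp only [d2, dotProduct, Fin.sum_univ_four, Pi.sub_apply, Pi.add_apply, Pi.smul_apply,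
      smul_eq_mul] at b0 b1 hw ⊢
    linear_combination b1 - b0 - 2 * t * hw
  obtain ⟨H, hHd, hH⟩ : ∃ H : MP 3, H.totalDegree ≤ 2 ∧ sph a p - aeval y H ∈ I₁ := by
    obtain ⟨-, ι, _, e, hc, hspan, -⟩ := hy
    obtain ⟨u, hu, hu'⟩ := hspan 1
    obtain ⟨g, hg, hg'⟩ := hspan (sph a p)
    have hone := hV x₀ hx₀ _ hu'
    rcases isEmpty_or_nonempty ι with hι | ⟨⟨i₀⟩⟩
    · simp at hone
    have hsub : Subsingleton ι := Fintype.card_le_one_iff_subsingleton.1 hc
    have hs : ∀ f : ι → MP 4, ∑ i, f i = f i₀ := fun f => Fintype.sum_subsingleton f i₀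
    rw [hs] at hu' hg' hone
    have hu0 : (u i₀).totalDegree = 0 := by simpa using hu i₀
    rw [totalDegree_eq_zero_iff_eq_C] at hu0
    set κ := coeff 0 (u i₀) with hκ
    rw [hu0, aeval_C, algebraMap_eq] at hu' hone
    have hκ0 : κ ≠ 0 := by
      intro h; rw [h] at hone; simp at hone
    refine ⟨C κ⁻¹ * g i₀, ?_, ?_⟩
    · refine (totalDegree_mul _ _).trans ?_
      rw [totalDegree_C, zero_add]
      exact (hg i₀).trans (totalDegree_sph _ _)
    · have := I₁.sub_mem hg' (I₁.mul_mem_left (C κ⁻¹ * aeval y (g i₀)) hu')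
      convert this using 1
      have e1 : (C κ⁻¹ * C κ : MP 4) = 1 := by rw [← map_mul, inv_mul_cancel₀ hκ0, map_one]
      rw [map_mul, aeval_C, algebraMap_eq]
      linear_combination (-(aeval y (g i₀) * e i₀)) * e1
  have hH0 : H ≠ 0 := by
    rintro rfl
    rw [map_zero, sub_zero] at hH
    exact hx₀' (hV x₀ hx₀ _ hH)
  obtain ⟨y', hy'⟩ := hy.step H hH0 hHd
  have ha : sph a p ∈ I₁ ⊔ Ideal.span {aeval y H} := by
    have := Submodule.add_mem_sup hH (Ideal.subset_span (s := {aeval y H}) rfl)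
    simpa using this
  refine ⟨_, y', hy', ha, ?_, fun x h1 h2 => ?_⟩
  · have h1 : l ∈ I₁ ⊔ Ideal.span {aeval y H} :=
      Ideal.mem_sup_left (Ideal.mem_sup_right (Ideal.subset_span rfl))
    have := Ideal.sub_mem _ ha h1
    rw [hl] at this
    simpa using this
  · have h3 : Van I₁ x := hV x (by rw [hev, h1, h2]; ring)
    refine h3.sup ?_
    have := h3 _ hH
    rw [map_sub, eval_sph, h1, sub_self, zero_sub, neg_eq_zero] at this
    exact this

end Pool.Agent.P.MP_f7c707_co
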