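import Pool.Agent.P.MP_f7c707_co.Count

/-!
The upper bounds for triangles and tetrahedra.
-/

namespace Pool.Agent.P.MP_f7c707_co

open Finset Pool.Agent.Lib.PolyPart

/-- Ordered triangles with prescribed squared side lengths. -/
noncomputable def tri (P : Finset V) (p q r : ℝ) : Finset (V × V × V) :=
  {t ∈ P ×ˢ P ×ˢ P | d2 t.1 t.2.1 = p ∧ d2 t.1 t.2.2 = q ∧ d2 t.2.1 t.2.2 = r}

lemma mem_tri {P : Finset V} {p q r : ℝ} {t : V × V × V} : t ∈ tri P p q r ↔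
    (t.1 ∈ P ∧ t.2.1 ∈ P ∧ t.2.2 ∈ P) ∧
      d2 t.1 t.2.1 = p ∧ d2 t.1 t.2.2 = q ∧ d2 t.2.1 t.2.2 = r := by
  simp only [tri, mem_filter, mem_product]

lemma exists_xi {n : ℝ} (hn : 1 ≤ n) {D : Finset V} (hD : #D ≤ n) (hne : D.Nonempty) :
    ∃ ξ : ℝ, 1 ≤ ξ ∧ ξ ^ 5 * #D = n ^ 2 := by
  have hM1 : (1 : ℝ) ≤ #D := by exact_mod_cast hne.card_pos
  obtain ⟨ξ, hξ, h⟩ := exists_root 5 (by norm_num) (x := n ^ 2 / #D) (by
    rw [le_div_iff₀ (by linarith), one_mul]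
    exact hD.trans (le_self_pow₀ hn two_ne_zero))
  exact ⟨ξ, hξ, by rw [h]; field_simp⟩

lemma le_cube {a Λ ξ : ℝ} (ha : 1 ≤ a) (hΛ : 1 ≤ Λ) (hξ : 1 ≤ ξ) :
    1 ≤ a * Λ * ξ ∧ a * Λ * ξ ^ 3 ≤ (a * Λ * ξ) ^ 3 := by
  have h1 := one_le_mul_of_one_le_of_one_le ha hΛ
  refine ⟨one_le_mul_of_one_le_of_one_le h1 hξ, ?_⟩
  rw [mul_pow _ ξ]
  exact mul_le_mul_of_nonneg_right (le_self_pow₀ h1 (by norm_num)) (by positivity)

lemma card_nbr_le (X : Finset V) (E : V → V → Prop) (d : V) : (#(nbr X E d) : ℝ) ≤ #X := by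
  exact_mod_cast card_le_card fun x hx => (mem_nbr.1 hx).1

/-- Triangles with no right angle at the third vertex. -/
def P6' (n Λ : ℝ) : Prop :=
  ∀ (P : Finset V) (p q r : ℝ), #P ≤ n → p ≠ r + q → #(tri P p q r) ≤ Λ * n ^ 2

lemma ev_P6' : Ev P6' := by
  classical
  refine ((ev_P3.and ev_P4').and ev_log).pow (640 + 3 * 4 ^ 5) 7
    fun n Λ Λ' hn hΛ hΛ' ⟨⟨h3, h4⟩, hlog⟩ P p q r hP hr => ?_
  have key := halving (fun D => (#{t ∈ tri P p q r | t.2.2 ∈ D} : ℝ)) P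
    ((640 + 3 * 4 ^ 5) * Λ ^ 6 * n ^ 2) (by positivity) (by simp) ?_ hn hP hlog
  · rw [filter_true_of_mem fun t ht => (mem_tri.1 ht).1.2.2] at key
    refine key.trans ?_
    rw [← mul_assoc]
    apply mul_le_mul_of_nonneg_right _ (by positivity)
    refine le_trans (le_of_eq ?_) hΛ'
    push_cast; ring
  intro D hD hne
  have hDn : (#D : ℝ) ≤ n := le_trans (by exact_mod_cast card_le_card hD) hP
  obtain ⟨ξ, hξ, hξn⟩ := exists_xi hn hDn hne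
  obtain ⟨Q₁, Q₁', c₁⟩ := h4 P D q hP hDn hne ξ hξ hξn
  obtain ⟨Q₂, Q₂', c₂⟩ := h4 P D r hP hDn hne ξ hξ hξn
  set E₁ : V → V → Prop :=
    fun x d => d2 x d = q ∧ (∀ i, ¬ InPl (Q₁ x i) d) ∧ ∀ i, ¬ InPl (Q₁' d i) x with hE₁
  set E₂ : V → V → Prop :=
    fun x d => d2 x d = r ∧ (∀ i, ¬ InPl (Q₂ x i) d) ∧ ∀ i, ¬ InPl (Q₂' d i) x with hE₂
  let g : V → ℝ := fun d => #(nbr P E₁ d) + #(nbr P E₂ d)
  have hg := markov D g (2 * Λ * ξ ^ 3) (by positivity) (fun a => by positivity) (by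
    simp only [g, cnt] at c₁ c₂ ⊢
    rw [sum_add_distrib]
    linarith)
  refine ⟨_, filter_subset _ _, hg, ?_⟩
  set D' := {d ∈ D | 2 * (2 * Λ * ξ ^ 3) < g d} with hD'
  set S := {t ∈ tri P p q r | t.2.2 ∈ D} with hS
  have hSm : ∀ t ∈ S, (t.1 ∈ P ∧ t.2.1 ∈ P ∧ t.2.2 ∈ P) ∧
      d2 t.1 t.2.1 = p ∧ d2 t.1 t.2.2 = q ∧ d2 t.2.1 t.2.2 = r :=
    fun t ht => mem_tri.1 (mem_filter.1 ht).1
  have hP2 : (40 * #P ^ 2 : ℝ) ≤ 40 * n ^ 2 := by gcongr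
  have simple : ∀ (x y z : V × V × V → V) (a b c : ℝ) (Q : V → Fin 4 → Pl),
      (∀ s t, x s = x t → y s = y t → z s = z t → s = t) →
      (∀ s ∈ S, x s ∈ P ∧ y s ∈ P ∧ z s ∈ P ∧ d2 (x s) (y s) = a ∧ d2 (x s) (z s) = b ∧
        d2 (y s) (z s) = c) → (#{s ∈ S | ∃ i, InPl (Q (x s) i) (z s)} : ℝ) ≤ 4 * (40 * n ^ 2) := by
    intro x y z a b c Q h1 h2
    convert card_exists_le S (fun i s => InPl (Q (x s) i) (z s)) _ fun i => le_trans ?_ hP2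
    exact_mod_cast simple_three _ x y z P a b c (fun v => Q v i) (fun s _ t _ => h1 s t)
      (fun s hs => by
        obtain ⟨k1, k2, k3, k4, k5, k6⟩ := h2 s (mem_filter.1 hs).1
        exact ⟨k1, k2, k3, k4, k5, k6, (mem_filter.1 hs).2⟩)
  have s1 := simple (·.1) (·.2.1) (·.2.2) p q r Q₁
    (fun s t h1 h2 h3 => Prod.ext h1 (Prod.ext h2 h3))
    (fun s hs => by obtain ⟨⟨k1, k2, k3⟩, k4, k5, k6⟩ := hSm s hs; exact ⟨k1, k2, k3, k4, k5, k6⟩)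
  have s2 := simple (·.2.2) (·.2.1) (·.1) r q p Q₁'
    (fun s t h1 h2 h3 => Prod.ext h3 (Prod.ext h2 h1))
    (fun s hs => by
      obtain ⟨⟨k1, k2, k3⟩, k4, k5, k6⟩ := hSm s hs
      exact ⟨k3, k2, k1, d2_comm _ _ ▸ k6, d2_comm _ _ ▸ k5, d2_comm _ _ ▸ k4⟩)
  have s3 := simple (·.2.1) (·.1) (·.2.2) p r q Q₂
    (fun s t h1 h2 h3 => Prod.ext h2 (Prod.ext h1 h3))
    (fun s hs => by
      obtain ⟨⟨k1, k2, k3⟩, k4, k5, k6⟩ := hSm s hs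
      exact ⟨k2, k1, k3, d2_comm _ _ ▸ k4, k6, k5⟩)
  have s4 := simple (·.2.2) (·.1) (·.2.1) q r p Q₂'
    (fun s t h1 h2 h3 => Prod.ext h2 (Prod.ext h3 h1))
    (fun s hs => by
      obtain ⟨⟨k1, k2, k3⟩, k4, k5, k6⟩ := hSm s hs
      exact ⟨k3, k1, k2, d2_comm _ _ ▸ k5, d2_comm _ _ ▸ k6, k4⟩)
  set H := {t ∈ S | t.2.2 ∉ D' ∧ E₁ t.1 t.2.2 ∧ E₂ t.2.1 t.2.2} with hH
  obtain ⟨hθ, hθ3⟩ := le_cube (a := 4) (by norm_num) hΛ hξ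
  set θ := 4 * Λ * ξ with hθd
  have s5 : (#H : ℝ) ≤ 3 * 4 ^ 5 * Λ ^ 6 * n ^ 2 := by
    have a1 : #H ≤ #((D \ D').sigma fun d => (nbr P E₁ d).sigma fun a => nb (nbr P E₂ d) a p) := by
      apply card_le_card_of_injOn (fun t => ⟨t.2.2, t.1, t.2.1⟩)
      · intro t ht
        obtain ⟨k1, k2, k3, k4⟩ := mem_filter.1 (mem_coe.1 ht)
        obtain ⟨⟨m1, m2, -⟩, m4, -⟩ := hSm t k1
        exact mem_coe.2 (mem_sigma.2 ⟨mem_sdiff.2 ⟨(mem_filter.1 k1).2, k2⟩,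
          mem_sigma.2 ⟨mem_nbr.2 ⟨m1, k3⟩, mem_nb.2 ⟨mem_nbr.2 ⟨m2, k4⟩, d2_comm _ _ ▸ m4⟩⟩⟩)
      · intro s _ t _ hst
        simp only [Sigma.mk.injEq, heq_eq_eq] at hst
        exact Prod.ext hst.2.1 (Prod.ext hst.2.2 hst.1)
    simp only [card_sigma] at a1
    have a2 : (#H : ℝ) ≤ ∑ d ∈ D \ D', ∑ a ∈ nbr P E₁ d, (#(nb (nbr P E₂ d) a p) : ℝ) := by
      exact_mod_cast a1
    have a3 := sum_le_card_nsmul (D \ D')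
      (fun d => ∑ a ∈ nbr P E₁ d, (#(nb (nbr P E₂ d) a p) : ℝ)) (Λ * (3 * θ ^ 5)) (by
        intro d hd
        have k : g d ≤ θ ^ 3 := by
          have := (mem_sdiff.1 hd).2
          rw [hD', mem_filter, not_and, not_lt] at this
          linarith [this (mem_sdiff.1 hd).1]
        have k1 : (0 : ℝ) ≤ #(nbr P E₁ d) := by positivity
        have k2 : (0 : ℝ) ≤ #(nbr P E₂ d) := by positivity
        simp only [g] at k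
        refine (h3 (nbr P E₂ d) (nbr P E₁ d) d r q p ((card_nbr_le _ _ _).trans hP) hr
          (fun b hb => (mem_nbr.1 hb).2.1) (fun b hb => (mem_nbr.1 hb).2.1) θ hθ).trans ?_
        apply mul_le_mul_of_nonneg_left _ (by linarith)
        have k3 : θ ^ 3 ≤ θ ^ 5 := pow_le_pow_right₀ hθ (by norm_num)
        have e1 : (#(nbr P E₁ d) : ℝ) * θ ^ 2 ≤ θ ^ 5 := by
          calc _ ≤ θ ^ 3 * θ ^ 2 := mul_le_mul_of_nonneg_right (by linarith) (by positivity)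
            _ = _ := by ring
        have e2 : (#(nbr P E₂ d) : ℝ) ^ 3 / θ ^ 6 ≤ θ ^ 3 := by
          rw [div_le_iff₀ (by positivity)]
          calc _ ≤ (θ ^ 3) ^ 3 := pow_le_pow_left₀ k2 (by linarith) 3
            _ = _ := by ring
        linarith)
    refine a2.trans (a3.trans ?_)
    rw [nsmul_eq_mul]
    calc _ ≤ #D * (Λ * (3 * θ ^ 5)) := mul_le_mul_of_nonneg_right
          (by exact_mod_cast card_le_card sdiff_subset) (by positivity)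
      _ = 3 * 4 ^ 5 * Λ ^ 6 * (ξ ^ 5 * #D) := by rw [hθd]; ring
      _ = _ := by rw [hξn]
  have s6 := card_le_list [{s ∈ S | ∃ i, InPl (Q₁ s.1 i) s.2.2},
    {s ∈ S | ∃ i, InPl (Q₁' s.2.2 i) s.1}, {s ∈ S | ∃ i, InPl (Q₂ s.2.1 i) s.2.2},
    {s ∈ S | ∃ i, InPl (Q₂' s.2.2 i) s.2.1}, H, {t ∈ tri P p q r | t.2.2 ∈ D'}] S (by
      intro s hs
      simp only [List.mem_cons, List.not_mem_nil, or_false, exists_eq_or_imp, exists_eq_left,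
        mem_filter, hH, hE₁, hE₂]
      by_contra hcon
      push Not at hcon
      obtain ⟨k1, k2, k3, k4, k5, k6⟩ := hcon
      obtain ⟨-, -, m5, m6⟩ := hSm s hs
      obtain ⟨i, hi⟩ := k5 hs (k6 (mem_filter.1 hs).1) ⟨m5, k1 hs, k2 hs⟩ m6 (k3 hs)
      exact k4 hs i hi)
  simp only [List.map_cons, List.map_nil, List.sum_cons, List.sum_nil, add_zero] at s6
  have s7 : (#S : ℝ) ≤ _ := Nat.cast_le.2 s6
  push_cast at s7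
  have hΛ6 : n ^ 2 ≤ Λ ^ 6 * n ^ 2 := le_mul_of_one_le_left (by positivity) (one_le_pow₀ hΛ)
  linarith

/-- Triangles. -/
def P6 (n Λ : ℝ) : Prop :=
  ∀ (P : Finset V) (p q r : ℝ), #P ≤ n → r ≠ 0 → #(tri P p q r) ≤ Λ * n ^ 2

lemma ev_P6 : Ev P6 := by
  refine ev_P6'.pow 1 1 fun n Λ Λ' hn hΛ hΛ' h P p q r hP hr => ?_
  have h1 : Λ * n ^ 2 ≤ Λ' * n ^ 2 :=
    mul_le_mul_of_nonneg_right (by simpa using hΛ') (by positivity)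
  refine le_trans ?_ h1
  by_cases hp : p = r + q
  · refine le_trans ?_ (h P q p r hP fun hq => hr (by linarith))
    have : #(tri P p q r) ≤ #(tri P q p r) := by
      apply card_le_card_of_injOn (fun t => (t.1, t.2.2, t.2.1))
      · intro t ht
        obtain ⟨⟨k1, k2, k3⟩, k4, k5, k6⟩ := mem_tri.1 (mem_coe.1 ht)
        exact mem_coe.2 (mem_tri.2 ⟨⟨k1, k3, k2⟩, k5, k4, d2_comm _ _ ▸ k6⟩)
      · intro s _ t _ hst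
        simp only [Prod.mk.injEq] at hst
        exact Prod.ext hst.1 (Prod.ext hst.2.2 hst.2.1)
    exact_mod_cast this
  · exact h P p q r hP hp

/-- Ordered tetrahedra with prescribed squared edge lengths. -/
noncomputable def tet (P : Finset V) (ab ac ad bc bd cd : ℝ) : Finset (V × V × V × V) :=
  {t ∈ P ×ˢ P ×ˢ P ×ˢ P | d2 t.1 t.2.1 = ab ∧ d2 t.1 t.2.2.1 = ac ∧ d2 t.1 t.2.2.2 = ad ∧
    d2 t.2.1 t.2.2.1 = bc ∧ d2 t.2.1 t.2.2.2 = bd ∧ d2 t.2.2.1 t.2.2.2 = cd}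

lemma mem_tet {P : Finset V} {ab ac ad bc bd cd : ℝ} {t : V × V × V × V} :
    t ∈ tet P ab ac ad bc bd cd ↔ (t.1 ∈ P ∧ t.2.1 ∈ P ∧ t.2.2.1 ∈ P ∧ t.2.2.2 ∈ P) ∧
      d2 t.1 t.2.1 = ab ∧ d2 t.1 t.2.2.1 = ac ∧ d2 t.1 t.2.2.2 = ad ∧
      d2 t.2.1 t.2.2.1 = bc ∧ d2 t.2.1 t.2.2.2 = bd ∧ d2 t.2.2.1 t.2.2.2 = cd := by
  simp only [tet, mem_filter, mem_product]

/-- Tetrahedra. -/
def P7 (n Λ : ℝ) : Prop :=
  ∀ (P : Finset V) (ab ac ad bc bd cd : ℝ), #P ≤ n → ab ≠ 0 → ac ≠ 0 → ad ≠ 0 → bc ≠ 0 →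
    bd ≠ 0 → cd ≠ 0 → ab ≠ bd + ad → ac ≠ cd + ad →
    (∀ a b d, d2 b a = ab → d2 b d = bd → d2 a d = ad → Ind2 (a - b) (d - b)) →
    (∀ a c d, d2 c a = ac → d2 c d = cd → d2 a d = ad → Ind2 (a - c) (d - c)) →
    #(tet P ab ac ad bc bd cd) ≤ Λ * n ^ 2

lemma ev_P7 : Ev P7 := by
  classical
  refine (((ev_P5.and ev_P6).and ev_P4').and ev_log).pow (96 + 6 ^ 5) 7
    fun n Λ Λ' hn hΛ hΛ' ⟨⟨⟨h5, h6⟩, h4⟩, hlog⟩ P ab ac ad bc bd cd hP z1 z2 z3 z4 z5 z6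
      r1 r2 t1 t2 => ?_
  have key := halving (fun D => (#{t ∈ tet P ab ac ad bc bd cd | t.2.2.2 ∈ D} : ℝ)) P
    ((96 + 6 ^ 5) * Λ ^ 6 * n ^ 2) (by positivity) (by simp) ?_ hn hP hlog
  · rw [filter_true_of_mem fun t ht => (mem_tet.1 ht).1.2.2.2] at key
    refine key.trans ?_
    rw [← mul_assoc]
    apply mul_le_mul_of_nonneg_right _ (by positivity)
    refine le_trans (le_of_eq ?_) hΛ'
    push_cast; ring
  intro D hD hne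
  have hDn : (#D : ℝ) ≤ n := le_trans (by exact_mod_cast card_le_card hD) hP
  obtain ⟨ξ, hξ, hξn⟩ := exists_xi hn hDn hne
  obtain ⟨Q₁, Q₁', c₁⟩ := h4 P D ad hP hDn hne ξ hξ hξn
  obtain ⟨Q₂, Q₂', c₂⟩ := h4 P D bd hP hDn hne ξ hξ hξn
  obtain ⟨Q₃, Q₃', c₃⟩ := h4 P D cd hP hDn hne ξ hξ hξn
  set E₁ : V → V → Prop :=
    fun x d => d2 x d = ad ∧ (∀ i, ¬ InPl (Q₁ x i) d) ∧ ∀ i, ¬ InPl (Q₁' d i) x with hE₁
  set E₂ : V → V → Prop :=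
    fun x d => d2 x d = bd ∧ (∀ i, ¬ InPl (Q₂ x i) d) ∧ ∀ i, ¬ InPl (Q₂' d i) x with hE₂
  set E₃ : V → V → Prop :=
    fun x d => d2 x d = cd ∧ (∀ i, ¬ InPl (Q₃ x i) d) ∧ ∀ i, ¬ InPl (Q₃' d i) x with hE₃
  let g : V → ℝ := fun d => #(nbr P E₁ d) + #(nbr P E₂ d) + #(nbr P E₃ d)
  have hg := markov D g (3 * Λ * ξ ^ 3) (by positivity) (fun a => by positivity) (by
    simp only [g, cnt] at c₁ c₂ c₃ ⊢
    rw [sum_add_distrib, sum_add_distrib]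
    linarith)
  refine ⟨_, filter_subset _ _, hg, ?_⟩
  set D' := {d ∈ D | 2 * (3 * Λ * ξ ^ 3) < g d} with hD'
  set S := {t ∈ tet P ab ac ad bc bd cd | t.2.2.2 ∈ D} with hS
  have hSm : ∀ t ∈ S, (t.1 ∈ P ∧ t.2.1 ∈ P ∧ t.2.2.1 ∈ P ∧ t.2.2.2 ∈ P) ∧
      d2 t.1 t.2.1 = ab ∧ d2 t.1 t.2.2.1 = ac ∧ d2 t.1 t.2.2.2 = ad ∧
      d2 t.2.1 t.2.2.1 = bc ∧ d2 t.2.1 t.2.2.2 = bd ∧ d2 t.2.2.1 t.2.2.2 = cd :=
    fun t ht => mem_tet.1 (mem_filter.1 ht).1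
  have simple : ∀ (x y z w : V × V × V × V → V) (p q r p' q' r' : ℝ) (Q : V → Fin 4 → Pl),
      p ≠ 0 → r ≠ 0 → q' ≠ 0 →
      (∀ s t, x s = x t → y s = y t → z s = z t → w s = w t → s = t) →
      (∀ s ∈ S, (x s ∈ P ∧ y s ∈ P ∧ z s ∈ P ∧ w s ∈ P) ∧ d2 (x s) (y s) = p ∧
        d2 (x s) (z s) = q ∧ d2 (y s) (z s) = r ∧ d2 (x s) (w s) = p' ∧ d2 (y s) (w s) = q' ∧
        d2 (z s) (w s) = r') →
      (#{s ∈ S | ∃ i, InPl (Q (x s) i) (w s)} : ℝ) ≤ 4 * (4 * (Λ * n ^ 2)) := by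
    intro x y z w p q r p' q' r' Q hp hr hq' h1 h2
    convert card_exists_le S (fun i s => InPl (Q (x s) i) (w s)) _ fun i => ?_
    have a1 := simple_four {s ∈ S | InPl (Q (x s) i) (w s)} x y z w p q r p' q' r' hp
      (fun v => Q v i) (tri P p q r) (tri P p p' q') (fun s _ t _ => h1 s t)
      (fun s hs => by
        obtain ⟨⟨k1, k2, k3, k4⟩, m1, m2, m3, m4, m5, m6⟩ := h2 s (mem_filter.1 hs).1
        exact ⟨mem_tri.2 ⟨⟨k1, k2, k3⟩, m1, m2, m3⟩, mem_tri.2 ⟨⟨k1, k2, k4⟩, m1, m4, m5⟩,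
          m1, m2, m3, m4, m5, m6, (mem_filter.1 hs).2⟩)
    have a2 : (#{s ∈ S | InPl (Q (x s) i) (w s)} : ℝ) ≤
        2 * #(tri P p q r) + 2 * #(tri P p p' q') := by exact_mod_cast a1
    linarith [h6 P p q r hP hr, h6 P p p' q' hP hq']
  have s1 := simple (·.1) (·.2.1) (·.2.2.1) (·.2.2.2) ab ac bc ad bd cd Q₁ z1 z4 z5
    (fun s t h1 h2 h3 h4 => Prod.ext h1 (Prod.ext h2 (Prod.ext h3 h4)))
    (fun s hs => by
      obtain ⟨⟨k1, k2, k3, k4⟩, m1, m2, m3, m4, m5, m6⟩ := hSm s hs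
      exact ⟨⟨k1, k2, k3, k4⟩, m1, m2, m4, m3, m5, m6⟩)
  have s2 := simple (·.2.2.2) (·.2.1) (·.2.2.1) (·.1) bd cd bc ad ab ac Q₁' z5 z4 z1
    (fun s t h1 h2 h3 h4 => Prod.ext h4 (Prod.ext h2 (Prod.ext h3 h1)))
    (fun s hs => by
      obtain ⟨⟨k1, k2, k3, k4⟩, m1, m2, m3, m4, m5, m6⟩ := hSm s hs
      exact ⟨⟨k4, k2, k3, k1⟩, d2_comm _ _ ▸ m5, d2_comm _ _ ▸ m6, m4, d2_comm _ _ ▸ m3,
        d2_comm _ _ ▸ m1, d2_comm _ _ ▸ m2⟩)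
  have s3 := simple (·.2.1) (·.1) (·.2.2.1) (·.2.2.2) ab bc ac bd ad cd Q₂ z1 z2 z3
    (fun s t h1 h2 h3 h4 => Prod.ext h2 (Prod.ext h1 (Prod.ext h3 h4)))
    (fun s hs => by
      obtain ⟨⟨k1, k2, k3, k4⟩, m1, m2, m3, m4, m5, m6⟩ := hSm s hs
      exact ⟨⟨k2, k1, k3, k4⟩, d2_comm _ _ ▸ m1, m4, m2, m5, m3, m6⟩)
  have s4 := simple (·.2.2.2) (·.1) (·.2.2.1) (·.2.1) ad cd ac bd ab bc Q₂' z3 z2 z1
    (fun s t h1 h2 h3 h4 => Prod.ext h2 (Prod.ext h4 (Prod.ext h3 h1)))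
    (fun s hs => by
      obtain ⟨⟨k1, k2, k3, k4⟩, m1, m2, m3, m4, m5, m6⟩ := hSm s hs
      exact ⟨⟨k4, k1, k3, k2⟩, d2_comm _ _ ▸ m3, d2_comm _ _ ▸ m6, m2, d2_comm _ _ ▸ m5,
        m1, d2_comm _ _ ▸ m4⟩)
  have s5 := simple (·.2.2.1) (·.1) (·.2.1) (·.2.2.2) ac bc ab cd ad bd Q₃ z2 z1 z3
    (fun s t h1 h2 h3 h4 => Prod.ext h2 (Prod.ext h3 (Prod.ext h1 h4)))
    (fun s hs => by
      obtain ⟨⟨k1, k2, k3, k4⟩, m1, m2, m3, m4, m5, m6⟩ := hSm s hs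
      exact ⟨⟨k3, k1, k2, k4⟩, d2_comm _ _ ▸ m2, d2_comm _ _ ▸ m4, m1, m6, m3, m5⟩)
  have s6 := simple (·.2.2.2) (·.1) (·.2.1) (·.2.2.1) ad bd ab cd ac bc Q₃' z3 z1 z2
    (fun s t h1 h2 h3 h4 => Prod.ext h2 (Prod.ext h3 (Prod.ext h4 h1)))
    (fun s hs => by
      obtain ⟨⟨k1, k2, k3, k4⟩, m1, m2, m3, m4, m5, m6⟩ := hSm s hs
      exact ⟨⟨k4, k1, k2, k3⟩, d2_comm _ _ ▸ m3, d2_comm _ _ ▸ m5, m1, d2_comm _ _ ▸ m6,
        m2, m4⟩)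
  set H := {t ∈ S | t.2.2.2 ∉ D' ∧ E₁ t.1 t.2.2.2 ∧ E₂ t.2.1 t.2.2.2 ∧ E₃ t.2.2.1 t.2.2.2} with hH
  obtain ⟨hθ, hθ3⟩ := le_cube (a := 6) (by norm_num) hΛ hξ
  set θ := 6 * Λ * ξ with hθd
  have s7 : (#H : ℝ) ≤ 6 ^ 5 * Λ ^ 6 * n ^ 2 := by
    have a1 : #H ≤ #((D \ D').sigma fun d => (nbr P E₁ d).sigma fun a =>
        (nb (nbr P E₃ d) a ac).sigma fun c => nb (nb (nbr P E₂ d) a ab) c bc) := by
      apply card_le_card_of_injOn (fun t => ⟨t.2.2.2, t.1, t.2.2.1, t.2.1⟩)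
      · intro t ht
        obtain ⟨k1, k2, k3, k4, k5⟩ := mem_filter.1 (mem_coe.1 ht)
        obtain ⟨⟨m1, m2, m3, -⟩, m4, m5, -, m6, -⟩ := hSm t k1
        exact mem_coe.2 (mem_sigma.2 ⟨mem_sdiff.2 ⟨(mem_filter.1 k1).2, k2⟩,
          mem_sigma.2 ⟨mem_nbr.2 ⟨m1, k3⟩, mem_sigma.2
            ⟨mem_nb.2 ⟨mem_nbr.2 ⟨m3, k5⟩, d2_comm _ _ ▸ m5⟩,
              mem_nb.2 ⟨mem_nb.2 ⟨mem_nbr.2 ⟨m2, k4⟩, d2_comm _ _ ▸ m4⟩, m6⟩⟩⟩⟩)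
      · intro s _ t _ hst
        simp only [Sigma.mk.injEq, heq_eq_eq] at hst
        exact Prod.ext hst.2.1 (Prod.ext hst.2.2.2 (Prod.ext hst.2.2.1 hst.1))
    simp only [card_sigma] at a1
    have a2 : (#H : ℝ) ≤ ∑ d ∈ D \ D', ∑ a ∈ nbr P E₁ d, ∑ c ∈ nb (nbr P E₃ d) a ac,
        (#(nb (nb (nbr P E₂ d) a ab) c bc) : ℝ) := by
      exact_mod_cast a1
    have a3 := sum_le_card_nsmul (D \ D')
      (fun d => ∑ a ∈ nbr P E₁ d, ∑ c ∈ nb (nbr P E₃ d) a ac,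
        (#(nb (nb (nbr P E₂ d) a ab) c bc) : ℝ)) (Λ * θ ^ 5) (by
        intro d hd
        have k : g d ≤ θ ^ 3 := by
          have := (mem_sdiff.1 hd).2
          rw [hD', mem_filter, not_and, not_lt] at this
          linarith [this (mem_sdiff.1 hd).1]
        have k1 : (0 : ℝ) ≤ #(nbr P E₁ d) := by positivity
        have k2 : (0 : ℝ) ≤ #(nbr P E₂ d) := by positivity
        have k3 : (0 : ℝ) ≤ #(nbr P E₃ d) := by positivity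
        simp only [g] at k
        exact h5 (nbr P E₁ d) (nbr P E₂ d) (nbr P E₃ d) d ab ac ad bc bd cd
          ((card_nbr_le _ _ _).trans hP) ((card_nbr_le _ _ _).trans hP)
          ((card_nbr_le _ _ _).trans hP) r1 r2 z3 t1 t2
          (fun b hb => (mem_nbr.1 hb).2.1) (fun b hb => (mem_nbr.1 hb).2.1)
          (fun b hb => (mem_nbr.1 hb).2.1) θ hθ (by linarith) (by linarith) (by linarith))
    refine a2.trans (a3.trans ?_)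
    rw [nsmul_eq_mul]
    calc _ ≤ #D * (Λ * θ ^ 5) := mul_le_mul_of_nonneg_right
          (by exact_mod_cast card_le_card sdiff_subset) (by positivity)
      _ = 6 ^ 5 * Λ ^ 6 * (ξ ^ 5 * #D) := by rw [hθd]; ring
      _ = _ := by rw [hξn]
  have s8 := card_le_list [{s ∈ S | ∃ i, InPl (Q₁ s.1 i) s.2.2.2},
    {s ∈ S | ∃ i, InPl (Q₁' s.2.2.2 i) s.1}, {s ∈ S | ∃ i, InPl (Q₂ s.2.1 i) s.2.2.2},
    {s ∈ S | ∃ i, InPl (Q₂' s.2.2.2 i) s.2.1}, {s ∈ S | ∃ i, InPl (Q₃ s.2.2.1 i) s.2.2.2},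
    {s ∈ S | ∃ i, InPl (Q₃' s.2.2.2 i) s.2.2.1}, H,
    {t ∈ tet P ab ac ad bc bd cd | t.2.2.2 ∈ D'}] S (by
      intro s hs
      simp only [List.mem_cons, List.not_mem_nil, or_false, exists_eq_or_imp, exists_eq_left,
        mem_filter, hH, hE₁, hE₂, hE₃]
      by_contra hcon
      push Not at hcon
      obtain ⟨k1, k2, k3, k4, k5, k6, k7, k8⟩ := hcon
      obtain ⟨-, -, -, m4, -, m5, m6⟩ := hSm s hs
      obtain ⟨i, hi⟩ := k7 hs (k8 (mem_filter.1 hs).1) ⟨m4, k1 hs, k2 hs⟩ ⟨m5, k3 hs, k4 hs⟩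
        m6 (k5 hs)
      exact k6 hs i hi)
  simp only [List.map_cons, List.map_nil, List.sum_cons, List.sum_nil, add_zero] at s8
  have s9 : (#S : ℝ) ≤ _ := Nat.cast_le.2 s8
  push_cast at s9
  have hΛ6 : Λ * n ^ 2 ≤ Λ ^ 6 * n ^ 2 :=
    mul_le_mul_of_nonneg_right (le_self_pow₀ hΛ (by norm_num)) (by positivity)
  linarith

end Pool.Agent.P.MP_f7c707_co
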