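import Pool.Agent.P.MP_f7c707_co.Main

/-- Former hand-in, implied by the hand-in `SharpConstant`. The worst-case exponent for the
number of congruent copies of a 3-simplex spanned by `n` points of Euclidean four-space
equals two. -/
theorem Pool.Agent.P.MP_f7c707_co.variantAlphaTwo :
    Pool.Agent.P.MP_f7c707_co.alphaStar = 2 :=
  Pool.Agent.P.MP_f7c707_co.alphaStar_eq
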