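import Pool.Agent.P.MP_f7c707_co.QMain

/-- Former hand-in, replaced by the hand-in `SharpConstant`. There is an absolute constant `C`
such that `n` points of Euclidean four-space span at most `C * n ^ 2` congruent copies of any
given 3-simplex. -/
theorem Pool.Agent.P.MP_f7c707_co.variantQuadraticBound :
    ∃ C : ℝ, ∀ s : Finset Pool.Agent.P.MP_f7c707_co.E4, Pool.Agent.P.MP_f7c707_co.IsSimplex3 s →
      ∀ n : ℕ, (Pool.Agent.P.MP_f7c707_co.maxCopies s n : ℝ) ≤ C * (n : ℝ) ^ 2 :=
  Pool.Agent.P.MP_f7c707_co.maxCopies_le_sq
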