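import Pool.Agent.P.MP_f7c707_co.ShM

open Pool.Agent.P.MP_f7c707_co

/-- Former hand-in, implied by the hand-in `ExactMaximum`. -/
theorem Pool.Agent.P.MP_f7c707_co.variantSharpConstant :
    ∃ s₀ : Finset E4, IsSimplex3 s₀ ∧ ∀ ε : ℝ, 0 < ε → ∃ N : ℕ, ∀ n : ℕ, N ≤ n →
    (1 - ε) * (n : ℝ) ^ 2 ≤ maxCopies s₀ n ∧
      ∀ s : Finset E4, IsSimplex3 s → (maxCopies s n : ℝ) ≤ (1 + ε) * (n : ℝ) ^ 2 :=
  Sh.sharp
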